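import Pool.Agent.Helper84.SPQ.D0

/-!
# Project SPQ, block D1: images of `SL(2, ℝ)` under proper homomorphisms

`ker_sl2`. PROOF. The kernel `K` is compact (`K ⊆ f⁻¹ {1}`, closed, `f` proper; or directly: the complement of `f⁻¹ {1}` is in `cocompact`) and normal. Let `A ∈ K`. Compact subsets of `SL(2, ℝ)` are bounded (`bdd_SL` in `Helper96/FR/Rge2.lean`). For `d = diag(s, 1/s)`: `(d A d⁻¹) 0 1 = s² A 0 1`, `(d A d⁻¹) 1 0 = s⁻² A 1 0`;
`s → ∞` and `s → 0`: `A 0 1 = A 1 0 = 0`. `A = diag(x, 1/x)`: `(u A u⁻¹) 0 1 = t (1/x - x)` for `u = uE t`: so `x = 1/x`.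
`sl2_step`. PROOF. `a m`: `diag(2, 1/2) ^ m = diag(2^m, 2^(-m))` tends to infinity (entries unbounded: compact sets are bounded). `(diag ^ m)⁻¹ uE 4 diag ^ m = uE (4 * 4^(-m)) → 1`, `diag ^ m lE 4 (diag ^ m)⁻¹ = lE (4 * 4^(-m)) → 1`.
Discreteness and nonamenability of `⟨f (uE 4), f (lE 4)⟩`: copy `Helper96/FR/Rge1.lean` (`F₀`, `F₀_le`, `fz`, `fz_injective`, `range_fz`, `nonAm_range`, `discrete_range`, `finite_jz`) with `f : SL(2, ℝ) →* G` in place of `f.comp (jb e)`: the map `F₀ → G` is injective by `ker_sl2` (`-1 ∉ F₀`),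
the elements of `SL(2, ℤ)` with real image in a compact set are finitely many.
-/

set_option autoImplicit false

open Filter Topology Matrix

namespace Pool.Agent.Helper84.SPQ

open Pool.Agent.Helper90.RK (NonAm)
open Pool.Agent.Helper96.FR

variable {G : Type} [Group G] [TopologicalSpace G]

/-- the diagonal matrix `diag(2, 1/2)` -/
noncomputable def d2 : SL2R := ⟨!![2, 0; 0, 1 / 2], by simp⟩

/-- diagonal matrices -/
private noncomputable def dS_h12 (s t : ℝ) (h : s * t = 1) : SL2R := ⟨!![s, 0; 0, t], by simp [h]⟩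

private theorem bddker_h12 [T2Space G] (f : SL2R →* G) (hf : Prp f) :
    ∃ M : ℝ, ∀ A, f A = 1 → ∀ x y, |(A : Matrix (Fin 2) (Fin 2) ℝ) x y| ≤ M := by
  have h1 : f ⁻¹' ({1}ᶜ : Set G) ∈ cocompact SL2R := hf.2 isCompact_singleton.compl_mem_cocompact
  obtain ⟨C, hC, hCK⟩ := mem_cocompact.1 h1
  obtain ⟨M, hM⟩ := bdd_SL hC
  refine ⟨M, fun A hA x y => ?_⟩
  have h2 : A ∈ C := by
    by_contra hn
    exact hCK hn hA
  exact hM A h2 x y

private theorem zero_h12 {M a : ℝ} (h : ∀ n : ℕ, ((n : ℝ) + 1) ^ 2 * |a| ≤ M) : a = 0 := by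
  by_contra hne
  have hpos : 0 < |a| := abs_pos.2 hne
  obtain ⟨n, hn⟩ := exists_nat_gt (M / |a|)
  have h1 := h n
  have h2 : M < (n : ℝ) * |a| := by
    rw [div_lt_iff₀ hpos] at hn
    exact hn
  have h3 : (n : ℝ) * |a| ≤ ((n : ℝ) + 1) ^ 2 * |a| := by
    apply mul_le_mul_of_nonneg_right _ hpos.le
    have : (0 : ℝ) ≤ n := Nat.cast_nonneg n
    nlinarith
  linarith

private theorem offdiag_h12 [T2Space G] (f : SL2R →* G) (hf : Prp f) (A : SL2R) (hA : f A = 1) :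
    (A : Matrix (Fin 2) (Fin 2) ℝ) 0 1 = 0 ∧ (A : Matrix (Fin 2) (Fin 2) ℝ) 1 0 = 0 := by
  obtain ⟨M, hM⟩ := bddker_h12 f hf
  have key : ∀ (s t : ℝ) (h : s * t = 1), |s * (A : Matrix (Fin 2) (Fin 2) ℝ) 0 1 * s| ≤ M ∧
      |t * (A : Matrix (Fin 2) (Fin 2) ℝ) 1 0 * t| ≤ M := by
    intro s t h
    have h' : t * s = 1 := by rw [mul_comm]; exact h
    have e0 : dS_h12 s t h * dS_h12 t s h' = 1 := by
      apply Subtype.ext
      show (!![s, 0; 0, t] : Matrix (Fin 2) (Fin 2) ℝ) * !![t, 0; 0, s] = 1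
      ext x y
      fin_cases x <;> fin_cases y <;> simp [Matrix.mul_apply, Fin.sum_univ_two, h, h']
    have e1 : f (dS_h12 s t h * A * dS_h12 t s h') = 1 := by
      rw [map_mul, map_mul, hA, mul_one, ← map_mul, e0, map_one]
    have e2 : ((dS_h12 s t h * A * dS_h12 t s h' : SL2R) : Matrix (Fin 2) (Fin 2) ℝ) =
        !![s, 0; 0, t] * (A : Matrix (Fin 2) (Fin 2) ℝ) * !![t, 0; 0, s] := rfl
    have h01 := hM _ e1 0 1
    have h10 := hM _ e1 1 0
    rw [e2] at h01 h10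
    simp only [Matrix.mul_apply, Fin.sum_univ_two] at h01 h10
    simp at h01 h10
    refine ⟨?_, ?_⟩
    · simpa [abs_mul] using h01
    · simpa [abs_mul] using h10
  constructor
  · apply zero_h12 (M := M)
    intro n
    have hn : (0 : ℝ) < (n : ℝ) + 1 := by positivity
    have h1 := (key ((n : ℝ) + 1) ((n : ℝ) + 1)⁻¹ (mul_inv_cancel₀ hn.ne')).1
    rw [abs_mul, abs_mul, abs_of_pos hn] at h1
    nlinarith [h1]
  · apply zero_h12 (M := M)
    intro n
    have hn : (0 : ℝ) < (n : ℝ) + 1 := by positivity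
    have h1 := (key ((n : ℝ) + 1)⁻¹ ((n : ℝ) + 1) (inv_mul_cancel₀ hn.ne')).2
    rw [abs_mul, abs_mul, abs_of_pos hn] at h1
    nlinarith [h1]

theorem ker_sl2 [T2Space G] (f : SL2R →* G) (hf : Prp f) (A : SL2R) (hA : f A = 1) :
    (A : Matrix (Fin 2) (Fin 2) ℝ) = 1 ∨ (A : Matrix (Fin 2) (Fin 2) ℝ) = -1 := by
  obtain ⟨h01, h10⟩ := offdiag_h12 f hf A hA
  have hdet : (A : Matrix (Fin 2) (Fin 2) ℝ) 0 0 * (A : Matrix (Fin 2) (Fin 2) ℝ) 1 1 = 1 := by
    have h1 : (A : Matrix (Fin 2) (Fin 2) ℝ).det = 1 := A.2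
    rw [Matrix.det_fin_two, h01, zero_mul, sub_zero] at h1
    exact h1
  have e0 : (uE 1 : SL2R) * uE (-1) = 1 := by
    apply Subtype.ext
    show (!![1, 1; 0, 1] : Matrix (Fin 2) (Fin 2) ℝ) * !![1, -1; 0, 1] = 1
    ext x y
    fin_cases x <;> fin_cases y <;> simp [Matrix.mul_apply, Fin.sum_univ_two]
  have e1 : f ((uE 1 : SL2R) * A * uE (-1)) = 1 := by
    rw [map_mul, map_mul, hA, mul_one, ← map_mul, e0, map_one]
  have e2 : (((uE 1 : SL2R) * A * uE (-1) : SL2R) : Matrix (Fin 2) (Fin 2) ℝ) =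
      !![1, 1; 0, 1] * (A : Matrix (Fin 2) (Fin 2) ℝ) * !![1, -1; 0, 1] := rfl
  have h2 := (offdiag_h12 f hf _ e1).1
  rw [e2] at h2
  simp only [Matrix.mul_apply, Fin.sum_univ_two] at h2
  simp [h01, h10] at h2
  have h3 : (A : Matrix (Fin 2) (Fin 2) ℝ) 0 0 = (A : Matrix (Fin 2) (Fin 2) ℝ) 1 1 := by linarith
  rw [← h3] at hdet
  rcases mul_self_eq_one_iff.1 hdet with h4 | h4
  · left
    rw [h4] at h3
    ext x y
    fin_cases x <;> fin_cases y
    · simpa using h4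
    · simpa using h01
    · simpa using h10
    · simpa using h3.symm
  · right
    rw [h4] at h3
    ext x y
    fin_cases x <;> fin_cases y
    · simpa using h4
    · simpa using h01
    · simpa using h10
    · simpa using h3.symm

private theorem d2pow_h12 (m : ℕ) : ((d2 ^ m : SL2R) : Matrix (Fin 2) (Fin 2) ℝ) = !![2 ^ m, 0; 0, (1 / 2) ^ m] := by
  induction m with
  | zero =>
    show (1 : Matrix (Fin 2) (Fin 2) ℝ) = _
    ext x y
    fin_cases x <;> fin_cases y <;> simp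
  | succ m ih =>
    have e : ((d2 ^ (m + 1) : SL2R) : Matrix (Fin 2) (Fin 2) ℝ) =
        ((d2 ^ m : SL2R) : Matrix (Fin 2) (Fin 2) ℝ) * !![2, 0; 0, 1 / 2] := by
      rw [pow_succ]; rfl
    rw [e, ih]
    ext x y
    fin_cases x <;> fin_cases y <;> simp [Matrix.mul_apply, Fin.sum_univ_two, pow_succ]

private theorem d2tend_h12 : Tendsto (fun m : ℕ => (d2 ^ m : SL2R)) atTop (cocompact SL2R) := by
  rw [(hasBasis_cocompact).tendsto_right_iff]
  intro C hC
  obtain ⟨M, hM⟩ := bdd_SL hC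
  have h1 : Tendsto (fun m : ℕ => (2 : ℝ) ^ m) atTop atTop := tendsto_pow_atTop_atTop_of_one_lt (by norm_num)
  filter_upwards [h1.eventually (eventually_gt_atTop M)] with m hm hmem
  have h2 := hM _ hmem 0 0
  have e1 : ((d2 ^ m : SL2R) : Matrix (Fin 2) (Fin 2) ℝ) 0 0 = 2 ^ m := by
    rw [d2pow_h12]; simp
  rw [e1, Real.norm_eq_abs, abs_of_pos (by positivity)] at h2
  linarith

/-- the real points of an integral matrix -/
private def jr_h12 : SpecialLinearGroup (Fin 2) ℤ →* SL2R := SpecialLinearGroup.map (Int.castRingHom ℝ)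

private theorem jr_apply_h12 (A : SpecialLinearGroup (Fin 2) ℤ) (x y : Fin 2) :
    (jr_h12 A : Matrix (Fin 2) (Fin 2) ℝ) x y = ((A.1 x y : ℤ) : ℝ) := rfl

private theorem jr_uE_h12 (t : ℤ) : jr_h12 (uE t) = uE (t : ℝ) := by
  apply Subtype.ext
  ext x y
  refine (jr_apply_h12 (uE t) x y).trans ?_
  fin_cases x <;> fin_cases y <;> simp [uE]

private theorem jr_lE_h12 (t : ℤ) : jr_h12 (lE t) = lE (t : ℝ) := by
  apply Subtype.ext
  ext x y
  refine (jr_apply_h12 (lE t) x y).trans ?_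
  fin_cases x <;> fin_cases y <;> simp [lE]

private theorem finite_jr_h12 {C : Set SL2R} (hC : IsCompact C) :
    {A : SpecialLinearGroup (Fin 2) ℤ | jr_h12 A ∈ C}.Finite := by
  obtain ⟨M, hM⟩ := bdd_SL hC
  let N : ℤ := ⌈M⌉
  have h1 : {B : Matrix (Fin 2) (Fin 2) ℤ | ∀ x y, |B x y| ≤ N}.Finite := by
    have h2 : (Set.univ.pi fun _ : Fin 2 => (Set.univ.pi fun _ : Fin 2 => Set.Icc (-N) N)).Finite :=
      Set.Finite.pi fun _ => Set.Finite.pi fun _ => Set.finite_Icc _ _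
    refine h2.subset ?_
    intro B hB
    exact Set.mem_univ_pi.2 fun x => Set.mem_univ_pi.2 fun y => abs_le.1 (hB x y)
  have h3 : {A : SpecialLinearGroup (Fin 2) ℤ | jr_h12 A ∈ C} ⊆
      (fun A : SpecialLinearGroup (Fin 2) ℤ => A.1) ⁻¹' {B : Matrix (Fin 2) (Fin 2) ℤ | ∀ x y, |B x y| ≤ N} := by
    intro A hA x y
    have h4 := hM _ hA x y
    have h4' : |((A.1 x y : ℤ) : ℝ)| ≤ M := h4
    rw [← Int.cast_abs] at h4'
    have h5 : ((|A.1 x y| : ℤ) : ℝ) ≤ (N : ℝ) := h4'.trans (Int.le_ceil M)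
    exact_mod_cast h5
  exact (h1.preimage (Subtype.val_injective.injOn)).subset h3

/-- the image of the free group in `G` -/
private def fzr_h12 (f : SL2R →* G) : F₀ →* G := (f.comp jr_h12).comp F₀.subtype

private theorem fzr_injective_h12 (f : SL2R →* G)
    (hk : ∀ g, f g = 1 → (g : Matrix (Fin 2) (Fin 2) ℝ) = 1 ∨ (g : Matrix (Fin 2) (Fin 2) ℝ) = -1) :
    Function.Injective (fzr_h12 f) := by
  rw [injective_iff_map_eq_one]
  intro A hA
  have h4 := F₀_le A.2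
  rcases hk (jr_h12 A) hA with h | h
  · apply Subtype.ext
    apply Subtype.ext
    ext x y
    have h1 := jr_apply_h12 (A : SpecialLinearGroup (Fin 2) ℤ) x y
    rw [h] at h1
    have h2 : ((1 : Matrix (Fin 2) (Fin 2) ℤ) x y : ℝ) = (1 : Matrix (Fin 2) (Fin 2) ℝ) x y := by
      rw [one_apply, one_apply]
      split_ifs <;> simp
    rw [← h2] at h1
    have h3 : (A : SpecialLinearGroup (Fin 2) ℤ).1 x y = (1 : Matrix (Fin 2) (Fin 2) ℤ) x y := by exact_mod_cast h1.symm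
    exact h3
  · exfalso
    have h1 := jr_apply_h12 (A : SpecialLinearGroup (Fin 2) ℤ) 0 0
    rw [h, Matrix.neg_apply, one_apply_eq] at h1
    have h3 : (A : SpecialLinearGroup (Fin 2) ℤ).1 0 0 = -1 := by exact_mod_cast h1.symm
    have h5 := h4.1.1
    rw [h3] at h5
    omega

private theorem range_fzr_h12 (f : SL2R →* G) : (fzr_h12 f).range = Subgroup.closure {f (uE 4), f (lE 4)} := by
  unfold fzr_h12
  rw [MonoidHom.range_comp, Subgroup.range_subtype, F₀, MonoidHom.map_closure]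
  congr 1
  rw [Set.image_pair]
  show {f (jr_h12 (uE 4)), f (jr_h12 (lE 4))} = _
  rw [jr_uE_h12, jr_lE_h12]
  norm_num

private theorem nonAm_range_h12 (f : SL2R →* G)
    (hk : ∀ g, f g = 1 → (g : Matrix (Fin 2) (Fin 2) ℝ) = 1 ∨ (g : Matrix (Fin 2) (Fin 2) ℝ) = -1) :
    NonAm (fzr_h12 f).range := by
  rw [Pool.Agent.Helper66.RK.nonAm_iff]
  intro hA
  have h1 : Pool.Agent.Helper66.RK.Am F₀ := hA.congr (MonoidHom.ofInjective (fzr_injective_h12 f hk)).symm
  refine Pool.Agent.Helper66.RK.not_am_sl (Λ := F₀) F₀.subtype 4 (by norm_num)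
    ⟨uE 4, Subgroup.subset_closure (Or.inl rfl)⟩ ⟨lE 4, Subgroup.subset_closure (Or.inr rfl)⟩ rfl rfl h1

private theorem discrete_range_h12 [IsTopologicalGroup G] [LocallyCompactSpace G] [T2Space G] (f : SL2R →* G)
    (hp : Tendsto f (cocompact _) (cocompact G)) : DiscreteTopology (fzr_h12 f).range := by
  obtain ⟨K, hK, hK1⟩ := exists_compact_mem_nhds (1 : G)
  have h1 : f ⁻¹' Kᶜ ∈ cocompact SL2R := hp hK.compl_mem_cocompact
  obtain ⟨C, hC, hCK⟩ := mem_cocompact.1 h1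
  have hfin : {A : F₀ | fzr_h12 f A ∈ K}.Finite := by
    have h2 := (finite_jr_h12 hC).preimage (f := fun A : F₀ => (A : SpecialLinearGroup (Fin 2) ℤ))
      Subtype.val_injective.injOn
    refine h2.subset fun A hA => ?_
    by_contra hn
    exact hCK hn hA
  refine discreteTopology_of_isOpen_singleton_one ?_
  have hT : {x : (fzr_h12 f).range | (x : G) ∈ K}.Finite := by
    have h3 := hfin.image (fun A : F₀ => (⟨fzr_h12 f A, A, rfl⟩ : (fzr_h12 f).range))
    refine h3.subset ?_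
    rintro ⟨x, A, rfl⟩ hx
    exact ⟨A, hx, rfl⟩
  have hT2 : ({x : (fzr_h12 f).range | (x : G) ∈ K} \ {1}).Finite := hT.subset Set.sdiff_subset
  have hopen : IsOpen (((↑) : (fzr_h12 f).range → G) ⁻¹' interior K \ ({x : (fzr_h12 f).range | (x : G) ∈ K} \ {1})) :=
    (isOpen_interior.preimage continuous_subtype_val).sdiff hT2.isClosed
  convert hopen using 1
  ext x
  simp only [Set.mem_singleton_iff, Set.mem_sdiff, Set.mem_preimage, Set.mem_ofPred_eq, not_and, not_not]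
  constructor
  · rintro rfl
    exact ⟨mem_interior_iff_mem_nhds.2 hK1, fun _ => rfl⟩
  · rintro ⟨h2, h3⟩
    exact h3 (interior_subset h2)

private theorem contU_h12 : Continuous fun s : ℝ => (uE s : SL2R) := by
  refine Continuous.subtype_mk ?_ _
  refine continuous_matrix fun x y => ?_
  fin_cases x <;> fin_cases y <;> simp <;> fun_prop

private theorem contL_h12 : Continuous fun s : ℝ => (lE s : SL2R) := by
  refine Continuous.subtype_mk ?_ _
  refine continuous_matrix fun x y => ?_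
  fin_cases x <;> fin_cases y <;> simp <;> fun_prop

private theorem uE0_h12 : (uE 0 : SL2R) = 1 := Subtype.ext (by ext x y; fin_cases x <;> fin_cases y <;> simp [uE])

private theorem lE0_h12 : (lE 0 : SL2R) = 1 := Subtype.ext (by ext x y; fin_cases x <;> fin_cases y <;> simp [lE])

private theorem lim_h12 : Tendsto (fun m : ℕ => (4 : ℝ) * (1 / 4) ^ m) atTop (𝓝 0) := by
  have h1 := (tendsto_pow_atTop_nhds_zero_of_lt_one (r := (1 / 4 : ℝ)) (by norm_num) (by norm_num)).const_mul 4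
  rw [mul_zero] at h1
  exact h1

private theorem quarter_h12 (m : ℕ) : (2 : ℝ) ^ m * (4 * (1 / 4) ^ m) = 4 * (1 / 2) ^ m := by
  have h : (2 : ℝ) ^ m * (1 / 4) ^ m = (1 / 2) ^ m := by
    rw [← mul_pow]; norm_num
  calc (2 : ℝ) ^ m * (4 * (1 / 4) ^ m) = 4 * (2 ^ m * (1 / 4) ^ m) := by ring
    _ = _ := by rw [h]

private theorem conjU_h12 (m : ℕ) : d2 ^ m * uE (4 * (1 / 4) ^ m) = (uE 4 : SL2R) * d2 ^ m := by
  apply Subtype.ext
  have e1 : ((d2 ^ m * uE (4 * (1 / 4) ^ m) : SL2R) : Matrix (Fin 2) (Fin 2) ℝ) =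
      ((d2 ^ m : SL2R) : Matrix (Fin 2) (Fin 2) ℝ) * !![1, 4 * (1 / 4) ^ m; 0, 1] := rfl
  have e2 : (((uE 4 : SL2R) * d2 ^ m : SL2R) : Matrix (Fin 2) (Fin 2) ℝ) =
      !![1, 4; 0, 1] * ((d2 ^ m : SL2R) : Matrix (Fin 2) (Fin 2) ℝ) := rfl
  refine e1.trans (Eq.trans ?_ e2.symm)
  rw [d2pow_h12]
  have h := quarter_h12 m
  ext x y
  fin_cases x <;> fin_cases y
  · simp [Matrix.mul_apply, Fin.sum_univ_two]
  · simp only [Matrix.mul_apply, Fin.sum_univ_two]
    simpa using h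
  · simp [Matrix.mul_apply, Fin.sum_univ_two]
  · simp [Matrix.mul_apply, Fin.sum_univ_two]

private theorem conjL_h12 (m : ℕ) : d2 ^ m * (lE 4 : SL2R) = lE (4 * (1 / 4) ^ m) * d2 ^ m := by
  apply Subtype.ext
  have e1 : ((d2 ^ m * lE 4 : SL2R) : Matrix (Fin 2) (Fin 2) ℝ) =
      ((d2 ^ m : SL2R) : Matrix (Fin 2) (Fin 2) ℝ) * !![1, 0; 4, 1] := rfl
  have e2 : (((lE (4 * (1 / 4) ^ m) : SL2R) * d2 ^ m : SL2R) : Matrix (Fin 2) (Fin 2) ℝ) =
      !![1, 0; 4 * (1 / 4) ^ m, 1] * ((d2 ^ m : SL2R) : Matrix (Fin 2) (Fin 2) ℝ) := rfl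
  refine e1.trans (Eq.trans ?_ e2.symm)
  rw [d2pow_h12]
  have h := quarter_h12 m
  ext x y
  fin_cases x <;> fin_cases y
  · simp [Matrix.mul_apply, Fin.sum_univ_two]
  · simp [Matrix.mul_apply, Fin.sum_univ_two]
  · simp only [Matrix.mul_apply, Fin.sum_univ_two]
    have h' : (1 / 2 : ℝ) ^ m * 4 = 4 * (1 / 4) ^ m * 2 ^ m := by linarith
    simpa using h'
  · simp [Matrix.mul_apply, Fin.sum_univ_two]

theorem sl2_step [IsTopologicalGroup G] [LocallyCompactSpace G] [T2Space G] (f : SL2R →* G) (hf : Prp f) :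
    Tendsto (fun m : ℕ => f d2 ^ m) atTop (cocompact G) ∧
      Tendsto (fun m : ℕ => (f d2 ^ m)⁻¹ * f (uE 4) * f d2 ^ m) atTop (𝓝 1) ∧
      Tendsto (fun m : ℕ => f d2 ^ m * f (lE 4) * (f d2 ^ m)⁻¹) atTop (𝓝 1) ∧
      DiscreteTopology (Subgroup.closure {f (uE 4), f (lE 4)}) ∧ NonAm (Subgroup.closure {f (uE 4), f (lE 4)}) := by
  have hk := ker_sl2 f hf
  refine ⟨?_, ?_, ?_, ?_, ?_⟩
  · refine (hf.2.comp d2tend_h12).congr fun m => ?_
    show f (d2 ^ m) = _
    rw [map_pow]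
  · have hc : Tendsto (fun s : ℝ => f (uE s)) (𝓝 0) (𝓝 1) := by
      have h1 := (hf.1.comp contU_h12).tendsto 0
      have h2 : (f ∘ fun s : ℝ => (uE s : SL2R)) 0 = 1 := by
        show f (uE 0) = 1
        rw [uE0_h12, map_one]
      rw [h2] at h1
      exact h1
    refine (hc.comp lim_h12).congr fun m => ?_
    show f (uE (4 * (1 / 4) ^ m)) = _
    rw [← map_pow, ← map_inv, ← map_mul, ← map_mul]
    congr 1
    rw [mul_assoc, ← conjU_h12, inv_mul_cancel_left]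
  · have hc : Tendsto (fun s : ℝ => f (lE s)) (𝓝 0) (𝓝 1) := by
      have h1 := (hf.1.comp contL_h12).tendsto 0
      have h2 : (f ∘ fun s : ℝ => (lE s : SL2R)) 0 = 1 := by
        show f (lE 0) = 1
        rw [lE0_h12, map_one]
      rw [h2] at h1
      exact h1
    refine (hc.comp lim_h12).congr fun m => ?_
    show f (lE (4 * (1 / 4) ^ m)) = _
    rw [← map_pow, ← map_inv, ← map_mul, ← map_mul]
    congr 1
    rw [conjL_h12, mul_inv_cancel_right]
  · rw [← range_fzr_h12]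
    exact discrete_range_h12 f hf.2
  · rw [← range_fzr_h12]
    exact nonAm_range_h12 f hk

end Pool.Agent.Helper84.SPQ
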