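import Pool.Agent.Helper84.SPQ.D0

/-!
# Project SPQ, block D3: block embeddings of quaternionic unitary groups

PROOFS. `exists_of_mem`, `spJ_ext`, `isClosedEmbedding_val`, `isCompact_bdd` in `C6a.lean`. `prodEmb`: `(g, h) ↦ fromBlocks g 0 0 h` (`fromBlocks_multiply`, `fromBlocks_conjTranspose`, `Jm (Sum.elim e1 e2) = fromBlocks (Jm e1) 0 0 (Jm e2)`). `piEmb`: `g ↦ blockDiagonal (fun i => g i)` (`blockDiagonal_mul`, `blockDiagonal_conjTranspose`,
`Jm (fun x => e x.1) = blockDiagonal (fun _ => Jm e)`). `reEmb`: `g ↦ g.submatrix E.symm E.symm`. Continuity: the topology of `SpJ` is induced by the matrices (`isClosedEmbedding_val`). Properness: a compact set in the target is bounded (`‖entry‖ ≤ R`, continuous entries), so its preimage is in the set of all elements (pairs, families) with entries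
bounded by `R`, which is compact (`isCompact_bdd`, `IsCompact.prod`, `isCompact_univ_pi`).
-/

set_option autoImplicit false

open Filter Topology Matrix

namespace Pool.Agent.Helper84.SPQ

variable {n1 n2 : Type} [Fintype n1] [DecidableEq n1] [Fintype n2] [DecidableEq n2]

private theorem prp_of36 {A : Type} [Group A] [TopologicalSpace A] {m : Type} [Fintype m] [DecidableEq m] {e : m → ℝ}
    (he : ∀ i, e i = 1 ∨ e i = -1) (f : A →* SpJ m e)
    (hc : Continuous fun a => (((f a : SpJ m e) : (MH m)ˣ) : MH m))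
    (hb : ∀ R : ℝ, ∃ T : Set A, IsCompact T ∧ ∀ a, (∀ i j, ‖(((f a : SpJ m e) : (MH m)ˣ) : MH m) i j‖ ≤ R) → a ∈ T) :
    Prp f := by
  refine ⟨(isClosedEmbedding_val he).isEmbedding.continuous_iff.2 hc, ?_⟩
  refine (hasBasis_cocompact.tendsto_iff hasBasis_cocompact).2 fun K hK => ?_
  have h1 : ∀ i j, ∃ C : ℝ, ∀ g ∈ K, ‖((g : (MH m)ˣ) : MH m) i j‖ ≤ C := by
    intro i j
    have hcont : Continuous fun g : SpJ m e => ‖((g : (MH m)ˣ) : MH m) i j‖ :=
      ((isClosedEmbedding_val he).continuous.matrix_elem i j).norm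
    obtain ⟨C, hC⟩ := (hK.image hcont).bddAbove
    exact ⟨C, fun g hg => hC ⟨g, hg, rfl⟩⟩
  choose C hC using h1
  obtain ⟨T, hT, hT2⟩ := hb (∑ i, ∑ j, |C i j|)
  refine ⟨T, hT, fun a ha hfa => ha (hT2 a fun i j => ?_)⟩
  refine (hC i j _ hfa).trans ((le_abs_self _).trans ?_)
  have h2 : |C i j| ≤ ∑ j, |C i j| := Finset.single_le_sum (f := fun j => |C i j|) (fun _ _ => abs_nonneg _) (Finset.mem_univ j)
  exact h2.trans (Finset.single_le_sum (f := fun i => ∑ j, |C i j|)
    (fun _ _ => Finset.sum_nonneg fun _ _ => abs_nonneg _) (Finset.mem_univ i))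

private theorem hom_of36 {A : Type} [Group A] {m : Type} [Fintype m] [DecidableEq m] {e : m → ℝ}
    (he : ∀ i, e i = 1 ∨ e i = -1) (F : A → MH m) (h1 : F 1 = 1) (hm : ∀ a b, F (a * b) = F a * F b)
    (hF : ∀ a, (F a)ᴴ * Jm e * F a = Jm e) :
    ∃ f : A →* SpJ m e, ∀ a, (((f a : SpJ m e) : (MH m)ˣ) : MH m) = F a := by
  choose f hf using fun a => exists_of_mem he (hF a)
  refine ⟨⟨⟨f, spJ_ext ?_⟩, fun a b => spJ_ext ?_⟩, hf⟩
  · rw [hf, h1]
    rfl
  · show (((f (a * b) : SpJ m e) : (MH m)ˣ) : MH m) = (((f a : SpJ m e) : (MH m)ˣ) : MH m) * (((f b : SpJ m e) : (MH m)ˣ) : MH m)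
    rw [hf, hf, hf, hm]

private theorem val_one36 {m : Type} [Fintype m] [DecidableEq m] {e : m → ℝ} :
    (((1 : SpJ m e) : (MH m)ˣ) : MH m) = 1 := rfl

private theorem val_mul36 {m : Type} [Fintype m] [DecidableEq m] {e : m → ℝ} (g h : SpJ m e) :
    (((g * h : SpJ m e) : (MH m)ˣ) : MH m) = ((g : (MH m)ˣ) : MH m) * ((h : (MH m)ˣ) : MH m) := rfl

theorem prodEmb {e1 : n1 → ℝ} {e2 : n2 → ℝ} (h1 : ∀ i, e1 i = 1 ∨ e1 i = -1) (h2 : ∀ i, e2 i = 1 ∨ e2 i = -1) :
    ∃ f : SpJ n1 e1 × SpJ n2 e2 →* SpJ (n1 ⊕ n2) (Sum.elim e1 e2), Prp f := by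
  have he : ∀ i, Sum.elim e1 e2 i = 1 ∨ Sum.elim e1 e2 i = -1 := by
    rintro (i | i)
    · exact h1 i
    · exact h2 i
  have hJ : Jm (Sum.elim e1 e2) = fromBlocks (Jm e1) 0 0 (Jm e2) := by
    unfold Jm
    rw [fromBlocks_diagonal]
    congr 1
    funext i
    rcases i with i | i <;> rfl
  obtain ⟨f, hf⟩ := hom_of36 he (fun p : SpJ n1 e1 × SpJ n2 e2 =>
    fromBlocks ((p.1 : (MH n1)ˣ) : MH n1) 0 0 ((p.2 : (MH n2)ˣ) : MH n2))
    (by simp only [Prod.fst_one, Prod.snd_one, val_one36, fromBlocks_one])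
    (by
      intro a b
      simp only [Prod.fst_mul, Prod.snd_mul, val_mul36, fromBlocks_multiply, Matrix.mul_zero, Matrix.zero_mul, add_zero, zero_add])
    (by
      intro a
      have a1 := mem_SpJ.1 a.1.2
      have a2 := mem_SpJ.1 a.2.2
      rw [hJ, fromBlocks_conjTranspose, fromBlocks_multiply, fromBlocks_multiply]
      simp only [conjTranspose_zero, Matrix.mul_zero, Matrix.zero_mul, add_zero, zero_add, a1, a2])
  refine ⟨f, prp_of36 he f ?_ fun R => ?_⟩
  · have e : (fun a => (((f a : SpJ (n1 ⊕ n2) (Sum.elim e1 e2)) : (MH (n1 ⊕ n2))ˣ) : MH (n1 ⊕ n2))) =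
        fun p : SpJ n1 e1 × SpJ n2 e2 => fromBlocks ((p.1 : (MH n1)ˣ) : MH n1) 0 0 ((p.2 : (MH n2)ˣ) : MH n2) := funext hf
    rw [e]
    exact Continuous.matrix_fromBlocks ((isClosedEmbedding_val h1).continuous.comp continuous_fst) continuous_const
      continuous_const ((isClosedEmbedding_val h2).continuous.comp continuous_snd)
  · refine ⟨_, (isCompact_bdd h1 R).prod (isCompact_bdd h2 R), fun a ha => ⟨fun i j => ?_, fun i j => ?_⟩⟩
    · have := ha (Sum.inl i) (Sum.inl j)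
      rwa [hf, fromBlocks_apply₁₁] at this
    · have := ha (Sum.inr i) (Sum.inr j)
      rwa [hf, fromBlocks_apply₂₂] at this

theorem piEmb {e1 : n1 → ℝ} (h1 : ∀ i, e1 i = 1 ∨ e1 i = -1) (k : Type) [Fintype k] [DecidableEq k] :
    ∃ f : (k → SpJ n1 e1) →* SpJ (n1 × k) (fun x => e1 x.1), Prp f := by
  have he : ∀ x : n1 × k, e1 x.1 = 1 ∨ e1 x.1 = -1 := fun x => h1 x.1
  have hJ : Jm (fun x : n1 × k => e1 x.1) = blockDiagonal (fun _ : k => Jm e1) := by
    unfold Jm
    rw [blockDiagonal_diagonal]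
  obtain ⟨f, hf⟩ := hom_of36 he (fun g : k → SpJ n1 e1 => blockDiagonal fun i => (((g i : SpJ n1 e1) : (MH n1)ˣ) : MH n1))
    (by
      simp only [Pi.one_apply, val_one36]
      exact blockDiagonal_one)
    (by
      intro a b
      simp only [Pi.mul_apply, val_mul36]
      exact blockDiagonal_mul _ _)
    (by
      intro a
      rw [hJ, blockDiagonal_conjTranspose, ← blockDiagonal_mul, ← blockDiagonal_mul]
      congr 1
      funext i
      exact mem_SpJ.1 (a i).2)
  refine ⟨f, prp_of36 he f ?_ fun R => ?_⟩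
  · have e : (fun a => (((f a : SpJ (n1 × k) (fun x => e1 x.1)) : (MH (n1 × k))ˣ) : MH (n1 × k))) =
        fun g : k → SpJ n1 e1 => blockDiagonal fun i => (((g i : SpJ n1 e1) : (MH n1)ˣ) : MH n1) := funext hf
    rw [e]
    exact Continuous.matrix_blockDiagonal (continuous_pi fun i => (isClosedEmbedding_val h1).continuous.comp (continuous_apply i))
  · refine ⟨Set.univ.pi fun _ : k => {g : SpJ n1 e1 | ∀ i j, ‖((g : (MH n1)ˣ) : MH n1) i j‖ ≤ R},
      isCompact_univ_pi fun _ => isCompact_bdd h1 R, fun a ha x _ i j => ?_⟩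
    have := ha (i, x) (j, x)
    rwa [hf, blockDiagonal_apply_eq] at this

theorem reEmb {e1 : n1 → ℝ} {e2 : n2 → ℝ} (h1 : ∀ i, e1 i = 1 ∨ e1 i = -1) (E : n1 ≃ n2) (h : ∀ i, e2 (E i) = e1 i) :
    ∃ f : SpJ n1 e1 →* SpJ n2 e2, Prp f := by
  have he : ∀ i, e2 i = 1 ∨ e2 i = -1 := by
    intro i
    have := h1 (E.symm i)
    rwa [← h, Equiv.apply_symm_apply] at this
  have hJ : Jm e2 = (Jm e1).submatrix E.symm E.symm := by
    unfold Jm
    rw [submatrix_diagonal_equiv]
    congr 1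
    funext i
    show _ = ((e1 (E.symm i) : ℝ) : Hq)
    rw [← h, Equiv.apply_symm_apply]
  obtain ⟨f, hf⟩ := hom_of36 he (fun g : SpJ n1 e1 => (((g : SpJ n1 e1) : (MH n1)ˣ) : MH n1).submatrix E.symm E.symm)
    (by
      simp only [val_one36]
      exact submatrix_one_equiv _)
    (by
      intro a b
      simp only [val_mul36]
      exact (submatrix_mul_equiv _ _ _ _ _).symm)
    (by
      intro a
      rw [hJ, conjTranspose_submatrix, submatrix_mul_equiv, submatrix_mul_equiv, mem_SpJ.1 a.2])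
  refine ⟨f, prp_of36 he f ?_ fun R => ?_⟩
  · have e : (fun a => (((f a : SpJ n2 e2) : (MH n2)ˣ) : MH n2)) =
        fun g : SpJ n1 e1 => (((g : SpJ n1 e1) : (MH n1)ˣ) : MH n1).submatrix E.symm E.symm := funext hf
    rw [e]
    exact (isClosedEmbedding_val h1).continuous.matrix_submatrix _ _
  · refine ⟨_, isCompact_bdd h1 R, fun a ha i j => ?_⟩
    have := ha (E i) (E j)
    rw [hf, submatrix_apply, Equiv.symm_apply_apply, Equiv.symm_apply_apply] at this
    exact this

/-- products of proper homomorphisms -/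
theorem prp_prod {A A' B B' : Type} [Group A] [TopologicalSpace A] [Group B] [TopologicalSpace B] [Group A'] [TopologicalSpace A']
    [Group B'] [TopologicalSpace B'] {f : A →* B} {f' : A' →* B'} (hf : Prp f) (hf' : Prp f') : Prp (f.prodMap f') := by
  refine ⟨hf.1.prodMap hf'.1, ?_⟩
  rw [← coprod_cocompact, ← coprod_cocompact]
  exact hf.2.prodMap_coprod hf'.2

theorem prp_pi {k A B : Type} [Finite k] [Group A] [TopologicalSpace A] [Group B] [TopologicalSpace B] {f : A →* B} (hf : Prp f) :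
    ∃ F : (k → A) →* (k → B), Prp F := by
  refine ⟨f.compLeft k, ?_, ?_⟩
  · exact continuous_pi fun i => hf.1.comp (continuous_apply i)
  · rw [← coprodᵢ_cocompact, ← coprodᵢ_cocompact]
    exact Tendsto.pi_map_coprodᵢ fun _ => hf.2

theorem prp_inl {A B : Type} [Group A] [TopologicalSpace A] [Group B] [TopologicalSpace B] : Prp (MonoidHom.inl A B) := by
  refine ⟨continuous_id.prodMk continuous_const, ?_⟩
  refine (hasBasis_cocompact.tendsto_iff hasBasis_cocompact).2 fun K hK => ?_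
  exact ⟨Prod.fst '' K, hK.image continuous_fst, fun a ha h => ha ⟨_, h, rfl⟩⟩

end Pool.Agent.Helper84.SPQ
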