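import Pool.Agent.Helper84.SPQ.D0

/-!
# Project SPQ, block D2: `SL(2, ℝ)` in `Sp(1, 1)`

`exists_theta`. PROOF. `SL(2, ℝ) ≅ SU(1, 1) ⊂ Sp(1, 1)`. For `A = [a, b; c, d]` put `α = ((a + d) + i (b - c))/2`, `β = ((a - d) - i (b + c))/2` (complex numbers); `A ↦ B(A) = [α, β; conj β, conj α]` is `P A P⁻¹` for a fixed complex matrix `P` (for example `P = [1, i; 1, -i]` up to a scalar and an order of the entries of `B`; check the signs),
so it is multiplicative, and `‖α‖² - ‖β‖² = a d - b c = 1`, i.e. `Bᴴ diag(-1, 1) B = diag(-1, 1)`. Map the entries to the quaternions with `Quaternion.ofComplex` (a star algebra homomorphism: `Quaternion.coe_ofComplex`, `star`; or write the quaternions `⟨re, im, 0, 0⟩` directly and check everything by components) and reindex by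
`Fin 2 ≃ Unit ⊕ Unit`. `exists_of_mem` in `C6a.lean` gives elements of `SpJ`, `spJ_ext` extensionality, `isClosedEmbedding_val` continuity. Proper: `‖α‖² + ‖β‖² = (a² + b² + c² + d²)/2`, so if the entries of `θ A` are bounded so are those of `A`; compact sets in `SpJ` are bounded (continuous entries), closed bounded sets in `SL(2, ℝ)` are
compact (`isCompact_SL` in `Helper96/FR/Rge2.lean`).
-/

set_option autoImplicit false

open Filter Topology Matrix

namespace Pool.Agent.Helper84.SPQ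

/-- the quaternion `x + y i` -/
private noncomputable def qc38 (x y : ℝ) : Hq := ⟨x, y, 0, 0⟩

private noncomputable def qi38 : Hq := ⟨0, 1, 0, 0⟩

private noncomputable def qo38 : Hq := ⟨1, 0, 0, 0⟩

private theorem qc_eq38 (x y : ℝ) : qc38 x y = x • qo38 + y • qi38 := by
  ext <;> simp [qc38, qi38, qo38]

private theorem qc_cont38 {X : Type} [TopologicalSpace X] {f g : X → ℝ} (hf : Continuous f)
    (hg : Continuous g) : Continuous fun t => qc38 (f t) (g t) := by
  simp only [qc_eq38]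
  exact (hf.smul continuous_const).add (hg.smul continuous_const)

private theorem qc_norm38 (x y : ℝ) : ‖qc38 x y‖ ^ 2 = x ^ 2 + y ^ 2 := by
  rw [sq, ← Quaternion.normSq_eq_norm_mul_self, Quaternion.normSq_def']
  simp [qc38]

private theorem qc_re38 (x y : ℝ) : |x| ≤ ‖qc38 x y‖ := by
  refine abs_le_of_sq_le_sq ?_ (norm_nonneg _)
  rw [qc_norm38]
  nlinarith [sq_nonneg y]

private theorem qc_im38 (x y : ℝ) : |y| ≤ ‖qc38 x y‖ := by
  refine abs_le_of_sq_le_sq ?_ (norm_nonneg _)
  rw [qc_norm38]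
  nlinarith [sq_nonneg x]

/-- the image of the matrix with the entries `a b c d` -/
private noncomputable def th38 (a b c d : ℝ) : MH (Unit ⊕ Unit) := Matrix.of fun x y =>
  match x, y with
  | Sum.inl _, Sum.inl _ => qc38 ((a + d) / 2) ((b - c) / 2)
  | Sum.inl _, Sum.inr _ => qc38 ((a - d) / 2) (-(b + c) / 2)
  | Sum.inr _, Sum.inl _ => qc38 ((a - d) / 2) ((b + c) / 2)
  | Sum.inr _, Sum.inr _ => qc38 ((a + d) / 2) (-(b - c) / 2)

private theorem sgn38 : ∀ i, e11 i = 1 ∨ e11 i = -1 := by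
  rintro (i | i)
  · exact Or.inr rfl
  · exact Or.inl rfl

private theorem qc_mul38 (x y x' y' : ℝ) :
    qc38 x y * qc38 x' y' = qc38 (x * x' - y * y') (x * y' + y * x') := by
  ext <;> simp [qc38]

private theorem qc_add38 (x y x' y' : ℝ) : qc38 x y + qc38 x' y' = qc38 (x + x') (y + y') := by
  ext <;> simp [qc38]

private theorem qc_star38 (x y : ℝ) : star (qc38 x y) = qc38 x (-y) := by
  ext <;> simp [qc38]

private theorem qc_coe38 (x : ℝ) : ((x : ℝ) : Hq) = qc38 x 0 := by
  ext <;> simp [qc38]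

private theorem qc_zero38 : (0 : Hq) = qc38 0 0 := rfl

private theorem th_mem38 {a b c d : ℝ} (h : a * d - b * c = 1) :
    (th38 a b c d)ᴴ * Jm e11 * th38 a b c d = Jm e11 := by
  ext1 x y
  unfold Jm
  rw [Matrix.mul_apply, Fintype.sum_sum_type]
  simp only [Matrix.mul_diagonal, Matrix.conjTranspose_apply, Finset.univ_unique,
    Finset.sum_singleton, Matrix.diagonal_apply]
  rcases x with x | x <;> rcases y with y | y <;>
    simp only [th38, Matrix.of_apply, e11, Sum.elim_inl, Sum.elim_inr, qc_star38, qc_coe38, qc_mul38,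
      qc_add38, reduceCtorEq, if_true, if_false] <;>
    first
      | (rw [qc_zero38]; congr 1 <;> ring)
      | (congr 1
         · linear_combination h
         · ring)
      | (congr 1
         · linear_combination (-1 : ℝ) * h
         · ring)

private theorem th_mul38 (a b c d a' b' c' d' : ℝ) : th38 a b c d * th38 a' b' c' d' =
    th38 (a * a' + b * c') (a * b' + b * d') (c * a' + d * c') (c * b' + d * d') := by
  ext1 x y
  rw [Matrix.mul_apply, Fintype.sum_sum_type]
  simp only [Finset.univ_unique, Finset.sum_singleton]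
  rcases x with x | x <;> rcases y with y | y <;>
    simp only [th38, Matrix.of_apply, qc_mul38, qc_add38] <;> congr 1 <;> ring

private noncomputable def tm38 (A : SL2R) : MH (Unit ⊕ Unit) := th38 (A.1 0 0) (A.1 0 1) (A.1 1 0) (A.1 1 1)

private theorem tm_mem38 (A : SL2R) : (tm38 A)ᴴ * Jm e11 * tm38 A = Jm e11 := by
  refine th_mem38 ?_
  have h := A.2
  rwa [Matrix.det_fin_two] at h

private theorem tm_mul38 (A B : SL2R) : tm38 (A * B) = tm38 A * tm38 B := by
  unfold tm38
  rw [th_mul38]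
  have h : ∀ x y, (A * B).1 x y = A.1 x 0 * B.1 0 y + A.1 x 1 * B.1 1 y := by
    intro x y
    change (A.1 * B.1) x y = _
    rw [Matrix.mul_apply, Fin.sum_univ_two]
  rw [h, h, h, h]

private theorem tm_cont38 : Continuous tm38 := by
  have h : ∀ x y, Continuous fun A : SL2R => A.1 x y := fun x y => by
    have h2 : Continuous fun A : SL2R => (A.1 : Matrix (Fin 2) (Fin 2) ℝ) := continuous_subtype_val
    exact h2.matrix_elem x y
  refine continuous_matrix fun x y => ?_
  rcases x with x | x <;> rcases y with y | y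
  · exact qc_cont38 (((h 0 0).add (h 1 1)).div_const 2) (((h 0 1).sub (h 1 0)).div_const 2)
  · exact qc_cont38 (((h 0 0).sub (h 1 1)).div_const 2) (((h 0 1).add (h 1 0)).neg.div_const 2)
  · exact qc_cont38 (((h 0 0).sub (h 1 1)).div_const 2) (((h 0 1).add (h 1 0)).div_const 2)
  · exact qc_cont38 (((h 0 0).add (h 1 1)).div_const 2) (((h 0 1).sub (h 1 0)).neg.div_const 2)

private theorem tm_bdd38 (A : SL2R) (M : ℝ) (hM : ∀ x y, ‖tm38 A x y‖ ≤ M) (x y : Fin 2) :
    ‖A.1 x y‖ ≤ 2 * M := by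
  have h1 : ‖qc38 ((A.1 0 0 + A.1 1 1) / 2) ((A.1 0 1 - A.1 1 0) / 2)‖ ≤ M := hM (Sum.inl ()) (Sum.inl ())
  have h2 : ‖qc38 ((A.1 0 0 - A.1 1 1) / 2) ((A.1 0 1 + A.1 1 0) / 2)‖ ≤ M := hM (Sum.inr ()) (Sum.inl ())
  have e1 := abs_le.1 ((qc_re38 _ _).trans h1)
  have e2 := abs_le.1 ((qc_im38 _ _).trans h1)
  have e3 := abs_le.1 ((qc_re38 _ _).trans h2)
  have e4 := abs_le.1 ((qc_im38 _ _).trans h2)
  rw [Real.norm_eq_abs, abs_le]
  fin_cases x <;> fin_cases y <;> simp only [Fin.zero_eta, Fin.mk_one] <;> constructor <;> linarith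

theorem exists_theta : ∃ θ : SL2R →* SpJ (Unit ⊕ Unit) e11, Prp θ := by
  choose f hf using fun A : SL2R => exists_of_mem sgn38 (tm_mem38 A)
  have hmul : ∀ A B : SL2R, f (A * B) = f A * f B := by
    intro A B
    apply spJ_ext
    rw [hf, tm_mul38]
    change _ = ((f A : (MH (Unit ⊕ Unit))ˣ) : MH (Unit ⊕ Unit)) * ((f B : (MH (Unit ⊕ Unit))ˣ) : MH (Unit ⊕ Unit))
    rw [hf, hf]
  refine ⟨MonoidHom.mk' f hmul, ?_, ?_⟩
  · change Continuous f
    rw [(isClosedEmbedding_val sgn38).isInducing.continuous_iff]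
    have : (fun g : SpJ (Unit ⊕ Unit) e11 => ((g : (MH (Unit ⊕ Unit))ˣ) : MH (Unit ⊕ Unit))) ∘ f = tm38 :=
      funext hf
    rw [this]
    exact tm_cont38
  · change Tendsto f (cocompact _) (cocompact _)
    refine (hasBasis_cocompact.tendsto_right_iff).2 fun K hK => ?_
    have hb : ∀ x y, ∃ M : ℝ, ∀ g ∈ K, ‖((g : (MH (Unit ⊕ Unit))ˣ) : MH (Unit ⊕ Unit)) x y‖ ≤ M := by
      intro x y
      have hc : Continuous fun g : SpJ (Unit ⊕ Unit) e11 =>
          ‖((g : (MH (Unit ⊕ Unit))ˣ) : MH (Unit ⊕ Unit)) x y‖ :=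
        ((isClosedEmbedding_val sgn38).continuous.matrix_elem x y).norm
      obtain ⟨M, hM⟩ := (hK.image hc).bddAbove
      exact ⟨M, fun g hg => hM ⟨g, hg, rfl⟩⟩
    choose M hM using hb
    obtain ⟨M', hM'⟩ : ∃ M' : ℝ, ∀ x y, M x y ≤ M' := by
      obtain ⟨M', h⟩ := (Set.finite_range fun p : (Unit ⊕ Unit) × (Unit ⊕ Unit) => M p.1 p.2).bddAbove
      exact ⟨M', fun x y => h ⟨(x, y), rfl⟩⟩
    have hS : IsCompact {A : SL2R | ∀ x y, ‖A.1 x y‖ ≤ 2 * M'} := by
      refine Pool.Agent.Helper96.FR.isCompact_SL ?_ (M := 2 * M') fun A hA => hA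
      have h : ∀ x y, Continuous fun A : SL2R => ‖A.1 x y‖ := fun x y => by
        have h2 : Continuous fun A : SL2R => (A.1 : Matrix (Fin 2) (Fin 2) ℝ) := continuous_subtype_val
        exact (h2.matrix_elem x y).norm
      have h3 : {A : SL2R | ∀ x y, ‖A.1 x y‖ ≤ 2 * M'} = ⋂ x, ⋂ y, {A : SL2R | ‖A.1 x y‖ ≤ 2 * M'} := by
        ext A
        simp
      rw [h3]
      exact isClosed_iInter fun x => isClosed_iInter fun y => isClosed_le (h x y) continuous_const
    refine Filter.mem_of_superset hS.compl_mem_cocompact fun A hA hAK => hA ?_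
    refine tm_bdd38 A M' fun x y => ?_
    rw [← hf]
    exact (hM x y _ hAK).trans (hM' x y)

end Pool.Agent.Helper84.SPQ
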