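import Pool.Agent.Helper84.SPQ.D1
import Pool.Agent.Helper84.SPQ.D2
import Pool.Agent.Helper84.SPQ.D3
import Pool.Agent.Helper96.FR.Rge3

/-!
# Project SPQ, block D4: `Sp(p, q)`, `q > p ≥ 2`, and its quotient by the centre satisfy `RankT` with `r = p`

`rankT_of_hom`. PROOF. For `i : Fin (r - 1)` let `j i : SL2R →* G` be the restriction of `ψ` to the `i`-th factor (`MonoidHom.mulSingle`/`Pi.mulSingle`), `j' = ψ (1, θ' ·)`, `θ' : SL2R →* Sp21` from `exists_theta21`; they are proper (`mulSingle` is proper: closed embedding) and commute with each other. `a i = j i d2`, `u i = j i (uE 4)`, `w i = j i (lE 4)` for `i < r - 1`,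
`a (r - 1) = j' d2`, ...; `φ g = ψ (1, g)`, `g0 = θ' d2`. `sl2_step`.
`exists_theta21`: `exists_theta`, then `(g ↦ (1, g)) : Sp(1, 1) → Sp(1) × Sp(1, 1)`... i.e. `Sp(1,1) → SpJ ((Unit ⊕ Unit) ⊕ Unit) (Sum.elim e11 (-1))` by `prp_inl`, `prodEmb`, then `reEmb` with a bijection `(Unit ⊕ Unit) ⊕ Unit ≃ Fin 2 ⊕ Unit` preserving the signs.
`exists_psi`: `Fin p ⊕ Fin q ≃ ((Unit ⊕ Unit) × Fin (p - 1)) ⊕ ((Fin 2 ⊕ Unit) ⊕ Fin (q - p - 1))` preserving the signs (`+1`: `(p - 1) + 1 = p`; `-1`: `(p - 1) + 2 + (q - p - 1) = q`); `prp_pi` of `exists_theta`, `piEmb`, `prp_inl`, `prodEmb` twice, `prp_prod`, `reEmb`.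
`center_compact`: the centre is closed (T2 group: `Subgroup.isClosed_center` or directly) and its elements are `±1` (or: bounded): an element `g` of the centre commutes with the diagonal matrices with entries unit quaternions (they are in `Sp(p, q)`): with `u_i = -1` at one place `i` and `1` elsewhere: `g` is diagonal; then `g` is unitary, entries of norm one: in `isCompact_bdd` with `R = 1`.
`rankT_PSpQ`: `tendsto_quot` (`Helper96/FR/Rge3.lean`).
-/

set_option autoImplicit false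

open Filter Topology Matrix

namespace Pool.Agent.Helper84.SPQ

open Pool.Agent.Helper90.RK (NonAm)
open Pool.Agent.Helper96.FR

private theorem prp_of_left {A B : Type} [Group A] [TopologicalSpace A] [Group B] [TopologicalSpace B] (f : A →* B)
    (hf : Continuous f) (g : B → A) (hg : Continuous g) (h : ∀ x, g (f x) = x) : Prp f := by
  refine ⟨hf, ?_⟩
  rw [(hasBasis_cocompact).tendsto_right_iff]
  intro K hK
  filter_upwards [(hK.image hg).compl_mem_cocompact] with x hx hxK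
  exact hx ⟨f x, hxK, h x⟩

private theorem prp_id {A : Type} [Group A] [TopologicalSpace A] : Prp (MonoidHom.id A) :=
  ⟨continuous_id, tendsto_id⟩

theorem exists_theta21 : ∃ θ : SL2R →* Sp21, Prp θ := by
  obtain ⟨θ, hθ⟩ := exists_theta
  have h11 : ∀ i, e11 i = 1 ∨ e11 i = -1 := by
    rintro (i | i)
    · exact Or.inr rfl
    · exact Or.inl rfl
  obtain ⟨f, hf⟩ := prodEmb (n1 := Unit ⊕ Unit) (n2 := Unit) (e1 := e11) (e2 := fun _ => -1) h11 (fun _ => Or.inr rfl)
  let E : (Unit ⊕ Unit) ⊕ Unit ≃ Fin 2 ⊕ Unit :=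
    { toFun := Sum.elim (Sum.elim (fun _ => Sum.inl 0) (fun _ => Sum.inr ())) (fun _ => Sum.inl 1)
      invFun := Sum.elim ![Sum.inl (Sum.inl ()), Sum.inr ()] (fun _ => Sum.inl (Sum.inr ()))
      left_inv := by
        rintro ((i | i) | i) <;> rfl
      right_inv := by
        rintro (i | i)
        · fin_cases i <;> rfl
        · rfl }
  obtain ⟨f', hf'⟩ := reEmb (e1 := Sum.elim e11 (fun _ : Unit => (-1 : ℝ))) (e2 := e21) (by
    rintro (i | i)
    · exact h11 i
    · exact Or.inr rfl) E (by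
    rintro ((i | i) | i) <;> rfl)
  exact ⟨f'.comp (f.comp ((MonoidHom.inl _ _).comp θ)), hf'.comp (hf.comp (prp_inl.comp hθ))⟩

theorem rankT_of_hom {G : Type} [Group G] [TopologicalSpace G] [IsTopologicalGroup G] [LocallyCompactSpace G] [T2Space G]
    {r : ℕ} (hr : 2 ≤ r) (ψ : (Fin (r - 1) → SL2R) × Sp21 →* G) (hψ : Prp ψ) : RankT G r := by
  obtain ⟨θ', hθ'⟩ := exists_theta21
  have hin : Prp (MonoidHom.inr (Fin (r - 1) → SL2R) Sp21) :=
    prp_of_left _ (continuous_const.prodMk continuous_id) Prod.snd continuous_snd fun _ => rfl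
  have hsg : ∀ i : Fin (r - 1), Prp (MonoidHom.mulSingle (fun _ : Fin (r - 1) => SL2R) i) := fun i =>
    prp_of_left _ (continuous_pi fun j => by
      show Continuous fun x : SL2R => (Pi.mulSingle i x : Fin (r - 1) → SL2R) j
      by_cases hj : j = i
      · subst hj
        simp only [Pi.mulSingle_eq_same]
        exact continuous_id'
      · simpa [Pi.mulSingle_eq_of_ne hj] using continuous_const) (fun x => x i) (continuous_apply i) fun x => by simp
  let J : Fin r → (SL2R →* G) := fun i => if h : (i : ℕ) < r - 1 then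
    ψ.comp ((MonoidHom.inl _ _).comp (MonoidHom.mulSingle (fun _ : Fin (r - 1) => SL2R) ⟨i, h⟩)) else
    ψ.comp ((MonoidHom.inr _ _).comp θ')
  have J1 : ∀ (i : Fin r) (h : (i : ℕ) < r - 1) (x : SL2R), J i x = ψ (Pi.mulSingle ⟨i, h⟩ x, 1) := by
    intro i h x
    simp only [J, dif_pos h]
    rfl
  have J2 : ∀ (i : Fin r) (h : ¬ (i : ℕ) < r - 1) (x : SL2R), J i x = ψ (1, θ' x) := by
    intro i h x
    simp only [J, dif_neg h]
    rfl
  have hJ : ∀ i, Prp (J i) := by
    intro i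
    by_cases h : (i : ℕ) < r - 1
    · simp only [J, dif_pos h]
      exact hψ.comp (prp_inl.comp (hsg _))
    · simp only [J, dif_neg h]
      exact hψ.comp (hin.comp hθ')
  have hcomm : ∀ i k : Fin r, i ≠ k → ∀ x y, J i x * J k y = J k y * J i x := by
    intro i k hik x y
    by_cases h : (i : ℕ) < r - 1 <;> by_cases h' : (k : ℕ) < r - 1
    · rw [J1 i h, J1 k h', ← map_mul, ← map_mul, Prod.mk_mul_mk, Prod.mk_mul_mk]
      have hne : (⟨i, h⟩ : Fin (r - 1)) ≠ ⟨k, h'⟩ := by
        intro e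
        apply hik
        apply Fin.ext
        exact congrArg (fun z : Fin (r - 1) => (z : ℕ)) e
      have := Pi.mulSingle_commute (f := fun _ : Fin (r - 1) => SL2R) hne x y
      rw [this.eq]
    · rw [J1 i h, J2 k h', ← map_mul, ← map_mul, Prod.mk_mul_mk, Prod.mk_mul_mk, mul_one, one_mul, mul_one, one_mul]
    · rw [J2 i h, J1 k h', ← map_mul, ← map_mul, Prod.mk_mul_mk, Prod.mk_mul_mk, mul_one, one_mul, mul_one, one_mul]
    · exfalso
      apply hik
      apply Fin.ext
      omega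
  refine ⟨fun i => J i d2, fun i => J i (uE 4), fun i => J i (lE 4), ψ.comp (MonoidHom.inr _ _), θ' d2, ?_, ?_, ?_, ?_, ?_, ?_⟩
  · intro i j
    by_cases hij : i = j
    · rw [hij]
    · exact hcomm i j hij _ _
  · intro i _
    exact (sl2_step (J i) (hJ i)).1
  · intro i _
    obtain ⟨-, h2, h3, h4, h5⟩ := sl2_step (J i) (hJ i)
    exact ⟨fun j hj => ⟨hcomm j i hj.ne _ _, hcomm j i hj.ne _ _⟩, h2, h3, h4, h5⟩
  · exact hψ.1.comp hin.1
  · intro i hi
    exact J2 i (by omega) _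
  · intro i hi x
    have h : (i : ℕ) < r - 1 := by omega
    show J i d2 * ψ (1, x) = ψ (1, x) * J i d2
    rw [J1 i h, ← map_mul, ← map_mul, Prod.mk_mul_mk, Prod.mk_mul_mk, mul_one, one_mul, mul_one, one_mul]

theorem exists_psi {p q : ℕ} (hp : 2 ≤ p) (hpq : p < q) : ∃ ψ : (Fin (p - 1) → SL2R) × Sp21 →* SpQ p q, Prp ψ := by
  obtain ⟨θ, hθ⟩ := exists_theta
  have h11 : ∀ i, e11 i = 1 ∨ e11 i = -1 := by
    rintro (i | i)
    · exact Or.inr rfl
    · exact Or.inl rfl
  obtain ⟨F, hF⟩ := prp_pi (k := Fin (p - 1)) hθ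
  obtain ⟨f1, hf1⟩ := piEmb (e1 := e11) h11 (Fin (p - 1))
  have s1 : ∀ x : (Unit ⊕ Unit) × Fin (p - 1), (fun x : (Unit ⊕ Unit) × Fin (p - 1) => e11 x.1) x = 1 ∨
      (fun x : (Unit ⊕ Unit) × Fin (p - 1) => e11 x.1) x = -1 := fun x => h11 x.1
  obtain ⟨f2, hf2⟩ := prodEmb (e1 := fun x : (Unit ⊕ Unit) × Fin (p - 1) => e11 x.1) (e2 := e21) s1 sgn21
  have s2 : ∀ x, Sum.elim (fun x : (Unit ⊕ Unit) × Fin (p - 1) => e11 x.1) e21 x = 1 ∨
      Sum.elim (fun x : (Unit ⊕ Unit) × Fin (p - 1) => e11 x.1) e21 x = -1 := by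
    rintro (x | x)
    · exact s1 x
    · exact sgn21 x
  obtain ⟨f3, hf3⟩ := prodEmb (e1 := Sum.elim (fun x : (Unit ⊕ Unit) × Fin (p - 1) => e11 x.1) e21)
    (e2 := fun _ : Fin (q - p - 1) => -1) s2 (fun _ => Or.inr rfl)
  let ep : Fin (p - 1) ⊕ Unit ≃ Fin p := Fintype.equivOfCardEq (by simp; omega)
  let eq : (Fin (p - 1) ⊕ Fin 2) ⊕ Fin (q - p - 1) ≃ Fin q := Fintype.equivOfCardEq (by simp; omega)
  let E : (((Unit ⊕ Unit) × Fin (p - 1)) ⊕ (Fin 2 ⊕ Unit)) ⊕ Fin (q - p - 1) ≃ Fin p ⊕ Fin q :=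
    { toFun := Sum.elim (Sum.elim (fun x => Sum.elim (fun _ => Sum.inr (eq (Sum.inl (Sum.inl x.2)))) (fun _ => Sum.inl (ep (Sum.inl x.2))) x.1)
        (Sum.elim (fun c => Sum.inr (eq (Sum.inl (Sum.inr c)))) (fun _ => Sum.inl (ep (Sum.inr ()))))) (fun m => Sum.inr (eq (Sum.inr m)))
      invFun := Sum.elim (fun i => Sum.elim (fun k => Sum.inl (Sum.inl (Sum.inr (), k))) (fun _ => Sum.inl (Sum.inr (Sum.inr ()))) (ep.symm i))
        (fun j => Sum.elim (Sum.elim (fun k => Sum.inl (Sum.inl (Sum.inl (), k))) (fun c => Sum.inl (Sum.inr (Sum.inl c)))) (fun m => Sum.inr m) (eq.symm j))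
      left_inv := by
        rintro ((⟨(x | x), k⟩ | (c | c)) | m) <;> simp
      right_inv := by
        rintro (i | j)
        · obtain ⟨z, rfl⟩ := ep.surjective i
          rcases z with k | k <;> simp
        · obtain ⟨z, rfl⟩ := eq.surjective j
          rcases z with (k | c) | m <;> simp }
  obtain ⟨f4, hf4⟩ := reEmb (e1 := Sum.elim (Sum.elim (fun x : (Unit ⊕ Unit) × Fin (p - 1) => e11 x.1) e21) (fun _ : Fin (q - p - 1) => (-1 : ℝ)))
    (e2 := epq p q) (by
      rintro (x | x)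
      · exact s2 x
      · exact Or.inr rfl) E (by
      rintro ((⟨(x | x), k⟩ | (c | c)) | m) <;> rfl)
  exact ⟨f4.comp (f3.comp ((MonoidHom.inl _ _).comp (f2.comp ((f1.comp F).prodMap (MonoidHom.id Sp21))))),
    hf4.comp (hf3.comp (prp_inl.comp (hf2.comp (prp_prod (hf1.comp hF) prp_id))))⟩

theorem sgnpq (p q : ℕ) : ∀ i, epq p q i = 1 ∨ epq p q i = -1 := by
  rintro (i | i)
  · exact Or.inl rfl
  · exact Or.inr rfl

theorem center_compact (p q : ℕ) : IsCompact (Subgroup.center (SpQ p q) : Set (SpQ p q)) := by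
  have hT : T2Space (SpQ p q) := t2_SpJ (sgnpq p q)
  have hc : IsClosed (Subgroup.center (SpQ p q) : Set (SpQ p q)) := by
    have e : (Subgroup.center (SpQ p q) : Set (SpQ p q)) = ⋂ h, {g | h * g = g * h} := by
      ext g
      simp only [SetLike.mem_coe, Subgroup.mem_center_iff, Set.mem_iInter, Set.mem_ofPred_eq]
    rw [e]
    exact isClosed_iInter fun h => isClosed_eq (continuous_const_mul h) (continuous_mul_const h)
  refine (isCompact_bdd (sgnpq p q) 1).of_isClosed_subset hc ?_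
  intro g hg
  set A : MH (Fin p ⊕ Fin q) := ((g : (MH (Fin p ⊕ Fin q))ˣ) : MH (Fin p ⊕ Fin q)) with hA
  have hoff : ∀ k i, k ≠ i → A k i = 0 := by
    intro k i hki
    have hD : (diagonal fun j => if j = i then (-1 : Hq) else 1 : MH (Fin p ⊕ Fin q))ᴴ * Jm (epq p q) *
        (diagonal fun j => if j = i then (-1 : Hq) else 1) = Jm (epq p q) := by
      unfold Jm
      rw [diagonal_conjTranspose, diagonal_mul_diagonal, diagonal_mul_diagonal]
      congr 1
      funext j
      simp only [Pi.star_apply]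
      split_ifs <;> simp
    obtain ⟨h, hh⟩ := exists_of_mem (sgnpq p q) hD
    have h1 : h * g = g * h := Subgroup.mem_center_iff.1 hg h
    have h2 : (diagonal fun j => if j = i then (-1 : Hq) else 1 : MH (Fin p ⊕ Fin q)) * A =
        A * (diagonal fun j => if j = i then (-1 : Hq) else 1) := by
      rw [← hh, hA]
      exact congrArg (fun z : SpQ p q => ((z : (MH (Fin p ⊕ Fin q))ˣ) : MH (Fin p ⊕ Fin q))) h1
    have h3 := congrFun (congrFun h2 k) i
    rw [diagonal_mul, mul_diagonal, if_neg hki, if_pos rfl, one_mul, mul_neg, mul_one] at h3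
    have h4 : (2 : ℝ) • A k i = 0 := by
      rw [two_smul]
      nth_rewrite 1 [h3]
      exact neg_add_cancel _
    exact (smul_eq_zero.1 h4).resolve_left two_ne_zero
  have hdiag : ∀ i, ‖A i i‖ = 1 := by
    intro i
    have h1 : Aᴴ * Jm (epq p q) * A = Jm (epq p q) := g.2
    have h2 := congrFun (congrFun h1 i) i
    have h3 : (Aᴴ * Jm (epq p q) * A) i i = star (A i i) * (epq p q i : Hq) * A i i := by
      rw [mul_apply, Finset.sum_eq_single i]
      · unfold Jm
        rw [mul_diagonal, conjTranspose_apply]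
      · intro j _ hj
        rw [hoff j i hj, mul_zero]
      · intro h
        exact absurd (Finset.mem_univ i) h
    rw [h3] at h2
    unfold Jm at h2
    rw [diagonal_apply_eq] at h2
    have h4 := congrArg norm h2
    rw [norm_mul, norm_mul, norm_star] at h4
    have h5 : ‖(epq p q i : Hq)‖ = 1 := by
      rcases sgnpq p q i with h | h <;> rw [h] <;> simp
    rw [h5, mul_one] at h4
    nlinarith [norm_nonneg (A i i)]
  intro i j
  by_cases hij : i = j
  · subst hij
    exact (hdiag i).le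
  · show ‖A i j‖ ≤ 1
    rw [hoff i j hij, norm_zero]
    exact zero_le_one

theorem rankT_SpQ {p q : ℕ} (hp : 2 ≤ p) (hpq : p < q) : RankT (SpQ p q) p := by
  have := t2_SpJ (sgnpq p q)
  have := locallyCompact_SpJ (sgnpq p q)
  obtain ⟨ψ, hψ⟩ := exists_psi hp hpq
  exact rankT_of_hom hp ψ hψ

theorem rankT_PSpQ {p q : ℕ} (hp : 2 ≤ p) (hpq : p < q) : RankT (PSpQ p q) p := by
  have := t2_SpJ (sgnpq p q)
  have := locallyCompact_SpJ (sgnpq p q)
  obtain ⟨ψ, hψ⟩ := exists_psi hp hpq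
  have hcl : IsClosed (Subgroup.center (SpQ p q) : Set (SpQ p q)) := (center_compact p q).isClosed
  have hT2 : T2Space (SpQ p q ⧸ Subgroup.center (SpQ p q)) := by
    have h3 : T3Space (SpQ p q ⧸ Subgroup.center (SpQ p q)) := @QuotientGroup.instT3Space _ _ _ _ _ _ hcl
    infer_instance
  exact rankT_of_hom (G := SpQ p q ⧸ Subgroup.center (SpQ p q)) hp ((QuotientGroup.mk' _).comp ψ)
    ⟨QuotientGroup.continuous_mk.comp hψ.1, (tendsto_quot _ (center_compact p q)).comp hψ.2⟩

end Pool.Agent.Helper84.SPQ
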