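import Pool.Agent.Helper84.SPQ.D0
import Pool.Agent.Helper66.BD.Fin

/-!
# Project SPQ (MP_0f6f3f_an): the classical types other than `Sp(p, q)`, `p ≠ q` (definition)

`NotSp ρ r`: the matrices of the proper projective representation `ρ` lie in one of the groups of real rank `r` of the list below.
-/

set_option autoImplicit false

open Filter Matrix

namespace Pool.Agent.Helper84.SPQ

/-- The group `Sp(p, q)` modulo its centre. -/
def PSp (p q : ℕ) : Type := SpQ p q ⧸ Subgroup.center (SpQ p q)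

noncomputable instance instGroupPSp (p q : ℕ) : Group (PSp p q) := QuotientGroup.Quotient.group (Subgroup.center (SpQ p q))

noncomputable instance instTopPSp (p q : ℕ) : TopologicalSpace (PSp p q) := QuotientGroup.instTopologicalSpace (Subgroup.center (SpQ p q))

/-- The group `Sp(2, 1)`. -/
def SpTwoOne : Type := Sp21

noncomputable instance instGroupSpTwoOne : Group SpTwoOne := (SpJ (Fin 2 ⊕ Unit) e21).toGroup

noncomputable instance instTopSpTwoOne : TopologicalSpace SpTwoOne := @instTopologicalSpaceSubtype (MH (Fin 2 ⊕ Unit))ˣ _ _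

/-- There is a continuous proper homomorphism from `SL(2, ℝ)^k × Sp(2, 1)` to `G`. -/
def HasSp (G : Type) [Group G] [TopologicalSpace G] (k : ℕ) : Prop :=
  ∃ f : (Fin k → SpecialLinearGroup (Fin 2) ℝ) × SpTwoOne →* G, Continuous f ∧ Tendsto f (cocompact _) (cocompact G)

open Pool.Agent.Helper66.RKS

/-- The matrices of `ρ` preserve a symmetric bilinear form with unitary matrix. -/
def SymBil {Γ : Type} [Group Γ] {N : ℕ} (ρ : PRep Γ N) : Prop :=
  ∃ Φ : Matrix (Fin N) (Fin N) ℂ, Φᴴ * Φ = 1 ∧ Φᵀ = Φ ∧ ∀ g, (ρ.ι g)ᵀ * Φ * ρ.ι g = Φ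

/-- The matrices of `ρ` are in `U(n, n)`, `N = 2 n`, and commute with a quaternionic structure `v ↦ j conj(v)` for which the Hermitian form is
skew: `⟨j conj(v), j conj(w)⟩ = -⟨w, v⟩` (these matrices form the group `SO*(2 n)`). -/
def SOStar {Γ : Type} [Group Γ] {N : ℕ} (ρ : PRep Γ N) (n : ℕ) : Prop :=
  N = 2 * n ∧ ρ.Hermitian n ∧ ∃ j : Matrix (Fin N) (Fin N) ℂ, jᴴ * j = 1 ∧ jᵀ = -j ∧ (∀ g, ρ.ι g * j = j * (ρ.ι g)ᴴᵀ) ∧
    form N n * j = -(j * form N n)

/-- The matrices of `ρ` lie in a classical group of real rank `r` which is not of the form `Sp(p, q)` with `p ≠ q`: `SL(r + 1, ℂ)` (hence also `SL(r + 1, ℝ)`), `Sp(2r, ℂ)`,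
`SO(2r, ℂ)` (hence also `Sp(2r, ℝ)`), `SO(2r + 1, ℂ)`, `U(p, q)` with `min(p, q) = r` (hence also `SO(p, q)`), `SL(r + 1, ℍ)`, `Sp(r, r)` or `SO*(4r)`, `SO*(4r + 2)`. -/
def NotSp {Γ : Type} [Group Γ] {N : ℕ} (ρ : PRep Γ N) (r : ℕ) : Prop :=
  N = r + 1 ∨ (ρ.Bilinear ∧ N = 2 * r) ∨ (SymBil ρ ∧ N = 2 * r + 1) ∨ (∃ p, ρ.Hermitian p ∧ min p (N - p) = r) ∨
    (ρ.Quaternionic ∧ N = 2 * (r + 1)) ∨ (ρ.Quaternionic ∧ ρ.Hermitian (2 * r) ∧ N = 4 * r) ∨ SOStar ρ (2 * r + 1)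

end Pool.Agent.Helper84.SPQ
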