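import Pool.Agent.Helper84.SPQ.D4

/-!
# Project SPQ, block E1: boosts in `Sp(p, q)`; the matrices which commute with all of them

`bm i j t`: the real matrix which is `[cosh t, sinh t; sinh t, cosh t]` in the plane of `e_i` (positive), `e_j` (negative), and the identity elsewhere. `PPm`, `PMm`, `PZm`: the projections on its eigenspaces: `bm = exp t • PPm + exp (-t) • PMm + PZm`. PROOFS.
`bm_mul`, `bm_mem`: `bm t * bm s = bm (t + s)`, `bm 0 = 1`, `bmᴴ J bm = J` (entries, or write `bm = 1 + (cosh t - 1) (E_ii + E_jj) + sinh t (E_ij + E_ji)` and multiply elementary matrices; `cosh² - sinh² = 1`).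
`dg_mem`: diagonal matrices of unit quaternions.
`comm_pm`. `x` commutes with `D b D⁻¹`, `D = diag(u)`: (difference of `u` and `u'` with `u'_i = -u_i`) it commutes with `u E_ij + conj(u) E_ji` (unit quaternion `u`) and with `E_ii + E_jj`. Entry `(i, i)`: `x_ij conj(u) = u x_ji`; `u = 1, i, j, k`: `y = x_ij = x_ji` anticommutes with `i, j, k`, so `y = 0`. Entry `(i, j)`: `x_ii u = u x_jj`: `x_ii = x_jj` is real.
Entry `(k, i)`, `k ≠ i, j`: `x_kj conj(u) = 0`; entry `(k, j)`: `x_ki u = 0`. So `x = r 1` with `r` real (any two indices are joined through the other side), and `xᴴ J x = J` gives `r² = 1`.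
`center_pm`: a central element commutes with everything: `comm_pm`.
-/

set_option autoImplicit false

open Filter Topology Matrix

namespace Pool.Agent.Helper84.SPQ

variable {p q : ℕ}

/-- the matrix of an element of `Sp(p, q)` -/
def mx (x : SpQ p q) : MH (Fin p ⊕ Fin q) := ((x : (MH (Fin p ⊕ Fin q))ˣ) : MH (Fin p ⊕ Fin q))

/-- the matrix of a boost -/
noncomputable def bm (i : Fin p) (j : Fin q) (t : ℝ) : MH (Fin p ⊕ Fin q) :=
  1 + ((Real.cosh t - 1 : ℝ) : Hq) • (single (Sum.inl i) (Sum.inl i) 1 + single (Sum.inr j) (Sum.inr j) 1) +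
    ((Real.sinh t : ℝ) : Hq) • (single (Sum.inl i) (Sum.inr j) 1 + single (Sum.inr j) (Sum.inl i) 1)

/-- the projection on the eigenspace of `exp t` -/
noncomputable def PPm (i : Fin p) (j : Fin q) : MH (Fin p ⊕ Fin q) :=
  ((1 / 2 : ℝ) : Hq) • (single (Sum.inl i) (Sum.inl i) 1 + single (Sum.inr j) (Sum.inr j) 1 +
    single (Sum.inl i) (Sum.inr j) 1 + single (Sum.inr j) (Sum.inl i) 1)

/-- the projection on the eigenspace of `exp (-t)` -/
noncomputable def PMm (i : Fin p) (j : Fin q) : MH (Fin p ⊕ Fin q) :=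
  ((1 / 2 : ℝ) : Hq) • (single (Sum.inl i) (Sum.inl i) 1 + single (Sum.inr j) (Sum.inr j) 1 -
    single (Sum.inl i) (Sum.inr j) 1 - single (Sum.inr j) (Sum.inl i) 1)

/-- the projection on the other coordinates -/
noncomputable def PZm (i : Fin p) (j : Fin q) : MH (Fin p ⊕ Fin q) := 1 - PPm i j - PMm i j

private theorem cs52 {n : Type} (r : ℝ) (M : MH n) : ((r : ℝ) : Hq) • M = r • M := by
  ext1 i j
  rw [Matrix.smul_apply, Matrix.smul_apply, smul_eq_mul, Quaternion.coe_mul_eq_smul]

section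

variable {n : Type} [Fintype n] [DecidableEq n]

private theorem dms52 (d : n → Hq) (a b : n) (c : Hq) : diagonal d * single a b c = single a b (d a * c) := by
  ext1 i j
  rw [diagonal_mul, single_apply, single_apply]
  split_ifs with h
  · rw [h.1]
  · rw [mul_zero]

private theorem smd52 (d : n → Hq) (a b : n) (c : Hq) : single a b c * diagonal d = single a b (c * d b) := by
  ext1 i j
  rw [mul_diagonal, single_apply, single_apply]
  split_ifs with h
  · rw [h.2]
  · rw [zero_mul]

private noncomputable def P52 (a b : n) : MH n := single a a 1 + single b b 1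

private noncomputable def S52 (a b : n) : MH n := single a b 1 + single b a 1

private theorem PP52 {a b : n} (h : a ≠ b) : P52 a b * P52 a b = P52 a b := by
  unfold P52
  rw [mul_add, add_mul, add_mul, single_mul_single_same, single_mul_single_same,
    single_mul_single_of_ne (h := h), single_mul_single_of_ne (h := h.symm), add_zero, zero_add, mul_one]

private theorem SS52 {a b : n} (h : a ≠ b) : S52 a b * S52 a b = P52 a b := by
  unfold S52 P52
  rw [mul_add, add_mul, add_mul, single_mul_single_same, single_mul_single_same,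
    single_mul_single_of_ne (h := h), single_mul_single_of_ne (h := h.symm), add_zero, zero_add, mul_one]
  exact add_comm _ _

private theorem PS52 {a b : n} (h : a ≠ b) : P52 a b * S52 a b = S52 a b := by
  unfold S52 P52
  rw [mul_add, add_mul, add_mul, single_mul_single_same, single_mul_single_same,
    single_mul_single_of_ne (h := h), single_mul_single_of_ne (h := h.symm), add_zero, zero_add, mul_one]

private theorem SP52 {a b : n} (h : a ≠ b) : S52 a b * P52 a b = S52 a b := by
  unfold S52 P52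
  rw [mul_add, add_mul, add_mul, single_mul_single_same, single_mul_single_same,
    single_mul_single_of_ne (h := h), single_mul_single_of_ne (h := h.symm), add_zero, zero_add, mul_one]
  exact add_comm _ _

end

private theorem ab52 (i : Fin p) (j : Fin q) : (Sum.inl i : Fin p ⊕ Fin q) ≠ Sum.inr j := Sum.inl_ne_inr

private theorem bmr52 (i : Fin p) (j : Fin q) (t : ℝ) :
    bm i j t = 1 + (Real.cosh t - 1) • P52 (Sum.inl i) (Sum.inr j) + Real.sinh t • S52 (Sum.inl i) (Sum.inr j) := by
  unfold bm P52 S52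
  rw [cs52, cs52]

private theorem PPm52 (i : Fin p) (j : Fin q) :
    PPm i j = (1 / 2 : ℝ) • (P52 (Sum.inl i) (Sum.inr j) + S52 (Sum.inl i) (Sum.inr j)) := by
  unfold PPm P52 S52
  rw [cs52, add_assoc]

private theorem PMm52 (i : Fin p) (j : Fin q) :
    PMm i j = (1 / 2 : ℝ) • (P52 (Sum.inl i) (Sum.inr j) - S52 (Sum.inl i) (Sum.inr j)) := by
  unfold PMm P52 S52
  rw [cs52, sub_sub]

theorem bm_eq (i : Fin p) (j : Fin q) (t : ℝ) :
    bm i j t = ((Real.exp t : ℝ) : Hq) • PPm i j + ((Real.exp (-t) : ℝ) : Hq) • PMm i j + PZm i j := by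
  rw [cs52, cs52, bmr52]
  unfold PZm
  rw [PPm52, PMm52, Real.cosh_eq, Real.sinh_eq]
  module

theorem bm_proj (i : Fin p) (j : Fin q) : PPm i j * PPm i j = PPm i j ∧ PMm i j * PMm i j = PMm i j ∧ PPm i j * PMm i j = 0 ∧
    PMm i j * PPm i j = 0 ∧ PZm i j * PZm i j = PZm i j ∧ PPm i j * PZm i j = 0 ∧ PZm i j * PPm i j = 0 ∧ PMm i j * PZm i j = 0 ∧
    PZm i j * PMm i j = 0 := by
  have hab := ab52 i j
  have h1 : PPm i j * PPm i j = PPm i j := by
    rw [PPm52, smul_mul_assoc, mul_smul_comm, mul_add, add_mul, add_mul, PP52 hab, SS52 hab, PS52 hab, SP52 hab]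
    module
  have h2 : PMm i j * PMm i j = PMm i j := by
    rw [PMm52, smul_mul_assoc, mul_smul_comm, mul_sub, sub_mul, sub_mul, PP52 hab, SS52 hab, PS52 hab, SP52 hab]
    module
  have h3 : PPm i j * PMm i j = 0 := by
    rw [PPm52, PMm52, smul_mul_assoc, mul_smul_comm, mul_sub, add_mul, add_mul, PP52 hab, SS52 hab, PS52 hab, SP52 hab]
    module
  have h4 : PMm i j * PPm i j = 0 := by
    rw [PPm52, PMm52, smul_mul_assoc, mul_smul_comm, mul_add, sub_mul, sub_mul, PP52 hab, SS52 hab, PS52 hab, SP52 hab]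
    module
  have h6 : PPm i j * PZm i j = 0 := by
    unfold PZm
    rw [mul_sub, mul_sub, mul_one, h1, h3, sub_self, sub_zero]
  have h7 : PZm i j * PPm i j = 0 := by
    unfold PZm
    rw [sub_mul, sub_mul, one_mul, h1, h4, sub_self, sub_zero]
  have h8 : PMm i j * PZm i j = 0 := by
    unfold PZm
    rw [mul_sub, mul_sub, mul_one, h2, h4, sub_zero, sub_self]
  have h9 : PZm i j * PMm i j = 0 := by
    unfold PZm
    rw [sub_mul, sub_mul, one_mul, h2, h3, sub_zero, sub_self]
  have h5 : PZm i j * PZm i j = PZm i j := by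
    have e : PZm i j * PZm i j = PZm i j * 1 - PZm i j * PPm i j - PZm i j * PMm i j := by
      rw [← mul_sub, ← mul_sub]
      rfl
    rw [e, h7, h9, mul_one, sub_zero, sub_zero]
  exact ⟨h1, h2, h3, h4, h5, h6, h7, h8, h9⟩

theorem bm_mul (i : Fin p) (j : Fin q) (t s : ℝ) : bm i j t * bm i j s = bm i j (t + s) := by
  obtain ⟨h1, h2, h3, h4, h5, h6, h7, h8, h9⟩ := bm_proj i j
  rw [bm_eq, bm_eq, bm_eq]
  simp only [cs52, mul_add, add_mul, smul_mul_assoc, mul_smul_comm, h1, h2, h3, h4, h5, h6, h7, h8, h9, smul_zero,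
    add_zero, zero_add, smul_smul]
  rw [← Real.exp_add, ← Real.exp_add, neg_add_rev, add_comm s t]

private theorem bm0 (i : Fin p) (j : Fin q) : bm i j 0 = 1 := by
  rw [bmr52, Real.cosh_zero, Real.sinh_zero, sub_self, zero_smul, zero_smul, add_zero, add_zero]

private theorem cts52 {n : Type} (r : ℝ) (M : MH n) : (r • M)ᴴ = r • Mᴴ := by
  ext1 i j
  rw [conjTranspose_apply, Matrix.smul_apply, Matrix.smul_apply, conjTranspose_apply, Quaternion.star_smul]

private theorem bmst52 (i : Fin p) (j : Fin q) (t : ℝ) : (bm i j t)ᴴ = bm i j t := by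
  have hP : (P52 (Sum.inl i) (Sum.inr j) : MH (Fin p ⊕ Fin q))ᴴ = P52 (Sum.inl i) (Sum.inr j) := by
    unfold P52
    rw [conjTranspose_add, conjTranspose_single, conjTranspose_single, star_one]
  have hS : (S52 (Sum.inl i) (Sum.inr j) : MH (Fin p ⊕ Fin q))ᴴ = S52 (Sum.inl i) (Sum.inr j) := by
    unfold S52
    rw [conjTranspose_add, conjTranspose_single, conjTranspose_single, star_one, add_comm]
  rw [bmr52, conjTranspose_add, conjTranspose_add, conjTranspose_one, cts52, cts52, hP, hS]

private theorem bmJ52 (i : Fin p) (j : Fin q) (t : ℝ) : Jm (epq p q) * bm i j t = bm i j (-t) * Jm (epq p q) := by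
  rw [bmr52, bmr52, Real.cosh_neg, Real.sinh_neg]
  unfold Jm P52 S52
  simp only [mul_add, add_mul, smul_mul_assoc, mul_smul_comm, dms52, smd52, mul_one, one_mul]
  simp only [epq, Sum.elim_inl, Sum.elim_inr]
  have e : ∀ a b : Fin p ⊕ Fin q, single a b (((-1 : ℝ) : Hq)) = -single a b (((1 : ℝ) : Hq)) := by
    intro a b
    ext1 k l
    rw [neg_apply, single_apply, single_apply]
    split_ifs
    · rw [Quaternion.coe_neg]
    · rw [neg_zero]
  simp only [e]
  module

theorem bm_mem (i : Fin p) (j : Fin q) (t : ℝ) : ∃ b : SpQ p q, mx b = bm i j t := by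
  refine exists_of_mem (sgnpq p q) ?_
  rw [bmst52, mul_assoc, bmJ52, ← mul_assoc, bm_mul, add_neg_cancel, bm0, one_mul]

theorem dg_mem (u : Fin p ⊕ Fin q → Hq) (hu : ∀ i, ‖u i‖ = 1) : ∃ d : SpQ p q, mx d = diagonal u := by
  refine exists_of_mem (sgnpq p q) ?_
  unfold Jm
  rw [diagonal_conjTranspose, diagonal_mul_diagonal, diagonal_mul_diagonal]
  congr 1
  funext k
  rw [Pi.star_apply, mul_assoc, Quaternion.coe_commutes, ← mul_assoc, Quaternion.star_mul_self,
    Quaternion.normSq_eq_norm_mul_self, hu k]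
  simp

private theorem mx_mul52 (x y : SpQ p q) : mx (x * y) = mx x * mx y := rfl

private theorem mx_one52 : mx (1 : SpQ p q) = 1 := rfl

/-- commutation with the antidiagonal matrices -/
private theorem commT52 {x : SpQ p q}
    (h : ∀ (g b : SpQ p q) (i : Fin p) (j : Fin q), mx b = bm i j 1 → x * (g * b * g⁻¹) = g * b * g⁻¹ * x)
    (i : Fin p) (j : Fin q) (u : Hq) (hu : ‖u‖ = 1) :
    mx x * (single (Sum.inl i) (Sum.inr j) u + single (Sum.inr j) (Sum.inl i) (star u)) =
      (single (Sum.inl i) (Sum.inr j) u + single (Sum.inr j) (Sum.inl i) (star u)) * mx x := by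
  have hM : ∀ v : Hq, ‖v‖ = 1 →
      mx x * (1 + (Real.cosh 1 - 1) • P52 (Sum.inl i) (Sum.inr j) +
        Real.sinh 1 • (single (Sum.inl i) (Sum.inr j) v + single (Sum.inr j) (Sum.inl i) (star v))) =
      (1 + (Real.cosh 1 - 1) • P52 (Sum.inl i) (Sum.inr j) +
        Real.sinh 1 • (single (Sum.inl i) (Sum.inr j) v + single (Sum.inr j) (Sum.inl i) (star v))) * mx x := by
    intro v hv
    obtain ⟨d, hd⟩ := dg_mem (p := p) (q := q) (fun k => if k = Sum.inl i then v else 1) (by
      intro k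
      split_ifs
      · exact hv
      · exact norm_one)
    obtain ⟨b, hb⟩ := bm_mem i j 1
    have h1 := congrArg mx (h d b i j hb)
    rw [mx_mul52 x, mx_mul52 _ x] at h1
    have hvv : star v * v = 1 := by
      rw [Quaternion.star_mul_self, Quaternion.normSq_eq_norm_mul_self, hv]
      simp
    have h2 : mx (d * b * d⁻¹) = 1 + (Real.cosh 1 - 1) • P52 (Sum.inl i) (Sum.inr j) +
        Real.sinh 1 • (single (Sum.inl i) (Sum.inr j) v + single (Sum.inr j) (Sum.inl i) (star v)) := by
      have h3 : mx d * mx b = (1 + (Real.cosh 1 - 1) • P52 (Sum.inl i) (Sum.inr j) +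
          Real.sinh 1 • (single (Sum.inl i) (Sum.inr j) v + single (Sum.inr j) (Sum.inl i) (star v))) * mx d := by
        rw [hd, hb, bmr52]
        unfold P52 S52
        simp only [mul_add, add_mul, smul_mul_assoc, mul_smul_comm, dms52, smd52, mul_one, one_mul, if_true,
          if_neg (ab52 i j).symm, hvv]
      have h4 : mx d * mx d⁻¹ = 1 := by
        rw [← mx_mul52, mul_inv_cancel, mx_one52]
      rw [mx_mul52, mx_mul52, h3, mul_assoc, h4, mul_one]
    rw [h2] at h1
    exact h1
  have h1 := hM u hu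
  have h2 := hM (-u) (by rw [norm_neg, hu])
  have e : ∀ (a b : Fin p ⊕ Fin q) (c : Hq), single a b (-c) = -single a b c := by
    intro a b c
    ext1 k l
    rw [neg_apply, single_apply, single_apply]
    split_ifs
    · rfl
    · rw [neg_zero]
  rw [star_neg, e, e] at h2
  set T : MH (Fin p ⊕ Fin q) := single (Sum.inl i) (Sum.inr j) u + single (Sum.inr j) (Sum.inl i) (star u) with hT
  have e2 : -single (Sum.inl i) (Sum.inr j) u + -single (Sum.inr j) (Sum.inl i) (star u) = -T := by
    rw [hT, neg_add]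
  rw [e2] at h2
  have h3 : (2 * Real.sinh 1) • (mx x * T) = (2 * Real.sinh 1) • (T * mx x) := by
    have h4 := congrArg₂ (fun a b => a - b) h1 h2
    simp only [mul_add, add_mul, mul_smul_comm, smul_mul_assoc, mul_neg, neg_mul, smul_neg] at h4
    have e3 : ∀ A B C : MH (Fin p ⊕ Fin q), (A + B + C) - (A + B + -C) = (2 : ℝ) • C := by
      intro A B C
      module
    rw [e3, e3, smul_smul, smul_smul] at h4
    exact h4
  have hs : 2 * Real.sinh 1 ≠ 0 := by
    have := Real.sinh_pos_iff.2 one_pos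
    positivity
  exact smul_right_injective _ hs h3

private theorem ent52 {x : SpQ p q}
    (h : ∀ (g b : SpQ p q) (i : Fin p) (j : Fin q), mx b = bm i j 1 → x * (g * b * g⁻¹) = g * b * g⁻¹ * x)
    (i : Fin p) (j : Fin q) (u : Hq) (hu : ‖u‖ = 1) (k l : Fin p ⊕ Fin q) :
    (if l = Sum.inr j then mx x k (Sum.inl i) * u else if l = Sum.inl i then mx x k (Sum.inr j) * star u else 0) =
      if k = Sum.inl i then u * mx x (Sum.inr j) l else if k = Sum.inr j then star u * mx x (Sum.inl i) l else 0 := by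
  have h1 := congrFun (congrFun (commT52 h i j u hu) k) l
  rw [mul_add, add_mul, Matrix.add_apply, Matrix.add_apply] at h1
  have hl : (if l = Sum.inr j then mx x k (Sum.inl i) * u else if l = Sum.inl i then mx x k (Sum.inr j) * star u else 0) =
      (mx x * (single (Sum.inl i) (Sum.inr j) u : MH (Fin p ⊕ Fin q))) k l +
        (mx x * (single (Sum.inr j) (Sum.inl i) (star u) : MH (Fin p ⊕ Fin q))) k l := by
    split_ifs with h2 h3
    · rw [h2, mul_single_apply_same, mul_single_apply_of_ne (hbj := (ab52 i j).symm), add_zero]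
    · rw [h3, mul_single_apply_same, mul_single_apply_of_ne (hbj := ab52 i j), zero_add]
    · rw [mul_single_apply_of_ne (hbj := h2), mul_single_apply_of_ne (hbj := h3), add_zero]
  have hr : (if k = Sum.inl i then u * mx x (Sum.inr j) l else if k = Sum.inr j then star u * mx x (Sum.inl i) l else 0) =
      ((single (Sum.inl i) (Sum.inr j) u : MH (Fin p ⊕ Fin q)) * mx x) k l +
        ((single (Sum.inr j) (Sum.inl i) (star u) : MH (Fin p ⊕ Fin q)) * mx x) k l := by
    split_ifs with h2 h3
    · rw [h2, single_mul_apply_same, single_mul_apply_of_ne (h := ab52 i j), add_zero]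
    · rw [h3, single_mul_apply_same, single_mul_apply_of_ne (h := (ab52 i j).symm), zero_add]
    · rw [single_mul_apply_of_ne (h := h2), single_mul_apply_of_ne (h := h3), add_zero]
  rw [hl, hr, h1]

private noncomputable def qI52 : Hq := ⟨0, 1, 0, 0⟩

private noncomputable def qJ52 : Hq := ⟨0, 0, 1, 0⟩

private noncomputable def qK52 : Hq := ⟨0, 0, 0, 1⟩

private theorem qi52 : ‖qI52‖ = 1 ∧ ‖qJ52‖ = 1 ∧ ‖qK52‖ = 1 := by
  refine ⟨?_, ?_, ?_⟩
  · rw [← sq_eq_sq₀ (norm_nonneg _) zero_le_one, sq, ← Quaternion.normSq_eq_norm_mul_self, Quaternion.normSq_def']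
    norm_num [qI52]
  · rw [← sq_eq_sq₀ (norm_nonneg _) zero_le_one, sq, ← Quaternion.normSq_eq_norm_mul_self, Quaternion.normSq_def']
    norm_num [qJ52]
  · rw [← sq_eq_sq₀ (norm_nonneg _) zero_le_one, sq, ← Quaternion.normSq_eq_norm_mul_self, Quaternion.normSq_def']
    norm_num [qK52]

private theorem qc52 : (qI52.re = 0 ∧ qI52.imI = 1 ∧ qI52.imJ = 0 ∧ qI52.imK = 0) ∧
    (qJ52.re = 0 ∧ qJ52.imI = 0 ∧ qJ52.imJ = 1 ∧ qJ52.imK = 0) ∧
    (qK52.re = 0 ∧ qK52.imI = 0 ∧ qK52.imJ = 0 ∧ qK52.imK = 1) :=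
  ⟨⟨rfl, rfl, rfl, rfl⟩, ⟨rfl, rfl, rfl, rfl⟩, ⟨rfl, rfl, rfl, rfl⟩⟩

/-- a quaternion `y` with `y * star u = u * y` for all unit `u` is zero -/
private theorem anti52 {y : Hq} (h : ∀ u : Hq, ‖u‖ = 1 → y * star u = u * y) : y = 0 := by
  obtain ⟨⟨i0, i1, i2, i3⟩, ⟨j0, j1, j2, j3⟩, ⟨k0, k1, k2, k3⟩⟩ := qc52
  have h1 := h _ qi52.1
  have h2 := h _ qi52.2.1
  have h3 := h _ qi52.2.2
  have a1 := congrArg (fun z : Hq => z.re) h1
  have a2 := congrArg (fun z : Hq => z.imI) h1
  have b1 := congrArg (fun z : Hq => z.re) h2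
  have b2 := congrArg (fun z : Hq => z.imJ) h2
  have c1 := congrArg (fun z : Hq => z.re) h3
  simp only [Quaternion.re_mul, Quaternion.imI_mul, Quaternion.imJ_mul, Quaternion.re_star, Quaternion.imI_star,
    Quaternion.imJ_star, Quaternion.imK_star, i0, i1, i2, i3, j0, j1, j2, j3, k0, k1, k2, k3] at a1 a2 b1 b2 c1
  refine Quaternion.ext _ _ ?_ ?_ ?_ ?_
  · rw [Quaternion.re_zero]
    linarith
  · rw [Quaternion.imI_zero]
    linarith
  · rw [Quaternion.imJ_zero]
    linarith
  · rw [Quaternion.imK_zero]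
    linarith

/-- a quaternion which commutes with all unit quaternions is real -/
private theorem comm52 {y : Hq} (h : ∀ u : Hq, ‖u‖ = 1 → y * u = u * y) : y = ((y.re : ℝ) : Hq) := by
  obtain ⟨⟨i0, i1, i2, i3⟩, ⟨j0, j1, j2, j3⟩, -⟩ := qc52
  have h1 := h _ qi52.1
  have h2 := h _ qi52.2.1
  have a3 := congrArg (fun z : Hq => z.imJ) h1
  have a4 := congrArg (fun z : Hq => z.imK) h1
  have b2 := congrArg (fun z : Hq => z.imK) h2
  simp only [Quaternion.imJ_mul, Quaternion.imK_mul, i0, i1, i2, i3, j0, j1, j2, j3] at a3 a4 b2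
  refine Quaternion.ext _ _ ?_ ?_ ?_ ?_
  · rw [Quaternion.re_coe]
  · rw [Quaternion.imI_coe]
    linarith
  · rw [Quaternion.imJ_coe]
    linarith
  · rw [Quaternion.imK_coe]
    linarith

theorem comm_pm (hp : 1 ≤ p) (hq : 1 ≤ q) {x : SpQ p q}
    (h : ∀ (g b : SpQ p q) (i : Fin p) (j : Fin q), mx b = bm i j 1 → x * (g * b * g⁻¹) = g * b * g⁻¹ * x) :
    mx x = 1 ∨ mx x = -1 := by
  set X := mx x with hX
  have i0 : Fin p := ⟨0, hp⟩
  have j0 : Fin q := ⟨0, hq⟩
  -- the entries between the sides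
  have hAB : ∀ (i : Fin p) (j : Fin q), X (Sum.inl i) (Sum.inr j) = 0 ∧ X (Sum.inr j) (Sum.inl i) = 0 := by
    intro i j
    have e1 : ∀ u : Hq, ‖u‖ = 1 → X (Sum.inl i) (Sum.inr j) * star u = u * X (Sum.inr j) (Sum.inl i) := by
      intro u hu
      have := ent52 h i j u hu (Sum.inl i) (Sum.inl i)
      rwa [if_neg (ab52 i j), if_pos rfl, if_pos rfl] at this
    have e2 : X (Sum.inl i) (Sum.inr j) = X (Sum.inr j) (Sum.inl i) := by
      have := e1 1 norm_one
      rwa [star_one, mul_one, one_mul] at this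
    have e3 : X (Sum.inl i) (Sum.inr j) = 0 := by
      apply anti52
      intro u hu
      rw [e1 u hu, e2]
    exact ⟨e3, e2 ▸ e3⟩
  have hD : ∀ (i : Fin p) (j : Fin q) (u : Hq), ‖u‖ = 1 → X (Sum.inl i) (Sum.inl i) * u = u * X (Sum.inr j) (Sum.inr j) := by
    intro i j u hu
    have := ent52 h i j u hu (Sum.inl i) (Sum.inr j)
    rwa [if_pos rfl, if_pos rfl] at this
  have hO : ∀ k l : Fin p ⊕ Fin q, k ≠ l → X k l = 0 := by
    intro k l hkl
    rcases l with i | j
    · rcases k with k | k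
      · have := ent52 h i j0 1 norm_one (Sum.inl k) (Sum.inr j0)
        rw [if_pos rfl, if_neg hkl, if_neg (ab52 k j0), mul_one] at this
        exact this
      · exact (hAB i k).2
    · rcases k with k | k
      · exact (hAB k j).1
      · have := ent52 h i0 j 1 norm_one (Sum.inr k) (Sum.inl i0)
        rw [if_neg (ab52 i0 j), if_pos rfl, if_neg (ab52 i0 k).symm, if_neg hkl, star_one, mul_one] at this
        exact this
  set z : Hq := X (Sum.inl i0) (Sum.inl i0) with hz
  have hj : ∀ j : Fin q, X (Sum.inr j) (Sum.inr j) = z := by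
    intro j
    have := hD i0 j 1 norm_one
    rw [mul_one, one_mul] at this
    exact this.symm
  have hi : ∀ i : Fin p, X (Sum.inl i) (Sum.inl i) = z := by
    intro i
    have := hD i j0 1 norm_one
    rw [mul_one, one_mul, hj j0] at this
    exact this
  have hr : z = ((z.re : ℝ) : Hq) := by
    apply comm52
    intro u hu
    have := hD i0 j0 u hu
    rwa [hj j0] at this
  have hXd : X = diagonal fun _ => z := by
    ext1 k l
    by_cases hkl : k = l
    · subst hkl
      rw [diagonal_apply_eq]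
      rcases k with k | k
      · exact hi k
      · exact hj k
    · rw [diagonal_apply_ne _ hkl]
      exact hO k l hkl
  have hm : Xᴴ * Jm (epq p q) * X = Jm (epq p q) := x.2
  rw [hXd] at hm
  unfold Jm at hm
  rw [diagonal_conjTranspose, diagonal_mul_diagonal, diagonal_mul_diagonal] at hm
  have h1 := congrFun (diagonal_injective hm) (Sum.inl i0)
  simp only [Pi.star_apply, epq, Sum.elim_inl] at h1
  rw [hr] at h1
  rw [Quaternion.star_coe, ← Quaternion.coe_mul, ← Quaternion.coe_mul] at h1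
  have h2 : z.re * 1 * z.re = 1 := Quaternion.coe_injective h1
  have h3 : z.re = 1 ∨ z.re = -1 := by
    have h4 : (z.re - 1) * (z.re + 1) = 0 := by nlinarith
    rcases mul_eq_zero.1 h4 with h5 | h5
    · left; linarith
    · right; linarith
  rcases h3 with h4 | h4
  · left
    rw [hXd, hr, h4, Quaternion.coe_one]
    exact diagonal_one
  · right
    rw [hXd, hr, h4, Quaternion.coe_neg, Quaternion.coe_one]
    ext1 k l
    rw [neg_apply, diagonal_apply, one_apply]
    split_ifs
    · rfl
    · rw [neg_zero]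

theorem center_pm (hp : 1 ≤ p) (hq : 1 ≤ q) {x : SpQ p q} (h : x ∈ Subgroup.center (SpQ p q)) : mx x = 1 ∨ mx x = -1 :=
  comm_pm hp hq fun g b _ _ _ => (Subgroup.mem_center_iff.1 h (g * b * g⁻¹)).symm

end Pool.Agent.Helper84.SPQ
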