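import Pool.Agent.Helper84.SPQ.B6

/-!
# Project SPQ, block B7: the second section of the cocycle, and the criterion for the Haagerup property

Let `vv γ = π (Ga.XX γ) v` for `γ ∈ Ga.good`, `vv γ = v` otherwise. PROOFS.
`vv_cpt`: eventually `γ ∈ T.W n ∩ good`, and `π (XX γ) v = π (z • XX γ) v` (`scal`, `XX γ ∈ HH f`: `z • XX γ ∈ KH f R r` has nonzero determinant), in the compact set `mdl_compact`.
`vv_right`: eventually (along `T.F n`; `T.shift 1 h n`) `γ`, `γ h ∈ good`, `γ ∈ T.W n`, `γ h ∈ T.W n'`. `T.C_right h` gives `O` block diagonal, unit `c`, `T.C 1 h γ * S.X (γ h) = c • (S.X γ * O γ)`, `(O γ)ᴴ O γ → 1`. With `A = gg (κ γ) (κ (γ h)) (T.C 1 h γ)`, `p = pg .. 1 h γ` (so `A - p → 0`),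
`x = XX γ`, `x' = XX (γ h)`, `O' = gg (κ γ) (κ (γ h)) (O γ)`: `A x' = c x O'` (`gg_mul` twice), `O'ᴴ O' → 1`. Let `z, z'` be the scalars of `hXb` for `γ`, `γ h`: `y = z • x`, `y' = z' • x' ∈ KH f R r`. `B = y⁻¹ p y' ∈ HH f` (`IsG`; entries bounded: `y⁻¹` is bounded on the compact set `KH f R r`; so
`B ∈ KH f R'' r''` eventually) and `B - (c z'/z) • O' = y⁻¹ (p - A) y' → 0`: by `mdl_v` `π(B) v → v`. `π(B) v = π(y)⁻¹ π(p) π(y') v` (from `mul`), `π(y) = π(x)`, `π(y') = π(x')` (`scal`), so `‖π(p) π(x') v - π(x) v‖ = ‖π(B) v - v‖ → 0`.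
`exists_coc`: the structure `Coc` (see `toCoc` in `GN/I1.lean`): `pi g h γ = π (pg Ga pr g h γ)`, `vX = vv`; `nonneg`, `pos`: on `good` hypotheses `hnn`, `hpos`, off `good` the scalar product is `1` (take the minimum of `c` and `1`).
`haag_of_gau`: `s = Ga.good`.
-/

set_option autoImplicit false

open Filter Topology Matrix

namespace Pool.Agent.Helper84.SPQ

open NI GN Pool.Agent.Helper90.RK

variable {G : Type} [Group G] {N : ℕ} {P : PH G N} {S : Sv P} {T : Str S} {i0 : Fin N} {M : Type} [Fintype M] [DecidableEq M]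
  {f : Matrix M M ℂ → ℝ}

open Classical in
/-- The second section. -/
noncomputable def vv (Ga : Gau T i0 M f) {L : Type} [NormedAddCommGroup L] [InnerProductSpace ℂ L] (Mo : Mdl f L) (γ : G) : L :=
  if γ ∈ Ga.good then Mo.π (Ga.XX γ) Mo.v else Mo.v

section

variable (Ga : Gau T i0 M f) (hf : IsG f) {pr : Matrix M M ℂ → Matrix M M ℂ} (hp : IsPr f pr)
  {L : Type} [NormedAddCommGroup L] [InnerProductSpace ℂ L] (Mo : Mdl f L)

/-! ### The group `HH f` -/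

include hf in
private theorem HH_one45 : (1 : Matrix M M ℂ) ∈ HH f := ⟨hf.one, by rw [Matrix.det_one]; exact one_ne_zero⟩

include hf in
private theorem HH_mul45 {A B : Matrix M M ℂ} (hA : A ∈ HH f) (hB : B ∈ HH f) : A * B ∈ HH f :=
  ⟨hf.mul A hA B hB, by rw [Matrix.det_mul]; exact mul_ne_zero hA.2 hB.2⟩

include hf in
private theorem HH_inv45 {A : Matrix M M ℂ} (hA : A ∈ HH f) : A⁻¹ ∈ HH f := by
  refine ⟨hf.inv A hA, ?_⟩
  rw [Matrix.det_nonsing_inv, Ring.inverse_eq_inv]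
  exact inv_ne_zero hA.2

/-! ### Limits -/

omit [DecidableEq M] in
private theorem lim_mul45 {α : Type} {u : Filter α} {A B : α → Matrix M M ℂ} {A0 B0 : Matrix M M ℂ}
    (hA : Tendsto A u (𝓝 A0)) (hB : Tendsto B u (𝓝 B0)) : Tendsto (fun x => A x * B x) u (𝓝 (A0 * B0)) := by
  have h1 : Continuous fun p : Matrix M M ℂ × Matrix M M ℂ => p.1 * p.2 := by fun_prop
  exact (h1.tendsto (A0, B0)).comp (hA.prodMk_nhds hB)

private theorem lim_inv45 {α : Type} {u : Filter α} {A : α → Matrix M M ℂ} {A0 : Matrix M M ℂ}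
    (hA : Tendsto A u (𝓝 A0)) (h0 : A0.det ≠ 0) : Tendsto (fun x => (A x)⁻¹) u (𝓝 A0⁻¹) := by
  simp only [Matrix.inv_def, Ring.inverse_eq_inv]
  have h1 : Continuous fun A : Matrix M M ℂ => A.det := continuous_id.matrix_det
  have h2 : Continuous fun A : Matrix M M ℂ => A.adjugate := continuous_id.matrix_adjugate
  exact (((h1.tendsto A0).comp hA).inv₀ h0).smul ((h2.tendsto A0).comp hA)

private theorem ev_mem45 {α : Type} {u : Filter α} {B : α → Matrix M M ℂ} {B0 : Matrix M M ℂ}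
    (hB : Tendsto B u (𝓝 B0)) (h0 : B0.det ≠ 0) (hfB : ∀ᶠ x in u, f (B x) = 0) :
    ∃ R r : ℝ, 0 < r ∧ ∀ᶠ x in u, B x ∈ KH f R r := by
  have h1 : Continuous fun A : Matrix M M ℂ => A.det := continuous_id.matrix_det
  have hd : 0 < ‖B0.det‖ := norm_pos_iff.2 h0
  refine ⟨(∑ i, ∑ j, ‖B0 i j‖) + 1, ‖B0.det‖ / 2, by positivity, ?_⟩
  have h2 : ∀ i j, ∀ᶠ x in u, ‖B x i j‖ < (∑ i, ∑ j, ‖B0 i j‖) + 1 := by
    intro i j
    have h3 : Tendsto (fun x => ‖B x i j‖) u (𝓝 ‖B0 i j‖) :=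
      (tendsto_pi_nhds.1 (tendsto_pi_nhds.1 hB i) j).norm
    refine h3.eventually (gt_mem_nhds ?_)
    have h4 : ‖B0 i j‖ ≤ ∑ j, ‖B0 i j‖ :=
      Finset.single_le_sum (f := fun j => ‖B0 i j‖) (fun _ _ => norm_nonneg _) (Finset.mem_univ j)
    have h5 : ∑ j, ‖B0 i j‖ ≤ ∑ i, ∑ j, ‖B0 i j‖ :=
      Finset.single_le_sum (f := fun i => ∑ j, ‖B0 i j‖)
        (fun _ _ => Finset.sum_nonneg fun _ _ => norm_nonneg _) (Finset.mem_univ i)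
    linarith
  have h3 : ∀ᶠ x in u, ‖B0.det‖ / 2 < ‖(B x).det‖ := by
    have h4 : Tendsto (fun x => ‖(B x).det‖) u (𝓝 ‖B0.det‖) := ((h1.tendsto B0).comp hB).norm
    exact h4.eventually (lt_mem_nhds (by linarith))
  filter_upwards [hfB, h3, Filter.eventually_all.2 fun i => Filter.eventually_all.2 fun j => h2 i j]
    with x a1 a2 a3
  exact ⟨a1, fun i j => (a3 i j).le, a2.le⟩

/-! ### The matrices `XX γ` -/

private theorem XX_det45 (γ : G) : (Ga.XX γ).det ≠ 0 := by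
  have hX := T.X_mem γ
  have h1 : gg (Ga.κ γ) (Ga.κ γ) (S.X γ) * gg (Ga.κ γ) (Ga.κ γ) (S.X γ)⁻¹ = 1 := by
    rw [← gg_mul (Ga.u2 γ) hX.1, Matrix.mul_nonsing_inv _ (isUnit_iff_ne_zero.2 hX.2),
      gg_one (Ga.u1 γ)]
  intro h2
  have h3 := congrArg Matrix.det h1
  rw [Matrix.det_mul, Matrix.det_one] at h3
  have h4 : (gg (Ga.κ γ) (Ga.κ γ) (S.X γ)).det = 0 := h2
  rw [h4, zero_mul] at h3
  exact zero_ne_one h3

private theorem XX_mem45 {γ : G} (hγ : γ ∈ Ga.good) : Ga.XX γ ∈ HH f := ⟨Ga.hX γ hγ, XX_det45 Ga γ⟩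

private theorem vv_eq45 {γ : G} (hγ : γ ∈ Ga.good) : vv Ga Mo γ = Mo.π (Ga.XX γ) Mo.v := by
  unfold vv
  rw [if_pos hγ]

include hf in
theorem vv_cpt (n : ℕ) : ∃ K : Set L, IsCompact K ∧ ∀ᶠ γ in T.F n, vv Ga Mo γ ∈ K := by
  obtain ⟨R, r, hr, hz⟩ := Ga.hXb n
  refine ⟨(fun A => Mo.π A Mo.v) '' KH f R r, mdl_compact Mo hf.cont Mo.v hr, ?_⟩
  filter_upwards [T.le n (mem_principal_self _), Ga.hgood n] with γ h1 h2
  obtain ⟨z, -, hz2⟩ := hz γ h1 h2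
  refine ⟨z • Ga.XX γ, hz2, ?_⟩
  change Mo.π (z • Ga.XX γ) Mo.v = _
  rw [Mo.scal z _ (XX_mem45 Ga h2) (KH_sub hr hz2), vv_eq45 Ga Mo h2]

include hf hp in
theorem vv_right (h : G) (n : ℕ) : Tendsto (fun γ => Mo.π (pg Ga pr 1 h γ) (vv Ga Mo (1⁻¹ * γ * h)) - vv Ga Mo γ) (T.F n) (𝓝 0) := by
  obtain ⟨n', hsh⟩ := T.shift 1 h n
  obtain ⟨R, r, hr, hz⟩ := Ga.hXb n
  obtain ⟨R', r', hr', hz'⟩ := Ga.hXb n'
  obtain ⟨R'', r'', hr'', hpg⟩ := pg_ev Ga hf hp 1 h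
  obtain ⟨O, hO0, hO1, hO2⟩ := T.C_right h
  have hzc : ∀ γ, ∃ z : ℂ, γ ∈ T.W n → γ ∈ Ga.good → z ≠ 0 ∧ z • Ga.XX γ ∈ KH f R r := by
    intro γ
    by_cases h1 : γ ∈ T.W n ∧ γ ∈ Ga.good
    · obtain ⟨z, h2, h3⟩ := hz γ h1.1 h1.2
      exact ⟨z, fun _ _ => ⟨h2, h3⟩⟩
    · exact ⟨0, fun h2 h3 => absurd ⟨h2, h3⟩ h1⟩
  have hzc' : ∀ γ, ∃ z : ℂ, γ ∈ T.W n' → γ ∈ Ga.good → z ≠ 0 ∧ z • Ga.XX γ ∈ KH f R' r' := by
    intro γ
    by_cases h1 : γ ∈ T.W n' ∧ γ ∈ Ga.good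
    · obtain ⟨z, h2, h3⟩ := hz' γ h1.1 h1.2
      exact ⟨z, fun _ _ => ⟨h2, h3⟩⟩
    · exact ⟨0, fun h2 h3 => absurd ⟨h2, h3⟩ h1⟩
  choose z hzz using hzc
  choose z' hzz' using hzc'
  choose c hc hce using hO1
  obtain ⟨sh, hshd⟩ : ∃ sh : G → G, ∀ γ, sh γ = 1⁻¹ * γ * h := ⟨_, fun _ => rfl⟩
  obtain ⟨y, hy⟩ : ∃ y : G → Matrix M M ℂ, ∀ γ, y γ = z γ • Ga.XX γ := ⟨_, fun _ => rfl⟩
  obtain ⟨y', hy'⟩ : ∃ y' : G → Matrix M M ℂ, ∀ γ, y' γ = z' (sh γ) • Ga.XX (sh γ) :=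
    ⟨_, fun _ => rfl⟩
  obtain ⟨A, hA⟩ : ∃ A : G → Matrix M M ℂ, ∀ γ, A γ = gg (Ga.κ γ) (Ga.κ (sh γ)) (T.C 1 h γ) :=
    ⟨_, fun _ => rfl⟩
  obtain ⟨U, hU⟩ : ∃ U : G → Matrix M M ℂ, ∀ γ, U γ = gg (Ga.κ γ) (Ga.κ (sh γ)) (O γ) :=
    ⟨_, fun _ => rfl⟩
  obtain ⟨p, hpd⟩ : ∃ p : G → Matrix M M ℂ, ∀ γ, p γ = pg Ga pr 1 h γ := ⟨_, fun _ => rfl⟩
  have hshT : Tendsto sh (T.F n) (T.F n') := hsh.congr fun γ => (hshd γ).symm
  have evW : ∀ᶠ γ in T.F n, γ ∈ T.W n := T.le n (mem_principal_self _)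
  have evg : ∀ᶠ γ in T.F n, γ ∈ Ga.good := Ga.hgood n
  have evW' : ∀ᶠ γ in T.F n, sh γ ∈ T.W n' := hshT.eventually (T.le n' (mem_principal_self _))
  have evg' : ∀ᶠ γ in T.F n, sh γ ∈ Ga.good := hshT.eventually (Ga.hgood n')
  have evy : ∀ᶠ γ in T.F n, y γ ∈ KH f R r := by
    filter_upwards [evW, evg] with γ h1 h2
    rw [hy]
    exact (hzz γ h1 h2).2
  have evy' : ∀ᶠ γ in T.F n, y' γ ∈ KH f R' r' := by
    filter_upwards [evW', evg'] with γ h1 h2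
    rw [hy']
    exact (hzz' _ h1 h2).2
  have evp : ∀ᶠ γ in T.F n, p γ ∈ KH f R'' r'' := by
    filter_upwards [(hpg n).1] with γ h1
    rw [hpd]
    exact h1
  have hAp : Tendsto (fun γ => A γ - p γ) (T.F n) (𝓝 0) := by
    refine (hpg n).2.congr fun γ => ?_
    rw [hA, hpd, hshd]
  -- the exact relation
  have hrel : ∀ γ, A γ * Ga.XX (sh γ) = c γ • (Ga.XX γ * U γ) := by
    intro γ
    have e1 : A γ * Ga.XX (sh γ) = gg (Ga.κ γ) (Ga.κ (sh γ)) (T.C 1 h γ * S.X (sh γ)) := by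
      rw [hA]
      exact (gg_mul (Ga.u2 (sh γ)) (D_D T.b _) _).symm
    have e2 : S.X (sh γ) = S.X (γ * h) := by
      rw [hshd, inv_one, one_mul]
    have e3 : gg (Ga.κ γ) (Ga.κ (sh γ)) (S.X γ * O γ) = Ga.XX γ * U γ := by
      rw [hU]
      exact gg_mul (Ga.u2 γ) (T.X_mem γ).1 _
    rw [e1, e2, hce γ, gg_smul, e3]
  have hU1 : Tendsto (fun γ => (U γ)ᴴ * U γ) (T.F n) (𝓝 1) := by
    have e1 : ∀ γ, (U γ)ᴴ * U γ = gg (Ga.κ (sh γ)) (Ga.κ (sh γ)) ((O γ)ᴴ * O γ) := by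
      intro γ
      rw [hU, gg_star]
      refine (gg_mul (Ga.u2 γ) ?_ _).symm
      rw [D_star, hO0]
    have e2 : Tendsto (fun γ => (O γ)ᴴ * O γ - 1) (T.F n) (𝓝 0) := by
      have := (hO2 n).sub_const 1
      rwa [sub_self] at this
    have e3 := (gg_tendsto (k := fun γ => Ga.κ (sh γ)) (k' := fun γ => Ga.κ (sh γ))
      (fun γ => Ga.u1 _) (fun γ => Ga.u1 _) e2).add_const 1
    rw [zero_add] at e3
    refine e3.congr fun γ => ?_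
    rw [gg_sub, gg_one (Ga.u1 _), e1, sub_add_cancel]
  -- ultrafilters
  rw [tendsto_iff_ultrafilter]
  intro u hu
  obtain ⟨y0, hy0, hyl⟩ := (isCompact_KH hf.cont R r).ultrafilter_le_nhds (u.map y) (by
    rw [le_principal_iff]
    exact evy.filter_mono hu)
  obtain ⟨y0', hy0', hyl'⟩ := (isCompact_KH hf.cont R' r').ultrafilter_le_nhds (u.map y') (by
    rw [le_principal_iff]
    exact evy'.filter_mono hu)
  obtain ⟨p0, hp0, hpl⟩ := (isCompact_KH hf.cont R'' r'').ultrafilter_le_nhds (u.map p) (by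
    rw [le_principal_iff]
    exact evp.filter_mono hu)
  have hyt : Tendsto y u (𝓝 y0) := hyl
  have hyt' : Tendsto y' u (𝓝 y0') := hyl'
  have hpt : Tendsto p u (𝓝 p0) := hpl
  have my0 : y0 ∈ HH f := KH_sub hr hy0
  have my0' : y0' ∈ HH f := KH_sub hr' hy0'
  have mp0 : p0 ∈ HH f := KH_sub hr'' hp0
  obtain ⟨B, hB⟩ : ∃ B : G → Matrix M M ℂ, ∀ γ, B γ = (y γ)⁻¹ * (p γ * y' γ) := ⟨_, fun _ => rfl⟩
  have hBt : Tendsto B u (𝓝 (y0⁻¹ * (p0 * y0'))) := by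
    have := lim_mul45 (lim_inv45 hyt my0.2) (lim_mul45 hpt hyt')
    exact this.congr fun γ => (hB γ).symm
  have mB0 : y0⁻¹ * (p0 * y0') ∈ HH f := HH_mul45 hf (HH_inv45 hf my0) (HH_mul45 hf mp0 my0')
  have evB : ∀ᶠ γ in (u : Filter G), B γ ∈ HH f := by
    filter_upwards [evy.filter_mono hu, evy'.filter_mono hu, evp.filter_mono hu] with γ h1 h2 h3
    rw [hB]
    exact HH_mul45 hf (HH_inv45 hf (KH_sub hr h1)) (HH_mul45 hf (KH_sub hr'' h3) (KH_sub hr' h2))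
  obtain ⟨RB, rB, hrB, evB'⟩ := ev_mem45 hBt mB0.2 (evB.mono fun _ hb => hb.1)
  -- `B` is asymptotically a multiple of `U`
  have hBU : Tendsto (fun γ => B γ - (c γ * z' (sh γ) / z γ) • U γ) u (𝓝 0) := by
    have h1 : Tendsto (fun γ => (y γ)⁻¹ * ((p γ - A γ) * y' γ)) u (𝓝 (y0⁻¹ * (0 * y0'))) := by
      have h2 : Tendsto (fun γ => p γ - A γ) u (𝓝 0) := by
        have h3 := (hAp.mono_left hu).neg
        rw [neg_zero] at h3
        exact h3.congr fun γ => by rw [neg_sub]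
      exact lim_mul45 (lim_inv45 hyt my0.2) (lim_mul45 h2 hyt')
    rw [zero_mul, mul_zero] at h1
    refine h1.congr' ?_
    filter_upwards [evW.filter_mono hu, evg.filter_mono hu] with γ a1 a2
    have hz0 := (hzz γ a1 a2).1
    have hXd : IsUnit (Ga.XX γ).det := isUnit_iff_ne_zero.2 (XX_det45 Ga γ)
    have e1 : (y γ)⁻¹ = (z γ)⁻¹ • (Ga.XX γ)⁻¹ := by
      refine Matrix.inv_eq_left_inv ?_
      rw [hy, Matrix.smul_mul, Matrix.mul_smul, Matrix.nonsing_inv_mul _ hXd, smul_smul,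
        inv_mul_cancel₀ hz0, one_smul]
    have e2 : (y γ)⁻¹ * (A γ * y' γ) = (c γ * z' (sh γ) / z γ) • U γ := by
      rw [e1, hy', Matrix.mul_smul, hrel, smul_smul, Matrix.smul_mul, Matrix.mul_smul,
        ← Matrix.mul_assoc, Matrix.nonsing_inv_mul _ hXd, Matrix.one_mul, smul_smul]
      congr 1
      rw [div_eq_mul_inv]
      ring
    rw [sub_mul, mul_sub, e2, hB]
  have hv := mdl_v Mo hf.cont hrB evB' hBU (hU1.mono_left hu)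
  -- conclusion
  have h0 := (hv.sub_const Mo.v).norm
  rw [sub_self, norm_zero] at h0
  rw [tendsto_zero_iff_norm_tendsto_zero]
  refine h0.congr' ?_
  filter_upwards [evy.filter_mono hu, evy'.filter_mono hu, evp.filter_mono hu, evB,
    evg.filter_mono hu, evg'.filter_mono hu] with γ h1 h2 h3 h4 h5 h6
  have ky := KH_sub hr h1
  have ky' := KH_sub hr' h2
  have kp := KH_sub hr'' h3
  have e1 : Mo.π (y γ) = Mo.π (Ga.XX γ) := by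
    rw [hy]
    refine Mo.scal _ _ (XX_mem45 Ga h5) ?_
    rw [← hy]
    exact ky
  have e2 : Mo.π (y' γ) = Mo.π (Ga.XX (sh γ)) := by
    rw [hy']
    refine Mo.scal _ _ (XX_mem45 Ga h6) ?_
    rw [← hy']
    exact ky'
  have e3 : y γ * B γ = p γ * y' γ := by
    rw [hB, ← Matrix.mul_assoc, Matrix.mul_nonsing_inv _ (isUnit_iff_ne_zero.2 ky.2),
      Matrix.one_mul]
  have e4 : Mo.π (pg Ga pr 1 h γ) (vv Ga Mo (1⁻¹ * γ * h)) = Mo.π (y γ) (Mo.π (B γ) Mo.v) := by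
    rw [← hpd, ← hshd, vv_eq45 Ga Mo h6, ← e2, ← Mo.mul _ kp _ ky', ← e3, Mo.mul _ ky _ h4]
  rw [e4, vv_eq45 Ga Mo h5, ← e1, ← map_sub, LinearIsometryEquiv.norm_map]

include hf in
theorem exists_coc (hnn : ∀ γ ∈ Ga.good, 0 ≤ (inner ℂ (Mo.π (Ga.XX γ) Mo.v) Mo.v : ℂ).re)
    (hpos : ∀ n : ℕ, ∃ c : ℝ, 0 < c ∧ ∀ γ ∈ T.W n, γ ∈ Ga.good → c ≤ (inner ℂ (Mo.π (Ga.XX γ) Mo.v) Mo.v : ℂ).re) :
    ∃ Γ : Coc (Pool.Agent.Helper96.RK.toReg T) L, Γ.v = Mo.v ∧ ∀ γ ∈ Ga.good, Γ.vX γ = Mo.π (Ga.XX γ) Mo.v := by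
  obtain ⟨pr, hp⟩ := exists_pr hf
  have hvv : ∀ γ, γ ∉ Ga.good → vv Ga Mo γ = Mo.v := by
    intro γ hγ
    unfold vv
    rw [if_neg hγ]
  have hin : (inner ℂ Mo.v Mo.v : ℂ).re = 1 := by
    rw [inner_self_eq_norm_sq_to_K, Mo.nv]
    norm_num
  refine ⟨{ pi := fun g h γ => Mo.π (pg Ga pr g h γ)
            v := Mo.v
            vX := vv Ga Mo
            nv := Mo.nv
            nvX := ?_
            one := pg_one Ga hf hp Mo
            cpt := pg_cpt Ga hf hp Mo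
            mul := pg_mul Ga hf hp Mo
            left := pg_left Ga hf hp Mo
            cptX := vv_cpt Ga hf Mo
            right := vv_right Ga hf hp Mo
            nonneg := ?_
            pos := ?_ }, rfl, fun γ hγ => vv_eq45 Ga Mo hγ⟩
  · intro γ
    by_cases hγ : γ ∈ Ga.good
    · rw [vv_eq45 Ga Mo hγ, LinearIsometryEquiv.norm_map, Mo.nv]
    · rw [hvv γ hγ, Mo.nv]
  · intro γ
    by_cases hγ : γ ∈ Ga.good
    · rw [vv_eq45 Ga Mo hγ]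
      exact hnn γ hγ
    · rw [hvv γ hγ, hin]
      exact zero_le_one
  · intro n
    obtain ⟨c, hc, h1⟩ := hpos n
    refine ⟨min c 1, lt_min hc one_pos, fun γ hW => ?_⟩
    by_cases hγ : γ ∈ Ga.good
    · rw [vv_eq45 Ga Mo hγ]
      exact (min_le_left _ _).trans (h1 γ hW hγ)
    · rw [hvv γ hγ, hin]
      exact min_le_right _ _

end

theorem haag_of_gau (Ga : Gau T i0 M f) (hf : IsG f)
    (h : ∀ (n0 : ℕ) (ε : ℝ), 0 < ε → ∃ (L : Type) (_ : NormedAddCommGroup L) (_ : InnerProductSpace ℂ L) (_ : CompleteSpace L)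
      (Mo : Mdl f L), (∀ γ ∈ Ga.good, 0 ≤ (inner ℂ (Mo.π (Ga.XX γ) Mo.v) Mo.v : ℂ).re) ∧
        (∀ n : ℕ, ∃ c : ℝ, 0 < c ∧ ∀ γ ∈ T.W n, γ ∈ Ga.good → c ≤ (inner ℂ (Mo.π (Ga.XX γ) Mo.v) Mo.v : ℂ).re) ∧
        (∀ γ ∈ Ga.good, γ ∈ T.W n0 → ‖Mo.π (Ga.XX γ) Mo.v - Mo.v‖ ≤ ε) ∧
        ∀ δ : ℝ, 0 < δ → ∃ n, ∀ γ ∈ Ga.good, γ ∉ T.W n → ‖(inner ℂ (Mo.π (Ga.XX γ) Mo.v) Mo.v : ℂ)‖ ≤ δ) :
    HaagR (Pool.Agent.Helper96.RK.toReg T) := by
  intro n0 ε hε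
  obtain ⟨L, i1, i2, i3, Mo, h1, h2, h3, h4⟩ := h n0 ε hε
  obtain ⟨Γ, hv, hvX⟩ := exists_coc Ga hf Mo h1 h2
  refine ⟨L, i1, i2, i3, Γ, Ga.good, Ga.hgood, fun γ hγ hW => ?_, fun δ hδ => ?_⟩
  · rw [hvX γ hγ, hv]
    exact h3 γ hγ hW
  · obtain ⟨n, hn⟩ := h4 δ hδ
    refine ⟨n, fun γ hγ hW => ?_⟩
    rw [hvX γ hγ, hv]
    exact hn γ hγ hW

end Pool.Agent.Helper84.SPQ
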