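import Pool.Agent.Helper84.SPQ.B3

/-!
# Project SPQ, block B5: the Levi cocycle in a gauge (first part)

`gg k k' A = kᴴ * res A * k'` (matrices on `M`). PROOFS.
`gg_mul`: if `D b A = A` (block diagonal) then `res (A B) = res A * res B` (in `(A B) x y = ∑_k A x k B k y` only `k` in the block of `i0` contribute; `Finset.sum_subtype` or `Fintype.sum_subtype..`), and `k' k'ᴴ = 1` in the middle.
`gg_star`: `(gg k k' A)ᴴ = gg k' k Aᴴ`. `gg_one`, `gg_smul`: clear (`res 1 = 1`). `gg_tendsto`: if `A x → 0` and the `k x`, `k' x` are unitary (entries bounded by one, from `u1`) then `gg (k x) (k' x) (A x) → 0`: entrywise.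
`gg_bdd`: if `A ∈ Kb b R r` (`Helper90/RK/DM.lean`: block diagonal, entries `≤ R`, `r ≤ ‖det A‖`) then the entries of `gg k k' A` are `≤ R'` and `r' ≤ ‖det (gg k k' A)‖`, `R' = N² |R| + ...`, `r' > 0` depending only on `N, R, r`:
entries: sums of at most `N²` terms of modulus `≤ R`. Determinant: `det (gg k k' A)` has modulus `‖det (res A)‖`: `(gg k k' A)ᴴ (gg k k' A) = k'ᴴ (res A)ᴴ (res A) k'` has determinant `‖det (res A)‖²` (`det_mul_comm` for rectangular matrices: `Matrix.det_comm'`,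
or `Matrix.det_one_add_mul_comm`; `M` and the block have the same number of elements by `u1`, `u2`: `Matrix.det_conj_of_mul_eq_one`). And `‖det (res A)‖ ≥ r''`: the inverse `A⁻¹` is block diagonal (`GLb_inv`) with entries bounded by `N! R^(N-1) / r` (adjugate:
`Matrix.inv_def`, or by compactness of `Kb b R r`: `A ↦ ‖det (res A)‖` is continuous and nonzero on the compact set `Kb b R r`, because `res A⁻¹ * res A = 1`; so it has a positive minimum there, if the set is nonempty). The last argument is the simplest.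
-/

set_option autoImplicit false

open Filter Topology Matrix

namespace Pool.Agent.Helper84.SPQ

open NI GN Pool.Agent.Helper90.RK

variable {N : ℕ} {b : Fin N → ℕ} {i0 : Fin N} {M : Type} [Fintype M] [DecidableEq M]

private theorem entry_le85 {n m : Type} [Fintype n] [Fintype m] [DecidableEq m] {k : Matrix n m ℂ} (hk : kᴴ * k = 1)
    (i : n) (j : m) : ‖k i j‖ ≤ 1 := by
  have h1 := congrFun (congrFun hk j) j
  rw [Matrix.mul_apply, Matrix.one_apply_eq] at h1
  have h2 : ∑ x, kᴴ j x * k x j = ((∑ x, ‖k x j‖ ^ 2 : ℝ) : ℂ) := by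
    push_cast
    refine Finset.sum_congr rfl fun x _ => ?_
    rw [Matrix.conjTranspose_apply, ← Complex.conj_mul']
    rfl
  rw [h2] at h1
  have h3 : ∑ x, ‖k x j‖ ^ 2 = 1 := by exact_mod_cast h1
  have h4 : ‖k i j‖ ^ 2 ≤ 1 := by
    rw [← h3]
    exact Finset.single_le_sum (f := fun x => ‖k x j‖ ^ 2) (fun x _ => sq_nonneg _) (Finset.mem_univ i)
  nlinarith [norm_nonneg (k i j)]

private theorem off85 {A : MN N} (hA : D b A = A) {i j : Fin N} (h : b i ≠ b j) : A i j = 0 := by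
  rw [← hA]
  show (if b i = b j then A i j else 0) = 0
  rw [if_neg h]

private theorem res_mul85 {A : MN N} (hA : D b A = A) (B : MN N) :
    res b i0 (A * B) = res b i0 A * res b i0 B := by
  ext x y
  show (A * B) x.1 y.1 = ∑ k : Bk b i0, A x.1 k.1 * B k.1 y.1
  rw [Matrix.mul_apply]
  rw [← Finset.sum_subtype (Finset.univ.filter fun i : Fin N => b i = b i0) (by simp)
    (fun i => A x.1 i * B i y.1)]
  symm
  refine Finset.sum_subset (Finset.subset_univ _) fun k _ hk => ?_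
  rw [off85 hA, zero_mul]
  intro h
  apply hk
  rw [Finset.mem_filter]
  exact ⟨Finset.mem_univ k, h.symm.trans x.2⟩

private theorem res_one85 : res b i0 (1 : MN N) = 1 := by
  ext x y
  show (1 : MN N) x.1 y.1 = (1 : Matrix (Bk b i0) (Bk b i0) ℂ) x y
  rw [Matrix.one_apply, Matrix.one_apply]
  by_cases h : x = y
  · rw [if_pos h, if_pos (congrArg Subtype.val h)]
  · rw [if_neg h, if_neg (fun h' => h (Subtype.ext h'))]

private theorem entry_bd85 {k k' : Matrix (Bk b i0) M ℂ} (hk : kᴴ * k = 1) (hk' : k'ᴴ * k' = 1) (A : MN N) (i j : M) :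
    ‖gg k k' A i j‖ ≤ ∑ y : Bk b i0, ∑ x : Bk b i0, ‖A x.1 y.1‖ := by
  show ‖(kᴴ * res b i0 A * k') i j‖ ≤ _
  rw [Matrix.mul_apply]
  refine (norm_sum_le _ _).trans (Finset.sum_le_sum fun y _ => ?_)
  rw [norm_mul, Matrix.mul_apply]
  have h1 : ‖∑ x, kᴴ i x * res b i0 A x y‖ ≤ ∑ x : Bk b i0, ‖A x.1 y.1‖ := by
    refine (norm_sum_le _ _).trans (Finset.sum_le_sum fun x _ => ?_)
    rw [norm_mul, Matrix.conjTranspose_apply, norm_star]
    have h2 := entry_le85 hk x i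
    have h3 : ‖res b i0 A x y‖ = ‖A x.1 y.1‖ := rfl
    rw [h3]
    nlinarith [norm_nonneg (A x.1 y.1), norm_nonneg (k x i)]
  have h4 := entry_le85 hk' y j
  have h5 : (0 : ℝ) ≤ ‖∑ x, kᴴ i x * res b i0 A x y‖ := norm_nonneg _
  nlinarith [norm_nonneg (k' y j)]

private theorem det_gg85 {k k' : Matrix (Bk b i0) M ℂ} (hk : k * kᴴ = 1) (hk1' : k'ᴴ * k' = 1)
    (hk2' : k' * k'ᴴ = 1) (A : MN N) : ‖(gg k k' A).det‖ = ‖(res b i0 A).det‖ := by
  have e : (gg k k' A)ᴴ * gg k k' A = k'ᴴ * ((res b i0 A)ᴴ * res b i0 A) * k' := by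
    unfold gg
    rw [Matrix.conjTranspose_mul, Matrix.conjTranspose_mul, Matrix.conjTranspose_conjTranspose]
    calc k'ᴴ * ((res b i0 A)ᴴ * k) * (kᴴ * res b i0 A * k')
        = k'ᴴ * ((res b i0 A)ᴴ * (k * kᴴ) * res b i0 A) * k' := by
          simp only [Matrix.mul_assoc]
      _ = _ := by rw [hk, Matrix.mul_one]
  have h1 := congrArg Matrix.det e
  rw [Matrix.det_conj_of_mul_eq_one hk1' hk2', Matrix.det_mul, Matrix.det_mul, Matrix.det_conjTranspose,
    Matrix.det_conjTranspose] at h1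
  have h2 := congrArg norm h1
  rw [norm_mul, norm_mul, norm_star, norm_star] at h2
  exact (mul_self_inj_of_nonneg (norm_nonneg _) (norm_nonneg _)).1 h2

theorem gg_mul {k k' k'' : Matrix (Bk b i0) M ℂ} (hk : k' * k'ᴴ = 1) {A : MN N} (hA : D b A = A) (B : MN N) :
    gg k k'' (A * B) = gg k k' A * gg k' k'' B := by
  unfold gg
  rw [res_mul85 hA]
  calc kᴴ * (res b i0 A * res b i0 B) * k'' = kᴴ * res b i0 A * (1 : Matrix (Bk b i0) (Bk b i0) ℂ) * res b i0 B * k'' := by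
        rw [Matrix.mul_one]
        simp only [Matrix.mul_assoc]
    _ = _ := by
        rw [← hk]
        simp only [Matrix.mul_assoc]

theorem gg_star (k k' : Matrix (Bk b i0) M ℂ) (A : MN N) : (gg k k' A)ᴴ = gg k' k Aᴴ := by
  unfold gg
  rw [Matrix.conjTranspose_mul, Matrix.conjTranspose_mul, Matrix.conjTranspose_conjTranspose, Matrix.mul_assoc]
  rfl

theorem gg_one {k : Matrix (Bk b i0) M ℂ} (hk : kᴴ * k = 1) : gg k k (1 : MN N) = 1 := by
  unfold gg
  rw [res_one85, Matrix.mul_one, hk]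

theorem gg_smul (k k' : Matrix (Bk b i0) M ℂ) (c : ℂ) (A : MN N) : gg k k' (c • A) = c • gg k k' A := by
  unfold gg
  have h : res b i0 (c • A) = c • res b i0 A := rfl
  rw [h, Matrix.mul_smul, Matrix.smul_mul]

theorem gg_sub (k k' : Matrix (Bk b i0) M ℂ) (A B : MN N) : gg k k' (A - B) = gg k k' A - gg k k' B := by
  unfold gg
  have h : res b i0 (A - B) = res b i0 A - res b i0 B := rfl
  rw [h, Matrix.mul_sub, Matrix.sub_mul]

theorem gg_tendsto {α : Type} {F : Filter α} {k k' : α → Matrix (Bk b i0) M ℂ} (hk : ∀ x, (k x)ᴴ * k x = 1)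
    (hk' : ∀ x, (k' x)ᴴ * k' x = 1) {A : α → MN N} (hA : Tendsto A F (𝓝 0)) :
    Tendsto (fun x => gg (k x) (k' x) (A x)) F (𝓝 0) := by
  refine tendsto_pi_nhds.2 fun i => tendsto_pi_nhds.2 fun j => ?_
  have h1 : Tendsto (fun x => ∑ y : Bk b i0, ∑ z : Bk b i0, ‖A x z.1 y.1‖) F (𝓝 0) := by
    have h2 : Tendsto (fun x => ∑ y : Bk b i0, ∑ z : Bk b i0, ‖A x z.1 y.1‖) F
        (𝓝 (∑ y : Bk b i0, ∑ z : Bk b i0, ‖(0 : MN N) z.1 y.1‖)) := by
      refine tendsto_finsetSum _ fun y _ => tendsto_finsetSum _ fun z _ => ?_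
      exact ((tendsto_pi_nhds.1 ((tendsto_pi_nhds.1 hA) z.1)) y.1).norm
    have h3 : ∑ y : Bk b i0, ∑ z : Bk b i0, ‖(0 : MN N) z.1 y.1‖ = 0 := by
      refine Finset.sum_eq_zero fun y _ => Finset.sum_eq_zero fun z _ => ?_
      rw [Matrix.zero_apply, norm_zero]
    rwa [h3] at h2
  rw [Matrix.zero_apply]
  exact squeeze_zero_norm (fun x => entry_bd85 (hk x) (hk' x) (A x) i j) h1

theorem gg_bdd (b : Fin N → ℕ) (i0 : Fin N) (M : Type) [Fintype M] [DecidableEq M] {R r : ℝ} (hr : 0 < r) :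
    ∃ R' r' : ℝ, 0 < r' ∧ ∀ k k' : Matrix (Bk b i0) M ℂ, kᴴ * k = 1 → k * kᴴ = 1 → k'ᴴ * k' = 1 → k' * k'ᴴ = 1 →
      ∀ A ∈ Kb b R r, (∀ i j, ‖gg k k' A i j‖ ≤ R') ∧ r' ≤ ‖(gg k k' A).det‖ := by
  have hcont : Continuous fun A : MN N => ‖(res b i0 A).det‖ := by
    refine Continuous.norm (Continuous.matrix_det ?_)
    exact continuous_id.matrix_submatrix _ _
  have hpos : ∀ A ∈ Kb b R r, 0 < ‖(res b i0 A).det‖ := by
    intro A hA
    have h1 := Kb_sub b hr hA
    have h2 : A⁻¹ * A = 1 := Matrix.nonsing_inv_mul A (isUnit_iff_ne_zero.2 h1.2)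
    have h3 : (res b i0 (A⁻¹ * A)).det = (res b i0 (1 : MN N)).det := by rw [h2]
    rw [res_mul85 (D_inv b h1.1 h1.2), res_one85, Matrix.det_mul, Matrix.det_one] at h3
    rw [norm_pos_iff]
    intro h4
    rw [h4, mul_zero] at h3
    exact zero_ne_one h3
  obtain ⟨r', hr', hmin⟩ : ∃ r' : ℝ, 0 < r' ∧ ∀ A ∈ Kb b R r, r' ≤ ‖(res b i0 A).det‖ := by
    rcases (Kb b R r).eq_empty_or_nonempty with he | hne
    · exact ⟨1, one_pos, fun A hA => absurd hA (by rw [he]; exact Set.notMem_empty A)⟩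
    · obtain ⟨A0, hA0, h0⟩ := (isCompact_Kb b R r).exists_isMinOn hne hcont.continuousOn
      exact ⟨_, hpos A0 hA0, fun A hA => h0 hA⟩
  refine ⟨∑ _y : Bk b i0, ∑ _x : Bk b i0, R, r', hr', ?_⟩
  intro k k' hk1 hk2 hk1' hk2' A hA
  refine ⟨fun i j => (entry_bd85 hk1 hk1' A i j).trans ?_, ?_⟩
  · exact Finset.sum_le_sum fun y _ => Finset.sum_le_sum fun x _ => hA.2.1 x.1 y.1
  · rw [det_gg85 hk2 hk1' hk2']
    exact hmin A hA

end Pool.Agent.Helper84.SPQ
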