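import Pool.Agent.Helper84.SPQ.U3
import Pool.Agent.Helper84.SPQ.B5

/-!
# Project SPQ, block U4: the Levi cocycle is asymptotically in `U(1, m)`

Let `Mid` be the block of `r - 1`, `good = {γ | s_{r-1} < s_{r-2}}`, `res` the restriction to `Mid`. PROOFS (`i0` is the index `r - 1`, `i1` the index `r - 2`).
`u4_block`: `(res C)ᴴ res(Jh γ) res C - res (Jh γ'') → 0`, `C = T.C g h γ` (`res (T.C) = res (S.m g h γ)` as `D T.b` does not change the block), `γ'' = g⁻¹ γ h`. By `jh_m`: `(mᴴ Jh m) i j = Jh'' i j` for `i, j ∈ Mid`; the sum `∑_{k,l} conj (m k i) (Jh k l) (m l j)`: the terms with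
`k, l ∈ Mid` give the first matrix; if exactly one of `k, l` is in `Mid` then `Jh k l = 0` (`mid_zero`, eventually `γ ∈ good`); if `k, l ∉ Mid` and `Jh k l ≠ 0` then `s_k s_l = 1` so one of them, say `k`, is `≤ r - 2` (if both are `≥ N - r + 1` then `s_k, s_l < 1`):
then `T.b k < T.b i` (`T.mono`, `hb`) and `m k i → 0` (`T.tendsto_m`), the other factors are bounded (`norm_m_le`; `‖Jh k l‖ ≤ 1` as `Jh` is unitary).
`u4_close`: let `κ` satisfy `κᴴ κ = 1` and on `good` `κᴴ res(Jh γ) κ = J0 e`. `A = gg (κ γ) (κ γ'') C`: `Aᴴ J0 A - J0 = κ''ᴴ [(res C)ᴴ res(Jh γ) (res C) - res (Jh γ'')] κ''` for `γ, γ'' ∈ good` (eventually: `T.shift`; `κ κᴴ = 1` since `κ` is square), entries of `κ''` bounded by one. `ns` is continuous.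
-/

set_option autoImplicit false

open Filter Topology Matrix

namespace Pool.Agent.Helper84.SPQ

open NI GN Pool.Agent.Helper90.RK Pool.Agent.Helper66.RK

variable {G : Type} [Group G] {N : ℕ} {P : PH G N} {S : Sv P}

private theorem sum_bk67 {b : Fin N → ℕ} {i0 : Fin N} (f : Fin N → ℂ) :
    ∑ k : Bk b i0, f k.1 = ∑ k, if b k = b i0 then f k else 0 := by
  rw [← Finset.sum_filter]
  exact (Finset.sum_subtype _ (by simp) f).symm

private theorem norm_Jh67 (S : Sv P) (Φ : MN N) (γ : G) (i j : Fin N) : ‖Jh S Φ γ i j‖ ≤ Real.sqrt (ns Φ) := by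
  have e : ns (Jh S Φ γ) = ns Φ := by
    unfold Jh
    rw [ns_mul_unitary (S.uR γ), ns_unitary_mul (S.uR γ).star]
  rw [← e]
  exact norm_apply_le' _ i j

private theorem out67 {Φ : MN N} (h2 : Φ * Φ = 1) (h4 : ∀ g, (P.ι g)ᴴ * Φ * P.ι g = Φ)
    {r : ℕ} (hr : 2 ≤ r) (hN : 2 * r + 1 ≤ N) {i0 i1 : Fin N} (hi0 : (i0 : ℕ) = r - 1) (hi1 : (i1 : ℕ) = r - 2)
    (γ : G) (hgap : S.s γ i0 < S.s γ i1) (k l : Fin N) (hk : N - r < (k : ℕ)) (hl : N - r < (l : ℕ)) :
    Jh S Φ γ k l = 0 := by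
  by_contra hne
  have h := jh_supp S h2 h4 γ k l hne
  have hrev := upq_symm h2 h4 S γ i0
  have p0 := S.pos γ i0
  have q0 := S.pos γ (Fin.rev i0)
  have hle : S.s γ (Fin.rev i0) ≤ S.s γ i0 := by
    apply S.anti γ
    rw [Fin.le_def, Fin.val_rev]
    omega
  have one : 1 ≤ S.s γ i0 := by
    by_contra hlt
    push Not at hlt
    have : S.s γ i0 * S.s γ (Fin.rev i0) < 1 := by nlinarith
    linarith
  have lt1 : ∀ k : Fin N, N - r < (k : ℕ) → S.s γ k < 1 := by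
    intro k hk
    have a := upq_symm h2 h4 S γ k
    have b : S.s γ i1 ≤ S.s γ (Fin.rev k) := by
      apply S.anti γ
      rw [Fin.le_def, Fin.val_rev]
      omega
    have pk := S.pos γ k
    by_contra hge
    push Not at hge
    have : 1 < S.s γ k * S.s γ (Fin.rev k) := by nlinarith
    linarith
  have a := lt1 k hk
  have b := lt1 l hl
  have pk := S.pos γ k
  have pl := S.pos γ l
  nlinarith

private theorem bound67 {α : Type} {F : Filter α} {u v w : α → ℂ} {R : ℝ} (hR : 0 ≤ R) (hu : ∀ x, ‖u x‖ ≤ R) (hv : ∀ x, ‖v x‖ ≤ R)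
    (hw : ∀ x, ‖w x‖ ≤ R) (h : Tendsto u F (𝓝 0) ∨ Tendsto w F (𝓝 0)) :
    Tendsto (fun x => star (u x) * v x * w x) F (𝓝 0) := by
  rw [tendsto_zero_iff_norm_tendsto_zero]
  rcases h with h | h
  · have h1 : Tendsto (fun x => ‖u x‖ * (R * R)) F (𝓝 0) := by
      have := (tendsto_zero_iff_norm_tendsto_zero.mp h).mul_const (R * R)
      rwa [zero_mul] at this
    refine squeeze_zero (fun x => norm_nonneg _) (fun x => ?_) h1
    rw [norm_mul, norm_mul, norm_star, mul_assoc]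
    exact mul_le_mul_of_nonneg_left (mul_le_mul (hv x) (hw x) (norm_nonneg _) hR) (norm_nonneg _)
  · have h1 : Tendsto (fun x => (R * R) * ‖w x‖) F (𝓝 0) := by
      have := (tendsto_zero_iff_norm_tendsto_zero.mp h).const_mul (R * R)
      rwa [mul_zero] at this
    refine squeeze_zero (fun x => norm_nonneg _) (fun x => ?_) h1
    rw [norm_mul, norm_mul, norm_star]
    exact mul_le_mul_of_nonneg_right (mul_le_mul (hu x) (hv x) (norm_nonneg _) hR) (norm_nonneg _)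

theorem u4_block {Φ : MN N} (h1 : Φᴴ = Φ) (h2 : Φ * Φ = 1) (h4 : ∀ g, (P.ι g)ᴴ * Φ * P.ι g = Φ)
    {r : ℕ} (hr : 2 ≤ r) (hN : 2 * r + 1 ≤ N) {i0 i1 : Fin N} (hi0 : (i0 : ℕ) = r - 1) (hi1 : (i1 : ℕ) = r - 2) (T : Str S)
    (hb : ∀ i : Fin N, T.b i = T.b i0 ↔ (r - 1 ≤ (i : ℕ) ∧ (i : ℕ) ≤ N - r))
    (hgood : ∀ n, {γ | S.s γ i0 < S.s γ i1} ∈ T.F n) (g h : G) (n : ℕ) :
    Tendsto (fun γ => (res T.b i0 (T.C g h γ))ᴴ * res T.b i0 (Jh S Φ γ) *
      res T.b i0 (T.C g h γ) - res T.b i0 (Jh S Φ (g⁻¹ * γ * h))) (T.F n) (𝓝 0) := by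
  refine tendsto_pi_nhds.mpr fun x => tendsto_pi_nhds.mpr fun y => ?_
  have hx : T.b x.1 = T.b i0 := x.2
  have hy : T.b y.1 = T.b i0 := y.2
  let t : Fin N → Fin N → G → ℂ := fun k l γ => star (S.m g h γ k x.1) * Jh S Φ γ k l * S.m g h γ l y.1
  have e : ∀ γ, ((res T.b i0 (T.C g h γ))ᴴ * res T.b i0 (Jh S Φ γ) *
      res T.b i0 (T.C g h γ) - res T.b i0 (Jh S Φ (g⁻¹ * γ * h))) x y =
      ∑ l, ∑ k, ((if T.b l = T.b i0 then (if T.b k = T.b i0 then t k l γ else 0) else 0) - t k l γ) := by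
    intro γ
    have e1 : res T.b i0 (Jh S Φ (g⁻¹ * γ * h)) x y = ∑ l, ∑ k, t k l γ := by
      show Jh S Φ (g⁻¹ * γ * h) x.1 y.1 = _
      rw [← jh_m S h4 g h γ, Matrix.mul_apply]
      refine Finset.sum_congr rfl fun l _ => ?_
      rw [Matrix.mul_apply, Finset.sum_mul]
      refine Finset.sum_congr rfl fun k _ => ?_
      rw [Matrix.conjTranspose_apply]
    have e2 : ((res T.b i0 (T.C g h γ))ᴴ * res T.b i0 (Jh S Φ γ) * res T.b i0 (T.C g h γ)) x y =
        ∑ l, ∑ k, (if T.b l = T.b i0 then (if T.b k = T.b i0 then t k l γ else 0) else 0) := by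
      have e3 : ∀ a b : Bk T.b i0, res T.b i0 (T.C g h γ) a b = S.m g h γ a.1 b.1 := by
        intro a b
        show D T.b (S.m g h γ) a.1 b.1 = _
        rw [D_apply, if_pos (a.2.trans b.2.symm)]
      rw [Matrix.mul_apply]
      have e4 : ∀ l : Bk T.b i0, ((res T.b i0 (T.C g h γ))ᴴ * res T.b i0 (Jh S Φ γ)) x l * res T.b i0 (T.C g h γ) l y =
          (fun l => ∑ k, (if T.b k = T.b i0 then t k l γ else 0)) l.1 := by
        intro l
        refine Eq.trans ?_ (sum_bk67 (b := T.b) (i0 := i0) (fun k => t k l.1 γ))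
        rw [Matrix.mul_apply, Finset.sum_mul]
        refine Finset.sum_congr rfl fun k _ => ?_
        rw [Matrix.conjTranspose_apply, e3, e3]
        rfl
      rw [Finset.sum_congr rfl fun l _ => e4 l]
      rw [sum_bk67 (b := T.b) (i0 := i0) (fun l => ∑ k, (if T.b k = T.b i0 then t k l γ else 0))]
      refine Finset.sum_congr rfl fun l _ => ?_
      split_ifs with hl
      · rfl
      · rw [Finset.sum_const_zero]
    rw [Matrix.sub_apply, e1, e2, ← Finset.sum_sub_distrib]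
    refine Finset.sum_congr rfl fun l _ => ?_
    rw [← Finset.sum_sub_distrib]
  have e' : (fun γ => ((res T.b i0 (T.C g h γ))ᴴ * res T.b i0 (Jh S Φ γ) *
      res T.b i0 (T.C g h γ) - res T.b i0 (Jh S Φ (g⁻¹ * γ * h))) x y) = fun γ =>
      ∑ l, ∑ k, ((if T.b l = T.b i0 then (if T.b k = T.b i0 then t k l γ else 0) else 0) - t k l γ) := funext e
  rw [e']
  have hz : (0 : Matrix (Bk T.b i0) (Bk T.b i0) ℂ) x y = ∑ l : Fin N, ∑ k : Fin N, (0 : ℂ) := by simp
  rw [hz]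
  refine tendsto_finsetSum _ fun l _ => tendsto_finsetSum _ fun k _ => ?_
  let R : ℝ := max (Real.sqrt (ns (P.ι h))) (Real.sqrt (ns Φ))
  have hR : 0 ≤ R := (Real.sqrt_nonneg _).trans (le_max_left _ _)
  have hlow : ∀ k : Fin N, (k : ℕ) < r - 1 → T.b k < T.b i0 := by
    intro k hk
    refine lt_of_le_of_ne (T.mono ?_) fun h => ?_
    · rw [Fin.le_def, hi0]
      exact hk.le
    · have := (hb k).mp h
      omega
  have key : (T.b k = T.b i0 ∧ T.b l = T.b i0) ∨ (∀ᶠ γ in T.F n, Jh S Φ γ k l = 0) ∨ ((k : ℕ) < r - 1 ∨ (l : ℕ) < r - 1) := by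
    by_cases hk : T.b k = T.b i0
    · by_cases hl : T.b l = T.b i0
      · exact Or.inl ⟨hk, hl⟩
      · right; left
        filter_upwards [hgood n] with γ hγ
        exact (mid_zero S h2 h4 hr hN hi0 hi1 γ hγ k l ((hb k).mp hk) (fun h => hl ((hb l).mpr h))).1
    · by_cases hl : T.b l = T.b i0
      · right; left
        filter_upwards [hgood n] with γ hγ
        exact (mid_zero S h2 h4 hr hN hi0 hi1 γ hγ l k ((hb l).mp hl) (fun h => hk ((hb k).mpr h))).2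
      · right
        by_cases hkl : (k : ℕ) < r - 1 ∨ (l : ℕ) < r - 1
        · exact Or.inr hkl
        · left
          push Not at hkl
          have a : N - r < (k : ℕ) := by
            by_contra h'
            exact hk ((hb k).mpr ⟨hkl.1, by omega⟩)
          have b : N - r < (l : ℕ) := by
            by_contra h'
            exact hl ((hb l).mpr ⟨hkl.2, by omega⟩)
          filter_upwards [hgood n] with γ hγ
          exact out67 h2 h4 hr hN hi0 hi1 γ hγ k l a b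
  rcases key with hkl | hJ | hkl
  · have : (fun γ => (if T.b l = T.b i0 then (if T.b k = T.b i0 then t k l γ else 0) else 0) - t k l γ) = fun _ => 0 := by
      funext γ
      rw [if_pos hkl.2, if_pos hkl.1, sub_self]
    rw [this]
    exact tendsto_const_nhds
  · refine tendsto_const_nhds.congr' ?_
    filter_upwards [hJ] with γ hγ
    have ht : t k l γ = 0 := by
      show star (S.m g h γ k x.1) * Jh S Φ γ k l * S.m g h γ l y.1 = 0
      rw [hγ, mul_zero, zero_mul]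
    rw [ht]
    simp
  · have hor : ¬ (T.b k = T.b i0 ∧ T.b l = T.b i0) := by
      rintro ⟨h5, h6⟩
      rcases hkl with h' | h'
      · exact (hlow k h').ne h5
      · exact (hlow l h').ne h6
    have e5 : (fun γ => (if T.b l = T.b i0 then (if T.b k = T.b i0 then t k l γ else 0) else 0) - t k l γ) = fun γ => - t k l γ := by
      funext γ
      by_cases h6 : T.b l = T.b i0
      · rw [if_pos h6, if_neg (fun h5 => hor ⟨h5, h6⟩), zero_sub]
      · rw [if_neg h6, zero_sub]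
    rw [e5, ← neg_zero]
    refine Tendsto.neg ?_
    refine bound67 hR (fun γ => (S.norm_m_le g h γ k x.1).trans (le_max_left _ _))
      (fun γ => (norm_Jh67 S Φ γ k l).trans (le_max_right _ _))
      (fun γ => (S.norm_m_le g h γ l y.1).trans (le_max_left _ _)) ?_
    rcases hkl with h' | h'
    · exact Or.inl (T.tendsto_m g h n (by rw [hx]; exact hlow k h'))
    · exact Or.inr (T.tendsto_m g h n (by rw [hy]; exact hlow l h'))

theorem u4_close {Φ : MN N} (h1 : Φᴴ = Φ) (h2 : Φ * Φ = 1) (h4 : ∀ g, (P.ι g)ᴴ * Φ * P.ι g = Φ)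
    {r : ℕ} (hr : 2 ≤ r) (hN : 2 * r + 1 ≤ N) {i0 i1 : Fin N} (hi0 : (i0 : ℕ) = r - 1) (hi1 : (i1 : ℕ) = r - 2) (T : Str S)
    (hb : ∀ i : Fin N, T.b i = T.b i0 ↔ (r - 1 ≤ (i : ℕ) ∧ (i : ℕ) ≤ N - r))
    (hgood : ∀ n, {γ | S.s γ i0 < S.s γ i1} ∈ T.F n)
    (e : Bk T.b i0) (κ : G → Matrix (Bk T.b i0) (Bk T.b i0) ℂ)
    (hκ : ∀ γ, (κ γ)ᴴ * κ γ = 1)
    (hJ : ∀ γ, S.s γ i0 < S.s γ i1 →
      (κ γ)ᴴ * res T.b i0 (Jh S Φ γ) * κ γ = J0 e) (g h : G) (n : ℕ) :
    Tendsto (fun γ => fU e (gg (κ γ) (κ (g⁻¹ * γ * h)) (T.C g h γ))) (T.F n) (𝓝 0) := by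
  obtain ⟨n', hn'⟩ := T.shift g h n
  have hc : Continuous fun A : Matrix (Bk T.b i0) (Bk T.b i0) ℂ => ns A := by
    unfold ns
    exact continuous_finsetSum _ fun i _ => continuous_finsetSum _ fun j _ =>
      (continuous_norm.comp (continuous_apply_apply i j)).pow 2
  have hz : ns (0 : Matrix (Bk T.b i0) (Bk T.b i0) ℂ) = 0 := by
    unfold ns
    simp
  have h5 := (hc.tendsto 0).comp (u4_block h1 h2 h4 hr hN hi0 hi1 T hb hgood g h n)
  rw [hz] at h5
  refine h5.congr' ?_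
  filter_upwards [hgood n, hn' (hgood n')] with γ hγ hγ'
  have hJ1 := hJ γ hγ
  have hJ2 := hJ (g⁻¹ * γ * h) hγ'
  have hk := hκ γ
  have hk2 := hκ (g⁻¹ * γ * h)
  have hk' : κ γ * (κ γ)ᴴ = 1 := mul_eq_one_comm.mp hk
  have hU2 : IsU (κ (g⁻¹ * γ * h)) := hk2
  have hU2' : IsU (κ (g⁻¹ * γ * h))ᴴ := by
    unfold IsU
    rw [Matrix.conjTranspose_conjTranspose]
    exact mul_eq_one_comm.mp hk2
  show ns ((res T.b i0 (T.C g h γ))ᴴ * res T.b i0 (Jh S Φ γ) *
    res T.b i0 (T.C g h γ) - res T.b i0 (Jh S Φ (g⁻¹ * γ * h))) = fU e _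
  unfold fU gg
  generalize hK : κ γ = K at *
  generalize hK2 : κ (g⁻¹ * γ * h) = K2 at *
  generalize res T.b i0 (T.C g h γ) = B at *
  have e1 : (Kᴴ * B * K2)ᴴ * J0 e * (Kᴴ * B * K2) - J0 e =
      K2ᴴ * ((Bᴴ * res T.b i0 (Jh S Φ γ) * B - res T.b i0 (Jh S Φ (g⁻¹ * γ * h))) * K2) := by
    have e2 : (Kᴴ * B * K2)ᴴ * J0 e * (Kᴴ * B * K2) = K2ᴴ * (Bᴴ * res T.b i0 (Jh S Φ γ) * B) * K2 := by
      rw [← hJ1, Matrix.conjTranspose_mul, Matrix.conjTranspose_mul, Matrix.conjTranspose_conjTranspose]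
      calc K2ᴴ * (Bᴴ * K) * (Kᴴ * res T.b i0 (Jh S Φ γ) * K) * (Kᴴ * B * K2)
          = K2ᴴ * (Bᴴ * (K * Kᴴ) * res T.b i0 (Jh S Φ γ) * (K * Kᴴ) * B) * K2 := by simp only [Matrix.mul_assoc]
        _ = _ := by rw [hk', Matrix.mul_one, Matrix.mul_one]
    rw [e2, ← hJ2, Matrix.sub_mul, Matrix.mul_sub]
    simp only [Matrix.mul_assoc]
  rw [e1, ns_unitary_mul hU2', ns_mul_unitary hU2]

end Pool.Agent.Helper84.SPQ
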