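import Pool.Agent.Helper84.SPQ.U2
import Pool.Agent.Helper84.SPQ.U4
import Pool.Agent.Helper84.SPQ.B7

/-!
# Project SPQ, block U5: Haagerup property of the last stratum of `U(r, N - r)`

`haag_mid`. PROOF (`i0` is the index `r - 1`, `i1` the index `r - 2`). Gauge: `κ γ` from `gauge` if `s_{r-1} < s_{r-2}`, `1` otherwise, `e = ⟨i0, rfl⟩`. `Gau T i0 (Bk ..) (fU e)`: `u2`: square matrices (`mul_eq_one_comm`); `good = {s_{r-1} < s_{r-2}}`; `hX`: `gauge`; `hC`: `u4_close`;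
`hXb`: with `z = 1`: entries of `κᴴ X κ` bounded by `N² max 1/s_i` on `W n`: `1/s_i ≤ 1/s_{N-r} = s_{r-1}` on `Mid` (`upq_symm h2 h4 S γ`), and `s_{r-1} ≤ K s_{N-r} = K / s_{r-1}` on `T.W n` (`T.cpt n`, same block), so `s_{r-1}² ≤ K`; `‖det (κᴴ X κ)‖ = 1` as it is in `U(1, m)` (`(det A)^* det J0 det A = det J0`).
`haag_of_gau` with `mdlU e`: `⟪π(XX γ) v, v⟫ = conj ((‖XX γ e e‖)^(-2t)) = c(γ)^(-2t)`, `c(γ) = (s_{r-1} + 1/s_{r-1})/2 ≥ 1`: real and positive; on `W n`: `c(γ) ≤ (√K + 1)/2 + 1`, so `≥` a positive constant; `‖π(XX γ) v - v‖² = 2 - 2 c(γ)^(-2t) ≤ ε²` on `W n0` for small `t`;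
decay: `c(γ)^(-2t) ≤ δ` if `s_{r-1} ≥ C(δ, t)`: `hout`.
-/

set_option autoImplicit false

open Filter Topology Matrix

namespace Pool.Agent.Helper84.SPQ

open NI GN Pool.Agent.Helper90.RK Pool.Agent.Helper66.RK

variable {G : Type} [Group G] {N : ℕ} {P : PH G N} {S : Sv P}

private theorem ent_one31 {M : Type} [Fintype M] [DecidableEq M] {k : Matrix M M ℂ} (hk : kᴴ * k = 1) (i j : M) :
    ‖k i j‖ ≤ 1 := by
  have h1 := congrFun (congrFun hk j) j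
  rw [Matrix.mul_apply, Matrix.one_apply_eq] at h1
  have h2 : ∀ x : M, kᴴ j x * k x j = ((‖k x j‖ ^ 2 : ℝ) : ℂ) := by
    intro x
    rw [conjTranspose_apply, ← Complex.normSq_eq_norm_sq, Complex.normSq_eq_conj_mul_self]
    rfl
  rw [Finset.sum_congr rfl fun x _ => h2 x, ← Complex.ofReal_sum] at h1
  have h3 : ∑ x, ‖k x j‖ ^ 2 = 1 := by exact_mod_cast h1
  have h4 : ‖k i j‖ ^ 2 ≤ ∑ x, ‖k x j‖ ^ 2 :=
    Finset.single_le_sum (f := fun x => ‖k x j‖ ^ 2) (fun _ _ => sq_nonneg _) (Finset.mem_univ i)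
  rw [h3] at h4
  nlinarith [norm_nonneg (k i j)]

private theorem ent_mul31 {M : Type} [Fintype M] [DecidableEq M] {A B : Matrix M M ℂ} {a b : ℝ} (ha0 : 0 ≤ a)
    (ha : ∀ i j, ‖A i j‖ ≤ a) (hb : ∀ i j, ‖B i j‖ ≤ b) (i j : M) : ‖(A * B) i j‖ ≤ Fintype.card M * (a * b) := by
  rw [Matrix.mul_apply]
  calc ‖∑ k, A i k * B k j‖ ≤ ∑ k, ‖A i k * B k j‖ := norm_sum_le _ _
    _ ≤ ∑ _k : M, a * b := by
        refine Finset.sum_le_sum fun k _ => ?_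
        rw [norm_mul]
        exact mul_le_mul (ha i k) (hb k j) (norm_nonneg _) ha0
    _ = Fintype.card M * (a * b) := by
        rw [Finset.sum_const, Finset.card_univ, nsmul_eq_mul]

private theorem det_U31 {M : Type} [Fintype M] [DecidableEq M] {e : M} {A : Matrix M M ℂ} (hA : fU e A = 0) :
    ‖A.det‖ = 1 := by
  have h1 := congrArg Matrix.det (fU_eq.1 hA)
  rw [Matrix.det_mul, Matrix.det_mul, Matrix.det_conjTranspose] at h1
  have h2 : J0 e * J0 e = 1 := by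
    unfold J0
    rw [diagonal_mul_diagonal, ← diagonal_one]
    congr 1
    funext i
    split_ifs <;> simp
  have h3 : (J0 e).det ≠ 0 := by
    intro h
    have h4 := congrArg Matrix.det h2
    rw [Matrix.det_mul, h, Matrix.det_one, mul_zero] at h4
    exact zero_ne_one h4
  have h4 : star A.det * A.det = 1 := by
    apply mul_right_cancel₀ h3
    rw [one_mul]
    linear_combination h1
  have h5 : ‖star A.det * A.det‖ = 1 := by rw [h4, norm_one]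
  rw [norm_mul, norm_star] at h5
  nlinarith [norm_nonneg A.det]

/-- the singular values on the middle block -/
private theorem mid31 {Φ : MN N} (h2 : Φ * Φ = 1) (h4 : ∀ g, (P.ι g)ᴴ * Φ * P.ι g = Φ)
    {r : ℕ} (hr : 2 ≤ r) (hN : 2 * r + 1 ≤ N) {i0 : Fin N} (hi0 : (i0 : ℕ) = r - 1) (T : Str S)
    (hb : ∀ i : Fin N, T.b i = T.b i0 ↔ (r - 1 ≤ (i : ℕ) ∧ (i : ℕ) ≤ N - r)) (γ : G) :
    1 ≤ S.s γ i0 ∧ (∀ l : Fin N, T.b l = T.b i0 → (S.s γ l)⁻¹ ≤ S.s γ i0) ∧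
      ∀ K : ℝ, (∀ i j, T.b i = T.b j → S.s γ i ≤ K * S.s γ j) → S.s γ i0 ≤ K := by
  have hrev := upq_symm h2 h4 S γ i0
  have p0 := S.pos γ i0
  have q0 := S.pos γ (Fin.rev i0)
  have hle : S.s γ (Fin.rev i0) ≤ S.s γ i0 := by
    apply S.anti γ
    rw [Fin.le_def, Fin.val_rev]
    omega
  have one : 1 ≤ S.s γ i0 := by
    by_contra hlt
    push Not at hlt
    have : S.s γ i0 * S.s γ (Fin.rev i0) < 1 := by nlinarith
    linarith
  refine ⟨one, fun l hl => ?_, fun K hK => ?_⟩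
  · have h5 := ((hb l).1 hl).2
    have h6 : S.s γ (Fin.rev i0) ≤ S.s γ l := by
      apply S.anti γ
      rw [Fin.le_def, Fin.val_rev]
      omega
    have pl := S.pos γ l
    rw [inv_le_iff_one_le_mul₀ pl]
    nlinarith
  · have h5 : T.b (Fin.rev i0) = T.b i0 := by
      rw [hb, Fin.val_rev]
      omega
    have h6 := hK i0 (Fin.rev i0) h5.symm
    have h7 : S.s γ i0 * S.s γ i0 ≤ K := by
      have h8 := mul_le_mul_of_nonneg_right h6 p0.le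
      have h9 : K * S.s γ (Fin.rev i0) * S.s γ i0 = K := by
        rw [mul_assoc, mul_comm (S.s γ (Fin.rev i0)), hrev, mul_one]
      linarith
    nlinarith

private theorem rpow_small31 (K : ℝ) (hK : 1 ≤ K) {ε : ℝ} (hε : 0 < ε) : ∃ t : ℝ, 0 < t ∧ 1 - ε ≤ K ^ (-(2 * t)) := by
  have h1 : Continuous fun t : ℝ => K ^ (-(2 * t)) := by
    have h2 : K ≠ 0 := by linarith
    exact Continuous.rpow continuous_const (by fun_prop) fun t => Or.inl h2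
  have h2 := h1.tendsto 0
  simp only [mul_zero, neg_zero, Real.rpow_zero] at h2
  have h3 : ∀ᶠ t in 𝓝 (0 : ℝ), 1 - ε < K ^ (-(2 * t)) := h2.eventually (lt_mem_nhds (by linarith))
  obtain ⟨η, hη, h4⟩ := Metric.eventually_nhds_iff.1 h3
  refine ⟨η / 2, by linarith, (h4 ?_).le⟩
  rw [Real.dist_eq, sub_zero, abs_of_pos (by linarith)]
  linarith

private theorem rpow_dec31 {t δ : ℝ} (ht : 0 < t) (hδ : 0 < δ) : ∃ C : ℝ, ∀ c : ℝ, C / 2 ≤ c → c ^ (-(2 * t)) ≤ δ := by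
  refine ⟨2 * δ ^ (-(1 / (2 * t))), fun c hc => ?_⟩
  have h1 : 0 < δ ^ (-(1 / (2 * t))) := Real.rpow_pos_of_pos hδ _
  have h2 : δ ^ (-(1 / (2 * t))) ≤ c := by linarith
  have h3 := Real.rpow_le_rpow_of_nonpos h1 h2 (show -(2 * t) ≤ 0 by linarith)
  rw [← Real.rpow_mul hδ.le] at h3
  have h4 : -(1 / (2 * t)) * -(2 * t) = 1 := by
    field_simp
  rwa [h4, Real.rpow_one] at h3

theorem haag_mid {Φ : MN N} (h1 : Φᴴ = Φ) (h2 : Φ * Φ = 1) (h4 : ∀ g, (P.ι g)ᴴ * Φ * P.ι g = Φ)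
    {r : ℕ} (hr : 2 ≤ r) (hN : 2 * r + 1 ≤ N) {i0 i1 : Fin N} (hi0 : (i0 : ℕ) = r - 1) (hi1 : (i1 : ℕ) = r - 2) (h3 : Φ.trace = 2 * (r : ℂ) - N) (T : Str S)
    (hb : ∀ i : Fin N, T.b i = T.b i0 ↔ (r - 1 ≤ (i : ℕ) ∧ (i : ℕ) ≤ N - r))
    (hgood : ∀ n, {γ | S.s γ i0 < S.s γ i1} ∈ T.F n)
    (hout : ∀ c : ℝ, ∃ n, ∀ γ, S.s γ i0 ≤ c → γ ∈ T.W n) :
    HaagR (Pool.Agent.Helper96.RK.toReg T) := by
  classical
  obtain ⟨e, he⟩ : ∃ e : Bk T.b i0, e.1 = i0 := ⟨⟨i0, rfl⟩, rfl⟩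
  have hga := fun (γ : G) (hγ : S.s γ i0 < S.s γ i1) => gauge S h1 h2 h4 hr hN hi0 hi1 h3 T.b γ hb hγ e
  have hex : ∀ γ : G, ∃ κ : Matrix (Bk T.b i0) (Bk T.b i0) ℂ, κᴴ * κ = 1 ∧ (S.s γ i0 < S.s γ i1 →
      κᴴ * res T.b i0 (Jh S Φ γ) * κ = J0 e ∧ fU e (gg κ κ (S.X γ)) = 0 ∧
      gg κ κ (S.X γ) e e = (((S.s γ i0 + (S.s γ i0)⁻¹) / 2 : ℝ) : ℂ)) := by
    intro γ
    by_cases hγ : S.s γ i0 < S.s γ i1
    · obtain ⟨κ, a1, a2, a3, a4⟩ := hga γ hγ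
      exact ⟨κ, a1, fun _ => ⟨a2, a3, a4⟩⟩
    · exact ⟨1, by rw [conjTranspose_one, one_mul], fun h => absurd h hγ⟩
  choose κ k1 k2 using hex
  have hmid := mid31 h2 h4 hr hN hi0 T hb
  -- bounds on the regions
  have hbd : ∀ n, ∃ K : ℝ, 1 ≤ K ∧ ∀ γ ∈ T.W n, S.s γ i0 ≤ K := by
    intro n
    obtain ⟨K, hK⟩ := T.cpt n
    exact ⟨max K 1, le_max_right _ _, fun γ hγ => ((hmid γ).2.2 K (hK γ hγ)).trans (le_max_left _ _)⟩
  obtain ⟨Ga, hGk, hGg⟩ : ∃ Ga : Gau T i0 (Bk T.b i0) (fU e), Ga.κ = κ ∧ Ga.good = {γ | S.s γ i0 < S.s γ i1} :=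
    ⟨{ κ := κ
       u1 := k1
       u2 := fun γ => mul_eq_one_comm.1 (k1 γ)
       good := {γ | S.s γ i0 < S.s γ i1}
       hgood := hgood
       hX := fun γ hγ => (k2 γ hγ).2.1
       hXb := by
         intro n
         obtain ⟨K, hK1, hK⟩ := hbd n
         refine ⟨Fintype.card (Bk T.b i0) * (Fintype.card (Bk T.b i0) * (1 * K) * 1), 1, one_pos,
           fun γ hW hγ => ⟨1, one_ne_zero, ?_⟩⟩
         rw [one_smul]
         refine ⟨(k2 γ hγ).2.1, ?_, (det_U31 (k2 γ hγ).2.1).ge⟩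
         have b1 : ∀ i j, ‖(κ γ) i j‖ ≤ 1 := ent_one31 (k1 γ)
         have b2 : ∀ i j, ‖(κ γ)ᴴ i j‖ ≤ 1 := by
           intro i j
           rw [conjTranspose_apply, norm_star]
           exact b1 j i
         have b3 : ∀ i j, ‖res T.b i0 (S.X γ) i j‖ ≤ K := by
           intro i j
           unfold res Sv.X
           rw [submatrix_apply, diagonal_apply]
           split_ifs with hij
           · rw [norm_inv, Complex.norm_real, Real.norm_of_nonneg (S.pos γ _).le]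
             exact ((hmid γ).2.1 _ i.2).trans (hK γ hW)
           · rw [norm_zero]
             linarith
         exact ent_mul31 (by positivity) (ent_mul31 zero_le_one b2 b3) b1
       hC := fun g h n => u4_close h1 h2 h4 hr hN hi0 hi1 T hb hgood e κ k1 (fun γ hγ => (k2 γ hγ).1) g h n }, rfl, rfl⟩
  have hXX : ∀ γ ∈ Ga.good, Ga.XX γ ∈ HH (fU e) ∧ ‖Ga.XX γ e e‖ = (S.s γ i0 + (S.s γ i0)⁻¹) / 2 := by
    intro γ hγ
    rw [hGg] at hγ
    unfold Gau.XX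
    rw [hGk]
    refine ⟨⟨(k2 γ hγ).2.1, ?_⟩, ?_⟩
    · intro h
      have h5 := det_U31 (k2 γ hγ).2.1
      rw [h, norm_zero] at h5
      exact zero_ne_one h5
    · rw [(k2 γ hγ).2.2, Complex.norm_real, Real.norm_of_nonneg]
      have := S.pos γ i0
      positivity
  have hc1 : ∀ γ, (S.s γ i0 + (S.s γ i0)⁻¹) / 2 ≤ S.s γ i0 := by
    intro γ
    have h5 := (hmid γ).1
    have h6 : (S.s γ i0)⁻¹ ≤ 1 := inv_le_one_of_one_le₀ h5
    linarith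
  have hc2 : ∀ γ, S.s γ i0 / 2 ≤ (S.s γ i0 + (S.s γ i0)⁻¹) / 2 := by
    intro γ
    have := inv_nonneg.2 (S.pos γ i0).le
    linarith
  have hc3 : ∀ γ, 0 < (S.s γ i0 + (S.s γ i0)⁻¹) / 2 := by
    intro γ
    have := S.pos γ i0
    positivity
  refine haag_of_gau Ga (fU_isG e) fun n0 ε hε => ?_
  obtain ⟨K0, hK01, hK0⟩ := hbd n0
  obtain ⟨t, ht, hte⟩ := rpow_small31 K0 hK01 (ε := ε ^ 2 / 2) (by positivity)
  obtain ⟨L, i1', i2', i3', Mo, hMo⟩ := mdlU e ht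
  have hin : ∀ γ ∈ Ga.good, (inner ℂ (Mo.π (Ga.XX γ) Mo.v) Mo.v : ℂ) =
      ((((S.s γ i0 + (S.s γ i0)⁻¹) / 2) ^ (-(2 * t)) : ℝ) : ℂ) := by
    intro γ hγ
    obtain ⟨a1, a2⟩ := hXX γ hγ
    rw [← inner_conj_symm, hMo _ a1, a2, Complex.conj_ofReal]
  have hcmp : ∀ (K : ℝ) (γ : G), S.s γ i0 ≤ K → K ^ (-(2 * t)) ≤ ((S.s γ i0 + (S.s γ i0)⁻¹) / 2) ^ (-(2 * t)) := by
    intro K γ hγ
    exact Real.rpow_le_rpow_of_nonpos (hc3 γ) ((hc1 γ).trans hγ) (by linarith)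
  refine ⟨L, i1', i2', i3', Mo, fun γ hγ => ?_, fun n => ?_, fun γ hγ hW => ?_, fun δ hδ => ?_⟩
  · rw [hin γ hγ, Complex.ofReal_re]
    exact Real.rpow_nonneg (hc3 γ).le _
  · obtain ⟨K, hK1, hK⟩ := hbd n
    refine ⟨K ^ (-(2 * t)), Real.rpow_pos_of_pos (by linarith) _, fun γ hW hγ => ?_⟩
    rw [hin γ hγ, Complex.ofReal_re]
    exact hcmp K γ (hK γ hW)
  · have h5 : ‖Mo.π (Ga.XX γ) Mo.v - Mo.v‖ ^ 2 = 2 - 2 * ((S.s γ i0 + (S.s γ i0)⁻¹) / 2) ^ (-(2 * t)) := by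
      rw [@norm_sub_sq ℂ, LinearIsometryEquiv.norm_map, Mo.nv, hin γ hγ]
      simp only [RCLike.re_to_complex, Complex.ofReal_re]
      ring
    have h6 := hcmp K0 γ (hK0 γ hW)
    have h7 : ‖Mo.π (Ga.XX γ) Mo.v - Mo.v‖ ^ 2 ≤ ε ^ 2 := by
      rw [h5]
      linarith
    exact (sq_le_sq₀ (norm_nonneg _) hε.le).1 h7
  · obtain ⟨C, hC⟩ := rpow_dec31 ht hδ
    obtain ⟨n, hn⟩ := hout C
    refine ⟨n, fun γ hγ hW => ?_⟩
    have h5 : C < S.s γ i0 := by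
      by_contra h6
      push Not at h6
      exact hW (hn γ h6)
    rw [hin γ hγ, Complex.norm_real, Real.norm_of_nonneg (Real.rpow_nonneg (hc3 γ).le _)]
    refine hC _ ?_
    have := hc2 γ
    linarith

end Pool.Agent.Helper84.SPQ
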