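import Pool.Agent.Helper84.SPQ.K3
import Pool.Agent.Helper84.SPQ.U5
import Pool.Agent.Helper66.RK.MainA
import Pool.Agent.Helper66.RK.Quat

/-!
# Project SPQ, block K5: the strata of chains of length `r - 1` for the classical groups

`haag_her` (`N ≥ 2 r + 1`). PROOF. `s_i s_{rev i} = 1` (`upq_symm h2 h4 S`), `s_i ≤ 1` for `i ≥ r`, so `s_i = 1` for `r ≤ i ≤ N - r - 1`. Classes: `cl i = some i` for `i < r`; `cl i = some (N - 2 - i)` for `N - r - 1 ≤ i ≤ N - 2`; `none` otherwise (`lg = 0` there). `lg i = lg (N - 2 - i)`: `lg_symm`. `chain_class`.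
Let `l` be the class. If no index of class `l` is in `J`: `haag_class_zero`. If `l < r - 1`: `haag_class_pair` with `i = l` (`l - 1`, `l + 1 < r` are of other classes). If `l = r - 1`: `J` consists of `r - 1, ..., N - r - 1` and `N - 1`; `bJ_int` with `a = r - 1`, `b = N - r`
(`r - 2` and `N - r` (class `r - 2`, if `N - r + 1 < N`) are not in `J`): the hypothesis `hb` of `haag_mid`; `hgood`: on `TC S (J :: c) 1` (`TC_mem_FC`) `1 ≤ lg (r - 2)`, so `s_{r-1} < s_{r-2}`; `hout c`: if `s_{r-1} ≤ c` then `lg (r - 1) = log (s_{r-1} / s_r) = log s_{r-1} ≤ log c`.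
`haag_class2`: `N = r + 1`: `haag_sl`. Bilinear, `N = 2 r`: `haag_sym` with `bil_symm` (`Helper66/RK/Quat.lean`). Hermitian: `Φ = form N p`: `Φᴴ = Φ`, `Φ² = 1`, `trace = 2 p - N` (`p ≤ N`: since `min p (N - p) = r ≥ 2`). If `N = 2 r` (so `p = r`): `haag_sym` with `upq_symm`. Otherwise `N ≥ 2 r + 1`:
if `p = r` use `Φ`, if `N - p = r` use `-Φ` (trace `N - 2 p = 2 r - N`). `s_i ≤ 1` for `i ≥ r`: `upq_le_one` with `form_eq` (`MainA.lean`).
-/

set_option autoImplicit false

open Filter Topology Matrix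

namespace Pool.Agent.Helper84.SPQ

open Pool.Agent.Helper90.RK Pool.Agent.Helper96.RK Pool.Agent.Helper66.RKS Pool.Agent.Helper66.RK

variable {G : Type} [Group G] {N : ℕ} {P : PH G N}

/-- The classes of the gaps. -/
private def cl56 (N r : ℕ) (i : Fin N) : Option (Fin r) :=
  if h : (i : ℕ) < r then some ⟨i, h⟩
  else if h' : N ≤ (i : ℕ) + r + 1 ∧ (i : ℕ) + 2 ≤ N then some ⟨N - 2 - i, by omega⟩
  else none

private theorem cl56_low {N r : ℕ} {i : Fin N} (h : (i : ℕ) < r) : cl56 N r i = some ⟨i, h⟩ := by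
  unfold cl56
  rw [dif_pos h]

private theorem cl56_high {N r : ℕ} {i : Fin N} (h : ¬ (i : ℕ) < r) (h' : N ≤ (i : ℕ) + r + 1) (h'' : (i : ℕ) + 2 ≤ N)
    (l : Fin r) (hl : (l : ℕ) + i + 2 = N) : cl56 N r i = some l := by
  unfold cl56
  rw [dif_neg h, dif_pos ⟨h', h''⟩]
  congr 1
  apply Fin.ext
  change N - 2 - (i : ℕ) = l
  omega

private theorem cl56_none {N r : ℕ} {i : Fin N} (h : ¬ (i : ℕ) < r) (h' : ¬ (N ≤ (i : ℕ) + r + 1 ∧ (i : ℕ) + 2 ≤ N)) :
    cl56 N r i = none := by
  unfold cl56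
  rw [dif_neg h, dif_neg h']

private theorem none56 {N r : ℕ} {i : Fin N} (h : cl56 N r i = none) :
    ¬ (i : ℕ) < r ∧ ¬ (N ≤ (i : ℕ) + r + 1 ∧ (i : ℕ) + 2 ≤ N) := by
  refine ⟨fun h1 => ?_, fun h1 => ?_⟩
  · rw [cl56_low h1] at h
    exact absurd h (Option.some_ne_none _)
  · by_cases h2 : (i : ℕ) < r
    · rw [cl56_low h2] at h
      exact absurd h (Option.some_ne_none _)
    · have h3 : N - 2 - (i : ℕ) < r := by omega
      rw [cl56_high h2 h1.1 h1.2 ⟨N - 2 - i, h3⟩ (by
        change N - 2 - (i : ℕ) + i + 2 = N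
        omega)] at h
      exact absurd h (Option.some_ne_none _)

private theorem some56 {N r : ℕ} {i : Fin N} {l : Fin r} (h : cl56 N r i = some l) :
    (i : ℕ) = l ∨ (¬ (i : ℕ) < r ∧ (l : ℕ) + i + 2 = N) := by
  by_cases h1 : (i : ℕ) < r
  · rw [cl56_low h1] at h
    left
    exact congrArg Fin.val (Option.some.inj h)
  · by_cases h2 : N ≤ (i : ℕ) + r + 1 ∧ (i : ℕ) + 2 ≤ N
    · have h3 : N - 2 - (i : ℕ) < r := by omega
      rw [cl56_high h1 h2.1 h2.2 ⟨N - 2 - i, h3⟩ (by
        change N - 2 - (i : ℕ) + i + 2 = N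
        omega)] at h
      have h4 : N - 2 - (i : ℕ) = l := congrArg Fin.val (Option.some.inj h)
      right
      refine ⟨h1, ?_⟩
      omega
    · rw [cl56_none h1 h2] at h
      exact absurd h.symm (Option.some_ne_none _)

private theorem lg_zero56 {S : Sv P} {γ : G} {i : Fin N} (h : ∀ h' : (i : ℕ) + 1 < N, S.s γ i = S.s γ ⟨i + 1, h'⟩) :
    lg S γ i = 0 := by
  unfold lg gp
  by_cases h' : (i : ℕ) + 1 < N
  · rw [dif_pos h', ← h h', div_self (S.pos γ i).ne', Real.log_one]
  · rw [dif_neg h', Real.log_one]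

theorem haag_her {S : Sv P} {Φ : MN N} (h1 : Φᴴ = Φ) (h2 : Φ * Φ = 1) (h4 : ∀ g, (P.ι g)ᴴ * Φ * P.ι g = Φ)
    {r : ℕ} (hr : 2 ≤ r) (hN : 2 * r + 1 ≤ N) (h3 : Φ.trace = 2 * (r : ℂ) - N) (hle : ∀ γ (i : Fin N), r ≤ (i : ℕ) → S.s γ i ≤ 1)
    {J : Finset (Fin N)} {c : List (Finset (Fin N))}
    (hch : IsCh (J :: c)) (hne : ∀ m, (TC S (J :: c) m).Nonempty) (hl : c.length + 2 = r) :
    HaagR (Pool.Agent.Helper96.RK.toReg (chStr S J c)) := by
  have hs : ∀ γ i, S.s γ i * S.s γ (Fin.rev i) = 1 := fun γ i => upq_symm h2 h4 S γ i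
  have hone : ∀ γ (i : Fin N), r ≤ (i : ℕ) → (i : ℕ) + r + 1 ≤ N → S.s γ i = 1 := by
    intro γ i hi hi'
    have e1 := hs γ i
    have e2 := hle γ i hi
    have e3 : S.s γ (Fin.rev i) ≤ 1 := hle γ (Fin.rev i) (by
      rw [Fin.val_rev]
      omega)
    have e4 := S.pos γ i
    have e5 := S.pos γ (Fin.rev i)
    refine le_antisymm e2 ?_
    by_contra hcon
    rw [not_le] at hcon
    have e6 : S.s γ i * S.s γ (Fin.rev i) < 1 := by
      calc S.s γ i * S.s γ (Fin.rev i) < 1 * S.s γ (Fin.rev i) := mul_lt_mul_of_pos_right hcon e5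
        _ = S.s γ (Fin.rev i) := one_mul _
        _ ≤ 1 := e3
    exact absurd e1 (ne_of_lt e6)
  have hnone : ∀ i, cl56 N r i = none → ∀ γ, lg S γ i = 0 := by
    intro i hi γ
    obtain ⟨a1, a2⟩ := none56 hi
    refine lg_zero56 fun h' => ?_
    rw [hone γ i (by omega) (by omega), hone γ ⟨i + 1, h'⟩ (by
      change r ≤ (i : ℕ) + 1
      omega) (by
      change (i : ℕ) + 1 + r + 1 ≤ N
      omega)]
  have hsame : ∀ i j, cl56 N r i = cl56 N r j → ∀ γ, lg S γ i = lg S γ j := by
    intro i j hij γ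
    rcases hci : cl56 N r i with _ | l
    · have hcj : cl56 N r j = none := by rw [← hij, hci]
      rw [hnone i hci γ, hnone j hcj γ]
    · have hcj : cl56 N r j = some l := by rw [← hij, hci]
      have hi := i.2
      have hj := j.2
      rcases some56 hci with b1 | ⟨b1, b2⟩
      · rcases some56 hcj with d1 | ⟨d1, d2⟩
        · have : i = j := Fin.ext (by omega)
          rw [this]
        · exact lg_symm hs γ (by omega)
      · rcases some56 hcj with d1 | ⟨d1, d2⟩
        · exact lg_symm hs γ (by omega)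
        · have : i = j := Fin.ext (by omega)
          rw [this]
  obtain ⟨cA, cB, l, cC⟩ := chain_class (cl56 N r) hnone hsame hch hne hl
  have hlr := l.2
  have hlN : (l : ℕ) < N := by omega
  set il : Fin N := ⟨l, hlN⟩ with hil
  have hilv : (il : ℕ) = l := rfl
  have hcl : cl56 N r il = some l := by
    rw [cl56_low (i := il) hlr]
  by_cases hJ : il ∈ J
  swap
  · refine haag_class_zero fun k hk γ => ?_
    rcases cC k hk with h | h
    · exact hnone k h γ
    · exact absurd (cB k il hk (h.trans hcl.symm)) hJ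
  have hnot : ∀ k : Fin N, ∀ l' : Fin r, cl56 N r k = some l' → l' ≠ l → k ∉ J := by
    intro k l' hk hne' hkJ
    rcases cC k hkJ with h | h
    · rw [hk] at h
      exact absurd h (Option.some_ne_none _)
    · rw [hk] at h
      exact hne' (Option.some.inj h)
  have hpair : ∀ k ∈ J, (∀ γ, lg S γ k = 0) ∨ ∀ γ, lg S γ k = lg S γ il := by
    intro k hk
    rcases cC k hk with h | h
    · exact Or.inl (hnone k h)
    · exact Or.inr (hsame k il (h.trans hcl.symm))
  by_cases hlr1 : (l : ℕ) + 1 < r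
  · have hl1 : (l : ℕ) + 1 < N := by omega
    refine haag_class_pair (i := il) (j := ⟨l + 1, hl1⟩) rfl hJ ?_ ?_ hpair
    · intro k hk
      have hk' : (k : ℕ) < r := by
        have : (k : ℕ) + 1 = l := hk
        omega
      refine hnot k ⟨k, hk'⟩ (cl56_low hk') fun h => ?_
      have h5 : (k : ℕ) = l := congrArg Fin.val h
      have h6 : (k : ℕ) + 1 = l := hk
      omega
    · intro _
      refine hnot _ ⟨l + 1, hlr1⟩ (cl56_low (i := ⟨l + 1, hl1⟩) hlr1) fun h => ?_
      have h5 : (l : ℕ) + 1 = l := congrArg Fin.val h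
      omega
  · have hlv : (l : ℕ) = r - 1 := by omega
    have hi1N : r - 2 < N := by omega
    have hi1r : r - 2 < r := by omega
    have hi1J : (⟨r - 2, hi1N⟩ : Fin N) ∉ J := by
      refine hnot _ ⟨r - 2, hi1r⟩ (cl56_low (i := ⟨r - 2, hi1N⟩) hi1r) fun h => ?_
      have h5 : r - 2 = l := congrArg Fin.val h
      omega
    refine haag_mid h1 h2 h4 hr hN (i0 := il) (i1 := ⟨r - 2, hi1N⟩) hlv rfl h3 (chStr S J c) ?_ ?_ ?_
    · refine bJ_int (J := J) (a := r - 1) (b := N - r) (by omega) (by omega) ?_ ?_ ?_ (i0 := il) hlv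
      · intro k hk1 hk2
        by_cases hk3 : (k : ℕ) = r - 1
        · have : k = il := Fin.ext (by omega)
          rw [this]
          exact hJ
        · by_cases hk4 : (k : ℕ) = N - r - 1
          · refine cB il k hJ (hcl.trans ?_)
            exact (cl56_high (by omega) (by omega) (by omega) l (by omega)).symm
          · exact cA k (cl56_none (by omega) (by omega))
      · intro k hk
        have hk' : (k : ℕ) < r := by omega
        refine hnot k ⟨k, hk'⟩ (cl56_low hk') fun h => ?_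
        have h5 : (k : ℕ) = l := congrArg Fin.val h
        omega
      · intro k hk _
        refine hnot k ⟨r - 2, hi1r⟩ (cl56_high (by omega) (by omega) (by omega) ⟨r - 2, hi1r⟩ (by
          change r - 2 + (k : ℕ) + 2 = N
          omega)) fun h => ?_
        have h5 : r - 2 = l := congrArg Fin.val h
        omega
    · intro n
      filter_upwards [TC_mem_FC S J c 1 n] with γ hγ
      have h5 := ((TC_cons S).1 hγ).1 _ hi1J
      have h6 := sum_lg_nonneg S γ J
      push_cast at h5
      have h7 : (1 : ℝ) < gp S γ ⟨r - 2, hi1N⟩ := by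
        rw [gp_eq_exp]
        exact Real.one_lt_exp_iff.2 (by linarith)
      unfold gp at h7
      have hi : ((⟨r - 2, hi1N⟩ : Fin N) : ℕ) + 1 < N := by
        change r - 2 + 1 < N
        omega
      rw [dif_pos hi, one_lt_div (S.pos _ _)] at h7
      have h8 : (⟨((⟨r - 2, hi1N⟩ : Fin N) : ℕ) + 1, hi⟩ : Fin N) = il := Fin.ext (by
        change r - 2 + 1 = l
        omega)
      rw [h8] at h7
      exact h7
    · intro x
      refine ⟨⌈Real.log x⌉₊, fun γ hγ => ?_⟩
      change ∀ i ∈ J, lg S γ i ≤ (⌈Real.log x⌉₊ : ℕ)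
      intro i hi
      rcases hpair i hi with h | h
      · rw [h γ]
        exact Nat.cast_nonneg _
      · rw [h γ]
        have hi' : (il : ℕ) + 1 < N := by
          change (l : ℕ) + 1 < N
          omega
        have h5 : lg S γ il = Real.log (S.s γ il) := by
          unfold lg gp
          rw [dif_pos hi', hone γ ⟨il + 1, hi'⟩ (by
            change r ≤ (l : ℕ) + 1
            omega) (by
            change (l : ℕ) + 1 + r + 1 ≤ N
            omega), div_one]
        rw [h5]
        exact (Real.log_le_log (S.pos γ il) hγ).trans (Nat.le_ceil _)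

/-- The classes of representations: `SL(r + 1)`, complex bilinear forms in dimension `2 r`, Hermitian forms of signature `(r, m)` or `(m, r)`, `m ≥ r`. -/
def Class2 {Γ : Type} [Group Γ] {N : ℕ} (ρ : PRep Γ N) (r : ℕ) : Prop :=
  N = r + 1 ∨ (ρ.Bilinear ∧ N = 2 * r) ∨ ∃ p, ρ.Hermitian p ∧ min p (N - p) = r

private theorem form_star56 (N p : ℕ) : (form N p)ᴴ = form N p := by
  unfold form
  rw [diagonal_conjTranspose]
  congr 1
  funext i
  rw [Pi.star_apply]
  split_ifs <;> simp

private theorem form_sq56 (N p : ℕ) : form N p * form N p = 1 := by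
  unfold form
  rw [diagonal_mul_diagonal, ← diagonal_one]
  congr 1
  funext i
  split_ifs <;> simp

private theorem form_tr56 {N p : ℕ} (hp : p ≤ N) : (form N p).trace = 2 * (p : ℂ) - N := by
  unfold form
  rw [trace_diagonal]
  have h1 : ∀ i : Fin N, (if (i : ℕ) < p then (1 : ℂ) else -1) = 2 * (if (i : ℕ) < p then (1 : ℂ) else 0) - 1 := by
    intro i
    split_ifs <;> norm_num
  rw [Finset.sum_congr rfl fun i _ => h1 i, Finset.sum_sub_distrib, ← Finset.mul_sum, Finset.sum_const, Finset.card_univ,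
    Fintype.card_fin, nsmul_eq_mul, mul_one]
  congr 2
  rw [Finset.sum_boole, ← Finset.sum_boole]
  have h2 : ∑ i : Fin N, (if (i : ℕ) < p then (1 : ℂ) else 0) = ∑ i ∈ Finset.range N, (if i < p then (1 : ℂ) else 0) :=
    Fin.sum_univ_eq_sum_range (fun i => if i < p then (1 : ℂ) else 0) N
  rw [h2, Finset.sum_boole]
  congr 1
  have h3 : (Finset.range N).filter (fun i => i < p) = Finset.range p := by
    ext i
    rw [Finset.mem_filter, Finset.mem_range, Finset.mem_range]
    omega
  rw [h3, Finset.card_range]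

theorem haag_class2 {Γ : Type} [Group Γ] {N r : ℕ} (ρ : PRep Γ N) (hρ : Class2 ρ r) (S : Sv ρ.ph)
    {J : Finset (Fin N)} {c : List (Finset (Fin N))}
    (hch : IsCh (J :: c)) (hne : ∀ m, (TC S (J :: c) m).Nonempty) (hl : c.length + 2 = r) :
    HaagR (Pool.Agent.Helper96.RK.toReg (chStr S J c)) := by
  rcases hρ with hN | ⟨⟨Φ, hΦ, hinv⟩, hN⟩ | ⟨p, hp, hmin⟩
  · exact haag_sl hN hch hne hl
  · exact haag_sym hN (fun γ i => bil_symm (P := ρ.ph) hΦ hinv S γ i) hch hne hl
  · have hpN : p ≤ N := by omega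
    have hinv : ∀ g, (ρ.ph.ι g)ᴴ * form N p * ρ.ph.ι g = form N p := hp
    by_cases hN : N = 2 * r
    · exact haag_sym hN (fun γ i => upq_symm (P := ρ.ph) (form_sq56 N p) hinv S γ i) hch hne hl
    · obtain ⟨e, he⟩ := form_eq hpN
      have hle : ∀ γ (i : Fin N), r ≤ (i : ℕ) → S.s γ i ≤ 1 := by
        intro γ i hi
        refine upq_le_one (P := ρ.ph) e ?_ S γ i (by omega)
        rw [← he]
        exact hinv
      rcases Nat.lt_or_ge (N - p) p with hlt | hge
      · -- N - p = r
        have hNp : N - p = r := by omega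
        refine haag_her (Φ := -form N p) ?_ ?_ ?_ (by omega) (by omega) ?_ hle hch hne hl
        · rw [conjTranspose_neg, form_star56]
        · rw [neg_mul_neg, form_sq56]
        · intro g
          rw [mul_neg, neg_mul, hinv g]
        · rw [trace_neg, form_tr56 hpN]
          have h5 : (N : ℂ) = r + p := by
            have : N = r + p := by omega
            exact_mod_cast this
          rw [h5]
          ring
      · have hpr : p = r := by omega
        refine haag_her (Φ := form N p) (form_star56 N p) (form_sq56 N p) hinv (by omega) (by omega) ?_ hle hch hne hl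
        rw [form_tr56 hpN, hpr]

end Pool.Agent.Helper84.SPQ
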