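import Pool.Agent.Helper84.SPQ.B1

/-!
# Project SPQ, block B2: Haagerup property of the strata with a block of size two

`haag_pair`. PROOF. Let `Φ` be as in `fib_pair` (parameter `t > 0` chosen below). The cocycle: `pi g h γ = Φ.π (T.C g h γ)`, `v = Φ.v`, `vX γ = Φ.π (S.X γ) Φ.v`: all the fields `one`, `cpt`, `mul`, `left`, `cptX`, `right` are
`coc_one T Φ`, ..., `coc_right T Φ` (`GN/I1.lean`; `toReg` of `Ty3.lean` unfolds to the same region, compare `toCoc` at the end of `GN/I1.lean`). `⟪vX γ, v⟫ = conj ⟪v, vX γ⟫ = q(γ)^t` with `q(γ) = 2 s_i s_j / (s_i ^ 2 + s_j ^ 2)`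
(`blk2 (S.X γ) (i, j) = diag(1/s_i, 1/s_j)`; `S.X γ ∈ GLb T.b` by `T.X_mem`), a real number in `(0, 1]`: `nonneg`. `pos`: on `W n` the quotients `s_i/s_j`, `s_j/s_i` are at most `K` (`T.cpt n`, `T.b i = T.b j`), so `q ≥ 1/K` for `K ≥ 1`
(`2 s_i s_j/(s_i²+s_j²) = 2/(s_i/s_j + s_j/s_i) ≥ 1/K`) and `q^t ≥ (1/K)^t`.
Choice of `t` for given `n0`, `ε`: `‖vX γ - v‖² = 2 - 2 q(γ)^t ≤ 2 - 2 (1/K)^t ≤ ε²` on `W n0` for small `t` (`K^(-t) → 1` as `t → 0`). Take `s = univ`. Decay: for `δ > 0` choose `c ≥ 1` with `(2/c)^t ≤ δ` and `n` from `hout c`: for `γ ∉ W n`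
`s_i > c s_j`, so `q(γ) ≤ 2 s_j/s_i < 2/c`.
`haag_triv`: `L = ℂ`, `pi = 1`, `v = vX = 1`, `s = univ`.
-/

set_option autoImplicit false

open Filter Topology Matrix

namespace Pool.Agent.Helper84.SPQ

open NI GN Pool.Agent.Helper90.RK

variable {G : Type} [Group G] {N : ℕ} {P : PH G N} {S : Sv P}

private theorem qval14 (T : Str S) {i j : Fin N} (hij : i ≠ j) (γ : G) :
    2 * ‖(blk2 (S.X γ) (i, j)).det‖ / ns (blk2 (S.X γ) (i, j)) =
      2 * (S.s γ i * S.s γ j) / (S.s γ i ^ 2 + S.s γ j ^ 2) := by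
  have hi := S.pos γ i
  have hj := S.pos γ j
  have hX : S.X γ = diagonal (fun k : Fin N => ((S.s γ k)⁻¹ : ℂ)) := rfl
  have h1 : ‖(blk2 (S.X γ) (i, j)).det‖ = (S.s γ i)⁻¹ * (S.s γ j)⁻¹ := by
    rw [hX]
    simp only [blk2, Matrix.det_fin_two_of, Matrix.diagonal_apply_eq,
      Matrix.diagonal_apply_ne _ hij, Matrix.diagonal_apply_ne _ hij.symm, mul_zero, sub_zero,
      norm_mul, norm_inv, Complex.norm_real, Real.norm_of_nonneg hi.le, Real.norm_of_nonneg hj.le]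
  have h2 : ns (blk2 (S.X γ) (i, j)) = (S.s γ i)⁻¹ ^ 2 + (S.s γ j)⁻¹ ^ 2 := by
    rw [hX]
    simp only [ns, blk2, Fin.sum_univ_two, Matrix.of_apply, Matrix.cons_val', Matrix.cons_val_zero,
      Matrix.cons_val_one, Matrix.cons_val_fin_one, Matrix.diagonal_apply_eq,
      Matrix.diagonal_apply_ne _ hij, Matrix.diagonal_apply_ne _ hij.symm, norm_zero,
      norm_inv, Complex.norm_real, Real.norm_of_nonneg hi.le, Real.norm_of_nonneg hj.le]
    ring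
  rw [h1, h2]
  have hne : S.s γ i ≠ 0 := hi.ne'
  have hne' : S.s γ j ≠ 0 := hj.ne'
  have h3 : (0 : ℝ) < S.s γ i ^ 2 + S.s γ j ^ 2 := by positivity
  have h4 : (0 : ℝ) < (S.s γ i)⁻¹ ^ 2 + (S.s γ j)⁻¹ ^ 2 := by positivity
  rw [div_eq_div_iff h4.ne' h3.ne']
  field_simp
  ring

private theorem qlow14 {a b K : ℝ} (ha : 0 < a) (hb : 0 < b) (hK : 1 ≤ K) (h1 : a ≤ K * b)
    (h2 : b ≤ K * a) : 1 / K ≤ 2 * (a * b) / (a ^ 2 + b ^ 2) := by
  have hK0 : 0 < K := by linarith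
  rw [div_le_div_iff₀ hK0 (by positivity)]
  nlinarith [mul_le_mul_of_nonneg_left h1 ha.le, mul_le_mul_of_nonneg_left h2 hb.le]

private theorem qup14 {a b c : ℝ} (ha : 0 < a) (hb : 0 < b) (hc : 0 < c) (h1 : c * b < a) :
    2 * (a * b) / (a ^ 2 + b ^ 2) ≤ 2 / c := by
  rw [div_le_div_iff₀ (by positivity) hc]
  nlinarith [mul_le_mul_of_nonneg_left h1.le ha.le, sq_nonneg b]

theorem haag_pair (T : Str S) {i j : Fin N} (hij : i ≠ j) (hb : ∀ k, T.b k = T.b i ↔ k = i ∨ k = j)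
    (hout : ∀ c : ℝ, ∃ n, ∀ γ, S.s γ i ≤ c * S.s γ j → γ ∈ T.W n) : HaagR (Pool.Agent.Helper96.RK.toReg T) := by
  intro n0 ε hε
  have hbj : T.b j = T.b i := (hb j).2 (Or.inr rfl)
  have hKn : ∀ n, ∃ K : ℝ, 1 ≤ K ∧ ∀ γ ∈ T.W n,
      1 / K ≤ 2 * (S.s γ i * S.s γ j) / (S.s γ i ^ 2 + S.s γ j ^ 2) := by
    intro n
    obtain ⟨K, hK⟩ := T.cpt n
    refine ⟨max K 1, le_max_right _ _, fun γ hγ => ?_⟩
    have hi := S.pos γ i
    have hj := S.pos γ j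
    refine qlow14 hi hj (le_max_right _ _) ?_ ?_
    · exact (hK γ hγ i j hbj.symm).trans (mul_le_mul_of_nonneg_right (le_max_left _ _) hj.le)
    · exact (hK γ hγ j i hbj).trans (mul_le_mul_of_nonneg_right (le_max_left _ _) hi.le)
  -- the exponent
  obtain ⟨K0, hK01, hK0⟩ := hKn n0
  have hK0' : (0 : ℝ) < 1 / K0 := one_div_pos.2 (by linarith)
  obtain ⟨t, ht, ht2⟩ : ∃ t : ℝ, 0 < t ∧ 1 - ε ^ 2 / 2 < (1 / K0) ^ t := by
    have h1 : Tendsto (fun t : ℝ => (1 / K0) ^ t) (𝓝 0) (𝓝 1) := by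
      have h2 := (Real.continuousAt_const_rpow (b := (0 : ℝ)) hK0'.ne').tendsto
      rwa [Real.rpow_zero] at h2
    have h3 : ∀ᶠ t in 𝓝 (0 : ℝ), 1 - ε ^ 2 / 2 < (1 / K0) ^ t :=
      h1.eventually (lt_mem_nhds (by nlinarith))
    have h4 : ∀ᶠ t in 𝓝[>] (0 : ℝ), 1 - ε ^ 2 / 2 < (1 / K0) ^ t := h3.filter_mono nhdsWithin_le_nhds
    obtain ⟨t, h5, h6⟩ := (h4.and self_mem_nhdsWithin).exists
    exact ⟨t, h6, h5⟩
  obtain ⟨L, i1, i2, i3, Φ, hΦ⟩ := fib_pair T.b hij hb t ht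
  obtain ⟨q, hq⟩ : ∃ q : G → ℝ, q = fun γ => 2 * (S.s γ i * S.s γ j) / (S.s γ i ^ 2 + S.s γ j ^ 2) :=
    ⟨_, rfl⟩
  have hq0 : ∀ γ, 0 ≤ q γ := by
    intro γ
    have hi := S.pos γ i
    have hj := S.pos γ j
    rw [hq]
    positivity
  have hin : ∀ γ, (inner ℂ (Φ.π (S.X γ) Φ.v) Φ.v : ℂ) = ((q γ ^ t : ℝ) : ℂ) := by
    intro γ
    rw [← inner_conj_symm, hΦ _ (T.X_mem γ), qval14 T hij γ, Complex.conj_ofReal, hq]
  have hre : ∀ γ, (inner ℂ (Φ.π (S.X γ) Φ.v) Φ.v : ℂ).re = q γ ^ t := by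
    intro γ
    rw [hin, Complex.ofReal_re]
  let Γ : Coc (Pool.Agent.Helper96.RK.toReg T) L :=
    { pi := fun g h γ => Φ.π (T.C g h γ)
      v := Φ.v
      vX := fun γ => Φ.π (S.X γ) Φ.v
      nv := Φ.nv
      nvX := fun γ => by rw [LinearIsometryEquiv.norm_map, Φ.nv]
      one := coc_one T Φ
      cpt := coc_cpt T Φ
      mul := coc_mul T Φ
      left := coc_left T Φ
      cptX := coc_cptX T Φ
      right := coc_right T Φ
      nonneg := fun γ => by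
        rw [hre]
        exact Real.rpow_nonneg (hq0 γ) t
      pos := fun n => by
        obtain ⟨K, hK1, hK⟩ := hKn n
        have hK' : (0 : ℝ) < 1 / K := one_div_pos.2 (by linarith)
        refine ⟨(1 / K) ^ t, Real.rpow_pos_of_pos hK' t, fun γ hγ => ?_⟩
        rw [hre, hq]
        exact Real.rpow_le_rpow hK'.le (hK γ hγ) ht.le }
  refine ⟨L, i1, i2, i3, Γ, Set.univ, fun n => univ_mem, fun γ _ hγ => ?_, fun δ hδ => ?_⟩
  · have h1 : ‖Φ.π (S.X γ) Φ.v - Φ.v‖ ^ 2 = 2 - 2 * q γ ^ t := by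
      have h2 := @norm_sub_sq ℂ L _ _ _ (Φ.π (S.X γ) Φ.v) Φ.v
      rw [LinearIsometryEquiv.norm_map, Φ.nv] at h2
      rw [h2]
      have h3 : RCLike.re (inner ℂ (Φ.π (S.X γ) Φ.v) Φ.v : ℂ) = q γ ^ t := hre γ
      rw [h3]
      ring
    have h2 : (1 / K0) ^ t ≤ q γ ^ t := by
      rw [hq]
      exact Real.rpow_le_rpow hK0'.le (hK0 γ hγ) ht.le
    have h3 : ‖Φ.π (S.X γ) Φ.v - Φ.v‖ ^ 2 ≤ ε ^ 2 := by
      rw [h1]
      linarith
    exact (sq_le_sq₀ (norm_nonneg _) hε.le).1 h3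
  · have hδt : 0 < δ ^ (1 / t) := Real.rpow_pos_of_pos hδ _
    have hc : 0 < 2 / δ ^ (1 / t) + 1 := by positivity
    obtain ⟨n, hn⟩ := hout (2 / δ ^ (1 / t) + 1)
    refine ⟨n, fun γ _ hγ => ?_⟩
    have h1 : (2 / δ ^ (1 / t) + 1) * S.s γ j < S.s γ i := by
      by_contra hcon
      exact hγ (hn γ (not_lt.1 hcon))
    have h2 : q γ ≤ 2 / (2 / δ ^ (1 / t) + 1) := by
      rw [hq]
      exact qup14 (S.pos γ i) (S.pos γ j) hc h1
    have h3 : 2 / (2 / δ ^ (1 / t) + 1) ≤ δ ^ (1 / t) := by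
      rw [div_le_iff₀ hc, mul_add, mul_div_cancel₀ _ hδt.ne', mul_one]
      linarith
    change ‖(inner ℂ (Φ.π (S.X γ) Φ.v) Φ.v : ℂ)‖ ≤ δ
    rw [hin, Complex.norm_real, Real.norm_of_nonneg (Real.rpow_nonneg (hq0 γ) t)]
    calc q γ ^ t ≤ (δ ^ (1 / t)) ^ t := Real.rpow_le_rpow (hq0 γ) (h2.trans h3) ht.le
      _ = δ := by
        rw [← Real.rpow_mul hδ.le, one_div_mul_cancel ht.ne', Real.rpow_one]

/-- a region with `W n` everything for some `n` -/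
theorem haag_triv (R : Reg G) {n1 : ℕ} (h : R.W n1 = Set.univ) : HaagR R := by
  intro n0 ε hε
  let Γ : Coc R ℂ :=
    { pi := fun _ _ _ => LinearIsometryEquiv.refl ℂ ℂ
      v := 1
      vX := fun _ => 1
      nv := norm_one
      nvX := fun _ => norm_one
      one := fun _ _ => rfl
      cpt := fun _ _ _ w => ⟨{w}, isCompact_singleton, Eventually.of_forall fun _ => rfl⟩
      mul := fun _ _ _ _ _ w => by
        simp only [LinearIsometryEquiv.coe_refl, id_eq, sub_self]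
        exact tendsto_const_nhds
      left := fun _ _ => by
        simp only [LinearIsometryEquiv.coe_refl, id_eq, sub_self]
        exact tendsto_const_nhds
      cptX := fun _ => ⟨{1}, isCompact_singleton, Eventually.of_forall fun _ => rfl⟩
      right := fun _ _ => by
        simp only [LinearIsometryEquiv.coe_refl, id_eq, sub_self]
        exact tendsto_const_nhds
      nonneg := fun _ => by simp
      pos := fun _ => ⟨1, one_pos, fun _ _ => by simp⟩ }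
  refine ⟨ℂ, inferInstance, inferInstance, inferInstance, Γ, Set.univ, fun n => univ_mem,
    fun γ _ _ => ?_, fun δ hδ => ⟨n1, fun γ _ hγ => ?_⟩⟩
  · change ‖(1 : ℂ) - 1‖ ≤ ε
    rw [sub_self, norm_zero]
    exact hε.le
  · rw [h] at hγ
    exact absurd (Set.mem_univ γ) hγ

end Pool.Agent.Helper84.SPQ
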