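import Pool.Agent.Helper84.SPQ.K1
import Pool.Agent.Helper84.SPQ.B2

/-!
# Project SPQ, block K3: the strata of chains of length `r - 1`, cases `N = r + 1` and `N = 2 r`

`haag_class_pair`: if `J` consists of indices `k` with `lg S γ k = 0` and of indices `k` with `lg S γ k = lg S γ i` for one index `i ∈ J`, `i + 1 < N`, and the block of `i` is `{i, i + 1}`, then `haag_pair` applies: `hb` is `bJ_int` with `a = i`, `b = i + 1`;
`hout c`: if `s_i ≤ c s_{i+1}` then `lg i ≤ log c ≤ n` (`n = ⌈log (max c 1)⌉₊`), so `γ ∈ WC S J n`. (`(chStr S J c).b = bJ J`, `(chStr S J c).W = WC S J`.)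
`haag_class_zero`: if all `lg S γ k = 0` on `J` then `WC S J 0 = univ`: `haag_triv`.
`haag_sl`: `cl i = some i` for `i < r`, `cl r = none` (the last gap is `1`: `lg = 0`, definition of `gp`); `chain_class`; if the class `l` is in `J`: `haag_class_pair`, otherwise `haag_class_zero`.
`haag_sym`: `cl i = some (min i (N - 2 - i))` for `i + 1 < N`, `none` for `i = N - 1`: `lg i = lg (N - 2 - i)` from `s_i s_{rev i} = 1` (`s_i / s_{i+1} = (1/s_{rev i}) / (1/s_{rev (i+1)})`). `J = {l, N - 2 - l, N - 1}` or `{N - 1}`, `l < r`; the neighbours `l - 1`, `l + 1` are not in `J`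
(`l + 1 = N - 2 - l` is impossible for `N = 2 r`; for `l = r - 1`, `N - 2 - l = l` and `l + 1 = r` has class `r - 2`).
-/

set_option autoImplicit false

open Filter Topology

namespace Pool.Agent.Helper84.SPQ

open Pool.Agent.Helper90.RK Pool.Agent.Helper96.RK

variable {G : Type} [Group G] {N : ℕ} {P : PH G N}

theorem haag_class_pair {S : Sv P} {J : Finset (Fin N)} {c : List (Finset (Fin N))} {i j : Fin N} (hij : (j : ℕ) = i + 1)
    (hi : i ∈ J) (hl : ∀ k : Fin N, (k : ℕ) + 1 = i → k ∉ J) (hr : (j : ℕ) + 1 < N → j ∉ J)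
    (h : ∀ k ∈ J, (∀ γ, lg S γ k = 0) ∨ ∀ γ, lg S γ k = lg S γ i) : HaagR (Pool.Agent.Helper96.RK.toReg (chStr S J c)) := by
  have hne : i ≠ j := by
    intro e
    rw [← e] at hij
    omega
  have hjN := j.2
  refine haag_pair (chStr S J c) (i := i) (j := j) hne ?_ ?_
  · intro k
    have h1 := bJ_int (J := J) (a := (i : ℕ)) (b := (j : ℕ)) (by omega) hjN
      (fun m hm1 hm2 => by
        have e : m = i := Fin.ext (by omega)
        rw [e]
        exact hi)
      hl
      (fun m hm1 hm2 => by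
        have e : m = j := Fin.ext hm1
        rw [e]
        exact hr hm2)
      (i0 := i) rfl k
    have h2 : ((chStr S J c).b k = (chStr S J c).b i) ↔ (bJ J k = bJ J i) := Iff.rfl
    rw [h2, h1]
    constructor
    · rintro ⟨a1, a2⟩
      rcases Nat.lt_or_ge (k : ℕ) (j : ℕ) with a3 | a3
      · exact Or.inl (Fin.ext (by omega))
      · exact Or.inr (Fin.ext (by omega))
    · rintro (rfl | rfl)
      · exact ⟨le_rfl, by omega⟩
      · exact ⟨by omega, le_rfl⟩
  · intro c'
    refine ⟨⌈Real.log (max c' 1)⌉₊, fun γ hγ => ?_⟩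
    have h0 : (0 : ℝ) ≤ ⌈Real.log (max c' 1)⌉₊ := Nat.cast_nonneg _
    have hgi : lg S γ i ≤ ⌈Real.log (max c' 1)⌉₊ := by
      refine le_trans ?_ (Nat.le_ceil _)
      unfold lg
      refine Real.log_le_log (lt_of_lt_of_le one_pos (one_le_gp S γ i)) ?_
      have hiN : (i : ℕ) + 1 < N := by omega
      unfold gp
      rw [dif_pos hiN]
      have e : (⟨(i : ℕ) + 1, hiN⟩ : Fin N) = j := Fin.ext hij.symm
      rw [e, div_le_iff₀ (S.pos γ j)]
      exact hγ.trans (mul_le_mul_of_nonneg_right (le_max_left _ _) (S.pos γ j).le)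
    have h2 : γ ∈ WC S J ⌈Real.log (max c' 1)⌉₊ := by
      intro k hk
      rcases h k hk with h3 | h3
      · rw [h3 γ]
        exact h0
      · rw [h3 γ]
        exact hgi
    exact h2

theorem haag_class_zero {S : Sv P} {J : Finset (Fin N)} {c : List (Finset (Fin N))}
    (h : ∀ k ∈ J, ∀ γ, lg S γ k = 0) : HaagR (Pool.Agent.Helper96.RK.toReg (chStr S J c)) := by
  refine haag_triv (Pool.Agent.Helper96.RK.toReg (chStr S J c)) (n1 := 0) ?_
  have h2 : WC S J 0 = Set.univ := by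
    refine Set.eq_univ_of_forall fun γ k hk => ?_
    rw [h k hk γ]
    exact Nat.cast_nonneg _
  exact h2

theorem lg_symm {S : Sv P} (hs : ∀ γ i, S.s γ i * S.s γ (Fin.rev i) = 1) (γ : G) {i j : Fin N} (hij : (i : ℕ) + j + 2 = N) :
    lg S γ i = lg S γ j := by
  have hiN : (i : ℕ) + 1 < N := by omega
  have hjN : (j : ℕ) + 1 < N := by omega
  unfold lg gp
  rw [dif_pos hiN, dif_pos hjN]
  have e1 : Fin.rev i = (⟨(j : ℕ) + 1, hjN⟩ : Fin N) := Fin.ext (by
    rw [Fin.val_rev]
    change N - ((i : ℕ) + 1) = (j : ℕ) + 1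
    omega)
  have e2 : Fin.rev j = (⟨(i : ℕ) + 1, hiN⟩ : Fin N) := Fin.ext (by
    rw [Fin.val_rev]
    change N - ((j : ℕ) + 1) = (i : ℕ) + 1
    omega)
  have h1 := hs γ i
  have h2 := hs γ j
  rw [e1] at h1
  rw [e2] at h2
  have p1 := S.pos γ i
  have p2 := S.pos γ j
  have p3 := S.pos γ ⟨(i : ℕ) + 1, hiN⟩
  have p4 := S.pos γ ⟨(j : ℕ) + 1, hjN⟩
  congr 1
  rw [div_eq_div_iff p3.ne' p4.ne']
  rw [h1, h2]

private theorem lg_last32 (S : Sv P) (γ : G) {i : Fin N} (hi : ¬ (i : ℕ) + 1 < N) : lg S γ i = 0 := by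
  unfold lg gp
  rw [dif_neg hi, Real.log_one]

private theorem haag_cl32 {S : Sv P} {r : ℕ} (cl : Fin N → Option (Fin r))
    (h0 : ∀ i, cl i = none → ∀ γ, lg S γ i = 0)
    (h1 : ∀ i j, cl i = cl j → ∀ γ, lg S γ i = lg S γ j) {J : Finset (Fin N)} {c : List (Finset (Fin N))}
    (hch : IsCh (J :: c)) (hne : ∀ m, (TC S (J :: c) m).Nonempty) (hl : c.length + 2 = r)
    (hrN : ∀ l : Fin r, (l : ℕ) + 1 < N)
    (hcl : ∀ (l : Fin r) (i : Fin N), (i : ℕ) = l → cl i = some l)
    (hcl1 : ∀ (l : Fin r) (i : Fin N), (i : ℕ) + 1 = l → cl i ≠ some l ∧ cl i ≠ none)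
    (hcl2 : ∀ (l : Fin r) (i : Fin N), (i : ℕ) = l + 1 → (i : ℕ) + 1 < N → cl i ≠ some l ∧ cl i ≠ none) :
    HaagR (Pool.Agent.Helper96.RK.toReg (chStr S J c)) := by
  obtain ⟨c1, c2, l, c3⟩ := chain_class cl h0 h1 hch hne hl
  have hlN := hrN l
  obtain ⟨i, hi⟩ : ∃ i : Fin N, (i : ℕ) = l := ⟨⟨l, by omega⟩, rfl⟩
  obtain ⟨j, hj⟩ : ∃ j : Fin N, (j : ℕ) = l + 1 := ⟨⟨l + 1, hlN⟩, rfl⟩
  have hcli := hcl l i hi
  by_cases hiJ : i ∈ J
  · refine haag_class_pair (i := i) (j := j) (by omega) hiJ ?_ ?_ ?_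
    · intro k hk hkJ
      have h3 := hcl1 l k (by omega)
      rcases c3 k hkJ with h4 | h4
      · exact h3.2 h4
      · exact h3.1 h4
    · intro hjN hjJ
      have h3 := hcl2 l j hj hjN
      rcases c3 j hjJ with h4 | h4
      · exact h3.2 h4
      · exact h3.1 h4
    · intro k hk
      rcases c3 k hk with h4 | h4
      · exact Or.inl (h0 k h4)
      · exact Or.inr (h1 k i (h4.trans hcli.symm))
  · refine haag_class_zero fun k hk => ?_
    rcases c3 k hk with h4 | h4
    · exact h0 k h4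
    · exact absurd (c2 k i hk (h4.trans hcli.symm)) hiJ

theorem haag_sl {S : Sv P} {r : ℕ} (hN : N = r + 1) {J : Finset (Fin N)} {c : List (Finset (Fin N))}
    (hch : IsCh (J :: c)) (hne : ∀ m, (TC S (J :: c) m).Nonempty) (hl : c.length + 2 = r) :
    HaagR (Pool.Agent.Helper96.RK.toReg (chStr S J c)) := by
  obtain ⟨cl, hcl⟩ : ∃ cl : Fin N → Option (Fin r), ∀ i, cl i = if h : (i : ℕ) < r then some ⟨i, h⟩ else none :=
    ⟨_, fun _ => rfl⟩
  have hsome : ∀ (i : Fin N) (h : (i : ℕ) < r), cl i = some ⟨i, h⟩ := fun i h => by rw [hcl i, dif_pos h]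
  have hnone : ∀ i : Fin N, cl i = none → ¬ (i : ℕ) < r := by
    intro i h1 h2
    rw [hsome i h2] at h1
    exact absurd h1 (by simp)
  refine haag_cl32 cl ?_ ?_ hch hne hl ?_ ?_ ?_ ?_
  · intro i h γ
    have h2 := hnone i h
    exact lg_last32 S γ (by omega)
  · intro i j h γ
    by_cases hi : (i : ℕ) < r
    · by_cases hj : (j : ℕ) < r
      · rw [hsome i hi, hsome j hj] at h
        have h3 := Option.some.inj h
        have h2 : (⟨(i : ℕ), hi⟩ : Fin r).val = (⟨(j : ℕ), hj⟩ : Fin r).val := congrArg Fin.val h3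
        change (i : ℕ) = (j : ℕ) at h2
        rw [Fin.ext h2]
      · rw [hsome i hi, hcl j, dif_neg hj] at h
        exact absurd h (by simp)
    · by_cases hj : (j : ℕ) < r
      · rw [hsome j hj, hcl i, dif_neg hi] at h
        exact absurd h (by simp)
      · rw [lg_last32 S γ (by omega), lg_last32 S γ (by omega)]
  · intro l
    have := l.2
    omega
  · intro l i hi
    have hl2 := l.2
    rw [hsome i (by omega)]
    congr 1
    exact Fin.ext hi
  · intro l i hi
    have hl2 := l.2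
    rw [hsome i (by omega)]
    refine ⟨fun h => ?_, by simp⟩
    have h3 : (i : ℕ) = l := congrArg Fin.val (Option.some.inj h)
    omega
  · intro l i hi hiN
    have hl2 := l.2
    rw [hsome i (by omega)]
    refine ⟨fun h => ?_, by simp⟩
    have h3 : (i : ℕ) = l := congrArg Fin.val (Option.some.inj h)
    omega

theorem haag_sym {S : Sv P} {r : ℕ} (hN : N = 2 * r) (hs : ∀ γ i, S.s γ i * S.s γ (Fin.rev i) = 1)
    {J : Finset (Fin N)} {c : List (Finset (Fin N))}
    (hch : IsCh (J :: c)) (hne : ∀ m, (TC S (J :: c) m).Nonempty) (hl : c.length + 2 = r) :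
    HaagR (Pool.Agent.Helper96.RK.toReg (chStr S J c)) := by
  have hmin : ∀ i : Fin N, (i : ℕ) + 1 < N → min (i : ℕ) (N - 2 - i) < r := by
    intro i hi
    omega
  obtain ⟨cl, hcl⟩ : ∃ cl : Fin N → Option (Fin r), ∀ i, cl i = if h : (i : ℕ) + 1 < N then
      some ⟨min (i : ℕ) (N - 2 - i), hmin i h⟩ else none := ⟨_, fun _ => rfl⟩
  have hsome : ∀ (i : Fin N) (h : (i : ℕ) + 1 < N), cl i = some ⟨min (i : ℕ) (N - 2 - i), hmin i h⟩ :=
    fun i h => by rw [hcl i, dif_pos h]
  have hnone : ∀ i : Fin N, cl i = none → ¬ (i : ℕ) + 1 < N := by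
    intro i h1 h2
    rw [hsome i h2] at h1
    exact absurd h1 (by simp)
  refine haag_cl32 cl ?_ ?_ hch hne hl ?_ ?_ ?_ ?_
  · intro i h γ
    exact lg_last32 S γ (hnone i h)
  · intro i j h γ
    by_cases hi : (i : ℕ) + 1 < N
    · by_cases hj : (j : ℕ) + 1 < N
      · rw [hsome i hi, hsome j hj] at h
        have h2 : min (i : ℕ) (N - 2 - i) = min (j : ℕ) (N - 2 - j) := by
          have h3 := Option.some.inj h
          exact congrArg Fin.val h3
        rcases Nat.lt_trichotomy (i : ℕ) (j : ℕ) with h4 | h4 | h4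
        · exact lg_symm hs γ (by omega)
        · rw [Fin.ext h4]
        · exact lg_symm hs γ (by omega)
      · rw [hsome i hi, hcl j, dif_neg hj] at h
        exact absurd h (by simp)
    · by_cases hj : (j : ℕ) + 1 < N
      · rw [hsome j hj, hcl i, dif_neg hi] at h
        exact absurd h (by simp)
      · rw [lg_last32 S γ hi, lg_last32 S γ hj]
  · intro l
    have := l.2
    omega
  · intro l i hi
    have hl2 := l.2
    rw [hsome i (by omega)]
    congr 1
    refine Fin.ext ?_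
    change min (i : ℕ) (N - 2 - i) = l
    omega
  · intro l i hi
    have hl2 := l.2
    rw [hsome i (by omega)]
    refine ⟨fun h => ?_, by simp⟩
    have h3 : min (i : ℕ) (N - 2 - i) = l := congrArg Fin.val (Option.some.inj h)
    omega
  · intro l i hi hiN
    have hl2 := l.2
    rw [hsome i (by omega)]
    refine ⟨fun h => ?_, by simp⟩
    have h3 : min (i : ℕ) (N - 2 - i) = l := congrArg Fin.val (Option.some.inj h)
    omega

end Pool.Agent.Helper84.SPQ
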