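import Pool.Agent.Helper84.SPQ.Q2
import Pool.Agent.Helper84.SPQ.B7
import Pool.Agent.Helper84.SPQ.K3

/-!
# Project SPQ, block Q3: Haagerup property of the strata with a quaternionic block, chains for `SL(r + 1, ℍ)`, `SO*(4 r)`, `Sp(r, r)`

`haag_quat`. PROOF. As `haag_mid` in `U5.lean`. Gauge `κ γ` from `gaugeQ` on `good` (the set in `hgood`), off `good` any unitary `κ` (the block has four elements: reindexing matrix). `Gau T i0 (Fin 4) fQ`: `hX`: `gaugeQ`. `hXb`: `z = s_a`: the entries of `s_a κᴴ X κ` are bounded on `T.W n` (`T.cpt n`: `s_a / s_i ≤ K`), `‖det‖ = ∏ s_a/s_i ≥ 1`; `qs_smul`.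
`hC`: for `γ, γ'' = g⁻¹ γ h ∈ good` (eventually) `fQ (gg (κ γ) (κ γ'') (T.C g h γ)) = 0` EXACTLY: from `jq_m`, restricted to the block (`jq i k = 0` for `i` in the block and `k` outside, for `γ` and `γ''`): `res(m) res(jq γ'') = res(jq γ) conj (res m)`, `res (T.C g h γ) = res (S.m g h γ)`; so `A j4 = j4 conj A` for `A = κᴴ res(C) κ''`.
`haag_of_gau` with `mdlQ`: the coefficient is `q(γ)^t`, `q = 2 s_a s_{a+2}/(s_a² + s_{a+2}²)`: positivity, lower bound on `W n`, closeness and decay exactly as in `haag_pair` (`B2.lean`).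
`haag_class_quat`: as `haag_class_pair` (`K3.lean`) with `bJ_int` for `a`, `a + 3`: the gaps `a`, `a + 1`, `a + 2` are in `J` (`ha0`, `ha2`), `a - 1`, `a + 3` are not. `hgood`: on `TC S (J :: c) 1`: `1 ≤ lg (a - 1)` and `1 ≤ lg (a + 3)`. `hout c`: `s_a ≤ c s_{a+2}`: `lg (a + 1) = log (s_{a+1}/s_{a+2}) = log (s_a/s_{a+2}) ≤ log c`
(`quat_double`: `s_a = s_{a+1}`).
`haag_quat_sl`: classes `cl i = some ((i - 1)/2)` for odd `i` with `i + 1 < N`, `none` otherwise (`lg i = 0` for even `i` by `quat_double`). `haag_quat_sym`: `cl i = some (min ((i - 1)/2) ((N - 3 - i)/2))` for odd `i`, `i + 1 < N`; `lg_symm`.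
-/

set_option autoImplicit false

open Filter Topology Matrix

namespace Pool.Agent.Helper84.SPQ

open NI GN Pool.Agent.Helper90.RK Pool.Agent.Helper66.RK

variable {G : Type} [Group G] {N : ℕ} {P : PH G N}

private theorem qlow_q3 {a b K : ℝ} (ha : 0 < a) (hb : 0 < b) (hK : 1 ≤ K) (h1 : a ≤ K * b)
    (h2 : b ≤ K * a) : 1 / K ≤ 2 * (a * b) / (a ^ 2 + b ^ 2) := by
  have hK0 : 0 < K := by linarith
  rw [div_le_div_iff₀ hK0 (by positivity)]
  nlinarith [mul_le_mul_of_nonneg_left h1 ha.le, mul_le_mul_of_nonneg_left h2 hb.le]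

private theorem qup_q3 {a b c : ℝ} (ha : 0 < a) (hb : 0 < b) (hc : 0 < c) (h1 : c * b < a) :
    2 * (a * b) / (a ^ 2 + b ^ 2) ≤ 2 / c := by
  rw [div_le_div_iff₀ (by positivity) hc]
  nlinarith [mul_le_mul_of_nonneg_left h1.le ha.le, sq_nonneg b]

/-- a unitary matrix from the block to four elements -/
private theorem any_kap_q3 {b : Fin N → ℕ} {i0 : Fin N} {a : ℕ} (hb : ∀ k : Fin N, b k = b i0 ↔ (a ≤ (k : ℕ) ∧ (k : ℕ) ≤ a + 3))
    (haN : a + 3 < N) : ∃ κ : Matrix (Bk b i0) (Fin 4) ℂ, κᴴ * κ = 1 ∧ κ * κᴴ = 1 := by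
  classical
  obtain ⟨e⟩ : Nonempty (Bk b i0 ≃ Fin 4) := ⟨{
    toFun := fun x => ⟨(x.1 : ℕ) - a, by have := ((hb x.1).1 x.2).2; omega⟩
    invFun := fun y => ⟨⟨a + y, by omega⟩, (hb _).2 ⟨Nat.le_add_right _ _, by
      change a + (y : ℕ) ≤ a + 3
      omega⟩⟩
    left_inv := fun x => by
      have := ((hb x.1).1 x.2).1
      apply Subtype.ext
      apply Fin.ext
      change a + ((x.1 : ℕ) - a) = (x.1 : ℕ)
      omega
    right_inv := fun y => by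
      apply Fin.ext
      change a + (y : ℕ) - a = y
      omega }⟩
  refine ⟨(1 : Matrix (Fin 4) (Fin 4) ℂ).submatrix e id, ?_, ?_⟩
  · rw [conjTranspose_submatrix, conjTranspose_one, Matrix.submatrix_mul_equiv, Matrix.one_mul, submatrix_id_id]
  · ext x y
    rw [Matrix.mul_apply]
    simp [Matrix.one_apply, e.injective.eq_iff]

/-- the singular value matrix, rescaled and changed outside of the block -/
private theorem mod_q3 {S : Sv P} (T : Str S) {i0 : Fin N} {K : ℝ} (γ : G) (hi : ∀ k : Fin N, T.b k = T.b i0 → (i0 : ℕ) ≤ (k : ℕ))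
    (hK : ∀ i j, T.b i = T.b j → S.s γ i ≤ K * S.s γ j) :
    ∃ A : MN N, res T.b i0 A = res T.b i0 (((S.s γ i0 : ℝ) : ℂ) • S.X γ) ∧ A ∈ Kb T.b (max K 1) 1 ∧ True := by
  classical
  obtain ⟨d, hd⟩ : ∃ d : Fin N → ℝ, ∀ i, d i = if T.b i = T.b i0 then S.s γ i0 / S.s γ i else 1 := ⟨_, fun _ => rfl⟩
  have hd1 : ∀ i, 1 ≤ d i := by
    intro i
    rw [hd]
    split_ifs with h
    · rw [le_div_iff₀ (S.pos γ i), one_mul]
      exact S.anti γ (Fin.le_def.2 (hi i h))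
    · exact le_rfl
  have hd2 : ∀ i, d i ≤ max K 1 := by
    intro i
    rw [hd]
    split_ifs with h
    · rw [div_le_iff₀ (S.pos γ i)]
      exact (hK i0 i h.symm).trans (mul_le_mul_of_nonneg_right (le_max_left _ _) (S.pos γ i).le)
    · exact le_max_right _ _
  refine ⟨diagonal fun i => ((d i : ℝ) : ℂ), ?_, ⟨?_, ?_, ?_⟩, trivial⟩
  · ext x y
    unfold res Sv.X
    rw [submatrix_apply, submatrix_apply, Matrix.smul_apply, diagonal_apply, diagonal_apply]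
    split_ifs with hxy
    · rw [hd, if_pos x.2, smul_eq_mul]
      push_cast
      rw [div_eq_mul_inv]
    · rw [smul_zero]
  · ext x y
    rw [D_apply]
    split_ifs with h
    · rfl
    · rw [diagonal_apply_ne]
      intro e
      exact h (by rw [e])
  · intro i j
    rw [diagonal_apply]
    split_ifs with hij
    · rw [Complex.norm_real, Real.norm_of_nonneg (by linarith [hd1 i])]
      exact hd2 i
    · rw [norm_zero]
      exact zero_le_one.trans (le_max_right _ _)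
  · rw [det_diagonal, norm_prod]
    have : ∀ i ∈ (Finset.univ : Finset (Fin N)), (1 : ℝ) ≤ ‖((d i : ℝ) : ℂ)‖ := by
      intro i _
      rw [Complex.norm_real, Real.norm_of_nonneg (by linarith [hd1 i])]
      exact hd1 i
    calc (1 : ℝ) = ∏ _i : Fin N, (1 : ℝ) := by rw [Finset.prod_const_one]
      _ ≤ _ := Finset.prod_le_prod (fun _ _ => zero_le_one) this

/-- the cocycle is quaternionic in the gauges -/
private theorem close_q3 {S : Sv P} (T : Str S) {i0 : Fin N} {k k' : Matrix (Bk T.b i0) (Fin 4) ℂ} (u1 : kᴴ * k = 1) (u2 : k * kᴴ = 1)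
    (v1 : k'ᴴ * k' = 1) (v2 : k' * k'ᴴ = 1) {g h γ : G} {J J' : MN N}
    (hm : S.m g h γ * J' = J * (S.m g h γ)ᴴᵀ)
    (hJ : ∀ x y : Fin N, T.b x = T.b i0 → T.b y ≠ T.b i0 → J x y = 0)
    (hJ' : ∀ x y : Fin N, T.b x = T.b i0 → T.b y ≠ T.b i0 → J' y x = 0)
    (e : kᴴ * res T.b i0 J * kᴴᵀ = j4) (e' : k'ᴴ * res T.b i0 J' * k'ᴴᵀ = j4) :
    gg k k' (T.C g h γ) * j4 = j4 * (gg k k' (T.C g h γ))ᴴᵀ := by
  classical
  obtain ⟨m, hmd⟩ : ∃ m : MN N, m = S.m g h γ := ⟨_, rfl⟩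
  have hC : res T.b i0 (T.C g h γ) = res T.b i0 m := by
    ext x y
    unfold res Str.C
    rw [submatrix_apply, submatrix_apply, D_apply, if_pos (x.2.trans y.2.symm), hmd]
  have hsum : ∀ f : Fin N → ℂ, (∀ z, T.b z ≠ T.b i0 → f z = 0) → ∑ z, f z = ∑ z : Bk T.b i0, f z.1 := by
    intro f hf
    rw [← Finset.sum_subtype (Finset.univ.filter fun z => T.b z = T.b i0) (fun z => by simp) f, Finset.sum_filter]
    refine Finset.sum_congr rfl fun z _ => ?_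
    split_ifs with hz
    · rfl
    · exact hf z hz
  have r1 : res T.b i0 m * res T.b i0 J' = res T.b i0 (m * J') := by
    ext x y
    unfold res
    rw [Matrix.mul_apply, submatrix_apply, Matrix.mul_apply]
    rw [hsum (fun z => m x.1 z * J' z y.1)]
    · rfl
    · intro z hz
      change m x.1 z * J' z y.1 = 0
      rw [hJ' y.1 z y.2 hz, mul_zero]
  have r2 : res T.b i0 (J * mᴴᵀ) = res T.b i0 J * (res T.b i0 m)ᴴᵀ := by
    ext x y
    unfold res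
    rw [Matrix.mul_apply, submatrix_apply, Matrix.mul_apply]
    rw [hsum (fun z => J x.1 z * mᴴᵀ z y.1)]
    · rfl
    · intro z hz
      change J x.1 z * mᴴᵀ z y.1 = 0
      rw [hJ x.1 z x.2 hz, zero_mul]
  have hm' : res T.b i0 m * res T.b i0 J' = res T.b i0 J * (res T.b i0 m)ᴴᵀ := by
    rw [r1, hmd, hm, ← hmd, r2]
  have cj : ∀ {a b c : Type} [Fintype b] (A : Matrix a b ℂ) (B : Matrix b c ℂ), (A * B)ᴴᵀ = Aᴴᵀ * Bᴴᵀ := by
    intro a b c _ A B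
    rw [conjTranspose_mul, transpose_mul]
  have u3 : kᴴᵀ * (kᴴ)ᴴᵀ = 1 := by
    rw [← cj, u2, conjTranspose_one, transpose_one]
  unfold gg
  rw [hC]
  calc kᴴ * res T.b i0 m * k' * j4 = kᴴ * res T.b i0 m * (k' * k'ᴴ) * res T.b i0 J' * k'ᴴᵀ := by
        rw [← e']
        simp only [Matrix.mul_assoc]
    _ = kᴴ * (res T.b i0 m * res T.b i0 J') * k'ᴴᵀ := by
        rw [v2, Matrix.mul_one]
        simp only [Matrix.mul_assoc]
    _ = kᴴ * res T.b i0 J * (kᴴᵀ * (kᴴ)ᴴᵀ) * (res T.b i0 m)ᴴᵀ * k'ᴴᵀ := by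
        rw [hm', u3, Matrix.mul_one]
        simp only [Matrix.mul_assoc]
    _ = j4 * ((kᴴ * res T.b i0 m * k')ᴴᵀ) := by
        rw [cj, cj, ← e]
        simp only [Matrix.mul_assoc]

theorem haag_quat {S : Sv P} {j : MN N} (h1 : jᴴ * j = 1) (h2 : jᵀ = -j) (h3 : ∀ g, P.ι g * j = j * (P.ι g)ᴴᵀ)
    (T : Str S) {a : ℕ} (ha : Even a) (haN : a + 3 < N) {i0 i2 : Fin N} (hi0 : (i0 : ℕ) = a) (hi2 : (i2 : ℕ) = a + 2)
    (hb : ∀ k : Fin N, T.b k = T.b i0 ↔ (a ≤ (k : ℕ) ∧ (k : ℕ) ≤ a + 3))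
    (hgood : ∀ n, {γ | (∀ k : Fin N, (k : ℕ) < a → S.s γ i0 < S.s γ k) ∧ ∀ k : Fin N, a + 3 < (k : ℕ) → S.s γ k < S.s γ i2} ∈ T.F n)
    (hout : ∀ c : ℝ, ∃ n, ∀ γ, S.s γ i0 ≤ c * S.s γ i2 → γ ∈ T.W n) : HaagR (Pool.Agent.Helper96.RK.toReg T) := by
  classical
  -- the last index of the block
  have hs23 : ∀ γ, S.s γ i2 = S.s γ ⟨a + 3, haN⟩ := fun γ =>
    quat_double h1 h2 h3 S γ i2 ⟨a + 3, haN⟩ (by rw [hi2]) (by rw [hi2]; exact ha.add even_two)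
  have hle0 : ∀ γ, ∀ k : Fin N, a ≤ (k : ℕ) → S.s γ k ≤ S.s γ i0 := fun γ k hk =>
    S.anti γ (Fin.le_def.2 (by omega))
  have hge2 : ∀ γ, ∀ k : Fin N, (k : ℕ) ≤ a + 3 → S.s γ i2 ≤ S.s γ k := by
    intro γ k hk
    rw [hs23 γ]
    exact S.anti γ (Fin.le_def.2 hk)
  obtain ⟨good, hgd⟩ : ∃ good : Set G, good = {γ | (∀ k : Fin N, (k : ℕ) < a → S.s γ i0 < S.s γ k) ∧
      ∀ k : Fin N, a + 3 < (k : ℕ) → S.s γ k < S.s γ i2} := ⟨_, rfl⟩
  have hsupp : ∀ γ ∈ good, ∀ i k : Fin N, T.b i = T.b i0 → T.b k ≠ T.b i0 → S.s γ i ≠ S.s γ k := by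
    intro γ hγ i k hi hk
    rw [hgd] at hγ
    obtain ⟨g1, g2⟩ := hγ
    have hi' := (hb i).1 hi
    have hk' : ¬ (a ≤ (k : ℕ) ∧ (k : ℕ) ≤ a + 3) := fun h => hk ((hb k).2 h)
    rcases Nat.lt_or_ge (k : ℕ) a with h5 | h5
    · exact ((hle0 γ i hi'.1).trans_lt (g1 k h5)).ne
    · exact ((g2 k (by omega)).trans_le (hge2 γ i hi'.2)).ne'
  have hex : ∀ γ : G, ∃ κ : Matrix (Bk T.b i0) (Fin 4) ℂ, κᴴ * κ = 1 ∧ κ * κᴴ = 1 ∧ (γ ∈ good →
      κᴴ * res T.b i0 (jq S j γ) * κᴴᵀ = j4 ∧ fQ (gg κ κ (S.X γ)) = 0 ∧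
      4 * Real.sqrt ‖(gg κ κ (S.X γ)).det‖ / ns (gg κ κ (S.X γ)) =
        2 * (S.s γ i0 * S.s γ i2) / (S.s γ i0 ^ 2 + S.s γ i2 ^ 2)) := by
    intro γ
    by_cases hγ : γ ∈ good
    · have hγ' := hγ
      rw [hgd] at hγ'
      obtain ⟨κ, a1, a2, a3, a4, a5⟩ := gaugeQ S h1 h2 h3 ha haN hi0 hi2 T.b γ hb hγ'.1 hγ'.2
      exact ⟨κ, a1, a2, fun _ => ⟨a3, a4, a5⟩⟩
    · obtain ⟨κ, a1, a2⟩ := any_kap_q3 hb haN
      exact ⟨κ, a1, a2, fun h => absurd h hγ⟩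
  choose κ k1 k2 k3 using hex
  have hT : T.b i0 = T.b i2 := ((hb i2).2 ⟨by omega, by omega⟩).symm
  obtain ⟨Ga, hGk, hGg⟩ : ∃ Ga : Gau T i0 (Fin 4) fQ, Ga.κ = κ ∧ Ga.good = good :=
    ⟨{ κ := κ
       u1 := k1
       u2 := k2
       good := good
       hgood := fun n => by
         rw [hgd]
         exact hgood n
       hX := fun γ hγ => (k3 γ hγ).2.1
       hXb := by
         intro n
         obtain ⟨K, hK⟩ := T.cpt n
         obtain ⟨R', r', hr', hRr⟩ := gg_bdd T.b i0 (Fin 4) (R := max K 1) (r := 1) one_pos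
         refine ⟨R', r', hr', fun γ hW hγ => ⟨((S.s γ i0 : ℝ) : ℂ), ?_, ?_⟩⟩
         · exact_mod_cast (S.pos γ i0).ne'
         obtain ⟨A, hA1, hA2, hA3⟩ := mod_q3 (S := S) T (i0 := i0) (K := K) γ (fun k hk => by rw [hi0]; exact ((hb k).1 hk).1)
           (hK γ hW)
         obtain ⟨b1, b2⟩ := hRr (κ γ) (κ γ) (k1 γ) (k2 γ) (k1 γ) (k2 γ) A hA2
         have e1 : gg (κ γ) (κ γ) A = ((S.s γ i0 : ℝ) : ℂ) • gg (κ γ) (κ γ) (S.X γ) := by
           rw [← gg_smul]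
           unfold gg
           rw [hA1]
         rw [e1] at b1 b2
         refine ⟨?_, b1, b2⟩
         rw [fS_eq]
         refine qs_smul (fS_eq.1 (k3 γ hγ).2.1) ?_
         exact_mod_cast (S.pos γ i0).ne'
       hC := by
         intro g h n
         obtain ⟨n', hsh⟩ := T.shift g h n
         have e1 : ∀ᶠ γ in T.F n, γ ∈ good := by
           rw [hgd]
           exact hgood n
         have e2 : ∀ᶠ γ in T.F n, g⁻¹ * γ * h ∈ good := by
           refine hsh.eventually ?_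
           rw [hgd]
           exact hgood n'
         refine tendsto_const_nhds.congr' ?_
         filter_upwards [e1, e2] with γ c1 c2
         symm
         rw [fS_eq]
         refine ⟨1, norm_one, ?_⟩
         rw [one_smul]
         exact close_q3 T (k1 _) (k2 _) (k1 _) (k2 _) (jq_m S h3 g h γ)
           (fun i k hi hk => by
             by_contra hne
             exact hsupp γ c1 i k hi hk (jq_supp S h1 h3 γ i k hne))
           (fun i k hi hk => by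
             by_contra hne
             exact hsupp _ c2 i k hi hk (jq_supp S h1 h3 _ k i hne).symm)
           (k3 γ c1).1 (k3 _ c2).1 }, rfl, rfl⟩
  have hXX : ∀ γ ∈ Ga.good, Ga.XX γ ∈ HH fQ ∧ 4 * Real.sqrt ‖(Ga.XX γ).det‖ / ns (Ga.XX γ) =
      2 * (S.s γ i0 * S.s γ i2) / (S.s γ i0 ^ 2 + S.s γ i2 ^ 2) := by
    intro γ hγ
    rw [hGg] at hγ
    unfold Gau.XX
    rw [hGk]
    refine ⟨⟨(k3 γ hγ).2.1, ?_⟩, (k3 γ hγ).2.2⟩
    intro h
    have h5 := (k3 γ hγ).2.2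
    rw [h, norm_zero, Real.sqrt_zero, mul_zero, zero_div] at h5
    have p0 := S.pos γ i0
    have p2 := S.pos γ i2
    have h6 : 0 < 2 * (S.s γ i0 * S.s γ i2) / (S.s γ i0 ^ 2 + S.s γ i2 ^ 2) := by positivity
    exact h6.ne h5
  have hKn : ∀ n, ∃ K : ℝ, 1 ≤ K ∧ ∀ γ ∈ T.W n,
      1 / K ≤ 2 * (S.s γ i0 * S.s γ i2) / (S.s γ i0 ^ 2 + S.s γ i2 ^ 2) := by
    intro n
    obtain ⟨K, hK⟩ := T.cpt n
    refine ⟨max K 1, le_max_right _ _, fun γ hγ => ?_⟩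
    have hi := S.pos γ i0
    have hj := S.pos γ i2
    refine qlow_q3 hi hj (le_max_right _ _) ?_ ?_
    · exact (hK γ hγ i0 i2 hT).trans (mul_le_mul_of_nonneg_right (le_max_left _ _) hj.le)
    · exact (hK γ hγ i2 i0 hT.symm).trans (mul_le_mul_of_nonneg_right (le_max_left _ _) hi.le)
  refine haag_of_gau Ga (fS_isG j4) fun n0 ε hε => ?_
  obtain ⟨K0, hK01, hK0⟩ := hKn n0
  have hK0' : (0 : ℝ) < 1 / K0 := one_div_pos.2 (by linarith)
  obtain ⟨t, ht, ht2⟩ : ∃ t : ℝ, 0 < t ∧ 1 - ε ^ 2 / 2 < (1 / K0) ^ t := by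
    have h1 : Tendsto (fun t : ℝ => (1 / K0) ^ t) (𝓝 0) (𝓝 1) := by
      have h2 := (Real.continuousAt_const_rpow (b := (0 : ℝ)) hK0'.ne').tendsto
      rwa [Real.rpow_zero] at h2
    have h3 : ∀ᶠ t in 𝓝 (0 : ℝ), 1 - ε ^ 2 / 2 < (1 / K0) ^ t :=
      h1.eventually (lt_mem_nhds (by nlinarith))
    have h4 : ∀ᶠ t in 𝓝[>] (0 : ℝ), 1 - ε ^ 2 / 2 < (1 / K0) ^ t := h3.filter_mono nhdsWithin_le_nhds
    obtain ⟨t, h5, h6⟩ := (h4.and self_mem_nhdsWithin).exists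
    exact ⟨t, h6, h5⟩
  obtain ⟨q, hq⟩ : ∃ q : G → ℝ, q = fun γ => 2 * (S.s γ i0 * S.s γ i2) / (S.s γ i0 ^ 2 + S.s γ i2 ^ 2) :=
    ⟨_, rfl⟩
  have hq0 : ∀ γ, 0 ≤ q γ := by
    intro γ
    have hi := S.pos γ i0
    have hj := S.pos γ i2
    rw [hq]
    positivity
  obtain ⟨L, i1', i2', i3', Mo, hMo⟩ := mdlQ ht
  have hin : ∀ γ ∈ Ga.good, (inner ℂ (Mo.π (Ga.XX γ) Mo.v) Mo.v : ℂ) = ((q γ ^ t : ℝ) : ℂ) := by
    intro γ hγ
    obtain ⟨a1, a2⟩ := hXX γ hγ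
    rw [← inner_conj_symm, hMo _ a1, a2, Complex.conj_ofReal, hq]
  refine ⟨L, i1', i2', i3', Mo, fun γ hγ => ?_, fun n => ?_, fun γ hγ hW => ?_, fun δ hδ => ?_⟩
  · rw [hin γ hγ, Complex.ofReal_re]
    exact Real.rpow_nonneg (hq0 γ) _
  · obtain ⟨K, hK1, hK⟩ := hKn n
    have hK' : (0 : ℝ) < 1 / K := one_div_pos.2 (by linarith)
    refine ⟨(1 / K) ^ t, Real.rpow_pos_of_pos hK' t, fun γ hW hγ => ?_⟩
    rw [hin γ hγ, Complex.ofReal_re, hq]
    exact Real.rpow_le_rpow hK'.le (hK γ hW) ht.le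
  · have h5 : ‖Mo.π (Ga.XX γ) Mo.v - Mo.v‖ ^ 2 = 2 - 2 * q γ ^ t := by
      rw [@norm_sub_sq ℂ, LinearIsometryEquiv.norm_map, Mo.nv, hin γ hγ]
      simp only [RCLike.re_to_complex, Complex.ofReal_re]
      ring
    have h6 : (1 / K0) ^ t ≤ q γ ^ t := by
      rw [hq]
      exact Real.rpow_le_rpow hK0'.le (hK0 γ hW) ht.le
    have h7 : ‖Mo.π (Ga.XX γ) Mo.v - Mo.v‖ ^ 2 ≤ ε ^ 2 := by
      rw [h5]
      linarith
    exact (sq_le_sq₀ (norm_nonneg _) hε.le).1 h7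
  · have hδt : 0 < δ ^ (1 / t) := Real.rpow_pos_of_pos hδ _
    have hc : 0 < 2 / δ ^ (1 / t) + 1 := by positivity
    obtain ⟨n, hn⟩ := hout (2 / δ ^ (1 / t) + 1)
    refine ⟨n, fun γ hγg hγ => ?_⟩
    have h1 : (2 / δ ^ (1 / t) + 1) * S.s γ i2 < S.s γ i0 := by
      by_contra hcon
      exact hγ (hn γ (not_lt.1 hcon))
    have h2 : q γ ≤ 2 / (2 / δ ^ (1 / t) + 1) := by
      rw [hq]
      exact qup_q3 (S.pos γ i0) (S.pos γ i2) hc h1
    have h3 : 2 / (2 / δ ^ (1 / t) + 1) ≤ δ ^ (1 / t) := by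
      rw [div_le_iff₀ hc, mul_add, mul_div_cancel₀ _ hδt.ne', mul_one]
      linarith
    rw [hin γ hγg, Complex.norm_real, Real.norm_of_nonneg (Real.rpow_nonneg (hq0 γ) t)]
    calc q γ ^ t ≤ (δ ^ (1 / t)) ^ t := Real.rpow_le_rpow (hq0 γ) (h2.trans h3) ht.le
      _ = δ := by
        rw [← Real.rpow_mul hδ.le, one_div_mul_cancel ht.ne', Real.rpow_one]

open Pool.Agent.Helper96.RK in
theorem haag_class_quat {S : Sv P} {j : MN N} (h1 : jᴴ * j = 1) (h2 : jᵀ = -j) (h3 : ∀ g, P.ι g * j = j * (P.ι g)ᴴᵀ)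
    {J : Finset (Fin N)} {c : List (Finset (Fin N))} {a : ℕ} (ha : Even a) (haN : a + 3 < N) {i1 : Fin N} (hi1 : (i1 : ℕ) = a + 1)
    (hi : i1 ∈ J) (he : ∀ k : Fin N, Even (k : ℕ) → k ∈ J) (hl : ∀ k : Fin N, (k : ℕ) + 1 = a → k ∉ J)
    (hr : ∀ k : Fin N, (k : ℕ) = a + 3 → a + 4 < N → k ∉ J)
    (h : ∀ k ∈ J, (∀ γ, lg S γ k = 0) ∨ ∀ γ, lg S γ k = lg S γ i1) : HaagR (Pool.Agent.Helper96.RK.toReg (chStr S J c)) := by
  have h1aN : a + 1 < N := by omega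
  have h2aN : a + 2 < N := by omega
  have h0aN : a < N := by omega
  refine haag_quat h1 h2 h3 (chStr S J c) ha haN (i0 := ⟨a, h0aN⟩) (i2 := ⟨a + 2, h2aN⟩) rfl rfl ?_ ?_ ?_
  · intro k
    exact bJ_int (J := J) (a := a) (b := a + 3) (by omega) haN
      (fun m hm1 hm2 => by
        rcases (show (m : ℕ) = a ∨ (m : ℕ) = a + 1 ∨ (m : ℕ) = a + 2 by omega) with e | e | e
        · exact he m (by rw [e]; exact ha)
        · have e' : m = i1 := Fin.ext (by omega)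
          rw [e']
          exact hi
        · exact he m (by rw [e]; exact ha.add even_two))
      hl hr (i0 := ⟨a, h0aN⟩) rfl k
  · intro n
    refine Filter.mem_of_superset (TC_mem_FC S J c 1 n) fun γ hγ => ?_
    have hone : ∀ k : Fin N, k ∉ J → 1 ≤ lg S γ k := by
      intro k hk
      have h5 := hγ J List.mem_cons_self k hk
      have h6 := sum_lg_nonneg S γ J
      push_cast at h5
      linarith
    have hstep : ∀ (k k' : Fin N), (k' : ℕ) = k + 1 → k ∉ J → S.s γ k' < S.s γ k := by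
      intro k k' hkk hk
      have h5 := hone k hk
      have h6 : (1 : ℝ) < gp S γ k := by
        rw [gp_eq_exp S γ k]
        exact Real.one_lt_exp_iff.2 (by linarith)
      have hkN : (k : ℕ) + 1 < N := by have := k'.2; omega
      unfold gp at h6
      rw [dif_pos hkN] at h6
      have e : (⟨(k : ℕ) + 1, hkN⟩ : Fin N) = k' := Fin.ext hkk.symm
      rwa [e, one_lt_div (S.pos γ k')] at h6
    refine ⟨fun k hk => ?_, fun k hk => ?_⟩
    · have h5 := hstep ⟨a - 1, by omega⟩ ⟨a, h0aN⟩ (by simp; omega) (hl _ (by simp; omega))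
      refine h5.trans_le (S.anti γ (Fin.le_def.2 ?_))
      change (k : ℕ) ≤ a - 1
      omega
    · have hkN := k.2
      have h4 : a + 4 < N := by omega
      have h5 := hstep ⟨a + 3, haN⟩ ⟨a + 4, h4⟩ rfl (hr _ rfl h4)
      refine lt_of_le_of_lt (S.anti γ (Fin.le_def.2 ?_)) (h5.trans_le (S.anti γ (Fin.le_def.2 ?_)))
      · change a + 4 ≤ (k : ℕ)
        omega
      · change a + 2 ≤ a + 3
        omega
  · intro c'
    refine ⟨⌈Real.log (max c' 1)⌉₊, fun γ hγ => ?_⟩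
    have h0 : (0 : ℝ) ≤ ⌈Real.log (max c' 1)⌉₊ := Nat.cast_nonneg _
    have hgi : lg S γ i1 ≤ ⌈Real.log (max c' 1)⌉₊ := by
      refine le_trans ?_ (Nat.le_ceil _)
      unfold lg
      refine Real.log_le_log (lt_of_lt_of_le one_pos (one_le_gp S γ i1)) ?_
      have hiN : (i1 : ℕ) + 1 < N := by omega
      unfold gp
      rw [dif_pos hiN]
      have e : (⟨(i1 : ℕ) + 1, hiN⟩ : Fin N) = ⟨a + 2, h2aN⟩ := Fin.ext (by
        change (i1 : ℕ) + 1 = a + 2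
        omega)
      rw [e, div_le_iff₀ (S.pos γ _)]
      have h5 : S.s γ i1 ≤ S.s γ ⟨a, h0aN⟩ := S.anti γ (Fin.le_def.2 (by
        change a ≤ (i1 : ℕ)
        omega))
      exact h5.trans (hγ.trans (mul_le_mul_of_nonneg_right (le_max_left _ _) (S.pos γ _).le))
    have h2 : γ ∈ WC S J ⌈Real.log (max c' 1)⌉₊ := by
      intro k hk
      rcases h k hk with h3 | h3
      · rw [h3 γ]
        exact h0
      · rw [h3 γ]
        exact hgi
    exact h2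

/-- gaps of even index are trivial -/
private theorem lg_even_q3 {S : Sv P} {j : MN N} (h1 : jᴴ * j = 1) (h2 : jᵀ = -j) (h3 : ∀ g, P.ι g * j = j * (P.ι g)ᴴᵀ)
    (γ : G) {i : Fin N} (hi : Even (i : ℕ)) : Pool.Agent.Helper96.RK.lg S γ i = 0 := by
  unfold Pool.Agent.Helper96.RK.lg Pool.Agent.Helper96.RK.gp
  split_ifs with h
  · rw [quat_double h1 h2 h3 S γ i ⟨(i : ℕ) + 1, h⟩ rfl hi, div_self (S.pos γ _).ne', Real.log_one]
  · exact Real.log_one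

private theorem lg_last_q3 {S : Sv P} (γ : G) {i : Fin N} (hi : ¬ (i : ℕ) + 1 < N) : Pool.Agent.Helper96.RK.lg S γ i = 0 := by
  unfold Pool.Agent.Helper96.RK.lg Pool.Agent.Helper96.RK.gp
  rw [dif_neg hi, Real.log_one]

open Pool.Agent.Helper96.RK in
private theorem haag_clq3 {S : Sv P} {j : MN N} (h1 : jᴴ * j = 1) (h2 : jᵀ = -j) (h3 : ∀ g, P.ι g * j = j * (P.ι g)ᴴᵀ)
    {r : ℕ} (cl : Fin N → Option (Fin r))
    (hev : ∀ i : Fin N, Even (i : ℕ) → cl i = none)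
    (h0 : ∀ i, cl i = none → ∀ γ, lg S γ i = 0)
    (hc : ∀ i j, cl i = cl j → ∀ γ, lg S γ i = lg S γ j) {J : Finset (Fin N)} {c : List (Finset (Fin N))}
    (hch : IsCh (J :: c)) (hne : ∀ m, (TC S (J :: c) m).Nonempty) (hl : c.length + 2 = r)
    (hrN : ∀ l : Fin r, 2 * (l : ℕ) + 3 < N)
    (hcl : ∀ (l : Fin r) (i : Fin N), (i : ℕ) = 2 * l + 1 → cl i = some l)
    (hcl1 : ∀ (l : Fin r) (i : Fin N), (i : ℕ) + 1 = 2 * l → cl i ≠ some l ∧ cl i ≠ none)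
    (hcl2 : ∀ (l : Fin r) (i : Fin N), (i : ℕ) = 2 * l + 3 → (i : ℕ) + 1 < N → cl i ≠ some l ∧ cl i ≠ none) :
    HaagR (Pool.Agent.Helper96.RK.toReg (chStr S J c)) := by
  obtain ⟨c1, c2, l, c3⟩ := chain_class cl h0 hc hch hne hl
  have hlN := hrN l
  obtain ⟨i, hi⟩ : ∃ i : Fin N, (i : ℕ) = 2 * (l : ℕ) + 1 := ⟨⟨2 * (l : ℕ) + 1, by omega⟩, rfl⟩
  have hcli := hcl l i hi
  by_cases hiJ : i ∈ J
  · refine haag_class_quat h1 h2 h3 (even_two_mul (l : ℕ)) hlN hi hiJ (fun k hk => c1 k (hev k hk)) ?_ ?_ ?_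
    · intro k hk hkJ
      have h3 := hcl1 l k hk
      rcases c3 k hkJ with h4 | h4
      · exact h3.2 h4
      · exact h3.1 h4
    · intro k hk hkN hkJ
      have h3 := hcl2 l k hk (by omega)
      rcases c3 k hkJ with h4 | h4
      · exact h3.2 h4
      · exact h3.1 h4
    · intro k hk
      rcases c3 k hk with h4 | h4
      · exact Or.inl (h0 k h4)
      · exact Or.inr (hc k i (h4.trans hcli.symm))
  · refine haag_class_zero fun k hk => ?_
    rcases c3 k hk with h4 | h4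
    · exact h0 k h4
    · exact absurd (c2 k i hk (h4.trans hcli.symm)) hiJ

open Pool.Agent.Helper96.RK in
theorem haag_quat_sl {S : Sv P} {j : MN N} (h1 : jᴴ * j = 1) (h2 : jᵀ = -j) (h3 : ∀ g, P.ι g * j = j * (P.ι g)ᴴᵀ)
    {r : ℕ} (hN : N = 2 * (r + 1)) {J : Finset (Fin N)} {c : List (Finset (Fin N))}
    (hch : IsCh (J :: c)) (hne : ∀ m, (TC S (J :: c) m).Nonempty) (hl : c.length + 2 = r) :
    HaagR (Pool.Agent.Helper96.RK.toReg (chStr S J c)) := by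
  obtain ⟨cl, hcl⟩ : ∃ cl : Fin N → Option (Fin r), ∀ i, cl i = if h : ¬ Even (i : ℕ) ∧ (i : ℕ) + 1 < N then
      some ⟨((i : ℕ) - 1) / 2, by omega⟩ else none := ⟨_, fun _ => rfl⟩
  have hsome : ∀ (i : Fin N) (h : ¬ Even (i : ℕ) ∧ (i : ℕ) + 1 < N), ∃ l : Fin r, cl i = some l ∧ (i : ℕ) = 2 * (l : ℕ) + 1 := by
    intro i h
    refine ⟨⟨((i : ℕ) - 1) / 2, by omega⟩, by rw [hcl i, dif_pos h], ?_⟩
    obtain ⟨m, hm⟩ := Nat.not_even_iff_odd.1 h.1
    change (i : ℕ) = 2 * (((i : ℕ) - 1) / 2) + 1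
    omega
  have hnone : ∀ i : Fin N, cl i = none → Even (i : ℕ) ∨ ¬ (i : ℕ) + 1 < N := by
    intro i h
    by_contra hcon
    push Not at hcon
    obtain ⟨l, hl', -⟩ := hsome i ⟨hcon.1, hcon.2⟩
    rw [hl'] at h
    exact absurd h (by simp)
  have hz : ∀ i, cl i = none → ∀ γ, lg S γ i = 0 := by
    intro i h γ
    rcases hnone i h with h4 | h4
    · exact lg_even_q3 h1 h2 h3 γ h4
    · exact lg_last_q3 γ h4
  have hsm : ∀ (i : Fin N) (l : Fin r), cl i = some l → (i : ℕ) = 2 * (l : ℕ) + 1 := by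
    intro i l h
    by_cases h4 : ¬ Even (i : ℕ) ∧ (i : ℕ) + 1 < N
    · obtain ⟨l', h5, h6⟩ := hsome i h4
      rw [h5] at h
      rw [← Option.some.inj h]
      exact h6
    · rw [hcl i, dif_neg h4] at h
      exact absurd h (by simp)
  refine haag_clq3 h1 h2 h3 cl ?_ hz ?_ hch hne hl ?_ ?_ ?_ ?_
  · intro i hi
    rw [hcl i, dif_neg (fun h => h.1 hi)]
  · intro i k h γ
    cases hci : cl i with
    | none => rw [hz i hci γ, hz k (h ▸ hci) γ]
    | some l =>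
      have e1 := hsm i l hci
      have e2 := hsm k l (h ▸ hci)
      rw [Fin.ext (e1.trans e2.symm)]
  · intro l
    have := l.2
    omega
  · intro l i hi
    have hl2 := l.2
    obtain ⟨l', h5, h6⟩ := hsome i ⟨Nat.not_even_iff_odd.2 ⟨l, hi⟩, by omega⟩
    rw [h5]
    congr 1
    exact Fin.ext (by omega)
  · intro l i hi
    have hl2 := l.2
    obtain ⟨l', h5, h6⟩ := hsome i ⟨by rw [Nat.even_iff]; omega, by omega⟩
    rw [h5]
    refine ⟨fun h => ?_, by simp⟩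
    have h7 := Option.some.inj h
    rw [h7] at h6
    omega
  · intro l i hi hiN
    have hl2 := l.2
    obtain ⟨l', h5, h6⟩ := hsome i ⟨by rw [Nat.even_iff]; omega, hiN⟩
    rw [h5]
    refine ⟨fun h => ?_, by simp⟩
    have h7 := Option.some.inj h
    rw [h7] at h6
    omega

open Pool.Agent.Helper96.RK in
theorem haag_quat_sym {S : Sv P} {j : MN N} (h1 : jᴴ * j = 1) (h2 : jᵀ = -j) (h3 : ∀ g, P.ι g * j = j * (P.ι g)ᴴᵀ)
    {r : ℕ} (hN : N = 4 * r) (hs : ∀ γ i, S.s γ i * S.s γ (Fin.rev i) = 1) {J : Finset (Fin N)} {c : List (Finset (Fin N))}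
    (hch : IsCh (J :: c)) (hne : ∀ m, (TC S (J :: c) m).Nonempty) (hl : c.length + 2 = r) :
    HaagR (Pool.Agent.Helper96.RK.toReg (chStr S J c)) := by
  obtain ⟨cl, hcl⟩ : ∃ cl : Fin N → Option (Fin r), ∀ i, cl i = if h : ¬ Even (i : ℕ) ∧ (i : ℕ) + 1 < N then
      some ⟨min (((i : ℕ) - 1) / 2) ((N - 3 - (i : ℕ)) / 2), by omega⟩ else none := ⟨_, fun _ => rfl⟩
  have hsome : ∀ (i : Fin N) (h : ¬ Even (i : ℕ) ∧ (i : ℕ) + 1 < N), ∃ l : Fin r, cl i = some l ∧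
      ((i : ℕ) = 2 * (l : ℕ) + 1 ∨ (i : ℕ) + 2 * (l : ℕ) + 3 = N) ∧ (l : ℕ) = min (((i : ℕ) - 1) / 2) ((N - 3 - (i : ℕ)) / 2) := by
    intro i h
    refine ⟨⟨min (((i : ℕ) - 1) / 2) ((N - 3 - (i : ℕ)) / 2), by omega⟩, by rw [hcl i, dif_pos h], ?_, rfl⟩
    obtain ⟨m, hm⟩ := Nat.not_even_iff_odd.1 h.1
    change (i : ℕ) = 2 * (min (((i : ℕ) - 1) / 2) ((N - 3 - (i : ℕ)) / 2)) + 1 ∨
      (i : ℕ) + 2 * (min (((i : ℕ) - 1) / 2) ((N - 3 - (i : ℕ)) / 2)) + 3 = N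
    omega
  have hnone : ∀ i : Fin N, cl i = none → Even (i : ℕ) ∨ ¬ (i : ℕ) + 1 < N := by
    intro i h
    by_contra hcon
    push Not at hcon
    obtain ⟨l, hl', -⟩ := hsome i ⟨hcon.1, hcon.2⟩
    rw [hl'] at h
    exact absurd h (by simp)
  have hz : ∀ i, cl i = none → ∀ γ, lg S γ i = 0 := by
    intro i h γ
    rcases hnone i h with h4 | h4
    · exact lg_even_q3 h1 h2 h3 γ h4
    · exact lg_last_q3 γ h4
  have hsm : ∀ (i : Fin N) (l : Fin r), cl i = some l → ((i : ℕ) = 2 * (l : ℕ) + 1 ∨ (i : ℕ) + 2 * (l : ℕ) + 3 = N) := by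
    intro i l h
    by_cases h4 : ¬ Even (i : ℕ) ∧ (i : ℕ) + 1 < N
    · obtain ⟨l', h5, h6, -⟩ := hsome i h4
      rw [h5] at h
      rw [← Option.some.inj h]
      exact h6
    · rw [hcl i, dif_neg h4] at h
      exact absurd h (by simp)
  refine haag_clq3 h1 h2 h3 cl ?_ hz ?_ hch hne hl ?_ ?_ ?_ ?_
  · intro i hi
    rw [hcl i, dif_neg (fun h => h.1 hi)]
  · intro i k h γ
    cases hci : cl i with
    | none => rw [hz i hci γ, hz k (h ▸ hci) γ]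
    | some l =>
      rcases hsm i l hci with e1 | e1 <;> rcases hsm k l (h ▸ hci) with e2 | e2
      · rw [Fin.ext (e1.trans e2.symm)]
      · exact lg_symm hs γ (by omega)
      · exact lg_symm hs γ (by omega)
      · rw [Fin.ext (show (i : ℕ) = (k : ℕ) by omega)]
  · intro l
    have := l.2
    omega
  · intro l i hi
    have hl2 := l.2
    obtain ⟨l', h5, -, h6⟩ := hsome i ⟨Nat.not_even_iff_odd.2 ⟨l, hi⟩, by omega⟩
    rw [h5]
    congr 1
    exact Fin.ext (by omega)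
  · intro l i hi
    have hl2 := l.2
    obtain ⟨l', h5, -, h6⟩ := hsome i ⟨by rw [Nat.even_iff]; omega, by omega⟩
    rw [h5]
    refine ⟨fun h => ?_, by simp⟩
    have h7 := Option.some.inj h
    rw [h7] at h6
    omega
  · intro l i hi hiN
    have hl2 := l.2
    obtain ⟨l', h5, -, h6⟩ := hsome i ⟨by rw [Nat.even_iff]; omega, hiN⟩
    rw [h5]
    refine ⟨fun h => ?_, by simp⟩
    have h7 := Option.some.inj h
    rw [h7] at h6
    omega

end Pool.Agent.Helper84.SPQ
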