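import Pool.Agent.Helper84.SPQ.S2
import Pool.Agent.Helper84.SPQ.Q3

/-!
# Project SPQ, block S3: Haagerup property of the strata of `SO*(4 r + 2)`

`haag_mid6`. PROOF. As `haag_mid` (`U5.lean`) with the gauge `gaugeS` (off `good` any unitary rectangular `κ`: the block has six elements), `f6_isG`, `s_close`, `mdlS`; `hXb` with `z = 1` (`‖det‖ = 1` since `Aᴴ J6 A = J6`). Coefficient `(8/(ns (XX γ) + 2))^t = (2/(s + 1/s))^(2t)`, `s = s_{2r-2} ≥ 1`.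
`haag_sostar`. PROOF. Classes: `cl i = some (min ((i - 1)/2) ((N - 3 - i)/2))` for odd `i`, `i + 1 < N`; `none` otherwise (even `i`: `quat_double`; `i = N - 1`). `lg_symm` with `upq_symm h2 h4 S`. `N = 4 r + 2`: odd `i ≤ 4 r - 1`, the classes are `0, ..., r - 1`; the class `l` consists of `2 l + 1` and `4 r - (2 l + 1)`.
`l < r - 1`: `haag_class_quat` with `a = 2 l`. `l = r - 1`: `J` contains `2 r - 2, ..., 2 r + 2`, not `2 r - 3`, `2 r + 3` (class `r - 2`): `bJ_int` with `a = 2 r - 2`, `b = 2 r + 3`, `haag_mid6`; `hgood`: on `TC S (J :: c) 1`: `1 ≤ lg (2 r - 3)`; `hout c`: `s_{2r-2} = s_{2r-1} ≤ c`: `lg (2 r - 1) = log (s_{2r-1}/s_{2r})`, `s_{2r} = 1`.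
-/

set_option autoImplicit false

open Filter Topology Matrix

namespace Pool.Agent.Helper84.SPQ

open NI GN Pool.Agent.Helper90.RK Pool.Agent.Helper66.RK

variable {G : Type} [Group G] {N : ℕ} {P : PH G N}

private theorem ent_one_h12 {n m : Type} [Fintype n] [Fintype m] [DecidableEq m] {k : Matrix n m ℂ} (hk : kᴴ * k = 1)
    (i : n) (j : m) : ‖k i j‖ ≤ 1 := by
  have h1 := congrFun (congrFun hk j) j
  rw [Matrix.mul_apply, Matrix.one_apply_eq] at h1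
  have h2 : ∀ x : n, kᴴ j x * k x j = ((‖k x j‖ ^ 2 : ℝ) : ℂ) := by
    intro x
    rw [conjTranspose_apply, ← Complex.normSq_eq_norm_sq, Complex.normSq_eq_conj_mul_self]
    rfl
  rw [Finset.sum_congr rfl fun x _ => h2 x, ← Complex.ofReal_sum] at h1
  have h3 : ∑ x, ‖k x j‖ ^ 2 = 1 := by exact_mod_cast h1
  have h4 : ‖k i j‖ ^ 2 ≤ ∑ x, ‖k x j‖ ^ 2 :=
    Finset.single_le_sum (f := fun x => ‖k x j‖ ^ 2) (fun _ _ => sq_nonneg _) (Finset.mem_univ i)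
  rw [h3] at h4
  nlinarith [norm_nonneg (k i j)]

private theorem ent_mul_h12 {l m n : Type} [Fintype m] {A : Matrix l m ℂ} {B : Matrix m n ℂ} {a b : ℝ} (ha0 : 0 ≤ a)
    (ha : ∀ i j, ‖A i j‖ ≤ a) (hb : ∀ i j, ‖B i j‖ ≤ b) (i : l) (j : n) : ‖(A * B) i j‖ ≤ Fintype.card m * (a * b) := by
  rw [Matrix.mul_apply]
  calc ‖∑ k, A i k * B k j‖ ≤ ∑ k, ‖A i k * B k j‖ := norm_sum_le _ _
    _ ≤ ∑ _k : m, a * b := by
        refine Finset.sum_le_sum fun k _ => ?_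
        rw [norm_mul]
        exact mul_le_mul (ha i k) (hb k j) (norm_nonneg _) ha0
    _ = Fintype.card m * (a * b) := by
        rw [Finset.sum_const, Finset.card_univ, nsmul_eq_mul]

private theorem det_h12 {A : Matrix (Fin 3 ⊕ Fin 3) (Fin 3 ⊕ Fin 3) ℂ} (hA : f6 A = 0) : ‖A.det‖ = 1 := by
  have h1 := congrArg Matrix.det (f6_eq.1 hA).1
  rw [Matrix.det_mul, Matrix.det_mul, Matrix.det_conjTranspose] at h1
  have h2 : J6 * J6 = 1 := by
    unfold J6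
    rw [fromBlocks_multiply]
    simp
  have h3 : J6.det ≠ 0 := by
    intro h
    have h4 := congrArg Matrix.det h2
    rw [Matrix.det_mul, h, Matrix.det_one, mul_zero] at h4
    exact zero_ne_one h4
  have h4 : star A.det * A.det = 1 := by
    apply mul_right_cancel₀ h3
    rw [one_mul]
    linear_combination h1
  have h5 : ‖star A.det * A.det‖ = 1 := by rw [h4, norm_one]
  rw [norm_mul, norm_star] at h5
  nlinarith [norm_nonneg A.det]

/-- the singular values on the middle block -/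
private theorem mid_h12 {S : Sv P} {Φ : MN N} (h2 : Φ * Φ = 1) (h4 : ∀ g, (P.ι g)ᴴ * Φ * P.ι g = Φ)
    {r : ℕ} (hr : 2 ≤ r) (hN : N = 4 * r + 2) {i0 : Fin N} (hi0 : (i0 : ℕ) = 2 * r - 2) (T : Str S)
    (hb : ∀ i : Fin N, T.b i = T.b i0 ↔ (2 * r - 2 ≤ (i : ℕ) ∧ (i : ℕ) ≤ 2 * r + 3)) (γ : G) :
    1 ≤ S.s γ i0 ∧ (∀ l : Fin N, T.b l = T.b i0 → (S.s γ l)⁻¹ ≤ S.s γ i0) ∧
      ∀ K : ℝ, (∀ i j, T.b i = T.b j → S.s γ i ≤ K * S.s γ j) → S.s γ i0 ≤ K := by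
  have hrev := upq_symm h2 h4 S γ i0
  have p0 := S.pos γ i0
  have q0 := S.pos γ (Fin.rev i0)
  have hle : S.s γ (Fin.rev i0) ≤ S.s γ i0 := by
    apply S.anti γ
    rw [Fin.le_def, Fin.val_rev]
    omega
  have one : 1 ≤ S.s γ i0 := by
    by_contra hlt
    push Not at hlt
    have : S.s γ i0 * S.s γ (Fin.rev i0) < 1 := by nlinarith
    linarith
  refine ⟨one, fun l hl => ?_, fun K hK => ?_⟩
  · have h5 := ((hb l).1 hl).2
    have h6 : S.s γ (Fin.rev i0) ≤ S.s γ l := by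
      apply S.anti γ
      rw [Fin.le_def, Fin.val_rev]
      omega
    have pl := S.pos γ l
    rw [inv_le_iff_one_le_mul₀ pl]
    nlinarith
  · have h5 : T.b (Fin.rev i0) = T.b i0 := by
      rw [hb, Fin.val_rev]
      omega
    have h6 := hK i0 (Fin.rev i0) h5.symm
    have h7 : S.s γ i0 * S.s γ i0 ≤ K := by
      have h8 := mul_le_mul_of_nonneg_right h6 p0.le
      have h9 : K * S.s γ (Fin.rev i0) * S.s γ i0 = K := by
        rw [mul_assoc, mul_comm (S.s γ (Fin.rev i0)), hrev, mul_one]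
      linarith
    nlinarith

private theorem rpow_small_h12 (K : ℝ) (hK : 1 ≤ K) {ε : ℝ} (hε : 0 < ε) : ∃ t : ℝ, 0 < t ∧ 1 - ε ≤ K ^ (-(2 * t)) := by
  have h1 : Continuous fun t : ℝ => K ^ (-(2 * t)) := by
    have h2 : K ≠ 0 := by linarith
    exact Continuous.rpow continuous_const (by fun_prop) fun t => Or.inl h2
  have h2 := h1.tendsto 0
  simp only [mul_zero, neg_zero, Real.rpow_zero] at h2
  have h3 : ∀ᶠ t in 𝓝 (0 : ℝ), 1 - ε < K ^ (-(2 * t)) := h2.eventually (lt_mem_nhds (by linarith))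
  obtain ⟨η, hη, h4⟩ := Metric.eventually_nhds_iff.1 h3
  refine ⟨η / 2, by linarith, (h4 ?_).le⟩
  rw [Real.dist_eq, sub_zero, abs_of_pos (by linarith)]
  linarith

private theorem rpow_dec_h12 {t δ : ℝ} (ht : 0 < t) (hδ : 0 < δ) : ∃ C : ℝ, ∀ c : ℝ, C / 2 ≤ c → c ^ (-(2 * t)) ≤ δ := by
  refine ⟨2 * δ ^ (-(1 / (2 * t))), fun c hc => ?_⟩
  have h1 : 0 < δ ^ (-(1 / (2 * t))) := Real.rpow_pos_of_pos hδ _
  have h2 : δ ^ (-(1 / (2 * t))) ≤ c := by linarith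
  have h3 := Real.rpow_le_rpow_of_nonpos h1 h2 (show -(2 * t) ≤ 0 by linarith)
  rw [← Real.rpow_mul hδ.le] at h3
  have h4 : -(1 / (2 * t)) * -(2 * t) = 1 := by
    field_simp
  rwa [h4, Real.rpow_one] at h3

/-- a unitary matrix from the block to six elements -/
private theorem any_kap_h12 {b : Fin N → ℕ} {i0 : Fin N} {a : ℕ} (hb : ∀ k : Fin N, b k = b i0 ↔ (a ≤ (k : ℕ) ∧ (k : ℕ) ≤ a + 5))
    (haN : a + 5 < N) : ∃ κ : Matrix (Bk b i0) (Fin 3 ⊕ Fin 3) ℂ, κᴴ * κ = 1 ∧ κ * κᴴ = 1 := by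
  classical
  obtain ⟨e0⟩ : Nonempty (Bk b i0 ≃ Fin 6) := ⟨{
    toFun := fun x => ⟨(x.1 : ℕ) - a, by have := ((hb x.1).1 x.2).2; omega⟩
    invFun := fun y => ⟨⟨a + y, by omega⟩, (hb _).2 ⟨Nat.le_add_right _ _, by
      change a + (y : ℕ) ≤ a + 5
      omega⟩⟩
    left_inv := fun x => by
      have := ((hb x.1).1 x.2).1
      apply Subtype.ext
      apply Fin.ext
      change a + ((x.1 : ℕ) - a) = (x.1 : ℕ)
      omega
    right_inv := fun y => by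
      apply Fin.ext
      change a + (y : ℕ) - a = y
      omega }⟩
  obtain ⟨e⟩ : Nonempty (Bk b i0 ≃ Fin 3 ⊕ Fin 3) := ⟨e0.trans (finSumFinEquiv (m := 3) (n := 3)).symm⟩
  refine ⟨(1 : Matrix (Fin 3 ⊕ Fin 3) (Fin 3 ⊕ Fin 3) ℂ).submatrix e id, ?_, ?_⟩
  · rw [conjTranspose_submatrix, conjTranspose_one, Matrix.submatrix_mul_equiv, Matrix.one_mul, submatrix_id_id]
  · rw [conjTranspose_submatrix, conjTranspose_one]
    exact (Matrix.submatrix_mul_equiv (1 : Matrix (Fin 3 ⊕ Fin 3) (Fin 3 ⊕ Fin 3) ℂ) 1 e (Equiv.refl _) e).trans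
      (by rw [Matrix.one_mul, submatrix_one_equiv])

theorem haag_mid6 {S : Sv P} {Φ j : MN N} (h1 : Φᴴ = Φ) (h2 : Φ * Φ = 1) (h4 : ∀ g, (P.ι g)ᴴ * Φ * P.ι g = Φ)
    (k1 : jᴴ * j = 1) (k2 : jᵀ = -j) (k3 : ∀ g, P.ι g * j = j * (P.ι g)ᴴᵀ) (hrel : Φ * j = -(j * Φᴴᵀ))
    {r : ℕ} (hr : 2 ≤ r) (hN : N = 4 * r + 2) {i0 i1 : Fin N} (hi0 : (i0 : ℕ) = 2 * r - 2) (hi1 : (i1 : ℕ) = 2 * r - 3) (T : Str S)
    (hb : ∀ i : Fin N, T.b i = T.b i0 ↔ (2 * r - 2 ≤ (i : ℕ) ∧ (i : ℕ) ≤ 2 * r + 3))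
    (hgood : ∀ n, {γ | S.s γ i0 < S.s γ i1} ∈ T.F n)
    (hout : ∀ c : ℝ, ∃ n, ∀ γ, S.s γ i0 ≤ c → γ ∈ T.W n) :
    HaagR (Pool.Agent.Helper96.RK.toReg T) := by
  classical
  have hex : ∀ γ : G, ∃ κ : Matrix (Bk T.b i0) (Fin 3 ⊕ Fin 3) ℂ, κᴴ * κ = 1 ∧ κ * κᴴ = 1 ∧ (S.s γ i0 < S.s γ i1 →
      (κᴴ * res T.b i0 (Jh S Φ γ) * κ = J6 ∧ κᴴ * res T.b i0 (jq S j γ) * κᴴᵀ = j6) ∧ f6 (gg κ κ (S.X γ)) = 0 ∧
      ns (gg κ κ (S.X γ)) + 2 = 2 * (S.s γ i0 + (S.s γ i0)⁻¹) ^ 2) := by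
    intro γ
    by_cases hγ : S.s γ i0 < S.s γ i1
    · obtain ⟨κ, a1, a2, a3, a4, a5, a6⟩ := gaugeS S h1 h2 h4 k1 k2 k3 hrel hr hN hi0 hi1 T.b γ hb hγ
      exact ⟨κ, a1, a2, fun _ => ⟨⟨a3, a4⟩, a5, a6⟩⟩
    · obtain ⟨κ, a1, a2⟩ := any_kap_h12 (b := T.b) (i0 := i0) (a := 2 * r - 2)
        (fun k => (hb k).trans (by constructor <;> intro h5 <;> omega)) (by omega)
      exact ⟨κ, a1, a2, fun h => absurd h hγ⟩
  choose κ u1 u2 u3 using hex
  have hmid := mid_h12 (S := S) h2 h4 hr hN hi0 T hb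
  -- bounds on the regions
  have hbd : ∀ n, ∃ K : ℝ, 1 ≤ K ∧ ∀ γ ∈ T.W n, S.s γ i0 ≤ K := by
    intro n
    obtain ⟨K, hK⟩ := T.cpt n
    exact ⟨max K 1, le_max_right _ _, fun γ hγ => ((hmid γ).2.2 K (hK γ hγ)).trans (le_max_left _ _)⟩
  obtain ⟨Ga, hGk, hGg⟩ : ∃ Ga : Gau T i0 (Fin 3 ⊕ Fin 3) f6, Ga.κ = κ ∧ Ga.good = {γ | S.s γ i0 < S.s γ i1} :=
    ⟨{ κ := κ
       u1 := u1
       u2 := u2
       good := {γ | S.s γ i0 < S.s γ i1}
       hgood := hgood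
       hX := fun γ hγ => (u3 γ hγ).2.1
       hXb := by
         intro n
         obtain ⟨K, hK1, hK⟩ := hbd n
         refine ⟨Fintype.card (Bk T.b i0) * (Fintype.card (Bk T.b i0) * (1 * K) * 1), 1, one_pos,
           fun γ hW hγ => ⟨1, one_ne_zero, ?_⟩⟩
         rw [one_smul]
         refine ⟨(u3 γ hγ).2.1, ?_, (det_h12 (u3 γ hγ).2.1).ge⟩
         have b1 : ∀ i j, ‖(κ γ) i j‖ ≤ 1 := ent_one_h12 (u1 γ)
         have b2 : ∀ i j, ‖(κ γ)ᴴ i j‖ ≤ 1 := by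
           intro i j
           rw [conjTranspose_apply, norm_star]
           exact b1 j i
         have b3 : ∀ i j, ‖res T.b i0 (S.X γ) i j‖ ≤ K := by
           intro i j
           unfold res Sv.X
           rw [submatrix_apply, diagonal_apply]
           split_ifs with hij
           · rw [norm_inv, Complex.norm_real, Real.norm_of_nonneg (S.pos γ _).le]
             exact ((hmid γ).2.1 _ i.2).trans (hK γ hW)
           · rw [norm_zero]
             linarith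
         exact ent_mul_h12 (by positivity) (ent_mul_h12 zero_le_one b2 b3) b1
       hC := fun g h n => s_close h1 h2 h4 k1 k2 k3 hr hN hi0 hi1 T hb hgood κ u1 u2 (fun γ hγ => (u3 γ hγ).1) g h n },
      rfl, rfl⟩
  have hc3 : ∀ γ, 0 < (S.s γ i0 + (S.s γ i0)⁻¹) / 2 := by
    intro γ
    have := S.pos γ i0
    positivity
  have hXX : ∀ γ ∈ Ga.good, Ga.XX γ ∈ HH f6 ∧ 8 / (ns (Ga.XX γ) + 2) = (((S.s γ i0 + (S.s γ i0)⁻¹) / 2) ^ 2)⁻¹ := by
    intro γ hγ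
    rw [hGg] at hγ
    unfold Gau.XX
    rw [hGk]
    refine ⟨⟨(u3 γ hγ).2.1, ?_⟩, ?_⟩
    · intro h
      have h5 := det_h12 (u3 γ hγ).2.1
      rw [h, norm_zero] at h5
      exact zero_ne_one h5
    · rw [(u3 γ hγ).2.2]
      have h5 := hc3 γ
      have h6 : S.s γ i0 + (S.s γ i0)⁻¹ = 2 * ((S.s γ i0 + (S.s γ i0)⁻¹) / 2) := by ring
      generalize (S.s γ i0 + (S.s γ i0)⁻¹) / 2 = y at *
      rw [h6]
      have h7 : y ≠ 0 := h5.ne'
      field_simp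
      norm_num
  have hc1 : ∀ γ, (S.s γ i0 + (S.s γ i0)⁻¹) / 2 ≤ S.s γ i0 := by
    intro γ
    have h5 := (hmid γ).1
    have h6 : (S.s γ i0)⁻¹ ≤ 1 := inv_le_one_of_one_le₀ h5
    linarith
  have hc2 : ∀ γ, S.s γ i0 / 2 ≤ (S.s γ i0 + (S.s γ i0)⁻¹) / 2 := by
    intro γ
    have := inv_nonneg.2 (S.pos γ i0).le
    linarith
  refine haag_of_gau Ga f6_isG fun n0 ε hε => ?_
  obtain ⟨K0, hK01, hK0⟩ := hbd n0
  obtain ⟨t, ht, hte⟩ := rpow_small_h12 K0 hK01 (ε := ε ^ 2 / 2) (by positivity)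
  obtain ⟨L, i1', i2', i3', Mo, hMo⟩ := mdlS ht
  have hin : ∀ γ ∈ Ga.good, (inner ℂ (Mo.π (Ga.XX γ) Mo.v) Mo.v : ℂ) =
      ((((S.s γ i0 + (S.s γ i0)⁻¹) / 2) ^ (-(2 * t)) : ℝ) : ℂ) := by
    intro γ hγ
    obtain ⟨a1, a2⟩ := hXX γ hγ
    have h5 := hc3 γ
    have h6 : (((((S.s γ i0 + (S.s γ i0)⁻¹) / 2) ^ 2)⁻¹) ^ t : ℝ) = ((S.s γ i0 + (S.s γ i0)⁻¹) / 2) ^ (-(2 * t)) := by
      rw [Real.inv_rpow (by positivity), ← Real.rpow_natCast, ← Real.rpow_mul h5.le, ← Real.rpow_neg h5.le]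
      norm_num
    rw [← inner_conj_symm, hMo _ a1, a2, h6, Complex.conj_ofReal]
  have hcmp : ∀ (K : ℝ) (γ : G), S.s γ i0 ≤ K → K ^ (-(2 * t)) ≤ ((S.s γ i0 + (S.s γ i0)⁻¹) / 2) ^ (-(2 * t)) := by
    intro K γ hγ
    exact Real.rpow_le_rpow_of_nonpos (hc3 γ) ((hc1 γ).trans hγ) (by linarith)
  refine ⟨L, i1', i2', i3', Mo, fun γ hγ => ?_, fun n => ?_, fun γ hγ hW => ?_, fun δ hδ => ?_⟩
  · rw [hin γ hγ, Complex.ofReal_re]
    exact Real.rpow_nonneg (hc3 γ).le _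
  · obtain ⟨K, hK1, hK⟩ := hbd n
    refine ⟨K ^ (-(2 * t)), Real.rpow_pos_of_pos (by linarith) _, fun γ hW hγ => ?_⟩
    rw [hin γ hγ, Complex.ofReal_re]
    exact hcmp K γ (hK γ hW)
  · have h5 : ‖Mo.π (Ga.XX γ) Mo.v - Mo.v‖ ^ 2 = 2 - 2 * ((S.s γ i0 + (S.s γ i0)⁻¹) / 2) ^ (-(2 * t)) := by
      rw [@norm_sub_sq ℂ, LinearIsometryEquiv.norm_map, Mo.nv, hin γ hγ]
      simp only [RCLike.re_to_complex, Complex.ofReal_re]
      ring
    have h6 := hcmp K0 γ (hK0 γ hW)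
    have h7 : ‖Mo.π (Ga.XX γ) Mo.v - Mo.v‖ ^ 2 ≤ ε ^ 2 := by
      rw [h5]
      linarith
    exact (sq_le_sq₀ (norm_nonneg _) hε.le).1 h7
  · obtain ⟨C, hC⟩ := rpow_dec_h12 ht hδ
    obtain ⟨n, hn⟩ := hout C
    refine ⟨n, fun γ hγ hW => ?_⟩
    have h5 : C < S.s γ i0 := by
      by_contra h6
      push Not at h6
      exact hW (hn γ h6)
    rw [hin γ hγ, Complex.norm_real, Real.norm_of_nonneg (Real.rpow_nonneg (hc3 γ).le _)]
    refine hC _ ?_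
    have := hc2 γ
    linarith

open Pool.Agent.Helper96.RK in
theorem haag_sostar {S : Sv P} {Φ j : MN N} (h1 : Φᴴ = Φ) (h2 : Φ * Φ = 1) (h4 : ∀ g, (P.ι g)ᴴ * Φ * P.ι g = Φ)
    (k1 : jᴴ * j = 1) (k2 : jᵀ = -j) (k3 : ∀ g, P.ι g * j = j * (P.ι g)ᴴᵀ) (hrel : Φ * j = -(j * Φᴴᵀ))
    {r : ℕ} (hN : N = 4 * r + 2) {J : Finset (Fin N)} {c : List (Finset (Fin N))}
    (hch : IsCh (J :: c)) (hne : ∀ m, (TC S (J :: c) m).Nonempty) (hl : c.length + 2 = r) :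
    HaagR (Pool.Agent.Helper96.RK.toReg (chStr S J c)) := by
  have hr : 2 ≤ r := by omega
  have hs : ∀ γ i, S.s γ i * S.s γ (Fin.rev i) = 1 := fun γ i => upq_symm h2 h4 S γ i
  have hdouble : ∀ (γ : G) (i k : Fin N), (k : ℕ) = i + 1 → Even (i : ℕ) → S.s γ i = S.s γ k := fun γ i k hk hi =>
    quat_double k1 k2 k3 S γ i k hk hi
  have lg_even : ∀ (γ : G) {i : Fin N}, Even (i : ℕ) → lg S γ i = 0 := by
    intro γ i hi
    unfold lg gp
    split_ifs with h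
    · rw [hdouble γ i ⟨(i : ℕ) + 1, h⟩ rfl hi, div_self (S.pos γ _).ne', Real.log_one]
    · exact Real.log_one
  have lg_last : ∀ (γ : G) {i : Fin N}, ¬ (i : ℕ) + 1 < N → lg S γ i = 0 := by
    intro γ i hi
    unfold lg gp
    rw [dif_neg hi, Real.log_one]
  obtain ⟨cl, hcl⟩ : ∃ cl : Fin N → Option (Fin r), ∀ i, cl i = if h : ¬ Even (i : ℕ) ∧ (i : ℕ) + 1 < N then
      some ⟨min (((i : ℕ) - 1) / 2) ((N - 3 - (i : ℕ)) / 2), by
        obtain ⟨m, hm⟩ := Nat.not_even_iff_odd.1 h.1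
        omega⟩ else none := ⟨_, fun _ => rfl⟩
  have hsome : ∀ (i : Fin N) (h : ¬ Even (i : ℕ) ∧ (i : ℕ) + 1 < N), ∃ l : Fin r, cl i = some l ∧
      ((i : ℕ) = 2 * (l : ℕ) + 1 ∨ (i : ℕ) + 2 * (l : ℕ) + 3 = N) ∧ (l : ℕ) = min (((i : ℕ) - 1) / 2) ((N - 3 - (i : ℕ)) / 2) := by
    intro i h
    refine ⟨⟨min (((i : ℕ) - 1) / 2) ((N - 3 - (i : ℕ)) / 2), by
      obtain ⟨m, hm⟩ := Nat.not_even_iff_odd.1 h.1
      omega⟩, by rw [hcl i, dif_pos h], ?_, rfl⟩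
    obtain ⟨m, hm⟩ := Nat.not_even_iff_odd.1 h.1
    change (i : ℕ) = 2 * (min (((i : ℕ) - 1) / 2) ((N - 3 - (i : ℕ)) / 2)) + 1 ∨
      (i : ℕ) + 2 * (min (((i : ℕ) - 1) / 2) ((N - 3 - (i : ℕ)) / 2)) + 3 = N
    omega
  have hnone : ∀ i : Fin N, cl i = none → Even (i : ℕ) ∨ ¬ (i : ℕ) + 1 < N := by
    intro i h
    by_contra hcon
    push Not at hcon
    obtain ⟨l, hl', -⟩ := hsome i ⟨hcon.1, hcon.2⟩
    rw [hl'] at h
    exact absurd h (by simp)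
  have hz : ∀ i, cl i = none → ∀ γ, lg S γ i = 0 := by
    intro i h γ
    rcases hnone i h with h4 | h4
    · exact lg_even γ h4
    · exact lg_last γ h4
  have hev : ∀ i : Fin N, Even (i : ℕ) → cl i = none := by
    intro i hi
    rw [hcl i, dif_neg (fun h => h.1 hi)]
  have hsm : ∀ (i : Fin N) (l : Fin r), cl i = some l → ((i : ℕ) = 2 * (l : ℕ) + 1 ∨ (i : ℕ) + 2 * (l : ℕ) + 3 = N) := by
    intro i l h
    by_cases h4 : ¬ Even (i : ℕ) ∧ (i : ℕ) + 1 < N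
    · obtain ⟨l', h5, h6, -⟩ := hsome i h4
      rw [h5] at h
      rw [← Option.some.inj h]
      exact h6
    · rw [hcl i, dif_neg h4] at h
      exact absurd h (by simp)
  have hsame : ∀ i k, cl i = cl k → ∀ γ, lg S γ i = lg S γ k := by
    intro i k h γ
    cases hci : cl i with
    | none => rw [hz i hci γ, hz k (h ▸ hci) γ]
    | some l =>
      rcases hsm i l hci with e1 | e1 <;> rcases hsm k l (h ▸ hci) with e2 | e2
      · rw [Fin.ext (e1.trans e2.symm)]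
      · exact lg_symm hs γ (by omega)
      · exact lg_symm hs γ (by omega)
      · rw [Fin.ext (show (i : ℕ) = (k : ℕ) by omega)]
  obtain ⟨c1, c2, l, c3⟩ := chain_class cl hz hsame hch hne hl
  have hl2 := l.2
  obtain ⟨i, hi⟩ : ∃ i : Fin N, (i : ℕ) = 2 * (l : ℕ) + 1 := ⟨⟨2 * (l : ℕ) + 1, by omega⟩, rfl⟩
  have hcli : cl i = some l := by
    obtain ⟨l', h5, -, h6⟩ := hsome i ⟨Nat.not_even_iff_odd.2 ⟨l, hi⟩, by omega⟩
    rw [h5]
    congr 1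
    exact Fin.ext (by omega)
  have hclass : ∀ (k : Fin N), k ∈ J → ∀ m : ℕ, ¬ Even (k : ℕ) → (k : ℕ) + 1 < N →
      m = min (((k : ℕ) - 1) / 2) ((N - 3 - (k : ℕ)) / 2) → m = l := by
    intro k hk m h5 h6 h7
    obtain ⟨l', h8, -, h9⟩ := hsome k ⟨h5, h6⟩
    rcases c3 k hk with h | h
    · rw [h8] at h
      exact absurd h (by simp)
    · rw [h8] at h
      have h10 := Option.some.inj h
      rw [← h10, h9, h7]
  by_cases hiJ : i ∈ J
  swap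
  · refine haag_class_zero fun k hk => ?_
    rcases c3 k hk with h4 | h4
    · exact hz k h4
    · exact absurd (c2 k i hk (h4.trans hcli.symm)) hiJ
  have hpair : ∀ k ∈ J, (∀ γ, lg S γ k = 0) ∨ ∀ γ, lg S γ k = lg S γ i := by
    intro k hk
    rcases c3 k hk with h4 | h4
    · exact Or.inl (hz k h4)
    · exact Or.inr (hsame k i (h4.trans hcli.symm))
  by_cases hlr : (l : ℕ) + 1 < r
  · refine haag_class_quat k1 k2 k3 (even_two_mul (l : ℕ)) (by omega) hi hiJ (fun k hk => c1 k (hev k hk)) ?_ ?_ hpair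
    · intro k hk hkJ
      have := hclass k hkJ _ (by rw [Nat.even_iff]; omega) (by omega) rfl
      omega
    · intro k hk hkN hkJ
      have := hclass k hkJ _ (by rw [Nat.even_iff]; omega) (by omega) rfl
      omega
  · have hlv : (l : ℕ) = r - 1 := by omega
    have hn0 : 2 * r - 2 < N := by omega
    have hn1 : 2 * r - 3 < N := by omega
    have hi1J : (⟨2 * r - 3, hn1⟩ : Fin N) ∉ J := by
      intro hkJ
      have := hclass _ hkJ _ (by
        change ¬ Even (2 * r - 3)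
        rw [Nat.even_iff]; omega) (by
        change 2 * r - 3 + 1 < N
        omega) rfl
      change min ((2 * r - 3 - 1) / 2) ((N - 3 - (2 * r - 3)) / 2) = l at this
      omega
    refine haag_mid6 h1 h2 h4 k1 k2 k3 hrel hr hN (i0 := ⟨2 * r - 2, hn0⟩) (i1 := ⟨2 * r - 3, hn1⟩) rfl rfl (chStr S J c) ?_ ?_ ?_
    · refine bJ_int (J := J) (a := 2 * r - 2) (b := 2 * r + 3) (by omega) (by omega) ?_ ?_ ?_ (i0 := ⟨2 * r - 2, hn0⟩) rfl
      · intro k hk1 hk2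
        rcases Nat.even_or_odd (k : ℕ) with h5 | h5
        · exact c1 k (hev k h5)
        · obtain ⟨m, hm⟩ := h5
          refine c2 i k hiJ (hcli.trans ?_)
          obtain ⟨l', h6, -, h7⟩ := hsome k ⟨Nat.not_even_iff_odd.2 ⟨m, hm⟩, by omega⟩
          rw [h6]
          congr 1
          exact Fin.ext (by omega)
      · intro k hk
        have h5 : k = ⟨2 * r - 3, hn1⟩ := Fin.ext (by
          change (k : ℕ) = 2 * r - 3
          omega)
        rw [h5]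
        exact hi1J
      · intro k hk hkN hkJ
        have := hclass k hkJ _ (by rw [Nat.even_iff]; omega) (by omega) rfl
        omega
    · intro n
      filter_upwards [TC_mem_FC S J c 1 n] with γ hγ
      have h5 := ((TC_cons S).1 hγ).1 _ hi1J
      have h6 := sum_lg_nonneg S γ J
      push_cast at h5
      have h7 : (1 : ℝ) < gp S γ ⟨2 * r - 3, hn1⟩ := by
        rw [gp_eq_exp]
        exact Real.one_lt_exp_iff.2 (by linarith)
      unfold gp at h7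
      have hi' : ((⟨2 * r - 3, hn1⟩ : Fin N) : ℕ) + 1 < N := by
        change 2 * r - 3 + 1 < N
        omega
      rw [dif_pos hi', one_lt_div (S.pos _ _)] at h7
      have h8 : (⟨((⟨2 * r - 3, hn1⟩ : Fin N) : ℕ) + 1, hi'⟩ : Fin N) = ⟨2 * r - 2, hn0⟩ := Fin.ext (by
        change 2 * r - 3 + 1 = 2 * r - 2
        omega)
      rw [h8] at h7
      exact h7
    · intro x
      refine ⟨⌈Real.log x⌉₊, fun γ hγ => ?_⟩
      change ∀ i ∈ J, lg S γ i ≤ (⌈Real.log x⌉₊ : ℕ)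
      intro k hk
      rcases hpair k hk with h | h
      · rw [h γ]
        exact Nat.cast_nonneg _
      · rw [h γ]
        have hi' : (i : ℕ) + 1 < N := by omega
        have hone : S.s γ ⟨(i : ℕ) + 1, hi'⟩ = 1 := by
          have e1 := hs γ ⟨(i : ℕ) + 1, hi'⟩
          have e2 := hdouble γ ⟨(i : ℕ) + 1, hi'⟩ (Fin.rev ⟨(i : ℕ) + 1, hi'⟩) (by
            rw [Fin.val_rev]
            change N - ((i : ℕ) + 1 + 1) = (i : ℕ) + 1 + 1
            omega) (by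
            change Even ((i : ℕ) + 1)
            rw [Nat.even_iff]; omega)
          rw [← e2] at e1
          have e3 := S.pos γ ⟨(i : ℕ) + 1, hi'⟩
          nlinarith
        have h5 : lg S γ i = Real.log (S.s γ i) := by
          unfold lg gp
          rw [dif_pos hi', hone, div_one]
        have h6 : S.s γ i ≤ S.s γ ⟨2 * r - 2, hn0⟩ := S.anti γ (Fin.le_def.2 (by
          change 2 * r - 2 ≤ (i : ℕ)
          omega))
        rw [h5]
        exact (Real.log_le_log (S.pos γ i) (h6.trans hγ)).trans (Nat.le_ceil _)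

end Pool.Agent.Helper84.SPQ
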