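import Pool.Agent.Helper84.SPQ.E1
import Pool.Agent.Helper66.BD.Rec
import Pool.Agent.Helper66.RK.StmtDef

/-!
# Project SPQ, block E2: the lattices of `PSp(p, q)` have infinite conjugacy classes

`ent_zero`: let `b` be an element of `Sp(p, q)`, `E`, `F` matrices with `E b = λ E`, `b⁻¹ F = μ F`, `λ μ > 1`. If the conjugacy class of `γ` in the lattice `Γ` of `PSp(p, q)` is finite and `x` is a lift of `y γ y⁻¹`, then `E x F = 0`:
Poincaré recurrence (`rec_zero`) for `χ y = ∑ c ∈ C, ‖E (y c y⁻¹) F‖²`.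
`icc_PSpQ`: with the six pairs of different eigenprojections of a boost `b` (and `b⁻¹`): a lift of `y γ y⁻¹` commutes with `b`, for every `y`, so a lift of `γ` commutes with all conjugates of `b`: `comm_pm`.
-/

set_option autoImplicit false

open Filter Topology Matrix

namespace Pool.Agent.Helper84.SPQ

open Pool.Agent.Helper66.RKS

variable {p q : ℕ}

/-- the sum of the squares of the entries -/
private noncomputable def nn (X : MH (Fin p ⊕ Fin q)) : ℝ := ∑ a, ∑ b, ‖X a b‖ ^ 2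

private theorem nn_nonneg (X : MH (Fin p ⊕ Fin q)) : 0 ≤ nn X :=
  Finset.sum_nonneg fun _ _ => Finset.sum_nonneg fun _ _ => sq_nonneg _

private theorem nn_zero {X : MH (Fin p ⊕ Fin q)} (h : nn X = 0) : X = 0 := by
  unfold nn at h
  have h1 := (Finset.sum_eq_zero_iff_of_nonneg (fun a _ => Finset.sum_nonneg fun b _ => sq_nonneg _)).1 h
  apply Matrix.ext
  intro a b
  have h2 := (Finset.sum_eq_zero_iff_of_nonneg (fun b _ => sq_nonneg _)).1 (h1 a (Finset.mem_univ a)) b (Finset.mem_univ b)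
  exact norm_eq_zero.1 ((pow_eq_zero_iff two_ne_zero).1 h2)

private theorem nn_smul (r : ℝ) (X : MH (Fin p ⊕ Fin q)) : nn (r • X) = r ^ 2 * nn X := by
  unfold nn
  rw [Finset.mul_sum]
  refine Finset.sum_congr rfl fun a _ => ?_
  rw [Finset.mul_sum]
  refine Finset.sum_congr rfl fun b _ => ?_
  rw [Matrix.smul_apply, norm_smul, mul_pow, Real.norm_eq_abs, sq_abs]

private theorem nn_neg (X : MH (Fin p ⊕ Fin q)) : nn (-X) = nn X := by
  unfold nn
  simp only [Matrix.neg_apply, norm_neg]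

private theorem cs (r : ℝ) (X : MH (Fin p ⊕ Fin q)) : ((r : ℝ) : Hq) • X = r • X := by
  apply Matrix.ext
  intro a b
  rw [Matrix.smul_apply, Matrix.smul_apply, smul_eq_mul, Quaternion.coe_mul_eq_smul]

private theorem mx_mul (x y : SpQ p q) : mx (x * y) = mx x * mx y := rfl

private theorem mx_cont : Continuous (mx : SpQ p q → MH (Fin p ⊕ Fin q)) :=
  Units.continuous_val.comp continuous_subtype_val

private theorem mx_inj {x y : SpQ p q} (h : mx x = mx y) : x = y := spJ_ext h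

private theorem mx_inv (x : SpQ p q) : mx x * mx x⁻¹ = 1 := by
  rw [← mx_mul, mul_inv_cancel]
  rfl

private theorem epq_pm : ∀ i, epq p q i = 1 ∨ epq p q i = -1 := by
  rintro (i | i)
  · exact Or.inl rfl
  · exact Or.inr rfl

private theorem nn_cont (E F : MH (Fin p ⊕ Fin q)) : Continuous fun x : SpQ p q => nn (E * mx x * F) := by
  unfold nn
  refine continuous_finsetSum _ fun a _ => continuous_finsetSum _ fun b _ => ?_
  have h2 : Continuous fun x : SpQ p q => E * mx x * F :=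
    (continuous_const.matrix_mul mx_cont).matrix_mul continuous_const
  exact ((h2.matrix_elem a b).norm).pow 2

/-- the function on the quotient -/
private noncomputable def xib (hp : 1 ≤ p) (hq : 1 ≤ q) (E F : MH (Fin p ⊕ Fin q)) (c : PSpQ p q) : ℝ :=
  Quotient.liftOn' c (fun x : SpQ p q => nn (E * mx x * F)) (fun x y h => by
    have h1 : x⁻¹ * y ∈ Subgroup.center (SpQ p q) := QuotientGroup.leftRel_apply.1 h
    have h2 : y = x * (x⁻¹ * y) := by group
    have h3 : mx y = mx x * mx (x⁻¹ * y) := by rw [← mx_mul, ← h2]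
    change nn (E * mx x * F) = nn (E * mx y * F)
    rw [h3]
    rcases center_pm hp hq h1 with h4 | h4 <;> rw [h4]
    · rw [mul_one]
    · rw [mul_neg, mul_one, mul_neg, neg_mul, nn_neg])

private theorem xib_coe (hp : 1 ≤ p) (hq : 1 ≤ q) (E F : MH (Fin p ⊕ Fin q)) (x : SpQ p q) :
    xib hp hq E F (x : PSpQ p q) = nn (E * mx x * F) := rfl

private theorem xib_cont (hp : 1 ≤ p) (hq : 1 ≤ q) (E F : MH (Fin p ⊕ Fin q)) : Continuous (xib hp hq E F) :=
  (nn_cont E F).quotient_liftOn' _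

private theorem xib_nonneg (hp : 1 ≤ p) (hq : 1 ≤ q) (E F : MH (Fin p ⊕ Fin q)) (c : PSpQ p q) : 0 ≤ xib hp hq E F c := by
  induction c using QuotientGroup.induction_on with
  | H x => exact nn_nonneg _

private theorem xib_boost (hp : 1 ≤ p) (hq : 1 ≤ q) {E F : MH (Fin p ⊕ Fin q)} {b : SpQ p q} {l m : ℝ}
    (hE : E * mx b = l • E) (hF : mx b⁻¹ * F = m • F) (c : PSpQ p q) :
    xib hp hq E F ((b : PSpQ p q) * c * (b : PSpQ p q)⁻¹) = (l * m) ^ 2 * xib hp hq E F c := by
  induction c using QuotientGroup.induction_on with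
  | H x =>
    have h1 : (b : PSpQ p q) * (x : PSpQ p q) * (b : PSpQ p q)⁻¹ = ((b * x * b⁻¹ : SpQ p q) : PSpQ p q) := rfl
    rw [h1, xib_coe, xib_coe, mx_mul, mx_mul]
    have h2 : E * (mx b * mx x * mx b⁻¹) * F = (l * m) • (E * mx x * F) := by
      calc E * (mx b * mx x * mx b⁻¹) * F = (E * mx b) * mx x * (mx b⁻¹ * F) := by simp only [Matrix.mul_assoc]
        _ = (l • E) * mx x * (m • F) := by rw [hE, hF]
        _ = _ := by rw [Matrix.smul_mul, Matrix.smul_mul, Matrix.mul_smul, smul_smul]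
    rw [h2, nn_smul]

private theorem ent_zero (hp : 1 ≤ p) (hq : 1 ≤ q) {Γ : Subgroup (PSpQ p q)} (hL : Pool.Agent.Helper96.FR.Lattice Γ) (γ : Γ)
    (hfin : (Set.range fun g : Γ => g * γ * g⁻¹).Finite) {E F : MH (Fin p ⊕ Fin q)} {b : SpQ p q} {l m : ℝ}
    (hE : E * mx b = l • E) (hF : mx b⁻¹ * F = m • F) (hlm : 1 < l * m) {x : SpQ p q} {y : PSpQ p q}
    (hx : (x : PSpQ p q) = y * γ * y⁻¹) : E * mx x * F = 0 := by
  classical
  have hsec : SecondCountableTopology (SpQ p q) := secondCountable_SpJ epq_pm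
  let C : Finset (PSpQ p q) := hfin.toFinset.image Subtype.val
  have hC : ∀ c : PSpQ p q, c ∈ C ↔ ∃ g : Γ, (g : PSpQ p q) * γ * (g : PSpQ p q)⁻¹ = c := by
    intro c
    constructor
    · intro hc
      obtain ⟨c', hc', rfl⟩ := Finset.mem_image.1 hc
      obtain ⟨g, hg⟩ := hfin.mem_toFinset.1 hc'
      refine ⟨g, ?_⟩
      rw [← hg]
      rfl
    · rintro ⟨g, rfl⟩
      exact Finset.mem_image.2 ⟨g * γ * g⁻¹, hfin.mem_toFinset.2 ⟨g, rfl⟩, rfl⟩
  let χ : PSpQ p q → ℝ := fun g => ∑ c ∈ C, xib hp hq E F (g * c * g⁻¹)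
  have hχ : ∀ g, χ g = ∑ c ∈ C, xib hp hq E F (g * c * g⁻¹) := fun _ => rfl
  have hcont : Continuous χ := by
    refine continuous_finsetSum _ fun c _ => (xib_cont hp hq E F).comp ?_
    fun_prop
  have hnn : ∀ g, 0 ≤ χ g := fun g => Finset.sum_nonneg fun c _ => xib_nonneg _ _ _ _ _
  have hinv : ∀ g, ∀ δ ∈ Γ, χ (g * δ) = χ g := by
    intro g δ hδ
    rw [hχ, hχ]
    have hδ' : ∀ c ∈ C, δ * c * δ⁻¹ ∈ C := by
      intro c hc
      obtain ⟨g, rfl⟩ := (hC c).1 hc
      refine (hC _).2 ⟨⟨δ, hδ⟩ * g, ?_⟩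
      change δ * (g : PSpQ p q) * γ * (δ * (g : PSpQ p q))⁻¹ = δ * ((g : PSpQ p q) * γ * (g : PSpQ p q)⁻¹) * δ⁻¹
      group
    have hδ'' : ∀ c ∈ C, δ⁻¹ * c * δ ∈ C := by
      intro c hc
      obtain ⟨g, rfl⟩ := (hC c).1 hc
      refine (hC _).2 ⟨⟨δ, hδ⟩⁻¹ * g, ?_⟩
      change δ⁻¹ * (g : PSpQ p q) * γ * (δ⁻¹ * (g : PSpQ p q))⁻¹ = δ⁻¹ * ((g : PSpQ p q) * γ * (g : PSpQ p q)⁻¹) * δ
      group
    refine Finset.sum_nbij' (fun c => δ * c * δ⁻¹) (fun c => δ⁻¹ * c * δ) hδ' hδ'' ?_ ?_ ?_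
    · intro c _
      group
    · intro c _
      group
    · intro c _
      have e : g * δ * c * (g * δ)⁻¹ = g * (δ * c * δ⁻¹) * g⁻¹ := by group
      rw [e]
  have hb : ∀ g, (l * m) ^ 2 * χ g ≤ χ ((b : PSpQ p q) * g) := by
    intro g
    refine le_of_eq ?_
    rw [hχ, hχ, Finset.mul_sum]
    refine Finset.sum_congr rfl fun c _ => ?_
    have e : (b : PSpQ p q) * g * c * ((b : PSpQ p q) * g)⁻¹ = (b : PSpQ p q) * (g * c * g⁻¹) * (b : PSpQ p q)⁻¹ := by group
    rw [e, xib_boost hp hq hE hF]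
  have h1 : χ y = 0 := Pool.Agent.Helper66.BD.rec_zero hL hcont hnn hinv (b : PSpQ p q)
    (κ := (l * m) ^ 2) (by nlinarith) hb y
  have h2 := (Finset.sum_eq_zero_iff_of_nonneg (fun c _ => xib_nonneg hp hq E F _)).1 h1 (γ : PSpQ p q)
    ((hC _).2 ⟨1, by simp⟩)
  rw [← hx, xib_coe] at h2
  exact nn_zero h2

theorem icc_PSpQ {p q : ℕ} (hp : 1 ≤ p) (hq : 1 ≤ q) {Γ : Subgroup (PSpQ p q)} (hL : Pool.Agent.Helper96.FR.Lattice Γ) :
    IsICC Γ := by
  intro γ hγ hfin
  have hfin' : (Set.range fun g : Γ => g * γ * g⁻¹).Finite := hfin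
  obtain ⟨x, hx⟩ : ∃ x : SpQ p q, (x : PSpQ p q) = γ := QuotientGroup.mk_surjective (γ : PSpQ p q)
  have key : ∀ (z b : SpQ p q) (i : Fin p) (j : Fin q), mx b = bm i j 1 →
      ∀ y : PSpQ p q, (z : PSpQ p q) = y * γ * y⁻¹ → mx z * mx b = mx b * mx z := by
    intro z b i j hb y hz
    obtain ⟨e1, e2, e3, e4, e5, e6, e7, e8, e9⟩ := bm_proj i j
    set P := PPm i j with hP
    set M := PMm i j with hM
    set Z := PZm i j with hZ
    have hbi : mx b⁻¹ = bm i j (-1) := by
      have h1 : bm i j 1 * bm i j (-1) = 1 := by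
        rw [bm_mul]
        norm_num
        unfold bm
        simp
      have h2 : mx b⁻¹ * mx b = 1 := by
        rw [← mx_mul, inv_mul_cancel]
        rfl
      calc mx b⁻¹ = mx b⁻¹ * (bm i j 1 * bm i j (-1)) := by rw [h1, mul_one]
        _ = (mx b⁻¹ * mx b) * bm i j (-1) := by rw [hb, mul_assoc]
        _ = _ := by rw [h2, one_mul]
    have hb' : mx b = Real.exp 1 • P + Real.exp (-1) • M + Z := by
      rw [hb, bm_eq, cs, cs]
    have hbi' : mx b⁻¹ = Real.exp (-1) • P + Real.exp 1 • M + Z := by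
      rw [hbi, bm_eq, cs, cs, neg_neg]
    have hbii : mx b⁻¹⁻¹ = mx b := by rw [inv_inv]
    have he1 : (1 : ℝ) < Real.exp 1 := Real.one_lt_exp_iff.2 one_pos
    -- the eigenvectors
    have a1 : P * mx b = Real.exp 1 • P := by
      rw [hb', mul_add, mul_add, Matrix.mul_smul, Matrix.mul_smul, e1, e3, e6, smul_zero, add_zero, add_zero]
    have a2 : M * mx b⁻¹ = Real.exp 1 • M := by
      rw [hbi', mul_add, mul_add, Matrix.mul_smul, Matrix.mul_smul, e4, e2, e8, smul_zero, zero_add, add_zero]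
    have a3 : Z * mx b = (1 : ℝ) • Z := by
      rw [hb', mul_add, mul_add, Matrix.mul_smul, Matrix.mul_smul, e7, e9, e5, smul_zero, smul_zero, add_zero, zero_add, one_smul]
    have a4 : Z * mx b⁻¹ = (1 : ℝ) • Z := by
      rw [hbi', mul_add, mul_add, Matrix.mul_smul, Matrix.mul_smul, e7, e9, e5, smul_zero, smul_zero, add_zero, zero_add, one_smul]
    have c1 : mx b⁻¹ * M = Real.exp 1 • M := by
      rw [hbi', add_mul, add_mul, Matrix.smul_mul, Matrix.smul_mul, e3, e2, e9, smul_zero, zero_add, add_zero]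
    have c2 : mx b⁻¹ * Z = (1 : ℝ) • Z := by
      rw [hbi', add_mul, add_mul, Matrix.smul_mul, Matrix.smul_mul, e6, e8, e5, smul_zero, smul_zero, add_zero, zero_add, one_smul]
    have c3 : mx b⁻¹⁻¹ * P = Real.exp 1 • P := by
      rw [hbii, hb', add_mul, add_mul, Matrix.smul_mul, Matrix.smul_mul, e1, e4, e7, smul_zero, add_zero, add_zero]
    have c4 : mx b⁻¹⁻¹ * Z = (1 : ℝ) • Z := by
      rw [hbii, hb', add_mul, add_mul, Matrix.smul_mul, Matrix.smul_mul, e6, e8, e5, smul_zero, smul_zero, add_zero, zero_add, one_smul]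
    -- the entries
    have z1 : P * mx z * M = 0 := ent_zero hp hq hL γ hfin' a1 c1 (by nlinarith) hz
    have z2 : P * mx z * Z = 0 := ent_zero hp hq hL γ hfin' a1 c2 (by linarith) hz
    have z3 : Z * mx z * M = 0 := ent_zero hp hq hL γ hfin' a3 c1 (by linarith) hz
    have z4 : M * mx z * P = 0 := ent_zero hp hq hL γ hfin' a2 c3 (by nlinarith) hz
    have z5 : M * mx z * Z = 0 := ent_zero hp hq hL γ hfin' a2 c4 (by linarith) hz
    have z6 : Z * mx z * P = 0 := ent_zero hp hq hL γ hfin' a4 c3 (by linarith) hz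
    have hs : P + M + Z = 1 := by
      rw [hZ]
      unfold PZm
      rw [← hP, ← hM]
      abel
    have w1 : P * mx z = P * mx z * P := by
      calc P * mx z = P * mx z * (P + M + Z) := by rw [hs, mul_one]
        _ = _ := by rw [mul_add, mul_add, z1, z2, add_zero, add_zero]
    have w2 : M * mx z = M * mx z * M := by
      calc M * mx z = M * mx z * (P + M + Z) := by rw [hs, mul_one]
        _ = _ := by rw [mul_add, mul_add, z4, z5, zero_add, add_zero]
    have w3 : Z * mx z = Z * mx z * Z := by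
      calc Z * mx z = Z * mx z * (P + M + Z) := by rw [hs, mul_one]
        _ = _ := by rw [mul_add, mul_add, z6, z3, zero_add, zero_add]
    have v1 : mx z * P = P * mx z * P := by
      calc mx z * P = (P + M + Z) * (mx z * P) := by rw [hs, one_mul]
        _ = _ := by rw [add_mul, add_mul, ← mul_assoc, ← mul_assoc, ← mul_assoc, z4, z6, add_zero, add_zero]
    have v2 : mx z * M = M * mx z * M := by
      calc mx z * M = (P + M + Z) * (mx z * M) := by rw [hs, one_mul]
        _ = _ := by rw [add_mul, add_mul, ← mul_assoc, ← mul_assoc, ← mul_assoc, z1, z3, zero_add, add_zero]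
    have v3 : mx z * Z = Z * mx z * Z := by
      calc mx z * Z = (P + M + Z) * (mx z * Z) := by rw [hs, one_mul]
        _ = _ := by rw [add_mul, add_mul, ← mul_assoc, ← mul_assoc, ← mul_assoc, z2, z5, zero_add, zero_add]
    rw [hb', mul_add, mul_add, add_mul, add_mul, Matrix.mul_smul, Matrix.mul_smul, Matrix.smul_mul, Matrix.smul_mul,
      v1, v2, v3, ← w1, ← w2, ← w3]
  have h1 : mx x = 1 ∨ mx x = -1 := by
    refine comm_pm hp hq fun g b i j hb => ?_
    have h2 := key (g⁻¹ * x * g) b i j hb ((g⁻¹ : SpQ p q) : PSpQ p q) (by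
      rw [← hx]
      rfl)
    have h3 : (g⁻¹ * x * g) * b = b * (g⁻¹ * x * g) := mx_inj h2
    calc x * (g * b * g⁻¹) = g * ((g⁻¹ * x * g) * b) * g⁻¹ := by group
      _ = g * (b * (g⁻¹ * x * g)) * g⁻¹ := by rw [h3]
      _ = g * b * g⁻¹ * x := by group
  have h2 : x ∈ Subgroup.center (SpQ p q) := by
    refine Subgroup.mem_center_iff.2 fun g => mx_inj ?_
    rw [mx_mul, mx_mul]
    rcases h1 with h | h <;> rw [h] <;> simp
  apply hγ
  apply Subtype.ext
  rw [← hx]
  exact (QuotientGroup.eq_one_iff x).2 h2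

end Pool.Agent.Helper84.SPQ
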