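import Pool.Agent.Helper84.SPQ.O2
import Pool.Agent.Helper84.SPQ.B7
import Pool.Agent.Helper84.SPQ.K3

/-!
# Project SPQ, block O3: Haagerup property of the strata of `SO(2 r + 1, ℂ)`

`haag_mid3`. PROOF. As `haag_mid` (`U5.lean`) with the gauge `gaugeO` (off `good` any unitary rectangular `κ`: the block has three elements), `f3_isG`, `o_close`, `mdlO`. `hXb` with `z = 1` (`s_{r-1}² ≤ K` on `T.W n`; `‖det‖ = 1` in `HH f3`). Coefficient: `(4/(ns (XX γ) + 1))^t = (2/(s + 1/s))^(2t)`, `s = s_{r-1} ≥ 1`.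
`haag_odd`. PROOF. As `haag_her` (`K5.lean`) with `N = 2 r + 1`, `hs = bil_symm h1 h4 S`: `s_r = 1`, `s_i ≤ 1` for `i ≥ r`. Classes `cl i = some (min i (N - 2 - i))` for `i + 1 < N`, `none` for `i = N - 1`; class `l < r - 1`: `haag_class_pair`; class `r - 1`: `J = {r - 1, r, N - 1}`, `bJ_int` with `a = r - 1`, `b = r + 1`, `haag_mid3`.
-/

set_option autoImplicit false

open Filter Topology Matrix

namespace Pool.Agent.Helper84.SPQ

open NI GN Pool.Agent.Helper90.RK Pool.Agent.Helper66.RK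

variable {G : Type} [Group G] {N : ℕ} {P : PH G N}

private theorem ent_one31 {B M : Type} [Fintype B] [Fintype M] [DecidableEq M] {k : Matrix B M ℂ} (hk : kᴴ * k = 1) (i : B) (j : M) :
    ‖k i j‖ ≤ 1 := by
  have h1 := congrFun (congrFun hk j) j
  rw [Matrix.mul_apply, Matrix.one_apply_eq] at h1
  have h2 : ∀ x : B, kᴴ j x * k x j = ((‖k x j‖ ^ 2 : ℝ) : ℂ) := by
    intro x
    rw [conjTranspose_apply, ← Complex.normSq_eq_norm_sq, Complex.normSq_eq_conj_mul_self]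
    rfl
  rw [Finset.sum_congr rfl fun x _ => h2 x, ← Complex.ofReal_sum] at h1
  have h3 : ∑ x, ‖k x j‖ ^ 2 = 1 := by exact_mod_cast h1
  have h4 : ‖k i j‖ ^ 2 ≤ ∑ x, ‖k x j‖ ^ 2 :=
    Finset.single_le_sum (f := fun x => ‖k x j‖ ^ 2) (fun _ _ => sq_nonneg _) (Finset.mem_univ i)
  rw [h3] at h4
  nlinarith [norm_nonneg (k i j)]

private theorem ent_mul31 {L B M : Type} [Fintype B] {X : Matrix L B ℂ} {Y : Matrix B M ℂ} {a b : ℝ} (ha0 : 0 ≤ a)
    (ha : ∀ i j, ‖X i j‖ ≤ a) (hb : ∀ i j, ‖Y i j‖ ≤ b) (i : L) (j : M) : ‖(X * Y) i j‖ ≤ Fintype.card B * (a * b) := by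
  rw [Matrix.mul_apply]
  calc ‖∑ k, X i k * Y k j‖ ≤ ∑ k, ‖X i k * Y k j‖ := norm_sum_le _ _
    _ ≤ ∑ _k : B, a * b := by
        refine Finset.sum_le_sum fun k _ => ?_
        rw [norm_mul]
        exact mul_le_mul (ha i k) (hb k j) (norm_nonneg _) ha0
    _ = Fintype.card B * (a * b) := by
        rw [Finset.sum_const, Finset.card_univ, nsmul_eq_mul]

private theorem det_O31 {A : Matrix (Fin 3) (Fin 3) ℂ} (hA : f3 A = 0) : ‖A.det‖ = 1 := by
  obtain ⟨c, hc, h⟩ := f3_eq.1 hA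
  have h1 := congrArg Matrix.det h
  rw [Matrix.det_mul, Matrix.det_transpose, Matrix.det_smul, Matrix.det_one, mul_one, Fintype.card_fin] at h1
  have h2 := congrArg norm h1
  rw [norm_mul, norm_pow, hc, one_pow] at h2
  nlinarith [norm_nonneg A.det]

/-- the singular values on the middle block -/
private theorem mid31 {S : Sv P} (hs : ∀ γ i, S.s γ i * S.s γ (Fin.rev i) = 1)
    {r : ℕ} (hr : 2 ≤ r) (hN : N = 2 * r + 1) {i0 : Fin N} (hi0 : (i0 : ℕ) = r - 1) (T : Str S)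
    (hb : ∀ i : Fin N, T.b i = T.b i0 ↔ (r - 1 ≤ (i : ℕ) ∧ (i : ℕ) ≤ r + 1)) (γ : G) :
    1 ≤ S.s γ i0 ∧ (∀ l : Fin N, T.b l = T.b i0 → (S.s γ l)⁻¹ ≤ S.s γ i0) ∧
      ∀ K : ℝ, (∀ i j, T.b i = T.b j → S.s γ i ≤ K * S.s γ j) → S.s γ i0 ≤ K := by
  have hrev := hs γ i0
  have p0 := S.pos γ i0
  have q0 := S.pos γ (Fin.rev i0)
  have hle : S.s γ (Fin.rev i0) ≤ S.s γ i0 := by
    apply S.anti γ
    rw [Fin.le_def, Fin.val_rev]
    omega
  have one : 1 ≤ S.s γ i0 := by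
    by_contra hlt
    push Not at hlt
    have : S.s γ i0 * S.s γ (Fin.rev i0) < 1 := by nlinarith
    linarith
  refine ⟨one, fun l hl => ?_, fun K hK => ?_⟩
  · have h5 := ((hb l).1 hl).2
    have h6 : S.s γ (Fin.rev i0) ≤ S.s γ l := by
      apply S.anti γ
      rw [Fin.le_def, Fin.val_rev]
      omega
    have pl := S.pos γ l
    rw [inv_le_iff_one_le_mul₀ pl]
    nlinarith
  · have h5 : T.b (Fin.rev i0) = T.b i0 := by
      rw [hb, Fin.val_rev]
      omega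
    have h6 := hK i0 (Fin.rev i0) h5.symm
    have h7 : S.s γ i0 * S.s γ i0 ≤ K := by
      have h8 := mul_le_mul_of_nonneg_right h6 p0.le
      have h9 : K * S.s γ (Fin.rev i0) * S.s γ i0 = K := by
        rw [mul_assoc, mul_comm (S.s γ (Fin.rev i0)), hrev, mul_one]
      linarith
    nlinarith

private theorem rpow_small31 (K : ℝ) (hK : 1 ≤ K) {ε : ℝ} (hε : 0 < ε) : ∃ t : ℝ, 0 < t ∧ 1 - ε ≤ K ^ (-(2 * t)) := by
  have h1 : Continuous fun t : ℝ => K ^ (-(2 * t)) := by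
    have h2 : K ≠ 0 := by linarith
    exact Continuous.rpow continuous_const (by fun_prop) fun t => Or.inl h2
  have h2 := h1.tendsto 0
  simp only [mul_zero, neg_zero, Real.rpow_zero] at h2
  have h3 : ∀ᶠ t in 𝓝 (0 : ℝ), 1 - ε < K ^ (-(2 * t)) := h2.eventually (lt_mem_nhds (by linarith))
  obtain ⟨η, hη, h4⟩ := Metric.eventually_nhds_iff.1 h3
  refine ⟨η / 2, by linarith, (h4 ?_).le⟩
  rw [Real.dist_eq, sub_zero, abs_of_pos (by linarith)]
  linarith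

private theorem rpow_dec31 {t δ : ℝ} (ht : 0 < t) (hδ : 0 < δ) : ∃ C : ℝ, ∀ c : ℝ, C / 2 ≤ c → c ^ (-(2 * t)) ≤ δ := by
  refine ⟨2 * δ ^ (-(1 / (2 * t))), fun c hc => ?_⟩
  have h1 : 0 < δ ^ (-(1 / (2 * t))) := Real.rpow_pos_of_pos hδ _
  have h2 : δ ^ (-(1 / (2 * t))) ≤ c := by linarith
  have h3 := Real.rpow_le_rpow_of_nonpos h1 h2 (show -(2 * t) ≤ 0 by linarith)
  rw [← Real.rpow_mul hδ.le] at h3
  have h4 : -(1 / (2 * t)) * -(2 * t) = 1 := by
    field_simp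
  rwa [h4, Real.rpow_one] at h3

/-- the coefficient of the model -/
private theorem coef31 {c x t : ℝ} (hc : 0 < c) (hx : x = (2 * c) ^ 2) : (4 / x) ^ t = c ^ (-(2 * t)) := by
  have h1 : 4 / x = c ^ (-2 : ℝ) := by
    rw [hx, Real.rpow_neg hc.le, Real.rpow_two]
    field_simp
    norm_num
  rw [h1, ← Real.rpow_mul hc.le]
  congr 1
  ring

/-- a unitary rectangular matrix: the block has three elements -/
private theorem kap31 {r : ℕ} (hN : N = 2 * r + 1) (hr : 2 ≤ r) {i0 : Fin N} {b : Fin N → ℕ}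
    (hb : ∀ i : Fin N, b i = b i0 ↔ (r - 1 ≤ (i : ℕ) ∧ (i : ℕ) ≤ r + 1)) :
    ∃ κ : Matrix (Bk b i0) (Fin 3) ℂ, κᴴ * κ = 1 ∧ κ * κᴴ = 1 := by
  obtain ⟨e, he⟩ : ∃ e : Fin 3 → Bk b i0, ∀ j, ((e j).1 : ℕ) = r - 1 + j := by
    have h1 : ∀ j : Fin 3, r - 1 + (j : ℕ) < N := by
      intro j
      have := j.2
      omega
    refine ⟨fun j => ⟨⟨r - 1 + j, h1 j⟩, (hb _).2 ?_⟩, fun j => rfl⟩
    have := j.2
    change r - 1 ≤ r - 1 + (j : ℕ) ∧ r - 1 + (j : ℕ) ≤ r + 1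
    omega
  have hbij : Function.Bijective e := by
    constructor
    · intro j k hjk
      have h2 : ((e j).1 : ℕ) = (e k).1 := by rw [hjk]
      rw [he, he] at h2
      exact Fin.ext (by omega)
    · intro i
      have h2 := (hb i.1).1 i.2
      have h3 : (i.1 : ℕ) - (r - 1) < 3 := by omega
      refine ⟨⟨(i.1 : ℕ) - (r - 1), h3⟩, Subtype.ext (Fin.ext ?_)⟩
      rw [he]
      change r - 1 + ((i.1 : ℕ) - (r - 1)) = i.1
      omega
  refine ⟨(1 : Matrix (Bk b i0) (Bk b i0) ℂ).submatrix id e, ?_, ?_⟩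
  · rw [conjTranspose_submatrix, conjTranspose_one, ← submatrix_mul _ _ _ _ _ Function.bijective_id, one_mul]
    exact submatrix_one e hbij.1
  · rw [conjTranspose_submatrix, conjTranspose_one, ← submatrix_mul _ _ _ _ _ hbij, one_mul]
    exact submatrix_one id Function.injective_id

theorem haag_mid3 {S : Sv P} {Φ : MN N} (h1 : Φᴴ * Φ = 1) (h2 : Φᵀ = Φ) (h4 : ∀ g, (P.ι g)ᵀ * Φ * P.ι g = Φ)
    {r : ℕ} (hr : 2 ≤ r) (hN : N = 2 * r + 1) {i0 i1 : Fin N} (hi0 : (i0 : ℕ) = r - 1) (hi1 : (i1 : ℕ) = r - 2) (T : Str S)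
    (hb : ∀ i : Fin N, T.b i = T.b i0 ↔ (r - 1 ≤ (i : ℕ) ∧ (i : ℕ) ≤ r + 1))
    (hgood : ∀ n, {γ | S.s γ i0 < S.s γ i1} ∈ T.F n)
    (hout : ∀ c : ℝ, ∃ n, ∀ γ, S.s γ i0 ≤ c → γ ∈ T.W n) :
    HaagR (Pool.Agent.Helper96.RK.toReg T) := by
  classical
  have hs : ∀ γ i, S.s γ i * S.s γ (Fin.rev i) = 1 := fun γ i => bil_symm h1 h4 S γ i
  obtain ⟨κ0, ka, kb⟩ := kap31 (i0 := i0) hN hr hb
  have hex : ∀ γ : G, ∃ κ : Matrix (Bk T.b i0) (Fin 3) ℂ, κᴴ * κ = 1 ∧ κ * κᴴ = 1 ∧ (S.s γ i0 < S.s γ i1 →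
      κᵀ * res T.b i0 (ps S Φ γ) * κ = 1 ∧ f3 (gg κ κ (S.X γ)) = 0 ∧
      ns (gg κ κ (S.X γ)) + 1 = (S.s γ i0 + (S.s γ i0)⁻¹) ^ 2) := by
    intro γ
    by_cases hγ : S.s γ i0 < S.s γ i1
    · obtain ⟨κ, a1, a2, a3, a4, a5⟩ := gaugeO S h1 h2 h4 hr hN hi0 hi1 T.b γ hb hγ
      exact ⟨κ, a1, a2, fun _ => ⟨a3, a4, a5⟩⟩
    · exact ⟨κ0, ka, kb, fun h => absurd h hγ⟩
  choose κ k1 k1' k2 using hex
  have hmid := mid31 hs hr hN hi0 T hb
  -- bounds on the regions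
  have hbd : ∀ n, ∃ K : ℝ, 1 ≤ K ∧ ∀ γ ∈ T.W n, S.s γ i0 ≤ K := by
    intro n
    obtain ⟨K, hK⟩ := T.cpt n
    exact ⟨max K 1, le_max_right _ _, fun γ hγ => ((hmid γ).2.2 K (hK γ hγ)).trans (le_max_left _ _)⟩
  obtain ⟨Ga, hGk, hGg⟩ : ∃ Ga : Gau T i0 (Fin 3) f3, Ga.κ = κ ∧ Ga.good = {γ | S.s γ i0 < S.s γ i1} :=
    ⟨{ κ := κ
       u1 := k1
       u2 := k1'
       good := {γ | S.s γ i0 < S.s γ i1}
       hgood := hgood
       hX := fun γ hγ => (k2 γ hγ).2.1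
       hXb := by
         intro n
         obtain ⟨K, hK1, hK⟩ := hbd n
         refine ⟨Fintype.card (Bk T.b i0) * (Fintype.card (Bk T.b i0) * (1 * K) * 1), 1, one_pos,
           fun γ hW hγ => ⟨1, one_ne_zero, ?_⟩⟩
         rw [one_smul]
         refine ⟨(k2 γ hγ).2.1, ?_, (det_O31 (k2 γ hγ).2.1).ge⟩
         have b1 : ∀ i j, ‖(κ γ) i j‖ ≤ 1 := ent_one31 (k1 γ)
         have b2 : ∀ i j, ‖(κ γ)ᴴ i j‖ ≤ 1 := by
           intro i j
           rw [conjTranspose_apply, norm_star]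
           exact b1 j i
         have b3 : ∀ i j, ‖res T.b i0 (S.X γ) i j‖ ≤ K := by
           intro i j
           unfold res Sv.X
           rw [submatrix_apply, diagonal_apply]
           split_ifs with hij
           · rw [norm_inv, Complex.norm_real, Real.norm_of_nonneg (S.pos γ _).le]
             exact ((hmid γ).2.1 _ i.2).trans (hK γ hW)
           · rw [norm_zero]
             linarith
         exact ent_mul31 (by positivity) (ent_mul31 zero_le_one b2 b3) b1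
       hC := fun g h n => o_close h1 h2 h4 hr hN hi0 hi1 T hb hgood κ k1 k1' (fun γ hγ => (k2 γ hγ).1) g h n }, rfl, rfl⟩
  have hXX : ∀ γ ∈ Ga.good, Ga.XX γ ∈ HH f3 ∧ ns (Ga.XX γ) + 1 = (S.s γ i0 + (S.s γ i0)⁻¹) ^ 2 := by
    intro γ hγ
    rw [hGg] at hγ
    unfold Gau.XX
    rw [hGk]
    refine ⟨⟨(k2 γ hγ).2.1, ?_⟩, (k2 γ hγ).2.2⟩
    intro h
    have h5 := det_O31 (k2 γ hγ).2.1
    rw [h, norm_zero] at h5
    exact zero_ne_one h5
  have hc1 : ∀ γ, (S.s γ i0 + (S.s γ i0)⁻¹) / 2 ≤ S.s γ i0 := by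
    intro γ
    have h5 := (hmid γ).1
    have h6 : (S.s γ i0)⁻¹ ≤ 1 := inv_le_one_of_one_le₀ h5
    linarith
  have hc2 : ∀ γ, S.s γ i0 / 2 ≤ (S.s γ i0 + (S.s γ i0)⁻¹) / 2 := by
    intro γ
    have := inv_nonneg.2 (S.pos γ i0).le
    linarith
  have hc3 : ∀ γ, 0 < (S.s γ i0 + (S.s γ i0)⁻¹) / 2 := by
    intro γ
    have := S.pos γ i0
    positivity
  refine haag_of_gau Ga f3_isG fun n0 ε hε => ?_
  obtain ⟨K0, hK01, hK0⟩ := hbd n0
  obtain ⟨t, ht, hte⟩ := rpow_small31 K0 hK01 (ε := ε ^ 2 / 2) (by positivity)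
  obtain ⟨L, i1', i2', i3', Mo, hMo⟩ := mdlO ht
  have hin : ∀ γ ∈ Ga.good, (inner ℂ (Mo.π (Ga.XX γ) Mo.v) Mo.v : ℂ) =
      ((((S.s γ i0 + (S.s γ i0)⁻¹) / 2) ^ (-(2 * t)) : ℝ) : ℂ) := by
    intro γ hγ
    obtain ⟨a1, a2⟩ := hXX γ hγ
    rw [← inner_conj_symm, hMo _ a1, Complex.conj_ofReal]
    congr 1
    refine coef31 (hc3 γ) ?_
    rw [a2]
    congr 1
    ring
  have hcmp : ∀ (K : ℝ) (γ : G), S.s γ i0 ≤ K → K ^ (-(2 * t)) ≤ ((S.s γ i0 + (S.s γ i0)⁻¹) / 2) ^ (-(2 * t)) := by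
    intro K γ hγ
    exact Real.rpow_le_rpow_of_nonpos (hc3 γ) ((hc1 γ).trans hγ) (by linarith)
  refine ⟨L, i1', i2', i3', Mo, fun γ hγ => ?_, fun n => ?_, fun γ hγ hW => ?_, fun δ hδ => ?_⟩
  · rw [hin γ hγ, Complex.ofReal_re]
    exact Real.rpow_nonneg (hc3 γ).le _
  · obtain ⟨K, hK1, hK⟩ := hbd n
    refine ⟨K ^ (-(2 * t)), Real.rpow_pos_of_pos (by linarith) _, fun γ hW hγ => ?_⟩
    rw [hin γ hγ, Complex.ofReal_re]
    exact hcmp K γ (hK γ hW)
  · have h5 : ‖Mo.π (Ga.XX γ) Mo.v - Mo.v‖ ^ 2 = 2 - 2 * ((S.s γ i0 + (S.s γ i0)⁻¹) / 2) ^ (-(2 * t)) := by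
      rw [@norm_sub_sq ℂ, LinearIsometryEquiv.norm_map, Mo.nv, hin γ hγ]
      simp only [RCLike.re_to_complex, Complex.ofReal_re]
      ring
    have h6 := hcmp K0 γ (hK0 γ hW)
    have h7 : ‖Mo.π (Ga.XX γ) Mo.v - Mo.v‖ ^ 2 ≤ ε ^ 2 := by
      rw [h5]
      linarith
    exact (sq_le_sq₀ (norm_nonneg _) hε.le).1 h7
  · obtain ⟨C, hC⟩ := rpow_dec31 ht hδ
    obtain ⟨n, hn⟩ := hout C
    refine ⟨n, fun γ hγ hW => ?_⟩
    have h5 : C < S.s γ i0 := by
      by_contra h6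
      push Not at h6
      exact hW (hn γ h6)
    rw [hin γ hγ, Complex.norm_real, Real.norm_of_nonneg (Real.rpow_nonneg (hc3 γ).le _)]
    refine hC _ ?_
    have := hc2 γ
    linarith

open Pool.Agent.Helper96.RK in
theorem haag_odd {S : Sv P} {Φ : MN N} (h1 : Φᴴ * Φ = 1) (h2 : Φᵀ = Φ) (h4 : ∀ g, (P.ι g)ᵀ * Φ * P.ι g = Φ)
    {r : ℕ} (hN : N = 2 * r + 1) {J : Finset (Fin N)} {c : List (Finset (Fin N))}
    (hch : IsCh (J :: c)) (hne : ∀ m, (TC S (J :: c) m).Nonempty) (hl : c.length + 2 = r) :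
    HaagR (Pool.Agent.Helper96.RK.toReg (chStr S J c)) := by
  have hs : ∀ γ i, S.s γ i * S.s γ (Fin.rev i) = 1 := fun γ i => bil_symm h1 h4 S γ i
  have hr : 2 ≤ r := by omega
  have hone : ∀ γ (i : Fin N), (i : ℕ) = r → S.s γ i = 1 := by
    intro γ i hi
    have e1 := hs γ i
    have e2 : Fin.rev i = i := Fin.ext (by
      rw [Fin.val_rev]
      omega)
    rw [e2] at e1
    have e4 := S.pos γ i
    nlinarith
  have hmin : ∀ i : Fin N, (i : ℕ) + 1 < N → min (i : ℕ) (N - 2 - i) < r := by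
    intro i hi
    omega
  obtain ⟨cl, hcl⟩ : ∃ cl : Fin N → Option (Fin r), ∀ i, cl i = if h : (i : ℕ) + 1 < N then
      some ⟨min (i : ℕ) (N - 2 - i), hmin i h⟩ else none := ⟨_, fun _ => rfl⟩
  have hsome : ∀ (i : Fin N) (h : (i : ℕ) + 1 < N), cl i = some ⟨min (i : ℕ) (N - 2 - i), hmin i h⟩ :=
    fun i h => by rw [hcl i, dif_pos h]
  have hsome' : ∀ (i : Fin N) (l : Fin r), (i : ℕ) + 1 < N → min (i : ℕ) (N - 2 - i) = l → cl i = some l := by
    intro i l h h'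
    rw [hsome i h]
    congr 1
    exact Fin.ext h'
  have hnone : ∀ i : Fin N, cl i = none → ¬ (i : ℕ) + 1 < N := by
    intro i h1 h2
    rw [hsome i h2] at h1
    exact absurd h1 (by simp)
  have hlast : ∀ (γ : G) (i : Fin N), ¬ (i : ℕ) + 1 < N → lg S γ i = 0 := by
    intro γ i hi
    unfold lg gp
    rw [dif_neg hi, Real.log_one]
  have hzero : ∀ i, cl i = none → ∀ γ, lg S γ i = 0 := fun i hi γ => hlast γ i (hnone i hi)
  have hsame : ∀ i j, cl i = cl j → ∀ γ, lg S γ i = lg S γ j := by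
    intro i j h γ
    by_cases hi : (i : ℕ) + 1 < N
    · by_cases hj : (j : ℕ) + 1 < N
      · rw [hsome i hi, hsome j hj] at h
        have h2 : min (i : ℕ) (N - 2 - i) = min (j : ℕ) (N - 2 - j) := by
          have h3 := Option.some.inj h
          exact congrArg Fin.val h3
        rcases Nat.lt_trichotomy (i : ℕ) (j : ℕ) with h4 | h4 | h4
        · exact lg_symm hs γ (by omega)
        · rw [Fin.ext h4]
        · exact lg_symm hs γ (by omega)
      · rw [hsome i hi, hcl j, dif_neg hj] at h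
        exact absurd h (by simp)
    · by_cases hj : (j : ℕ) + 1 < N
      · rw [hsome j hj, hcl i, dif_neg hi] at h
        exact absurd h (by simp)
      · rw [hlast γ i hi, hlast γ j hj]
  obtain ⟨cA, cB, l, cC⟩ := chain_class cl hzero hsame hch hne hl
  have hlr := l.2
  obtain ⟨il, hilv⟩ : ∃ il : Fin N, (il : ℕ) = l := ⟨⟨l, by omega⟩, rfl⟩
  have hclil : cl il = some l := hsome' il l (by omega) (by omega)
  by_cases hJ : il ∈ J
  swap
  · refine haag_class_zero fun k hk γ => ?_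
    rcases cC k hk with h | h
    · exact hzero k h γ
    · exact absurd (cB k il hk (h.trans hclil.symm)) hJ
  have hnot : ∀ k : Fin N, (k : ℕ) + 1 < N → min (k : ℕ) (N - 2 - k) ≠ l → k ∉ J := by
    intro k hk hne' hkJ
    rcases cC k hkJ with h | h
    · exact hnone k h hk
    · rw [hsome k hk] at h
      exact hne' (congrArg Fin.val (Option.some.inj h))
  have hpair : ∀ k ∈ J, (∀ γ, lg S γ k = 0) ∨ ∀ γ, lg S γ k = lg S γ il := by
    intro k hk
    rcases cC k hk with h | h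
    · exact Or.inl (hzero k h)
    · exact Or.inr (hsame k il (h.trans hclil.symm))
  by_cases hlr1 : (l : ℕ) + 1 < r
  · obtain ⟨jl, hjlv⟩ : ∃ jl : Fin N, (jl : ℕ) = l + 1 := ⟨⟨l + 1, by omega⟩, rfl⟩
    refine haag_class_pair (i := il) (j := jl) (by omega) hJ ?_ ?_ hpair
    · intro k hk
      exact hnot k (by omega) (by omega)
    · intro _
      exact hnot jl (by omega) (by omega)
  · have hlv : (l : ℕ) = r - 1 := by omega
    obtain ⟨i1, hi1⟩ : ∃ i1 : Fin N, (i1 : ℕ) = r - 2 := ⟨⟨r - 2, by omega⟩, rfl⟩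
    have hi1J : i1 ∉ J := hnot i1 (by omega) (by omega)
    refine haag_mid3 h1 h2 h4 hr hN (i0 := il) (i1 := i1) (by omega) hi1 (chStr S J c) ?_ ?_ ?_
    · refine bJ_int (J := J) (a := r - 1) (b := r + 1) (by omega) (by omega) ?_ ?_ ?_ (i0 := il) (by omega)
      · intro k hk1 hk2
        exact cB il k hJ (hclil.trans (hsome' k l (by omega) (by omega)).symm)
      · intro k hk
        exact hnot k (by omega) (by omega)
      · intro k hk _
        exact hnot k (by omega) (by omega)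
    · intro n
      filter_upwards [TC_mem_FC S J c 1 n] with γ hγ
      have h5 := ((TC_cons S).1 hγ).1 _ hi1J
      have h6 := sum_lg_nonneg S γ J
      push_cast at h5
      have h7 : (1 : ℝ) < gp S γ i1 := by
        rw [gp_eq_exp]
        exact Real.one_lt_exp_iff.2 (by linarith)
      unfold gp at h7
      have hi : (i1 : ℕ) + 1 < N := by omega
      rw [dif_pos hi, one_lt_div (S.pos _ _)] at h7
      have h8 : (⟨(i1 : ℕ) + 1, hi⟩ : Fin N) = il := Fin.ext (by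
        change (i1 : ℕ) + 1 = il
        omega)
      rw [h8] at h7
      exact h7
    · intro x
      refine ⟨⌈Real.log x⌉₊, fun γ hγ => ?_⟩
      change ∀ i ∈ J, lg S γ i ≤ (⌈Real.log x⌉₊ : ℕ)
      intro i hi
      rcases hpair i hi with h | h
      · rw [h γ]
        exact Nat.cast_nonneg _
      · rw [h γ]
        have hi' : (il : ℕ) + 1 < N := by omega
        have h5 : lg S γ il = Real.log (S.s γ il) := by
          unfold lg gp
          rw [dif_pos hi', hone γ ⟨il + 1, hi'⟩ (by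
            change (il : ℕ) + 1 = r
            omega), div_one]
        rw [h5]
        exact (Real.log_le_log (S.pos γ il) hγ).trans (Nat.le_ceil _)

end Pool.Agent.Helper84.SPQ
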