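import Pool.Agent.Helper84.SPQ.A5
import Pool.Agent.Helper84.SPQ.O3
import Pool.Agent.Helper84.SPQ.S3
import Pool.Agent.Helper84.SPQ.E2
import Pool.Agent.Helper84.SPQ.ZDef

/-!
# Project SPQ, block Z1: the main theorem
-/

set_option autoImplicit false
set_option linter.unusedSectionVars false

open MeasureTheory Filter Topology Matrix

namespace Pool.Agent.Helper84.SPQ

open Pool.Agent.Helper84.NI Pool.Agent.Helper84.GN Pool.Agent.Helper84.GVN Pool.Agent.Helper90.RK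
open Pool.Agent.Helper96.RK Pool.Agent.Helper66.FR Pool.Agent.Helper84.FR Pool.Agent.Helper96.FR
open Pool.Agent.Helper66.RKS Pool.Agent.Helper55.FR Pool.Agent.Helper66.RK

theorem form_star84 (N p : ℕ) : (form N p)ᴴ = form N p := by
  unfold form
  rw [diagonal_conjTranspose]
  congr 1
  funext i
  rw [Pi.star_apply]
  split_ifs <;> simp

theorem form_trans84 (N p : ℕ) : (form N p)ᵀ = form N p := by
  unfold form
  rw [diagonal_transpose]

theorem form_sq84 (N p : ℕ) : form N p * form N p = 1 := by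
  unfold form
  rw [diagonal_mul_diagonal, ← diagonal_one]
  congr 1
  funext i
  split_ifs <;> simp

theorem haag_class3 {Γ : Type} [Group Γ] {N r : ℕ} (ρ : PRep Γ N) (hρ : NotSp ρ r) (S : Sv ρ.ph)
    {J : Finset (Fin N)} {c : List (Finset (Fin N))}
    (hch : IsCh (J :: c)) (hne : ∀ m, (TC S (J :: c) m).Nonempty) (hl : c.length + 2 = r) :
    HaagR (Pool.Agent.Helper96.RK.toReg (chStr S J c)) := by
  rcases hρ with hN | ⟨hb, hN⟩ | ⟨⟨Φ, h1, h2, h4⟩, hN⟩ | hH | ⟨⟨j, k1, k2, k3⟩, hN⟩ | ⟨⟨j, k1, k2, k3⟩, hH, hN⟩ |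
    ⟨hN, hH, j, k1, k2, k3, hrel⟩
  · exact haag_class2 ρ (Or.inl hN) S hch hne hl
  · exact haag_class2 ρ (Or.inr (Or.inl ⟨hb, hN⟩)) S hch hne hl
  · exact haag_odd (P := ρ.ph) h1 h2 h4 hN hch hne hl
  · exact haag_class2 ρ (Or.inr (Or.inr hH)) S hch hne hl
  · exact haag_quat_sl (P := ρ.ph) k1 k2 k3 hN hch hne hl
  · exact haag_quat_sym (P := ρ.ph) k1 k2 k3 hN
      (fun γ i => upq_symm (P := ρ.ph) (form_sq84 N (2 * r)) (fun g => hH g) S γ i) hch hne hl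
  · refine haag_sostar (P := ρ.ph) (Φ := form N (2 * r + 1)) (form_star84 _ _) (form_sq84 _ _) (fun g => hH g) k1 k2 k3 ?_
      (by omega) hch hne hl
    rw [form_star84, form_trans84]
    exact hrel

theorem notSp_classical {Γ : Type} [Group Γ] {N : ℕ} (ρ : PRep Γ N) {r : ℕ} (h : NotSp ρ r) : ρ.Classical r := by
  rcases h with hN | ⟨hb, hN⟩ | ⟨⟨Φ, h1, -, h4⟩, hN⟩ | ⟨p, hH, hm⟩ | ⟨hq, hN⟩ | ⟨hq, hH, hN⟩ | ⟨hN, hH, j, k1, k2, k3, -⟩
  · exact Or.inl hN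
  · exact Or.inr (Or.inl ⟨hb, by omega⟩)
  · exact Or.inr (Or.inl ⟨⟨Φ, h1, h4⟩, by omega⟩)
  · exact Or.inr (Or.inr (Or.inr ⟨p, hH, Or.inl hm⟩))
  · exact Or.inr (Or.inr (Or.inl ⟨hq, by omega⟩))
  · exact Or.inr (Or.inr (Or.inr ⟨_, hH, Or.inr ⟨hq, by omega⟩⟩))
  · exact Or.inr (Or.inr (Or.inr ⟨_, hH, Or.inr ⟨⟨j, k1, k2, k3⟩, by omega⟩⟩))

theorem rankT_rankGE {G : Type} [Group G] [TopologicalSpace G] {r : ℕ} (h : RankT G r) : RankGE G r := by
  obtain ⟨a, u, w, φ, g0, haa, ha0, hstep, -⟩ := h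
  exact ⟨a, u, w, haa, ha0, hstep⟩

section Main

variable {G1 : Type} [Group G1] [TopologicalSpace G1] [IsTopologicalGroup G1] [LocallyCompactSpace G1]
  [SecondCountableTopology G1] [T2Space G1] {Γ1 : Subgroup G1} {Γ2 : Type} [Group Γ2] {r r' N : ℕ}

theorem no_emb3 (hL : Pool.Agent.Helper96.FR.Lattice Γ1) (hr : 2 ≤ r) (hG : RankT G1 r) (ρ : PRep Γ2 N) (hρ : NotSp ρ r)
    (E : Emb Γ1 Γ2) : False := by
  obtain ⟨S⟩ := nonempty_sv ρ.ph
  have hd : DiscreteTopology Γ1 := hL.1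
  have hcount : Countable Γ1 := countable_of_discrete Γ1
  obtain ⟨X, mX, act, μ, hμ, c, hmp, hme, hmul, hF2, hF3, hF4⟩ := exists_cocycle Γ1 hL
  have i1 : MeasurableConstSMul G1 X := ⟨fun g => (hmp g).measurable⟩
  have i2 : SMulInvariantMeasure G1 X μ := ⟨fun g s hs => (hmp g).measure_preimage hs.nullMeasurableSet⟩
  let a : Cocy G1 X Γ1 := ⟨c, fun h l => hme h {l}, hmul⟩
  exact no_emb_core (S := S) (a := a) hr (fun T => hasCoc T) (fun J c hch hne hl => haag_class3 ρ hρ S hch hne hl) E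
    hF2 hF3 (fun F hF => ⟨countable_of_discrete F, hF4 F hF⟩) hG

/-- No trace preserving homomorphism. -/
theorem no_hom3 (hL : Pool.Agent.Helper96.FR.Lattice Γ1) (hr : 2 ≤ r) (hG : RankT G1 r) (ρ : PRep Γ2 N) (hr' : r' ≤ r)
    (hρ : NotSp ρ r') (θ : LH Γ1 →⋆ₐ[ℂ] LH Γ2) (hτ : ∀ x, (θ x).tr = x.tr) : False := by
  rcases Nat.lt_or_ge r' r with hlt | hge
  · have h1 := full_rank_tr hL (rankT_rankGE hG) (classical_rankLE ρ r' (notSp_classical ρ hρ)) θ hτ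
    omega
  · have e : r' = r := le_antisymm hr' hge
    subst e
    refine no_emb3 hL hr hG ρ hρ (homEmb (((bridge Γ2).toStarAlgHom.comp θ).comp (bridge Γ1).symm.toStarAlgHom) fun x => ?_)
    have h1 := hτ ((bridge Γ1).symm x)
    change (θ ((bridge Γ1).symm x)).coeff 1 = ((bridge Γ1).symm x).coeff 1 at h1
    rw [← bridge_coeff, ← bridge_coeff] at h1
    exact h1

theorem no_iso3 (hL : Pool.Agent.Helper96.FR.Lattice Γ1) (hr : 2 ≤ r) (hG : RankT G1 r) (hicc : IsICC Γ1) (ρ : PRep Γ2 N) (hr' : r' ≤ r)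
    (hρ : NotSp ρ r') : ¬ IsoL Γ1 Γ2 := by
  intro hiso
  rcases Nat.lt_or_ge r' r with hlt | hge
  · have h1 := full_rank hL hicc (rankT_rankGE hG) (classical_rankLE ρ r' (notSp_classical ρ hρ)) hiso
    omega
  · have e : r' = r := le_antisymm hr' hge
    subst e
    obtain ⟨e⟩ := hiso
    let e' : LG Γ1 ≃⋆ₐ[ℂ] LG Γ2 := (bridge Γ1).symm.trans (e.trans (bridge Γ2))
    exact no_emb3 hL hr hG ρ hρ (homEmb e'.toStarAlgHom fun x => Pool.Agent.Helper84.TU.tr_iso hicc e' x)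

end Main

theorem main_PSpQ {p q : ℕ} (hp : 2 ≤ p) (hpq : p < q) (Γ₁ : Subgroup (PSpQ p q)) (hL : Pool.Agent.Helper96.FR.Lattice Γ₁)
    (Γ₂ : Type) [Group Γ₂] (N r : ℕ) (ρ : PRep Γ₂ N) (hr : r ≤ p) (hρ : NotSp ρ r) :
    ¬ Pool.Agent.Helper66.BD.EmbL Γ₁ Γ₂ ∧ ¬ IsoL Γ₁ Γ₂ := by
  have i1 : T2Space (SpQ p q) := t2_SpJ (sgnpq p q)
  have i2 : LocallyCompactSpace (SpQ p q) := locallyCompact_SpJ (sgnpq p q)
  have i3 : SecondCountableTopology (SpQ p q) := secondCountable_SpJ (sgnpq p q)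
  have hcl : IsClosed (Subgroup.center (SpQ p q) : Set (SpQ p q)) := (center_compact p q).isClosed
  have i4 : T2Space (PSpQ p q) := by
    have h3 : T3Space (SpQ p q ⧸ Subgroup.center (SpQ p q)) := @QuotientGroup.instT3Space _ _ _ _ _ _ hcl
    infer_instance
  have i5 : SecondCountableTopology (PSpQ p q) := inferInstance
  refine ⟨?_, no_iso3 hL hp (rankT_PSpQ hp hpq) (icc_PSpQ (by omega) (by omega) hL) ρ hr hρ⟩
  rintro ⟨θ, hτ⟩
  exact no_hom3 hL hp (rankT_PSpQ hp hpq) ρ hr hρ θ hτ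

end Pool.Agent.Helper84.SPQ
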