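import Pool.Agent.Helper84.SPQ.B0
import Pool.Agent.Helper84.FR.XX

/-!
# Project SPQ, block A2: sections which are close, or orthogonal, over parts of the region

`xua_near`. PROOF. As in `xcarrier` (`FR/XX.lean`; there is a private submodule `sxV`): `y` is in the closure of the set of the `y'` for which there is `n` with `UE.map μ (ind ℂ t) y' = y'` for all `t ∈ R.F n` (this set is a submodule because `R.F n` is increasing, so it contains the span). Choose `y'` with `‖y - y'‖ ≤ δ`, `n0` its index. For `n ≥ n0`: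
`R.F n0 ≤ R.F n` (`monoF`), so `ind t y' = y'` for `t ∈ R.F n`; take `t = s ∩ R.W n` (`R.le n`). `(mulF vX - mulF v) y' = (mulF (vX - v)) (ind t y')` has norm `≤ ε ‖y'‖` (`mulF ∘ ind t` is `mulF` of the function cut off to `t`, see `mulF_ind88`, `mulF_sub88` (private, `FR/XA.lean`), `norm_mulF_le`, `UE.norm_map_le_of`), `‖y'‖ ≤ ‖y‖ + δ`, and
`‖mulF vX (y - y')‖ = ‖y - y'‖` (`xnorm_map_mulF`), the same for `v`.
`xua_decay`. PROOF. `y = ind s y` (`XUa_ind`). `mulop f ∘ ind s = ind W ∘ mulop f' ∘ ind W + mulop f''`, `f' = f 1_s`, `f'' = f 1_(s \ W)` (pointwise; `mulop f = dg (fun γ => f γ • id)`, see `esx_mulop` in `FR/ES.lean` for its values); `⟪y, ind W (mulop f' (ind W y))⟫ = ⟪ind W y, mulop f' (ind W y)⟫` (`xinner_ind`) has modulus `≤ ‖ind W y‖²`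
(norm of `mulop f'` at most one: `norm_dg_le`, `UE.norm_map_le_of`), `‖mulop f''‖ ≤ δ`.
-/

set_option autoImplicit false

open Filter Topology Matrix

namespace Pool.Agent.Helper84.SPQ

open NI GVN GN FR MeasureTheory Pool.Agent.Helper66.FR

variable {G X : Type} [Group G] [MeasurableSpace X] {μ : Measure X} {R : Reg G}

private theorem mono88 (R : Reg G) {n n' : ℕ} (h : n ≤ n') : R.F n ≤ R.F n' := by
  induction n', h using Nat.le_induction with
  | base => exact le_rfl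
  | succ m _ ih => exact ih.trans (R.monoF m)

/-- the vectors carried by the sets of one of the filters, as a submodule -/
private def sub88 (μ : Measure X) (R : Reg G) : Submodule ℂ (UE μ (L2 G)) where
  carrier := {η : UE μ (L2 G) | ∃ n : ℕ, ∀ s ∈ R.F n, UE.map μ (ind ℂ s) η = η}
  add_mem' := by
    rintro a b ⟨n, h1⟩ ⟨n', h2⟩
    refine ⟨max n n', fun s hs => ?_⟩
    rw [map_add, h1 s (mono88 R (le_max_left n n') hs), h2 s (mono88 R (le_max_right n n') hs)]
  zero_mem' := ⟨0, fun E _ => map_zero _⟩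
  smul_mem' := by
    rintro c a ⟨n, h1⟩
    refine ⟨n, fun E hE => ?_⟩
    rw [map_smul, h1 E hE]

private theorem carrier88 {y : UE μ (L2 G)} (hy : y ∈ XUa μ R) {δ : ℝ} (hδ : 0 < δ) :
    ∃ (y' : UE μ (L2 G)) (n : ℕ), (∀ s ∈ R.F n, UE.map μ (ind ℂ s) y' = y') ∧ ‖y - y'‖ ≤ δ := by
  have hle : (XUa μ R) ≤ (sub88 μ R).topologicalClosure := by
    refine Submodule.topologicalClosure_minimal _ ?_ (Submodule.isClosed_topologicalClosure _)
    rw [Submodule.span_le]
    intro b hb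
    exact Submodule.le_topologicalClosure _ hb
  have h := hle hy
  rw [← SetLike.mem_coe, Submodule.topologicalClosure_coe, Metric.mem_closure_iff] at h
  obtain ⟨y', ⟨n, hn⟩, hd⟩ := h δ hδ
  exact ⟨y', n, hn, by rw [← dist_eq_norm]; exact hd.le⟩

theorem xua_near {y : UE μ (L2 G)} (hy : y ∈ XUa μ R) {δ : ℝ} (hδ : 0 < δ) : ∃ n0 : ℕ, ∀ n, n0 ≤ n →
    ∀ (L : Type) [NormedAddCommGroup L] [InnerProductSpace ℂ L] [CompleteSpace L] (Γ : Coc R L) (s : Set G) (ε : ℝ), 0 ≤ ε →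
      (∀ m, s ∈ R.F m) → (∀ γ ∈ s, γ ∈ R.W n → ‖Γ.vX γ - Γ.v‖ ≤ ε) →
      ‖UE.map μ (mulF fun γ => Γ.vX γ) y - UE.map μ (mulF fun _ => Γ.v) y‖ ≤ ε * (‖y‖ + δ) + 2 * δ := by
  classical
  obtain ⟨y', n0, hy', hd⟩ := carrier88 hy hδ
  refine ⟨n0, fun n hn L _ _ _ Γ s ε hε hs hsv => ?_⟩
  -- the set
  obtain ⟨t, ht⟩ : ∃ t : Set G, t = s ∩ R.W n := ⟨_, rfl⟩
  have htF : t ∈ R.F n0 := by
    have h1 : t ∈ R.F n := by
      rw [ht]
      exact inter_mem (hs n) (R.le n (mem_principal_self _))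
    exact mono88 R hn h1
  have hyt : UE.map μ (ind ℂ t) y' = y' := hy' t htF
  have hcomp : (mulF (fun γ => Γ.vX γ) - mulF (fun _ : G => Γ.v)).comp (ind ℂ t) =
      mulF (t.indicator fun γ => Γ.vX γ - Γ.v) := by
    have hb : ∀ γ, ‖t.indicator (fun γ => Γ.vX γ - Γ.v) γ‖ ≤ 2 := by
      intro γ
      unfold Set.indicator
      split_ifs
      · refine (norm_sub_le _ _).trans ?_
        rw [Γ.nvX, Γ.nv]
        norm_num
      · rw [norm_zero]
        norm_num
    refine ContinuousLinearMap.ext fun f => lv_ext fun i => ?_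
    rw [ContinuousLinearMap.comp_apply, _root_.sub_apply, lp.coeFn_sub, Pi.sub_apply,
      mulF_apply (C := 1) (fun γ => (Γ.nvX γ).le), mulF_apply (C := 1) (fun _ => Γ.nv.le),
      mulF_apply hb, ind_apply]
    unfold Set.indicator
    by_cases h : i ∈ t
    · rw [if_pos h, if_pos h, smul_sub]
    · rw [if_neg h, if_neg h, zero_smul, zero_smul, sub_zero, smul_zero]
  have hmid : ‖UE.map μ (mulF fun γ => Γ.vX γ) y' - UE.map μ (mulF fun _ => Γ.v) y'‖ ≤ ε * ‖y'‖ := by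
    have h1 : UE.map μ (mulF fun γ => Γ.vX γ) y' - UE.map μ (mulF fun _ => Γ.v) y' =
        UE.map μ (mulF (t.indicator fun γ => Γ.vX γ - Γ.v)) y' := by
      rw [← UE.map_sub, ← hcomp, UE.map_comp, hyt]
    rw [h1]
    refine UE.norm_map_le_of hε (norm_mulF_le hε fun γ => ?_) y'
    unfold Set.indicator
    split_ifs with h2
    · rw [ht] at h2
      exact hsv γ h2.1 h2.2
    · rw [norm_zero]
      exact hε
  have hA : ‖UE.map μ (mulF fun γ => Γ.vX γ) (y - y')‖ ≤ δ := by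
    rw [xnorm_map_mulF (fun γ => Γ.nvX γ)]
    exact hd
  have hB : ‖UE.map μ (mulF fun _ => Γ.v) (y - y')‖ ≤ δ := by
    rw [xnorm_map_mulF (fun _ => Γ.nv)]
    exact hd
  have hy'n : ‖y'‖ ≤ ‖y‖ + δ := by
    have : y' = y - (y - y') := by abel
    calc ‖y'‖ = ‖y - (y - y')‖ := by rw [← this]
      _ ≤ ‖y‖ + ‖y - y'‖ := norm_sub_le _ _
      _ ≤ ‖y‖ + δ := by linarith
  have hdec : UE.map μ (mulF fun γ => Γ.vX γ) y - UE.map μ (mulF fun _ => Γ.v) y =
      UE.map μ (mulF fun γ => Γ.vX γ) (y - y') +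
        (UE.map μ (mulF fun γ => Γ.vX γ) y' - UE.map μ (mulF fun _ => Γ.v) y') -
        UE.map μ (mulF fun _ => Γ.v) (y - y') := by
    rw [map_sub, map_sub]
    abel
  rw [hdec]
  refine (norm_sub_le _ _).trans ?_
  have h3 := norm_add_le (UE.map μ (mulF fun γ => Γ.vX γ) (y - y'))
    (UE.map μ (mulF fun γ => Γ.vX γ) y' - UE.map μ (mulF fun _ => Γ.v) y')
  have h4 := mul_le_mul_of_nonneg_left hy'n hε
  linarith

omit [Group G] in
private theorem mulop_apply88 {f : G → ℂ} {C : ℝ} (hf : ∀ γ, ‖f γ‖ ≤ C) (x : L2 G) (γ : G) :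
    mulop f x γ = f γ * x γ := by
  unfold mulop
  rw [dg_apply (C := C) (fun i y => by
    rw [_root_.smul_apply, ContinuousLinearMap.id_apply, norm_smul]
    exact mul_le_mul_of_nonneg_right (hf i) (norm_nonneg _)), _root_.smul_apply,
    ContinuousLinearMap.id_apply, smul_eq_mul]

omit [Group G] in
private theorem norm_mulop88 {f : G → ℂ} {C : ℝ} (hC : 0 ≤ C) (hf : ∀ γ, ‖f γ‖ ≤ C)
    (y : UE μ (L2 G)) : ‖UE.map μ (mulop f) y‖ ≤ C * ‖y‖ := by
  refine UE.norm_map_le_of hC (fun x => ?_) y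
  unfold mulop
  refine norm_dg_le hC (fun i y => ?_) x
  rw [_root_.smul_apply, ContinuousLinearMap.id_apply, norm_smul]
  exact mul_le_mul_of_nonneg_right (hf i) (norm_nonneg _)

theorem xua_decay {y : UE μ (L2 G)} (hy : y ∈ XUa μ R) {s W : Set G} (hs : ∀ m, s ∈ R.F m) {f : G → ℂ}
    (hf : ∀ γ, ‖f γ‖ ≤ 1) {δ : ℝ} (hδ : 0 ≤ δ) (h : ∀ γ ∈ s, γ ∉ W → ‖f γ‖ ≤ δ) :
    ‖(inner ℂ y (UE.map μ (mulop f) y) : ℂ)‖ ≤ ‖UE.map μ (ind ℂ W) y‖ ^ 2 + δ * ‖y‖ ^ 2 := by
  classical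
  obtain ⟨f2, hf2⟩ : ∃ f2 : G → ℂ, f2 = (s \ W).indicator f := ⟨_, rfl⟩
  have hb2 : ∀ γ, ‖f2 γ‖ ≤ δ := by
    intro γ
    rw [hf2]
    unfold Set.indicator
    split_ifs with h1
    · exact h γ h1.1 h1.2
    · rw [norm_zero]
      exact hδ
  have hop : (mulop f).comp (ind ℂ s) =
      (ind ℂ W).comp ((mulop f).comp ((ind ℂ W).comp (ind ℂ s))) + mulop f2 := by
    refine ContinuousLinearMap.ext fun x => lv_ext fun i => ?_
    rw [_root_.add_apply, lp.coeFn_add, Pi.add_apply, mulop_apply88 hb2,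
      ContinuousLinearMap.comp_apply, ContinuousLinearMap.comp_apply,
      ContinuousLinearMap.comp_apply, ContinuousLinearMap.comp_apply, ind_apply,
      mulop_apply88 hf, mulop_apply88 hf, ind_apply, ind_apply, ind_apply, hf2]
    unfold Set.indicator
    by_cases h1 : i ∈ W <;> by_cases h2 : i ∈ s <;> simp [h1, h2]
  have hys : UE.map μ (ind ℂ s) y = y := XUa_ind R hs hy
  have hdec : UE.map μ (mulop f) y =
      UE.map μ (ind ℂ W) (UE.map μ (mulop f) (UE.map μ (ind ℂ W) y)) + UE.map μ (mulop f2) y := by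
    calc UE.map μ (mulop f) y = UE.map μ (mulop f) (UE.map μ (ind ℂ s) y) := by rw [hys]
      _ = UE.map μ ((mulop f).comp (ind ℂ s)) y := by rw [UE.map_comp]
      _ = _ := by
        rw [hop, UE.map_add, UE.map_comp, UE.map_comp, UE.map_comp, hys]
  rw [hdec, inner_add_right]
  refine (norm_add_le _ _).trans (add_le_add ?_ ?_)
  · rw [← xinner_ind]
    refine (norm_inner_le_norm _ _).trans ?_
    have h1 := norm_mulop88 (μ := μ) zero_le_one hf (UE.map μ (ind ℂ W) y)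
    rw [one_mul] at h1
    rw [sq]
    exact mul_le_mul_of_nonneg_left h1 (norm_nonneg _)
  · refine (norm_inner_le_norm _ _).trans ?_
    have h1 := norm_mulop88 (μ := μ) hδ hb2 y
    calc ‖y‖ * ‖UE.map μ (mulop f2) y‖ ≤ ‖y‖ * (δ * ‖y‖) :=
          mul_le_mul_of_nonneg_left h1 (norm_nonneg _)
      _ = δ * ‖y‖ ^ 2 := by ring

end Pool.Agent.Helper84.SPQ
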