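import Pool.Agent.Helper84.FR.EV

/-!
# Project SPQ, block A3: the mass of the component leaves the regions

`esc_mass`. PROOF. This is the first half of the proof of `esc` in `FR/EV.lean` (up to the line with `escapeX`): copy it, and apply `escapeX` with the given `ε` instead of `‖z‖ ^ 2 / 2`.
-/

set_option autoImplicit false
set_option linter.unusedSectionVars false

open Filter Topology Matrix

namespace Pool.Agent.Helper84.SPQ

open NI GVN GN FR MeasureTheory Pool.Agent.Helper66.FR Pool.Agent.Helper90.RK Pool.Agent.Helper55.FR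
open Pool.Agent.Helper96.RK (HasCoc)

variable {G1 X : Type} [Group G1] [TopologicalSpace G1] [IsTopologicalGroup G1] [MeasurableSpace X]
  {μ : Measure X} [MulAction G1 X] [MeasurableConstSMul G1 X] [SMulInvariantMeasure G1 X μ]
  [IsProbabilityMeasure μ]
variable {G Λ : Type} [Group G] [Group Λ] [Countable Λ]

theorem esc_mass (a : Cocy G1 X Λ) (E : Emb Λ G) (h3 : Tendsto (fun g : G1 => μ {x | a.a g x ≠ 1}) (𝓝 1) (𝓝 0))
    (hp : ∀ F : Subgroup G1, DiscreteTopology F → Countable F ∧ ∃ p : X → Λ → F,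
      (∀ (l : Λ) (s : Set F), MeasurableSet {x | p x l ∈ s}) ∧
        ∀ (f : F) (x : X) (l : Λ), p ((f : G1) • x) (a.a f x * l) = f * p x l)
    (R : Reg G) (hco : HasCoc R) (b : ℕ → G1) (hcomp : HasComp R (zx μ a E) (fun g => zx_bound g) b)
    (a0 u w : G1) (ha : ∀ n, b n * a0 = a0 * b n) (hu : ∀ n, b n * u = u * b n) (hw : ∀ n, b n * w = w * b n)
    (hu1 : Tendsto (fun m : ℕ => (a0 ^ m)⁻¹ * u * a0 ^ m) atTop (𝓝 1))
    (hw1 : Tendsto (fun m : ℕ => a0 ^ m * w * (a0 ^ m)⁻¹) atTop (𝓝 1))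
    (hdisc : DiscreteTopology (Subgroup.closure {u, w})) (hna : NonAm (Subgroup.closure {u, w}))
    (m : ℕ) {ε : ℝ} (hε : 0 < ε) :
    ∃ k : ℤ, ‖UE.map μ (ind ℂ (R.W m)) ((opL (xmUa μ b R) (cres a (cen b)) (CRep.ext (XAU R) E)
      ((⟨a0, mem_cen.2 ha⟩ : cen b) ^ k) (XPpr R (vec μ a E b)) : XUa μ R) : UE μ (L2 G))‖ ≤ ε := by
  classical
  obtain ⟨L, _, _, _, Γ, hD⟩ := hco
  -- the component
  have hne : XPpr R (vec μ a E b) ≠ 0 := by
    obtain ⟨ξ, ⟨n, hn⟩, hin⟩ := hcomp
    exact XPpr_ne_zero R (Submodule.le_topologicalClosure _ (Submodule.subset_span ⟨n, hn⟩)) hin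
  -- elements of the centraliser
  let a0' : cen b := ⟨a0, mem_cen.2 ha⟩
  let u' : cen b := ⟨u, mem_cen.2 hu⟩
  let w' : cen b := ⟨w, mem_cen.2 hw⟩
  have hu1' : Tendsto (fun m : ℕ => (a0' ^ m)⁻¹ * u' * a0' ^ m) atTop (𝓝 1) := by
    rw [Topology.IsInducing.subtypeVal.tendsto_nhds_iff]
    exact hu1
  have hw1' : Tendsto (fun m : ℕ => a0' ^ m * w' * (a0' ^ m)⁻¹) atTop (𝓝 1) := by
    rw [Topology.IsInducing.subtypeVal.tendsto_nhds_iff]
    exact hw1
  -- the group generated by `u`, `w`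
  have hmap : (Subgroup.closure {u', w'}).map (cen b).subtype = Subgroup.closure {u, w} := by
    rw [MonoidHom.map_closure, Set.image_pair]
    rfl
  let e : Subgroup.closure {u', w'} ≃* Subgroup.closure {u, w} :=
    ((Subgroup.closure {u', w'}).equivMapOfInjective (cen b).subtype (cen b).subtype_injective).trans
      (MulEquiv.subgroupCongr hmap)
  have he : ∀ f : Subgroup.closure {u', w'}, ((e f : Subgroup.closure {u, w}) : G1) = ((f : cen b) : G1) :=
    fun f => rfl
  have hna' : NonAm (Subgroup.closure {u', w'}) := by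
    rw [Pool.Agent.Helper66.RK.nonAm_iff] at hna ⊢
    exact fun h => hna (h.congr e)
  obtain ⟨hcount, p, hpm, hpe⟩ := hp (Subgroup.closure {u, w}) hdisc
  have hcount' : Countable (Subgroup.closure {u', w'}) := e.toEquiv.countable_iff.2 hcount
  have hsmi : SMulInvariantMeasure (Subgroup.closure {u', w'}) X μ :=
    ⟨fun g _ hs => SMulInvariantMeasure.measure_preimage_smul ((g : cen b) : G1) hs⟩
  have hmcs : MeasurableConstSMul (Subgroup.closure {u', w'}) X :=
    ⟨fun g => measurable_const_smul ((g : cen b) : G1)⟩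
  let aF : Cocy (Subgroup.closure {u', w'}) X Λ := cres (cres a (cen b)) (Subgroup.closure {u', w'})
  let I0 : Imp (Subgroup.closure {u', w'}) X (XL μ (L2 Λ)) := impX μ aF (fun x l => e.symm (p x l))
    (fun l g => by
      have h := hpm l {e g}
      refine (congrArg MeasurableSet ?_).mp h
      ext x
      simp only [Set.mem_setOf_eq, Set.mem_singleton_iff]
      exact (MulEquiv.symm_apply_eq e).symm)
    (fun f x l => by
      have h := hpe (e f) x l
      change e.symm (p (((f : cen b) : G1) • x) (a.a ((f : cen b) : G1) x * l)) = f * e.symm (p x l)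
      rw [MulEquiv.symm_apply_eq, map_mul, MulEquiv.apply_symm_apply]
      exact h)
  obtain ⟨k, hk⟩ := escapeX Γ hD a E h3 b a0' u' w' hu1' hw1' hna' I0 (Too μ a E b)
    (fun f φ => Too_V (aF := aF) b f (f : cen b) (fun _ => rfl) (fun _ => rfl) φ)
    (fun D hDm φ => Too_P0 b hDm φ) (v0 μ Λ) (Too_v0 b) m (ε := ε) hε
  exact ⟨k, hk⟩

end Pool.Agent.Helper84.SPQ
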