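import Pool.Agent.Helper84.SPQ.U1

/-!
# Project SPQ, block P0: the positive definite kernels of the unit ball

`ball_psd`. PROOF. Copy the private lemmas `rank24`, ..., `rpow24` of `U1.lean` (as private lemmas of this file) and the proof of `u_psd` with `a x i` in place of `av24 e A k` (`‖⟨a x, a y⟩‖ < 1` by Cauchy-Schwarz, see `cs24`), then `Pool.Agent.Helper90.Fib.psd_diag` with the real weights `g`.
-/

set_option autoImplicit false

open Filter Topology Matrix
open scoped ComplexOrder

namespace Pool.Agent.Helper84.SPQ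

private theorem cs24 {X ι : Type} [Fintype ι] (a : X → ι → ℂ) (h : ∀ x, ∑ i, ‖a x i‖ ^ 2 < 1) (x y : X) :
    ‖∑ k, star (a x k) * a y k‖ < 1 := by
  have h1 : ‖∑ k, star (a x k) * a y k‖ ≤ ∑ k, ‖a x k‖ * ‖a y k‖ := by
    refine (norm_sum_le _ _).trans (le_of_eq ?_)
    refine Finset.sum_congr rfl fun k _ => ?_
    rw [norm_mul, norm_star]
  have h2 : (∑ k, ‖a x k‖ * ‖a y k‖) ^ 2 ≤ (∑ k, ‖a x k‖ ^ 2) * ∑ k, ‖a y k‖ ^ 2 :=
    Finset.sum_mul_sq_le_sq_mul_sq _ _ _
  have h3 := h x
  have h4 := h y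
  have h5 : 0 ≤ ∑ k, ‖a x k‖ ^ 2 := Finset.sum_nonneg fun i _ => sq_nonneg _
  have h6 : 0 ≤ ∑ k, ‖a y k‖ ^ 2 := Finset.sum_nonneg fun i _ => sq_nonneg _
  have h7 : (∑ k, ‖a x k‖ * ‖a y k‖) ^ 2 < 1 := by nlinarith
  have h8 : |∑ k, ‖a x k‖ * ‖a y k‖| < 1 := (sq_lt_one_iff_abs_lt_one _).1 h7
  exact h1.trans_lt ((le_abs_self _).trans_lt h8)

section Psd

variable {X : Type}

private theorem rank24 (v : X → ℂ) : (Matrix.of fun x y => star (v x) * v y).PosSemidef := by
  refine ⟨?_, ?_⟩
  · ext x y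
    rw [Matrix.conjTranspose_apply, Matrix.of_apply, Matrix.of_apply, star_mul', star_star, mul_comm]
  · intro f
    have h1 : (f.sum fun i xi => f.sum fun j xj => star xi *
        (Matrix.of fun x y => star (v x) * v y) i j * xj) =
        star (f.sum fun i xi => v i * xi) * (f.sum fun i xi => v i * xi) := by
      unfold Finsupp.sum
      rw [star_sum, Finset.sum_mul_sum]
      refine Finset.sum_congr rfl fun i _ => Finset.sum_congr rfl fun j _ => ?_
      change star (f i) * (star (v i) * v j) * f j = star (v i * f i) * (v j * f j)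
      rw [star_mul']
      ring
    rw [h1]
    exact star_mul_self_nonneg _

private theorem zero24 : (Matrix.of fun (_ _ : X) => (0 : ℂ)).PosSemidef := by
  refine (congrArg Matrix.PosSemidef ?_).mp (rank24 (X := X) (fun _ => 0))
  ext x y
  simp

private theorem mul24 {A B : Matrix X X ℂ} (hA : A.PosSemidef) (hB : B.PosSemidef) :
    (Matrix.of fun x y => A x y * B x y).PosSemidef := hA.hadamard hB

private theorem smul24 {A : Matrix X X ℂ} (hA : A.PosSemidef) {c : ℝ} (hc : 0 ≤ c) :
    (Matrix.of fun x y => (c : ℂ) * A x y).PosSemidef := by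
  have h1 := rank24 (X := X) (fun _ => ((√c : ℝ) : ℂ))
  have h2 := mul24 h1 hA
  refine (congrArg Matrix.PosSemidef ?_).mp h2
  ext x y
  rw [Matrix.of_apply, Matrix.of_apply, Matrix.of_apply]
  congr 1
  have h3 : star ((√c : ℝ) : ℂ) = ((√c : ℝ) : ℂ) := Complex.conj_ofReal _
  rw [h3, ← Complex.ofReal_mul, Real.mul_self_sqrt hc]

private theorem add24 {A B : Matrix X X ℂ} (hA : A.PosSemidef) (hB : B.PosSemidef) :
    (Matrix.of fun x y => A x y + B x y).PosSemidef := hA.add hB

private theorem pow24 {A : Matrix X X ℂ} (hA : A.PosSemidef) (n : ℕ) :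
    (Matrix.of fun x y => A x y ^ n).PosSemidef := by
  induction n with
  | zero =>
    refine (congrArg Matrix.PosSemidef ?_).mp (rank24 (X := X) (fun _ => 1))
    ext x y
    simp
  | succ n ih =>
    refine (congrArg Matrix.PosSemidef ?_).mp (mul24 ih hA)
    ext x y
    rw [Matrix.of_apply, Matrix.of_apply, Matrix.of_apply, pow_succ]

private theorem fsum24 {ι : Type} {A : ι → Matrix X X ℂ} (s : Finset ι) (hA : ∀ k, (A k).PosSemidef) :
    (Matrix.of fun x y => ∑ k ∈ s, A k x y).PosSemidef := by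
  classical
  induction s using Finset.induction_on with
  | empty =>
    refine (congrArg Matrix.PosSemidef ?_).mp (zero24 (X := X))
    ext x y
    simp
  | insert a s ha ih =>
    refine (congrArg Matrix.PosSemidef ?_).mp (add24 (hA a) ih)
    ext x y
    rw [Matrix.of_apply, Matrix.of_apply, Matrix.of_apply, Finset.sum_insert ha]

private theorem exp24 {A : Matrix X X ℂ} (hA : A.PosSemidef) :
    (Matrix.of fun x y => Complex.exp (A x y)).PosSemidef := by
  have h1 : ∀ n : ℕ, (Matrix.of fun x y => (((n.factorial : ℝ)⁻¹ : ℝ) : ℂ) * A x y ^ n).PosSemidef :=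
    fun n => smul24 (pow24 hA n) (by positivity)
  refine Pool.Agent.Helper90.Fib.psd_lim (fun n => fsum24 (Finset.range n) h1) fun x y => ?_
  have h2 : HasSum (fun n : ℕ => (((n.factorial : ℝ)⁻¹ : ℝ) : ℂ) * A x y ^ n) (Complex.exp (A x y)) := by
    have h3 := NormedSpace.expSeries_div_hasSum_exp (𝔸 := ℂ) (A x y)
    rw [← Complex.exp_eq_exp_ℂ] at h3
    refine (congrArg (fun f => HasSum f (Complex.exp (A x y))) (funext fun n => ?_)).mp h3
    push_cast
    rw [div_eq_mul_inv, mul_comm]
  exact h2.tendsto_sum_nat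

private theorem log24 {S : Matrix X X ℂ} (hS : S.PosSemidef) (h : ∀ x y, ‖S x y‖ < 1) :
    (Matrix.of fun x y => -Complex.log (1 - S x y)).PosSemidef := by
  have h1 : ∀ n : ℕ, (Matrix.of fun x y => (((n : ℝ)⁻¹ : ℝ) : ℂ) * S x y ^ n).PosSemidef :=
    fun n => smul24 (pow24 hS n) (by positivity)
  refine Pool.Agent.Helper90.Fib.psd_lim (fun n => fsum24 (Finset.range n) h1) fun x y => ?_
  have h2 := Complex.hasSum_taylorSeries_neg_log (h x y)
  have h3 : (fun n : ℕ => S x y ^ n / (n : ℂ)) = fun n : ℕ => (((n : ℝ)⁻¹ : ℝ) : ℂ) * S x y ^ n := by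
    funext n
    push_cast
    rw [div_eq_mul_inv, mul_comm]
  rw [h3] at h2
  exact h2.tendsto_sum_nat

private theorem rpow24 (S : Matrix X X ℂ) (hS : S.PosSemidef) (hS' : (Matrix.of fun x y => star (S x y)).PosSemidef)
    (h : ∀ x y, ‖S x y‖ < 1) {t : ℝ} (ht : 0 < t) :
    (Matrix.of fun x y => ((‖1 - S x y‖ ^ (-(2 * t)) : ℝ) : ℂ)).PosSemidef := by
  have h1 := log24 hS h
  have h2 := log24 hS' (fun x y => by
    rw [Matrix.of_apply, norm_star]
    exact h x y)
  have h3 := exp24 (smul24 (add24 h1 h2) ht.le)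
  refine (congrArg Matrix.PosSemidef ?_).mp h3
  ext x y
  have h4 : 0 < ‖1 - S x y‖ := by
    rw [norm_pos_iff]
    intro h5
    have h6 : S x y = 1 := by linear_combination -h5
    have h7 := h x y
    rw [h6, norm_one] at h7
    exact lt_irrefl _ h7
  have h5 : Complex.log (1 - star (S x y)) = star (Complex.log (1 - S x y)) := by
    have h6 : (1 - S x y).arg ≠ Real.pi := by
      intro h7
      have h8 := (Complex.arg_eq_pi_iff.1 h7).1
      have h9 : (S x y).re < 1 := (Complex.re_le_norm _).trans_lt (h x y)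
      rw [Complex.sub_re, Complex.one_re] at h8
      linarith
    have h7 : 1 - star (S x y) = (starRingEnd ℂ) (1 - S x y) := by
      rw [map_sub, map_one]
      rfl
    rw [h7, Complex.log_conj _ h6]
    rfl
  simp only [Matrix.of_apply]
  rw [h5, Real.rpow_def_of_pos h4, Complex.ofReal_exp]
  congr 1
  have h6 : Complex.log (1 - S x y) + star (Complex.log (1 - S x y)) = ((2 * Real.log ‖1 - S x y‖ : ℝ) : ℂ) := by
    have h7 := Complex.add_conj (Complex.log (1 - S x y))
    rw [Complex.log_re] at h7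
    exact_mod_cast h7
  have h7 : (t : ℂ) * (-Complex.log (1 - S x y) + -star (Complex.log (1 - S x y))) =
      -(t : ℂ) * (Complex.log (1 - S x y) + star (Complex.log (1 - S x y))) := by ring
  rw [h7, h6]
  push_cast
  ring

end Psd

theorem ball_psd {X ι : Type} [Fintype ι] (a : X → ι → ℂ) (h : ∀ x, ∑ i, ‖a x i‖ ^ 2 < 1) (g : X → ℝ) {t : ℝ} (ht : 0 < t) :
    (Matrix.of fun x y : X => ((g x * g y * ‖1 - ∑ i, star (a x i) * a y i‖ ^ (-(2 * t)) : ℝ) : ℂ)).PosSemidef := by
  have hS : (Matrix.of fun x y : X => ∑ k, star (a x k) * a y k).PosSemidef :=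
    fsum24 (A := fun k => Matrix.of fun x y : X => star (a x k) * a y k) Finset.univ fun k => rank24 _
  have hS' : (Matrix.of fun x y : X => star (∑ k, star (a x k) * a y k)).PosSemidef := by
    have h1 := fsum24 (A := fun k => Matrix.of fun x y : X =>
      star (star (a x k)) * star (a y k)) Finset.univ
      fun k => rank24 (fun x : X => star (a x k))
    refine (congrArg Matrix.PosSemidef ?_).mp h1
    ext x y
    simp only [Matrix.of_apply]
    rw [star_sum]
    refine Finset.sum_congr rfl fun k _ => ?_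
    rw [star_mul']
  have h2 := rpow24 _ hS hS' (fun x y => cs24 a h x y) ht
  have h3 := Pool.Agent.Helper90.Fib.psd_diag h2 g
  refine (congrArg Matrix.PosSemidef ?_).mp h3
  ext x y
  simp only [Matrix.of_apply]
  push_cast
  ring

end Pool.Agent.Helper84.SPQ
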