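import Pool.Agent.Helper84.SPQ.B0
import Pool.Agent.Helper84.NI.FS

/-!
# Project SPQ, block U1: the group `U(1, m)` and its kernels

`J0 e = 2 E_ee - 1`; `fU e A = ns (Aᴴ J0 A - J0)`; so `HH (fU e) = U(1, m)` (for `A` with `Aᴴ J0 A = J0`: `det A ≠ 0`, `A J0 Aᴴ = J0` as well). PROOFS.
`u_entry`: entry `(e, e)` of `A J0 Aᴴ = J0` or of `Aᴴ J0 A = J0`: `‖A e e‖² = 1 + ∑_{k ≠ e} ‖A k e‖²`. `fU_isG`: direct (`A⁻¹ = J0 Aᴴ J0`).
`u_psd`. For `A, B ∈ U(1, m)`: `A⁻¹ B = J0 Aᴴ J0 B`, so `(A⁻¹ B) e e = conj (A e e) B e e - ∑_{k ≠ e} conj (A k e) B k e = conj (A e e) B e e (1 - ⟨a, b⟩)`, with `a k = A k e / A e e` (`k ≠ e`), `⟨a, b⟩ = ∑ conj (a k) b k`, `∑ ‖a k‖² < 1` (`u_entry`). Hence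
`‖(A⁻¹ B) e e‖^(-2t) = ‖A e e‖^(-2t) ‖B e e‖^(-2t) ‖1 - ⟨a, b⟩‖^(-2t)`, and `‖1 - z‖^(-2t) = (1 - z)^(-t) conj((1 - z)^(-t))`, `(1 - z)^(-t) = ∑ c_n zⁿ`, `c_n = t (t+1) ... (t+n-1)/n! ≥ 0` for `‖z‖ < 1` (binomial series; `NI/FS.lean` or `Helper90/Fib` treat the real analogue for `ker_psd`: look there first).
The kernel `⟨a, b⟩` is positive semidefinite, so are its powers and the powers of its conjugate (Schur product theorem: `Matrix.PosSemidef.hadamard`), sums and limits of such kernels, products with `g(A) g(B)`, `g > 0`.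
(Positive semidefiniteness of a matrix on an infinite type is tested on finitely supported vectors; see the proof of `ker_psd`.) Alternative for `‖1 - z‖^(-2t)`: it is `exp (2 t Re (∑ zⁿ/n))`, exponential of a positive semidefinite real kernel.
-/

set_option autoImplicit false

open Filter Topology Matrix
open scoped ComplexOrder

namespace Pool.Agent.Helper84.SPQ

open NI

variable {M : Type} [Fintype M] [DecidableEq M]

/-- The form of signature `(1, m)`. -/
def J0 (e : M) : Matrix M M ℂ := diagonal fun k => if k = e then 1 else -1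

/-- The equation of `U(1, m)`. -/
noncomputable def fU (e : M) (A : Matrix M M ℂ) : ℝ := ns (Aᴴ * J0 e * A - J0 e)

private theorem ns_zero24 {n : Type} [Fintype n] {A : Matrix n n ℂ} (h : ns A = 0) : A = 0 := by
  unfold ns at h
  ext i j
  have h1 : ∀ i ∈ Finset.univ, ∑ j, ‖A i j‖ ^ 2 = 0 := by
    rw [Finset.sum_eq_zero_iff_of_nonneg] at h
    · exact h
    · intro i _
      exact Finset.sum_nonneg fun j _ => sq_nonneg _
  have h2 := h1 i (Finset.mem_univ i)
  rw [Finset.sum_eq_zero_iff_of_nonneg] at h2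
  · have h3 := h2 j (Finset.mem_univ j)
    have h4 : ‖A i j‖ = 0 := by simpa using h3
    simpa using h4
  · intro j _
    exact sq_nonneg _

theorem fU_eq {e : M} {A : Matrix M M ℂ} : fU e A = 0 ↔ Aᴴ * J0 e * A = J0 e := by
  constructor
  · intro h
    exact sub_eq_zero.1 (ns_zero24 h)
  · intro h
    unfold fU
    rw [h, sub_self]
    simp [ns]

theorem fU_isG (e : M) : IsG (fU e) where
  cont := by
    have h1 : Continuous fun A : Matrix M M ℂ => Aᴴ * J0 e * A - J0 e := by fun_prop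
    have h2 : Continuous fun A : Matrix M M ℂ => ns A := by
      unfold ns
      fun_prop
    exact h2.comp h1
  one := by
    rw [fU_eq]
    simp
  mul A hA B hB := by
    have h1 := fU_eq.1 hA.1
    have h2 := fU_eq.1 hB.1
    rw [fU_eq, conjTranspose_mul]
    calc Bᴴ * Aᴴ * J0 e * (A * B) = Bᴴ * (Aᴴ * J0 e * A) * B := by
          simp only [Matrix.mul_assoc]
      _ = J0 e := by rw [h1, h2]
  inv A hA := by
    have h1 := fU_eq.1 hA.1
    have hu : IsUnit A.det := isUnit_iff_ne_zero.2 hA.2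
    rw [fU_eq]
    have h3 : (A⁻¹)ᴴ * Aᴴ = 1 := by
      rw [← conjTranspose_mul, Matrix.mul_nonsing_inv _ hu, conjTranspose_one]
    calc (A⁻¹)ᴴ * J0 e * A⁻¹ = (A⁻¹)ᴴ * (Aᴴ * J0 e * A) * A⁻¹ := by rw [h1]
      _ = ((A⁻¹)ᴴ * Aᴴ) * J0 e * (A * A⁻¹) := by simp only [Matrix.mul_assoc]
      _ = J0 e := by rw [h3, Matrix.mul_nonsing_inv _ hu, Matrix.one_mul, Matrix.mul_one]
  smul c hc A hA := by
    have h1 := fU_eq.1 hA.1
    rw [fU_eq, conjTranspose_smul, Matrix.smul_mul, Matrix.smul_mul, Matrix.mul_smul, h1, smul_smul]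
    have h2 : star c * c = 1 := by
      have h3 : star c * c = ((Complex.normSq c : ℝ) : ℂ) := by
        rw [Complex.normSq_eq_conj_mul_self]
        rfl
      rw [h3, Complex.normSq_eq_norm_sq, hc]
      simp
    rw [h2, one_smul]

theorem u_entry {e : M} {A : Matrix M M ℂ} (hA : A ∈ HH (fU e)) : 1 ≤ ‖A e e‖ := by
  have h1 := congrFun (congrFun (fU_eq.1 hA.1) e) e
  rw [Matrix.mul_apply] at h1
  unfold J0 at h1
  simp only [Matrix.mul_diagonal, conjTranspose_apply, diagonal_apply_eq, if_true] at h1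
  have h2 := congrArg Complex.re h1
  rw [Complex.re_sum] at h2
  have h3 : ∀ k : M, (star (A k e) * (if k = e then (1 : ℂ) else -1) * A k e).re ≤
      if k = e then ‖A e e‖ ^ 2 else 0 := by
    intro k
    have h4 : star (A k e) * A k e = ((‖A k e‖ ^ 2 : ℝ) : ℂ) := by
      rw [← Complex.normSq_eq_norm_sq, Complex.normSq_eq_conj_mul_self]
      rfl
    by_cases hk : k = e
    · rw [if_pos hk, if_pos hk, mul_one, h4, Complex.ofReal_re, hk]
    · rw [if_neg hk, if_neg hk]
      have h5 : star (A k e) * (-1) * A k e = ((-(‖A k e‖ ^ 2) : ℝ) : ℂ) := by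
        rw [Complex.ofReal_neg, ← h4]
        ring
      rw [h5, Complex.ofReal_re]
      have := sq_nonneg ‖A k e‖
      linarith
  have h4 := Finset.sum_le_sum fun k (_ : k ∈ Finset.univ) => h3 k
  rw [h2, Finset.sum_ite_eq' Finset.univ e, if_pos (Finset.mem_univ e), Complex.one_re] at h4
  nlinarith [norm_nonneg (A e e)]

private theorem J0_sq24 (e : M) : J0 e * J0 e = 1 := by
  unfold J0
  rw [diagonal_mul_diagonal, ← diagonal_one]
  congr 1
  funext k
  split_ifs <;> simp

private theorem inv24 {e : M} {A : Matrix M M ℂ} (hA : A ∈ HH (fU e)) : A⁻¹ = J0 e * Aᴴ * J0 e := by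
  apply Matrix.inv_eq_left_inv
  rw [Matrix.mul_assoc, Matrix.mul_assoc, ← Matrix.mul_assoc Aᴴ, fU_eq.1 hA.1, J0_sq24]

/-- the vector of the unit ball -/
private noncomputable def av24 (e : M) (A : Matrix M M ℂ) (k : M) : ℂ := if k = e then 0 else A k e / A e e

private theorem entry24 {e : M} {A B : Matrix M M ℂ} (hA : A ∈ HH (fU e)) (hB : B ∈ HH (fU e)) :
    (A⁻¹ * B) e e = star (A e e) * B e e * (1 - ∑ k, star (av24 e A k) * av24 e B k) := by
  have hA0 : A e e ≠ 0 := by
    intro h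
    have := u_entry hA
    rw [h, norm_zero] at this
    linarith
  have hB0 : B e e ≠ 0 := by
    intro h
    have := u_entry hB
    rw [h, norm_zero] at this
    linarith
  rw [inv24 hA, Matrix.mul_apply]
  unfold J0
  simp only [Matrix.mul_diagonal, Matrix.diagonal_mul, conjTranspose_apply, if_true, one_mul]
  have h1 : ∀ k : M, star (A k e) * (if k = e then (1 : ℂ) else -1) * B k e =
      (if k = e then star (A e e) * B e e else 0) - star (A e e) * B e e * (star (av24 e A k) * av24 e B k) := by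
    intro k
    unfold av24
    by_cases hk : k = e
    · subst hk
      simp
    · rw [if_neg hk, if_neg hk, if_neg hk, if_neg hk, star_div₀]
      have : star (A e e) ≠ 0 := by simpa using hA0
      field_simp
      ring
  rw [Finset.sum_congr rfl fun k _ => h1 k, Finset.sum_sub_distrib, Finset.sum_ite_eq' Finset.univ e,
    if_pos (Finset.mem_univ e), ← Finset.mul_sum]
  ring

private theorem ball24 {e : M} {A : Matrix M M ℂ} (hA : A ∈ HH (fU e)) : ∑ k, ‖av24 e A k‖ ^ 2 < 1 := by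
  have h1 := entry24 hA hA
  rw [Matrix.nonsing_inv_mul _ (isUnit_iff_ne_zero.2 hA.2), Matrix.one_apply_eq] at h1
  have h2 : ∀ z : ℂ, star z * z = ((‖z‖ ^ 2 : ℝ) : ℂ) := by
    intro z
    rw [← Complex.normSq_eq_norm_sq, Complex.normSq_eq_conj_mul_self]
    rfl
  rw [h2, Finset.sum_congr rfl fun k _ => h2 (av24 e A k)] at h1
  have h3 : (1 : ℝ) = ‖A e e‖ ^ 2 * (1 - ∑ k, ‖av24 e A k‖ ^ 2) := by
    exact_mod_cast h1
  have h4 := u_entry hA
  by_contra hn
  push Not at hn
  have h5 : ‖A e e‖ ^ 2 * (1 - ∑ k, ‖av24 e A k‖ ^ 2) ≤ 0 :=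
    mul_nonpos_of_nonneg_of_nonpos (sq_nonneg _) (by linarith)
  linarith

private theorem cs24 {e : M} {A B : Matrix M M ℂ} (hA : A ∈ HH (fU e)) (hB : B ∈ HH (fU e)) :
    ‖∑ k, star (av24 e A k) * av24 e B k‖ < 1 := by
  have h1 : ‖∑ k, star (av24 e A k) * av24 e B k‖ ≤ ∑ k, ‖av24 e A k‖ * ‖av24 e B k‖ := by
    refine (norm_sum_le _ _).trans (le_of_eq ?_)
    refine Finset.sum_congr rfl fun k _ => ?_
    rw [norm_mul, norm_star]
  have h2 : (∑ k, ‖av24 e A k‖ * ‖av24 e B k‖) ^ 2 ≤ (∑ k, ‖av24 e A k‖ ^ 2) * ∑ k, ‖av24 e B k‖ ^ 2 :=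
    Finset.sum_mul_sq_le_sq_mul_sq _ _ _
  have h3 := ball24 hA
  have h4 := ball24 hB
  have h5 : 0 ≤ ∑ k, ‖av24 e A k‖ ^ 2 := Finset.sum_nonneg fun i _ => sq_nonneg _
  have h6 : 0 ≤ ∑ k, ‖av24 e B k‖ ^ 2 := Finset.sum_nonneg fun i _ => sq_nonneg _
  have h7 : (∑ k, ‖av24 e A k‖ * ‖av24 e B k‖) ^ 2 < 1 := by nlinarith
  have h8 : |∑ k, ‖av24 e A k‖ * ‖av24 e B k‖| < 1 := (sq_lt_one_iff_abs_lt_one _).1 h7
  exact h1.trans_lt ((le_abs_self _).trans_lt h8)

section Psd

variable {X : Type}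

private theorem rank24 (v : X → ℂ) : (Matrix.of fun x y => star (v x) * v y).PosSemidef := by
  refine ⟨?_, ?_⟩
  · ext x y
    rw [Matrix.conjTranspose_apply, Matrix.of_apply, Matrix.of_apply, star_mul', star_star, mul_comm]
  · intro f
    have h1 : (f.sum fun i xi => f.sum fun j xj => star xi *
        (Matrix.of fun x y => star (v x) * v y) i j * xj) =
        star (f.sum fun i xi => v i * xi) * (f.sum fun i xi => v i * xi) := by
      unfold Finsupp.sum
      rw [star_sum, Finset.sum_mul_sum]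
      refine Finset.sum_congr rfl fun i _ => Finset.sum_congr rfl fun j _ => ?_
      change star (f i) * (star (v i) * v j) * f j = star (v i * f i) * (v j * f j)
      rw [star_mul']
      ring
    rw [h1]
    exact star_mul_self_nonneg _

private theorem zero24 : (Matrix.of fun (_ _ : X) => (0 : ℂ)).PosSemidef := by
  refine (congrArg Matrix.PosSemidef ?_).mp (rank24 (X := X) (fun _ => 0))
  ext x y
  simp

private theorem mul24 {A B : Matrix X X ℂ} (hA : A.PosSemidef) (hB : B.PosSemidef) :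
    (Matrix.of fun x y => A x y * B x y).PosSemidef := hA.hadamard hB

private theorem smul24 {A : Matrix X X ℂ} (hA : A.PosSemidef) {c : ℝ} (hc : 0 ≤ c) :
    (Matrix.of fun x y => (c : ℂ) * A x y).PosSemidef := by
  have h1 := rank24 (X := X) (fun _ => ((√c : ℝ) : ℂ))
  have h2 := mul24 h1 hA
  refine (congrArg Matrix.PosSemidef ?_).mp h2
  ext x y
  rw [Matrix.of_apply, Matrix.of_apply, Matrix.of_apply]
  congr 1
  have h3 : star ((√c : ℝ) : ℂ) = ((√c : ℝ) : ℂ) := Complex.conj_ofReal _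
  rw [h3, ← Complex.ofReal_mul, Real.mul_self_sqrt hc]

private theorem add24 {A B : Matrix X X ℂ} (hA : A.PosSemidef) (hB : B.PosSemidef) :
    (Matrix.of fun x y => A x y + B x y).PosSemidef := hA.add hB

private theorem pow24 {A : Matrix X X ℂ} (hA : A.PosSemidef) (n : ℕ) :
    (Matrix.of fun x y => A x y ^ n).PosSemidef := by
  induction n with
  | zero =>
    refine (congrArg Matrix.PosSemidef ?_).mp (rank24 (X := X) (fun _ => 1))
    ext x y
    simp
  | succ n ih =>
    refine (congrArg Matrix.PosSemidef ?_).mp (mul24 ih hA)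
    ext x y
    rw [Matrix.of_apply, Matrix.of_apply, Matrix.of_apply, pow_succ]

private theorem fsum24 {ι : Type} {A : ι → Matrix X X ℂ} (s : Finset ι) (hA : ∀ k, (A k).PosSemidef) :
    (Matrix.of fun x y => ∑ k ∈ s, A k x y).PosSemidef := by
  classical
  induction s using Finset.induction_on with
  | empty =>
    refine (congrArg Matrix.PosSemidef ?_).mp (zero24 (X := X))
    ext x y
    simp
  | insert a s ha ih =>
    refine (congrArg Matrix.PosSemidef ?_).mp (add24 (hA a) ih)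
    ext x y
    rw [Matrix.of_apply, Matrix.of_apply, Matrix.of_apply, Finset.sum_insert ha]

private theorem exp24 {A : Matrix X X ℂ} (hA : A.PosSemidef) :
    (Matrix.of fun x y => Complex.exp (A x y)).PosSemidef := by
  have h1 : ∀ n : ℕ, (Matrix.of fun x y => (((n.factorial : ℝ)⁻¹ : ℝ) : ℂ) * A x y ^ n).PosSemidef :=
    fun n => smul24 (pow24 hA n) (by positivity)
  refine Pool.Agent.Helper90.Fib.psd_lim (fun n => fsum24 (Finset.range n) h1) fun x y => ?_
  have h2 : HasSum (fun n : ℕ => (((n.factorial : ℝ)⁻¹ : ℝ) : ℂ) * A x y ^ n) (Complex.exp (A x y)) := by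
    have h3 := NormedSpace.expSeries_div_hasSum_exp (𝔸 := ℂ) (A x y)
    rw [← Complex.exp_eq_exp_ℂ] at h3
    refine (congrArg (fun f => HasSum f (Complex.exp (A x y))) (funext fun n => ?_)).mp h3
    push_cast
    rw [div_eq_mul_inv, mul_comm]
  exact h2.tendsto_sum_nat

private theorem log24 {S : Matrix X X ℂ} (hS : S.PosSemidef) (h : ∀ x y, ‖S x y‖ < 1) :
    (Matrix.of fun x y => -Complex.log (1 - S x y)).PosSemidef := by
  have h1 : ∀ n : ℕ, (Matrix.of fun x y => (((n : ℝ)⁻¹ : ℝ) : ℂ) * S x y ^ n).PosSemidef :=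
    fun n => smul24 (pow24 hS n) (by positivity)
  refine Pool.Agent.Helper90.Fib.psd_lim (fun n => fsum24 (Finset.range n) h1) fun x y => ?_
  have h2 := Complex.hasSum_taylorSeries_neg_log (h x y)
  have h3 : (fun n : ℕ => S x y ^ n / (n : ℂ)) = fun n : ℕ => (((n : ℝ)⁻¹ : ℝ) : ℂ) * S x y ^ n := by
    funext n
    push_cast
    rw [div_eq_mul_inv, mul_comm]
  rw [h3] at h2
  exact h2.tendsto_sum_nat

private theorem rpow24 (S : Matrix X X ℂ) (hS : S.PosSemidef) (hS' : (Matrix.of fun x y => star (S x y)).PosSemidef)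
    (h : ∀ x y, ‖S x y‖ < 1) {t : ℝ} (ht : 0 < t) :
    (Matrix.of fun x y => ((‖1 - S x y‖ ^ (-(2 * t)) : ℝ) : ℂ)).PosSemidef := by
  have h1 := log24 hS h
  have h2 := log24 hS' (fun x y => by
    rw [Matrix.of_apply, norm_star]
    exact h x y)
  have h3 := exp24 (smul24 (add24 h1 h2) ht.le)
  refine (congrArg Matrix.PosSemidef ?_).mp h3
  ext x y
  have h4 : 0 < ‖1 - S x y‖ := by
    rw [norm_pos_iff]
    intro h5
    have h6 : S x y = 1 := by linear_combination -h5
    have h7 := h x y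
    rw [h6, norm_one] at h7
    exact lt_irrefl _ h7
  have h5 : Complex.log (1 - star (S x y)) = star (Complex.log (1 - S x y)) := by
    have h6 : (1 - S x y).arg ≠ Real.pi := by
      intro h7
      have h8 := (Complex.arg_eq_pi_iff.1 h7).1
      have h9 : (S x y).re < 1 := (Complex.re_le_norm _).trans_lt (h x y)
      rw [Complex.sub_re, Complex.one_re] at h8
      linarith
    have h7 : 1 - star (S x y) = (starRingEnd ℂ) (1 - S x y) := by
      rw [map_sub, map_one]
      rfl
    rw [h7, Complex.log_conj _ h6]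
    rfl
  simp only [Matrix.of_apply]
  rw [h5, Real.rpow_def_of_pos h4, Complex.ofReal_exp]
  congr 1
  have h6 : Complex.log (1 - S x y) + star (Complex.log (1 - S x y)) = ((2 * Real.log ‖1 - S x y‖ : ℝ) : ℂ) := by
    have h7 := Complex.add_conj (Complex.log (1 - S x y))
    rw [Complex.log_re] at h7
    exact_mod_cast h7
  have h7 : (t : ℂ) * (-Complex.log (1 - S x y) + -star (Complex.log (1 - S x y))) =
      -(t : ℂ) * (Complex.log (1 - S x y) + star (Complex.log (1 - S x y))) := by ring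
  rw [h7, h6]
  push_cast
  ring

end Psd

theorem u_psd (e : M) {t : ℝ} (ht : 0 < t) :
    (Matrix.of fun A B : {A : Matrix M M ℂ // A ∈ HH (fU e)} => ((‖(A.1⁻¹ * B.1) e e‖ ^ (-(2 * t)) : ℝ) : ℂ)).PosSemidef := by
  have hS : (Matrix.of fun A B : {A : Matrix M M ℂ // A ∈ HH (fU e)} =>
      ∑ k, star (av24 e A.1 k) * av24 e B.1 k).PosSemidef :=
    fsum24 (A := fun k => Matrix.of fun A B : {A : Matrix M M ℂ // A ∈ HH (fU e)} =>
      star (av24 e A.1 k) * av24 e B.1 k) Finset.univ fun k => rank24 _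
  have hS' : (Matrix.of fun A B : {A : Matrix M M ℂ // A ∈ HH (fU e)} =>
      star (∑ k, star (av24 e A.1 k) * av24 e B.1 k)).PosSemidef := by
    have h1 := fsum24 (A := fun k => Matrix.of fun A B : {A : Matrix M M ℂ // A ∈ HH (fU e)} =>
      star (star (av24 e A.1 k)) * star (av24 e B.1 k)) Finset.univ
      fun k => rank24 (fun A : {A : Matrix M M ℂ // A ∈ HH (fU e)} => star (av24 e A.1 k))
    refine (congrArg Matrix.PosSemidef ?_).mp h1
    ext A B
    simp only [Matrix.of_apply]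
    rw [star_sum]
    refine Finset.sum_congr rfl fun k _ => ?_
    rw [star_mul']
  have h2 := rpow24 _ hS hS' (fun A B => cs24 A.2 B.2) ht
  have h3 := Pool.Agent.Helper90.Fib.psd_diag h2 (fun A : {A : Matrix M M ℂ // A ∈ HH (fU e)} => ‖A.1 e e‖ ^ (-(2 * t)))
  refine (congrArg Matrix.PosSemidef ?_).mp h3
  ext A B
  simp only [Matrix.of_apply]
  rw [entry24 A.2 B.2, norm_mul, norm_mul, norm_star,
    Real.mul_rpow (by positivity) (norm_nonneg _), Real.mul_rpow (norm_nonneg _) (norm_nonneg _)]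
  push_cast
  ring

end Pool.Agent.Helper84.SPQ
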