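import Pool.Agent.Helper84.SPQ.Q1
import Pool.Agent.Helper84.SPQ.U1

/-!
# Project SPQ, block S1: the group `SO*(6)` times unit scalars and its kernels

`J6 = diag(1, -1)`, `j6 = [0, 1; -1, 0]` in blocks of size three. `f6 A = 0`: `Aᴴ J6 A = J6` and `QS j6 A` (`A j6 = c j6 conj A`, `‖c‖ = 1`; `Q1.lean`). PROOFS.
`f6_isG`: both conditions define groups stable under unit scalars (`fS_eq`, `fS_nonneg`, `qs_mul`, ...; `fU_eq` in `U1.lean` is the model of the first).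
`s_psd`. `A = [p, q; s, u]` (`3 × 3` blocks). `QS`: `-q = c conj s`, `p = c conj u`, `-u = -c conj p`, `s = -c conj q`: so `A = [p, -c conj s; s, c conj p]`. `Aᴴ J6 A = J6`: `pᴴ p - sᴴ s = 1` and `pᴴ conj s + sᴴ conj p = 0`, i.e. (complex conjugate) `pᵀ s + sᵀ p = 0`.
So `det p ≠ 0`, `Z = s p⁻¹` is antisymmetric (`pᵀ (Z + Zᵀ) p = pᵀ s + sᵀ p = 0`): `Z = [z]`, the cross product matrix of `z ∈ ℂ³`. `1 - Zᴴ Z = (p pᴴ)⁻¹`; `Zᴴ Z = |z|² 1 - conj(z) zᵀ` or its transpose (check the convention), `det (1 - Zᴴ Z) = (1 - |z|²)²`, `|z| < 1`, `‖det p‖ = 1/(1 - |z|²)`, `trace (pᴴ p) = 1 + 2/(1 - |z|²)`,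
`ns A = 2 (trace pᴴ p + trace sᴴ s) = 4 trace (pᴴ p) - 6 = 8 ‖det p‖ - 2`. For `A⁻¹ B` (again in `HH f6`; `A⁻¹ = J6 Aᴴ J6`): upper left block `p_Aᴴ p_B - s_Aᴴ s_B = p_Aᴴ (1 - Z_Aᴴ Z_B) p_B`, `det (1 - Z_Aᴴ Z_B) = (1 - ⟨z_A, z_B⟩)²`, `⟨z, w⟩ = ∑ conj(z i) w i` (polynomial identity, `det_fin_three`, `ring`).
So `8/(ns (A⁻¹ B) + 2) = 1/‖det p‖(A⁻¹ B) = (1/‖det p_A‖) (1/‖det p_B‖) ‖1 - ⟨z_A, z_B⟩‖^(-2)`; its power `t` is positive definite: `ball_psd` (`P0.lean`).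
`mdlS`: `mdl_of_kernel`; if `Aᴴ A = c 1` then `‖det A‖ = 1` gives `c = 1`, `ns A = 6`. Scalars: `c • A, A ∈ HH f6` gives `‖c‖ = 1`.
-/

set_option autoImplicit false

open Filter Topology Matrix
open scoped ComplexOrder

namespace Pool.Agent.Helper84.SPQ

open NI

/-- the Hermitian form -/
def J6 : Matrix (Fin 3 ⊕ Fin 3) (Fin 3 ⊕ Fin 3) ℂ := fromBlocks 1 0 0 (-1)

/-- the quaternionic structure -/
def j6 : Matrix (Fin 3 ⊕ Fin 3) (Fin 3 ⊕ Fin 3) ℂ := fromBlocks 0 1 (-1) 0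

/-- the equation of `SO*(6)` times unit scalars -/
noncomputable def f6 (A : Matrix (Fin 3 ⊕ Fin 3) (Fin 3 ⊕ Fin 3) ℂ) : ℝ := ns (Aᴴ * J6 * A - J6) + fS j6 A

private theorem nsn77 {n m : Type} [Fintype n] [Fintype m] (A : Matrix n m ℂ) : 0 ≤ ns A :=
  Finset.sum_nonneg fun _ _ => Finset.sum_nonneg fun _ _ => sq_nonneg _

private theorem nsz77 {n : Type} [Fintype n] {A : Matrix n n ℂ} (h : ns A = 0) : A = 0 := by
  unfold ns at h
  ext i j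
  have h1 := (Finset.sum_eq_zero_iff_of_nonneg (fun i _ => Finset.sum_nonneg fun j _ => sq_nonneg ‖A i j‖)).1 h i
    (Finset.mem_univ i)
  have h2 := (Finset.sum_eq_zero_iff_of_nonneg (fun j _ => sq_nonneg ‖A i j‖)).1 h1 j (Finset.mem_univ j)
  simpa using h2

private theorem nst77 {n m : Type} [Fintype n] [Fintype m] (A : Matrix n m ℂ) :
    (Aᴴ * A).trace = ((ns A : ℝ) : ℂ) := by
  unfold ns Matrix.trace
  simp only [Matrix.diag_apply, Matrix.mul_apply, conjTranspose_apply]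
  rw [Finset.sum_comm]
  push_cast
  refine Finset.sum_congr rfl fun i _ => Finset.sum_congr rfl fun j _ => ?_
  rw [← Complex.ofReal_pow, ← Complex.normSq_eq_norm_sq, Complex.normSq_eq_conj_mul_self]
  rfl

private theorem nst77' {n m : Type} [Fintype n] [Fintype m] (A : Matrix n m ℂ) :
    (A * Aᴴ).trace = ((ns A : ℝ) : ℂ) := by
  rw [Matrix.trace_mul_comm, nst77]

private theorem nsb77 (p q s u : Matrix (Fin 3) (Fin 3) ℂ) : ns (fromBlocks p q s u) = ns p + ns q + ns s + ns u := by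
  unfold ns
  simp only [Fintype.sum_sum_type, fromBlocks_apply₁₁, fromBlocks_apply₁₂, fromBlocks_apply₂₁, fromBlocks_apply₂₂,
    Finset.sum_add_distrib]
  ring

private theorem nsc77 (p : Matrix (Fin 3) (Fin 3) ℂ) {c : ℂ} (hc : ‖c‖ = 1) : ns (c • pᴴᵀ) = ns p := by
  unfold ns
  refine Finset.sum_congr rfl fun i _ => Finset.sum_congr rfl fun j _ => ?_
  rw [Matrix.smul_apply, Matrix.transpose_apply, conjTranspose_apply, smul_eq_mul, norm_mul, hc, one_mul, norm_star]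

private theorem nsneg77 (p : Matrix (Fin 3) (Fin 3) ℂ) : ns (-p) = ns p := by
  unfold ns
  simp

theorem f6_eq {A : Matrix (Fin 3 ⊕ Fin 3) (Fin 3 ⊕ Fin 3) ℂ} : f6 A = 0 ↔ Aᴴ * J6 * A = J6 ∧ QS j6 A := by
  unfold f6
  constructor
  · intro h
    have h1 := nsn77 (Aᴴ * J6 * A - J6)
    have h2 := fS_nonneg j6 A
    have h3 : ns (Aᴴ * J6 * A - J6) = 0 := by linarith
    have h4 : fS j6 A = 0 := by linarith
    exact ⟨sub_eq_zero.1 (nsz77 h3), fS_eq.1 h4⟩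
  · rintro ⟨h1, h2⟩
    rw [h1, sub_self, fS_eq.2 h2, add_zero]
    simp [ns]

private theorem J6sq77 : J6 * J6 = 1 := by
  unfold J6
  rw [fromBlocks_multiply]
  simp

theorem f6_isG : IsG f6 where
  cont := by
    have h1 : Continuous fun A : Matrix (Fin 3 ⊕ Fin 3) (Fin 3 ⊕ Fin 3) ℂ => Aᴴ * J6 * A - J6 := by fun_prop
    have h2 : Continuous fun A : Matrix (Fin 3 ⊕ Fin 3) (Fin 3 ⊕ Fin 3) ℂ => ns A := by
      unfold ns
      fun_prop
    exact (h2.comp h1).add (fS_cont j6)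
  one := by
    rw [f6_eq]
    exact ⟨by simp, qs_one j6⟩
  mul A hA B hB := by
    obtain ⟨h1, h1'⟩ := f6_eq.1 hA.1
    obtain ⟨h2, h2'⟩ := f6_eq.1 hB.1
    rw [f6_eq]
    refine ⟨?_, qs_mul h1' h2'⟩
    rw [conjTranspose_mul]
    calc Bᴴ * Aᴴ * J6 * (A * B) = Bᴴ * (Aᴴ * J6 * A) * B := by
          simp only [Matrix.mul_assoc]
      _ = J6 := by rw [h1, h2]
  inv A hA := by
    obtain ⟨h1, h1'⟩ := f6_eq.1 hA.1
    have hu : IsUnit A.det := isUnit_iff_ne_zero.2 hA.2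
    rw [f6_eq]
    refine ⟨?_, qs_inv h1' hA.2⟩
    have h3 : (A⁻¹)ᴴ * Aᴴ = 1 := by
      rw [← conjTranspose_mul, Matrix.mul_nonsing_inv _ hu, conjTranspose_one]
    calc (A⁻¹)ᴴ * J6 * A⁻¹ = (A⁻¹)ᴴ * (Aᴴ * J6 * A) * A⁻¹ := by rw [h1]
      _ = ((A⁻¹)ᴴ * Aᴴ) * J6 * (A * A⁻¹) := by simp only [Matrix.mul_assoc]
      _ = J6 := by rw [h3, Matrix.mul_nonsing_inv _ hu, Matrix.one_mul, Matrix.mul_one]
  smul c hc A hA := by
    obtain ⟨h1, h1'⟩ := f6_eq.1 hA.1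
    have hc0 : c ≠ 0 := by
      intro h
      rw [h, norm_zero] at hc
      exact zero_ne_one hc
    rw [f6_eq]
    refine ⟨?_, qs_smul h1' hc0⟩
    rw [conjTranspose_smul, Matrix.smul_mul, Matrix.smul_mul, Matrix.mul_smul, h1, smul_smul]
    have h2 : star c * c = 1 := by
      have h3 : star c * c = ((Complex.normSq c : ℝ) : ℂ) := by
        rw [Complex.normSq_eq_conj_mul_self]
        rfl
      rw [h3, Complex.normSq_eq_norm_sq, hc]
      simp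
    rw [h2, one_smul]

/-- the cross product matrix -/
private def zm77 (z : Fin 3 → ℂ) : Matrix (Fin 3) (Fin 3) ℂ := !![0, z 2, -z 1; -z 2, 0, z 0; z 1, -z 0, 0]

private theorem zm_of77 {Z : Matrix (Fin 3) (Fin 3) ℂ} (h : Z + Zᵀ = 0) : Z = zm77 ![Z 1 2, Z 2 0, Z 0 1] := by
  have h1 : ∀ i j, Z j i = -Z i j := fun i j => by
    have := congrFun (congrFun h j) i
    rw [Matrix.add_apply, Matrix.transpose_apply, Matrix.zero_apply] at this
    linear_combination this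
  have h2 : ∀ i, Z i i = 0 := fun i => by
    have := h1 i i
    linear_combination this / 2
  have a1 := h1 1 0
  have a2 := h1 0 2
  have a3 := h1 2 1
  ext i j
  fin_cases i <;> fin_cases j <;> simp [zm77, h2]
  · rw [a2]
    simp
  · rw [h1 0 1]
  · rw [h1 1 2]

private theorem det77 (z w : Fin 3 → ℂ) : (1 - (zm77 z)ᴴ * zm77 w).det = (1 - ∑ i, star (z i) * w i) ^ 2 := by
  simp only [det_fin_three, Matrix.sub_apply, Matrix.mul_apply, Fin.sum_univ_three, conjTranspose_apply, zm77,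
    Matrix.one_apply, Matrix.of_apply, Matrix.cons_val', Matrix.cons_val_zero, Matrix.cons_val_one, Matrix.cons_val]
  simp
  ring

/-- the rank one matrix -/
private def nm77 (z : Fin 3 → ℂ) : Matrix (Fin 3) (Fin 3) ℂ := Matrix.of fun i j => z i * star (z j)

private theorem inv77 (z : Fin 3 → ℂ) : (1 - nm77 z) * (1 - (zm77 z)ᴴ * zm77 z) = (1 - ∑ i, star (z i) * z i) • 1 := by
  ext i j
  fin_cases i <;> fin_cases j <;>
    simp [Matrix.mul_apply, Fin.sum_univ_three, zm77, nm77, Matrix.sub_apply, Matrix.one_apply] <;> ring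

private theorem trn77 (z : Fin 3 → ℂ) : (1 - nm77 z).trace = 3 - ∑ i, star (z i) * z i := by
  simp [Matrix.trace, Fin.sum_univ_three, nm77]
  ring

/-- the data of an element of the group -/
private structure Dt77 (A : Matrix (Fin 3 ⊕ Fin 3) (Fin 3 ⊕ Fin 3) ℂ) (z : Fin 3 → ℂ) : Prop where
  d : A.toBlocks₁₁.det ≠ 0
  e1 : (A.toBlocks₁₁)ᴴ * A.toBlocks₁₁ - (A.toBlocks₂₁)ᴴ * A.toBlocks₂₁ = 1
  e2 : A.toBlocks₂₁ = zm77 z * A.toBlocks₁₁
  e3 : ns A = 2 * ns A.toBlocks₁₁ + 2 * ns A.toBlocks₂₁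

private theorem blk77 {A : Matrix (Fin 3 ⊕ Fin 3) (Fin 3 ⊕ Fin 3) ℂ} (hA : A ∈ HH f6) :
    ∃ c : ℂ, ‖c‖ = 1 ∧ A.toBlocks₁₂ = -(c • (A.toBlocks₂₁)ᴴᵀ) ∧ A.toBlocks₂₂ = c • (A.toBlocks₁₁)ᴴᵀ := by
  obtain ⟨h1, c, hc, h2⟩ := f6_eq.1 hA.1
  refine ⟨c, hc, ?_, ?_⟩
  · ext i j
    have h3 := congrFun (congrFun h2 (Sum.inl i)) (Sum.inl j)
    have h4 : (A * j6) (Sum.inl i) (Sum.inl j) = -A (Sum.inl i) (Sum.inr j) := by
      simp [Matrix.mul_apply, j6, Fintype.sum_sum_type, Matrix.one_apply]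
    have h5 : (c • (j6 * Aᴴᵀ)) (Sum.inl i) (Sum.inl j) = c * star (A (Sum.inr i) (Sum.inl j)) := by
      simp [Matrix.mul_apply, j6, Fintype.sum_sum_type, Matrix.one_apply]
    rw [h4, h5] at h3
    simp only [toBlocks₁₂, toBlocks₂₁, Matrix.of_apply, Matrix.neg_apply, Matrix.smul_apply, Matrix.transpose_apply,
      conjTranspose_apply, smul_eq_mul]
    linear_combination -h3
  · ext i j
    have h3 := congrFun (congrFun h2 (Sum.inr i)) (Sum.inl j)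
    have h4 : (A * j6) (Sum.inr i) (Sum.inl j) = -A (Sum.inr i) (Sum.inr j) := by
      simp [Matrix.mul_apply, j6, Fintype.sum_sum_type, Matrix.one_apply]
    have h5 : (c • (j6 * Aᴴᵀ)) (Sum.inr i) (Sum.inl j) = -(c * star (A (Sum.inl i) (Sum.inl j))) := by
      simp [Matrix.mul_apply, j6, Fintype.sum_sum_type, Matrix.one_apply]
    rw [h4, h5] at h3
    simp only [toBlocks₁₁, toBlocks₂₂, Matrix.of_apply, Matrix.smul_apply, Matrix.transpose_apply,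
      conjTranspose_apply, smul_eq_mul]
    linear_combination -h3

private theorem mulb77 (A B : Matrix (Fin 3 ⊕ Fin 3) (Fin 3 ⊕ Fin 3) ℂ) :
    Aᴴ * J6 * B = fromBlocks
      ((A.toBlocks₁₁)ᴴ * B.toBlocks₁₁ - (A.toBlocks₂₁)ᴴ * B.toBlocks₂₁)
      ((A.toBlocks₁₁)ᴴ * B.toBlocks₁₂ - (A.toBlocks₂₁)ᴴ * B.toBlocks₂₂)
      ((A.toBlocks₁₂)ᴴ * B.toBlocks₁₁ - (A.toBlocks₂₂)ᴴ * B.toBlocks₂₁)
      ((A.toBlocks₁₂)ᴴ * B.toBlocks₁₂ - (A.toBlocks₂₂)ᴴ * B.toBlocks₂₂) := by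
  conv_lhs => rw [← fromBlocks_toBlocks A, ← fromBlocks_toBlocks B]
  unfold J6
  rw [fromBlocks_conjTranspose, fromBlocks_multiply, fromBlocks_multiply]
  simp [sub_eq_add_neg]

private theorem dt77 {A : Matrix (Fin 3 ⊕ Fin 3) (Fin 3 ⊕ Fin 3) ℂ} (hA : A ∈ HH f6) : ∃ z, Dt77 A z := by
  obtain ⟨c, hc, hq, hu⟩ := blk77 hA
  obtain ⟨h1, -⟩ := f6_eq.1 hA.1
  rw [mulb77] at h1
  unfold J6 at h1
  rw [fromBlocks_inj] at h1
  obtain ⟨e1, e12, -, -⟩ := h1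
  set p := A.toBlocks₁₁ with hp
  set s := A.toBlocks₂₁ with hs
  have hc0 : c ≠ 0 := by
    intro h
    rw [h, norm_zero] at hc
    exact zero_ne_one hc
  -- the determinant
  have hd : p.det ≠ 0 := by
    have h2 : pᴴ * p = 1 + sᴴ * s := by rw [← e1]; abel
    have h3 : (1 + sᴴ * s).PosDef := Matrix.PosDef.one.add_posSemidef (Matrix.posSemidef_conjTranspose_mul_self s)
    have h4 := h3.det_pos
    rw [← h2, Matrix.det_mul] at h4
    intro h5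
    rw [h5, mul_zero] at h4
    exact lt_irrefl _ h4
  -- antisymmetry
  have h2 : pᵀ * s + sᵀ * p = 0 := by
    have h3 : pᴴ * sᴴᵀ + sᴴ * pᴴᵀ = 0 := by
      have h4 : -(c • (pᴴ * sᴴᵀ + sᴴ * pᴴᵀ)) = 0 := by
        rw [← e12, hq, hu, Matrix.mul_neg, Matrix.mul_smul, Matrix.mul_smul, smul_add, neg_add, sub_eq_add_neg]
      have h5 := neg_eq_zero.1 h4
      exact (smul_eq_zero.1 h5).resolve_left hc0
    have h4 := congrArg (fun M : Matrix (Fin 3) (Fin 3) ℂ => Mᴴᵀ) h3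
    simp only [conjTranspose_add, conjTranspose_mul, Matrix.transpose_add, Matrix.transpose_mul, conjTranspose_zero,
      Matrix.transpose_zero, conjTranspose_conjTranspose] at h4
    have h5 : ∀ M : Matrix (Fin 3) (Fin 3) ℂ, (Mᴴᵀ)ᴴᵀ = M := fun M => by
      ext i j
      simp
    rw [h5, h5] at h4
    exact h4
  have hu' : IsUnit p.det := isUnit_iff_ne_zero.2 hd
  have hut : IsUnit (pᵀ).det := by rwa [Matrix.det_transpose]
  have h3 : s * p⁻¹ + (s * p⁻¹)ᵀ = 0 := by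
    have h4 : pᵀ * (s * p⁻¹ + (s * p⁻¹)ᵀ) * p = 0 := by
      have h5 : pᵀ * (p⁻¹)ᵀ = 1 := by
        rw [← Matrix.transpose_mul, Matrix.nonsing_inv_mul _ hu', Matrix.transpose_one]
      rw [Matrix.transpose_mul, Matrix.mul_add, Matrix.add_mul, ← Matrix.mul_assoc pᵀ (p⁻¹)ᵀ, h5, Matrix.one_mul,
        ← Matrix.mul_assoc pᵀ s, Matrix.mul_assoc (pᵀ * s), Matrix.nonsing_inv_mul _ hu', Matrix.mul_one]
      exact h2
    have h6 : pᵀ * (s * p⁻¹ + (s * p⁻¹)ᵀ) = 0 := by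
      calc pᵀ * (s * p⁻¹ + (s * p⁻¹)ᵀ) = pᵀ * (s * p⁻¹ + (s * p⁻¹)ᵀ) * (p * p⁻¹) := by
            rw [Matrix.mul_nonsing_inv _ hu', Matrix.mul_one]
        _ = pᵀ * (s * p⁻¹ + (s * p⁻¹)ᵀ) * p * p⁻¹ := by rw [Matrix.mul_assoc _ p p⁻¹]
        _ = 0 := by rw [h4, Matrix.zero_mul]
    calc s * p⁻¹ + (s * p⁻¹)ᵀ = (pᵀ)⁻¹ * pᵀ * (s * p⁻¹ + (s * p⁻¹)ᵀ) := by
          rw [Matrix.nonsing_inv_mul _ hut, Matrix.one_mul]
      _ = 0 := by rw [Matrix.mul_assoc, h6, Matrix.mul_zero]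
  refine ⟨![(s * p⁻¹) 1 2, (s * p⁻¹) 2 0, (s * p⁻¹) 0 1], ⟨hd, e1, ?_, ?_⟩⟩
  · rw [← zm_of77 h3, Matrix.mul_assoc, Matrix.nonsing_inv_mul _ hu', Matrix.mul_one]
  · conv_lhs => rw [← fromBlocks_toBlocks A, nsb77, hq, hu, nsneg77, nsc77 _ hc, nsc77 _ hc]
    ring

private theorem sz77 (z : Fin 3 → ℂ) : ∑ i, star (z i) * z i = ((∑ i, ‖z i‖ ^ 2 : ℝ) : ℂ) := by
  push_cast
  refine Finset.sum_congr rfl fun i _ => ?_
  rw [← Complex.ofReal_pow, ← Complex.normSq_eq_norm_sq, Complex.normSq_eq_conj_mul_self]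
  rfl

private theorem num77 {A : Matrix (Fin 3 ⊕ Fin 3) (Fin 3 ⊕ Fin 3) ℂ} {z : Fin 3 → ℂ} (h : Dt77 A z) :
    ∑ i, ‖z i‖ ^ 2 < 1 ∧ ns A + 2 = 8 * ‖A.toBlocks₁₁.det‖ := by
  obtain ⟨hd, e1, e2, e3⟩ := h
  set p := A.toBlocks₁₁ with hp
  set s := A.toBlocks₂₁ with hs
  have hu : IsUnit p.det := isUnit_iff_ne_zero.2 hd
  set N : ℝ := ∑ i, ‖z i‖ ^ 2 with hN
  have h1 : pᴴ * ((1 - (zm77 z)ᴴ * zm77 z) * p) = 1 := by
    have h0 : pᴴ * ((1 - (zm77 z)ᴴ * zm77 z) * p) = pᴴ * p - sᴴ * s := by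
      rw [e2, conjTranspose_mul, Matrix.sub_mul, Matrix.one_mul, Matrix.mul_sub]
      simp only [Matrix.mul_assoc]
    rw [h0, e1]
  have h2 : (1 - (zm77 z)ᴴ * zm77 z) * (p * pᴴ) = 1 := by
    rw [← Matrix.mul_assoc]
    exact mul_eq_one_comm.1 h1
  have h3 : (1 - nm77 z) = ((1 - N : ℝ) : ℂ) • (p * pᴴ) := by
    calc (1 - nm77 z) = (1 - nm77 z) * ((1 - (zm77 z)ᴴ * zm77 z) * (p * pᴴ)) := by rw [h2, Matrix.mul_one]
      _ = ((1 - nm77 z) * (1 - (zm77 z)ᴴ * zm77 z)) * (p * pᴴ) := by rw [Matrix.mul_assoc]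
      _ = ((1 - N : ℝ) : ℂ) • (p * pᴴ) := by
        rw [inv77, sz77, Matrix.smul_mul, Matrix.one_mul]
        congr 1
        rw [Complex.ofReal_sub, Complex.ofReal_one]
  have h5 : (3 : ℝ) - N = (1 - N) * ns p := by
    have h6 := congrArg Matrix.trace h3
    rw [trn77, Matrix.trace_smul, nst77', sz77, smul_eq_mul] at h6
    exact_mod_cast h6
  have h6 : ns p = 3 + ns s := by
    have h7 := congrArg Matrix.trace e1
    rw [Matrix.trace_sub, nst77, nst77, Matrix.trace_one, Fintype.card_fin] at h7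
    have h8 : ns p - ns s = 3 := by exact_mod_cast h7
    linarith
  have h7 := nsn77 s
  have hN0 : 0 ≤ N := Finset.sum_nonneg fun i _ => sq_nonneg _
  have hN1 : N < 1 := by
    by_contra hn
    push Not at hn
    nlinarith
  refine ⟨hN1, ?_⟩
  have h8 : ‖p.det‖ * (1 - N) = 1 := by
    have h9 := congrArg Matrix.det h1
    rw [Matrix.det_mul, Matrix.det_mul, Matrix.det_one, det77, sz77, Matrix.det_conjTranspose] at h9
    have h10 := congrArg norm h9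
    rw [norm_mul, norm_mul, norm_star, norm_pow, norm_one] at h10
    have h11 : ‖(1 : ℂ) - ((N : ℝ) : ℂ)‖ = 1 - N := by
      rw [← Complex.ofReal_one, ← Complex.ofReal_sub, Complex.norm_real, Real.norm_of_nonneg (by linarith)]
    rw [h11] at h10
    have h12 : (‖p.det‖ * (1 - N)) ^ 2 = 1 := by
      linear_combination h10
    have h13 : 0 ≤ ‖p.det‖ * (1 - N) := mul_nonneg (norm_nonneg _) (by linarith)
    nlinarith
  have h9 : (1 - N) * (ns p - 1 - 2 * ‖p.det‖) = 0 := by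
    have : (1 - N) * (ns p - 1 - 2 * ‖p.det‖) = (1 - N) * ns p - (1 - N) - 2 * (‖p.det‖ * (1 - N)) := by ring
    rw [this, ← h5, h8]
    ring
  have h10 : ns p - 1 - 2 * ‖p.det‖ = 0 := by
    rcases mul_eq_zero.1 h9 with h | h
    · linarith
    · exact h
  rw [e3]
  linarith

private theorem mem77 {A B : Matrix (Fin 3 ⊕ Fin 3) (Fin 3 ⊕ Fin 3) ℂ} (hA : A ∈ HH f6) (hB : B ∈ HH f6) :
    A⁻¹ * B ∈ HH f6 := by
  have h1 : A⁻¹ ∈ HH f6 := ⟨f6_isG.inv A hA, by rw [Matrix.det_nonsing_inv]; simpa using hA.2⟩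
  exact ⟨f6_isG.mul _ h1 _ hB, by rw [Matrix.det_mul]; exact mul_ne_zero h1.2 hB.2⟩

private theorem inv6_77 {A : Matrix (Fin 3 ⊕ Fin 3) (Fin 3 ⊕ Fin 3) ℂ} (hA : A ∈ HH f6) : A⁻¹ = J6 * Aᴴ * J6 := by
  apply Matrix.inv_eq_left_inv
  rw [Matrix.mul_assoc, Matrix.mul_assoc, ← Matrix.mul_assoc Aᴴ, (f6_eq.1 hA.1).1, J6sq77]

private theorem blo77 (X : Matrix (Fin 3 ⊕ Fin 3) (Fin 3 ⊕ Fin 3) ℂ) : (J6 * X).toBlocks₁₁ = X.toBlocks₁₁ := by
  conv_lhs => rw [← fromBlocks_toBlocks X]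
  unfold J6
  rw [fromBlocks_multiply, toBlocks_fromBlocks₁₁]
  simp

private theorem ker77 {A B : Matrix (Fin 3 ⊕ Fin 3) (Fin 3 ⊕ Fin 3) ℂ} (hA : A ∈ HH f6) (hB : B ∈ HH f6)
    {z w : Fin 3 → ℂ} (hz : Dt77 A z) (hw : Dt77 B w) :
    ns (A⁻¹ * B) + 2 = 8 * (‖A.toBlocks₁₁.det‖ * ‖B.toBlocks₁₁.det‖ * ‖1 - ∑ i, star (z i) * w i‖ ^ 2) := by
  obtain ⟨y, hy⟩ := dt77 (mem77 hA hB)
  rw [(num77 hy).2]
  congr 1
  have h1 : (A⁻¹ * B).toBlocks₁₁ = (A.toBlocks₁₁)ᴴ * ((1 - (zm77 z)ᴴ * zm77 w) * B.toBlocks₁₁) := by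
    rw [inv6_77 hA, Matrix.mul_assoc, Matrix.mul_assoc, blo77, ← Matrix.mul_assoc, mulb77, toBlocks_fromBlocks₁₁,
      hz.e2, hw.e2, conjTranspose_mul, Matrix.sub_mul, Matrix.one_mul, Matrix.mul_sub]
    simp only [Matrix.mul_assoc]
  rw [h1, Matrix.det_mul, Matrix.det_mul, det77, Matrix.det_conjTranspose, norm_mul, norm_mul, norm_star, norm_pow]
  ring

theorem s_psd {t : ℝ} (ht : 0 < t) :
    (Matrix.of fun A B : {A : Matrix (Fin 3 ⊕ Fin 3) (Fin 3 ⊕ Fin 3) ℂ // A ∈ HH f6} =>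
      (((8 / (ns (A.1⁻¹ * B.1) + 2)) ^ t : ℝ) : ℂ)).PosSemidef := by
  choose z hz using fun A : {A : Matrix (Fin 3 ⊕ Fin 3) (Fin 3 ⊕ Fin 3) ℂ // A ∈ HH f6} => dt77 A.2
  have h1 := ball_psd z (fun A => (num77 (hz A)).1)
    (fun A => ‖A.1.toBlocks₁₁.det‖ ^ (-t)) ht
  refine (congrArg Matrix.PosSemidef ?_).mp h1
  ext A B
  simp only [Matrix.of_apply]
  congr 1
  rw [ker77 A.2 B.2 (hz A) (hz B)]
  have ha : 0 < ‖A.1.toBlocks₁₁.det‖ := norm_pos_iff.2 (hz A).d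
  have hb : 0 < ‖B.1.toBlocks₁₁.det‖ := norm_pos_iff.2 (hz B).d
  set a := ‖A.1.toBlocks₁₁.det‖ with ha'
  set b := ‖B.1.toBlocks₁₁.det‖ with hb'
  set c := ‖1 - ∑ i, star (z A i) * z B i‖ with hc'
  have hc : 0 ≤ c := norm_nonneg _
  have h2 : 8 / (8 * (a * b * c ^ 2)) = (a * b * c ^ 2)⁻¹ := by
    rw [div_mul_eq_div_div, div_self (by norm_num : (8 : ℝ) ≠ 0), one_div]
  rw [h2, ← Real.rpow_neg_eq_inv_rpow, Real.mul_rpow (by positivity) (by positivity), Real.mul_rpow ha.le hb.le,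
    ← Real.rpow_natCast, ← Real.rpow_mul hc]
  congr 2
  push_cast
  ring

private theorem nscont77 : Continuous fun A : Matrix (Fin 3 ⊕ Fin 3) (Fin 3 ⊕ Fin 3) ℂ => ns A := by
  unfold ns
  fun_prop

private theorem nsone77 (c : ℂ) : ns (c • (1 : Matrix (Fin 3 ⊕ Fin 3) (Fin 3 ⊕ Fin 3) ℂ)) = 6 * ‖c‖ ^ 2 := by
  have h1 : ((ns (c • (1 : Matrix (Fin 3 ⊕ Fin 3) (Fin 3 ⊕ Fin 3) ℂ)) : ℝ) : ℂ) = ((6 * ‖c‖ ^ 2 : ℝ) : ℂ) := by
    rw [← nst77, conjTranspose_smul, conjTranspose_one, Matrix.smul_mul, Matrix.one_mul, smul_smul, Matrix.trace_smul,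
      Matrix.trace_one, Fintype.card_sum, Fintype.card_fin]
    have h3 : star c * c = ((‖c‖ ^ 2 : ℝ) : ℂ) := by
      rw [← Complex.normSq_eq_norm_sq, Complex.normSq_eq_conj_mul_self]
      rfl
    rw [h3, smul_eq_mul]
    push_cast
    ring
  exact_mod_cast h1

theorem mdlS {t : ℝ} (ht : 0 < t) :
    ∃ (L : Type) (_ : NormedAddCommGroup L) (_ : InnerProductSpace ℂ L) (_ : CompleteSpace L) (Mo : Mdl f6 L),
      ∀ A ∈ HH f6, inner ℂ Mo.v (Mo.π A Mo.v) = (((8 / (ns A + 2)) ^ t : ℝ) : ℂ) := by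
  have hJ : (J6 : Matrix (Fin 3 ⊕ Fin 3) (Fin 3 ⊕ Fin 3) ℂ) ≠ 0 := by
    intro h
    have h1 := J6sq77
    rw [h, Matrix.zero_mul] at h1
    exact zero_ne_one h1
  refine mdl_of_kernel f6_isG (fun A => (8 / (ns A + 2)) ^ t) ?_ (s_psd ht) ?_ ?_ ?_
  · have h1 := nsone77 1
    rw [one_smul, norm_one] at h1
    simp only [h1]
    norm_num
  · intro c A hA hcA
    have hu : IsUnit A.det := isUnit_iff_ne_zero.2 hA.2
    have hc : ‖c‖ ^ 2 = 1 := by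
      have h1 := (f6_eq.1 hA.1).1
      have h2 := (f6_eq.1 hcA.1).1
      rw [conjTranspose_smul, Matrix.smul_mul, Matrix.smul_mul, Matrix.mul_smul, h1, smul_smul] at h2
      have h3 : (star c * c - 1) • (J6 : Matrix (Fin 3 ⊕ Fin 3) (Fin 3 ⊕ Fin 3) ℂ) = 0 := by
        rw [sub_smul, one_smul, h2, sub_self]
      have h4 := (smul_eq_zero.1 h3).resolve_right hJ
      have h5 : star c * c = ((‖c‖ ^ 2 : ℝ) : ℂ) := by
        rw [← Complex.normSq_eq_norm_sq, Complex.normSq_eq_conj_mul_self]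
        rfl
      rw [h5] at h4
      have h6 : ((‖c‖ ^ 2 - 1 : ℝ) : ℂ) = 0 := by
        push_cast
        push_cast at h4
        exact h4
      have h7 : ‖c‖ ^ 2 - 1 = 0 := by exact_mod_cast h6
      linarith
    rw [Matrix.mul_smul, Matrix.nonsing_inv_mul _ hu, nsone77, hc]
    norm_num
  · refine ContinuousAt.continuousWithinAt ?_
    refine ContinuousAt.rpow_const ?_ (Or.inr ht.le)
    refine ContinuousAt.div continuousAt_const (nscont77.continuousAt.add continuousAt_const) ?_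
    have := nsn77 (1 : Matrix (Fin 3 ⊕ Fin 3) (Fin 3 ⊕ Fin 3) ℂ)
    linarith
  · rintro A hA ⟨c, hc⟩
    have h1 := (f6_eq.1 hA.1).1
    have hc0 : (c : ℂ) ≠ 0 := by
      intro h
      rw [h, zero_smul] at hc
      have h2 := congrArg Matrix.det hc
      rw [Matrix.det_mul, Matrix.det_conjTranspose, Matrix.det_zero] at h2
      rcases mul_eq_zero.1 h2 with h3 | h3
      · exact hA.2 (star_eq_zero.1 h3)
      · exact hA.2 h3
    have h2 : A * Aᴴ = (c : ℂ) • 1 := by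
      have h3 : ((c : ℂ)⁻¹ • Aᴴ) * A = 1 := by
        rw [Matrix.smul_mul, hc, smul_smul, inv_mul_cancel₀ hc0, one_smul]
      have h4 := mul_eq_one_comm.1 h3
      rw [Matrix.mul_smul] at h4
      rw [← h4, smul_smul, mul_inv_cancel₀ hc0, one_smul]
    have h3 : ((c : ℂ) * c) • (1 : Matrix (Fin 3 ⊕ Fin 3) (Fin 3 ⊕ Fin 3) ℂ) = 1 := by
      have h4 : Aᴴ * J6 * A * (Aᴴ * J6 * A) = 1 := by rw [h1, J6sq77]
      have h5 : Aᴴ * J6 * A * (Aᴴ * J6 * A) = Aᴴ * J6 * (A * Aᴴ) * (J6 * A) := by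
        simp only [Matrix.mul_assoc]
      have h6 : Aᴴ * J6 * (J6 * A) = Aᴴ * A := by
        rw [Matrix.mul_assoc, ← Matrix.mul_assoc J6 J6 A, J6sq77, Matrix.one_mul]
      rw [h5, h2, Matrix.mul_smul, Matrix.mul_one, Matrix.smul_mul, h6, hc, smul_smul] at h4
      exact h4
    have h4 : (c : ℂ) * c = 1 := by
      have h5 := congrFun (congrFun h3 (Sum.inl 0)) (Sum.inl 0)
      simpa using h5
    have h5 : c * c = 1 := by exact_mod_cast h4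
    have h6 : ns A = 6 * c := by
      have h7 := congrArg Matrix.trace hc
      rw [nst77, Matrix.trace_smul, Matrix.trace_one, Fintype.card_sum, Fintype.card_fin, smul_eq_mul] at h7
      push_cast at h7
      have h8 : ((ns A : ℝ) : ℂ) = ((6 * c : ℝ) : ℂ) := by
        rw [h7]
        push_cast
        ring
      exact_mod_cast h8
    have h7 := nsn77 A
    have h9 : (c - 1) * (c + 1) = 0 := by linear_combination h5
    have h8 : c = 1 := by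
      rcases mul_eq_zero.1 h9 with h | h <;> linarith
    rw [h6, h8]
    norm_num

end Pool.Agent.Helper84.SPQ
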