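import Pool.Agent.Helper84.SPQ.Defs

/-!
# Project SPQ, block C3a: the groups `Sp(1)`, `Sp(2)`: invariant measures, the test function

PROOFS. `exists_muU`: Haar measure of the compact group `U1`, normalised. `K2` is compact: closed in the matrices (`star k * k = 1`), entries of norm at most one. `exists_muK`: Haar measure of the compact group `K2`, normalised; it is right invariant:
for `g` the measure `μ.map (· * g)` is left invariant, a Haar measure and has the same total mass, so it is `μ` (uniqueness of Haar measure; or Mathlib: unimodularity of compact groups).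
`norm_qq_le`: entries of unitary matrices. `qq_eq`: `(k⁻¹ k')₀₀ = ∑ conj (k i 0) k' i 0`. `hf_int`: `‖k 0 0‖² + ‖k 1 0‖² = 1` and left multiplication by the permutation matrix. `hf_sq_pos`: `hf` is continuous, `hf 1 = 1/2 ≠ 0`.
`hf_abs`: `0 ≤ ‖k 0 0‖² ≤ 1`. `hf_right`: right multiplication of `k` by `diag(u, 1)`.
-/

set_option autoImplicit false

open MeasureTheory Matrix

namespace Pool.Agent.Helper84.SPQ

private instance proper67 : ProperSpace Hq := FiniteDimensional.proper_real Hq

private instance secHq67 : SecondCountableTopology Hq := secondCountable_of_proper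

private theorem smul67 (a : Hq) : star a * a = ((‖a‖ ^ 2 : ℝ) : Hq) := by
  rw [Quaternion.star_mul_self, Quaternion.normSq_eq_norm_mul_self, pow_two]

private theorem col67 {A : MH (Fin 2)} (hA : A ∈ unitary (MH (Fin 2))) (j : Fin 2) :
    ‖A 0 j‖ ^ 2 + ‖A 1 j‖ ^ 2 = 1 := by
  have h0 : star A * A = 1 := (Unitary.mem_iff.1 hA).1
  have h : (star A * A) j j = (1 : MH (Fin 2)) j j := by rw [h0]
  rw [Matrix.mul_apply, Fin.sum_univ_two, Matrix.one_apply_eq, Matrix.star_apply, Matrix.star_apply,
    smul67, smul67, ← Quaternion.coe_add] at h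
  exact Quaternion.coe_injective h

private theorem ent67 {A : MH (Fin 2)} (hA : A ∈ unitary (MH (Fin 2))) (i j : Fin 2) : ‖A i j‖ ≤ 1 := by
  have h := col67 hA j
  have h0 := sq_nonneg ‖A 0 j‖
  have h1 := sq_nonneg ‖A 1 j‖
  have h2 : ‖A i j‖ ^ 2 ≤ 1 := by
    fin_cases i
    · change ‖A 0 j‖ ^ 2 ≤ 1
      linarith
    · change ‖A 1 j‖ ^ 2 ≤ 1
      linarith
  exact (sq_le_one_iff₀ (norm_nonneg _)).1 h2

private theorem nu67 (u : U1) : ‖(u : Hq)‖ = 1 := by
  have h := u.2
  rwa [mem_sphere_zero_iff_norm] at h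

private theorem uu67 (u : U1) : star (u : Hq) * (u : Hq) = 1 := by
  rw [smul67, nu67]
  simp

private theorem uu67' (u : U1) : (u : Hq) * star (u : Hq) = 1 := by
  rw [Quaternion.self_mul_star, Quaternion.normSq_eq_norm_mul_self, nu67]
  simp

private theorem dgm67 (u : U1) : diagonal ![(u : Hq), 1] ∈ unitary (MH (Fin 2)) := by
  rw [Unitary.mem_iff]
  constructor
  · rw [Matrix.star_eq_conjTranspose, diagonal_conjTranspose, diagonal_mul_diagonal, ← diagonal_one]
    congr 1
    funext i
    fin_cases i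
    · exact uu67 u
    · change star (1 : Hq) * 1 = 1
      simp
  · rw [Matrix.star_eq_conjTranspose, diagonal_conjTranspose, diagonal_mul_diagonal, ← diagonal_one]
    congr 1
    funext i
    fin_cases i
    · exact uu67' u
    · change (1 : Hq) * star 1 = 1
      simp

private noncomputable def sw67 : MH (Fin 2) := !![0, 1; 1, 0]

private theorem swm67 : sw67 ∈ unitary (MH (Fin 2)) := by
  have h1 : star sw67 = sw67 := by
    refine Matrix.ext fun i j => ?_
    rw [Matrix.star_apply]
    fin_cases i <;> fin_cases j <;> simp [sw67]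
  have h2 : sw67 * sw67 = 1 := by
    refine Matrix.ext fun i j => ?_
    rw [Matrix.mul_apply, Fin.sum_univ_two]
    fin_cases i <;> fin_cases j <;> simp [sw67]
  rw [Unitary.mem_iff, h1]
  exact ⟨h2, h2⟩

instance instCompactK2 : CompactSpace K2 := by
  have h1 : IsCompact (unitary (MH (Fin 2)) : Set (MH (Fin 2))) := by
    have hc : IsClosed (unitary (MH (Fin 2)) : Set (MH (Fin 2))) := isClosed_unitary
    have hK : IsCompact (Set.pi Set.univ fun _ : Fin 2 => Set.pi Set.univ fun _ : Fin 2 =>
        Metric.closedBall (0 : Hq) 1) :=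
      isCompact_univ_pi fun _ => isCompact_univ_pi fun _ => isCompact_closedBall 0 1
    refine IsCompact.of_isClosed_subset (X := MH (Fin 2)) hK hc ?_
    intro A hA i _ j _
    rw [mem_closedBall_zero_iff]
    exact ent67 hA i j
  exact isCompact_iff_compactSpace.1 h1

instance instSCK2 : SecondCountableTopology K2 := by
  have h1 : SecondCountableTopology (MH (Fin 2)) :=
    inferInstanceAs (SecondCountableTopology (Fin 2 → Fin 2 → Hq))
  exact TopologicalSpace.Subtype.secondCountableTopology _

instance instSCU1 : SecondCountableTopology U1 := by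
  exact TopologicalSpace.Subtype.secondCountableTopology _

theorem exists_muU : ∃ ν : Measure U1, IsProbabilityMeasure ν ∧ ν.IsMulLeftInvariant := by
  have : CompactSpace U1 := inferInstance
  refine ⟨Measure.haarMeasure (⊤ : TopologicalSpace.PositiveCompacts U1), ⟨?_⟩, inferInstance⟩
  exact Measure.haarMeasure_self

theorem exists_muK : ∃ μ : Measure K2, IsProbabilityMeasure μ ∧ μ.IsMulLeftInvariant ∧ μ.IsMulRightInvariant ∧
    ∀ U : Set K2, IsOpen U → U.Nonempty → μ U ≠ 0 := by
  let μ : Measure K2 := Measure.haarMeasure (⊤ : TopologicalSpace.PositiveCompacts K2)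
  have h1 : IsProbabilityMeasure μ := ⟨Measure.haarMeasure_self⟩
  have h2 : μ.IsMulLeftInvariant := inferInstance
  have h3 : μ.IsHaarMeasure := inferInstance
  refine ⟨μ, h1, h2, ⟨fun g => ?_⟩, fun U hU hne => ?_⟩
  · have hm : Measurable fun x : K2 => x * g := (continuous_mul_const g).measurable
    have h4 : IsProbabilityMeasure (μ.map (· * g)) := Measure.isProbabilityMeasure_map hm.aemeasurable
    have h5 : (μ.map (· * g)).IsMulLeftInvariant := inferInstance
    have h6 := Measure.isMulInvariant_eq_smul_of_compactSpace (μ.map (· * g)) μ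
    have h7 := congrArg (fun m : Measure K2 => m Set.univ) h6
    simp only [measure_univ, Measure.smul_apply] at h7
    rw [h6]
    have h8 : Measure.haarScalarFactor (μ.map (· * g)) μ = 1 := by
      have h9 : (1 : ENNReal) = (Measure.haarScalarFactor (μ.map (· * g)) μ : ENNReal) := by
        rw [h7, ENNReal.smul_def, smul_eq_mul, mul_one]
      exact_mod_cast h9.symm
    rw [h8, one_smul]
  · exact (hU.measure_pos μ hne).ne'

theorem norm_entry_le (k : K2) (i j : Fin 2) : ‖(k : MH (Fin 2)) i j‖ ≤ 1 := by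
  exact ent67 k.2 i j

theorem norm_qq_le (k k' : K2) : ‖qq k k'‖ ≤ 1 := norm_entry_le _ 0 0

theorem qq_eq (k k' : K2) : qq k k' = star ((k : MH (Fin 2)) 0 0) * (k' : MH (Fin 2)) 0 0 +
    star ((k : MH (Fin 2)) 1 0) * (k' : MH (Fin 2)) 1 0 := by
  unfold qq
  rw [← Unitary.star_eq_inv, Submonoid.coe_mul, Unitary.coe_star, Matrix.mul_apply, Fin.sum_univ_two,
    Matrix.star_apply, Matrix.star_apply]

theorem norm_col (k : K2) : ‖(k : MH (Fin 2)) 0 0‖ ^ 2 + ‖(k : MH (Fin 2)) 1 0‖ ^ 2 = 1 := by
  exact col67 k.2 0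

theorem continuous_entry (i j : Fin 2) : Continuous fun k : K2 => (k : MH (Fin 2)) i j := by
  exact (continuous_subtype_val).matrix_elem i j

theorem continuous_hf : Continuous hf := by
  exact ((continuous_entry 0 0).norm.pow 2).sub continuous_const

theorem continuous_qq : Continuous fun p : K2 × K2 => qq p.1 p.2 := by
  exact (continuous_entry 0 0).comp (continuous_fst.inv.mul continuous_snd)

theorem hf_abs (k : K2) : |hf k| ≤ 1 / 2 := by
  unfold hf
  have h := norm_col k
  have h0 := sq_nonneg ‖(k : MH (Fin 2)) 0 0‖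
  have h1 := sq_nonneg ‖(k : MH (Fin 2)) 1 0‖
  rw [abs_le]
  constructor <;> linarith

/-- `diag(u, 1)` -/
noncomputable def dg1 (u : U1) : K2 := ⟨diagonal ![(u : Hq), 1], by
  exact dgm67 u⟩

theorem hf_right (k : K2) (u : U1) : hf (k * dg1 u) = hf k := by
  unfold hf
  have h : ((k * dg1 u : K2) : MH (Fin 2)) 0 0 = (k : MH (Fin 2)) 0 0 * (u : Hq) := by
    rw [Submonoid.coe_mul]
    exact Matrix.mul_diagonal _ _ _ _
  rw [h, norm_mul, nu67, mul_one]

theorem qq_right (k k' : K2) (u : U1) : qq k (k' * dg1 u) = qq k k' * (u : Hq) := by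
  unfold qq
  rw [← mul_assoc, Submonoid.coe_mul]
  exact Matrix.mul_diagonal _ _ _ _

theorem continuous_dg1 : Continuous dg1 := by
  refine Continuous.subtype_mk ?_ _
  refine Continuous.matrix_diagonal ?_
  refine continuous_pi fun i => ?_
  fin_cases i
  · exact continuous_subtype_val
  · exact continuous_const

variable (μ : Measure K2) [IsProbabilityMeasure μ] [μ.IsMulLeftInvariant] [μ.IsMulRightInvariant]

theorem hf_int : ∫ k, hf k ∂μ = 0 := by
  refine integral_eq_zero_of_mul_left_eq_neg (g := (⟨sw67, swm67⟩ : K2)) fun k => ?_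
  have h : ((⟨sw67, swm67⟩ * k : K2) : MH (Fin 2)) 0 0 = (k : MH (Fin 2)) 1 0 := by
    rw [Submonoid.coe_mul, Matrix.mul_apply, Fin.sum_univ_two]
    simp [sw67]
  have h1 := norm_col k
  unfold hf
  rw [h]
  linarith

theorem hf_sq_pos (hμ : ∀ U : Set K2, IsOpen U → U.Nonempty → μ U ≠ 0) : 0 < ∫ k, hf k ^ 2 ∂μ := by
  have hc : Continuous fun k : K2 => hf k ^ 2 := continuous_hf.pow 2
  have hint : Integrable (fun k : K2 => hf k ^ 2) μ := by
    refine Integrable.of_bound hc.aestronglyMeasurable (1 / 4) (Filter.Eventually.of_forall fun k => ?_)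
    have h := hf_abs k
    rw [Real.norm_eq_abs, abs_pow]
    have h2 := pow_le_pow_left₀ (abs_nonneg _) h 2
    norm_num at h2
    norm_num
    exact h2
  rw [integral_pos_iff_support_of_nonneg (fun k => sq_nonneg _) hint]
  refine pos_iff_ne_zero.2 (hμ _ hc.isOpen_support ⟨1, ?_⟩)
  rw [Function.mem_support]
  unfold hf
  have h1 : ((1 : K2) : MH (Fin 2)) 0 0 = 1 := by
    rw [OneMemClass.coe_one, Matrix.one_apply_eq]
  rw [h1, norm_one]
  norm_num

end Pool.Agent.Helper84.SPQ
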