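import Pool.Agent.Helper84.SPQ.Q1
import Pool.Agent.Helper66.RK.Quat

/-!
# Project SPQ, block Q2: the quaternionic structure in the singular bases, the gauge

`conj A = Aᴴᵀ`. `jq S j γ = (kR γ)ᴴ j conj (kR γ)`. PROOFS. `jq_trans`, `jq_unit`: clear. `jq_m`: `m = (kR γ)ᴴ ι(h) kR(γ'')`: `m (kR'')ᴴ j conj kR'' = kRᴴ ι(h) j conj kR'' = kRᴴ j conj ι(h) conj kR'' = (kRᴴ j conj kR) conj (kRᴴ ι(h) kR'')`. `jq_supp`: `ι j = j conj ι` and `j` unitary give `ιᴴ j = j conj (ιᴴ)`, so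
`Gram j = j conj Gram`, `Gram = ιᴴ ι = kR diag(s²) kRᴴ` (`gram_eq`, `Helper66/RK/Upq.lean`): `diag(s²) jq = jq diag(s²)`; `s_i² = s_k²`.
`normal_form`: `U` on a four element index type `B`, unitary and antisymmetric: `U conj U = -1`. Choose a unit vector `v0`, `v1 = -U conj v0`: orthogonal to `v0` (`v0ᴴ U conj v0 = 0` by antisymmetry), unit, `U conj v1 = v0`; choose a unit vector `v2` orthogonal to `v0`, `v1`, and `v3 = -U conj v2` (orthogonal to `v0`, `v1`, `v2`).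
`κ` with columns `v0, ..., v3`: `U conj κ = κ j4`.
`gaugeQ`: `U = res (jq γ)` is unitary on the block `{a, ..., a + 3}` because `jq i k = 0` for `i` in the block, `k` not (`jq_supp`, the strict inequalities `hlo`, `hhi`, `s` decreasing, `s_a ≥ s_{a+3}`). `X = diag(1/s_i)` commutes with `jq` and is real: `κᴴ X κ j4 = κᴴ X κ κᴴ U conj κ = κᴴ X U conj κ = κᴴ U X conj κ = j4 conj (κᴴ X κ)`.
`ns (κᴴ X κ) = ∑ 1/s_i²`, `det = ∏ 1/s_i` in modulus (unitary invariance; trace of `(κᴴ X κ)ᴴ (κᴴ X κ)`; `det_mul_comm`-type lemmas or via `κᴴ`, reindexing `Bk ≃ Fin 4`), `s_a = s_{a+1}`, `s_{a+2} = s_{a+3}` (`quat_double`, `a` even): so the quotient is `4 / (s_a s_{a+2}) / (2/s_a² + 2/s_{a+2}²)`.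
-/

set_option autoImplicit false

open Filter Topology Matrix

namespace Pool.Agent.Helper84.SPQ

open NI GN Pool.Agent.Helper90.RK Pool.Agent.Helper66.RK

variable {G : Type} [Group G] {N : ℕ} {P : PH G N}

/-- The quaternionic structure in the basis of singular vectors. -/
noncomputable def jq (S : Sv P) (j : MN N) (γ : G) : MN N := (S.kR γ)ᴴ * j * (S.kR γ)ᴴᵀ

section

variable (S : Sv P) {j : MN N} (h1 : jᴴ * j = 1) (h2 : jᵀ = -j) (h3 : ∀ g, P.ι g * j = j * (P.ι g)ᴴᵀ)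

include h2 in
theorem jq_trans (γ : G) : (jq S j γ)ᵀ = -jq S j γ := by
  unfold jq
  rw [transpose_mul, transpose_mul, transpose_transpose, h2, neg_mul, mul_neg, mul_assoc]

private theorem ctct {n m : Type} (A : Matrix n m ℂ) : (Aᴴᵀ)ᴴ = Aᵀ := by
  ext i j
  simp

private theorem ctmul {n m k : Type} [Fintype m] (A : Matrix n m ℂ) (B : Matrix m k ℂ) :
    (A * B)ᴴᵀ = Aᴴᵀ * Bᴴᵀ := by
  rw [conjTranspose_mul, transpose_mul]

include h1 in
theorem jq_unit (γ : G) : (jq S j γ)ᴴ * jq S j γ = 1 := by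
  unfold jq
  obtain ⟨K, hK⟩ : ∃ K, K = S.kR γ := ⟨_, rfl⟩
  have hKu : Kᴴ * K = 1 := by rw [hK]; exact S.uR γ
  have hKu' : K * Kᴴ = 1 := mul_eq_one_comm.1 hKu
  rw [← hK, conjTranspose_mul, conjTranspose_mul, conjTranspose_conjTranspose, ctct]
  calc Kᵀ * (jᴴ * K) * (Kᴴ * j * Kᴴᵀ) = Kᵀ * (jᴴ * (K * Kᴴ) * j) * Kᴴᵀ := by
        simp only [mul_assoc]
    _ = (Kᴴ * K)ᵀ := by rw [hKu', mul_one, h1, mul_one, transpose_mul]
    _ = 1 := by rw [hKu, transpose_one]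

include h3 in
theorem jq_m (g h γ : G) : S.m g h γ * jq S j (g⁻¹ * γ * h) = jq S j γ * (S.m g h γ)ᴴᵀ := by
  unfold jq Sv.m
  obtain ⟨K, hK⟩ : ∃ K, K = S.kR γ := ⟨_, rfl⟩
  obtain ⟨L, hL⟩ : ∃ L, L = S.kR (g⁻¹ * γ * h) := ⟨_, rfl⟩
  have hKu : Kᴴ * K = 1 := by rw [hK]; exact S.uR γ
  have hKu' : K * Kᴴ = 1 := mul_eq_one_comm.1 hKu
  have hLu : Lᴴ * L = 1 := by rw [hL]; exact S.uR _
  have hLu' : L * Lᴴ = 1 := mul_eq_one_comm.1 hLu
  rw [← hK, ← hL, ctmul, ctmul]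
  have e1 : Kᴴᵀ * (Kᴴ)ᴴᵀ = 1 := by
    rw [← ctmul, hKu', conjTranspose_one, transpose_one]
  calc Kᴴ * P.ι h * L * (Lᴴ * j * Lᴴᵀ) = Kᴴ * P.ι h * (L * Lᴴ) * j * Lᴴᵀ := by
        simp only [mul_assoc]
    _ = Kᴴ * (P.ι h * j) * Lᴴᵀ := by rw [hLu', mul_one]; simp only [mul_assoc]
    _ = Kᴴ * j * (Kᴴᵀ * (Kᴴ)ᴴᵀ) * (P.ι h)ᴴᵀ * Lᴴᵀ := by
        rw [h3, e1, mul_one]; simp only [mul_assoc]
    _ = Kᴴ * j * Kᴴᵀ * ((Kᴴ)ᴴᵀ * (P.ι h)ᴴᵀ * Lᴴᵀ) := by simp only [mul_assoc]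

include h1 h3 in
theorem jq_supp (γ : G) (i k : Fin N) (h : jq S j γ i k ≠ 0) : S.s γ i = S.s γ k := by
  by_contra hne
  apply h
  unfold jq
  obtain ⟨K, hK⟩ : ∃ K, K = S.kR γ := ⟨_, rfl⟩
  have hKu : Kᴴ * K = 1 := by rw [hK]; exact S.uR γ
  obtain ⟨D, hD⟩ : ∃ D : MN N, D = diagonal (fun i => ((S.s γ i ^ 2 : ℝ) : ℂ)) := ⟨_, rfl⟩
  obtain ⟨A, hA⟩ : ∃ A, A = P.ι γ := ⟨_, rfl⟩
  have hp : Aᴴ * A = K * D * Kᴴ := by rw [hA, hK, hD]; exact gram_eq S γ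
  have hjj : j * jᴴ = 1 := mul_eq_one_comm.1 h1
  have h3' : A * j = j * Aᴴᵀ := by rw [hA]; exact h3 γ
  have e1 : Aᴴ * j = j * Aᵀ := by
    have h2 := congrArg (fun M : MN N => Mᴴ) h3'
    simp only [conjTranspose_mul] at h2
    rw [ctct] at h2
    calc Aᴴ * j = (j * jᴴ) * Aᴴ * j := by rw [hjj, one_mul]
      _ = j * (jᴴ * Aᴴ) * j := by simp only [mul_assoc]
      _ = j * Aᵀ * (jᴴ * j) := by rw [h2]; simp only [mul_assoc]
      _ = j * Aᵀ := by rw [h1, mul_one]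
  have e2 : Aᴴ * A * j = j * (Aᴴ * A)ᴴᵀ := by
    have e3 : (Aᴴ * A)ᴴᵀ = Aᵀ * Aᴴᵀ := by
      rw [ctmul]
      congr 1
      ext i j; simp
    rw [e3, mul_assoc, h3', ← mul_assoc, e1, mul_assoc]
  rw [hp] at e2
  have hcD : Dᴴᵀ = D := by
    rw [hD, diagonal_conjTranspose, diagonal_transpose]
    congr 1
    funext i
    simp
  have hcK : (Kᴴ)ᴴᵀ * Kᴴᵀ = 1 := by
    rw [← ctmul, hKu, conjTranspose_one, transpose_one]
  have e4 : D * (Kᴴ * j * Kᴴᵀ) = (Kᴴ * j * Kᴴᵀ) * D := by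
    rw [ctmul, ctmul, hcD] at e2
    calc D * (Kᴴ * j * Kᴴᵀ) = (Kᴴ * K) * D * Kᴴ * j * Kᴴᵀ := by
          rw [hKu, one_mul]; simp only [mul_assoc]
      _ = Kᴴ * (K * D * Kᴴ * j) * Kᴴᵀ := by simp only [mul_assoc]
      _ = Kᴴ * j * Kᴴᵀ * D * ((Kᴴ)ᴴᵀ * Kᴴᵀ) := by rw [e2]; simp only [mul_assoc]
      _ = Kᴴ * j * Kᴴᵀ * D := by rw [hcK, mul_one]
  rw [← hK]
  have e5 := congrFun (congrFun e4 i) k
  rw [hD, mul_diagonal, diagonal_mul] at e5
  have e6 : (((S.s γ i ^ 2 : ℝ) : ℂ) - ((S.s γ k ^ 2 : ℝ) : ℂ)) * (Kᴴ * j * Kᴴᵀ) i k = 0 := by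
    linear_combination e5
  rcases mul_eq_zero.1 e6 with h7 | h7
  · exfalso
    have h8 : S.s γ i ^ 2 - S.s γ k ^ 2 = 0 := by exact_mod_cast h7
    have h9 := S.pos γ i
    have h10 := S.pos γ k
    apply hne
    nlinarith
  · exact h7

end

section NF

variable {B : Type} [Fintype B]

/-- inner product -/
private def ip4 (x y : B → ℂ) : ℂ := star x ⬝ᵥ y

/-- the antilinear map -/
private def T4 (U : Matrix B B ℂ) (x : B → ℂ) : B → ℂ := U *ᵥ star x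

private theorem ip4_anti {U : Matrix B B ℂ} (h2 : Uᵀ = -U) (x y : B → ℂ) :
    ip4 x (T4 U y) = -ip4 y (T4 U x) := by
  unfold ip4 T4
  rw [dotProduct_mulVec, ← mulVec_transpose, h2, neg_mulVec, neg_dotProduct, dotProduct_comm]

private theorem ip4_T [DecidableEq B] {U : Matrix B B ℂ} (h1 : Uᴴ * U = 1) (x y : B → ℂ) :
    ip4 (T4 U x) (T4 U y) = ip4 y x := by
  unfold ip4 T4
  rw [star_mulVec, star_star, ← dotProduct_mulVec, mulVec_mulVec, h1, one_mulVec, dotProduct_comm]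

private theorem ip4_neg_left (x y : B → ℂ) : ip4 (-x) y = -ip4 x y := by
  unfold ip4
  rw [star_neg, neg_dotProduct]

private theorem ip4_neg_right (x y : B → ℂ) : ip4 x (-y) = -ip4 x y := by
  unfold ip4
  rw [dotProduct_neg]

private theorem ip4_conj (x y : B → ℂ) : ip4 y x = star (ip4 x y) := by
  exact star_dotProduct _ _

private theorem T4_neg (U : Matrix B B ℂ) (x : B → ℂ) : T4 U (-x) = -T4 U x := by
  unfold T4
  rw [star_neg, mulVec_neg]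

private theorem T4_T [DecidableEq B] {U : Matrix B B ℂ} (h1 : Uᴴ * U = 1) (h2 : Uᵀ = -U)
    (x : B → ℂ) : T4 U (T4 U x) = -x := by
  unfold T4
  have h3 : U * Uᴴ = 1 := mul_eq_one_comm.1 h1
  have h4 : star (U *ᵥ star x) = x ᵥ* Uᴴ := by
    rw [star_mulVec, star_star]
  have h5 : Uᴴᵀ = -Uᴴ := by
    have h6 := congrArg conjTranspose h2
    rw [conjTranspose_neg] at h6
    rw [← h6]
    ext i j
    simp
  rw [h4, ← mulVec_transpose, h5, neg_mulVec, mulVec_neg, mulVec_mulVec, h3, one_mulVec]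

private theorem T4_self {U : Matrix B B ℂ} (h2 : Uᵀ = -U) (x : B → ℂ) :
    ip4 x (T4 U x) = 0 := by
  have h := ip4_anti h2 x x
  linear_combination h / 2

/-- a unit vector orthogonal to two vectors -/
private theorem exists_orth4 (hB : Fintype.card B = 4) (v w : B → ℂ) :
    ∃ x : B → ℂ, ip4 x x = 1 ∧ ip4 x v = 0 ∧ ip4 x w = 0 := by
  classical
  let A : Matrix (Fin 2) B ℂ := Matrix.of ![star v, star w]
  have hk : LinearMap.ker A.mulVecLin ≠ ⊥ := by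
    refine LinearMap.ker_ne_bot_of_finrank_lt ?_
    rw [Module.finrank_fin_fun, Module.finrank_fintype_fun_eq_card, hB]
    norm_num
  obtain ⟨x, hx, hx0⟩ := Submodule.exists_mem_ne_zero_of_ne_bot hk
  have hx1 : A *ᵥ x = 0 := hx
  have hv : ip4 v x = 0 := congrFun hx1 0
  have hw : ip4 w x = 0 := congrFun hx1 1
  have hxx : ip4 x x = ((∑ i, ‖x i‖ ^ 2 : ℝ) : ℂ) := by
    unfold ip4 dotProduct
    push_cast
    refine Finset.sum_congr rfl fun i _ => ?_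
    rw [Pi.star_apply]
    exact Complex.conj_mul' (x i)
  have hpos : 0 < ∑ i, ‖x i‖ ^ 2 := by
    obtain ⟨i, hi⟩ := Function.ne_iff.1 hx0
    refine Finset.sum_pos' (fun i _ => by positivity) ⟨i, Finset.mem_univ i, ?_⟩
    have : 0 < ‖x i‖ := norm_pos_iff.2 hi
    positivity
  obtain ⟨r, hr⟩ : ∃ r : ℝ, r = Real.sqrt (∑ i, ‖x i‖ ^ 2) := ⟨_, rfl⟩
  have hr0 : 0 < r := by rw [hr]; exact Real.sqrt_pos.2 hpos
  have hr2 : r ^ 2 = ∑ i, ‖x i‖ ^ 2 := by rw [hr]; exact Real.sq_sqrt hpos.le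
  have hsm : ∀ y, ip4 (((r⁻¹ : ℝ) : ℂ) • x) y = ((r⁻¹ : ℝ) : ℂ) * ip4 x y := by
    intro y
    unfold ip4
    rw [star_smul, smul_dotProduct, smul_eq_mul]
    congr 1
    exact Complex.conj_ofReal _
  refine ⟨((r⁻¹ : ℝ) : ℂ) • x, ?_, ?_, ?_⟩
  · rw [hsm]
    have h1 : ip4 x (((r⁻¹ : ℝ) : ℂ) • x) = ((r⁻¹ : ℝ) : ℂ) * ip4 x x := by
      unfold ip4
      rw [dotProduct_smul, smul_eq_mul]
    rw [h1, hxx, ← hr2]
    push_cast
    have : (r : ℂ) ≠ 0 := by exact_mod_cast hr0.ne'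
    field_simp
  · rw [hsm, ip4_conj v x, hv, star_zero, mul_zero]
  · rw [hsm, ip4_conj w x, hw, star_zero, mul_zero]

end NF

theorem normal_form {B : Type} [Fintype B] [DecidableEq B] (hB : Fintype.card B = 4) {U : Matrix B B ℂ} (h1 : Uᴴ * U = 1)
    (h2 : Uᵀ = -U) : ∃ κ : Matrix B (Fin 4) ℂ, κᴴ * κ = 1 ∧ κ * κᴴ = 1 ∧ κᴴ * U * κᴴᵀ = j4 := by
  obtain ⟨v0, h00, -, -⟩ := exists_orth4 hB 0 0
  obtain ⟨v2, h22, h20, h2T⟩ := exists_orth4 hB v0 (-T4 U v0)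
  -- the table of inner products
  have hc : ∀ x y : B → ℂ, ip4 y x = star (ip4 x y) := ip4_conj
  have hT : ∀ x y : B → ℂ, ip4 (T4 U x) (T4 U y) = ip4 y x := ip4_T h1
  have hA : ∀ x y : B → ℂ, ip4 x (T4 U y) = -ip4 y (T4 U x) := ip4_anti h2
  have hS : ∀ x : B → ℂ, ip4 x (T4 U x) = 0 := T4_self h2
  have hN1 : ∀ x y : B → ℂ, ip4 (-x) y = -ip4 x y := ip4_neg_left
  have hN2 : ∀ x y : B → ℂ, ip4 x (-y) = -ip4 x y := ip4_neg_right
  have h2T' : ip4 v2 (T4 U v0) = 0 := by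
    rw [hN2] at h2T
    linear_combination -h2T
  have h02 : ip4 v0 v2 = 0 := by rw [hc v2 v0, h20, star_zero]
  have h0T2 : ip4 v0 (T4 U v2) = 0 := by rw [hA, h2T', neg_zero]
  have hT00 : ip4 (T4 U v0) v0 = 0 := by rw [hc v0, hS, star_zero]
  have hT22 : ip4 (T4 U v2) v2 = 0 := by rw [hc v2, hS, star_zero]
  have hT02 : ip4 (T4 U v0) v2 = 0 := by rw [hc v2, h2T', star_zero]
  have hT20 : ip4 (T4 U v2) v0 = 0 := by rw [hc v0, h0T2, star_zero]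
  let v : Fin 4 → B → ℂ := ![v0, -T4 U v0, v2, -T4 U v2]
  have hG : ∀ a b, ip4 (v a) (v b) = if a = b then 1 else 0 := by
    intro a b
    fin_cases a <;> fin_cases b <;>
      simp [v, hN1, hN2, hT, h00, h22, h20, h02, h2T', h0T2, hT00, hT22, hT02, hT20, hS]
  have hTv : T4 U (v 0) = -v 1 ∧ T4 U (v 1) = v 0 ∧ T4 U (v 2) = -v 3 ∧ T4 U (v 3) = v 2 := by
    refine ⟨?_, ?_, ?_, ?_⟩
    · simp [v]
    · change T4 U (-T4 U v0) = v0
      rw [T4_neg, T4_T h1 h2, neg_neg]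
    · simp [v]
    · change T4 U (-T4 U v2) = v2
      rw [T4_neg, T4_T h1 h2, neg_neg]
  let κ : Matrix B (Fin 4) ℂ := Matrix.of fun i a => v a i
  have hκ : κᴴ * κ = 1 := by
    ext a b
    have h5 : (κᴴ * κ) a b = ip4 (v a) (v b) := rfl
    rw [h5, hG, Matrix.one_apply]
  refine ⟨κ, hκ, ?_, ?_⟩
  · have e : B ≃ Fin 4 := Fintype.equivFinOfCardEq hB
    exact (mul_eq_one_comm_of_equiv e.symm).1 hκ
  · have h6 : ∀ a b, (κᴴ * U * κᴴᵀ) a b = ip4 (v a) (T4 U (v b)) := by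
      intro a b
      rw [Matrix.mul_assoc]
      rfl
    obtain ⟨t0, t1, t2, t3⟩ := hTv
    ext a b
    rw [h6]
    fin_cases b
    · change ip4 (v a) (T4 U (v 0)) = j4 a 0
      rw [t0, hN2, hG]
      fin_cases a <;> simp [j4]
    · change ip4 (v a) (T4 U (v 1)) = j4 a 1
      rw [t1, hG]
      fin_cases a <;> simp [j4]
    · change ip4 (v a) (T4 U (v 2)) = j4 a 2
      rw [t2, hN2, hG]
      fin_cases a <;> simp [j4]
    · change ip4 (v a) (T4 U (v 3)) = j4 a 3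
      rw [t3, hG]
      fin_cases a <;> simp [j4]

private theorem ns_tr4 {n m : Type} [Fintype n] [Fintype m] (A : Matrix n m ℂ) :
    ((ns A : ℝ) : ℂ) = (Aᴴ * A).trace := by
  unfold ns Matrix.trace
  simp only [diag_apply, mul_apply, conjTranspose_apply]
  push_cast
  rw [Finset.sum_comm]
  refine Finset.sum_congr rfl fun i _ => Finset.sum_congr rfl fun k _ => ?_
  exact (Complex.conj_mul' (A k i)).symm

/-- The gauge at one element. -/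
theorem gaugeQ (S : Sv P) {j : MN N} (h1 : jᴴ * j = 1) (h2 : jᵀ = -j) (h3 : ∀ g, P.ι g * j = j * (P.ι g)ᴴᵀ)
    {a : ℕ} (ha : Even a) (haN : a + 3 < N) {i0 i2 : Fin N} (hi0 : (i0 : ℕ) = a) (hi2 : (i2 : ℕ) = a + 2) (b : Fin N → ℕ) (γ : G)
    (hb : ∀ k : Fin N, b k = b i0 ↔ (a ≤ (k : ℕ) ∧ (k : ℕ) ≤ a + 3))
    (hlo : ∀ k : Fin N, (k : ℕ) < a → S.s γ i0 < S.s γ k) (hhi : ∀ k : Fin N, a + 3 < (k : ℕ) → S.s γ k < S.s γ i2) :
    ∃ κ : Matrix (Bk b i0) (Fin 4) ℂ, κᴴ * κ = 1 ∧ κ * κᴴ = 1 ∧ κᴴ * res b i0 (jq S j γ) * κᴴᵀ = j4 ∧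
      fQ (gg κ κ (S.X γ)) = 0 ∧
      4 * Real.sqrt ‖(gg κ κ (S.X γ)).det‖ / ns (gg κ κ (S.X γ)) =
        2 * (S.s γ i0 * S.s γ i2) / (S.s γ i0 ^ 2 + S.s γ i2 ^ 2) := by
  classical
  -- the indices of the block
  let E : Fin 4 → Bk b i0 := fun t => ⟨⟨a + t, by omega⟩, (hb _).2 ⟨by simp, by
    have := t.2
    simp only
    omega⟩⟩
  have hEinj : Function.Injective E := by
    intro t u h
    have h4 : a + (t : ℕ) = a + u := congrArg (fun z : Bk b i0 => ((z : Fin N) : ℕ)) h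
    exact Fin.ext (by omega)
  have hEsur : Function.Surjective E := by
    rintro ⟨k, hk⟩
    have h4 := (hb k).1 hk
    refine ⟨⟨(k : ℕ) - a, by omega⟩, ?_⟩
    apply Subtype.ext
    apply Fin.ext
    change a + ((k : ℕ) - a) = k
    omega
  let e : Fin 4 ≃ Bk b i0 := Equiv.ofBijective E ⟨hEinj, hEsur⟩
  have hcard : Fintype.card (Bk b i0) = 4 := by
    rw [← Fintype.card_congr e, Fintype.card_fin]
  -- the singular values
  have hE0 : ((E 0 : Bk b i0) : Fin N) = i0 := Fin.ext (by rw [hi0]; rfl)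
  have hE2 : ((E 2 : Bk b i0) : Fin N) = i2 := Fin.ext (by rw [hi2]; rfl)
  have hd1 : S.s γ (E 0 : Bk b i0) = S.s γ (E 1 : Bk b i0) :=
    quat_double h1 h2 h3 S γ _ _ rfl ha
  have hd2 : S.s γ (E 2 : Bk b i0) = S.s γ (E 3 : Bk b i0) :=
    quat_double h1 h2 h3 S γ _ _ rfl (by
      change Even (a + 2)
      exact ha.add even_two)
  have hle0 : ∀ k : Bk b i0, S.s γ k ≤ S.s γ i0 := by
    intro k
    refine S.anti γ (Fin.le_def.2 ?_)
    rw [hi0]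
    exact ((hb k.1).1 k.2).1
  have hge2 : ∀ k : Bk b i0, S.s γ i2 ≤ S.s γ k := by
    intro k
    rw [← hE2, hd2]
    refine S.anti γ (Fin.le_def.2 ?_)
    change (k.1 : ℕ) ≤ a + 3
    exact ((hb k.1).1 k.2).2
  obtain ⟨U, hU⟩ : ∃ U, U = res b i0 (jq S j γ) := ⟨_, rfl⟩
  have hz : ∀ (k : Fin N) (l : Bk b i0), ¬ b k = b i0 → jq S j γ k l = 0 := by
    intro k l hk
    by_contra hcon
    have h4 := jq_supp S h1 h3 γ k l hcon
    have h5 : ¬ (a ≤ (k : ℕ) ∧ (k : ℕ) ≤ a + 3) := fun h => hk ((hb k).2 h)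
    rcases Nat.lt_or_ge (k : ℕ) a with h6 | h6
    · have h7 := hlo k h6
      have h8 := hle0 l
      linarith
    · have h7 := hhi k (by omega)
      have h8 := hge2 l
      linarith
  have hUu : Uᴴ * U = 1 := by
    rw [hU]
    ext x y
    have h5 := congrFun (congrFun (jq_unit S h1 γ) x.1) y.1
    rw [Matrix.mul_apply] at h5 ⊢
    have h6 : ∑ k : Bk b i0, (res b i0 (jq S j γ))ᴴ x k * res b i0 (jq S j γ) k y =
        ∑ k : Fin N, (jq S j γ)ᴴ x.1 k * jq S j γ k y.1 := by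
      have h7 : ∑ k ∈ Finset.univ.filter (fun k : Fin N => b k = b i0),
          (jq S j γ)ᴴ x.1 k * jq S j γ k y.1 =
          ∑ k : Bk b i0, (jq S j γ)ᴴ x.1 k.1 * jq S j γ k.1 y.1 :=
        Finset.sum_subtype _ (fun k => by simp) (fun k => (jq S j γ)ᴴ x.1 k * jq S j γ k y.1)
      refine Eq.trans h7.symm (Finset.sum_filter_of_ne fun k _ hk => ?_)
      by_contra hcon
      exact hk (by rw [hz k y hcon, mul_zero])
    rw [h6, h5]
    by_cases hxy : x = y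
    · subst hxy; simp
    · rw [one_apply_ne hxy, one_apply_ne (fun h => hxy (Subtype.ext h))]
  have hUt : Uᵀ = -U := by
    rw [hU]
    ext x y
    exact congrFun (congrFun (jq_trans S h2 γ) x.1) y.1
  obtain ⟨κ, k1, k2, k3⟩ := normal_form hcard hUu hUt
  refine ⟨κ, k1, k2, by rw [← hU]; exact k3, ?_⟩
  -- the matrix of the singular values
  obtain ⟨X, hX⟩ : ∃ X : Matrix (Bk b i0) (Bk b i0) ℂ,
      X = diagonal (fun k : Bk b i0 => ((S.s γ k.1 : ℝ) : ℂ)⁻¹) :=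
    ⟨_, rfl⟩
  have hXr : res b i0 (S.X γ) = X := by
    rw [hX]
    ext x y
    unfold res Sv.X
    rw [submatrix_apply]
    by_cases hxy : x = y
    · subst hxy
      rw [diagonal_apply_eq, diagonal_apply_eq]
    · rw [diagonal_apply_ne _ hxy, diagonal_apply_ne _ (fun h => hxy (Subtype.ext h))]
  have hgg : gg κ κ (S.X γ) = κᴴ * X * κ := by
    unfold gg
    rw [hXr]
  have hXU : X * U = U * X := by
    ext x y
    rw [hX, diagonal_mul, mul_diagonal]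
    by_cases h0 : U x y = 0
    · rw [h0, mul_zero, zero_mul]
    · have h4 : S.s γ x = S.s γ y := by
        refine jq_supp S h1 h3 γ x y ?_
        rw [hU] at h0
        exact h0
      rw [h4, mul_comm]
  have hXh : Xᴴ = X := by
    rw [hX, diagonal_conjTranspose]
    congr 1
    funext k
    simp
  have hXt : Xᵀ = X := by
    rw [hX, diagonal_transpose]
  rw [hgg]
  constructor
  · refine fS_eq.2 ⟨1, by simp, ?_⟩
    rw [one_smul]
    have e1 : (κᴴ * X * κ)ᴴᵀ = κᵀ * X * κᴴᵀ := by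
      rw [conjTranspose_mul, conjTranspose_mul, conjTranspose_conjTranspose, hXh, transpose_mul,
        transpose_mul, hXt]
    have e2 : κᴴᵀ * κᵀ = 1 := by
      rw [← transpose_mul, k2, transpose_one]
    rw [e1, ← k3]
    calc κᴴ * X * κ * (κᴴ * U * κᴴᵀ) = κᴴ * X * (κ * κᴴ) * U * κᴴᵀ := by
          simp only [Matrix.mul_assoc]
      _ = κᴴ * (X * U) * κᴴᵀ := by rw [k2, Matrix.mul_one]; simp only [Matrix.mul_assoc]
      _ = κᴴ * U * (κᴴᵀ * κᵀ) * X * κᴴᵀ := by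
          rw [hXU, e2, Matrix.mul_one]; simp only [Matrix.mul_assoc]
      _ = κᴴ * U * κᴴᵀ * (κᵀ * X * κᴴᵀ) := by simp only [Matrix.mul_assoc]
  · have hp0 := S.pos γ i0
    have hp2 := S.pos γ i2
    have hs1 : S.s γ (E 1 : Bk b i0) = S.s γ i0 := by rw [← hd1, hE0]
    have hs3 : S.s γ (E 3 : Bk b i0) = S.s γ i2 := by rw [← hd2, hE2]
    -- the determinant
    have hdet : ‖(κᴴ * X * κ).det‖ = ((S.s γ i0 * S.s γ i2)⁻¹) ^ 2 := by
      rw [det_conj_of_mul_eq_one k1 k2, hX, det_diagonal, norm_prod]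
      have h4 : ∀ k : Bk b i0, ‖((S.s γ k : ℝ) : ℂ)⁻¹‖ = (S.s γ k)⁻¹ := by
        intro k
        rw [norm_inv, Complex.norm_real, Real.norm_eq_abs, abs_of_pos (S.pos γ k)]
      simp only [h4]
      rw [← Equiv.prod_comp e, Fin.prod_univ_four]
      change (S.s γ (E 0 : Bk b i0))⁻¹ * (S.s γ (E 1 : Bk b i0))⁻¹ *
        (S.s γ (E 2 : Bk b i0))⁻¹ * (S.s γ (E 3 : Bk b i0))⁻¹ = _
      rw [hs1, hs3, hE0, hE2]
      field_simp
    -- the norm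
    have hns : ns (κᴴ * X * κ) = 2 * (S.s γ i0 ^ 2)⁻¹ + 2 * (S.s γ i2 ^ 2)⁻¹ := by
      have h5 : ((ns (κᴴ * X * κ) : ℝ) : ℂ) = ((2 * (S.s γ i0 ^ 2)⁻¹ + 2 * (S.s γ i2 ^ 2)⁻¹ : ℝ) : ℂ) := by
        rw [ns_tr4, conjTranspose_mul, conjTranspose_mul, conjTranspose_conjTranspose, hXh]
        have h6 : κᴴ * (X * κ) * (κᴴ * X * κ) = κᴴ * (X * X * κ) := by
          calc κᴴ * (X * κ) * (κᴴ * X * κ) = κᴴ * X * (κ * κᴴ) * X * κ := by
                simp only [Matrix.mul_assoc]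
            _ = _ := by rw [k2, Matrix.mul_one]; simp only [Matrix.mul_assoc]
        rw [h6, trace_mul_comm, Matrix.mul_assoc, k2, Matrix.mul_one, hX, diagonal_mul_diagonal,
          trace_diagonal, ← Equiv.sum_comp e, Fin.sum_univ_four]
        change ((S.s γ (E 0 : Bk b i0) : ℝ) : ℂ)⁻¹ * ((S.s γ (E 0 : Bk b i0) : ℝ) : ℂ)⁻¹ +
          ((S.s γ (E 1 : Bk b i0) : ℝ) : ℂ)⁻¹ * ((S.s γ (E 1 : Bk b i0) : ℝ) : ℂ)⁻¹ +
          ((S.s γ (E 2 : Bk b i0) : ℝ) : ℂ)⁻¹ * ((S.s γ (E 2 : Bk b i0) : ℝ) : ℂ)⁻¹ +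
          ((S.s γ (E 3 : Bk b i0) : ℝ) : ℂ)⁻¹ * ((S.s γ (E 3 : Bk b i0) : ℝ) : ℂ)⁻¹ = _
        rw [hs1, hs3, hE0, hE2]
        push_cast
        have g0 : ((S.s γ i0 : ℝ) : ℂ) ≠ 0 := by exact_mod_cast hp0.ne'
        have g2 : ((S.s γ i2 : ℝ) : ℂ) ≠ 0 := by exact_mod_cast hp2.ne'
        field_simp
        ring
      exact_mod_cast h5
    rw [hdet, hns, Real.sqrt_sq (by positivity)]
    field_simp
    try ring

end Pool.Agent.Helper84.SPQ
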