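import Pool.Agent.Helper84.SPQ.S1
import Pool.Agent.Helper84.SPQ.Q2
import Pool.Agent.Helper84.SPQ.U4

/-!
# Project SPQ, block S2: `SO*(4 r + 2)`: the gauge and the asymptotics in the middle block

`Φ` Hermitian unitary (`Φᴴ = Φ`, `Φ² = 1`), `j` a quaternionic structure (`jᴴ j = 1`, `jᵀ = -j`), `Φ j = -j conj Φ` (`conj Φ = Φᴴᵀ`), both preserved; `N = 4 r + 2`, block `{2 r - 2, ..., 2 r + 3}` (six elements): this is the middle block of `U3.lean`, `U4.lean` for `r' = 2 r - 1`. PROOFS.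
`rel`: `Jh jq = (kRᴴ Φ kR) (kRᴴ j conj kR) = kRᴴ Φ j conj kR = -kRᴴ j conj Φ conj kR = -jq conj (Jh)`.
`gaugeS`: `F = res (Jh γ)`, `U = res (jq γ)` on the block: by `mid_zero` (`r' = 2 r - 1`) `Jh` has no entries between the block and its complement, so `F² = 1`, `Fᴴ = F`; by `jq_supp` and the strict inequality `s_{2r-2} < s_{2r-3}` (and its mirror image `s_{2r+3} > s_{2r+4}`, from `upq_symm`) neither has `jq`: `U` is unitary, antisymmetric; `F U = -U conj F`.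
`F` and `conj F` have the same (real) trace, and `F = -U conj(F) U⁻¹`: so `trace F = 0` and the eigenspace `V+` of `F` for the eigenvalue `1` has dimension three. Let `v1, v2, v3` be an orthonormal basis of `V+` and `κ (inl i) = v_i`, `κ (inr i) = -U conj v_i` (in the eigenspace of `-1`, orthonormal): `κᴴ F κ = J6`; `U conj κ = κ j6`
(`U conj U = -1`). `X = diag(1/s_i)` satisfies `X F X = F` (`jh_supp`) and `X U = U X` (`jq_supp`), so `κᴴ X κ` satisfies both equations. `ns (κᴴ X κ) = ns X = 2 s² + 2 + 2 s⁻²`, `s = s_{2r-2} = s_{2r-1}` (`quat_double`), `s_{2r} = s_{2r+1} = 1` (`s_{2r} s_{2r+1} = 1` by `upq_symm`, equal by `quat_double`), `s_{2r+2} = s_{2r+3} = 1/s`.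
`s_close`: `A = κᴴ C κ''`: `ns (Aᴴ J6 A - J6) → 0` as in `u4_close` from `u4_block` with `r' = 2 r - 1` (its `i1` is the index `r' - 2 = 2 r - 3`); `QS j6 A` holds exactly for `γ, γ'' ∈ good`, from `jq_m` restricted to the block, so `fS j6 A = 0`.
-/

set_option autoImplicit false

open Filter Topology Matrix

namespace Pool.Agent.Helper84.SPQ

open NI GN Pool.Agent.Helper90.RK Pool.Agent.Helper66.RK

variable {G : Type} [Group G] {N : ℕ} {P : PH G N}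

private theorem kk68 (S : Sv P) (γ : G) : S.kR γ * (S.kR γ)ᴴ = 1 := mul_eq_one_comm.1 (S.uR γ)

private theorem cj_mul68 {l m n : Type} [Fintype m] (A : Matrix l m ℂ) (B : Matrix m n ℂ) :
    (A * B)ᴴᵀ = Aᴴᵀ * Bᴴᵀ := by
  rw [conjTranspose_mul, transpose_mul]

private theorem cj_cj68 {m n : Type} (A : Matrix m n ℂ) : (Aᴴᵀ)ᴴᵀ = A := by
  ext i j
  simp

private theorem cj_neg68 {m n : Type} (A : Matrix m n ℂ) : (-A)ᴴᵀ = -(Aᴴᵀ) := by
  rw [conjTranspose_neg, transpose_neg]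

private theorem cj_star68 {m n : Type} (A : Matrix m n ℂ) : (Aᴴᵀ)ᴴ = (Aᴴ)ᴴᵀ := by
  ext i j
  simp

private theorem cj_one68 {m : Type} [DecidableEq m] : ((1 : Matrix m m ℂ))ᴴᵀ = 1 := by
  rw [conjTranspose_one, transpose_one]

private theorem ns_trace68 {n m : Type} [Fintype n] [Fintype m] (A : Matrix n m ℂ) :
    ((ns A : ℝ) : ℂ) = (Aᴴ * A).trace := by
  unfold ns Matrix.trace
  simp only [Matrix.diag_apply, Matrix.mul_apply, Matrix.conjTranspose_apply]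
  push_cast
  rw [Finset.sum_comm]
  refine Finset.sum_congr rfl fun i _ => Finset.sum_congr rfl fun j _ => ?_
  rw [RCLike.star_def, RCLike.conj_mul]
  norm_cast

private theorem ns_conj68 {n m : Type} [Fintype n] [Fintype m] [DecidableEq n] [DecidableEq m] {k k' : Matrix n m ℂ}
    (h1 : k * kᴴ = 1) (h2 : k' * k'ᴴ = 1) (A : Matrix n n ℂ) : ns (kᴴ * A * k') = ns A := by
  have h : ((ns (kᴴ * A * k') : ℝ) : ℂ) = ((ns A : ℝ) : ℂ) := by
    rw [ns_trace68, ns_trace68, Matrix.conjTranspose_mul, Matrix.conjTranspose_mul, Matrix.conjTranspose_conjTranspose]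
    calc (k'ᴴ * (Aᴴ * k) * (kᴴ * A * k')).trace = (k'ᴴ * (Aᴴ * (k * kᴴ) * A * k')).trace := by
          simp only [Matrix.mul_assoc]
      _ = (Aᴴ * A * (k' * k'ᴴ)).trace := by
          rw [h1, Matrix.mul_one, Matrix.trace_mul_comm]
          simp only [Matrix.mul_assoc]
      _ = (Aᴴ * A).trace := by rw [h2, Matrix.mul_one]
  exact_mod_cast h

theorem rel_jq (S : Sv P) {Φ j : MN N} (h : Φ * j = -(j * Φᴴᵀ)) (γ : G) : Jh S Φ γ * jq S j γ = -(jq S j γ * (Jh S Φ γ)ᴴᵀ) := by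
  have e1 := kk68 S γ
  have e2 : (S.kR γ)ᴴᵀ * ((S.kR γ)ᴴᵀ)ᴴ = 1 := by
    rw [cj_star68, ← cj_mul68, e1, cj_one68]
  have e3 : (Jh S Φ γ)ᴴᵀ = ((S.kR γ)ᴴᵀ)ᴴ * Φᴴᵀ * (S.kR γ)ᴴᵀ := by
    unfold Jh
    rw [cj_mul68, cj_mul68, cj_star68]
  calc Jh S Φ γ * jq S j γ = (S.kR γ)ᴴ * Φ * (S.kR γ * (S.kR γ)ᴴ) * (j * (S.kR γ)ᴴᵀ) := by
        simp only [Jh, jq, Matrix.mul_assoc]
    _ = (S.kR γ)ᴴ * (Φ * j) * (S.kR γ)ᴴᵀ := by rw [e1, Matrix.mul_one]; simp only [Matrix.mul_assoc]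
    _ = -((S.kR γ)ᴴ * j * ((S.kR γ)ᴴᵀ * ((S.kR γ)ᴴᵀ)ᴴ) * (Φᴴᵀ * (S.kR γ)ᴴᵀ)) := by
        rw [h, e2, Matrix.mul_one]
        simp only [Matrix.mul_neg, Matrix.neg_mul, Matrix.mul_assoc]
    _ = _ := by
        rw [e3]
        simp only [jq, Matrix.mul_assoc]

private theorem sum_bk68 {b : Fin N → ℕ} {i0 : Fin N} (f : Fin N → ℂ) (hf : ∀ k, b k ≠ b i0 → f k = 0) :
    ∑ k : Bk b i0, f k.1 = ∑ k, f k := by
  have e1 : ∑ k ∈ Finset.univ.filter (fun i : Fin N => b i = b i0), f k = ∑ k : Bk b i0, f k.1 :=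
    Finset.sum_subtype (Finset.univ.filter fun i : Fin N => b i = b i0)
      (p := fun i : Fin N => b i = b i0) (fun x => by simp) f
  rw [← e1]
  exact Finset.sum_filter_of_ne fun k _ hk => by_contra fun hc => hk (hf k hc)

/-- restriction of a product, left factor block diagonal at the row -/
private theorem res_mul_left68 {b : Fin N → ℕ} {i0 : Fin N} {A B : MN N}
    (hA : ∀ i k : Fin N, b i = b i0 → b k ≠ b i0 → A i k = 0) :
    res b i0 (A * B) = res b i0 A * res b i0 B := by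
  ext x y
  show (A * B) x.1 y.1 = _
  rw [Matrix.mul_apply, Matrix.mul_apply]
  have := sum_bk68 (b := b) (i0 := i0) (fun k => A x.1 k * B k y.1) (fun k hk => by
    show A x.1 k * B k y.1 = 0
    rw [hA x.1 k x.2 hk, zero_mul])
  exact this.symm

/-- restriction of a product, right factor block diagonal at the column -/
private theorem res_mul_right68 {b : Fin N → ℕ} {i0 : Fin N} {A B : MN N}
    (hB : ∀ i k : Fin N, b i = b i0 → b k ≠ b i0 → B k i = 0) :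
    res b i0 (A * B) = res b i0 A * res b i0 B := by
  ext x y
  show (A * B) x.1 y.1 = _
  rw [Matrix.mul_apply, Matrix.mul_apply]
  have := sum_bk68 (b := b) (i0 := i0) (fun k => A x.1 k * B k y.1) (fun k hk => by
    show A x.1 k * B k y.1 = 0
    rw [hB y.1 k y.2 hk, mul_zero])
  exact this.symm

private theorem res_one68 {b : Fin N → ℕ} {i0 : Fin N} : res b i0 (1 : MN N) = 1 := by
  ext i j
  show (1 : MN N) i.1 j.1 = _
  by_cases hij : i = j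
  · subst hij
    rw [one_apply_eq, one_apply_eq]
  · rw [one_apply_ne hij, one_apply_ne (fun h => hij (Subtype.ext h))]

private theorem res_cj68 {b : Fin N → ℕ} {i0 : Fin N} (A : MN N) : res b i0 (Aᴴᵀ) = (res b i0 A)ᴴᵀ := rfl

private theorem res_star68 {b : Fin N → ℕ} {i0 : Fin N} (A : MN N) : res b i0 Aᴴ = (res b i0 A)ᴴ := rfl

/-- the entries of `jq` between the middle block and its complement vanish -/
private theorem jq_zero68 (S : Sv P) {Φ j : MN N} (h2 : Φ * Φ = 1) (h4 : ∀ g, (P.ι g)ᴴ * Φ * P.ι g = Φ)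
    (k1 : jᴴ * j = 1) (k3 : ∀ g, P.ι g * j = j * (P.ι g)ᴴᵀ)
    {r : ℕ} (hr : 2 ≤ r) (hN : N = 4 * r + 2) {i0 i1 : Fin N} (hi0 : (i0 : ℕ) = 2 * r - 2) (hi1 : (i1 : ℕ) = 2 * r - 3)
    (γ : G) (hgap : S.s γ i0 < S.s γ i1) (i k : Fin N) (hi : 2 * r - 2 ≤ (i : ℕ) ∧ (i : ℕ) ≤ 2 * r + 3)
    (hk : ¬ (2 * r - 2 ≤ (k : ℕ) ∧ (k : ℕ) ≤ 2 * r + 3)) : jq S j γ i k = 0 ∧ jq S j γ k i = 0 := by
  have key : S.s γ i ≠ S.s γ k := by
    intro hc
    have s0 := upq_symm h2 h4 S γ i0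
    have hrev0 : (Fin.rev i0 : ℕ) = 2 * r + 3 := by rw [Fin.val_rev, hi0]; omega
    have p0 := S.pos γ i0
    have pi := S.pos γ i
    have pk := S.pos γ k
    have a2 : S.s γ i ≤ S.s γ i0 := S.anti γ (Fin.le_def.2 (by omega))
    by_cases hk1 : (k : ℕ) < 2 * r - 2
    · have a1 : S.s γ i1 ≤ S.s γ k := S.anti γ (Fin.le_def.2 (by omega))
      linarith
    · have hk2 : 2 * r + 3 < (k : ℕ) := by
        by_contra hcon
        exact hk ⟨by omega, by omega⟩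
      have sk := upq_symm h2 h4 S γ k
      have hrevk : (Fin.rev k : ℕ) ≤ 2 * r - 3 := by rw [Fin.val_rev]; omega
      have a1 : S.s γ i1 ≤ S.s γ (Fin.rev k) := S.anti γ (Fin.le_def.2 (by omega))
      have a3 : S.s γ (Fin.rev i0) ≤ S.s γ i := S.anti γ (Fin.le_def.2 (by omega))
      have pr := S.pos γ (Fin.rev i0)
      rw [hc] at a3
      have : S.s γ k * S.s γ i0 < S.s γ k * S.s γ (Fin.rev k) := mul_lt_mul_of_pos_left (by linarith) pk
      nlinarith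
  constructor
  · by_contra hcon
    exact key (jq_supp S k1 k3 γ i k hcon)
  · by_contra hcon
    exact key (jq_supp S k1 k3 γ k i hcon).symm

/-- the eigenspace of a Hermitian involution of trace zero on a six dimensional space -/
private theorem eigen68 {M : Type} [Fintype M] [DecidableEq M] (hM : Fintype.card M = 6) {F : Matrix M M ℂ}
    (h1 : Fᴴ = F) (h2 : F * F = 1) (h3 : F.trace = 0) :
    ∃ V : Matrix M (Fin 3) ℂ, Vᴴ * V = 1 ∧ F * V = V := by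
  have hF : F.IsHermitian := h1
  set E : Matrix M M ℂ := (hF.eigenvectorUnitary : Matrix M M ℂ) with hE
  have hE1 : Eᴴ * E = 1 := Unitary.coe_star_mul_self hF.eigenvectorUnitary
  have hE2 : E * Eᴴ = 1 := mul_eq_one_comm.1 hE1
  have hD : Eᴴ * F * E = diagonal (fun i => ((hF.eigenvalues i : ℝ) : ℂ)) := by
    have := hF.conjStarAlgAut_star_eigenvectorUnitary
    rw [Unitary.conjStarAlgAut_apply] at this
    simp at this
    exact this
  have hl : ∀ i, hF.eigenvalues i = 1 ∨ hF.eigenvalues i = -1 := by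
    intro i
    have e1 : (Eᴴ * F * E) * (Eᴴ * F * E) = 1 := by
      calc (Eᴴ * F * E) * (Eᴴ * F * E) = Eᴴ * F * (E * Eᴴ) * F * E := by simp only [Matrix.mul_assoc]
        _ = Eᴴ * (F * F) * E := by rw [hE2, Matrix.mul_one]; simp only [Matrix.mul_assoc]
        _ = _ := by rw [h2, Matrix.mul_one, hE1]
    rw [hD, diagonal_mul_diagonal] at e1
    have e2 := congrFun (congrFun e1 i) i
    rw [diagonal_apply_eq, one_apply_eq] at e2
    have e3 : hF.eigenvalues i * hF.eigenvalues i = 1 := by exact_mod_cast e2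
    exact mul_self_eq_one_iff.1 e3
  have hsum : ∑ i, hF.eigenvalues i = 0 := by
    have e1 : (Eᴴ * F * E).trace = 0 := by
      rw [Matrix.trace_mul_comm, ← Matrix.mul_assoc, hE2, Matrix.one_mul, h3]
    rw [hD, trace_diagonal] at e1
    exact_mod_cast e1
  have hcard : Fintype.card {i : M // hF.eigenvalues i = 1} = 3 := by
    have e1 : ∑ i, (hF.eigenvalues i + 1) = ∑ i : M, if hF.eigenvalues i = 1 then (2 : ℝ) else 0 := by
      refine Finset.sum_congr rfl fun i _ => ?_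
      split_ifs with h
      · rw [h]; norm_num
      · rw [(hl i).resolve_left h]; norm_num
    rw [Finset.sum_add_distrib, hsum, Finset.sum_const, Finset.card_univ, hM, ← Finset.sum_filter, Finset.sum_const,
      ← Fintype.card_subtype] at e1
    have e2 : (6 : ℝ) = 2 * (Fintype.card {i : M // hF.eigenvalues i = 1} : ℝ) := by
      simp only [nsmul_eq_mul, mul_one, zero_add] at e1
      push_cast at e1
      linarith
    have e3 : (Fintype.card {i : M // hF.eigenvalues i = 1} : ℝ) = 3 := by linarith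
    exact_mod_cast e3
  let e : Fin 3 ≃ {i : M // hF.eigenvalues i = 1} := (Fintype.equivFinOfCardEq hcard).symm
  refine ⟨E.submatrix id (fun k => (e k).1), ?_, ?_⟩
  · ext i j
    have := congrFun (congrFun hE1 (e i).1) (e j).1
    rw [Matrix.mul_apply] at this ⊢
    refine this.trans ?_
    by_cases hij : i = j
    · subst hij
      rw [one_apply_eq, one_apply_eq]
    · rw [one_apply_ne hij, one_apply_ne (fun h => hij (e.injective (Subtype.ext h)))]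
  · have e1 : F * E = E * diagonal (fun i => ((hF.eigenvalues i : ℝ) : ℂ)) := by
      rw [← hD, ← Matrix.mul_assoc, ← Matrix.mul_assoc, hE2, Matrix.one_mul]
    ext i j
    have := congrFun (congrFun e1 i) (e j).1
    rw [mul_diagonal, (e j).2] at this
    rw [Matrix.mul_apply] at this ⊢
    refine this.trans ?_
    simp

/-- the normal form of the pair -/
private theorem pair68 {M : Type} [Fintype M] [DecidableEq M] (hM : Fintype.card M = 6) {F U : Matrix M M ℂ}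
    (h1 : Fᴴ = F) (h2 : F * F = 1) (u1 : Uᴴ * U = 1) (u2 : Uᵀ = -U) (hrel : F * U = -(U * Fᴴᵀ)) :
    ∃ κ : Matrix M (Fin 3 ⊕ Fin 3) ℂ, κᴴ * κ = 1 ∧ κ * κᴴ = 1 ∧ κᴴ * F * κ = J6 ∧ κᴴ * U * κᴴᵀ = j6 := by
  have u3 : U * Uᴴ = 1 := mul_eq_one_comm.1 u1
  have htr : F.trace = 0 := by
    have e1 : F = -(U * Fᴴᵀ * Uᴴ) := by
      calc F = F * (U * Uᴴ) := by rw [u3, Matrix.mul_one]
        _ = (F * U) * Uᴴ := by rw [Matrix.mul_assoc]
        _ = _ := by rw [hrel, Matrix.neg_mul]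
    have e2 : F.trace = -F.trace := by
      conv_lhs => rw [e1]
      rw [trace_neg, trace_mul_comm, ← Matrix.mul_assoc, u1, Matrix.one_mul, trace_transpose, h1]
    linear_combination e2 / 2
  obtain ⟨V, v1, v2⟩ := eigen68 hM h1 h2 htr
  have cu : Uᴴᵀ = -Uᴴ := by
    have : Uᴴᵀ = (Uᵀ)ᴴ := by ext i j; simp
    rw [this, u2, conjTranspose_neg]
  set W : Matrix M (Fin 3) ℂ := -(U * Vᴴᵀ) with hW
  have w1 : Wᴴ * W = 1 := by
    rw [hW, conjTranspose_neg, Matrix.neg_mul, Matrix.mul_neg, neg_neg, conjTranspose_mul]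
    calc (Vᴴᵀ)ᴴ * Uᴴ * (U * Vᴴᵀ) = (Vᴴᵀ)ᴴ * (Uᴴ * U) * Vᴴᵀ := by simp only [Matrix.mul_assoc]
      _ = (Vᴴ * V)ᴴᵀ := by rw [u1, Matrix.mul_one, cj_mul68, cj_star68]
      _ = 1 := by rw [v1, cj_one68]
  have w2 : F * W = -W := by
    calc F * W = -(F * U * Vᴴᵀ) := by rw [hW, Matrix.mul_neg, ← Matrix.mul_assoc]
      _ = U * (F * V)ᴴᵀ := by
        rw [hrel, Matrix.neg_mul, neg_neg, Matrix.mul_assoc, ← cj_mul68]
      _ = -W := by rw [v2, hW, neg_neg]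
  have vF : Vᴴ * F = Vᴴ := by
    have := congrArg (fun A : Matrix M (Fin 3) ℂ => Aᴴ) v2
    simpa only [conjTranspose_mul, h1] using this
  have w3 : Vᴴ * W = 0 := by
    have e1 : Vᴴ * W = -(Vᴴ * W) := by
      calc Vᴴ * W = (Vᴴ * F) * W := by rw [vF]
        _ = _ := by rw [Matrix.mul_assoc, w2, Matrix.mul_neg]
    ext i k
    have e2 := congrFun (congrFun e1 i) k
    rw [Matrix.neg_apply] at e2
    show (Vᴴ * W) i k = 0
    linear_combination e2 / 2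
  have w4 : Wᴴ * V = 0 := by
    have := congrArg (fun A : Matrix (Fin 3) (Fin 3) ℂ => Aᴴ) w3
    simpa only [conjTranspose_mul, conjTranspose_conjTranspose, conjTranspose_zero] using this
  have w5 : U * Wᴴᵀ = V := by
    rw [hW, cj_neg68, cj_mul68, cj_cj68, cu, Matrix.mul_neg, Matrix.neg_mul, Matrix.mul_neg, neg_neg, ← Matrix.mul_assoc, u3,
      Matrix.one_mul]
  have w6 : U * Vᴴᵀ = -W := by rw [hW, neg_neg]
  have hκ : (fromCols V W)ᴴ = fromRows Vᴴ Wᴴ := conjTranspose_fromCols_eq_fromRows_conjTranspose V W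
  have hκc : (fromCols V W)ᴴᵀ = fromCols Vᴴᵀ Wᴴᵀ := by
    rw [hκ, transpose_fromRows]
  have o1 : (fromCols V W)ᴴ * fromCols V W = 1 := by
    rw [hκ, fromRows_mul_fromCols, v1, w1, w3, w4, fromBlocks_one]
  refine ⟨fromCols V W, o1, ?_, ?_, ?_⟩
  · exact (mul_eq_one_comm_of_card_eq (Fin 3 ⊕ Fin 3) M ℂ (by rw [hM]; simp)).1 o1
  · rw [Matrix.mul_assoc, mul_fromCols, v2, w2, hκ, fromRows_mul_fromCols, v1, w4, Matrix.mul_neg Vᴴ W, Matrix.mul_neg Wᴴ W, w3, w1]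
    simp [J6]
  · rw [hκc, Matrix.mul_assoc, mul_fromCols, w5, w6, hκ, fromRows_mul_fromCols, Matrix.mul_neg Vᴴ W, Matrix.mul_neg Wᴴ W, v1, w3, w4, w1]
    simp [j6]

theorem gaugeS (S : Sv P) {Φ j : MN N} (h1 : Φᴴ = Φ) (h2 : Φ * Φ = 1) (h4 : ∀ g, (P.ι g)ᴴ * Φ * P.ι g = Φ)
    (k1 : jᴴ * j = 1) (k2 : jᵀ = -j) (k3 : ∀ g, P.ι g * j = j * (P.ι g)ᴴᵀ) (hrel : Φ * j = -(j * Φᴴᵀ))
    {r : ℕ} (hr : 2 ≤ r) (hN : N = 4 * r + 2) {i0 i1 : Fin N} (hi0 : (i0 : ℕ) = 2 * r - 2) (hi1 : (i1 : ℕ) = 2 * r - 3)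
    (b : Fin N → ℕ) (γ : G) (hb : ∀ i : Fin N, b i = b i0 ↔ (2 * r - 2 ≤ (i : ℕ) ∧ (i : ℕ) ≤ 2 * r + 3))
    (hgap : S.s γ i0 < S.s γ i1) :
    ∃ κ : Matrix (Bk b i0) (Fin 3 ⊕ Fin 3) ℂ, κᴴ * κ = 1 ∧ κ * κᴴ = 1 ∧ κᴴ * res b i0 (Jh S Φ γ) * κ = J6 ∧
      κᴴ * res b i0 (jq S j γ) * κᴴᵀ = j6 ∧ f6 (gg κ κ (S.X γ)) = 0 ∧
      ns (gg κ κ (S.X γ)) + 2 = 2 * (S.s γ i0 + (S.s γ i0)⁻¹) ^ 2 := by
  have hN' : 2 * (2 * r - 1) + 1 ≤ N := by omega
  have hr' : 2 ≤ 2 * r - 1 := by omega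
  have hi0' : (i0 : ℕ) = (2 * r - 1) - 1 := by omega
  have hi1' : (i1 : ℕ) = (2 * r - 1) - 2 := by omega
  have hmid : ∀ i k : Fin N, b i = b i0 → b k ≠ b i0 → Jh S Φ γ i k = 0 ∧ Jh S Φ γ k i = 0 := by
    intro i k hi hk
    refine mid_zero S h2 h4 hr' hN' hi0' hi1' γ hgap i k ?_ ?_
    · have := (hb i).1 hi
      omega
    · intro hc
      exact hk ((hb k).2 (by omega))
  have hjz : ∀ i k : Fin N, b i = b i0 → b k ≠ b i0 → jq S j γ i k = 0 ∧ jq S j γ k i = 0 := by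
    intro i k hi hk
    exact jq_zero68 S h2 h4 k1 k3 hr hN hi0 hi1 γ hgap i k ((hb i).1 hi) (fun hc => hk ((hb k).2 hc))
  set F := res b i0 (Jh S Φ γ) with hF
  set U := res b i0 (jq S j γ) with hU
  have f1 : Fᴴ = F := by
    rw [hF, ← res_star68, jh_star S h1 γ]
  have f2 : F * F = 1 := by
    rw [hF, ← res_mul_left68 (fun i k hi hk => (hmid i k hi hk).1), jh_sq S h2 γ, res_one68]
  have u1 : Uᴴ * U = 1 := by
    rw [hU, ← res_star68, ← res_mul_right68 (fun i k hi hk => (hjz i k hi hk).2), jq_unit S k1 γ, res_one68]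
  have u2 : Uᵀ = -U := by
    ext x y
    exact congrFun (congrFun (jq_trans S k2 γ) x.1) y.1
  have fu : F * U = -(U * Fᴴᵀ) := by
    rw [hF, hU, ← res_mul_left68 (fun i k hi hk => (hmid i k hi hk).1), rel_jq S hrel γ, ← res_cj68,
      ← res_mul_left68 (fun i k hi hk => (hjz i k hi hk).1)]
    rfl
  -- the elements of the block
  have hlt : ∀ t : Fin 6, 2 * r - 2 + (t : ℕ) < N := fun t => by have := t.2; omega
  let a : Fin 6 → Fin N := fun t => ⟨2 * r - 2 + (t : ℕ), hlt t⟩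
  have hab : ∀ t, b (a t) = b i0 := fun t => (hb _).2 ⟨by simp [a], by have := t.2; simp only [a]; omega⟩
  let φ : Fin 6 → Bk b i0 := fun t => ⟨a t, hab t⟩
  have hφ : Function.Bijective φ := by
    constructor
    · intro s t hst
      have := congrArg (fun z : Bk b i0 => (z.1 : ℕ)) hst
      simp only [φ, a] at this
      exact Fin.ext (by omega)
    · intro x
      have hx := (hb x.1).1 x.2
      refine ⟨⟨(x.1 : ℕ) - (2 * r - 2), by omega⟩, ?_⟩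
      apply Subtype.ext
      apply Fin.ext
      simp only [φ, a]
      omega
  have hcard : Fintype.card (Bk b i0) = 6 := by
    rw [← Fintype.card_of_bijective hφ, Fintype.card_fin]
  obtain ⟨κ, c1, c2, c3, c4⟩ := pair68 hcard f1 f2 u1 u2 fu
  refine ⟨κ, c1, c2, c3, c4, ?_, ?_⟩
  · set Xr := res b i0 (S.X γ) with hXr
    have hXd : Xr = diagonal fun i : Bk b i0 => ((S.s γ i.1)⁻¹ : ℂ) := by
      ext i k
      rw [hXr, res, submatrix_apply, Sv.X, diagonal_apply, diagonal_apply]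
      by_cases hik : i = k
      · subst hik; simp
      · rw [if_neg (fun h => hik (Subtype.ext h)), if_neg hik]
    have hXs : Xrᴴ = Xr := by
      rw [hXd, diagonal_conjTranspose]
      congr 1
      funext i
      simp
    have hXt : Xrᵀ = Xr := by
      rw [hXd, diagonal_transpose]
    have hXF : Xr * F * Xr = F := by
      rw [hXd]
      ext i k
      rw [mul_diagonal, diagonal_mul]
      by_cases hc : Jh S Φ γ i.1 k.1 = 0
      · have : F i k = 0 := hc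
        rw [this]; ring
      · have e1 := jh_supp S h2 h4 γ i.1 k.1 hc
        have e2 : ((S.s γ i.1 : ℝ) : ℂ) * ((S.s γ k.1 : ℝ) : ℂ) = 1 := by exact_mod_cast e1
        have e3 : ((S.s γ i.1 : ℝ) : ℂ)⁻¹ * ((S.s γ k.1 : ℝ) : ℂ)⁻¹ = 1 := by
          rw [← mul_inv, e2, inv_one]
        linear_combination (F i k) * e3
    have hXU : Xr * U = U * Xr := by
      rw [hXd]
      ext i k
      rw [mul_diagonal, diagonal_mul]
      by_cases hc : jq S j γ i.1 k.1 = 0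
      · have : U i k = 0 := hc
        rw [this]; ring
      · have e1 := jq_supp S k1 k3 γ i.1 k.1 hc
        rw [e1]; ring
    show f6 (κᴴ * Xr * κ) = 0
    rw [f6_eq]
    constructor
    · rw [← c3]
      calc (κᴴ * Xr * κ)ᴴ * (κᴴ * F * κ) * (κᴴ * Xr * κ) = κᴴ * Xrᴴ * (κ * κᴴ) * F * (κ * κᴴ) * Xr * κ := by
            simp only [conjTranspose_mul, conjTranspose_conjTranspose, Matrix.mul_assoc]
        _ = κᴴ * (Xr * F * Xr) * κ := by
            rw [c2, hXs, Matrix.mul_one, Matrix.mul_one]; simp only [Matrix.mul_assoc]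
        _ = _ := by rw [hXF]
    · refine ⟨1, by simp, ?_⟩
      rw [one_smul, ← c4]
      have e1 : κᴴᵀ * (κᴴᵀ)ᴴ = 1 := by rw [cj_star68, ← cj_mul68, c2, cj_one68]
      have e2 : (κᴴ * Xr * κ)ᴴᵀ = (κᴴᵀ)ᴴ * Xr * κᴴᵀ := by
        rw [cj_mul68, cj_mul68, ← cj_star68, hXs, hXt]
      rw [e2]
      calc κᴴ * Xr * κ * (κᴴ * U * κᴴᵀ) = κᴴ * Xr * (κ * κᴴ) * U * κᴴᵀ := by simp only [Matrix.mul_assoc]
        _ = κᴴ * (Xr * U) * κᴴᵀ := by rw [c2, Matrix.mul_one]; simp only [Matrix.mul_assoc]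
        _ = κᴴ * U * (κᴴᵀ * (κᴴᵀ)ᴴ) * Xr * κᴴᵀ := by rw [hXU, e1, Matrix.mul_one]; simp only [Matrix.mul_assoc]
        _ = _ := by simp only [Matrix.mul_assoc]
  · show ns (κᴴ * res b i0 (S.X γ) * κ) + 2 = _
    rw [ns_conj68 c2 c2]
    have e1 : ns (res b i0 (S.X γ)) = ∑ i : Bk b i0, ((S.s γ i.1)⁻¹) ^ 2 := by
      unfold ns
      refine Finset.sum_congr rfl fun i _ => ?_
      rw [Finset.sum_eq_single i]
      · show ‖S.X γ i.1 i.1‖ ^ 2 = _
        rw [Sv.X, diagonal_apply_eq]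
        have pi := S.pos γ i.1
        simp
      · intro k _ hk
        show ‖S.X γ i.1 k.1‖ ^ 2 = 0
        rw [Sv.X, diagonal_apply_ne _ (fun h => hk (Subtype.ext h.symm))]
        simp
      · intro h
        exact absurd (Finset.mem_univ i) h
    rw [e1, ← hφ.sum_comp (fun i : Bk b i0 => ((S.s γ i.1)⁻¹) ^ 2), Fin.sum_univ_six]
    show ((S.s γ (a 0))⁻¹) ^ 2 + ((S.s γ (a 1))⁻¹) ^ 2 + ((S.s γ (a 2))⁻¹) ^ 2 + ((S.s γ (a 3))⁻¹) ^ 2 +
      ((S.s γ (a 4))⁻¹) ^ 2 + ((S.s γ (a 5))⁻¹) ^ 2 + 2 = _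
    have a0 : a 0 = i0 := Fin.ext (by simp [a, hi0])
    have ev0 : Even ((a 0 : Fin N) : ℕ) := by
      refine ⟨r - 1, ?_⟩
      simp only [a]
      show 2 * r - 2 + 0 = _
      omega
    have ev2 : Even ((a 2 : Fin N) : ℕ) := by
      refine ⟨r, ?_⟩
      simp only [a]
      show 2 * r - 2 + 2 = _
      omega
    have ev4 : Even ((a 4 : Fin N) : ℕ) := by
      refine ⟨r + 1, ?_⟩
      simp only [a]
      show 2 * r - 2 + 4 = _
      omega
    have d0 : S.s γ (a 0) = S.s γ (a 1) := quat_double k1 k2 k3 S γ (a 0) (a 1) rfl ev0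
    have d2 : S.s γ (a 2) = S.s γ (a 3) := quat_double k1 k2 k3 S γ (a 2) (a 3) rfl ev2
    have d4 : S.s γ (a 4) = S.s γ (a 5) := quat_double k1 k2 k3 S γ (a 4) (a 5) rfl ev4
    have r0 : Fin.rev (a 0) = a 5 := Fin.ext (by
      rw [Fin.val_rev]
      simp only [a]
      show N - (2 * r - 2 + 0 + 1) = 2 * r - 2 + 5
      omega)
    have r2 : Fin.rev (a 2) = a 3 := Fin.ext (by
      rw [Fin.val_rev]
      simp only [a]
      show N - (2 * r - 2 + 2 + 1) = 2 * r - 2 + 3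
      omega)
    have s0 := upq_symm h2 h4 S γ (a 0)
    have s2 := upq_symm h2 h4 S γ (a 2)
    rw [r0] at s0
    rw [r2] at s2
    have p2 := S.pos γ (a 2)
    have p0 := S.pos γ (a 0)
    have q2 : S.s γ (a 2) = 1 := by
      rw [← d2] at s2
      nlinarith
    have q5 : S.s γ (a 5) = (S.s γ (a 0))⁻¹ := eq_inv_of_mul_eq_one_right s0
    rw [← d0, ← d2, d4, q2, q5, ← a0]
    have hne : S.s γ (a 0) ≠ 0 := p0.ne'
    field_simp
    ring

theorem s_close {S : Sv P} {Φ j : MN N} (h1 : Φᴴ = Φ) (h2 : Φ * Φ = 1) (h4 : ∀ g, (P.ι g)ᴴ * Φ * P.ι g = Φ)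
    (k1 : jᴴ * j = 1) (k2 : jᵀ = -j) (k3 : ∀ g, P.ι g * j = j * (P.ι g)ᴴᵀ)
    {r : ℕ} (hr : 2 ≤ r) (hN : N = 4 * r + 2) {i0 i1 : Fin N} (hi0 : (i0 : ℕ) = 2 * r - 2) (hi1 : (i1 : ℕ) = 2 * r - 3) (T : Str S)
    (hb : ∀ i : Fin N, T.b i = T.b i0 ↔ (2 * r - 2 ≤ (i : ℕ) ∧ (i : ℕ) ≤ 2 * r + 3))
    (hgood : ∀ n, {γ | S.s γ i0 < S.s γ i1} ∈ T.F n) (κ : G → Matrix (Bk T.b i0) (Fin 3 ⊕ Fin 3) ℂ)
    (hκ : ∀ γ, (κ γ)ᴴ * κ γ = 1) (hκ' : ∀ γ, κ γ * (κ γ)ᴴ = 1)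
    (hJ : ∀ γ, S.s γ i0 < S.s γ i1 → (κ γ)ᴴ * res T.b i0 (Jh S Φ γ) * κ γ = J6 ∧
      (κ γ)ᴴ * res T.b i0 (jq S j γ) * (κ γ)ᴴᵀ = j6) (g h : G) (n : ℕ) :
    Tendsto (fun γ => f6 (gg (κ γ) (κ (g⁻¹ * γ * h)) (T.C g h γ))) (T.F n) (𝓝 0) := by
  obtain ⟨n', hn'⟩ := T.shift g h n
  have hc : Continuous fun A : Matrix (Bk T.b i0) (Bk T.b i0) ℂ => ns A := by
    unfold ns
    exact continuous_finsetSum _ fun i _ => continuous_finsetSum _ fun j _ =>
      (continuous_norm.comp (continuous_apply_apply i j)).pow 2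
  have hz : ns (0 : Matrix (Bk T.b i0) (Bk T.b i0) ℂ) = 0 := by
    unfold ns
    simp
  have hN' : 2 * (2 * r - 1) + 1 ≤ N := by omega
  have hr' : 2 ≤ 2 * r - 1 := by omega
  have hi0' : (i0 : ℕ) = (2 * r - 1) - 1 := by omega
  have hi1' : (i1 : ℕ) = (2 * r - 1) - 2 := by omega
  have hb' : ∀ i : Fin N, T.b i = T.b i0 ↔ ((2 * r - 1) - 1 ≤ (i : ℕ) ∧ (i : ℕ) ≤ N - (2 * r - 1)) := by
    intro i
    rw [hb i]
    omega
  have h5 := (hc.tendsto 0).comp (u4_block h1 h2 h4 hr' hN' hi0' hi1' T hb' hgood g h n)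
  rw [hz] at h5
  refine h5.congr' ?_
  filter_upwards [hgood n, hn' (hgood n')] with γ hγ hγ'
  obtain ⟨hJ1, hj1⟩ := hJ γ hγ
  obtain ⟨hJ2, hj2⟩ := hJ (g⁻¹ * γ * h) hγ'
  have hk := hκ γ
  have hk' := hκ' γ
  have hk2 := hκ (g⁻¹ * γ * h)
  have hk2' := hκ' (g⁻¹ * γ * h)
  have hjz : ∀ i k : Fin N, T.b i = T.b i0 → T.b k ≠ T.b i0 → jq S j γ i k = 0 ∧ jq S j γ k i = 0 := by
    intro i k hi hk
    exact jq_zero68 S h2 h4 k1 k3 hr hN hi0 hi1 γ hγ i k ((hb i).1 hi) (fun hc => hk ((hb k).2 hc))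
  have hjz' : ∀ i k : Fin N, T.b i = T.b i0 → T.b k ≠ T.b i0 →
      jq S j (g⁻¹ * γ * h) i k = 0 ∧ jq S j (g⁻¹ * γ * h) k i = 0 := by
    intro i k hi hk
    exact jq_zero68 S h2 h4 k1 k3 hr hN hi0 hi1 _ hγ' i k ((hb i).1 hi) (fun hc => hk ((hb k).2 hc))
  have hCm : res T.b i0 (T.C g h γ) = res T.b i0 (S.m g h γ) := by
    ext a c
    show D T.b (S.m g h γ) a.1 c.1 = _
    rw [D_apply, if_pos (a.2.trans c.2.symm)]
    rfl
  have hq : res T.b i0 (T.C g h γ) * res T.b i0 (jq S j (g⁻¹ * γ * h)) =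
      res T.b i0 (jq S j γ) * (res T.b i0 (T.C g h γ))ᴴᵀ := by
    rw [hCm, ← res_mul_right68 (fun i k hi hk => (hjz' i k hi hk).2), jq_m S k3 g h γ, ← res_cj68,
      ← res_mul_left68 (fun i k hi hk => (hjz i k hi hk).1)]
  show ns ((res T.b i0 (T.C g h γ))ᴴ * res T.b i0 (Jh S Φ γ) *
    res T.b i0 (T.C g h γ) - res T.b i0 (Jh S Φ (g⁻¹ * γ * h))) = f6 _
  unfold f6 gg
  generalize hK : κ γ = K at *
  generalize hK2 : κ (g⁻¹ * γ * h) = K2 at *
  generalize res T.b i0 (T.C g h γ) = B at *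
  generalize res T.b i0 (jq S j γ) = U at *
  generalize res T.b i0 (jq S j (g⁻¹ * γ * h)) = U2 at *
  have e1 : (Kᴴ * B * K2)ᴴ * J6 * (Kᴴ * B * K2) - J6 =
      K2ᴴ * (Bᴴ * res T.b i0 (Jh S Φ γ) * B - res T.b i0 (Jh S Φ (g⁻¹ * γ * h))) * K2 := by
    have e2 : (Kᴴ * B * K2)ᴴ * J6 * (Kᴴ * B * K2) = K2ᴴ * (Bᴴ * res T.b i0 (Jh S Φ γ) * B) * K2 := by
      rw [← hJ1, Matrix.conjTranspose_mul, Matrix.conjTranspose_mul, Matrix.conjTranspose_conjTranspose]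
      calc K2ᴴ * (Bᴴ * K) * (Kᴴ * res T.b i0 (Jh S Φ γ) * K) * (Kᴴ * B * K2)
          = K2ᴴ * (Bᴴ * (K * Kᴴ) * res T.b i0 (Jh S Φ γ) * (K * Kᴴ) * B) * K2 := by simp only [Matrix.mul_assoc]
        _ = _ := by rw [hk', Matrix.mul_one, Matrix.mul_one]
    rw [e2, ← hJ2, Matrix.mul_sub, Matrix.sub_mul]
  have e3 : fS j6 (Kᴴ * B * K2) = 0 := by
    rw [fS_eq]
    refine ⟨1, by simp, ?_⟩
    have o1 : Kᴴᵀ * (Kᴴᵀ)ᴴ = 1 := by rw [cj_star68, ← cj_mul68, hk', cj_one68]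
    have o2 : (Kᴴ * B * K2)ᴴᵀ = (Kᴴᵀ)ᴴ * Bᴴᵀ * K2ᴴᵀ := by
      rw [cj_mul68, cj_mul68, ← cj_star68]
    rw [one_smul, o2]
    calc Kᴴ * B * K2 * j6 = Kᴴ * B * (K2 * K2ᴴ) * U2 * K2ᴴᵀ := by
          rw [← hj2]
          simp only [Matrix.mul_assoc]
      _ = Kᴴ * (B * U2) * K2ᴴᵀ := by rw [hk2', Matrix.mul_one]; simp only [Matrix.mul_assoc]
      _ = Kᴴ * U * (Kᴴᵀ * (Kᴴᵀ)ᴴ) * Bᴴᵀ * K2ᴴᵀ := by rw [hq, o1, Matrix.mul_one]; simp only [Matrix.mul_assoc]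
      _ = j6 * ((Kᴴᵀ)ᴴ * Bᴴᵀ * K2ᴴᵀ) := by
          rw [← hj1]
          simp only [Matrix.mul_assoc]
  rw [e1, e3, add_zero, ns_conj68 hk2' hk2']

end Pool.Agent.Helper84.SPQ
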