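import Pool.Agent.Helper84.SPQ.Defs

/-!
# Project SPQ, block C4: the telescoping integral

`w(η) = q + e^η (1 - q)`, `uu q η = log ‖w(η)‖`, `‖q‖ ≤ 1`, `q ≠ 1`. PROOF of `uu_est`.
(1) `uu q 0 = 0`; `‖w‖² = ‖q‖² + 2 e^η re (q̄ (1 - q)) + e^(2η) ‖1 - q‖²`, `uu' = (e^η re (q̄ (1-q)) + e^(2η) ‖1-q‖²)/‖w‖² ≥ 0` for `η ≥ 0` (the numerator is at least `e^η (1 - re q)`), so `‖w‖ ≥ 1`; `|1 - uu'| = |re (q̄ w)|/‖w‖² ≤ 1/‖w‖`.
(2) `∫_0^R g(uu) uu' = ∫_0^(uu R) g` (substitution), `uu R = R + λ`, `λ = log ‖1 - (1 - e^(-R)) q‖`, `|λ| ≤ Lam := log 2 + log (2/‖1-q‖)` (`‖1 - T q‖ ≥ ‖1 - q‖/2`). So the integral on the left is `∫_R^(R+λ) g + ∫_0^R g(uu) (1 - uu')`.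
(3) `|∫_R^(R+λ) g - g(R) λ| ≤ δ |λ|` if `|λ| ≤ T`: for `R ≤ T + 1` everything is in `[0, 2T + 1]`, where `0 ≤ g ≤ δ`; for `R > T + 1` use `hv`. If `|λ| > T` it is at most `2 |λ|`.
(4) `∫_0^R g(uu)/‖w‖ ≤ δ ∫_0^R 1/‖w‖ + 2 ∫_{uu > T1} 1/‖w‖`. As `‖w‖ ≥ e^η ‖1-q‖ - 1`: `∫_0^R 1/‖w‖ ≤ 1 + log (2/‖1-q‖)` (for `e^η ‖1-q‖ ≥ 2`: `‖w‖ ≥ e^η ‖1-q‖/2`; before that `1/‖w‖ ≤ 1`). If `uu > T1 ≥ 2`, i.e. `‖w‖ > e^T1`,
then `e^η ‖1-q‖ ≥ e^T1 - 1 ≥ 2`, `‖w‖ ≥ e^η ‖1-q‖/2`, so the last integral is at most `2/(e^T1 - 1)`.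
-/

set_option autoImplicit false

open MeasureTheory

namespace Pool.Agent.Helper84.SPQ

/-- `log ‖q + e^η (1 - q)‖` -/
noncomputable def uu (q : Hq) (η : ℝ) : ℝ := Real.log ‖q + Real.exp η • (1 - q)‖

private theorem nsq31 (q : Hq) (x : ℝ) :
    ‖q + x • (1 - q)‖ ^ 2 = ‖q‖ ^ 2 + x * (1 - ‖q‖ ^ 2 - ‖1 - q‖ ^ 2) + x ^ 2 * ‖1 - q‖ ^ 2 := by
  have h1 := norm_add_sq_real q (1 - q)
  have h2 : q + (1 - q) = 1 := by abel
  rw [h2, norm_one] at h1
  rw [norm_add_sq_real, inner_smul_right, norm_smul, mul_pow, Real.norm_eq_abs, sq_abs]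
  linear_combination (-x) * h1

private theorem inq31 (q : Hq) (x : ℝ) :
    inner ℝ q (q + x • (1 - q)) = ‖q‖ ^ 2 + x * ((1 - ‖q‖ ^ 2 - ‖1 - q‖ ^ 2) / 2) := by
  have h1 := norm_add_sq_real q (1 - q)
  have h2 : q + (1 - q) = 1 := by abel
  rw [h2, norm_one] at h1
  rw [inner_add_right, inner_smul_right, real_inner_self_eq_norm_sq]
  linear_combination (-x / 2) * h1

theorem uu_zero (q : Hq) : uu q 0 = 0 := by
  unfold uu
  rw [Real.exp_zero, one_smul]
  have h2 : q + (1 - q) = 1 := by abel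
  rw [h2, norm_one, Real.log_one]

theorem one_le_w {q : Hq} (hq : ‖q‖ ≤ 1) {η : ℝ} (hη : 0 ≤ η) : 1 ≤ ‖q + Real.exp η • (1 - q)‖ := by
  have hx : 1 ≤ Real.exp η := Real.one_le_exp hη
  set x := Real.exp η with hxd
  have h1 := nsq31 q x
  have h2 : 0 ≤ 1 - ‖q‖ ^ 2 := by nlinarith [norm_nonneg q]
  have h3 : 0 ≤ ‖1 - q‖ ^ 2 := by positivity
  have h4 : 1 ≤ ‖q + x • (1 - q)‖ ^ 2 := by
    rw [h1]
    have e : ‖q‖ ^ 2 + x * (1 - ‖q‖ ^ 2 - ‖1 - q‖ ^ 2) + x ^ 2 * ‖1 - q‖ ^ 2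
        = 1 + (x - 1) * ((1 - ‖q‖ ^ 2) + x * ‖1 - q‖ ^ 2) := by ring
    rw [e]
    have : 0 ≤ (x - 1) * ((1 - ‖q‖ ^ 2) + x * ‖1 - q‖ ^ 2) := by
      apply mul_nonneg (by linarith)
      have : 0 ≤ x * ‖1 - q‖ ^ 2 := by positivity
      linarith
    linarith
  by_contra hc
  push Not at hc
  nlinarith [norm_nonneg (q + x • (1 - q))]

theorem uu_nonneg {q : Hq} (hq : ‖q‖ ≤ 1) {η : ℝ} (hη : 0 ≤ η) : 0 ≤ uu q η := Real.log_nonneg (one_le_w hq hη)

private theorem oneq31 {q : Hq} (hq : ‖q‖ ≤ 1) : ‖1 - q‖ ≤ 2 := by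
  have := norm_sub_le (1 : Hq) q
  rw [norm_one] at this
  linarith

private theorem bnd31 {q : Hq} (hq : ‖q‖ ≤ 1) {R : ℝ} (hR : 0 ≤ R) :
    ‖1 - q‖ / 2 ≤ ‖1 - (1 - Real.exp (-R)) • q‖ ∧ ‖1 - (1 - Real.exp (-R)) • q‖ ≤ 2 := by
  have he : Real.exp (-R) ≤ 1 := Real.exp_le_one_iff.2 (by linarith)
  have he0 : 0 < Real.exp (-R) := Real.exp_pos _
  set T := 1 - Real.exp (-R) with hT
  have hT0 : 0 ≤ T := by linarith
  have hT1 : T ≤ 1 := by linarith
  have hTq : ‖T • q‖ ≤ T := by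
    rw [norm_smul, Real.norm_of_nonneg hT0]
    nlinarith [norm_nonneg q]
  constructor
  · have h1 : 1 - q = (1 - T • q) - (1 - T) • q := by
      module
    have h2 : ‖1 - q‖ ≤ ‖1 - T • q‖ + ‖(1 - T) • q‖ := by
      calc ‖1 - q‖ = ‖(1 - T • q) - (1 - T) • q‖ := by rw [← h1]
        _ ≤ _ := norm_sub_le _ _
    have h3 : ‖(1 - T) • q‖ ≤ 1 - T := by
      rw [norm_smul, Real.norm_of_nonneg (by linarith)]
      nlinarith [norm_nonneg q]
    have h4 : 1 - T ≤ ‖1 - T • q‖ := by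
      have := norm_sub_norm_le (1 : Hq) (T • q)
      rw [norm_one] at this
      linarith
    linarith
  · have := norm_sub_le (1 : Hq) (T • q)
    rw [norm_one] at this
    linarith

theorem lam_abs {q : Hq} (hq : ‖q‖ ≤ 1) (hq1 : q ≠ 1) {R : ℝ} (hR : 0 ≤ R) :
    |Real.log ‖1 - (1 - Real.exp (-R)) • q‖| ≤ Real.log 2 + Real.log (2 / ‖1 - q‖) := by
  obtain ⟨h1, h2⟩ := bnd31 hq hR
  have hp : 0 < ‖1 - q‖ := norm_pos_iff.2 (sub_ne_zero.2 hq1.symm)
  have h3 : 0 < ‖1 - (1 - Real.exp (-R)) • q‖ := lt_of_lt_of_le (by positivity) h1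
  have h4 : 0 ≤ Real.log (2 / ‖1 - q‖) := Real.log_nonneg (by rw [le_div_iff₀ hp]; linarith [oneq31 hq])
  have h5 : 0 ≤ Real.log 2 := Real.log_nonneg (by norm_num)
  rw [abs_le]
  constructor
  · have h6 : Real.log (‖1 - q‖ / 2) ≤ Real.log ‖1 - (1 - Real.exp (-R)) • q‖ := Real.log_le_log (by positivity) h1
    have h7 : Real.log (‖1 - q‖ / 2) = -Real.log (2 / ‖1 - q‖) := by
      rw [← Real.log_inv, inv_div]
    linarith
  · have h6 := Real.log_le_log h3 h2
    linarith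

/-- the derivative of `uu q` -/
private noncomputable def du31 (q : Hq) (η : ℝ) : ℝ :=
  (Real.exp η * ((1 - ‖q‖ ^ 2 - ‖1 - q‖ ^ 2) / 2) + Real.exp η ^ 2 * ‖1 - q‖ ^ 2) / ‖q + Real.exp η • (1 - q)‖ ^ 2

private theorem uu_eq31 (q : Hq) (η : ℝ) : uu q η = 1 / 2 * Real.log (‖q + Real.exp η • (1 - q)‖ ^ 2) := by
  unfold uu
  rw [Real.log_pow]
  push_cast
  ring

private theorem w_cont31 (q : Hq) : Continuous fun η : ℝ => ‖q + Real.exp η • (1 - q)‖ := by
  fun_prop

private theorem hasDeriv31 {q : Hq} (hq : ‖q‖ ≤ 1) {η : ℝ} (hη : 0 ≤ η) : HasDerivAt (uu q) (du31 q η) η := by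
  have h0 : uu q = fun η => 1 / 2 * Real.log (‖q‖ ^ 2 + Real.exp η * (1 - ‖q‖ ^ 2 - ‖1 - q‖ ^ 2)
      + Real.exp η ^ 2 * ‖1 - q‖ ^ 2) := by
    funext η
    rw [uu_eq31, nsq31]
  have h1 := one_le_w hq hη
  have hN : 0 < ‖q + Real.exp η • (1 - q)‖ ^ 2 := by positivity
  have hN' := hN
  rw [nsq31] at hN'
  have h2 : HasDerivAt (fun η : ℝ => ‖q‖ ^ 2 + Real.exp η * (1 - ‖q‖ ^ 2 - ‖1 - q‖ ^ 2)
      + Real.exp η ^ 2 * ‖1 - q‖ ^ 2)
      (Real.exp η * (1 - ‖q‖ ^ 2 - ‖1 - q‖ ^ 2) + (2 * Real.exp η ^ 1 * Real.exp η) * ‖1 - q‖ ^ 2) η := by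
    have e1 := ((Real.hasDerivAt_exp η).mul_const (1 - ‖q‖ ^ 2 - ‖1 - q‖ ^ 2)).const_add (‖q‖ ^ 2)
    have e2 := ((Real.hasDerivAt_exp η).fun_pow 2).mul_const (‖1 - q‖ ^ 2)
    exact (e1.fun_add e2).congr_deriv (by simp)
  have h3 := (h2.log hN'.ne').const_mul (1 / 2)
  rw [h0]
  refine h3.congr_deriv ?_
  unfold du31
  rw [nsq31]
  field_simp

private theorem du_cont31 {q : Hq} (hq : ‖q‖ ≤ 1) : ContinuousOn (du31 q) (Set.Ici 0) := by
  unfold du31
  apply ContinuousOn.div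
  · fun_prop
  · exact ((w_cont31 q).pow 2).continuousOn
  · intro η hη
    have := one_le_w hq hη
    positivity

private theorem du_abs31 {q : Hq} (hq : ‖q‖ ≤ 1) {η : ℝ} (hη : 0 ≤ η) :
    |1 - du31 q η| ≤ 1 / ‖q + Real.exp η • (1 - q)‖ := by
  have h1 := one_le_w hq hη
  have hw : 0 < ‖q + Real.exp η • (1 - q)‖ := by linarith
  have h2 : 1 - du31 q η = inner ℝ q (q + Real.exp η • (1 - q)) / ‖q + Real.exp η • (1 - q)‖ ^ 2 := by
    unfold du31
    rw [eq_div_iff (by positivity), sub_mul, div_mul_cancel₀ _ (by positivity), one_mul, inq31, nsq31]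
    ring
  rw [h2, abs_div, abs_of_pos (by positivity : (0:ℝ) < ‖q + Real.exp η • (1 - q)‖ ^ 2), div_le_div_iff₀ (by positivity) hw]
  have h3 := abs_real_inner_le_norm q (q + Real.exp η • (1 - q))
  have h4 : |inner ℝ q (q + Real.exp η • (1 - q))| ≤ ‖q + Real.exp η • (1 - q)‖ := by
    refine h3.trans ?_
    nlinarith
  nlinarith

private theorem tail31 {f : ℝ → ℝ} {R c M K : ℝ} (hR : 0 ≤ R) (hc : 0 ≤ c) (hM : 0 ≤ M) (hK : 0 ≤ K)
    (hf : IntervalIntegrable f volume 0 R) (h1 : ∀ η, 0 ≤ η → η ≤ R → η < c → f η ≤ M)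
    (h2 : ∀ η, 0 ≤ η → η ≤ R → c ≤ η → f η ≤ K * Real.exp (-η)) :
    ∫ η in (0 : ℝ)..R, f η ≤ M * c + K * Real.exp (-c) := by
  have hint : ∀ a b : ℝ, ∫ η in a..b, K * Real.exp (-η) = K * (Real.exp (-a) - Real.exp (-b)) := by
    intro a b
    rw [intervalIntegral.integral_const_mul]
    congr 1
    have h : ∀ x ∈ Set.uIcc a b, HasDerivAt (fun x : ℝ => -Real.exp (-x)) (Real.exp (-x)) x := by
      intro x _
      exact (((hasDerivAt_neg x).exp).fun_neg).congr_deriv (by simp)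
    rw [intervalIntegral.integral_eq_sub_of_hasDerivAt h (Continuous.intervalIntegrable (by fun_prop) _ _)]
    ring
  rcases le_or_gt R c with hRc | hRc
  · have h3 : ∫ η in (0 : ℝ)..R, f η ≤ ∫ η in (0 : ℝ)..R, M := by
      apply intervalIntegral.integral_mono_on_of_le_Ioo hR hf (by simp)
      intro η hη
      exact h1 η hη.1.le hη.2.le (lt_of_lt_of_le hη.2 hRc)
    rw [intervalIntegral.integral_const, smul_eq_mul, sub_zero] at h3
    have h4 : R * M ≤ M * c := by nlinarith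
    have h5 : 0 ≤ K * Real.exp (-c) := by positivity
    linarith
  · have hf1 : IntervalIntegrable f volume 0 c :=
      hf.mono_set (by rw [Set.uIcc_of_le hc, Set.uIcc_of_le hR]; exact Set.Icc_subset_Icc_right hRc.le)
    have hf2 : IntervalIntegrable f volume c R :=
      hf.mono_set (by rw [Set.uIcc_of_le hRc.le, Set.uIcc_of_le hR]; exact Set.Icc_subset_Icc_left hc)
    rw [← intervalIntegral.integral_add_adjacent_intervals hf1 hf2]
    have h3 : ∫ η in (0 : ℝ)..c, f η ≤ ∫ η in (0 : ℝ)..c, M := by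
      apply intervalIntegral.integral_mono_on_of_le_Ioo hc hf1 (by simp)
      intro η hη
      exact h1 η hη.1.le (hη.2.trans hRc).le hη.2
    rw [intervalIntegral.integral_const, smul_eq_mul, sub_zero] at h3
    have h4 : ∫ η in c..R, f η ≤ ∫ η in c..R, K * Real.exp (-η) := by
      apply intervalIntegral.integral_mono_on_of_le_Ioo hRc.le hf2
      · apply Continuous.intervalIntegrable
        fun_prop
      · intro η hη
        exact h2 η (hc.trans hη.1.le) hη.2.le hη.1.le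
    rw [hint] at h4
    have h5 : 0 ≤ K * Real.exp (-R) := by positivity
    have h6 : K * (Real.exp (-c) - Real.exp (-R)) = K * Real.exp (-c) - K * Real.exp (-R) := by ring
    rw [h6] at h4
    linarith

theorem uu_est {g : ℝ → ℝ} (hg : ContinuousOn g (Set.Ici 0)) (h0 : ∀ η, 0 ≤ η → 0 ≤ g η ∧ g η ≤ 2) {T T1 δ : ℝ}
    (hT : 1 ≤ T) (hT1 : 2 * T + 2 ≤ T1) (hδ : 0 ≤ δ) (hs : ∀ η, 0 ≤ η → η ≤ T1 → g η ≤ δ)
    (hv : ∀ η η', 1 ≤ η → 1 ≤ η' → |η - η'| ≤ T → |g η - g η'| ≤ δ) {q : Hq} (hq : ‖q‖ ≤ 1) (hq1 : q ≠ 1)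
    {R : ℝ} (hR : 0 ≤ R) {Λ : ℝ} (hΛ : Λ = Real.log 2 + Real.log (2 / ‖1 - q‖)) :
    |(∫ η in (0 : ℝ)..R, (g (uu q η) - g η)) - g R * Real.log ‖1 - (1 - Real.exp (-R)) • q‖| ≤
      δ * (1 + 2 * Λ) + (if T < Λ then 2 * Λ else 0) + 4 / (Real.exp T1 - 1) := by
  have hp : 0 < ‖1 - q‖ := norm_pos_iff.2 (sub_ne_zero.2 hq1.symm)
  have hp2 : ‖1 - q‖ ≤ 2 := oneq31 hq
  have hlog0 : 0 ≤ Real.log (2 / ‖1 - q‖) := Real.log_nonneg (by rw [le_div_iff₀ hp]; linarith)
  have hlog2 : 0 ≤ Real.log 2 := Real.log_nonneg (by norm_num)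
  set lam := Real.log ‖1 - (1 - Real.exp (-R)) • q‖ with hlam
  have hlamΛ : |lam| ≤ Λ := by rw [hΛ]; exact lam_abs hq hq1 hR
  have hΛ0 : 0 ≤ Λ := (abs_nonneg _).trans hlamΛ
  -- the end point
  have huR : uu q R = R + lam := by
    have h1 : q + Real.exp R • (1 - q) = Real.exp R • (1 - (1 - Real.exp (-R)) • q) := by
      have h2 : Real.exp R * Real.exp (-R) = 1 := by rw [← Real.exp_add]; simp
      rw [smul_sub, smul_sub, smul_smul, mul_sub, h2, sub_smul, mul_one, one_smul]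
      abel
    unfold uu
    rw [h1, norm_smul, Real.norm_of_nonneg (Real.exp_pos _).le, Real.log_mul (Real.exp_pos _).ne', Real.log_exp]
    have := (bnd31 hq hR).1
    have h3 : 0 < ‖1 - q‖ / 2 := by positivity
    linarith
  have hRI : Set.uIcc (0 : ℝ) R = Set.Icc 0 R := Set.uIcc_of_le hR
  have hsub : Set.Icc (0 : ℝ) R ⊆ Set.Ici 0 := fun x hx => hx.1
  have huc : ContinuousOn (uu q) (Set.Icc 0 R) := fun η hη =>
    (hasDeriv31 hq hη.1).continuousAt.continuousWithinAt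
  have hmaps : Set.MapsTo (uu q) (Set.Icc 0 R) (Set.Ici 0) := fun η hη => uu_nonneg hq hη.1
  have hgu : ContinuousOn (fun η => g (uu q η)) (Set.Icc 0 R) := hg.comp huc hmaps
  have hgc : ContinuousOn g (Set.Icc 0 R) := hg.mono hsub
  have hduc : ContinuousOn (du31 q) (Set.Icc 0 R) := (du_cont31 hq).mono hsub
  have hwinv : ContinuousOn (fun η : ℝ => 1 / ‖q + Real.exp η • (1 - q)‖) (Set.Icc 0 R) := by
    apply ContinuousOn.div continuousOn_const (w_cont31 q).continuousOn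
    intro η hη
    have := one_le_w hq hη.1
    positivity
  -- substitution
  have hsubst : ∫ η in (0 : ℝ)..R, g (uu q η) * du31 q η = ∫ u in (0 : ℝ)..(R + lam), g u := by
    have := intervalIntegral.integral_comp_mul_deriv'' (f := uu q) (f' := du31 q) (g := g) (a := 0) (b := R)
      (by rw [hRI]; exact huc)
      (by
        intro x hx
        rw [min_eq_left hR, max_eq_right hR] at hx
        exact (hasDeriv31 hq hx.1.le).hasDerivWithinAt)
      (by rw [hRI]; exact hduc)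
      (by
        rw [hRI]
        apply hg.mono
        rintro _ ⟨x, hx, rfl⟩
        exact hmaps hx)
    rw [uu_zero, huR] at this
    exact this
  have hint1 : IntervalIntegrable (fun η => g (uu q η) * (1 - du31 q η)) volume 0 R := by
    apply ContinuousOn.intervalIntegrable
    rw [hRI]
    exact hgu.mul (continuousOn_const.sub hduc)
  have hint2 : IntervalIntegrable (fun η => g (uu q η) * du31 q η) volume 0 R := by
    apply ContinuousOn.intervalIntegrable
    rw [hRI]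
    exact hgu.mul hduc
  have hint3 : IntervalIntegrable g volume 0 R := by
    apply ContinuousOn.intervalIntegrable
    rw [hRI]
    exact hgc
  have huR0 : 0 ≤ R + lam := by rw [← huR]; exact uu_nonneg hq hR
  have hint4 : IntervalIntegrable g volume R (R + lam) := by
    apply ContinuousOn.intervalIntegrable
    apply hg.mono
    intro x hx
    have := hx.1
    exact le_trans (le_min hR huR0) this
  have hmain : (∫ η in (0 : ℝ)..R, (g (uu q η) - g η)) =
      (∫ η in (0 : ℝ)..R, g (uu q η) * (1 - du31 q η)) + ∫ u in R..(R + lam), g u := by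
    have e1 : ∀ η, g (uu q η) - g η = g (uu q η) * (1 - du31 q η) + g (uu q η) * du31 q η - g η := fun η => by ring
    simp_rw [e1]
    rw [intervalIntegral.integral_sub (hint1.add hint2) hint3, intervalIntegral.integral_add hint1 hint2, hsubst]
    have e2 : ∫ u in (0 : ℝ)..(R + lam), g u = (∫ u in (0 : ℝ)..R, g u) + ∫ u in R..(R + lam), g u :=
      (intervalIntegral.integral_add_adjacent_intervals hint3 hint4).symm
    rw [e2]
    ring
  -- step 3
  have hstep3 : |(∫ u in R..(R + lam), g u) - g R * lam| ≤ δ * Λ + (if T < Λ then 2 * Λ else 0) := by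
    have e3 : (∫ u in R..(R + lam), g u) - g R * lam = ∫ u in R..(R + lam), (g u - g R) := by
      rw [intervalIntegral.integral_sub hint4 (by simp), intervalIntegral.integral_const, smul_eq_mul]
      ring
    rw [e3]
    have hmem : ∀ u ∈ Set.uIoc R (R + lam), 0 ≤ u ∧ |u - R| ≤ |lam| := by
      intro u hu
      rcases le_total 0 lam with hl | hl
      · rw [Set.uIoc_of_le (by linarith)] at hu
        refine ⟨by linarith [hu.1], ?_⟩
        rw [abs_of_nonneg hl, abs_of_nonneg (by linarith [hu.1])]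
        linarith [hu.2]
      · rw [Set.uIoc_of_ge (by linarith)] at hu
        refine ⟨by linarith [hu.1], ?_⟩
        rw [abs_of_nonpos hl, abs_of_nonpos (by linarith [hu.2])]
        linarith [hu.1]
    rcases le_or_gt |lam| T with hl | hl
    · have hb : ∀ u ∈ Set.uIoc R (R + lam), ‖g u - g R‖ ≤ δ := by
        intro u hu
        obtain ⟨hu0, hu1⟩ := hmem u hu
        rw [Real.norm_eq_abs]
        rcases le_or_gt R (T + 1) with hc | hc
        · have hu2 : u ≤ T1 := by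
            have := (abs_le.1 hu1).2
            linarith
          have a1 := hs u hu0 hu2
          have a2 := hs R hR (by linarith)
          have a3 := (h0 u hu0).1
          have a4 := (h0 R hR).1
          rw [abs_le]
          constructor <;> linarith
        · apply hv u R _ (by linarith) (hu1.trans hl)
          have := (abs_le.1 hu1).1
          linarith
      have hb' := intervalIntegral.norm_integral_le_of_norm_le_const hb
      rw [Real.norm_eq_abs, add_sub_cancel_left] at hb'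
      have hb2 : δ * |lam| ≤ δ * Λ := mul_le_mul_of_nonneg_left hlamΛ hδ
      have hb3 : 0 ≤ (if T < Λ then 2 * Λ else 0) := by split_ifs <;> linarith
      linarith
    · have hb : ∀ u ∈ Set.uIoc R (R + lam), ‖g u - g R‖ ≤ 2 := by
        intro u hu
        obtain ⟨hu0, hu1⟩ := hmem u hu
        rw [Real.norm_eq_abs]
        have a1 := h0 u hu0
        have a2 := h0 R hR
        rw [abs_le]
        constructor <;> linarith [a1.1, a1.2, a2.1, a2.2]
      have hb' := intervalIntegral.norm_integral_le_of_norm_le_const hb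
      rw [Real.norm_eq_abs, add_sub_cancel_left] at hb'
      rw [if_pos (lt_of_lt_of_le hl hlamΛ)]
      have : 0 ≤ δ * Λ := by positivity
      linarith
  -- step 4
  have hwlow : ∀ η, Real.exp η * ‖1 - q‖ - 1 ≤ ‖q + Real.exp η • (1 - q)‖ := by
    intro η
    have h1 := norm_sub_norm_le (Real.exp η • (1 - q)) (-q)
    rw [norm_neg, norm_smul, Real.norm_of_nonneg (Real.exp_pos _).le, sub_neg_eq_add, add_comm (Real.exp η • (1 - q)) q] at h1
    linarith
  have hwup : ∀ η, ‖q + Real.exp η • (1 - q)‖ ≤ 1 + Real.exp η * ‖1 - q‖ := by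
    intro η
    have h1 := norm_add_le q (Real.exp η • (1 - q))
    rw [norm_smul, Real.norm_of_nonneg (Real.exp_pos _).le] at h1
    linarith
  have hhalf : ∀ η, 2 ≤ Real.exp η * ‖1 - q‖ → 1 / ‖q + Real.exp η • (1 - q)‖ ≤ 2 / ‖1 - q‖ * Real.exp (-η) := by
    intro η h2
    have h3 : Real.exp η * ‖1 - q‖ / 2 ≤ ‖q + Real.exp η • (1 - q)‖ := by linarith [hwlow η]
    have h4 : 0 < Real.exp η * ‖1 - q‖ / 2 := by positivity
    calc 1 / ‖q + Real.exp η • (1 - q)‖ ≤ 1 / (Real.exp η * ‖1 - q‖ / 2) := one_div_le_one_div_of_le h4 h3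
      _ = 2 / ‖1 - q‖ * Real.exp (-η) := by
        rw [Real.exp_neg]
        field_simp
  have hE1 : 2 ≤ Real.exp T1 - 1 := by
    have := Real.add_one_le_exp T1
    linarith
  have hI1 : ∫ η in (0 : ℝ)..R, 1 / ‖q + Real.exp η • (1 - q)‖ ≤ Real.log (2 / ‖1 - q‖) + 1 := by
    have := tail31 (f := fun η : ℝ => 1 / ‖q + Real.exp η • (1 - q)‖) (c := Real.log (2 / ‖1 - q‖)) (M := 1)
      (K := 2 / ‖1 - q‖) hR hlog0 zero_le_one (by positivity)
      (by apply ContinuousOn.intervalIntegrable; rw [hRI]; exact hwinv)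
      (by
        intro η h1 _ _
        have := one_le_w hq h1
        rw [div_le_one (by linarith)]
        exact this)
      (by
        intro η h1 _ h3
        apply hhalf
        have h4 := (Real.log_le_iff_le_exp (by positivity)).1 h3
        rwa [div_le_iff₀ hp] at h4)
    rw [Real.exp_neg, Real.exp_log (by positivity), one_mul] at this
    have e : 2 / ‖1 - q‖ * (2 / ‖1 - q‖)⁻¹ = 1 := mul_inv_cancel₀ (by positivity)
    rwa [e] at this
  have hposc : ContinuousOn (fun η => max (g (uu q η) - δ) 0 * (1 / ‖q + Real.exp η • (1 - q)‖)) (Set.Icc 0 R) :=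
    ((hgu.sub continuousOn_const).sup continuousOn_const).mul hwinv
  have hI2 : ∫ η in (0 : ℝ)..R, max (g (uu q η) - δ) 0 * (1 / ‖q + Real.exp η • (1 - q)‖) ≤ 4 / (Real.exp T1 - 1) := by
    have hc0 : 0 ≤ Real.log ((Real.exp T1 - 1) / ‖1 - q‖) := by
      apply Real.log_nonneg
      rw [le_div_iff₀ hp]
      linarith
    have hq0 : 0 < (Real.exp T1 - 1) / ‖1 - q‖ := by
      apply div_pos _ hp
      linarith
    have := tail31 (f := fun η => max (g (uu q η) - δ) 0 * (1 / ‖q + Real.exp η • (1 - q)‖))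
      (c := Real.log ((Real.exp T1 - 1) / ‖1 - q‖)) (M := 0)
      (K := 4 / ‖1 - q‖) hR hc0 le_rfl (by positivity)
      (by apply ContinuousOn.intervalIntegrable; rw [hRI]; exact hposc)
      (by
        intro η h1 _ h3
        have h4 := (Real.lt_log_iff_exp_lt hq0).1 h3
        rw [lt_div_iff₀ hp] at h4
        have h5 : ‖q + Real.exp η • (1 - q)‖ ≤ Real.exp T1 := by linarith [hwup η]
        have h6 : uu q η ≤ T1 := by
          unfold uu
          rw [Real.log_le_iff_le_exp (by linarith [one_le_w hq h1])]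
          exact h5
        have h7 := hs (uu q η) (uu_nonneg hq h1) h6
        rw [max_eq_right (by linarith), zero_mul])
      (by
        intro η h1 _ h3
        have h4 := (Real.log_le_iff_le_exp hq0).1 h3
        rw [div_le_iff₀ hp] at h4
        have h5 := hhalf η (by linarith)
        have h6 : max (g (uu q η) - δ) 0 ≤ 2 := by
          apply max_le _ (by norm_num)
          have := (h0 (uu q η) (uu_nonneg hq h1)).2
          linarith
        have h7 : 0 ≤ 1 / ‖q + Real.exp η • (1 - q)‖ := by positivity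
        calc max (g (uu q η) - δ) 0 * (1 / ‖q + Real.exp η • (1 - q)‖)
            ≤ 2 * (2 / ‖1 - q‖ * Real.exp (-η)) := mul_le_mul h6 h5 h7 (by norm_num)
          _ = 4 / ‖1 - q‖ * Real.exp (-η) := by ring)
    rw [zero_mul, zero_add, Real.exp_neg, Real.exp_log hq0, inv_div] at this
    have e : 4 / ‖1 - q‖ * (‖1 - q‖ / (Real.exp T1 - 1)) = 4 / (Real.exp T1 - 1) := by
      have : Real.exp T1 - 1 ≠ 0 := by linarith
      field_simp
    rwa [e] at this
  have hstep4 : |∫ η in (0 : ℝ)..R, g (uu q η) * (1 - du31 q η)| ≤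
      δ * (Real.log (2 / ‖1 - q‖) + 1) + 4 / (Real.exp T1 - 1) := by
    have hJ1 : IntervalIntegrable (fun η : ℝ => δ * (1 / ‖q + Real.exp η • (1 - q)‖)) volume 0 R := by
      apply ContinuousOn.intervalIntegrable
      rw [hRI]
      exact continuousOn_const.mul hwinv
    have hJ2 : IntervalIntegrable (fun η => max (g (uu q η) - δ) 0 * (1 / ‖q + Real.exp η • (1 - q)‖)) volume 0 R := by
      apply ContinuousOn.intervalIntegrable
      rw [hRI]
      exact hposc
    have h1 : |∫ η in (0 : ℝ)..R, g (uu q η) * (1 - du31 q η)| ≤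
        ∫ η in (0 : ℝ)..R, (δ * (1 / ‖q + Real.exp η • (1 - q)‖) +
          max (g (uu q η) - δ) 0 * (1 / ‖q + Real.exp η • (1 - q)‖)) := by
      rw [← Real.norm_eq_abs]
      apply intervalIntegral.norm_integral_le_of_norm_le hR
      · refine Filter.Eventually.of_forall fun η hη => ?_
        rw [Real.norm_eq_abs, abs_mul]
        have a1 := du_abs31 hq hη.1.le
        have a2 := h0 (uu q η) (uu_nonneg hq hη.1.le)
        rw [abs_of_nonneg a2.1, ← add_mul]
        have a3 : g (uu q η) ≤ δ + max (g (uu q η) - δ) 0 := by linarith [le_max_left (g (uu q η) - δ) 0]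
        exact mul_le_mul a3 a1 (abs_nonneg _) (by linarith [le_max_right (g (uu q η) - δ) 0])
      · exact hJ1.add hJ2
    refine h1.trans ?_
    rw [intervalIntegral.integral_add hJ1 hJ2, intervalIntegral.integral_const_mul]
    have := mul_le_mul_of_nonneg_left hI1 hδ
    linarith
  have hfin : (∫ η in (0 : ℝ)..R, (g (uu q η) - g η)) - g R * lam =
      (∫ η in (0 : ℝ)..R, g (uu q η) * (1 - du31 q η)) + ((∫ u in R..(R + lam), g u) - g R * lam) := by
    rw [hmain]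
    ring
  rw [hfin]
  refine (abs_add_le _ _).trans ?_
  have hx : δ * (Real.log (2 / ‖1 - q‖) + 1) ≤ δ * (Λ + 1) := by
    apply mul_le_mul_of_nonneg_left _ hδ
    rw [hΛ]
    linarith
  linarith

end Pool.Agent.Helper84.SPQ
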