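import Pool.Agent.Helper84.SPQ.C3c
import Pool.Agent.Helper84.SPQ.C4

/-!
# Project SPQ, block C5: the estimate of the radial function

PROOF. `V = ∫ hf² > 0` (`hf_sq_pos`). For `R ≤ 1` use `hs` (`T1 ≥ 1`, `δ ≤ ε`). Let `R ≥ 1`, `τ = 1 - e^(-R) ∈ [1/2, 1)`. Integrate `uu_est` for `q = qq k k'` (`q ≠ 1` almost everywhere: `lam_null` and left invariance, `∫∫ φ(qq k k') = ∫ φ(k₀₀)`) against
`|hf k hf k'| ≤ 1/4`. Fubini: `∫∫ (∫_0^R (g(uu) - g)) hf hf' = ∫_0^R (∫∫ g(uu) hf hf') - (∫_0^R g) (∫ hf)² ≤ 0` (`hpd`, `hf_int`; `(k, k', η) ↦ g (uu (qq k k') η)` is bounded and continuous). So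
`g(R) ∫∫ log ‖1 - τ qq‖ hf hf' ≤ (1/4) ∫∫ (δ (1 + 2Λ) + [T < Λ] 2Λ + 4/(e^T1 - 1))` and the left side is at least `g(R) τ² V²/4 ≥ g(R) V²/16` (`qq_log_ge`). Choose `T` with `∫ [T < Λ] 2Λ` small (dominated convergence, `lam_int`), then `T1 ≥ 2T + 2` large, then `δ`.
(In the conclusion the two uses of `T1` in the hypotheses on `g` are stronger than with `T`.)
-/

set_option autoImplicit false

open MeasureTheory

namespace Pool.Agent.Helper84.SPQ

section Abstract85

variable {K : Type} [Group K] [TopologicalSpace K] [CompactSpace K] [SecondCountableTopology K]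
  [MeasurableSpace K] [BorelSpace K]

private theorem integrable85 (μ : Measure K) [IsProbabilityMeasure μ] {F : K × K → ℝ}
    (hF : Continuous F) : Integrable F (μ.prod μ) := by
  obtain ⟨C, hC⟩ := (isCompact_univ (X := K × K)).exists_bound_of_continuousOn hF.continuousOn
  exact Integrable.of_bound hF.aestronglyMeasurable C
    (Filter.Eventually.of_forall fun p => hC p (Set.mem_univ _))

private theorem integrable85' (μ : Measure K) [IsProbabilityMeasure μ] {F : K → ℝ}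
    (hF : Continuous F) : Integrable F μ := by
  obtain ⟨C, hC⟩ := (isCompact_univ (X := K)).exists_bound_of_continuousOn hF.continuousOn
  exact Integrable.of_bound hF.aestronglyMeasurable C
    (Filter.Eventually.of_forall fun p => hC p (Set.mem_univ _))

private theorem cont_w85 {q : K → K → Hq} (hqc : Continuous fun p : K × K => q p.1 p.2)
    (hqn : ∀ k k', ‖q k k'‖ ≤ 1) :
    Continuous fun x : (K × K) × ℝ => uu (q x.1.1 x.1.2) (max x.2 0) := by
  unfold uu
  have hq : Continuous fun x : (K × K) × ℝ => q x.1.1 x.1.2 := hqc.comp continuous_fst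
  have he : Continuous fun x : (K × K) × ℝ => Real.exp (max x.2 0) :=
    Real.continuous_exp.comp (continuous_snd.max continuous_const)
  refine Continuous.log ((hq.add (he.smul (continuous_const.sub hq))).norm) fun x => ?_
  have h1 := one_le_w (hqn x.1.1 x.1.2) (le_max_right x.2 0)
  exact (lt_of_lt_of_le one_pos h1).ne'

/-- the integrand with cut offs -/
private noncomputable def ff85 (q : K → K → Hq) (g : ℝ → ℝ) (p : K × K) (η : ℝ) : ℝ :=
  g (max (uu (q p.1 p.2) (max η 0)) 0) - g (max η 0)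

private theorem ff_cont85 {q : K → K → Hq} (hqc : Continuous fun p : K × K => q p.1 p.2)
    (hqn : ∀ k k', ‖q k k'‖ ≤ 1) {g : ℝ → ℝ} (hg : ContinuousOn g (Set.Ici 0)) :
    Continuous (Function.uncurry (ff85 q g)) := by
  have h1 : Continuous fun x : ℝ => g (max x 0) :=
    hg.comp_continuous (continuous_id.max continuous_const) fun x => le_max_right x 0
  exact (h1.comp (cont_w85 hqc hqn)).sub (h1.comp continuous_snd)

private theorem ff_eq85 {q : K → K → Hq} (hqn : ∀ k k', ‖q k k'‖ ≤ 1) (g : ℝ → ℝ) (p : K × K) {η : ℝ}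
    (hη : 0 ≤ η) : ff85 q g p η = g (uu (q p.1 p.2) η) - g η := by
  unfold ff85
  rw [max_eq_left hη, max_eq_left (uu_nonneg (hqn p.1 p.2) hη)]

private theorem ff_abs85 (q : K → K → Hq) {g : ℝ → ℝ} (h0 : ∀ η, 0 ≤ η → 0 ≤ g η ∧ g η ≤ 2)
    (p : K × K) (η : ℝ) : |ff85 q g p η| ≤ 2 := by
  unfold ff85
  have h1 := h0 _ (le_max_right (uu (q p.1 p.2) (max η 0)) 0)
  have h2 := h0 _ (le_max_right η 0)
  rw [abs_le]
  constructor <;> linarith [h1.1, h1.2, h2.1, h2.2]

/-- the inner integral -/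
private noncomputable def AA85 (q : K → K → Hq) (g : ℝ → ℝ) (R : ℝ) (p : K × K) : ℝ :=
  ∫ η in (0 : ℝ)..R, ff85 q g p η

private theorem AA_eq85 {q : K → K → Hq} (hqn : ∀ k k', ‖q k k'‖ ≤ 1) (g : ℝ → ℝ) {R : ℝ} (hR : 0 ≤ R)
    (k k' : K) : AA85 q g R (k, k') = ∫ η in (0 : ℝ)..R, (g (uu (q k k') η) - g η) := by
  unfold AA85
  refine intervalIntegral.integral_congr fun η hη => ?_
  rw [Set.uIcc_of_le hR] at hη
  exact ff_eq85 hqn g (k, k') hη.1

private theorem AA_cont85 {q : K → K → Hq} (hqc : Continuous fun p : K × K => q p.1 p.2)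
    (hqn : ∀ k k', ‖q k k'‖ ≤ 1) {g : ℝ → ℝ} (hg : ContinuousOn g (Set.Ici 0)) (R : ℝ) :
    Continuous (AA85 q g R) := by
  unfold AA85
  exact intervalIntegral.continuous_parametric_intervalIntegral_of_continuous'
    (ff_cont85 hqc hqn hg) 0 R

private theorem hh_cont85 {h : K → ℝ} (hh : Continuous h) : Continuous fun p : K × K => h p.1 * h p.2 :=
  (hh.comp continuous_fst).mul (hh.comp continuous_snd)

private theorem hh_abs85 {h : K → ℝ} (habs : ∀ k, |h k| ≤ 1 / 2) (k k' : K) : |h k * h k'| ≤ 1 / 4 := by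
  rw [abs_mul]
  have h1 := habs k
  have h2 := habs k'
  have h3 := abs_nonneg (h k)
  have h4 := abs_nonneg (h k')
  nlinarith

private theorem swap85 (μ : Measure K) [IsProbabilityMeasure μ] {q : K → K → Hq}
    (hqc : Continuous fun p : K × K => q p.1 p.2) (hqn : ∀ k k', ‖q k k'‖ ≤ 1) {h : K → ℝ}
    (hh : Continuous h) (habs : ∀ k, |h k| ≤ 1 / 2) (hint0 : ∫ k, h k ∂μ = 0)
    {g : ℝ → ℝ} (hg : ContinuousOn g (Set.Ici 0)) (h0 : ∀ η, 0 ≤ η → 0 ≤ g η ∧ g η ≤ 2)
    (hpd : ∀ η, 0 ≤ η → ∫ k, ∫ k', g (uu (q k k') η) * (h k * h k') ∂μ ∂μ ≤ 0) {R : ℝ}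
    (hR : 0 ≤ R) : ∫ k, ∫ k', AA85 q g R (k, k') * (h k * h k') ∂μ ∂μ ≤ 0 := by
  have hint : Integrable (fun p : K × K => AA85 q g R p * (h p.1 * h p.2)) (μ.prod μ) :=
    integrable85 μ ((AA_cont85 hqc hqn hg R).mul (hh_cont85 hh))
  have e1 := integral_prod _ hint
  simp only at e1
  rw [← e1]
  have e2 : ∀ p : K × K, AA85 q g R p * (h p.1 * h p.2) =
      ∫ η in Set.Ioc 0 R, ff85 q g p η * (h p.1 * h p.2) := by
    intro p
    unfold AA85
    rw [intervalIntegral.integral_of_le hR, integral_mul_const]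
  simp only [e2]
  have hI : Integrable (Function.uncurry fun (p : K × K) (η : ℝ) =>
      ff85 q g p η * (h p.1 * h p.2)) ((μ.prod μ).prod (volume.restrict (Set.Ioc 0 R))) := by
    refine Integrable.of_bound (C := 2 * (1 / 4)) ?_ (Filter.Eventually.of_forall fun x => ?_)
    · exact ((ff_cont85 hqc hqn hg).mul ((hh_cont85 hh).comp continuous_fst)).aestronglyMeasurable
    · change ‖ff85 q g x.1 x.2 * (h x.1.1 * h x.1.2)‖ ≤ _
      rw [norm_mul]
      exact mul_le_mul (ff_abs85 q h0 x.1 x.2) (hh_abs85 habs x.1.1 x.1.2) (norm_nonneg _)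
        (by norm_num)
  rw [integral_integral_swap hI]
  refine setIntegral_nonpos measurableSet_Ioc fun η hη => ?_
  have hη0 : 0 ≤ η := hη.1.le
  have hgc : Continuous fun x : ℝ => g (max x 0) :=
    hg.comp_continuous (continuous_id.max continuous_const) fun x => le_max_right x 0
  have hG : Continuous fun p : K × K => g (uu (q p.1 p.2) η) := by
    have h1 : Continuous fun p : K × K => g (max (uu (q p.1 p.2) (max η 0)) 0) :=
      hgc.comp ((cont_w85 hqc hqn).comp (Continuous.prodMk continuous_id continuous_const))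
    have h2 : (fun p : K × K => g (max (uu (q p.1 p.2) (max η 0)) 0)) =
        fun p : K × K => g (uu (q p.1 p.2) η) := by
      funext p
      rw [max_eq_left hη0, max_eq_left (uu_nonneg (hqn p.1 p.2) hη0)]
    rwa [h2] at h1
  have hI1 : Integrable (fun p : K × K => g (uu (q p.1 p.2) η) * (h p.1 * h p.2)) (μ.prod μ) :=
    integrable85 μ (hG.mul (hh_cont85 hh))
  have hI2 : Integrable (fun p : K × K => g η * (h p.1 * h p.2)) (μ.prod μ) :=
    integrable85 μ (continuous_const.mul (hh_cont85 hh))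
  have e3 : ∫ p, ff85 q g p η * (h p.1 * h p.2) ∂(μ.prod μ) =
      ∫ p, g (uu (q p.1 p.2) η) * (h p.1 * h p.2) ∂(μ.prod μ) -
        ∫ p, g η * (h p.1 * h p.2) ∂(μ.prod μ) := by
    rw [← integral_sub hI1 hI2]
    congr 1
    funext p
    rw [ff_eq85 hqn g p hη0]
    ring
  have e4 : ∫ p, g η * (h p.1 * h p.2) ∂(μ.prod μ) = 0 := by
    rw [integral_const_mul, integral_prod_mul h h, hint0]
    ring
  rw [e3, e4, sub_zero, integral_prod _ hI1]
  exact hpd η hη0

private theorem radial_abs85 [MeasurableMul K] (μ : Measure K) [IsProbabilityMeasure μ]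
    [μ.IsMulLeftInvariant] (e : K → Hq) (q : K → K → Hq) (h : K → ℝ)
    (hq : ∀ k k', q k k' = e (k⁻¹ * k')) (hqc : Continuous fun p : K × K => q p.1 p.2)
    (hqn : ∀ k k', ‖q k k'‖ ≤ 1) (hec : Continuous e) (hen : ∀ k, ‖e k‖ ≤ 1) (hh : Continuous h)
    (habs : ∀ k, |h k| ≤ 1 / 2) (hint0 : ∫ k, h k ∂μ = 0) {V : ℝ} (hV : 0 < V)
    (hVq : ∀ τ : ℝ, 0 ≤ τ → τ < 1 → τ ^ 2 / 4 * V ^ 2 ≤
      ∫ k, ∫ k', Real.log ‖1 - τ • q k k'‖ * (h k * h k') ∂μ ∂μ)
    (hLi : Integrable (fun k => Lam (e k)) μ) (hnull : ∀ᵐ k ∂μ, e k ≠ 1) {ε : ℝ} (hε : 0 < ε) :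
    ∃ T1 δ : ℝ, 1 ≤ T1 ∧ 0 < δ ∧ ∀ g : ℝ → ℝ, ContinuousOn g (Set.Ici 0) → (∀ η, 0 ≤ η → 0 ≤ g η ∧ g η ≤ 2) →
      (∀ η, 0 ≤ η → η ≤ T1 → g η ≤ δ) → (∀ η η', 1 ≤ η → 1 ≤ η' → |η - η'| ≤ T1 → |g η - g η'| ≤ δ) →
      (∀ η, 0 ≤ η → ∫ k, ∫ k', g (uu (q k k') η) * (h k * h k') ∂μ ∂μ ≤ 0) → ∀ η, 0 ≤ η → g η ≤ ε := by
  obtain ⟨L, hL⟩ : ∃ L : K → ℝ, ∀ k, L k = Lam (e k) := ⟨_, fun _ => rfl⟩
  have hLf : L = fun k => Lam (e k) := funext hL
  have hLint : Integrable L μ := by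
    rw [hLf]
    exact hLi
  have hLm : Measurable L := by
    rw [hLf]
    unfold Lam
    have h1 : Measurable fun k : K => ‖1 - e k‖ := (continuous_const.sub hec).norm.measurable
    exact measurable_const.add (Real.measurable_log.comp (measurable_const.div h1))
  have hL0 : ∀ k, 0 ≤ L k := by
    intro k
    rw [hL]
    unfold Lam
    have h2 : 0 < Real.log 2 := Real.log_pos one_lt_two
    by_cases hk : (1 : Hq) - e k = 0
    · rw [hk, norm_zero, div_zero, Real.log_zero]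
      linarith
    · have h3 : 0 < ‖(1 : Hq) - e k‖ := norm_pos_iff.2 hk
      have h4 : ‖(1 : Hq) - e k‖ ≤ 2 := by
        refine (norm_sub_le _ _).trans ?_
        have h5 := hen k
        rw [norm_one]
        linarith
      have h5 : 0 ≤ Real.log (2 / ‖(1 : Hq) - e k‖) :=
        Real.log_nonneg ((one_le_div h3).2 h4)
      linarith
  obtain ⟨κ, hκ⟩ : ∃ κ, κ = ε * V ^ 2 / 12 := ⟨_, rfl⟩
  have hκ0 : 0 < κ := by
    rw [hκ]
    positivity
  have hIm : ∀ T : ℝ, Measurable fun k => if T < L k then 2 * L k else 0 := fun T =>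
    Measurable.ite (measurableSet_lt measurable_const hLm) (hLm.const_mul 2) measurable_const
  have hIb : ∀ T k, ‖(if T < L k then 2 * L k else 0 : ℝ)‖ ≤ 2 * L k := by
    intro T k
    have h1 := hL0 k
    split_ifs
    · rw [Real.norm_of_nonneg (by linarith)]
    · rw [norm_zero]
      linarith
  have hIint : ∀ T : ℝ, Integrable (fun k => if T < L k then 2 * L k else 0) μ := fun T =>
    (hLint.const_mul 2).mono' (hIm T).aestronglyMeasurable (Filter.Eventually.of_forall (hIb T))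
  have hlim : Filter.Tendsto (fun n : ℕ => ∫ k, (if (n : ℝ) < L k then 2 * L k else 0) ∂μ)
      Filter.atTop (nhds 0) := by
    have h1 := tendsto_integral_of_dominated_convergence (μ := μ)
      (F := fun (n : ℕ) k => if (n : ℝ) < L k then 2 * L k else 0) (f := fun _ => 0)
      (fun k => 2 * L k) (fun n => (hIm n).aestronglyMeasurable) (hLint.const_mul 2)
      (fun n => Filter.Eventually.of_forall (hIb n)) (Filter.Eventually.of_forall fun k => ?_)
    · rwa [integral_zero] at h1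
    · obtain ⟨m, hm⟩ := exists_nat_ge (L k)
      refine tendsto_const_nhds.congr' ?_
      filter_upwards [Filter.eventually_ge_atTop m] with n hn
      have h2 : (m : ℝ) ≤ n := by exact_mod_cast hn
      rw [if_neg (not_lt.2 (hm.trans h2))]
  obtain ⟨n, hn1, hn2⟩ := ((hlim.eventually_lt_const hκ0).and (Filter.eventually_ge_atTop 1)).exists
  have hT : (1 : ℝ) ≤ n := by exact_mod_cast hn2
  obtain ⟨T, hTn⟩ : ∃ T : ℝ, T = n := ⟨_, rfl⟩
  rw [← hTn] at hT hn1
  obtain ⟨T1, hT1a, hT1b⟩ : ∃ T1 : ℝ, 2 * T + 2 ≤ T1 ∧ 4 / κ ≤ T1 :=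
    ⟨max (2 * T + 2) (4 / κ), le_max_left _ _, le_max_right _ _⟩
  have hT10 : 0 < T1 := by linarith
  have hT1c : 4 / (Real.exp T1 - 1) ≤ κ := by
    have h1 := Real.add_one_le_exp T1
    have h2 : 0 < Real.exp T1 - 1 := by linarith
    rw [div_le_iff₀ h2]
    rw [div_le_iff₀ hκ0] at hT1b
    nlinarith
  obtain ⟨M, hM⟩ : ∃ M, M = ∫ k, L k ∂μ := ⟨_, rfl⟩
  have hM0 : 0 ≤ M := by
    rw [hM]
    exact integral_nonneg hL0
  obtain ⟨δ, hδ0, hδε, hδκ⟩ : ∃ δ : ℝ, 0 < δ ∧ δ ≤ ε ∧ δ * (1 + 2 * M) ≤ κ := by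
    refine ⟨min ε (κ / (1 + 2 * M)), lt_min hε (by positivity), min_le_left _ _, ?_⟩
    have h1 : 0 < 1 + 2 * M := by linarith
    calc min ε (κ / (1 + 2 * M)) * (1 + 2 * M) ≤ κ / (1 + 2 * M) * (1 + 2 * M) :=
          mul_le_mul_of_nonneg_right (min_le_right _ _) h1.le
      _ = κ := div_mul_cancel₀ _ h1.ne'
  refine ⟨T1, δ, by linarith, hδ0, ?_⟩
  intro g hg h0 hs hv hpd R hR
  rcases le_or_gt R 1 with hR1 | hR1
  · exact (hs R hR (by linarith)).trans hδε
  · obtain ⟨τ, hτ⟩ : ∃ τ, τ = 1 - Real.exp (-R) := ⟨_, rfl⟩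
    have hτ1 : τ < 1 := by
      rw [hτ]
      linarith [Real.exp_pos (-R)]
    have hτ2 : 1 / 2 ≤ τ := by
      have h1 : Real.exp (-R) ≤ 1 / 2 := by
        rw [Real.exp_neg, ← one_div]
        have h2 := Real.add_one_le_exp R
        exact one_div_le_one_div_of_le two_pos (by linarith)
      rw [hτ]
      linarith
    have hτ0 : 0 ≤ τ := by linarith
    obtain ⟨E, hE⟩ : ∃ E : K → ℝ, ∀ k, E k = δ * (1 + 2 * L k) + (if T < L k then 2 * L k else 0) +
      4 / (Real.exp T1 - 1) := ⟨_, fun _ => rfl⟩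
    have hEf : E = fun k => δ * (1 + 2 * L k) + (if T < L k then 2 * L k else 0) +
      4 / (Real.exp T1 - 1) := funext hE
    have i1 : Integrable (fun k => δ * (1 + 2 * L k)) μ :=
      ((integrable_const (1 : ℝ)).add (hLint.const_mul 2)).const_mul δ
    have i2 : Integrable (fun k => δ * (1 + 2 * L k) + (if T < L k then 2 * L k else 0)) μ :=
      i1.add (hIint T)
    have hEint : Integrable E μ := by
      rw [hEf]
      exact i2.add (integrable_const _)
    have hEle : ∫ k, E k ∂μ ≤ ε * V ^ 2 / 4 := by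
      rw [hEf, integral_add i2 (integrable_const _), integral_add i1 (hIint T),
        integral_const_mul, integral_add (integrable_const _) (hLint.const_mul 2),
        integral_const_mul, ← hM]
      simp only [integral_const, probReal_univ, one_smul]
      have h1 : κ + κ + κ = ε * V ^ 2 / 4 := by
        rw [hκ]
        ring
      linarith
    obtain ⟨l, hl⟩ : ∃ l : K → K → ℝ, ∀ k k', l k k' = Real.log ‖1 - τ • q k k'‖ :=
      ⟨_, fun _ _ => rfl⟩
    have hlog : Continuous fun p : K × K => l p.1 p.2 := by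
      simp only [hl]
      refine Continuous.log (continuous_const.sub (hqc.const_smul τ)).norm fun p => ?_
      rw [norm_ne_zero_iff]
      intro h
      have h1 : ‖τ • q p.1 p.2‖ = 1 := by
        rw [← sub_eq_zero.1 h, norm_one]
      rw [norm_smul, Real.norm_of_nonneg hτ0] at h1
      have h2 := hqn p.1 p.2
      nlinarith [norm_nonneg (q p.1 p.2)]
    have hB : Continuous fun p : K × K => g R * l p.1 p.2 * (h p.1 * h p.2) :=
      (continuous_const.mul hlog).mul (hh_cont85 hh)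
    have hA : Continuous fun p : K × K => AA85 q g R p * (h p.1 * h p.2) :=
      (AA_cont85 hqc hqn hg R).mul (hh_cont85 hh)
    have hpt : ∀ k k' : K, q k k' ≠ 1 →
        g R * l k k' * (h k * h k') ≤
          AA85 q g R (k, k') * (h k * h k') + 1 / 4 * E (k⁻¹ * k') := by
      intro k k' hne
      have h1 := uu_est hg h0 hT hT1a hδ0.le hs
        (fun η η' a b c => hv η η' a b (by linarith)) (hqn k k') hne hR
        (Λ := L (k⁻¹ * k')) (by rw [hL, ← hq]; rfl)
      rw [← hE, ← hτ, ← AA_eq85 hqn g hR k k', ← hl] at h1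
      have h3 : |(AA85 q g R (k, k') - g R * l k k') * (h k * h k')| ≤
          E (k⁻¹ * k') * (1 / 4) := by
        rw [abs_mul]
        exact mul_le_mul h1 (hh_abs85 habs k k') (abs_nonneg _) ((abs_nonneg _).trans h1)
      have h4 := (abs_le.1 h3).1
      linarith
    have hin : ∀ k : K, ∫ k', g R * l k k' * (h k * h k') ∂μ ≤
        ∫ k', AA85 q g R (k, k') * (h k * h k') ∂μ + 1 / 4 * ∫ k', E k' ∂μ := by
      intro k
      have hne : ∀ᵐ k' ∂μ, q k k' ≠ 1 := by
        filter_upwards [(measurePreserving_mul_left μ k⁻¹).quasiMeasurePreserving.ae hnull] with k' hk'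
        rw [hq]
        exact hk'
      have hpair : Continuous fun k' : K => (k, k') := Continuous.prodMk continuous_const continuous_id
      have hcB : Continuous fun k' : K => g R * l k k' * (h k * h k') := hB.comp hpair
      have hcA : Continuous fun k' : K => AA85 q g R (k, k') * (h k * h k') := hA.comp hpair
      have hE' : Integrable (fun k' => E (k⁻¹ * k')) μ := hEint.comp_mul_left k⁻¹
      have h1 := integral_mono_ae (integrable85' μ hcB)
        ((integrable85' μ hcA).add (hE'.const_mul (1 / 4))) (by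
          filter_upwards [hne] with k' hk'
          exact hpt k k' hk')
      have h2 : ∫ k', (AA85 q g R (k, k') * (h k * h k') + 1 / 4 * E (k⁻¹ * k')) ∂μ =
          ∫ k', AA85 q g R (k, k') * (h k * h k') ∂μ + 1 / 4 * ∫ k', E k' ∂μ := by
        rw [integral_add (integrable85' μ hcA) (hE'.const_mul (1 / 4)), integral_const_mul,
          integral_mul_left_eq_self E k⁻¹]
      exact h1.trans (le_of_eq h2)
    have hBi : Integrable (fun k => ∫ k', g R * l k k' * (h k * h k') ∂μ) μ :=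
      (integrable85 μ hB).integral_prod_left
    have hAi : Integrable (fun k => ∫ k', AA85 q g R (k, k') * (h k * h k') ∂μ) μ :=
      (integrable85 μ hA).integral_prod_left
    have hout := integral_mono hBi (hAi.add (integrable_const (1 / 4 * ∫ k', E k' ∂μ))) hin
    have h5 : ∫ k, (∫ k', AA85 q g R (k, k') * (h k * h k') ∂μ + 1 / 4 * ∫ k', E k' ∂μ) ∂μ =
        ∫ k, ∫ k', AA85 q g R (k, k') * (h k * h k') ∂μ ∂μ + 1 / 4 * ∫ k', E k' ∂μ := by
      rw [integral_add hAi (integrable_const _)]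
      simp only [integral_const, probReal_univ, one_smul]
    have h6 : ∫ k, ∫ k', g R * l k k' * (h k * h k') ∂μ ∂μ =
        g R * ∫ k, ∫ k', l k k' * (h k * h k') ∂μ ∂μ := by
      simp only [mul_assoc, integral_const_mul]
    have h7 := hVq τ hτ0 hτ1
    simp only [← hl] at h7
    have h8 := swap85 μ hqc hqn hh habs hint0 hg h0 hpd hR
    have h9 : g R * (τ ^ 2 / 4 * V ^ 2) ≤ 1 / 4 * (ε * V ^ 2 / 4) := by
      calc g R * (τ ^ 2 / 4 * V ^ 2)
          ≤ g R * ∫ k, ∫ k', l k k' * (h k * h k') ∂μ ∂μ :=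
            mul_le_mul_of_nonneg_left h7 (h0 R hR).1
        _ = ∫ k, ∫ k', g R * l k k' * (h k * h k') ∂μ ∂μ := h6.symm
        _ ≤ ∫ k, (∫ k', AA85 q g R (k, k') * (h k * h k') ∂μ + 1 / 4 * ∫ k', E k' ∂μ) ∂μ := hout
        _ = ∫ k, ∫ k', AA85 q g R (k, k') * (h k * h k') ∂μ ∂μ + 1 / 4 * ∫ k', E k' ∂μ := h5
        _ ≤ 1 / 4 * (ε * V ^ 2 / 4) := by linarith
    have h10 : g R * (1 / 16 * V ^ 2) ≤ g R * (τ ^ 2 / 4 * V ^ 2) := by
      refine mul_le_mul_of_nonneg_left ?_ (h0 R hR).1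
      refine mul_le_mul_of_nonneg_right ?_ (sq_nonneg V)
      nlinarith
    have h11 : 0 < 1 / 16 * V ^ 2 := by positivity
    have h12 : g R * (1 / 16 * V ^ 2) ≤ ε * (1 / 16 * V ^ 2) := by
      refine h10.trans (h9.trans (le_of_eq ?_))
      ring
    exact le_of_mul_le_mul_right h12 h11

end Abstract85

theorem radial (μ : Measure K2) [IsProbabilityMeasure μ] [μ.IsMulLeftInvariant] [μ.IsMulRightInvariant]
    (hμ : ∀ U : Set K2, IsOpen U → U.Nonempty → μ U ≠ 0) {ε : ℝ} (hε : 0 < ε) :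
    ∃ T1 δ : ℝ, 1 ≤ T1 ∧ 0 < δ ∧ ∀ g : ℝ → ℝ, ContinuousOn g (Set.Ici 0) → (∀ η, 0 ≤ η → 0 ≤ g η ∧ g η ≤ 2) →
      (∀ η, 0 ≤ η → η ≤ T1 → g η ≤ δ) → (∀ η η', 1 ≤ η → 1 ≤ η' → |η - η'| ≤ T1 → |g η - g η'| ≤ δ) →
      (∀ η, 0 ≤ η → ∫ k, ∫ k', g (uu (qq k k') η) * (hf k * hf k') ∂μ ∂μ ≤ 0) → ∀ η, 0 ≤ η → g η ≤ ε := by
  have hnull : ∀ᵐ k : K2 ∂μ, (k : MH (Fin 2)) 0 0 ≠ 1 := by
    rw [ae_iff]
    simp only [not_not]
    exact lam_null μ
  exact radial_abs85 μ (fun k : K2 => (k : MH (Fin 2)) 0 0) qq hf (fun _ _ => rfl) continuous_qq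
    norm_qq_le (continuous_entry 0 0) (fun k => norm_entry_le k 0 0) continuous_hf hf_abs (hf_int μ)
    (hf_sq_pos μ hμ) (fun τ h0 h1 => qq_log_ge μ h0 h1) (lam_int μ) hnull hε

end Pool.Agent.Helper84.SPQ
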