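import Pool.Agent.Helper84.SPQ.C6b
import Pool.Agent.Helper84.SPQ.C5

/-!
# Project SPQ, block C7: property (T) for `Sp(2, 1)`

`URep σ v`: `σ` is a multiplicative family of contractions of a Hilbert space with `σ(g)* = σ(g⁻¹)`, `σ 1 v = v`, and `g ↦ σ g v` is continuous at `1`.
PROOF of `kazhdan`. Let `T1`, `δ` be given by block C5 for a small `ε'`. `KK` is a compact group with an invariant probability measure `κ`. Let `Q` be `KK` together with all `aa t`, `|t| ≤ 2 T1 + 2` (compact), and assume `‖σ g v - v‖ ≤ δ'` on `Q`.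
(1) `g ↦ σ g v` is continuous (`‖σ (g h) v - σ g v‖ ≤ ‖σ h v - v‖`). `w = ∫_KK σ k v dκ(k)`; `σ k w = w` for `k ∈ KK`, `σ 1 w = w`, `‖w - v‖ ≤ δ'`, `g ↦ σ g w` is continuous. `F g = re ⟪σ g w, w⟫/‖w‖²` is invariant under `KK` on both sides, so by `kak` it only depends
on `‖ent g‖`. (2) `g(η) = 1 - F (aa (arcosh (e^η)))` (`s = Real.log (e^η + √(e^(2η) - 1))`, `cosh s = e^η`): continuous on `[0, ∞)`, values in `[0, 2]`, small on `[0, T1]` (`aa s ∈ Q`, `|1 - F| ‖w‖² ≤ ‖σ g w - w‖ ‖w‖`, and `‖σ g w - w‖ ≤ 3 δ'`);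
for `η, η' ≥ 1` with `|η - η'| ≤ T1`: `s, s'` with `|s - s'| ≤ 2 |η - η'|` (`ds/dη = coth s ≤ 2` for `cosh s ≥ e`), `|F (aa s) - F (aa s')| ‖w‖² ≤ ‖w‖ ‖σ (aa (s' - s)) w - w‖`.
(3) positivity: for `η ≥ 0` take `s` with `cosh² s = e^η`; `W = ∫ hf(k) σ (iK k * aa s) w dμ(k)`, `0 ≤ ‖W‖² = ∫∫ hf hf' re ⟪σ (iK k' aa s) w, σ (iK k aa s) w⟫ = ‖w‖² ∫∫ hf hf' F(..)` and `F ((iK k aa s)⁻¹ (iK k' aa s)) = 1 - g(uu (qq k k') η)` by
`ent_mix`, `ent_aa` (`e^(uu) = ‖q + e^η (1-q)‖`), and `∫∫ hf hf' = 0`. (4) Block C5: `1 - F ≤ ε'` everywhere (`one_le_ent`, `kak`), so `‖σ g w - w‖² ≤ 2 ε' ‖w‖²` (`‖σ g w‖ ≤ ‖w‖`) and `‖σ g v - v‖ ≤ 2 δ' + √(2ε')`.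
-/

set_option autoImplicit false

open MeasureTheory Matrix Topology Filter

namespace Pool.Agent.Helper84.SPQ

/-- A unitary representation (on the closed span of the orbit of `v`). -/
structure URep {S H : Type} [Group S] [TopologicalSpace S] [NormedAddCommGroup H] [InnerProductSpace ℂ H]
    (σ : S → (H →L[ℂ] H)) (v : H) : Prop where
  mul : ∀ g h x, σ (g * h) x = σ g (σ h x)
  adj : ∀ g x y, inner ℂ (σ g x) y = inner ℂ x (σ g⁻¹ y)
  norm_le : ∀ g x, ‖σ g x‖ ≤ ‖x‖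
  one : σ 1 v = v
  cont : Tendsto (fun g => σ g v) (𝓝 1) (𝓝 v)

section Fix

variable {S H : Type} [Group S] [TopologicalSpace S] [IsTopologicalGroup S] [NormedAddCommGroup H] [InnerProductSpace ℂ H]
  {σ : S → (H →L[ℂ] H)} {v : H}

private theorem cont36 (h : URep σ v) {x : H} (hx : Tendsto (fun g => σ g x) (𝓝 1) (𝓝 x)) : Continuous fun g => σ g x := by
  rw [continuous_iff_continuousAt]
  intro g
  have h1 : Tendsto (fun g' : S => g⁻¹ * g') (𝓝 g) (𝓝 1) := by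
    have : Continuous fun g' : S => g⁻¹ * g' := by fun_prop
    have h2 := this.tendsto g
    rwa [inv_mul_cancel] at h2
  have h2 := hx.comp h1
  rw [tendsto_iff_norm_sub_tendsto_zero] at h2
  show Tendsto (fun g' => σ g' x) (𝓝 g) (𝓝 (σ g x))
  rw [tendsto_iff_norm_sub_tendsto_zero]
  refine squeeze_zero (fun _ => norm_nonneg _) (fun g' => ?_) h2
  have e : σ g' x - σ g x = σ g (σ (g⁻¹ * g') x - x) := by
    rw [map_sub, ← h.mul, mul_inv_cancel_left]
  rw [e]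
  exact h.norm_le g _

/-- the point of smallest norm of the closed convex hull of the orbit of a subgroup -/
private theorem fix36 [CompleteSpace H] (h : URep σ v) (K : Subgroup S) {δ : ℝ} (hδ : ∀ k ∈ K, ‖σ k v - v‖ ≤ δ) :
    ∃ w : H, ‖w - v‖ ≤ δ ∧ ‖w‖ ≤ ‖v‖ ∧ (∀ k ∈ K, σ k w = w) ∧ Continuous fun g => σ g w := by
  let _ : InnerProductSpace ℝ H := InnerProductSpace.complexToReal
  obtain ⟨C, hC⟩ : ∃ C : Set H, C = closure (convexHull ℝ ((fun k => σ k v) '' (K : Set S))) := ⟨_, rfl⟩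
  have hCc : Convex ℝ C := by
    rw [hC]
    exact (convex_convexHull ℝ _).closure
  have hCcl : IsClosed C := by
    rw [hC]
    exact isClosed_closure
  have hgen : ∀ k ∈ K, σ k v ∈ C := by
    intro k hk
    rw [hC]
    exact subset_closure (subset_convexHull ℝ _ ⟨k, hk, rfl⟩)
  have hv : v ∈ C := by
    have := hgen 1 K.one_mem
    rwa [h.one] at this
  have hmin : ∀ A : Set H, IsClosed A → Convex ℝ A → (∀ k ∈ K, σ k v ∈ A) → C ⊆ A := by
    intro A hA hA2 hA3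
    rw [hC]
    refine closure_minimal (convexHull_min ?_ hA2) hA
    rintro _ ⟨k, hk, rfl⟩
    exact hA3 k hk
  obtain ⟨w, hw, hw2⟩ := exists_norm_eq_iInf_of_complete_convex ⟨v, hv⟩ hCcl.isComplete hCc (0 : H)
  have hin : ∀ x ∈ C, inner ℝ (0 - w) (x - w) ≤ (0 : ℝ) := (norm_eq_iInf_iff_real_inner_le_zero hCc hw).1 hw2
  have hin2 : ∀ x ∈ C, ‖w‖ ^ 2 ≤ inner ℝ w x := by
    intro x hx
    have := hin x hx
    rw [zero_sub, inner_neg_left, inner_sub_right, real_inner_self_eq_norm_sq] at this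
    linarith
  have hle : ∀ x ∈ C, ‖w‖ ^ 2 ≤ ‖w‖ * ‖x‖ := fun x hx => (hin2 x hx).trans (real_inner_le_norm w x)
  refine ⟨w, ?_, ?_, ?_, ?_⟩
  · have := hmin (Metric.closedBall v δ) Metric.isClosed_closedBall (convex_closedBall v δ)
      (fun k hk => by rw [mem_closedBall_iff_norm]; exact hδ k hk) hw
    rwa [mem_closedBall_iff_norm] at this
  · have h1 := hle v hv
    rcases (norm_nonneg w).eq_or_lt with h2 | h2
    · rw [← h2]
      exact norm_nonneg v
    · rw [sq] at h1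
      exact le_of_mul_le_mul_left h1 h2
  · intro k hk
    have hkC : σ k w ∈ C := by
      refine hmin {x | σ k x ∈ C} (hCcl.preimage (σ k).continuous) ?_ (fun k' hk' => ?_) hw
      · intro x hx y hy a b ha hb hab
        show σ k (a • x + b • y) ∈ C
        rw [map_add, ContinuousLinearMap.map_smul_of_tower, ContinuousLinearMap.map_smul_of_tower]
        exact hCc hx hy ha hb hab
      · show σ k (σ k' v) ∈ C
        rw [← h.mul]
        exact hgen _ (K.mul_mem hk hk')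
    have h1 := hin2 _ hkC
    have h2 := h.norm_le k w
    have h3 : ‖w - σ k w‖ ^ 2 ≤ 0 := by
      rw [norm_sub_sq_real]
      have : ‖σ k w‖ ^ 2 ≤ ‖w‖ ^ 2 := by gcongr
      linarith
    have h4 : ‖w - σ k w‖ = 0 := by
      have := norm_nonneg (w - σ k w)
      nlinarith
    exact (sub_eq_zero.1 (norm_eq_zero.1 h4)).symm
  · refine cont36 h ?_
    refine hmin {x | Tendsto (fun g => σ g x) (𝓝 1) (𝓝 x)} ?_ ?_ ?_ hw
    · refine isClosed_of_closure_subset fun x hx => ?_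
      show Tendsto (fun g => σ g x) (𝓝 1) (𝓝 x)
      rw [Metric.tendsto_nhds]
      intro ε hε
      obtain ⟨y, hy, hxy⟩ := Metric.mem_closure_iff.1 hx (ε / 3) (by positivity)
      have hy' : Tendsto (fun g => σ g y) (𝓝 1) (𝓝 y) := hy
      rw [Metric.tendsto_nhds] at hy'
      filter_upwards [hy' (ε / 3) (by positivity)] with g hg
      rw [dist_eq_norm] at hg hxy ⊢
      have e : σ g x - x = σ g (x - y) + (σ g y - y) + (y - x) := by
        rw [map_sub]
        abel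
      have h1 := h.norm_le g (x - y)
      rw [e]
      refine (norm_add₃_le).trans_lt ?_
      rw [norm_sub_rev y x]
      linarith
    · intro x hx y hy a b _ _ _
      show Tendsto (fun g => σ g (a • x + b • y)) (𝓝 1) (𝓝 (a • x + b • y))
      have hx' : Tendsto (fun g => σ g x) (𝓝 1) (𝓝 x) := hx
      have hy' : Tendsto (fun g => σ g y) (𝓝 1) (𝓝 y) := hy
      have e : (fun g => σ g (a • x + b • y)) = fun g => a • σ g x + b • σ g y := by
        funext g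
        rw [map_add, ContinuousLinearMap.map_smul_of_tower, ContinuousLinearMap.map_smul_of_tower]
      rw [e]
      exact (hx'.const_smul a).add (hy'.const_smul b)
    · intro k _
      show Tendsto (fun g => σ g (σ k v)) (𝓝 1) (𝓝 (σ k v))
      have h1 := (cont36 h h.cont).comp (continuous_mul_const k)
      have h2 := h1.tendsto (1 : S)
      have e : (fun g => σ g (σ k v)) = (fun g => σ g v) ∘ fun g => g * k := by
        funext g
        rw [← h.mul]
        rfl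
      rw [e]
      simpa using h2

end Fix

/-- the inverse of `s ↦ log cosh s` -/
private noncomputable def sE36 (η : ℝ) : ℝ := Real.arsinh (√(Real.exp (2 * η) - 1))

private theorem sE_cont36 : Continuous sE36 := by
  unfold sE36
  exact Real.continuous_arsinh.comp (Real.continuous_sqrt.comp (by fun_prop))

private theorem sE_nonneg36 (η : ℝ) : 0 ≤ sE36 η := Real.arsinh_nonneg_iff.2 (Real.sqrt_nonneg _)

private theorem cosh_sE36 {η : ℝ} (hη : 0 ≤ η) : Real.cosh (sE36 η) = Real.exp η := by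
  unfold sE36
  have h1 : 1 ≤ Real.exp (2 * η) := Real.one_le_exp (by linarith)
  rw [Real.cosh_arsinh, Real.sq_sqrt (by linarith)]
  have e : 1 + (Real.exp (2 * η) - 1) = Real.exp η ^ 2 := by
    rw [← Real.exp_nat_mul]
    push_cast
    ring
  rw [e, Real.sqrt_sq (Real.exp_pos η).le]

private theorem sE_le36 {η : ℝ} (hη : 0 ≤ η) : sE36 η ≤ η + 1 := by
  have h1 : Real.cosh (sE36 η) ≤ Real.cosh (η + 1) := by
    rw [cosh_sE36 hη, Real.cosh_eq, Real.exp_add]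
    have h2 : 2 ≤ Real.exp 1 := by
      have := Real.add_one_le_exp (1 : ℝ)
      linarith
    have h3 : 0 < Real.exp (-(η + 1)) := Real.exp_pos _
    have h4 : 0 < Real.exp η := Real.exp_pos _
    nlinarith
  have h2 := Real.cosh_le_cosh.1 h1
  rw [abs_of_nonneg (sE_nonneg36 η), abs_of_nonneg (by linarith)] at h2
  exact h2

private theorem sE_lip36' {η η' : ℝ} (hη : 1 ≤ η) (hle : η ≤ η') : sE36 η ≤ sE36 η' ∧ sE36 η' ≤ sE36 η + 2 * (η' - η) := by
  have h0 : 0 ≤ η := by linarith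
  have h0' : 0 ≤ η' := by linarith
  constructor
  · have h1 : Real.cosh (sE36 η) ≤ Real.cosh (sE36 η') := by
      rw [cosh_sE36 h0, cosh_sE36 h0']
      exact Real.exp_le_exp.2 hle
    have h2 := Real.cosh_le_cosh.1 h1
    rwa [abs_of_nonneg (sE_nonneg36 η), abs_of_nonneg (sE_nonneg36 η')] at h2
  · obtain ⟨t, ht⟩ : ∃ t, t = η' - η := ⟨_, rfl⟩
    have ht0 : 0 ≤ t := by linarith
    rw [← ht]
    have h1 : Real.cosh (sE36 η') ≤ Real.cosh (sE36 η + 2 * t) := by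
      rw [cosh_sE36 h0', Real.cosh_add, cosh_sE36 h0]
      have hη' : η' = η + t := by linarith
      rw [hη', Real.exp_add]
      have hc : 2 ≤ Real.exp η := by
        have := Real.add_one_le_exp η
        linarith
      have hs0 : 0 ≤ Real.sinh (sE36 η) := Real.sinh_nonneg_iff.2 (sE_nonneg36 η)
      have hs : Real.exp η / 2 ≤ Real.sinh (sE36 η) := by
        have h2 := Real.cosh_sq (sE36 η)
        rw [cosh_sE36 h0] at h2
        nlinarith
      have hst : 0 ≤ Real.sinh (2 * t) := Real.sinh_nonneg_iff.2 (by linarith)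
      obtain ⟨y, hy⟩ : ∃ y, y = Real.exp t := ⟨_, rfl⟩
      have hy1 : 1 ≤ y := by
        rw [hy]
        exact Real.one_le_exp ht0
      have e1 : Real.cosh (2 * t) = (y ^ 2 + (y ^ 2)⁻¹) / 2 := by
        rw [Real.cosh_eq, hy, ← Real.exp_nat_mul, ← Real.exp_neg]
        push_cast
        ring
      have e2 : Real.sinh (2 * t) = (y ^ 2 - (y ^ 2)⁻¹) / 2 := by
        rw [Real.sinh_eq, hy, ← Real.exp_nat_mul, ← Real.exp_neg]
        push_cast
        ring
      have key : y ≤ Real.cosh (2 * t) + 1 / 2 * Real.sinh (2 * t) := by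
        rw [e1, e2]
        have hy2 : 0 < y ^ 2 := by positivity
        have e3 : (y ^ 2 + (y ^ 2)⁻¹) / 2 + 1 / 2 * ((y ^ 2 - (y ^ 2)⁻¹) / 2) - y = ((y - 1) ^ 2 * (3 * y ^ 2 + 2 * y + 1)) / (4 * y ^ 2) := by
          field_simp
          ring
        have h3 : 0 ≤ ((y - 1) ^ 2 * (3 * y ^ 2 + 2 * y + 1)) / (4 * y ^ 2) := by positivity
        linarith
      rw [← hy]
      have h4 : Real.exp η * y ≤ Real.exp η * (Real.cosh (2 * t) + 1 / 2 * Real.sinh (2 * t)) := by gcongr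
      have h5 : Real.exp η / 2 * Real.sinh (2 * t) ≤ Real.sinh (sE36 η) * Real.sinh (2 * t) := by gcongr
      linarith
    have h2 := Real.cosh_le_cosh.1 h1
    rwa [abs_of_nonneg (sE_nonneg36 η'), abs_of_nonneg (by linarith [sE_nonneg36 η])] at h2

private theorem sE_lip36 {η η' : ℝ} (hη : 1 ≤ η) (hη' : 1 ≤ η') : |sE36 η' - sE36 η| ≤ 2 * |η - η'| := by
  rcases le_total η η' with h | h
  · obtain ⟨h1, h2⟩ := sE_lip36' hη h
    rw [abs_of_nonneg (by linarith), abs_of_nonpos (by linarith)]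
    linarith
  · obtain ⟨h1, h2⟩ := sE_lip36' hη' h
    rw [abs_of_nonpos (by linarith), abs_of_nonneg (by linarith)]
    linarith

theorem kazhdan {ε : ℝ} (hε : 0 < ε) : ∃ (Q : Set Sp21) (δ : ℝ), IsCompact Q ∧ 0 < δ ∧
    ∀ (H : Type) [NormedAddCommGroup H] [InnerProductSpace ℂ H] [CompleteSpace H] (σ : Sp21 → (H →L[ℂ] H)) (v : H),
      URep σ v → ‖v‖ = 1 → (∀ g ∈ Q, ‖σ g v - v‖ ≤ δ) → ∀ g, ‖σ g v - v‖ ≤ ε := by
  obtain ⟨μ, i1, i2, i3, hμ⟩ := exists_muK
  obtain ⟨T1, δ₀, hT1, hδ₀, hrad⟩ := radial μ hμ (ε := ε ^ 2 / 8) (by positivity)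
  refine ⟨(KK : Set Sp21) ∪ aa '' Set.Icc (-(2 * T1 + 2)) (2 * T1 + 2), min (1 / 2) (min (δ₀ / 6) (ε / 4)),
    isCompact_KK.union (isCompact_Icc.image continuous_aa), by positivity, ?_⟩
  intro H _ _ _ σ v h hv hQ
  obtain ⟨δ, hδ⟩ : ∃ δ, δ = min (1 / 2 : ℝ) (min (δ₀ / 6) (ε / 4)) := ⟨_, rfl⟩
  rw [← hδ] at hQ
  have hδ1 : δ ≤ 1 / 2 := by
    rw [hδ]
    exact min_le_left _ _
  have hδ2 : δ ≤ δ₀ / 6 := by
    rw [hδ]
    exact (min_le_right _ _).trans (min_le_left _ _)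
  have hδ3 : δ ≤ ε / 4 := by
    rw [hδ]
    exact (min_le_right _ _).trans (min_le_right _ _)
  obtain ⟨w, hwv, hwn, hwK, hwc⟩ := fix36 h KK (fun k hk => hQ k (Or.inl hk))
  rw [hv] at hwn
  have hδ0 : 0 ≤ δ := (norm_nonneg _).trans hwv
  have hw1 : 1 / 2 ≤ ‖w‖ := by
    have h1 := norm_sub_le w (w - v)
    rw [sub_sub_cancel, hv] at h1
    linarith
  have hw0 : 0 < ‖w‖ := by linarith
  have hww : 0 < ‖w‖ ^ 2 := by positivity
  have hdis : ∀ t, |t| ≤ 2 * T1 + 2 → ‖σ (aa t) w - w‖ ≤ 3 * δ := by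
    intro t ht
    have h1 := hQ (aa t) (Or.inr ⟨t, abs_le.1 ht, rfl⟩)
    have e : σ (aa t) w - w = σ (aa t) (w - v) + (σ (aa t) v - v) + (v - w) := by
      rw [map_sub]
      abel
    have h2 := h.norm_le (aa t) (w - v)
    rw [e]
    refine norm_add₃_le.trans ?_
    rw [norm_sub_rev v w]
    linarith
  obtain ⟨f0, hf0⟩ : ∃ f0 : Sp21 → ℝ, ∀ g, f0 g = (inner ℂ w (σ g w)).re := ⟨_, fun _ => rfl⟩
  have hf0c : Continuous f0 := by
    have e : f0 = fun g => (inner ℂ w (σ g w)).re := funext hf0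
    rw [e]
    exact Complex.continuous_re.comp (continuous_const.inner hwc)
  have hf0R : ∀ k ∈ KK, ∀ g, f0 (g * k) = f0 g := by
    intro k hk g
    rw [hf0, hf0, h.mul, hwK k hk]
  have hf0L : ∀ k ∈ KK, ∀ g, f0 (k * g) = f0 g := by
    intro k hk g
    have h1 := h.adj k⁻¹ w (σ g w)
    rw [inv_inv, hwK k⁻¹ (KK.inv_mem hk)] at h1
    rw [hf0, hf0, h.mul, ← h1]
  have hf0e : ∀ g g', ‖ent g‖ = ‖ent g'‖ → f0 g' = f0 g := by
    intro g g' hgg
    obtain ⟨k, hk, k', hk', e⟩ := kak hgg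
    rw [e, hf0R k' hk', hf0L k hk]
  have hdiff : ∀ g g', |f0 g - f0 g'| ≤ ‖w‖ * ‖σ g w - σ g' w‖ := by
    intro g g'
    rw [hf0, hf0, ← Complex.sub_re, ← inner_sub_right]
    exact (Complex.abs_re_le_norm _).trans (norm_inner_le_norm _ _)
  have hf0b : ∀ g, |f0 g| ≤ ‖w‖ ^ 2 := by
    intro g
    rw [hf0, sq]
    refine (Complex.abs_re_le_norm _).trans ((norm_inner_le_norm _ _).trans ?_)
    have := h.norm_le g w
    gcongr
  have hf01 : f0 1 = ‖w‖ ^ 2 := by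
    rw [hf0, hwK 1 KK.one_mem, inner_self_eq_norm_sq_to_K]
    norm_cast
  obtain ⟨G, hG⟩ : ∃ G : ℝ → ℝ, ∀ η, G η = 1 - f0 (aa (sE36 η)) / ‖w‖ ^ 2 := ⟨_, fun _ => rfl⟩
  have hGe : ∀ g, f0 g / ‖w‖ ^ 2 = 1 - G (Real.log ‖ent g‖) := by
    intro g
    have h1 := one_le_ent g
    have h2 : ‖ent g‖ = ‖ent (aa (sE36 (Real.log ‖ent g‖)))‖ := by
      rw [ent_aa, cosh_sE36 (Real.log_nonneg h1), Real.exp_log (by linarith)]
    rw [hG, hf0e _ _ h2]
    ring
  have hGc : ContinuousOn G (Set.Ici 0) := by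
    have e : G = fun η => 1 - f0 (aa (sE36 η)) / ‖w‖ ^ 2 := funext hG
    rw [e]
    exact (continuous_const.sub ((hf0c.comp (continuous_aa.comp sE_cont36)).div_const _)).continuousOn
  have hG02 : ∀ η, 0 ≤ η → 0 ≤ G η ∧ G η ≤ 2 := by
    intro η _
    rw [hG]
    obtain ⟨h1, h2⟩ := abs_le.1 (hf0b (aa (sE36 η)))
    have h3 : f0 (aa (sE36 η)) / ‖w‖ ^ 2 ≤ 1 := by
      rw [div_le_one hww]
      exact h2
    have h4 : -1 ≤ f0 (aa (sE36 η)) / ‖w‖ ^ 2 := by
      rw [le_div_iff₀ hww]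
      linarith
    constructor <;> linarith
  have hdist : ∀ g g', ‖σ g w - σ g' w‖ ≤ 3 * δ → |f0 g / ‖w‖ ^ 2 - f0 g' / ‖w‖ ^ 2| ≤ δ₀ := by
    intro g g' hgg
    have h1 := hdiff g g'
    have e : f0 g / ‖w‖ ^ 2 - f0 g' / ‖w‖ ^ 2 = (f0 g - f0 g') / ‖w‖ ^ 2 := by ring
    rw [e, abs_div, abs_of_pos hww, div_le_iff₀ hww]
    calc |f0 g - f0 g'| ≤ ‖w‖ * (3 * δ) := h1.trans (by gcongr)
      _ ≤ ‖w‖ * (3 * (δ₀ / 6)) := by gcongr
      _ = δ₀ * (‖w‖ * (1 / 2)) := by ring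
      _ ≤ δ₀ * (‖w‖ * ‖w‖) := by gcongr
      _ = δ₀ * ‖w‖ ^ 2 := by ring
  have hGs : ∀ η, 0 ≤ η → η ≤ T1 → G η ≤ δ₀ := by
    intro η h0 h1
    have h2 : |sE36 η| ≤ 2 * T1 + 2 := by
      rw [abs_of_nonneg (sE_nonneg36 η)]
      have := sE_le36 h0
      linarith
    have h3 := hdist 1 (aa (sE36 η)) (by
      rw [hwK 1 KK.one_mem, norm_sub_rev]
      exact hdis _ h2)
    rw [hf01, div_self hww.ne', ← hG] at h3
    exact (le_abs_self _).trans h3
  have hGv : ∀ η η', 1 ≤ η → 1 ≤ η' → |η - η'| ≤ T1 → |G η - G η'| ≤ δ₀ := by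
    intro η η' h1 h2 h3
    have h4 := sE_lip36 h1 h2
    have h5 := hdist (aa (sE36 η')) (aa (sE36 η)) (by
      have e : aa (sE36 η') = aa (sE36 η) * aa (sE36 η' - sE36 η) := by
        rw [← aa_add]
        congr 1
        ring
      rw [e, h.mul, ← map_sub]
      exact (h.norm_le _ _).trans (hdis _ (by linarith)))
    have e : G η - G η' = f0 (aa (sE36 η')) / ‖w‖ ^ 2 - f0 (aa (sE36 η)) / ‖w‖ ^ 2 := by
      rw [hG, hG]
      ring
    rw [e]
    exact h5
  have hGp : ∀ η, 0 ≤ η → ∫ k, ∫ k', G (uu (qq k k') η) * (hf k * hf k') ∂μ ∂μ ≤ 0 := by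
    intro η hη
    obtain ⟨s, hs⟩ : ∃ s, s = sE36 (η / 2) := ⟨_, rfl⟩
    have hcs : Real.cosh s ^ 2 = Real.exp η := by
      rw [hs, cosh_sE36 (by linarith), ← Real.exp_nat_mul]
      congr 1
      push_cast
      ring
    obtain ⟨x, hx⟩ : ∃ x : K2 → Sp21, ∀ k, x k = iK k * aa s := ⟨_, fun _ => rfl⟩
    have hxc : Continuous x := by
      have e : x = fun k => iK k * aa s := funext hx
      rw [e]
      exact continuous_iK.mul continuous_const
    have hxG : ∀ k k', f0 ((x k)⁻¹ * x k') / ‖w‖ ^ 2 = 1 - G (uu (qq k k') η) := by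
      intro k k'
      rw [hGe, hx, hx, ent_mix, hcs]
      rfl
    obtain ⟨Φ, hΦ⟩ : ∃ Φ : K2 → H, ∀ k, Φ k = (hf k : ℂ) • σ (x k) w := ⟨_, fun _ => rfl⟩
    have hΦc : Continuous Φ := by
      have e : Φ = fun k => (hf k : ℂ) • σ (x k) w := funext hΦ
      rw [e]
      exact (Complex.continuous_ofReal.comp continuous_hf).smul (hwc.comp hxc)
    have hΦi : Integrable Φ μ := hΦc.integrable_of_hasCompactSupport (HasCompactSupport.of_compactSpace Φ)
    have hinner : ∀ k k', (inner ℂ (Φ k) (Φ k')).re = hf k * hf k' * f0 ((x k)⁻¹ * x k') := by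
      intro k k'
      rw [hΦ, hΦ, inner_smul_left, inner_smul_right, Complex.conj_ofReal, h.adj, ← h.mul, Complex.re_ofReal_mul,
        Complex.re_ofReal_mul, hf0]
      ring
    have hWW : 0 ≤ ∫ k, ∫ k', hf k * hf k' * f0 ((x k)⁻¹ * x k') ∂μ ∂μ := by
      have e1 : ∀ k, ∫ k', hf k * hf k' * f0 ((x k)⁻¹ * x k') ∂μ = (inner ℂ (∫ k', Φ k' ∂μ) (Φ k)).re := by
        intro k
        have h1 : ∫ k', (inner ℂ (Φ k) (Φ k')).re ∂μ = (inner ℂ (Φ k) (∫ k', Φ k' ∂μ)).re := by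
          rw [← integral_inner hΦi]
          exact integral_re (𝕜 := ℂ) (Integrable.const_inner (𝕜 := ℂ) (Φ k) hΦi)
        rw [← integral_congr_ae (Filter.Eventually.of_forall fun k' => hinner k k'), h1]
        exact inner_re_symm (𝕜 := ℂ) _ _
      have e2 : ∫ k, (inner ℂ (∫ k', Φ k' ∂μ) (Φ k)).re ∂μ = (inner ℂ (∫ k', Φ k' ∂μ) (∫ k', Φ k' ∂μ)).re := by
        conv_rhs => rw [← integral_inner hΦi]
        exact integral_re (𝕜 := ℂ) (Integrable.const_inner (𝕜 := ℂ) (∫ k', Φ k' ∂μ) hΦi)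
      rw [integral_congr_ae (Filter.Eventually.of_forall e1), e2]
      exact inner_self_nonneg (𝕜 := ℂ)
    have hsp : ∀ k, ∫ k', G (uu (qq k k') η) * (hf k * hf k') ∂μ =
        (-(‖w‖ ^ 2)⁻¹) * ∫ k', hf k * hf k' * f0 ((x k)⁻¹ * x k') ∂μ := by
      intro k
      have hc1 : Continuous fun k' => hf k * hf k' := continuous_const.mul continuous_hf
      have hc2 : Continuous fun k' => hf k * hf k' * f0 ((x k)⁻¹ * x k') :=
        hc1.mul (hf0c.comp (continuous_const.mul hxc))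
      have hi1 : Integrable (fun k' => hf k * hf k') μ := hc1.integrable_of_hasCompactSupport (HasCompactSupport.of_compactSpace _)
      have hi2 : Integrable (fun k' => hf k * hf k' * f0 ((x k)⁻¹ * x k')) μ :=
        hc2.integrable_of_hasCompactSupport (HasCompactSupport.of_compactSpace _)
      have e : ∀ k', G (uu (qq k k') η) * (hf k * hf k') =
          hf k * hf k' - (‖w‖ ^ 2)⁻¹ * (hf k * hf k' * f0 ((x k)⁻¹ * x k')) := by
        intro k'
        have h1 : G (uu (qq k k') η) = 1 - f0 ((x k)⁻¹ * x k') / ‖w‖ ^ 2 := by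
          rw [hxG]
          ring
        rw [h1]
        ring
      rw [integral_congr_ae (Filter.Eventually.of_forall e), integral_sub hi1 (hi2.const_mul _), integral_const_mul,
        integral_const_mul, hf_int μ]
      ring
    rw [integral_congr_ae (Filter.Eventually.of_forall hsp), integral_const_mul]
    have : 0 ≤ (‖w‖ ^ 2)⁻¹ := by positivity
    nlinarith
  have hfin := hrad G hGc hG02 hGs hGv hGp
  intro g
  have h1 := hfin (Real.log ‖ent g‖) (Real.log_nonneg (one_le_ent g))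
  have h2 := hGe g
  have h3 : ‖w‖ ^ 2 - f0 g ≤ ε ^ 2 / 8 := by
    have h4 : 1 - f0 g / ‖w‖ ^ 2 ≤ ε ^ 2 / 8 := by linarith
    have h5 : ‖w‖ ^ 2 - f0 g = ‖w‖ ^ 2 * (1 - f0 g / ‖w‖ ^ 2) := by
      field_simp
    rw [h5]
    calc ‖w‖ ^ 2 * (1 - f0 g / ‖w‖ ^ 2) ≤ ‖w‖ ^ 2 * (ε ^ 2 / 8) := by gcongr
      _ ≤ 1 * (ε ^ 2 / 8) := by
          have : ‖w‖ ^ 2 ≤ 1 := by nlinarith
          gcongr
      _ = ε ^ 2 / 8 := one_mul _
  have h6 : ‖σ g w - w‖ ≤ ε / 2 := by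
    have h7 : ‖w - σ g w‖ ^ 2 ≤ (ε / 2) ^ 2 := by
      rw [norm_sub_sq (𝕜 := ℂ)]
      have h8 : ‖σ g w‖ ^ 2 ≤ ‖w‖ ^ 2 := by
        have := h.norm_le g w
        gcongr
      have h9 : RCLike.re (inner ℂ w (σ g w)) = f0 g := (hf0 g).symm
      rw [h9]
      nlinarith
    rw [norm_sub_rev]
    exact abs_le_of_sq_le_sq' h7 (by positivity) |>.2
  have e : σ g v - v = σ g (v - w) + (σ g w - w) + (w - v) := by
    rw [map_sub]
    abel
  have h10 := h.norm_le g (v - w)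
  rw [norm_sub_rev v w] at h10
  rw [e]
  refine norm_add₃_le.trans ?_
  linarith

end Pool.Agent.Helper84.SPQ
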