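import Pool.Agent.Helper84.SPQ.A1
import Pool.Agent.Helper84.SPQ.A2
import Pool.Agent.Helper84.SPQ.A3
import Pool.Agent.Helper84.SPQ.C7

/-!
# Project SPQ, block A4: the last step of the induction, property (T) against the Haagerup property

`no_haag`. PROOF. Let `ζ = XPpr R (vec μ a E b)` in `XUa μ R`, `ζ ≠ 0` (`XPpr_ne_zero`, first lines of the proof of `esc` in `FR/EV.lean`), `N0 = ‖ζ‖ > 0`. `φ' x = ⟨φ x, _⟩ : cen b`, a continuous homomorphism. Write `ζ_h = opL (xmUa μ b R) (cres a (cen b)) (ext (XAU R) E) h⁻¹ ζ`, `‖ζ_h‖ = N0` (`esc_norm`).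
The hypotheses `hA`, `hcen`, `hν` of `orbit_facts` (block A1, with `C = cen b`, cocycle `cres a (cen b)`, `M0 = xmUa μ b R`, `M = xmVp μ b R L`, `A = XAV μ Γ`, `B = XBV μ Γ`, `TL = XTL μ Γ`, `TR = XTR μ Γ`, `ν = μ`) are proved in `FR/ET.lean` in the proof of `escapeX` (`hbA.mem_VB`, `hcen`, `hν`).
(a) Constants: `ε_K = 1/8`; `kazhdan` gives a compact `Q` and `δ_K > 0`, we may assume `δ_K ≤ 1`. `η = δ_K N0 / 16`. Let `U` be an open neighbourhood of `1` in `Sp21` with `2 √(μ {a (φ u) ≠ 1}).toReal ≤ η` for `u ∈ U` (from `h3` and continuity of `φ`). Finitely many `g_i ∈ Q` with `Q ⊆ ⋃ g_i U` (compactness).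
(b) `n0` = maximum of the `n0` of `xua_near` for the vectors `ζ`, `ζ_{φ' g_i}` and `δ = η/4`; `ε = η / (2 (N0 + 1))`: then `ε (N0 + η/4) + η/2 ≤ η` (as `η/4 ≤ 1`... choose the constants so that it holds, for example replace `η` by `min η 1`). `HaagR R n0 ε` gives `L, Γ, s`. So `‖TL y - TR y‖ ≤ η` for these vectors `y`
(norms in the subspace `XVp` are the norms in `UE`; `XTL`, `XTR` are `UE.map (mulF ..)`).
(c) `v = z (TL ζ)`, `σ` as in A1: `‖v - TR ζ‖ ≤ η`, so `‖v‖ ≥ N0 - η ≥ N0/2` and `‖v‖ ≤ N0` (`z` contraction; or `≤ N0 + η`). For `g = g_i u ∈ Q`: `‖σ_g v - v‖ ≤ ‖σ_{g_i} (σ_u v - v)‖ + ‖σ_{g_i} v - v‖ ≤ η + 2 η` (facts (1), (2), `σ_g = σ_{φ' g}`), `3 η ≤ δ_K ‖v‖`.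
`kazhdan` for the space `XVp μ R L`, `σ ∘ φ'`, the vector `v/‖v‖` (`URep`: A1; continuity at `1` from (1) and `h3`): `‖σ_g v - v‖ ≤ ‖v‖/8` for all `g`.
(d) For all `g`: `|⟪TL ζ_h, TR ζ_h⟫| = |⟪σ_h v, TR ζ⟫| ≥ |⟪v, TR ζ⟫| - ‖v‖ N0/8 ≥ (N0² - η N0) - ... ≥ N0²/2` (`h = φ' g`; `⟪v, TR ζ⟫ = ⟪TR ζ, TR ζ⟫ + ⟪v - TR ζ, TR ζ⟫`).
(e) Decay: let `δ'' = 1/8`, `n` from the third property of `Γ`; `esc_mass` (block A3) with `m = n`, `ε = N0/4`, `a0 = φ g0`: `k` with `‖ind (W n) ζ'‖ ≤ N0/4`, `ζ' = opL .. (a0' ^ k) ζ = ζ_h` for `h = (a0' ^ k)⁻¹ = φ' (g0 ^ (-k))`. By `inner_XTL_XTR` and `xua_decay` (`f γ = ⟪vX γ, v⟫`, `y = ζ'`):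
`|⟪TL ζ', TR ζ'⟫| ≤ N0²/16 + N0²/8 < N0²/2`. Contradiction.
-/

set_option autoImplicit false
set_option linter.unusedSectionVars false

open Filter Topology Matrix

namespace Pool.Agent.Helper84.SPQ

open NI GVN GN FR MeasureTheory Pool.Agent.Helper66.FR Pool.Agent.Helper90.RK Pool.Agent.Helper55.FR
open Pool.Agent.Helper96.RK (HasCoc)

section Aux4

variable {G1 X : Type} [Group G1] [TopologicalSpace G1] [IsTopologicalGroup G1] [MeasurableSpace X]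
  {μ : Measure X} [MulAction G1 X] [MeasurableConstSMul G1 X] [SMulInvariantMeasure G1 X μ]
  [IsProbabilityMeasure μ]
variable {G Λ : Type} [Group G] [Group Λ] [Countable Λ]

/-- A finite set of vectors: the two sections are close. -/
private theorem near_fin4 {ι : Type} {R : Reg G} (t : Finset ι) (y : ι → XUa μ R) (N0 : ℝ) (hy : ∀ i, ‖y i‖ ≤ N0)
    {η : ℝ} (hη : 0 < η) (hη1 : η ≤ 1) (hN0 : 0 ≤ N0) (hH : HaagR R) :
    ∃ (L : Type) (_ : NormedAddCommGroup L) (_ : InnerProductSpace ℂ L) (_ : CompleteSpace L)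
      (Γ : Coc R L) (s : Set G), (∀ n, s ∈ R.F n) ∧ (∀ i ∈ t, ‖XTL μ Γ (y i) - XTR μ Γ (y i)‖ ≤ η) ∧
        ∀ δ : ℝ, 0 < δ → ∃ n, ∀ γ ∈ s, γ ∉ R.W n → ‖(inner ℂ (Γ.vX γ) Γ.v : ℂ)‖ ≤ δ := by
  have h1 : ∀ i, ∃ n0 : ℕ, ∀ n, n0 ≤ n →
      ∀ (L : Type) [NormedAddCommGroup L] [InnerProductSpace ℂ L] [CompleteSpace L] (Γ : Coc R L) (s : Set G) (ε : ℝ), 0 ≤ ε →
        (∀ m, s ∈ R.F m) → (∀ γ ∈ s, γ ∈ R.W n → ‖Γ.vX γ - Γ.v‖ ≤ ε) →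
        ‖UE.map μ (mulF fun γ => Γ.vX γ) (y i : UE μ (L2 G)) - UE.map μ (mulF fun _ => Γ.v) (y i : UE μ (L2 G))‖ ≤
          ε * (‖(y i : UE μ (L2 G))‖ + η / 4) + 2 * (η / 4) :=
    fun i => xua_near (y i).2 (by positivity)
  choose n0 hn0 using h1
  obtain ⟨L, i1, i2, i3, Γ, s, hs, hcl, hdec⟩ := hH (t.sup n0) (η / (4 * (N0 + 1))) (by positivity)
  refine ⟨L, i1, i2, i3, Γ, s, hs, fun i hi => ?_, hdec⟩
  have h2 := hn0 i (t.sup n0) (Finset.le_sup hi) L Γ s (η / (4 * (N0 + 1))) (by positivity) hs hcl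
  have h3 : ‖XTL μ Γ (y i) - XTR μ Γ (y i)‖ =
      ‖UE.map μ (mulF fun γ => Γ.vX γ) (y i : UE μ (L2 G)) - UE.map μ (mulF fun _ => Γ.v) (y i : UE μ (L2 G))‖ := rfl
  rw [h3]
  refine h2.trans ?_
  have h4 : ‖(y i : UE μ (L2 G))‖ + η / 4 ≤ N0 + 1 := by
    have : ‖(y i : UE μ (L2 G))‖ ≤ N0 := hy i
    linarith
  have h5 : η / (4 * (N0 + 1)) * (‖(y i : UE μ (L2 G))‖ + η / 4) ≤ η / (4 * (N0 + 1)) * (N0 + 1) :=
    mul_le_mul_of_nonneg_left h4 (by positivity)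
  have h6 : η / (4 * (N0 + 1)) * (N0 + 1) = η / 4 := by
    field_simp
  linarith

end Aux4

variable {G1 X : Type} [Group G1] [TopologicalSpace G1] [IsTopologicalGroup G1] [MeasurableSpace X]
  {μ : Measure X} [MulAction G1 X] [MeasurableConstSMul G1 X] [SMulInvariantMeasure G1 X μ]
  [IsProbabilityMeasure μ]
variable {G Λ : Type} [Group G] [Group Λ] [Countable Λ]

theorem no_haag (a : Cocy G1 X Λ) (E : Emb Λ G) (h3 : Tendsto (fun g : G1 => μ {x | a.a g x ≠ 1}) (𝓝 1) (𝓝 0))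
    (hp : ∀ F : Subgroup G1, DiscreteTopology F → Countable F ∧ ∃ p : X → Λ → F,
      (∀ (l : Λ) (s : Set F), MeasurableSet {x | p x l ∈ s}) ∧
        ∀ (f : F) (x : X) (l : Λ), p ((f : G1) • x) (a.a f x * l) = f * p x l)
    (R : Reg G) (hco : HasCoc R) (hH : HaagR R) (b : ℕ → G1) (hcomp : HasComp R (zx μ a E) (fun g => zx_bound g) b)
    (φ : Sp21 →* G1) (hφ : Continuous φ) (hcomm : ∀ n x, b n * φ x = φ x * b n) (g0 : Sp21)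
    (u w : G1) (hu : ∀ n, b n * u = u * b n) (hw : ∀ n, b n * w = w * b n)
    (hu1 : Tendsto (fun m : ℕ => (φ g0 ^ m)⁻¹ * u * φ g0 ^ m) atTop (𝓝 1))
    (hw1 : Tendsto (fun m : ℕ => φ g0 ^ m * w * (φ g0 ^ m)⁻¹) atTop (𝓝 1))
    (hdisc : DiscreteTopology (Subgroup.closure {u, w})) (hna : NonAm (Subgroup.closure {u, w})) : False := by
  classical
  obtain ⟨Q, δK, hQc, hδK, hK⟩ := kazhdan (ε := 1 / 8) (by norm_num)
  -- the component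
  have hne : XPpr R (vec μ a E b) ≠ 0 := by
    obtain ⟨ξ, ⟨n, hn⟩, hin⟩ := hcomp
    exact XPpr_ne_zero R (Submodule.le_topologicalClosure _ (Submodule.subset_span ⟨n, hn⟩)) hin
  obtain ⟨ζ, hζ⟩ : ∃ ζ : XUa μ R, ζ = XPpr R (vec μ a E b) := ⟨_, rfl⟩
  obtain ⟨N0, hN0⟩ : ∃ N0 : ℝ, N0 = ‖ζ‖ := ⟨_, rfl⟩
  have hN0p : 0 < N0 := by
    rw [hN0, hζ]
    exact norm_pos_iff.2 hne
  -- the homomorphism to the centraliser
  let φ' : Sp21 →* cen b :=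
    { toFun := fun x => ⟨φ x, mem_cen.2 fun n => hcomm n x⟩
      map_one' := Subtype.ext φ.map_one
      map_mul' := fun x y => Subtype.ext (φ.map_mul x y) }
  have hφ' : ∀ x, ((φ' x : cen b) : G1) = φ x := fun x => rfl
  -- the vectors of the orbit
  have hzV : ζ ∈ VB (XAU R) := by
    rw [hζ]
    exact (Bdd.map (A := AE μ G) (T := XPpr R) (XPpr_A R) (bdd_A_vec b)).mem_VB
  have hbA : Bdd (XAU R) 1 (XPpr R (vec μ a E b)) :=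
    (Bdd.map (A := AE μ G) (T := XPpr R) (XPpr_A R) (bdd_A_vec b)).mono (by
      simpa using norm_XPpr (μ := μ) R)
  have hcen : ∀ v : cen b, opL (xmUa μ b R) (cres a (cen b)) (CRep.ext (XAU R) E) v⁻¹ ζ =
      opR (xmUa μ b R) (cres a (cen b)) (CRep.ext (XBU R) E.conj) v ζ := by
    intro v
    rw [hζ, ← XPpr_opL, ← XPpr_opR, vec_central]
  have hν : ∀ D : Set X, MeasurableSet D → ‖(xmUa μ b R).px.p D ζ‖ ^ 2 ≤ (μ D).toReal := by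
    intro D hDm
    have h1 := (hom_XPpr (μ := μ) (R := R) b).x D hDm (vec μ a E b)
    rw [hζ, ← h1]
    exact (pow_le_pow_left₀ (norm_nonneg _) (norm_XPpr_le _) 2).trans (norm_px_vec hDm)
  obtain ⟨zz, hzz⟩ : ∃ zz : cen b → XUa μ R,
      zz = fun h => opL (xmUa μ b R) (cres a (cen b)) (CRep.ext (XAU R) E) h⁻¹ ζ := ⟨_, rfl⟩
  have hzzn : ∀ h, ‖zz h‖ = N0 := by
    intro h
    rw [hzz, hN0]
    exact esc_norm a E b h⁻¹ hzV
  -- the constants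
  obtain ⟨η, hη⟩ : ∃ η : ℝ, η = min 1 (min (N0 / 8) (δK * N0 / 8)) := ⟨_, rfl⟩
  have hηp : 0 < η := by
    rw [hη]
    exact lt_min one_pos (lt_min (by positivity) (by positivity))
  have hη1 : η ≤ 1 := by
    rw [hη]
    exact min_le_left _ _
  have hη2 : η ≤ N0 / 8 := by
    rw [hη]
    exact (min_le_right _ _).trans (min_le_left _ _)
  have hη3 : η ≤ δK * N0 / 8 := by
    rw [hη]
    exact (min_le_right _ _).trans (min_le_right _ _)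
  -- the neighbourhood of one
  have hm0 : Tendsto (fun g : Sp21 => 2 * Real.sqrt (μ {x | (cres a (cen b)).a (φ' g) x ≠ 1}).toReal) (𝓝 1) (𝓝 0) := by
    have e1 : Tendsto (fun g : Sp21 => μ {x | a.a (φ g) x ≠ 1}) (𝓝 1) (𝓝 0) := by
      have e2 : Tendsto φ (𝓝 1) (𝓝 1) := by
        have e3 := hφ.tendsto 1
        rwa [map_one] at e3
      exact h3.comp e2
    have e4 : Tendsto (fun g : Sp21 => (μ {x | a.a (φ g) x ≠ 1}).toReal) (𝓝 1) (𝓝 0) := by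
      have e5 := (ENNReal.tendsto_toReal ENNReal.zero_ne_top).comp e1
      exact e5
    have e6 := (Real.continuous_sqrt.tendsto 0).comp e4
    rw [Real.sqrt_zero] at e6
    have e7 := e6.const_mul 2
    rw [mul_zero] at e7
    exact e7
  have hU : {g : Sp21 | 2 * Real.sqrt (μ {x | (cres a (cen b)).a (φ' g) x ≠ 1}).toReal ≤ η} ∈ 𝓝 (1 : Sp21) :=
    (hm0.eventually (gt_mem_nhds hηp)).mono fun g hg => le_of_lt hg
  obtain ⟨t, ht⟩ := compact_covered_by_mul_left_translates hQc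
    (V := {g : Sp21 | 2 * Real.sqrt (μ {x | (cres a (cen b)).a (φ' g) x ≠ 1}).toReal ≤ η})
    ⟨1, mem_interior_iff_mem_nhds.2 hU⟩
  -- the representation
  obtain ⟨L, i1, i2, i3, Γ, s, hs, hnear, hdec⟩ := near_fin4 (μ := μ) (insert 1 t)
    (fun g : Sp21 => zz (φ' g⁻¹)) N0 (fun g => (hzzn _).le) hηp hη1 hN0p.le hH
  have hnear1 : ∀ g ∈ insert (1 : Sp21) t, ‖XTL μ Γ (zz (φ' g⁻¹)) - XTR μ Γ (zz (φ' g⁻¹))‖ ≤ η := hnear
  obtain ⟨v, hv⟩ : ∃ v : XVp μ R L, v = (VB (XAV μ Γ)).starProjection (XTL μ Γ ζ) := ⟨_, rfl⟩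
  obtain ⟨F1, F2, F3, F4, F5, F6, F7, F8⟩ := orbit_facts (cres a (cen b)) E (mrep_XU b) (mrep_XV b Γ) (XTL μ Γ)
    (XTR μ Γ) (XTR_A μ Γ) (XTL_B μ Γ) (hom_XTR b Γ) (hom_XTL b Γ) (ν := μ) hzV hcen hν hv
  obtain ⟨σ, hσ⟩ : ∃ σ : cen b → (XVp μ R L →L[ℂ] XVp μ R L),
      σ = sgm (xmVp μ b R L) (cres a (cen b)) (CRep.ext (XAV μ Γ) E) (CRep.ext (XBV μ Γ) E.conj) := ⟨_, rfl⟩
  rw [← hσ] at F1 F2 F3 F4 F5 F6 F7
  have hz1 : zz 1 = ζ := by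
    rw [hzz]
    show opL (xmUa μ b R) (cres a (cen b)) (CRep.ext (XAU R) E) 1⁻¹ ζ = ζ
    rw [inv_one, opL_one (xmUa μ b R) (cres a (cen b)) (uhom_ext E (mrep_XU b).hA) ζ]
    exact ext_one_apply E hzV
  have hTζ : ‖XTL μ Γ ζ - XTR μ Γ ζ‖ ≤ η := by
    have h1 := hnear1 1 (Finset.mem_insert_self _ _)
    rw [inv_one, map_one, hz1] at h1
    exact h1
  have hF2 : ∀ h : cen b, ‖σ h v - v‖ ≤ ‖XTL μ Γ (zz h) - XTR μ Γ (zz h)‖ + ‖XTL μ Γ ζ - XTR μ Γ ζ‖ := by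
    intro h
    rw [hzz]
    exact F2 h
  have hF3 : ∀ h : cen b, inner ℂ (σ h v) (XTR μ Γ ζ) = (inner ℂ (XTL μ Γ (zz h)) (XTR μ Γ (zz h)) : ℂ) := by
    intro h
    rw [hzz]
    exact F3 h
  have hTR : ‖XTR μ Γ ζ‖ = N0 := by rw [LinearIsometry.norm_map, hN0]
  have hvT : ‖v - XTR μ Γ ζ‖ ≤ η := F8.trans hTζ
  have hv1 : N0 / 2 ≤ ‖v‖ := by
    have h1 : ‖XTR μ Γ ζ‖ ≤ ‖v‖ + ‖v - XTR μ Γ ζ‖ := by
      have h2 := norm_sub_le v (v - XTR μ Γ ζ)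
      rwa [sub_sub_cancel] at h2
    rw [hTR] at h1
    linarith
  have hv2 : ‖v‖ ≤ N0 + η := by
    have h1 : ‖v‖ ≤ ‖v - XTR μ Γ ζ‖ + ‖XTR μ Γ ζ‖ := by
      have h2 := norm_add_le (v - XTR μ Γ ζ) (XTR μ Γ ζ)
      rwa [sub_add_cancel] at h2
    rw [hTR] at h1
    linarith
  have hvp : 0 < ‖v‖ := by linarith
  -- almost invariance on the compact set
  have hQ : ∀ g ∈ Q, ‖σ (φ' g) v - v‖ ≤ 3 * η := by
    intro g hg
    obtain ⟨k, hk, hk2⟩ := Set.mem_iUnion₂.1 (ht hg)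
    have hk3 : 2 * Real.sqrt (μ {x | (cres a (cen b)).a (φ' (k * g)) x ≠ 1}).toReal ≤ η := hk2
    have e1 : φ' g = φ' k⁻¹ * φ' (k * g) := by
      rw [← map_mul, inv_mul_cancel_left]
    have e2 : ‖σ (φ' (k * g)) v - v‖ ≤ η := (F1 _).trans hk3
    have e3 : ‖σ (φ' k⁻¹) v - v‖ ≤ 2 * η := by
      have h1 := hnear1 k (Finset.mem_insert_of_mem hk)
      have h2 := hF2 (φ' k⁻¹)
      linarith
    have e4 : σ (φ' g) v - v = σ (φ' k⁻¹) (σ (φ' (k * g)) v - v) + (σ (φ' k⁻¹) v - v) := by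
      rw [e1, F4, map_sub]
      abel
    rw [e4]
    refine (norm_add_le _ _).trans ?_
    have e5 := F6 (φ' k⁻¹) (σ (φ' (k * g)) v - v)
    linarith
  -- the unit vector
  obtain ⟨c, hc⟩ : ∃ c : ℂ, c = ((‖v‖⁻¹ : ℝ) : ℂ) := ⟨_, rfl⟩
  have hcn : ‖c‖ = ‖v‖⁻¹ := by
    rw [hc, Complex.norm_real, Real.norm_eq_abs, abs_of_pos (inv_pos.2 hvp)]
  have hsc : ∀ h : cen b, ‖σ h (c • v) - c • v‖ = ‖v‖⁻¹ * ‖σ h v - v‖ := by
    intro h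
    rw [map_smul, ← smul_sub, norm_smul, hcn]
  have hrep : URep (fun g : Sp21 => σ (φ' g)) (c • v) :=
    { mul := fun g h x => by
        rw [map_mul]
        exact F4 _ _ _
      adj := fun g x y => by
        rw [map_inv]
        exact F5 _ _ _
      norm_le := fun g x => F6 _ _
      one := by
        rw [map_one, map_smul, F7]
      cont := by
        rw [tendsto_iff_norm_sub_tendsto_zero]
        have h1 := hm0.const_mul ‖v‖⁻¹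
        rw [mul_zero] at h1
        refine squeeze_zero (fun _ => norm_nonneg _) (fun g => ?_) h1
        rw [hsc]
        exact mul_le_mul_of_nonneg_left (F1 _) (inv_pos.2 hvp).le }
  have hunit : ‖c • v‖ = 1 := by
    rw [norm_smul, hcn, inv_mul_cancel₀ hvp.ne']
  have hall := hK (XVp μ R L) (fun g : Sp21 => σ (φ' g)) (c • v) hrep hunit (fun g hg => by
    show ‖σ (φ' g) (c • v) - c • v‖ ≤ δK
    rw [hsc]
    have h1 : ‖v‖⁻¹ * ‖σ (φ' g) v - v‖ ≤ ‖v‖⁻¹ * (3 * η) := mul_le_mul_of_nonneg_left (hQ g hg) (inv_pos.2 hvp).le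
    refine h1.trans ?_
    rw [inv_mul_le_iff₀ hvp]
    have h2 : δK * (N0 / 2) ≤ δK * ‖v‖ := mul_le_mul_of_nonneg_left hv1 hδK.le
    nlinarith)
  have hall2 : ∀ g : Sp21, ‖σ (φ' g) v - v‖ ≤ ‖v‖ / 8 := by
    intro g
    have h1 : ‖σ (φ' g) (c • v) - c • v‖ ≤ 1 / 8 := hall g
    rw [hsc, inv_mul_le_iff₀ hvp] at h1
    linarith
  -- the coefficient does not decay
  have hbig : ∀ g : Sp21, N0 ^ 2 / 2 ≤ ‖(inner ℂ (XTL μ Γ (zz (φ' g))) (XTR μ Γ (zz (φ' g))) : ℂ)‖ := by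
    intro g
    rw [← hF3]
    have e1 : (inner ℂ (σ (φ' g) v) (XTR μ Γ ζ) : ℂ) = inner ℂ (XTR μ Γ ζ) (XTR μ Γ ζ) +
        inner ℂ (v - XTR μ Γ ζ) (XTR μ Γ ζ) + inner ℂ (σ (φ' g) v - v) (XTR μ Γ ζ) := by
      rw [← inner_add_left, ← inner_add_left]
      congr 1
      abel
    have e2 : ‖(inner ℂ (XTR μ Γ ζ) (XTR μ Γ ζ) : ℂ)‖ = N0 ^ 2 := by
      rw [inner_self_eq_norm_sq_to_K, hTR]
      simp
    have e3 : ‖(inner ℂ (v - XTR μ Γ ζ) (XTR μ Γ ζ) : ℂ)‖ ≤ η * N0 := by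
      refine (norm_inner_le_norm _ _).trans ?_
      rw [hTR]
      exact mul_le_mul_of_nonneg_right hvT hN0p.le
    have e4 : ‖(inner ℂ (σ (φ' g) v - v) (XTR μ Γ ζ) : ℂ)‖ ≤ (N0 + η) / 8 * N0 := by
      refine (norm_inner_le_norm _ _).trans ?_
      rw [hTR]
      refine mul_le_mul_of_nonneg_right ((hall2 g).trans ?_) hN0p.le
      linarith
    have e5 : ‖(inner ℂ (XTR μ Γ ζ) (XTR μ Γ ζ) : ℂ)‖ ≤ ‖(inner ℂ (σ (φ' g) v) (XTR μ Γ ζ) : ℂ)‖ +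
        ‖(inner ℂ (v - XTR μ Γ ζ) (XTR μ Γ ζ) : ℂ)‖ + ‖(inner ℂ (σ (φ' g) v - v) (XTR μ Γ ζ) : ℂ)‖ := by
      have e6 : (inner ℂ (XTR μ Γ ζ) (XTR μ Γ ζ) : ℂ) = inner ℂ (σ (φ' g) v) (XTR μ Γ ζ) -
          inner ℂ (v - XTR μ Γ ζ) (XTR μ Γ ζ) - inner ℂ (σ (φ' g) v - v) (XTR μ Γ ζ) := by
        rw [e1]
        ring
      rw [e6]
      exact (norm_sub_le _ _).trans (add_le_add (norm_sub_le _ _) le_rfl)
    rw [e2] at e5
    nlinarith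
  -- decay
  obtain ⟨n, hn⟩ := hdec (1 / 8) (by norm_num)
  obtain ⟨k, hk⟩ := esc_mass a E h3 hp R hco b hcomp (φ g0) u w (fun n => hcomm n g0) hu hw hu1 hw1 hdisc hna n
    (ε := N0 / 4) (by positivity)
  have hkz : (opL (xmUa μ b R) (cres a (cen b)) (CRep.ext (XAU R) E)
      ((⟨φ g0, mem_cen.2 fun n => hcomm n g0⟩ : cen b) ^ k) (XPpr R (vec μ a E b)) : XUa μ R) =
      zz (φ' (g0 ^ k)⁻¹) := by
    rw [hzz]
    show _ = opL (xmUa μ b R) (cres a (cen b)) (CRep.ext (XAU R) E) (φ' (g0 ^ k)⁻¹)⁻¹ ζ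
    rw [map_inv, inv_inv, map_zpow, ← hζ]
    rfl
  rw [hkz] at hk
  have hd := xua_decay (μ := μ) (zz (φ' (g0 ^ k)⁻¹)).2 (W := R.W n) hs
    (f := fun γ => (inner ℂ (Γ.vX γ) Γ.v : ℂ)) (fun γ => by
      refine (norm_inner_le_norm _ _).trans ?_
      rw [Γ.nvX, Γ.nv, mul_one]) (δ := 1 / 8) (by norm_num) hn
  rw [← inner_XTL_XTR] at hd
  have hb2 := hbig (g0 ^ k)⁻¹
  have e7 : ‖(zz (φ' (g0 ^ k)⁻¹) : UE μ (L2 G))‖ = N0 := hzzn _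
  rw [e7] at hd
  have e8 : ‖UE.map μ (ind ℂ (R.W n)) (zz (φ' (g0 ^ k)⁻¹) : UE μ (L2 G))‖ ^ 2 ≤ (N0 / 4) ^ 2 :=
    pow_le_pow_left₀ (norm_nonneg _) hk 2
  have e9 : 0 < N0 ^ 2 := by positivity
  nlinarith

end Pool.Agent.Helper84.SPQ
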