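import Pool.Agent.Helper84.SPQ.C7
import Pool.Agent.Helper96.FR.Rge2

/-!
# Project SPQ (MP_0f6f3f_an): groups of rank at least `r` with a factor `Sp(2, 1)` (definitions)

`RankT G r`: as `RankGE` (`Helper96/FR/Rge0.lean`), and the last element `a (r - 1)` is in the image of a continuous homomorphism `φ` of `Sp(2, 1)` which commutes with the other `a i`.
`Prp f`: the homomorphism `f` is continuous and proper. `SpQ p q`: the group `Sp(p, q)`.
-/

set_option autoImplicit false

open Filter Topology Matrix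

namespace Pool.Agent.Helper84.SPQ

open Pool.Agent.Helper90.RK (NonAm)

/-- Groups of rank at least `r` with `Sp(2, 1)` in the last place. -/
def RankT (G : Type) [Group G] [TopologicalSpace G] (r : ℕ) : Prop :=
  ∃ (a u w : Fin r → G) (φ : Sp21 →* G) (g0 : Sp21), (∀ i j, a i * a j = a j * a i) ∧
    (∀ i : Fin r, (i : ℕ) = 0 → Tendsto (fun m : ℕ => a i ^ m) atTop (cocompact G)) ∧
    (∀ i : Fin r, (i : ℕ) ≠ 0 → (∀ j < i, a j * u i = u i * a j ∧ a j * w i = w i * a j) ∧
      Tendsto (fun m : ℕ => (a i ^ m)⁻¹ * u i * a i ^ m) atTop (𝓝 1) ∧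
      Tendsto (fun m : ℕ => a i ^ m * w i * (a i ^ m)⁻¹) atTop (𝓝 1) ∧
      DiscreteTopology (Subgroup.closure {u i, w i}) ∧ NonAm (Subgroup.closure {u i, w i})) ∧
    Continuous φ ∧ (∀ i : Fin r, (i : ℕ) + 1 = r → a i = φ g0) ∧
    ∀ i : Fin r, (i : ℕ) + 1 < r → ∀ x, a i * φ x = φ x * a i

/-- Continuous proper homomorphisms. -/
def Prp {A B : Type} [Group A] [TopologicalSpace A] [Group B] [TopologicalSpace B] (f : A →* B) : Prop :=
  Continuous f ∧ Tendsto f (cocompact A) (cocompact B)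

theorem Prp.comp {A B C : Type} [Group A] [TopologicalSpace A] [Group B] [TopologicalSpace B] [Group C] [TopologicalSpace C]
    {g : B →* C} {f : A →* B} (hg : Prp g) (hf : Prp f) : Prp (g.comp f) := ⟨hg.1.comp hf.1, hg.2.comp hf.2⟩

/-- the signs of the form of `Sp(1, 1)` -/
noncomputable def e11 : Unit ⊕ Unit → ℝ := Sum.elim (fun _ => -1) (fun _ => 1)

/-- the signs of the form of `Sp(p, q)` -/
noncomputable def epq (p q : ℕ) : Fin p ⊕ Fin q → ℝ := Sum.elim (fun _ => 1) (fun _ => -1)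

/-- the group `Sp(p, q)` -/
abbrev SpQ (p q : ℕ) : Type := SpJ (Fin p ⊕ Fin q) (epq p q)

/-- the group `Sp(p, q)` modulo its centre -/
abbrev PSpQ (p q : ℕ) : Type := SpQ p q ⧸ Subgroup.center (SpQ p q)

/-- `SL(2, ℝ)` -/
abbrev SL2R : Type := SpecialLinearGroup (Fin 2) ℝ

end Pool.Agent.Helper84.SPQ
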