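import Pool.Agent.Helper84.SPQ.A4
import Pool.Agent.Helper84.SPQ.D0
import Pool.Agent.Helper84.SPQ.K5
import Pool.Agent.Helper55.FR.Main

/-!
# Project SPQ, block A5: the induction with property (T) in the last step, and the main theorem

Port of `Helper55/FR` (`rank_boundX`, `rank_le_of_escape`, `full_rank_emb`).
-/

set_option autoImplicit false
set_option linter.unusedSectionVars false

open MeasureTheory Filter Topology

namespace Pool.Agent.Helper84.SPQ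

open Pool.Agent.Helper84.NI Pool.Agent.Helper84.GN Pool.Agent.Helper84.GVN Pool.Agent.Helper90.RK
open Pool.Agent.Helper96.RK Pool.Agent.Helper66.FR Pool.Agent.Helper84.FR Pool.Agent.Helper96.FR
open Pool.Agent.Helper66.RKS Pool.Agent.Helper55.FR

section Ind

variable {X : Type} [MeasurableSpace X] {μ : Measure X} [IsProbabilityMeasure μ]
variable {G : Type} [Group G] {N : ℕ} {P : PH G N}

/-- The chain obtained after `k + 1` steps. -/
theorem chainX {S : Sv P} {I : Type} (z : I → XL μ (L2 G))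
    (hz : ∀ i, ∀ᵐ y ∂μ, ‖z i y‖ ≤ 1) (V : ℕ → Set I) (k : ℕ) (hn : ∀ g ∈ V 1, ‖z g‖ = 1)
    (h0 : ∀ F : Set G, F.Finite → ∃ g ∈ V 1, ‖cl μ (ind ℂ F) (z g)‖ ^ 2 ≤ 3 / 4)
    (hesc : ∀ j, 1 ≤ j → j < k + 1 → ∀ (J : Finset (Fin N)) (c : List (Finset (Fin N))) (b : ℕ → I),
      (∀ n, b n ∈ V j) → HasComp (Pool.Agent.Helper96.RK.toReg (chStr S J c)) z hz b → ∃ β : ℝ, 0 < β ∧ ∀ m : ℕ, ∃ g ∈ V (j + 1),
        β ≤ ‖cl μ (ind ℂ (TC S (J :: c) m \ WC S (hd (J :: c)) m)) (z g)‖) :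
    ∃ (J : Finset (Fin N)) (c : List (Finset (Fin N))) (b : ℕ → I), c.length = k ∧ IsCh (J :: c) ∧ (∀ n, b n ∈ V (k + 1)) ∧
      HasComp (Pool.Agent.Helper96.RK.toReg (chStr S J c)) z hz b := by
  have key : ∀ j : ℕ, j ≤ k → ∃ c : List (Finset (Fin N)), c.length = j ∧ IsCh c ∧ ∃ β : ℝ, 0 < β ∧
      ∀ m : ℕ, ∃ g ∈ V (j + 1), β ≤ ‖cl μ (ind ℂ (TC S c m \ WC S (hd c) m)) (z g)‖ := by
    intro j
    induction j with
    | zero =>
      intro _
      exact ⟨[], rfl, trivial, 1 / 2, by norm_num, fun m => startX S hn h0 m⟩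
    | succ j ih =>
      intro hj
      obtain ⟨c, hcl, hch, β, hβ, h⟩ := ih (by omega)
      obtain ⟨J, b, hJ, hb, hne⟩ := selectX S c z hz hβ h
      obtain ⟨β', hβ', h'⟩ := hesc (j + 1) (by omega) (by omega) J c b hb hne
      exact ⟨J :: c, by rw [List.length_cons, hcl], ⟨hJ, hch⟩, β', hβ', h'⟩
  obtain ⟨c, hcl, hch, β, hβ, h⟩ := key k le_rfl
  obtain ⟨J, b, hJ, hb, hne⟩ := selectX S c z hz hβ h
  exact ⟨J, c, b, hcl, ⟨hJ, hch⟩, hb, hne⟩

end Ind

section Core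

variable {X : Type} [MeasurableSpace X] {μ : Measure X} [IsProbabilityMeasure μ]
variable {G1 G Λ : Type} [Group G1] [TopologicalSpace G1] [IsTopologicalGroup G1] [MulAction G1 X]
  [MeasurableConstSMul G1 X] [SMulInvariantMeasure G1 X μ] [Group G] [Group Λ] [Countable Λ]

theorem no_emb_core {N : ℕ} {P : PH G N} {S : Sv P} {r : ℕ} (hr : 2 ≤ r)
    (hI : ∀ T : Str S, HasCoc (Pool.Agent.Helper96.RK.toReg T))
    (hH : ∀ (J : Finset (Fin N)) (c : List (Finset (Fin N))), IsCh (J :: c) → (∀ m, (TC S (J :: c) m).Nonempty) →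
      c.length + 2 = r → HaagR (Pool.Agent.Helper96.RK.toReg (chStr S J c)))
    (E : Emb Λ G) (a : Cocy G1 X Λ)
    (hF2 : ∀ l : Λ, Tendsto (fun g : G1 => μ {x | a.a g x = l}) (cocompact G1) (𝓝 0))
    (h3 : Tendsto (fun g : G1 => μ {x | a.a g x ≠ 1}) (𝓝 1) (𝓝 0))
    (hp : ∀ F : Subgroup G1, DiscreteTopology F → Countable F ∧ ∃ p : X → Λ → F,
      (∀ (l : Λ) (s : Set F), MeasurableSet {x | p x l ∈ s}) ∧
        ∀ (f : F) (x : X) (l : Λ), p ((f : G1) • x) (a.a f x * l) = f * p x l)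
    (hG : RankT G1 r) : False := by
  obtain ⟨A, u, w, φ, g0, haa, ha0, hstep, hφ, hφ0, hφc⟩ := hG
  have hmp : ∀ g : G1, MeasurePreserving (fun x => g • x) μ μ := fun g => measurePreserving_smul g μ
  let z := zx μ a E
  have hz : ∀ g, ∀ᵐ x ∂μ, z g x = cf (E.U (a.a g (g⁻¹ • x))) := fun g => zv_apply (mea_a (a := a) g g⁻¹)
  have hz1 : ∀ i, ∀ᵐ y ∂μ, ‖z i y‖ ≤ 1 := zx_bound
  let i0 : Fin r := ⟨0, by omega⟩
  let iL : Fin r := ⟨r - 1, by omega⟩
  have hE : Esc z hz1 := esc a E h3 hp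
  have hn : ∀ g, ‖z g‖ = 1 := fun g => norm_zx g
  obtain ⟨J, c, b, hcl, hch, hb, hcomp⟩ := chainX (S := S) z hz1 (fun k => (VV A k : Set G1)) (r - 2) (fun g _ => hn g)
    (by
      intro F hF
      have h1 := tendsto_mass (μ := μ) E (f := fun m : ℕ => z (A i0 ^ m))
        (c := fun m x => a.a (A i0 ^ m) ((A i0 ^ m)⁻¹ • x)) (fun m l => (hmp _).measurable (a.meas _ l))
        (fun m => hz _) (fun l => by
          have h2 := (ENNReal.tendsto_toReal ENNReal.zero_ne_top).comp ((hF2 l).comp (ha0 i0 rfl))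
          rw [ENNReal.toReal_zero] at h2
          refine h2.congr fun m => ?_
          have h3 := (hmp (A i0 ^ m)⁻¹).measure_preimage (a.meas (A i0 ^ m) l).nullMeasurableSet
          change (μ (a.a (A i0 ^ m) ⁻¹' {l})).toReal =
            (μ ((fun x => (A i0 ^ m)⁻¹ • x) ⁻¹' (a.a (A i0 ^ m) ⁻¹' {l}))).toReal
          rw [h3]) hF.toFinset
      obtain ⟨m, hm⟩ := (h1.eventually (gt_mem_nhds (show (0 : ℝ) < 3 / 4 by norm_num))).exists
      refine ⟨A i0 ^ m, (VV A 1).pow_mem (mem_VV A i0 Nat.zero_lt_one) m, ?_⟩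
      rw [hF.coe_toFinset] at hm
      exact hm.le)
    (by
      intro k hk hkr J ch b hb hcomp
      let i : Fin r := ⟨k, by omega⟩
      have hi : (i : ℕ) ≠ 0 := by
        change k ≠ 0
        omega
      obtain ⟨hco, hu, hw, hdisc, hna⟩ := hstep i hi
      obtain ⟨β, hβ, h⟩ := hE (Pool.Agent.Helper96.RK.toReg (chStr S J ch)) (hI _) b hcomp (A i) (u i) (w i)
        (fun n => VV_comm A (fun j _ => haa j i) (hb n))
        (fun n => VV_comm A (fun j hj => (hco j (Fin.lt_def.2 hj)).1) (hb n))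
        (fun n => VV_comm A (fun j hj => (hco j (Fin.lt_def.2 hj)).2) (hb n)) hu hw hdisc hna
      refine ⟨β, hβ, fun m => ?_⟩
      obtain ⟨n, q, hnq⟩ := h (TC S (J :: ch) m) (fun n => TC_mem_FC S J ch m n) m
      refine ⟨A i ^ q * b n, ?_, hnq⟩
      exact (VV A (k + 1)).mul_mem ((VV A (k + 1)).zpow_mem (mem_VV A i (Nat.lt_succ_self k)) q)
        (VV_mono A (Nat.le_succ k) (hb n)))
  have hk : r - 2 + 1 = r - 1 := by omega
  rw [hk] at hb
  have hL : (iL : ℕ) ≠ 0 := by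
    change r - 1 ≠ 0
    omega
  obtain ⟨hco, hu, hw, hdisc, hna⟩ := hstep iL hL
  have hne := fun m => TC_nonemptyX (hz := hz1) (b := b) hcomp m
  have hA : A iL = φ g0 := hφ0 iL (by change r - 1 + 1 = r; omega)
  rw [hA] at hu hw
  refine no_haag a E h3 hp _ (hI _) (hH J c hch hne (by omega)) b hcomp φ hφ
    (fun n x => VV_comm A (fun j hj => hφc j (by omega) x) (hb n)) g0 (u iL) (w iL)
    (fun n => VV_comm A (fun j hj => (hco j (Fin.lt_def.2 hj)).1) (hb n))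
    (fun n => VV_comm A (fun j hj => (hco j (Fin.lt_def.2 hj)).2) (hb n)) hu hw hdisc hna

end Core

section Main

variable {G1 : Type} [Group G1] [TopologicalSpace G1] [IsTopologicalGroup G1] [LocallyCompactSpace G1]
  [SecondCountableTopology G1] [T2Space G1] {Γ1 : Subgroup G1} {Γ2 : Type} [Group Γ2] {r N : ℕ}

theorem no_emb (hL : Pool.Agent.Helper96.FR.Lattice Γ1) (hr : 2 ≤ r) (hG : RankT G1 r) (ρ : PRep Γ2 N) (hρ : Class2 ρ r)
    (E : Emb Γ1 Γ2) : False := by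
  obtain ⟨S⟩ := nonempty_sv ρ.ph
  have hd : DiscreteTopology Γ1 := hL.1
  have hcount : Countable Γ1 := countable_of_discrete Γ1
  obtain ⟨X, mX, act, μ, hμ, c, hmp, hme, hmul, hF2, hF3, hF4⟩ := exists_cocycle Γ1 hL
  have i1 : MeasurableConstSMul G1 X := ⟨fun g => (hmp g).measurable⟩
  have i2 : SMulInvariantMeasure G1 X μ := ⟨fun g s hs => (hmp g).measure_preimage hs.nullMeasurableSet⟩
  let a : Cocy G1 X Γ1 := ⟨c, fun h l => hme h {l}, hmul⟩
  exact no_emb_core (S := S) (a := a) hr (fun T => hasCoc T) (fun J c hch hne hl => haag_class2 ρ hρ S hch hne hl) E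
    hF2 hF3 (fun F hF => ⟨countable_of_discrete F, hF4 F hF⟩) hG

/-- No trace preserving homomorphism, no isomorphism. -/
theorem spq_main (hL : Pool.Agent.Helper96.FR.Lattice Γ1) (hr : 2 ≤ r) (hG : RankT G1 r) (ρ : PRep Γ2 N) (hρ : Class2 ρ r) :
    (¬ ∃ θ : LH Γ1 →⋆ₐ[ℂ] LH Γ2, ∀ x, (θ x).tr = x.tr) ∧ (IsICC Γ1 → ¬ IsoL Γ1 Γ2) := by
  constructor
  · rintro ⟨θ, hτ⟩
    refine no_emb hL hr hG ρ hρ (homEmb (((bridge Γ2).toStarAlgHom.comp θ).comp (bridge Γ1).symm.toStarAlgHom) fun x => ?_)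
    have h1 := hτ ((bridge Γ1).symm x)
    change (θ ((bridge Γ1).symm x)).coeff 1 = ((bridge Γ1).symm x).coeff 1 at h1
    rw [← bridge_coeff, ← bridge_coeff] at h1
    exact h1
  · rintro hicc ⟨e⟩
    let e' : LG Γ1 ≃⋆ₐ[ℂ] LG Γ2 := (bridge Γ1).symm.trans (e.trans (bridge Γ2))
    exact no_emb hL hr hG ρ hρ (homEmb e'.toStarAlgHom fun x => Pool.Agent.Helper84.TU.tr_iso hicc e' x)

end Main

end Pool.Agent.Helper84.SPQ
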