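import Pool.Agent.Helper84.GN.I1
import Pool.Agent.Helper96.RK.Ty3

/-!
# Project SPQ (MP_0f6f3f_an), part B: Haagerup property of the strata (definitions)

`HaagR R`: over the region there are unitary cocycles whose two sections are close on `W n0` and orthogonal in the limit outside the `W n`.
`Bk b i0`: the block of the index `i0`; `res`: restriction of matrices to this block. `HH f`: invertible matrices with `f A = 0`; `IsG f`: this is a group, stable under scalars of modulus one.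
`Mdl f L`: unitary representation of `HH f` with a vector `v` fixed by the matrices which are multiples of unitary matrices. `Gau T i0 M f`: unitary changes of bases (gauge) `κ γ` of the block of `i0` such that in these
bases the Levi cocycle of the stratum `T` is asymptotically in `HH f`, and the singular value matrix `S.X γ` is in `HH f`.
-/

set_option autoImplicit false

open Filter Topology Matrix

namespace Pool.Agent.Helper84.SPQ

open NI GN Pool.Agent.Helper90.RK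

/-- The Haagerup property of a region. -/
def HaagR {G : Type} [Group G] (R : Reg G) : Prop :=
  ∀ (n0 : ℕ) (ε : ℝ), 0 < ε → ∃ (L : Type) (_ : NormedAddCommGroup L) (_ : InnerProductSpace ℂ L) (_ : CompleteSpace L)
    (Γ : Coc R L) (s : Set G), (∀ n, s ∈ R.F n) ∧ (∀ γ ∈ s, γ ∈ R.W n0 → ‖Γ.vX γ - Γ.v‖ ≤ ε) ∧
      ∀ δ : ℝ, 0 < δ → ∃ n, ∀ γ ∈ s, γ ∉ R.W n → ‖(inner ℂ (Γ.vX γ) Γ.v : ℂ)‖ ≤ δ

section Block

variable {N : ℕ}

/-- The block of `i0`. -/
abbrev Bk (b : Fin N → ℕ) (i0 : Fin N) : Type := {i : Fin N // b i = b i0}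

/-- The restriction of a matrix to the block of `i0`. -/
def res (b : Fin N → ℕ) (i0 : Fin N) (A : MN N) : Matrix (Bk b i0) (Bk b i0) ℂ :=
  A.submatrix Subtype.val Subtype.val

end Block

section Model

variable {M : Type} [Fintype M] [DecidableEq M]

/-- Invertible matrices with `f A = 0`. -/
def HH (f : Matrix M M ℂ → ℝ) : Set (Matrix M M ℂ) := {A | f A = 0 ∧ A.det ≠ 0}

/-- `HH f` is a group, stable under scalars of modulus one. -/
structure IsG (f : Matrix M M ℂ → ℝ) : Prop where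
  cont : Continuous f
  one : f 1 = 0
  mul : ∀ A ∈ HH f, ∀ B ∈ HH f, f (A * B) = 0
  inv : ∀ A ∈ HH f, f A⁻¹ = 0
  smul : ∀ (c : ℂ), ‖c‖ = 1 → ∀ A ∈ HH f, f (c • A) = 0

/-- Unitary representation of `HH f` with an invariant vector. -/
structure Mdl (f : Matrix M M ℂ → ℝ) (L : Type) [NormedAddCommGroup L] [InnerProductSpace ℂ L] where
  /-- the representation -/
  π : Matrix M M ℂ → (L ≃ₗᵢ[ℂ] L)
  mul : ∀ A ∈ HH f, ∀ B ∈ HH f, ∀ w, π (A * B) w = π A (π B w)
  scal : ∀ (c : ℂ), ∀ A ∈ HH f, c • A ∈ HH f → π (c • A) = π A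
  cont : ∀ w, ContinuousOn (fun A => π A w) (HH f)
  /-- the invariant unit vector -/
  v : L
  nv : ‖v‖ = 1
  inv : ∀ A ∈ HH f, (∃ c : ℝ, Aᴴ * A = (c : ℂ) • (1 : Matrix M M ℂ)) → π A v = v

/-- The compact subsets of `HH f`. -/
def KH (f : Matrix M M ℂ → ℝ) (R r : ℝ) : Set (Matrix M M ℂ) :=
  {A | f A = 0 ∧ (∀ i j, ‖A i j‖ ≤ R) ∧ r ≤ ‖A.det‖}

variable {G : Type} [Group G] {N : ℕ} {P : PH G N} {S : Sv P}

/-- The matrix `A` (on the block of `i0`) in the gauges `k`, `k'`. -/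
def gg {b : Fin N → ℕ} {i0 : Fin N} (k k' : Matrix (Bk b i0) M ℂ) (A : MN N) : Matrix M M ℂ := kᴴ * res b i0 A * k'

/-- A gauge in which the Levi cocycle is asymptotically in `HH f`. -/
structure Gau (T : Str S) (i0 : Fin N) (M : Type) [Fintype M] [DecidableEq M] (f : Matrix M M ℂ → ℝ) where
  /-- the changes of bases -/
  κ : G → Matrix (Bk T.b i0) M ℂ
  u1 : ∀ γ, (κ γ)ᴴ * κ γ = 1
  u2 : ∀ γ, κ γ * (κ γ)ᴴ = 1
  /-- where the singular values are as expected -/
  good : Set G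
  hgood : ∀ n, good ∈ T.F n
  hX : ∀ γ ∈ good, f (gg (κ γ) (κ γ) (S.X γ)) = 0
  hXb : ∀ n, ∃ R r : ℝ, 0 < r ∧ ∀ γ ∈ T.W n, γ ∈ good → ∃ z : ℂ, z ≠ 0 ∧ z • gg (κ γ) (κ γ) (S.X γ) ∈ KH f R r
  hC : ∀ (g h : G) (n : ℕ), Tendsto (fun γ => f (gg (κ γ) (κ (g⁻¹ * γ * h)) (T.C g h γ))) (T.F n) (𝓝 0)

/-- The matrix `S.X γ` in the gauge. -/
noncomputable def Gau.XX {T : Str S} {i0 : Fin N} {f : Matrix M M ℂ → ℝ} (Ga : Gau T i0 M f) (γ : G) : Matrix M M ℂ :=
  gg (Ga.κ γ) (Ga.κ γ) (S.X γ)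

end Model

end Pool.Agent.Helper84.SPQ
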