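import Pool.Agent.Helper84.SPQ.B0
import Pool.Agent.Helper84.GN.K2
import Pool.Agent.Helper84.NI.FS

/-!
# Project SPQ, block B1: the representation attached to a block of size two

`fib_pair`. PROOF. `NI.exists_fib_s` (file `NI/FS.lean`; structure `NI.Fib` in `NI/Wall.lean`) gives `L0`, `Φ0 : NI.Fib L0` with `⟪v, Φ0.π C v⟫ = (2 ‖det C‖ / ns C)^s` for `C : M2`, `det C ≠ 0`.
Put `π C = Φ0.π (blk2 C (i, j))`, `v = Φ0.v`. For `C, E ∈ GLb b`: `blk2 (C E) = blk2 C * blk2 E` (the sum over `k` in `(C E) x y`, `x, y ∈ {i, j}`, is over `k` with `b k = b i`, i.e. `k ∈ {i, j}` by `hb`; see `blk2_mul24` in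
`GN/K2.lean`, private: copy it), `det (blk2 C) ≠ 0` (from `blk2 C⁻¹ * blk2 C = 1`, see `blk2_det24`), block scalars restrict to scalars, unitary block diagonal matrices to unitary matrices (`kb_unit24`), `C ↦ blk2 C` is continuous.
-/

set_option autoImplicit false

open Filter Topology Matrix

namespace Pool.Agent.Helper84.SPQ

open NI GN Pool.Agent.Helper90.RK

section h38

variable {N : ℕ} {b : Fin N → ℕ} {i j : Fin N}

private lemma off38 {A : MN N} (hA : D b A = A) (x k : Fin N) (h : b x ≠ b k) : A x k = 0 := by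
  have h1 := congrFun (congrFun hA x) k
  rw [D_apply, if_neg h] at h1
  exact h1.symm

private lemma mul38 (hij : i ≠ j) (hb : ∀ k, b k = b i ↔ k = i ∨ k = j) {A : MN N} (hA : D b A = A)
    (B : MN N) : blk2 (A * B) (i, j) = blk2 A (i, j) * blk2 B (i, j) := by
  have hbj : b j = b i := (hb j).2 (Or.inr rfl)
  have key : ∀ x y : Fin N, b x = b i → (A * B) x y = A x i * B i y + A x j * B j y := by
    intro x y hx
    rw [Matrix.mul_apply, ← Finset.sum_pair hij (f := fun k => A x k * B k y)]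
    symm
    refine Finset.sum_subset (Finset.subset_univ _) fun k _ hk => ?_
    rw [Finset.mem_insert, Finset.mem_singleton] at hk
    have hbk : b x ≠ b k := fun h => hk ((hb k).1 (by rw [← h, hx]))
    rw [off38 hA x k hbk, zero_mul]
  ext x y
  fin_cases x <;> fin_cases y <;>
    simp only [blk2, Matrix.mul_apply, Fin.sum_univ_two, Fin.zero_eta, Fin.mk_one, Matrix.of_apply,
      Matrix.cons_val', Matrix.cons_val_zero, Matrix.cons_val_one, Matrix.cons_val_fin_one] <;>
    rw [← Matrix.mul_apply]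
  · exact key _ _ rfl
  · exact key _ _ rfl
  · exact key _ _ hbj
  · exact key _ _ hbj

private lemma one38 (hij : i ≠ j) : blk2 (1 : MN N) (i, j) = 1 := by
  ext x y
  fin_cases x <;> fin_cases y <;> simp [blk2, hij, hij.symm]

private lemma det38 (hij : i ≠ j) (hb : ∀ k, b k = b i ↔ k = i ∨ k = j) {A : MN N} (hA : A ∈ GLb b) :
    (blk2 A (i, j)).det ≠ 0 := by
  intro h
  have h2 : blk2 A⁻¹ (i, j) * blk2 A (i, j) = 1 := by
    rw [← mul38 hij hb (GLb_inv b hA).1 A, Matrix.nonsing_inv_mul _ (isUnit_iff_ne_zero.2 hA.2),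
      one38 hij]
  have h1 := congrArg Matrix.det h2
  rw [Matrix.det_mul, h, mul_zero, Matrix.det_one] at h1
  exact zero_ne_one h1

private lemma scal38 (hb : ∀ k, b k = b i ↔ k = i ∨ k = j) {z : Fin N → ℂ}
    (hz : IsBs b z) (C : MN N) : blk2 (diagonal z * C) (i, j) = z i • blk2 C (i, j) := by
  have h3 : z j = z i := hz.2 _ _ ((hb j).2 (Or.inr rfl))
  ext x y
  fin_cases x <;> fin_cases y <;> simp [blk2, Matrix.diagonal_mul, h3]

private lemma unit38 (hij : i ≠ j) (hb : ∀ k, b k = b i ↔ k = i ∨ k = j) {k : MN N} (hk : k ∈ GLb b)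
    (hU : IsU k) : IsU (blk2 k (i, j)) := by
  have e1 : (blk2 k (i, j))ᴴ = blk2 kᴴ (i, j) := by
    ext x y
    fin_cases x <;> fin_cases y <;> simp [blk2, Matrix.conjTranspose_apply]
  have hks : D b kᴴ = kᴴ := by rw [D_star, hk.1]
  unfold IsU
  rw [e1, ← mul38 hij hb hks k]
  have : kᴴ * k = 1 := hU
  rw [this, one38 hij]

private lemma cont38 (p : Fin N × Fin N) : Continuous fun C : MN N => blk2 C p := by
  refine continuous_matrix fun x y => ?_
  fin_cases x <;> fin_cases y
  · exact continuous_id.matrix_elem p.1 p.1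
  · exact continuous_id.matrix_elem p.1 p.2
  · exact continuous_id.matrix_elem p.2 p.1
  · exact continuous_id.matrix_elem p.2 p.2

end h38

theorem fib_pair {N : ℕ} (b : Fin N → ℕ) {i j : Fin N} (hij : i ≠ j) (hb : ∀ k, b k = b i ↔ k = i ∨ k = j) (s : ℝ)
    (hs : 0 < s) : ∃ (L : Type) (_ : NormedAddCommGroup L) (_ : InnerProductSpace ℂ L) (_ : CompleteSpace L)
      (Φ : Pool.Agent.Helper90.RK.Fib b L), ∀ C ∈ GLb b, inner ℂ Φ.v (Φ.π C Φ.v) =
        (((2 * ‖(blk2 C (i, j)).det‖ / ns (blk2 C (i, j))) ^ s : ℝ) : ℂ) := by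
  obtain ⟨L, i1, i2, i3, Φ0, h0⟩ := exists_fib_s s hs
  refine ⟨L, i1, i2, i3, ?_⟩
  let Φ : Pool.Agent.Helper90.RK.Fib b L :=
    { π := fun C => Φ0.π (blk2 C (i, j))
      mul := by
        intro C E hC hE w
        rw [mul38 hij hb hC.1 E]
        exact Φ0.mul _ _ (det38 hij hb hC) (det38 hij hb hE) w
      scal := by
        intro z C hz hC
        rw [scal38 hb hz C]
        exact Φ0.scal _ _ (hz.1 _) (det38 hij hb hC)
      cont := fun w => ContinuousOn.comp (Φ0.cont w) (cont38 (i, j)).continuousOn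
        fun C hC => det38 hij hb hC
      v := Φ0.v
      nv := Φ0.nv
      inv := fun k hk hkU => Φ0.inv _ (unit38 hij hb hk hkU) }
  exact ⟨Φ, fun C hC => h0 _ (det38 hij hb hC)⟩

end Pool.Agent.Helper84.SPQ
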