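import Pool.Agent.Helper84.SPQ.B0

/-!
# Project SPQ, block B3: soft facts on matrices asymptotically in `HH f`

`isCompact_KH`: closed and bounded (see `isCompact_Kb` in `Helper90/RK/DM.lean`).
`exists_pr`. PROOF. Let `d` be a metric of the topology of matrices, for example `d A B = √(ns (A - B))` or the maximum of the `‖A i j - B i j‖` (`Matrix.normedAddCommGroup` as a local instance). For `A ∉ HH f` choose `pr A ∈ HH f`
(nonempty: `1`) with `d A (pr A) ≤ inf_{B ∈ HH f} d A B + e(A)`, where `e(A) = |f A|` if `f A ≠ 0` and `e(A) = 0`... it is simpler to choose `e(A) > 0` as follows: `e(A) = infDist A (HH f)` if this is positive, and if it is zero `A` is in the closure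
of `HH f`, `f A = 0` and so `det A = 0` as `A ∉ HH f`: then take any element of `HH f`. So `d A (pr A) ≤ 2 infDist A (HH f)` for all `A` with `det A ≠ 0`. `(c)`: it is enough to show `infDist (A x) (HH f) → 0` along `F`: otherwise there are an ultrafilter
`u ≤ F` and `η > 0` with `infDist (A x) (HH f) ≥ η` for `u`-almost all `x`; `A x` is in a compact set for `u`-almost all `x`, so it converges to some `A0` with `f A0 = 0`, `‖det A0‖ ≥ r`: `A0 ∈ HH f` and `infDist (A x) (HH f) ≤ d (A x) A0 → 0`.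
`ev_KH`: if `A x` is eventually in the bounded set and `A x - B x → 0`, `f (B x) = 0`, then eventually `B x ∈ KH f (R + 1) (r / 2)` (`det` is uniformly continuous on bounded sets; or by ultrafilters).
`mdl_sub`: two families in `KH f R r` whose difference tends to `0`: `π (A x) w - π (B x) w → 0` (as `fib_tendsto_sub` in `GN/I0.lean`: it suffices to test on ultrafilters, `A x → A0`, `B x → A0 ∈ KH f R r`, continuity of `π` on `HH f`).
`mdl_v`: if `B x ∈ KH f R r`, `B x - μ x • U x → 0`, `(U x)ᴴ (U x) → 1`, then `π (B x) v → v`: for an ultrafilter `u ≤ F`: `B x → B0 ∈ KH f R r`; eventually `U x` has bounded entries (`‖U i j‖² ≤ (Uᴴ U) j j`), `U x → U0` unitary; `‖μ x‖` is eventually bounded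
(`‖μ x‖² U(x)ᴴ U(x) = B(x)ᴴ B(x) + o(1)(1 + ‖μ x‖)`, compare the entries `(0, 0)`; if `M` is empty everything is trivial), so `μ x → μ0` and `B0 = μ0 U0`, `B0ᴴ B0 = |μ0|² 1`: `π B0 v = v` by `inv`.
-/

set_option autoImplicit false

open Filter Topology Matrix

namespace Pool.Agent.Helper84.SPQ

open NI GN Pool.Agent.Helper90.RK

variable {M : Type} [Fintype M] [DecidableEq M] {f : Matrix M M ℂ → ℝ}

private theorem compact_bdd_h12 (R : ℝ) : IsCompact {A : Matrix M M ℂ | ∀ i j, ‖A i j‖ ≤ R} := by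
  have h : {A : Matrix M M ℂ | ∀ i j, ‖A i j‖ ≤ R} =
      Set.pi Set.univ fun _ : M => Set.pi Set.univ fun _ : M => Metric.closedBall (0 : ℂ) R := by
    ext A
    constructor
    · intro hA i _ j _
      rw [mem_closedBall_zero_iff]
      exact hA i j
    · intro hA i j
      have h1 := hA i (Set.mem_univ i) j (Set.mem_univ j)
      rwa [mem_closedBall_zero_iff] at h1
  rw [h]
  exact isCompact_univ_pi fun i => isCompact_univ_pi fun j => isCompact_closedBall 0 R

private theorem closed_det_h12 (r : ℝ) : IsClosed {A : Matrix M M ℂ | r ≤ ‖A.det‖} :=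
  isClosed_le continuous_const (continuous_id.matrix_det).norm

theorem isCompact_KH (hf : Continuous f) (R r : ℝ) : IsCompact (KH f R r) := by
  refine (compact_bdd_h12 R).of_isClosed_subset ?_ (fun C hC => hC.2.1)
  have h1 : IsClosed {C : Matrix M M ℂ | f C = 0} := isClosed_eq hf continuous_const
  exact h1.inter ((compact_bdd_h12 R).isClosed.inter (closed_det_h12 r))

theorem KH_sub {R r : ℝ} (hr : 0 < r) : KH f R r ⊆ HH f := by
  rintro C ⟨h1, -, h3⟩
  refine ⟨h1, fun h => ?_⟩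
  rw [h, norm_zero] at h3
  linarith

/-- limits along an ultrafilter of bounded families -/
private theorem lim_bdd_h12 {α : Type} (u : Ultrafilter α) {A : α → Matrix M M ℂ} {R r : ℝ}
    (h : ∀ᶠ x in (u : Filter α), (∀ i j, ‖A x i j‖ ≤ R) ∧ r ≤ ‖(A x).det‖) :
    ∃ A0 : Matrix M M ℂ, (∀ i j, ‖A0 i j‖ ≤ R) ∧ r ≤ ‖A0.det‖ ∧ Tendsto A u (𝓝 A0) := by
  have hc : IsCompact ({A : Matrix M M ℂ | ∀ i j, ‖A i j‖ ≤ R} ∩ {A : Matrix M M ℂ | r ≤ ‖A.det‖}) :=
    (compact_bdd_h12 R).inter_right (closed_det_h12 r)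
  obtain ⟨A0, h0, h1⟩ := hc.ultrafilter_le_nhds (u.map A) (by
    rw [le_principal_iff]
    exact h)
  exact ⟨A0, h0.1, h0.2, h1⟩

private theorem lim_KH_h12 (hf : Continuous f) {α : Type} (u : Ultrafilter α) {A : α → Matrix M M ℂ} {R r : ℝ}
    (h : ∀ᶠ x in (u : Filter α), A x ∈ KH f R r) : ∃ A0 ∈ KH f R r, Tendsto A u (𝓝 A0) := by
  obtain ⟨A0, h0, h1⟩ := (isCompact_KH hf R r).ultrafilter_le_nhds (u.map A) (by
    rw [le_principal_iff]
    exact h)
  exact ⟨A0, h0, h1⟩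

/-- the distance of matrices -/
private noncomputable def dm_h12 (A B : Matrix M M ℂ) : ℝ := @dist (M → M → ℂ) _ A B

private theorem dm_entry_h12 (A B : Matrix M M ℂ) (i j : M) : ‖(A - B) i j‖ ≤ dm_h12 A B := by
  have h1 : dist (A i j) (B i j) ≤ dist (A i) (B i) := dist_le_pi_dist (A i) (B i) j
  have h2 : dist (A i) (B i) ≤ dm_h12 A B := dist_le_pi_dist (X := fun _ : M => M → ℂ) A B i
  rw [Matrix.sub_apply, ← dist_eq_norm]
  exact h1.trans h2

private theorem dm_tendsto_h12 {α : Type} {l : Filter α} {A : α → Matrix M M ℂ} {A0 : Matrix M M ℂ}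
    (h : Tendsto A l (𝓝 A0)) : Tendsto (fun x => dm_h12 (A x) A0) l (𝓝 0) := by
  have h1 : Tendsto (fun x => (A x : M → M → ℂ)) l (𝓝 (A0 : M → M → ℂ)) := h
  exact tendsto_iff_dist_tendsto_zero.mp h1

private theorem dm_self_h12 (A : Matrix M M ℂ) : dm_h12 A A = 0 := dist_self (α := M → M → ℂ) A

private theorem dm_nonneg_h12 (A B : Matrix M M ℂ) : 0 ≤ dm_h12 A B := @dist_nonneg (M → M → ℂ) _ A B

private theorem tendsto_zero_of_entries_h12 {α : Type} {l : Filter α} {A : α → Matrix M M ℂ}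
    (h : ∀ i j, Tendsto (fun x => A x i j) l (𝓝 0)) : Tendsto A l (𝓝 0) := by
  refine tendsto_pi_nhds.2 fun i => tendsto_pi_nhds.2 fun j => ?_
  exact h i j

private theorem exists_near_h12 (hf : IsG f) {A : Matrix M M ℂ} (hA : A.det ≠ 0) :
    ∃ B ∈ HH f, ∀ B' ∈ HH f, dm_h12 A B ≤ 2 * dm_h12 A B' := by
  by_cases h : ∃ δ : ℝ, 0 < δ ∧ ∀ B ∈ HH f, δ ≤ dm_h12 A B
  · -- the infimum is positive
    have hne : ((fun B => dm_h12 A B) '' HH f).Nonempty := by
      refine ⟨_, 1, ⟨hf.one, ?_⟩, rfl⟩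
      rw [Matrix.det_one]
      exact one_ne_zero
    obtain ⟨δ, hδ, hB⟩ := h
    have hbdd : BddBelow ((fun B => dm_h12 A B) '' HH f) := by
      refine ⟨0, ?_⟩
      rintro _ ⟨B, _, rfl⟩
      exact dm_nonneg_h12 A B
    have hpos : 0 < sInf ((fun B => dm_h12 A B) '' HH f) := by
      refine lt_of_lt_of_le hδ (le_csInf hne ?_)
      rintro _ ⟨B, hBm, rfl⟩
      exact hB B hBm
    obtain ⟨_, ⟨B, hBm, rfl⟩, hlt⟩ := exists_lt_of_csInf_lt hne
      (show sInf ((fun B => dm_h12 A B) '' HH f) < 2 * sInf ((fun B => dm_h12 A B) '' HH f) by linarith)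
    refine ⟨B, hBm, fun B' hB' => ?_⟩
    have h1 : sInf ((fun B => dm_h12 A B) '' HH f) ≤ dm_h12 A B' := csInf_le hbdd ⟨B', hB', rfl⟩
    have h2 : dm_h12 A B < 2 * sInf ((fun B => dm_h12 A B) '' HH f) := hlt
    linarith
  · -- `A` is in the closure
    push Not at h
    have hsel : ∀ n : ℕ, ∃ B ∈ HH f, dm_h12 A B < 1 / ((n : ℝ) + 1) := fun n =>
      h (1 / ((n : ℝ) + 1)) (by positivity)
    choose B hB hBd using hsel
    have h1 : Tendsto B atTop (𝓝 A) := by
      have h2 : Tendsto (fun n => dm_h12 (B n) A) atTop (𝓝 0) := by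
        refine squeeze_zero (fun n => dm_nonneg_h12 _ _) (fun n => ?_)
          (tendsto_one_div_add_atTop_nhds_zero_nat (𝕜 := ℝ))
        have h3 := (hBd n).le
        have h4 : dm_h12 (B n) A = dm_h12 A (B n) := @dist_comm (M → M → ℂ) _ (B n) A
        rw [h4]
        exact h3
      exact (tendsto_iff_dist_tendsto_zero (α := M → M → ℂ)).mpr h2
    have hfA : f A = 0 := by
      have h2 : Tendsto (fun n => f (B n)) atTop (𝓝 (f A)) := (hf.cont.tendsto A).comp h1
      have h3 : (fun n => f (B n)) = fun _ => (0 : ℝ) := by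
        funext n
        exact (hB n).1
      rw [h3] at h2
      exact (tendsto_nhds_unique h2 tendsto_const_nhds)
    refine ⟨A, ⟨hfA, hA⟩, fun B' _ => ?_⟩
    rw [dm_self_h12]
    have := dm_nonneg_h12 A B'
    linarith

theorem exists_pr (hf : IsG f) : ∃ pr : Matrix M M ℂ → Matrix M M ℂ, (∀ A, pr A ∈ HH f) ∧ (∀ A ∈ HH f, pr A = A) ∧
    ∀ {α : Type} (F : Filter α) (A : α → Matrix M M ℂ) (R r : ℝ), 0 < r → (∀ᶠ x in F, (∀ i j, ‖A x i j‖ ≤ R) ∧ r ≤ ‖(A x).det‖) →
      Tendsto (fun x => f (A x)) F (𝓝 0) → Tendsto (fun x => A x - pr (A x)) F (𝓝 0) := by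
  classical
  have h1 : (1 : Matrix M M ℂ) ∈ HH f := by
    refine ⟨hf.one, ?_⟩
    rw [Matrix.det_one]
    exact one_ne_zero
  have hex : ∀ A : Matrix M M ℂ, ∃ B ∈ HH f, (A ∈ HH f → B = A) ∧
      (A.det ≠ 0 → ∀ B' ∈ HH f, dm_h12 A B ≤ 2 * dm_h12 A B') := by
    intro A
    by_cases hA : A ∈ HH f
    · refine ⟨A, hA, fun _ => rfl, fun _ B' _ => ?_⟩
      rw [dm_self_h12]
      have := dm_nonneg_h12 A B'
      linarith
    · by_cases hd : A.det = 0
      · exact ⟨1, h1, fun h => absurd h hA, fun h => absurd hd h⟩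
      · obtain ⟨B, hB, hB2⟩ := exists_near_h12 hf hd
        exact ⟨B, hB, fun h => absurd h hA, fun _ => hB2⟩
  choose pr hpr1 hpr2 hpr3 using hex
  refine ⟨pr, hpr1, fun A hA => hpr2 A hA, ?_⟩
  intro α F A R r hr hAb hfA
  have hdet : ∀ᶠ x in F, (A x).det ≠ 0 := hAb.mono fun x hx h0 => by
    have h2 := hx.2
    rw [h0, norm_zero] at h2
    linarith
  have key : Tendsto (fun x => dm_h12 (A x) (pr (A x))) F (𝓝 0) := by
    rw [tendsto_iff_ultrafilter]
    intro u hu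
    obtain ⟨A0, hA0, hA0d, hlim⟩ := lim_bdd_h12 u (hAb.filter_mono hu)
    have hfA0 : f A0 = 0 :=
      tendsto_nhds_unique ((hf.cont.tendsto A0).comp hlim) (hfA.mono_left hu)
    have hA0H : A0 ∈ HH f := by
      refine ⟨hfA0, fun h0 => ?_⟩
      rw [h0, norm_zero] at hA0d
      linarith
    have h2 : Tendsto (fun x => 2 * dm_h12 (A x) A0) u (𝓝 0) := by
      have h3 := (dm_tendsto_h12 hlim).const_mul (2 : ℝ)
      rwa [mul_zero] at h3
    refine squeeze_zero' (Eventually.of_forall fun x => dm_nonneg_h12 _ _) ?_ h2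
    filter_upwards [hdet.filter_mono hu] with x hx
    exact hpr3 (A x) hx A0 hA0H
  refine tendsto_zero_of_entries_h12 fun i j => ?_
  rw [tendsto_zero_iff_norm_tendsto_zero]
  exact squeeze_zero (fun x => norm_nonneg _) (fun x => dm_entry_h12 (A x) (pr (A x)) i j) key

private theorem entry_tendsto_h12 {α : Type} {l : Filter α} {A : α → Matrix M M ℂ} {A0 : Matrix M M ℂ}
    (h : Tendsto A l (𝓝 A0)) (i j : M) : Tendsto (fun x => A x i j) l (𝓝 (A0 i j)) :=
  tendsto_pi_nhds.1 (tendsto_pi_nhds.1 h i) j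

theorem ev_KH {α : Type} {F : Filter α} {A B : α → Matrix M M ℂ} {R r : ℝ} (hr : 0 < r)
    (h : ∀ᶠ x in F, (∀ i j, ‖A x i j‖ ≤ R) ∧ r ≤ ‖(A x).det‖) (hB : ∀ x, f (B x) = 0)
    (h1 : Tendsto (fun x => A x - B x) F (𝓝 0)) : ∀ᶠ x in F, B x ∈ KH f (R + 1) (r / 2) := by
  have h2 : ∀ i j : M, ∀ᶠ x in F, ‖(A x - B x) i j‖ < 1 := by
    intro i j
    have h3 := (entry_tendsto_h12 h1 i j).norm
    rw [Matrix.zero_apply, norm_zero] at h3
    exact h3.eventually (gt_mem_nhds zero_lt_one)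
  have h4 : ∀ᶠ x in F, r / 2 < ‖(B x).det‖ := by
    change {x | r / 2 < ‖(B x).det‖} ∈ F
    rw [mem_iff_ultrafilter]
    intro u hu
    obtain ⟨A0, -, hA0d, hlim⟩ := lim_bdd_h12 u (h.filter_mono hu)
    have h5 : Tendsto B u (𝓝 A0) := by
      have h6 := hlim.sub (h1.mono_left hu)
      rw [sub_zero] at h6
      refine h6.congr fun x => ?_
      abel
    have hc : Continuous fun C : Matrix M M ℂ => ‖C.det‖ := (continuous_id.matrix_det).norm
    have h7 : Tendsto (fun x => ‖(B x).det‖) u (𝓝 ‖A0.det‖) := (hc.tendsto A0).comp h5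
    exact h7.eventually (lt_mem_nhds (by linarith))
  filter_upwards [h, eventually_all.2 fun i => eventually_all.2 fun j => h2 i j, h4] with x hx hx2 hx4
  refine ⟨hB x, fun i j => ?_, hx4.le⟩
  have h5 : B x i j = A x i j - (A x - B x) i j := by
    rw [Matrix.sub_apply]
    ring
  rw [h5]
  exact (norm_sub_le _ _).trans (add_le_add (hx.1 i j) (hx2 i j).le)

variable {L : Type} [NormedAddCommGroup L] [InnerProductSpace ℂ L] (Mo : Mdl f L)

theorem mdl_compact (hf : Continuous f) (w : L) {R r : ℝ} (hr : 0 < r) : IsCompact ((fun A => Mo.π A w) '' KH f R r) :=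
  (isCompact_KH hf R r).image_of_continuousOn ((Mo.cont w).mono (KH_sub hr))

private theorem mdl_cont_h12 {α : Type} {l : Filter α} {A : α → Matrix M M ℂ} {A0 : Matrix M M ℂ} {R r : ℝ}
    (hr : 0 < r) (hA : ∀ᶠ a in l, A a ∈ KH f R r) (h0 : A0 ∈ KH f R r) (h : Tendsto A l (𝓝 A0)) (w : L) :
    Tendsto (fun a => Mo.π (A a) w) l (𝓝 (Mo.π A0 w)) := by
  have h1 : Tendsto A l (𝓝[HH f] A0) :=
    tendsto_nhdsWithin_iff.2 ⟨h, hA.mono fun a ha => KH_sub hr ha⟩
  have h2 : ContinuousWithinAt (fun C => Mo.π C w) (HH f) A0 :=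
    Mo.cont w A0 (KH_sub hr h0)
  exact Tendsto.comp h2 h1

theorem mdl_sub (hf : Continuous f) {α : Type} {F : Filter α} {A B : α → Matrix M M ℂ} {R r : ℝ} (hr : 0 < r)
    (hA : ∀ᶠ x in F, A x ∈ KH f R r) (hB : ∀ᶠ x in F, B x ∈ KH f R r)
    (h : Tendsto (fun x => A x - B x) F (𝓝 0)) (w : L) : Tendsto (fun x => Mo.π (A x) w - Mo.π (B x) w) F (𝓝 0) := by
  rw [tendsto_iff_ultrafilter]
  intro u hu
  obtain ⟨A0, hA0, hAl⟩ := lim_KH_h12 hf u (hA.filter_mono hu)
  obtain ⟨B0, hB0, hBl⟩ := lim_KH_h12 hf u (hB.filter_mono hu)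
  have h1 : A0 - B0 = 0 := tendsto_nhds_unique (hAl.sub hBl) (h.mono_left hu)
  have h2 : A0 = B0 := sub_eq_zero.1 h1
  have h3 := (mdl_cont_h12 Mo hr (hA.filter_mono hu) hA0 hAl w).sub
    (mdl_cont_h12 Mo hr (hB.filter_mono hu) hB0 hBl w)
  rw [h2, sub_self] at h3
  exact h3

/-- the limit of asymptotic multiples of unitary matrices is a multiple of a unitary matrix -/
private theorem lim_mul_h12 {α : Type} (u : Ultrafilter α) {B U : α → Matrix M M ℂ} {μ : α → ℂ}
    {B0 : Matrix M M ℂ} (hB : Tendsto B u (𝓝 B0))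
    (h : Tendsto (fun x => B x - μ x • U x) u (𝓝 0))
    (hU : Tendsto (fun x => (U x)ᴴ * U x) u (𝓝 1)) :
    ∃ c : ℝ, B0ᴴ * B0 = (c : ℂ) • (1 : Matrix M M ℂ) := by
  rcases isEmpty_or_nonempty M with hM | ⟨⟨i0⟩⟩
  · refine ⟨0, ?_⟩
    ext i
    exact isEmptyElim i
  · have h1 : Tendsto (fun x => μ x • U x) u (𝓝 B0) := by
      have h2 := hB.sub h
      rw [sub_zero] at h2
      refine h2.congr fun x => ?_
      abel
    have hc : Continuous fun C : Matrix M M ℂ => Cᴴ * C := by fun_prop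
    have h2 : Tendsto (fun x => ((‖μ x‖ ^ 2 : ℝ) : ℂ) • ((U x)ᴴ * U x)) u (𝓝 (B0ᴴ * B0)) := by
      refine ((hc.tendsto B0).comp h1).congr fun x => ?_
      change (μ x • U x)ᴴ * (μ x • U x) = _
      rw [Matrix.conjTranspose_smul, Matrix.smul_mul, Matrix.mul_smul, smul_smul]
      congr 1
      have h3 : (starRingEnd ℂ) (μ x) * μ x = ((‖μ x‖ : ℂ)) ^ 2 := Complex.conj_mul' (μ x)
      rw [Complex.ofReal_pow, ← h3]
      rfl
    have h3 := entry_tendsto_h12 h2 i0 i0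
    have h4 := entry_tendsto_h12 hU i0 i0
    rw [Matrix.one_apply_eq] at h4
    have h5 : Tendsto (fun x => ((‖μ x‖ ^ 2 : ℝ) : ℂ)) u (𝓝 ((B0ᴴ * B0) i0 i0)) := by
      have h6 := h3.div h4 one_ne_zero
      rw [div_one] at h6
      refine h6.congr' ?_
      filter_upwards [h4.eventually_ne one_ne_zero] with x hx
      change ((((‖μ x‖ ^ 2 : ℝ) : ℂ) • ((U x)ᴴ * U x)) i0 i0) / (((U x)ᴴ * U x) i0 i0) = _
      rw [Matrix.smul_apply, smul_eq_mul, mul_div_assoc, div_self hx, mul_one]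
    have h6 : ((B0ᴴ * B0) i0 i0).im = 0 := by
      have h7 := (Complex.continuous_im.tendsto _).comp h5
      have h8 : (Complex.im ∘ fun x => ((‖μ x‖ ^ 2 : ℝ) : ℂ)) = fun _ => (0 : ℝ) := by
        funext x
        exact Complex.ofReal_im _
      rw [h8] at h7
      exact tendsto_nhds_unique h7 tendsto_const_nhds
    refine ⟨((B0ᴴ * B0) i0 i0).re, ?_⟩
    have h7 : ((((B0ᴴ * B0) i0 i0).re : ℝ) : ℂ) = (B0ᴴ * B0) i0 i0 := by
      apply Complex.ext
      · rw [Complex.ofReal_re]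
      · rw [Complex.ofReal_im, h6]
    rw [h7]
    exact tendsto_nhds_unique h2 (h5.smul hU)

theorem mdl_v (hf : Continuous f) {α : Type} {F : Filter α} {B U : α → Matrix M M ℂ} {μ : α → ℂ} {R r : ℝ} (hr : 0 < r)
    (hB : ∀ᶠ x in F, B x ∈ KH f R r) (h : Tendsto (fun x => B x - μ x • U x) F (𝓝 0))
    (hU : Tendsto (fun x => (U x)ᴴ * U x) F (𝓝 1)) : Tendsto (fun x => Mo.π (B x) Mo.v) F (𝓝 Mo.v) := by
  rw [tendsto_iff_ultrafilter]
  intro u hu
  obtain ⟨B0, hB0, hBl⟩ := lim_KH_h12 hf u (hB.filter_mono hu)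
  have h1 := mdl_cont_h12 Mo hr (hB.filter_mono hu) hB0 hBl Mo.v
  rw [Mo.inv B0 (KH_sub hr hB0) (lim_mul_h12 u hBl (h.mono_left hu) (hU.mono_left hu))] at h1
  exact h1

end Pool.Agent.Helper84.SPQ
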