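import Pool.Agent.Helper84.SPQ.B0
import Pool.Agent.Helper84.NI.FS

/-!
# Project SPQ, block B4: representations from kernels

`mdl_of_kernel`. PROOF. Copy the proof of `exists_fib2` in `GN/K2.lean` (or of `exists_fib_s'` in `NI/FS.lean`): kernel `(A, B) ↦ φ (A⁻¹ B)` on the subtype `{A // A ∈ HH f}`; `Pool.Agent.Helper90.Fib.exists_gns`, `exists_unitary`,
`eq_of_total`, `cont_of_total`; `‖e A - e B‖² = 2 - 2 φ (A⁻¹ B)`. `HH f` is a group: `IsG.mul`, `IsG.inv`, `IsG.one` (determinants multiply). `inv`: `A ∈ HH f`, `Aᴴ A = c 1`: `φ A = 1`, so `e A = e 1`.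
`cont`: at `B0`: `‖π(B) e_x - π(B0) e_x‖² = 2 - 2 φ ((B x)⁻¹ (B0 x))` (or with the roles exchanged), `(B0 x)⁻¹ (B x) → 1` within `HH f` as `B → B0` within `HH f`, `φ` is continuous at `1` within `HH f` and `φ 1 = 1`.
-/

set_option autoImplicit false

open Filter Topology Matrix
open scoped ComplexOrder

namespace Pool.Agent.Helper84.SPQ

open NI GN Pool.Agent.Helper90.RK

theorem mdl_of_kernel {M : Type} [Fintype M] [DecidableEq M] {f : Matrix M M ℂ → ℝ} (hf : IsG f) (φ : Matrix M M ℂ → ℝ)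
    (h1 : φ 1 = 1) (hpsd : (Matrix.of fun A B : {A : Matrix M M ℂ // A ∈ HH f} => ((φ (A.1⁻¹ * B.1) : ℝ) : ℂ)).PosSemidef)
    (hscal : ∀ (c : ℂ), ∀ A ∈ HH f, c • A ∈ HH f → φ (A⁻¹ * (c • A)) = 1)
    (hcont : ContinuousWithinAt φ (HH f) 1)
    (hinv : ∀ A ∈ HH f, (∃ c : ℝ, Aᴴ * A = (c : ℂ) • (1 : Matrix M M ℂ)) → φ A = 1) :
    ∃ (L : Type) (_ : NormedAddCommGroup L) (_ : InnerProductSpace ℂ L) (_ : CompleteSpace L) (Mo : Mdl f L),
      ∀ A ∈ HH f, inner ℂ Mo.v (Mo.π A Mo.v) = ((φ A : ℝ) : ℂ) := by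
  classical
  obtain ⟨L, i1, i2, i3, e, he, ht⟩ := Pool.Agent.Helper90.Fib.exists_gns _ hpsd
  refine ⟨L, i1, i2, i3, ?_⟩
  have hker : ∀ C E : {A : Matrix M M ℂ // A ∈ HH f},
      inner ℂ (e C) (e E) = ((φ (C.1⁻¹ * E.1) : ℝ) : ℂ) := he
  have hself : ∀ C : {A : Matrix M M ℂ // A ∈ HH f}, φ (C.1⁻¹ * C.1) = 1 := by
    intro C
    rw [Matrix.nonsing_inv_mul _ (isUnit_iff_ne_zero.2 C.2.2), h1]
  -- norm formula
  have hn : ∀ C E : {A : Matrix M M ℂ // A ∈ HH f}, ‖e C - e E‖ ^ 2 = 2 - 2 * φ (C.1⁻¹ * E.1) := by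
    intro C E
    have h1 : ‖e C‖ ^ 2 = 1 := by
      rw [← inner_self_eq_norm_sq (𝕜 := ℂ), hker, hself]
      simp
    have h2 : ‖e E‖ ^ 2 = 1 := by
      rw [← inner_self_eq_norm_sq (𝕜 := ℂ), hker, hself]
      simp
    rw [@norm_sub_sq ℂ, h1, h2, hker]
    simp
    ring
  have heq : ∀ C E : {A : Matrix M M ℂ // A ∈ HH f}, φ (C.1⁻¹ * E.1) = 1 → e C = e E := by
    intro C E h
    have h1 := hn C E
    rw [h] at h1
    have h2 : ‖e C - e E‖ = 0 := by nlinarith [norm_nonneg (e C - e E)]
    exact sub_eq_zero.1 (norm_eq_zero.1 h2)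
  have hmul : ∀ A ∈ HH f, ∀ B ∈ HH f, A * B ∈ HH f := fun A hA B hB =>
    ⟨hf.mul A hA B hB, by rw [Matrix.det_mul]; exact mul_ne_zero hA.2 hB.2⟩
  have hinvm : ∀ A ∈ HH f, A⁻¹ ∈ HH f := fun A hA =>
    ⟨hf.inv A hA, by rw [Matrix.det_nonsing_inv]; simpa using hA.2⟩
  have hm : ∀ (B : Matrix M M ℂ) (hB : B ∈ HH f) (C : {A : Matrix M M ℂ // A ∈ HH f}),
      B * C.1 ∈ HH f := fun B hB C => hmul B hB C.1 C.2
  -- the unitary of B
  have hU : ∀ B : Matrix M M ℂ, ∃ U : L ≃ₗᵢ[ℂ] L,
      ∀ (hB : B ∈ HH f) (C : {A : Matrix M M ℂ // A ∈ HH f}), U (e C) = e ⟨B * C.1, hm B hB C⟩ := by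
    intro B
    by_cases hB : B ∈ HH f
    · obtain ⟨U, hU⟩ := Pool.Agent.Helper90.Fib.exists_unitary e
        (fun C : {A : Matrix M M ℂ // A ∈ HH f} => e ⟨B * C.1, hm B hB C⟩) (by
        intro C E
        rw [hker, hker]
        congr 2
        simp only
        rw [Matrix.mul_inv_rev, Matrix.mul_assoc, ← Matrix.mul_assoc B⁻¹ B E.1,
          Matrix.nonsing_inv_mul _ (isUnit_iff_ne_zero.2 hB.2), Matrix.one_mul]) ht (by
        have h1 : Set.range (fun C : {A : Matrix M M ℂ // A ∈ HH f} => e ⟨B * C.1, hm B hB C⟩) =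
            Set.range e := by
          apply Set.Subset.antisymm
          · rintro _ ⟨C, rfl⟩
            exact ⟨_, rfl⟩
          · rintro _ ⟨C, rfl⟩
            refine ⟨⟨B⁻¹ * C.1, hm _ (hinvm B hB) C⟩, ?_⟩
            simp only
            congr 1
            apply Subtype.ext
            simp only
            rw [← Matrix.mul_assoc, Matrix.mul_nonsing_inv _ (isUnit_iff_ne_zero.2 hB.2),
              Matrix.one_mul]
        rw [h1]
        exact ht)
      exact ⟨U, fun _ C => hU C⟩
    · exact ⟨1, fun h => absurd h hB⟩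
  choose U hU using hU
  have h1d : (1 : Matrix M M ℂ) ∈ HH f := ⟨hf.one, by simp⟩
  let Mo : Mdl f L :=
    { π := U
      mul := by
        intro C hC E hE w
        have hCE : C * E ∈ HH f := hmul C hC E hE
        have := Pool.Agent.Helper90.Fib.eq_of_total e ht
          (S := ((U (C * E)).toContinuousLinearEquiv : L →L[ℂ] L))
          (T := ((U C).toContinuousLinearEquiv : L →L[ℂ] L).comp
            ((U E).toContinuousLinearEquiv : L →L[ℂ] L)) (by
            intro x
            change U (C * E) (e x) = U C (U E (e x))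
            rw [hU _ hCE, hU _ hE, hU _ hC]
            congr 1
            apply Subtype.ext
            exact Matrix.mul_assoc C E x.1) w
        exact this
      scal := by
        intro c C hC hcC
        ext w
        have := Pool.Agent.Helper90.Fib.eq_of_total e ht
          (S := ((U (c • C)).toContinuousLinearEquiv : L →L[ℂ] L))
          (T := ((U C).toContinuousLinearEquiv : L →L[ℂ] L)) (by
            intro x
            change U (c • C) (e x) = U C (e x)
            rw [hU _ hcC, hU _ hC]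
            symm
            apply heq
            simp only
            rw [Matrix.smul_mul]
            refine hscal c (C * x.1) (hm C hC x) ?_
            rw [← Matrix.smul_mul]
            exact hm _ hcC x) w
        exact this
      cont := by
        intro w
        refine Pool.Agent.Helper90.Fib.cont_of_total e ht U (fun x => ?_) w
        intro B₀ hB₀
        rw [ContinuousWithinAt, tendsto_iff_norm_sub_tendsto_zero]
        have hk : Tendsto (fun B : Matrix M M ℂ => φ ((B₀ * x.1)⁻¹ * (B * x.1))) (𝓝[HH f] B₀)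
            (𝓝 1) := by
          have h2 : Tendsto φ (𝓝[HH f] (1 : Matrix M M ℂ)) (𝓝 1) := by
            have h3 := hcont.tendsto
            rwa [h1] at h3
          refine h2.comp ?_
          rw [tendsto_nhdsWithin_iff]
          refine ⟨?_, ?_⟩
          · have h3 : Continuous fun B : Matrix M M ℂ => (B₀ * x.1)⁻¹ * (B * x.1) :=
              continuous_const.matrix_mul (continuous_id.matrix_mul continuous_const)
            have h4 := (h3.tendsto B₀).mono_left (nhdsWithin_le_nhds (s := HH f))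
            rw [Matrix.nonsing_inv_mul _ (isUnit_iff_ne_zero.2 (hm B₀ hB₀ x).2)] at h4
            exact h4
          · filter_upwards [self_mem_nhdsWithin] with B hB
            exact hmul _ (hinvm _ (hm B₀ hB₀ x)) _ (hm B hB x)
        have hsq : Tendsto (fun B : Matrix M M ℂ => ‖U B (e x) - U B₀ (e x)‖ ^ 2) (𝓝[HH f] B₀)
            (𝓝 0) := by
          have h1 := (hk.const_mul 2).const_sub 2
          have h2 : (2 : ℝ) - 2 * 1 = 0 := by norm_num
          rw [h2] at h1
          refine h1.congr' ?_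
          filter_upwards [self_mem_nhdsWithin] with B hB
          rw [hU B hB, hU B₀ hB₀, norm_sub_rev, hn]
        have hsq2 := (Real.continuous_sqrt.tendsto 0).comp hsq
        rw [Real.sqrt_zero] at hsq2
        refine hsq2.congr fun B => ?_
        exact Real.sqrt_sq (norm_nonneg _)
      v := e ⟨1, h1d⟩
      nv := by
        have h1 : ‖e ⟨1, h1d⟩‖ ^ 2 = 1 := by
          rw [← inner_self_eq_norm_sq (𝕜 := ℂ), hker, hself]
          simp
        nlinarith [norm_nonneg (e ⟨1, h1d⟩)]
      inv := by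
        intro k hk hkU
        rw [hU k hk]
        symm
        apply heq
        simp only
        rw [Matrix.mul_one, inv_one, Matrix.one_mul]
        exact hinv k hk hkU }
  refine ⟨Mo, fun C hC => ?_⟩
  change inner ℂ (e ⟨1, h1d⟩) (U C (e ⟨1, h1d⟩)) = _
  rw [hU C hC, hker]
  simp only
  rw [Matrix.mul_one, inv_one, Matrix.one_mul]

end Pool.Agent.Helper84.SPQ
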