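import Pool.Agent.Helper84.SPQ.B5

/-!
# Project SPQ, block B6: the unitary cocycle over the stratum: first properties

Let `pr` be as in `exists_pr`; `pg pr g h γ = pr (gg (κ γ) (κ (g⁻¹ γ h)) (T.C g h γ))`. PROOFS (adapt `coc_one`, `coc_cpt`, `coc_mul`, `coc_left` in `GN/I1.lean`).
`pg_ev`: by `T.C_compact g h` (`Helper90/RK/GD.lean`) eventually `T.C g h γ ∈ Kb T.b R r`, by `gg_bdd` the matrices `A γ = gg ..` are bounded with `‖det‖ ≥ r' > 0`; with `Ga.hC` and the property `(c)` of `pr`: `A γ - pr (A γ) → 0`; `ev_KH`. The constants do not depend on `n`.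
`pg_one`: `T.C 1 1 γ = c • 1`, `‖c‖ = 1` (`T.C_one`), `gg (κ γ) (κ γ) (c • 1) = c • 1 ∈ HH f` (`IsG.smul`, `IsG.one`), `pr` fixes it, `π (c • 1) = π 1 = 1` (`scal`; `π 1 = 1` from `mul`). Note `1⁻¹ * γ * 1 = γ`.
`pg_mul`: `T.C_mul` gives unit scalars `c γ` with `c γ • (T.C g h γ * T.C g' h' γ'') - T.C (g g') (h h') γ → 0`, `γ'' = g⁻¹ γ h`. Apply `gg (κ γ) (κ (γ'''))` (`γ''' = (g g')⁻¹ γ (h h') = g'⁻¹ γ'' h'`), `gg_mul` (`D T.b (T.C g h γ) = T.C g h γ` is `D_D`), `gg_tendsto`, and replace each `gg` by its `pr`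
(`A A' - pr A pr A' → 0` for bounded `A, A', ..` with `A - pr A → 0`, `A' - pr A' → 0`; for `A'` the limit along `T.F n` follows from the one along `T.F n'` by `T.shift g h n`). So `pr (A_{gg',hh'} γ) - c γ • (pr (A_{g,h} γ) * pr (A_{g',h'} γ'')) → 0`; both are eventually in one `KH f R r`
(`IsG.mul`, `IsG.smul`; entries of products bounded, determinants multiply), `mdl_sub`, `Mdl.scal`, `Mdl.mul`.
`pg_left`: `T.C g 1 γ (T.C g 1 γ)ᴴ → 1` (`T.C_left`); so `A Aᴴ → 1` for `A = gg ..` (`gg_mul`, `gg_star`; `(T.C)ᴴ` is block diagonal: `D_star`), and `Aᴴ A → 1` as well (bounded square matrices: if `A Aᴴ → 1` then `Aᴴ A → 1`: `Aᴴ A - 1 = A⁻¹ (A Aᴴ - 1) A` with bounded inverses, or by ultrafilters),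
`mdl_v` with `μ = 1`, `U = A`, `B = pr A`.
-/

set_option autoImplicit false

open Filter Topology Matrix

namespace Pool.Agent.Helper84.SPQ

open NI GN Pool.Agent.Helper90.RK

variable {G : Type} [Group G] {N : ℕ} {P : PH G N} {S : Sv P} {T : Str S} {i0 : Fin N} {M : Type} [Fintype M] [DecidableEq M]
  {f : Matrix M M ℂ → ℝ}

/-- The property of the projection `pr` on `HH f`. -/
def IsPr (f : Matrix M M ℂ → ℝ) (pr : Matrix M M ℂ → Matrix M M ℂ) : Prop :=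
  (∀ A, pr A ∈ HH f) ∧ (∀ A ∈ HH f, pr A = A) ∧
    ∀ {α : Type} (F : Filter α) (A : α → Matrix M M ℂ) (R r : ℝ), 0 < r → (∀ᶠ x in F, (∀ i j, ‖A x i j‖ ≤ R) ∧ r ≤ ‖(A x).det‖) →
      Tendsto (fun x => f (A x)) F (𝓝 0) → Tendsto (fun x => A x - pr (A x)) F (𝓝 0)

/-- The Levi cocycle in the gauge, moved to `HH f`. -/
noncomputable def pg (Ga : Gau T i0 M f) (pr : Matrix M M ℂ → Matrix M M ℂ) (g h γ : G) : Matrix M M ℂ :=
  pr (gg (Ga.κ γ) (Ga.κ (g⁻¹ * γ * h)) (T.C g h γ))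

section aux61

/-- the Levi cocycle in the gauge -/
private noncomputable def AA61 (Ga : Gau T i0 M f) (g h γ : G) : Matrix M M ℂ :=
  gg (Ga.κ γ) (Ga.κ (g⁻¹ * γ * h)) (T.C g h γ)

omit [DecidableEq M] in
private theorem mul_zero61 {α : Type} {F : Filter α} {X Y : α → Matrix M M ℂ} {R : ℝ}
    (hX : Tendsto X F (𝓝 0)) (hY : ∀ᶠ x in F, ∀ i j, ‖Y x i j‖ ≤ R) :
    Tendsto (fun x => X x * Y x) F (𝓝 0) := by
  refine tendsto_pi_nhds.2 fun i => tendsto_pi_nhds.2 fun j => ?_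
  have h1 : ∀ k, Tendsto (fun x => X x i k * Y x k j) F (𝓝 0) := by
    intro k
    have h2 : Tendsto (fun x => X x i k) F (𝓝 0) := tendsto_pi_nhds.1 (tendsto_pi_nhds.1 hX i) k
    have h3 : Tendsto (fun x => ‖X x i k‖ * R) F (𝓝 0) := by
      have := h2.norm.mul_const R
      rwa [norm_zero, zero_mul] at this
    refine squeeze_zero_norm' ?_ h3
    filter_upwards [hY] with x hx
    rw [norm_mul]
    exact mul_le_mul_of_nonneg_left (hx k j) (norm_nonneg _)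
  have h4 : Tendsto (fun x => ∑ k, X x i k * Y x k j) F (𝓝 (∑ _k : M, (0 : ℂ))) :=
    tendsto_finsetSum _ fun k _ => h1 k
  rw [Finset.sum_const_zero] at h4
  refine h4.congr fun x => ?_
  rw [Matrix.mul_apply]

omit [DecidableEq M] in
private theorem zero_mul61 {α : Type} {F : Filter α} {X Y : α → Matrix M M ℂ} {R : ℝ}
    (hX : Tendsto X F (𝓝 0)) (hY : ∀ᶠ x in F, ∀ i j, ‖Y x i j‖ ≤ R) :
    Tendsto (fun x => Y x * X x) F (𝓝 0) := by
  refine tendsto_pi_nhds.2 fun i => tendsto_pi_nhds.2 fun j => ?_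
  have h1 : ∀ k, Tendsto (fun x => Y x i k * X x k j) F (𝓝 0) := by
    intro k
    have h2 : Tendsto (fun x => X x k j) F (𝓝 0) := tendsto_pi_nhds.1 (tendsto_pi_nhds.1 hX k) j
    have h3 : Tendsto (fun x => R * ‖X x k j‖) F (𝓝 0) := by
      have := h2.norm.const_mul R
      rwa [norm_zero, mul_zero] at this
    refine squeeze_zero_norm' ?_ h3
    filter_upwards [hY] with x hx
    rw [norm_mul]
    exact mul_le_mul_of_nonneg_right (hx i k) (norm_nonneg _)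
  have h4 : Tendsto (fun x => ∑ k, Y x i k * X x k j) F (𝓝 (∑ _k : M, (0 : ℂ))) :=
    tendsto_finsetSum _ fun k _ => h1 k
  rw [Finset.sum_const_zero] at h4
  refine h4.congr fun x => ?_
  rw [Matrix.mul_apply]

/-- products of elements of the compact sets -/
private theorem KH_mul61 (hf : IsG f) {R r R' r' : ℝ} (hr : 0 < r) (hr' : 0 < r') {A B : Matrix M M ℂ}
    (hA : A ∈ KH f R r) (hB : B ∈ KH f R' r') {c : ℂ} (hc : ‖c‖ = 1) :
    c • (A * B) ∈ KH f (Fintype.card M * R * R') (r * r') := by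
  have hA' := KH_sub hr hA
  have hB' := KH_sub hr' hB
  have hAB : A * B ∈ HH f := ⟨hf.mul A hA' B hB', by
    rw [Matrix.det_mul]
    exact mul_ne_zero hA'.2 hB'.2⟩
  refine ⟨hf.smul c hc _ hAB, fun i j => ?_, ?_⟩
  · have hR : 0 ≤ R := (norm_nonneg _).trans (hA.2.1 i i)
    rw [Matrix.smul_apply, norm_smul, hc, one_mul, Matrix.mul_apply]
    calc ‖∑ k, A i k * B k j‖ ≤ ∑ k, ‖A i k * B k j‖ := norm_sum_le _ _
      _ ≤ ∑ _k : M, R * R' := by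
          refine Finset.sum_le_sum fun k _ => ?_
          rw [norm_mul]
          exact mul_le_mul (hA.2.1 i k) (hB.2.1 k j) (norm_nonneg _) hR
      _ = Fintype.card M * R * R' := by
          rw [Finset.sum_const, Finset.card_univ, nsmul_eq_mul, mul_assoc]
  · rw [Matrix.det_smul, norm_mul, norm_pow, hc, one_pow, one_mul, Matrix.det_mul, norm_mul]
    exact mul_le_mul hA.2.2 hB.2.2 hr'.le (norm_nonneg _)

omit [Fintype M] in
private theorem KH_mono61 [Fintype M] {R r R' r' : ℝ} (hR : R ≤ R') (hr : r' ≤ r) : KH f R r ⊆ KH f R' r' :=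
  fun _ hC => ⟨hC.1, fun i j => (hC.2.1 i j).trans hR, hr.trans hC.2.2⟩

/-- for bounded square matrices, `A Aᴴ → 1` implies `Aᴴ A → 1` -/
private theorem swap61 {α : Type} {F : Filter α} {A : α → Matrix M M ℂ} {R r : ℝ}
    (hb : ∀ᶠ x in F, (∀ i j, ‖A x i j‖ ≤ R) ∧ r ≤ ‖(A x).det‖)
    (h : Tendsto (fun x => A x * (A x)ᴴ) F (𝓝 1)) : Tendsto (fun x => (A x)ᴴ * A x) F (𝓝 1) := by
  rw [tendsto_iff_ultrafilter]
  intro u hu
  obtain ⟨A0, -, h1⟩ := (isCompact_KH (f := fun _ : Matrix M M ℂ => (0 : ℝ)) continuous_const R r).ultrafilter_le_nhds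
    (u.map A) (by
      rw [le_principal_iff]
      have h2 := hb.filter_mono hu
      change ∀ᶠ x in (u : Filter α), A x ∈ KH (fun _ : Matrix M M ℂ => (0 : ℝ)) R r
      filter_upwards [h2] with x hx
      exact ⟨rfl, hx.1, hx.2⟩)
  have h1' : Tendsto A u (𝓝 A0) := h1
  have hc : Continuous fun C : Matrix M M ℂ => C * Cᴴ := by fun_prop
  have h3 := tendsto_nhds_unique ((hc.tendsto A0).comp h1') (h.mono_left hu)
  have hc' : Continuous fun C : Matrix M M ℂ => Cᴴ * C := by fun_prop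
  have h4 : A0ᴴ * A0 = 1 := mul_eq_one_comm.1 h3
  have h5 := (hc'.tendsto A0).comp h1'
  rw [h4] at h5
  exact h5

end aux61

variable (Ga : Gau T i0 M f) (hf : IsG f) {pr : Matrix M M ℂ → Matrix M M ℂ} (hp : IsPr f pr)
  {L : Type} [NormedAddCommGroup L] [InnerProductSpace ℂ L] (Mo : Mdl f L)

include hp in
private theorem ev61 (g h : G) : ∃ R r : ℝ, 0 < r ∧ ∀ n,
    (∀ᶠ γ in T.F n, (∀ i j, ‖AA61 Ga g h γ i j‖ ≤ R) ∧ r ≤ ‖(AA61 Ga g h γ).det‖) ∧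
    (∀ᶠ γ in T.F n, pg Ga pr g h γ ∈ KH f R r) ∧
    Tendsto (fun γ => AA61 Ga g h γ - pg Ga pr g h γ) (T.F n) (𝓝 0) := by
  obtain ⟨R0, r0, hr0, hK⟩ := T.C_compact g h
  obtain ⟨R', r', hr', hgg⟩ := gg_bdd T.b i0 M (R := R0) hr0
  refine ⟨R' + 1, r' / 2, half_pos hr', fun n => ?_⟩
  have hb : ∀ᶠ γ in T.F n, (∀ i j, ‖AA61 Ga g h γ i j‖ ≤ R') ∧ r' ≤ ‖(AA61 Ga g h γ).det‖ := by
    filter_upwards [hK n] with γ hγ
    exact hgg _ _ (Ga.u1 _) (Ga.u2 _) (Ga.u1 _) (Ga.u2 _) _ hγ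
  have h1 : Tendsto (fun γ => AA61 Ga g h γ - pr (AA61 Ga g h γ)) (T.F n) (𝓝 0) :=
    hp.2.2 (T.F n) (fun γ => AA61 Ga g h γ) R' r' hr' hb (Ga.hC g h n)
  have h2 := ev_KH hr' hb (fun γ => (hp.1 (AA61 Ga g h γ)).1) h1
  refine ⟨?_, h2, h1⟩
  filter_upwards [hb] with γ hγ
  exact ⟨fun i j => (hγ.1 i j).trans (by linarith), by linarith [hγ.2]⟩

include hf hp in
theorem pg_ev (g h : G) : ∃ R r : ℝ, 0 < r ∧ ∀ n, (∀ᶠ γ in T.F n, pg Ga pr g h γ ∈ KH f R r) ∧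
    Tendsto (fun γ => gg (Ga.κ γ) (Ga.κ (g⁻¹ * γ * h)) (T.C g h γ) - pg Ga pr g h γ) (T.F n) (𝓝 0) := by
  obtain ⟨R, r, hr, h1⟩ := ev61 Ga hp g h
  exact ⟨R, r, hr, fun n => ⟨(h1 n).2.1, (h1 n).2.2⟩⟩

include hf hp in
theorem pg_one (γ : G) (w : L) : Mo.π (pg Ga pr 1 1 γ) w = w := by
  obtain ⟨c, hc, h⟩ := T.C_one γ
  have h1 : (1 : Matrix M M ℂ) ∈ HH f := ⟨hf.one, by rw [Matrix.det_one]; exact one_ne_zero⟩
  have hc0 : c ≠ 0 := by
    rintro rfl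
    rw [norm_zero] at hc
    exact zero_ne_one hc
  have h2 : c • (1 : Matrix M M ℂ) ∈ HH f := ⟨hf.smul c hc 1 h1, by
    rw [Matrix.det_smul, Matrix.det_one, mul_one]
    exact pow_ne_zero _ hc0⟩
  have h3 : pg Ga pr 1 1 γ = c • (1 : Matrix M M ℂ) := by
    unfold pg
    rw [inv_one, one_mul, mul_one, h, gg_smul, gg_one (Ga.u1 γ), hp.2.1 _ h2]
  rw [h3, Mo.scal c 1 h1 h2]
  have h4 := Mo.mul 1 h1 1 h1 w
  rw [mul_one] at h4
  exact (Mo.π 1).injective h4.symm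

include hf hp in
theorem pg_cpt (g h : G) (n : ℕ) (w : L) : ∃ K : Set L, IsCompact K ∧ ∀ᶠ γ in T.F n, Mo.π (pg Ga pr g h γ) w ∈ K := by
  obtain ⟨R, r, hr, h1⟩ := pg_ev Ga hf hp g h
  refine ⟨(fun A => Mo.π A w) '' KH f R r, mdl_compact Mo hf.cont w hr, ?_⟩
  filter_upwards [(h1 n).1] with γ hγ
  exact ⟨_, hγ, rfl⟩

include hf hp in
theorem pg_mul (g h g' h' : G) (n : ℕ) (w : L) : Tendsto (fun γ => Mo.π (pg Ga pr (g * g') (h * h') γ) w -
    Mo.π (pg Ga pr g h γ) (Mo.π (pg Ga pr g' h' (g⁻¹ * γ * h)) w)) (T.F n) (𝓝 0) := by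
  obtain ⟨R1, r1, hr1, h1⟩ := ev61 Ga hp g h
  obtain ⟨R2, r2, hr2, h2⟩ := ev61 Ga hp g' h'
  obtain ⟨R3, r3, hr3, h3⟩ := ev61 Ga hp (g * g') (h * h')
  obtain ⟨n', hsh⟩ := T.shift g h n
  obtain ⟨c, hc, hcm⟩ := T.C_mul g h g' h'
  obtain ⟨b1, k1, t1⟩ := h1 n
  obtain ⟨b2, k2, t2⟩ := h2 n'
  obtain ⟨b3, k3, t3⟩ := h3 n
  have b2' := hsh.eventually b2
  have k2' := hsh.eventually k2
  have t2' := t2.comp hsh
  have hγ : ∀ γ : G, g'⁻¹ * (g⁻¹ * γ * h) * h' = (g * g')⁻¹ * γ * (h * h') := by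
    intro γ
    group
  -- the cocycle identity in the gauge
  have e1 : Tendsto (fun γ => c γ • (AA61 Ga g h γ * AA61 Ga g' h' (g⁻¹ * γ * h)) -
      AA61 Ga (g * g') (h * h') γ) (T.F n) (𝓝 0) := by
    have h4 := gg_tendsto (k := fun γ => Ga.κ γ) (k' := fun γ => Ga.κ ((g * g')⁻¹ * γ * (h * h')))
      (fun γ => Ga.u1 γ) (fun γ => Ga.u1 _) (hcm n)
    refine h4.congr fun γ => ?_
    rw [gg_sub, gg_smul]
    have h5 := gg_mul (k := Ga.κ γ) (k'' := Ga.κ ((g * g')⁻¹ * γ * (h * h')))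
      (Ga.u2 (g⁻¹ * γ * h)) (show D T.b (T.C g h γ) = T.C g h γ from D_D T.b _)
      (T.C g' h' (g⁻¹ * γ * h))
    rw [h5]
    unfold AA61
    rw [hγ]
  -- replace the matrices by their projections
  have e2 : Tendsto (fun γ => AA61 Ga g h γ * AA61 Ga g' h' (g⁻¹ * γ * h) -
      pg Ga pr g h γ * pg Ga pr g' h' (g⁻¹ * γ * h)) (T.F n) (𝓝 0) := by
    have h4 := mul_zero61 t1 (b2'.mono fun γ h => h.1)
    have h5 := zero_mul61 t2' (k1.mono fun γ h => h.2.1)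
    have h6 := h4.add h5
    rw [add_zero] at h6
    refine h6.congr fun γ => ?_
    simp only [Function.comp]
    rw [sub_mul, mul_sub]
    abel
  have e3 : Tendsto (fun γ => c γ • (AA61 Ga g h γ * AA61 Ga g' h' (g⁻¹ * γ * h) -
      pg Ga pr g h γ * pg Ga pr g' h' (g⁻¹ * γ * h))) (T.F n) (𝓝 0) := by
    refine tendsto_pi_nhds.2 fun i => tendsto_pi_nhds.2 fun j => ?_
    have h4 : Tendsto (fun γ => (AA61 Ga g h γ * AA61 Ga g' h' (g⁻¹ * γ * h) -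
      pg Ga pr g h γ * pg Ga pr g' h' (g⁻¹ * γ * h)) i j) (T.F n) (𝓝 0) :=
      tendsto_pi_nhds.1 (tendsto_pi_nhds.1 e2 i) j
    have h5 := h4.norm
    rw [norm_zero] at h5
    change Tendsto _ _ (𝓝 ((0 : Matrix M M ℂ) i j))
    rw [Matrix.zero_apply, tendsto_zero_iff_norm_tendsto_zero]
    refine h5.congr fun γ => ?_
    rw [Matrix.smul_apply, norm_smul, hc, one_mul]
  have e4 : Tendsto (fun γ => pg Ga pr (g * g') (h * h') γ -
      c γ • (pg Ga pr g h γ * pg Ga pr g' h' (g⁻¹ * γ * h))) (T.F n) (𝓝 0) := by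
    have h4 := (e3.sub e1).sub t3
    rw [sub_zero, sub_zero] at h4
    refine h4.congr fun γ => ?_
    rw [smul_sub]
    abel
  set RR := max (Fintype.card M * R1 * R2) R3 with hRR
  set rr := min (r1 * r2) r3 with hrr
  have hrr0 : 0 < rr := lt_min (mul_pos hr1 hr2) hr3
  have m1 : ∀ᶠ γ in T.F n, pg Ga pr (g * g') (h * h') γ ∈ KH f RR rr := by
    filter_upwards [k3] with γ h4
    exact KH_mono61 (le_max_right _ _) (min_le_right _ _) h4
  have m2 : ∀ᶠ γ in T.F n, c γ • (pg Ga pr g h γ * pg Ga pr g' h' (g⁻¹ * γ * h)) ∈ KH f RR rr := by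
    filter_upwards [k1, k2'] with γ h4 h5
    exact KH_mono61 (le_max_left _ _) (min_le_left _ _) (KH_mul61 hf hr1 hr2 h4 h5 (hc γ))
  have key := mdl_sub Mo hf.cont hrr0 m1 m2 e4 w
  refine key.congr' ?_
  filter_upwards [k1, k2', m2] with γ h4 h5 h6
  have h4' := KH_sub hr1 h4
  have h5' := KH_sub hr2 h5
  have h7 : pg Ga pr g h γ * pg Ga pr g' h' (g⁻¹ * γ * h) ∈ HH f := ⟨hf.mul _ h4' _ h5', by
    rw [Matrix.det_mul]
    exact mul_ne_zero h4'.2 h5'.2⟩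
  rw [Mo.scal (c γ) _ h7 (KH_sub hrr0 h6), Mo.mul _ h4' _ h5']

include hf hp in
theorem pg_left (g : G) (n : ℕ) : Tendsto (fun γ => Mo.π (pg Ga pr g 1 γ) Mo.v - Mo.v) (T.F n) (𝓝 0) := by
  obtain ⟨R, r, hr, h1⟩ := ev61 Ga hp g 1
  obtain ⟨b1, k1, t1⟩ := h1 n
  have e1 : Tendsto (fun γ => AA61 Ga g 1 γ * (AA61 Ga g 1 γ)ᴴ) (T.F n) (𝓝 1) := by
    have h2 := (T.C_left g n).sub_const 1
    rw [sub_self] at h2
    have h3 := (gg_tendsto (k := fun γ => Ga.κ γ) (k' := fun γ => Ga.κ γ)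
      (fun γ => Ga.u1 γ) (fun γ => Ga.u1 γ) h2).add_const 1
    rw [zero_add] at h3
    refine h3.congr fun γ => ?_
    unfold AA61
    rw [gg_star, ← gg_mul (Ga.u2 (g⁻¹ * γ * 1)) (show D T.b (T.C g 1 γ) = T.C g 1 γ from D_D T.b _),
      gg_sub, gg_one (Ga.u1 γ), sub_add_cancel]
  have e2 := swap61 b1 e1
  have e3 : Tendsto (fun γ => pg Ga pr g 1 γ - (1 : ℂ) • AA61 Ga g 1 γ) (T.F n) (𝓝 0) := by
    have h4 := t1.neg
    rw [neg_zero] at h4
    refine h4.congr fun γ => ?_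
    rw [one_smul, neg_sub]
  have key := (mdl_v Mo hf.cont hr k1 e3 e2).sub_const Mo.v
  rwa [sub_self] at key

end Pool.Agent.Helper84.SPQ
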