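import Pool.Agent.Helper84.SPQ.Defs

/-!
# Project SPQ, block C1: integration by parts on `Sp(1)`

PROOF. `w φ = cos φ - (sin φ) i` is a unit quaternion and `re (w φ * u) = cos φ * u₀ + sin φ * u₁`, `imI (w φ * u) = cos φ * u₁ - sin φ * u₀`. By left invariance
`Φ(φ) = ∫ p(c u₀ + s u₁) (c u₁ - s u₀)` does not depend on `φ`; differentiate under the integral at `φ = 0` (`hasDerivAt_integral_of_dominated_loc_of_deriv_le`; all the arguments stay in `[-1, 1]`, `p'` is bounded there):
`∫ p'(u₀) u₁² = ∫ p(u₀) u₀`. The same with `j`, `k`; add the three identities, `u₁² + u₂² + u₃² = 1 - u₀²`.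
-/

set_option autoImplicit false

open MeasureTheory

namespace Pool.Agent.Helper84.SPQ

private theorem normSq33 (u : U1) :
    (u : Hq).re ^ 2 + (u : Hq).imI ^ 2 + (u : Hq).imJ ^ 2 + (u : Hq).imK ^ 2 = 1 := by
  have h1 : Quaternion.normSq (u : Hq) = 1 := by
    rw [Quaternion.normSq_eq_norm_mul_self, norm_eq_of_mem_sphere, mul_one]
  rwa [Quaternion.normSq_def'] at h1

private theorem re_abs33 (u : U1) : |(u : Hq).re| ≤ 1 := by
  have h1 := normSq33 u
  rw [← sq_le_one_iff_abs_le_one]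
  nlinarith [sq_nonneg (u : Hq).imI, sq_nonneg (u : Hq).imJ, sq_nonneg (u : Hq).imK]

private theorem re_cont33 : Continuous fun u : U1 => (u : Hq).re :=
  Quaternion.continuous_re.comp continuous_subtype_val

/-- One direction. -/
private theorem dir33 (ν : Measure U1) [IsProbabilityMeasure ν] [ν.IsMulLeftInvariant] (p p' : ℝ → ℝ)
    (hp : ∀ t, |t| ≤ 1 → HasDerivAt p (p' t) t) (hc : ContinuousOn p' (Set.Icc (-1) 1))
    (w : ℝ → U1) (x1 : U1 → ℝ) (hx1 : Continuous x1) (hx1b : ∀ u, |x1 u| ≤ 1)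
    (h0 : ∀ φ u, ((w φ * u : U1) : Hq).re = Real.cos φ * (u : Hq).re + Real.sin φ * x1 u)
    (h1 : ∀ φ u, x1 (w φ * u) = Real.cos φ * x1 u - Real.sin φ * (u : Hq).re) :
    ∫ u : U1, p' (u : Hq).re * x1 u ^ 2 ∂ν = ∫ u : U1, (u : Hq).re * p (u : Hq).re ∂ν := by
  classical
  have hmem : ∀ u : U1, (u : Hq).re ∈ Set.Icc (-1 : ℝ) 1 := fun u => abs_le.1 (re_abs33 u)
  have hpc : ContinuousOn p (Set.Icc (-1) 1) := fun t ht =>
    (hp t (abs_le.2 ht)).continuousAt.continuousWithinAt
  have hcp' : Continuous fun u : U1 => p' (u : Hq).re :=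
    hc.comp_continuous re_cont33 hmem
  have hcp : Continuous fun u : U1 => p (u : Hq).re :=
    hpc.comp_continuous re_cont33 hmem
  obtain ⟨M', hM'⟩ := isCompact_Icc.exists_bound_of_continuousOn hc
  obtain ⟨M, hM⟩ := isCompact_Icc.exists_bound_of_continuousOn hpc
  set F : ℝ → U1 → ℝ := fun φ u =>
    p (Real.cos φ * (u : Hq).re + Real.sin φ * x1 u) *
      (Real.cos φ * x1 u - Real.sin φ * (u : Hq).re) with hF
  set F' : ℝ → U1 → ℝ := fun φ u =>
    p' (Real.cos φ * (u : Hq).re + Real.sin φ * x1 u) *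
        (-Real.sin φ * (u : Hq).re + Real.cos φ * x1 u) *
        (Real.cos φ * x1 u - Real.sin φ * (u : Hq).re) +
      p (Real.cos φ * (u : Hq).re + Real.sin φ * x1 u) *
        (-Real.sin φ * x1 u - Real.cos φ * (u : Hq).re) with hF'
  have hFe : ∀ φ u, F φ u = p ((w φ * u : U1) : Hq).re * x1 (w φ * u) := fun φ u => by
    rw [hF, h0, h1]
  have hFc : ∀ φ, Continuous (F φ) := fun φ => by
    have : F φ = (fun u : U1 => p (u : Hq).re * x1 u) ∘ fun u => w φ * u := by
      funext u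
      rw [hFe]
      rfl
    rw [this]
    exact (hcp.mul hx1).comp (continuous_const.mul continuous_id)
  have hconst : ∀ φ, ∫ u, F φ u ∂ν = ∫ u : U1, p (u : Hq).re * x1 u ∂ν := fun φ => by
    rw [← integral_mul_left_eq_self (μ := ν) (fun u : U1 => p (u : Hq).re * x1 u) (w φ)]
    exact integral_congr_ae (Filter.Eventually.of_forall fun u => hFe φ u)
  have hin : ∀ φ (u : U1), Real.cos φ * (u : Hq).re + Real.sin φ * x1 u ∈ Set.Icc (-1 : ℝ) 1 :=
    fun φ u => by
      rw [← h0]
      exact hmem _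
  have hcs : ∀ φ, |Real.cos φ| ≤ 1 := Real.abs_cos_le_one
  have hsn : ∀ φ, |Real.sin φ| ≤ 1 := Real.abs_sin_le_one
  have hbd : ∀ a b c d : ℝ, |a| ≤ 1 → |b| ≤ 1 → |c| ≤ 1 → |d| ≤ 1 → |a * b + c * d| ≤ 2 := by
    intro a b c d ha hb hc hd
    have e1 : |a * b| ≤ 1 := by
      rw [abs_mul]
      exact mul_le_one₀ ha (abs_nonneg _) hb
    have e2 : |c * d| ≤ 1 := by
      rw [abs_mul]
      exact mul_le_one₀ hc (abs_nonneg _) hd
    linarith [abs_add_le (a * b) (c * d)]
  have hder := (hasDerivAt_integral_of_dominated_loc_of_deriv_le (μ := ν) (F := F) (F' := F')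
    (x₀ := (0 : ℝ)) (s := Set.univ) (bound := fun _ => M' * 2 * 2 + M * 2) Filter.univ_mem
    (Filter.Eventually.of_forall fun φ => (hFc φ).aestronglyMeasurable)
    (Integrable.of_bound (hFc 0).aestronglyMeasurable (M * 2)
      (Filter.Eventually.of_forall fun u => by
        rw [norm_mul]
        apply mul_le_mul (hM _ (hin 0 u)) _ (norm_nonneg _) ((norm_nonneg _).trans (hM _ (hin 0 u)))
        rw [Real.norm_eq_abs]
        have := hbd (Real.cos 0) (x1 u) (-Real.sin 0) (u : Hq).re (hcs 0) (hx1b u)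
          (by rw [abs_neg]; exact hsn 0) (re_abs33 u)
        have e : Real.cos 0 * x1 u + -Real.sin 0 * (u : Hq).re =
          Real.cos 0 * x1 u - Real.sin 0 * (u : Hq).re := by ring
        rwa [e] at this))
    (by
      have : Continuous (F' 0) := by
        have e : F' 0 = fun u : U1 => p' (u : Hq).re * x1 u * x1 u - p (u : Hq).re * (u : Hq).re := by
          funext u
          simp [hF']
          ring
        rw [e]
        exact ((hcp'.mul hx1).mul hx1).sub (hcp.mul re_cont33)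
      exact this.aestronglyMeasurable)
    (Filter.Eventually.of_forall fun u φ _ => by
      have hp1 := hM' _ (hin φ u)
      have hp2 := hM _ (hin φ u)
      have hM0 : 0 ≤ M := (norm_nonneg _).trans hp2
      have hM0' : 0 ≤ M' := (norm_nonneg _).trans hp1
      have e1 := hbd (-Real.sin φ) (u : Hq).re (Real.cos φ) (x1 u) (by rw [abs_neg]; exact hsn φ)
        (re_abs33 u) (hcs φ) (hx1b u)
      have e2 : |Real.cos φ * x1 u - Real.sin φ * (u : Hq).re| ≤ 2 := by
        have := hbd (Real.cos φ) (x1 u) (-Real.sin φ) (u : Hq).re (hcs φ) (hx1b u)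
          (by rw [abs_neg]; exact hsn φ) (re_abs33 u)
        have e : Real.cos φ * x1 u + -Real.sin φ * (u : Hq).re =
          Real.cos φ * x1 u - Real.sin φ * (u : Hq).re := by ring
        rwa [e] at this
      have e3 : |-Real.sin φ * x1 u - Real.cos φ * (u : Hq).re| ≤ 2 := by
        have := hbd (-Real.sin φ) (x1 u) (-Real.cos φ) (u : Hq).re (by rw [abs_neg]; exact hsn φ)
          (hx1b u) (by rw [abs_neg]; exact hcs φ) (re_abs33 u)
        have e : -Real.sin φ * x1 u + -Real.cos φ * (u : Hq).re =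
          -Real.sin φ * x1 u - Real.cos φ * (u : Hq).re := by ring
        rwa [e] at this
      refine (norm_add_le _ _).trans ?_
      rw [norm_mul, norm_mul, norm_mul]
      refine add_le_add ?_ ?_
      · apply mul_le_mul _ e2 (abs_nonneg _) (by positivity)
        exact mul_le_mul hp1 e1 (norm_nonneg _) hM0'
      · exact mul_le_mul hp2 e3 (norm_nonneg _) hM0)
    (integrable_const _)
    (Filter.Eventually.of_forall fun u φ _ => by
      have d1 : HasDerivAt (fun φ => Real.cos φ * (u : Hq).re + Real.sin φ * x1 u)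
          (-Real.sin φ * (u : Hq).re + Real.cos φ * x1 u) φ :=
        ((Real.hasDerivAt_cos φ).mul_const _).add ((Real.hasDerivAt_sin φ).mul_const _)
      have d2 : HasDerivAt (fun φ => Real.cos φ * x1 u - Real.sin φ * (u : Hq).re)
          (-Real.sin φ * x1 u - Real.cos φ * (u : Hq).re) φ :=
        ((Real.hasDerivAt_cos φ).mul_const _).sub ((Real.hasDerivAt_sin φ).mul_const _)
      have d3 := (hp _ (abs_le.2 (hin φ u))).comp φ d1
      exact d3.mul d2)).2
  have hder0 : HasDerivAt (fun φ : ℝ => ∫ u, F φ u ∂ν) 0 0 := by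
    have e : (fun φ : ℝ => ∫ u, F φ u ∂ν) = fun _ => ∫ u : U1, p (u : Hq).re * x1 u ∂ν :=
      funext hconst
    rw [e]
    exact hasDerivAt_const _ _
  have hz := hder.unique hder0
  have hi1 : Integrable (fun u : U1 => p' (u : Hq).re * x1 u ^ 2) ν :=
    Integrable.of_bound (hcp'.mul (hx1.pow 2)).aestronglyMeasurable (M' * 1)
      (Filter.Eventually.of_forall fun u => by
        rw [norm_mul]
        have hp1 := hM' _ (hmem u)
        apply mul_le_mul hp1 _ (norm_nonneg _) ((norm_nonneg _).trans hp1)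
        rw [norm_pow, Real.norm_eq_abs]
        exact pow_le_one₀ (abs_nonneg _) (hx1b u))
  have hi2 : Integrable (fun u : U1 => (u : Hq).re * p (u : Hq).re) ν :=
    Integrable.of_bound (re_cont33.mul hcp).aestronglyMeasurable (1 * M)
      (Filter.Eventually.of_forall fun u => by
        rw [norm_mul]
        exact mul_le_mul (re_abs33 u) (hM _ (hmem u)) (norm_nonneg _) zero_le_one)
  have he : ∫ u, F' 0 u ∂ν =
      ∫ u : U1, p' (u : Hq).re * x1 u ^ 2 ∂ν - ∫ u : U1, (u : Hq).re * p (u : Hq).re ∂ν := by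
    rw [← integral_sub hi1 hi2]
    apply integral_congr_ae
    filter_upwards with u
    simp [hF']
    ring
  rw [he] at hz
  linarith

private def qd33 (a b c d : ℝ) : Hq := ⟨a, b, c, d⟩

private theorem qd33_norm (a b c d : ℝ) (h : a ^ 2 + b ^ 2 + c ^ 2 + d ^ 2 = 1) : ‖qd33 a b c d‖ = 1 := by
  have e : Quaternion.normSq (qd33 a b c d) = 1 := by
    rw [Quaternion.normSq_def']
    exact h
  rw [Quaternion.normSq_eq_norm_mul_self] at e
  nlinarith [norm_nonneg (qd33 a b c d)]

private noncomputable def w33 (b c d : ℝ) (h : b ^ 2 + c ^ 2 + d ^ 2 = 1) (φ : ℝ) : U1 :=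
  ⟨qd33 (Real.cos φ) (-Real.sin φ * b) (-Real.sin φ * c) (-Real.sin φ * d), by
    rw [mem_sphere_zero_iff_norm]
    apply qd33_norm
    have := Real.sin_sq_add_cos_sq φ
    calc Real.cos φ ^ 2 + (-Real.sin φ * b) ^ 2 + (-Real.sin φ * c) ^ 2 + (-Real.sin φ * d) ^ 2
        = Real.cos φ ^ 2 + Real.sin φ ^ 2 * (b ^ 2 + c ^ 2 + d ^ 2) := by ring
      _ = 1 := by rw [h]; linarith⟩

theorem u1_ibp (ν : Measure U1) [IsProbabilityMeasure ν] [ν.IsMulLeftInvariant] (p p' : ℝ → ℝ)
    (hp : ∀ t, |t| ≤ 1 → HasDerivAt p (p' t) t) (hc : ContinuousOn p' (Set.Icc (-1) 1)) :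
    ∫ u : U1, (1 - (u : Hq).re ^ 2) * p' (u : Hq).re ∂ν = 3 * ∫ u : U1, (u : Hq).re * p (u : Hq).re ∂ν := by
  have cI : Continuous fun u : U1 => (u : Hq).imI := Quaternion.continuous_imI.comp continuous_subtype_val
  have cJ : Continuous fun u : U1 => (u : Hq).imJ := Quaternion.continuous_imJ.comp continuous_subtype_val
  have cK : Continuous fun u : U1 => (u : Hq).imK := Quaternion.continuous_imK.comp continuous_subtype_val
  have bI : ∀ u : U1, |(u : Hq).imI| ≤ 1 := fun u => by
    have h1 := normSq33 u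
    rw [← sq_le_one_iff_abs_le_one]
    nlinarith [sq_nonneg (u : Hq).re, sq_nonneg (u : Hq).imJ, sq_nonneg (u : Hq).imK]
  have bJ : ∀ u : U1, |(u : Hq).imJ| ≤ 1 := fun u => by
    have h1 := normSq33 u
    rw [← sq_le_one_iff_abs_le_one]
    nlinarith [sq_nonneg (u : Hq).re, sq_nonneg (u : Hq).imI, sq_nonneg (u : Hq).imK]
  have bK : ∀ u : U1, |(u : Hq).imK| ≤ 1 := fun u => by
    have h1 := normSq33 u
    rw [← sq_le_one_iff_abs_le_one]
    nlinarith [sq_nonneg (u : Hq).re, sq_nonneg (u : Hq).imI, sq_nonneg (u : Hq).imJ]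
  have e1 := dir33 ν p p' hp hc (w33 1 0 0 (by norm_num)) (fun u => (u : Hq).imI) cI bI
    (fun φ u => by rw [Metric.unitSphere.coe_mul, Quaternion.re_mul]; simp [w33, qd33]; try ring)
    (fun φ u => by rw [Metric.unitSphere.coe_mul, Quaternion.imI_mul]; simp [w33, qd33]; try ring)
  have e2 := dir33 ν p p' hp hc (w33 0 1 0 (by norm_num)) (fun u => (u : Hq).imJ) cJ bJ
    (fun φ u => by rw [Metric.unitSphere.coe_mul, Quaternion.re_mul]; simp [w33, qd33]; try ring)
    (fun φ u => by rw [Metric.unitSphere.coe_mul, Quaternion.imJ_mul]; simp [w33, qd33]; try ring)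
  have e3 := dir33 ν p p' hp hc (w33 0 0 1 (by norm_num)) (fun u => (u : Hq).imK) cK bK
    (fun φ u => by rw [Metric.unitSphere.coe_mul, Quaternion.re_mul]; simp [w33, qd33]; try ring)
    (fun φ u => by rw [Metric.unitSphere.coe_mul, Quaternion.imK_mul]; simp [w33, qd33]; try ring)
  have hmem : ∀ u : U1, (u : Hq).re ∈ Set.Icc (-1 : ℝ) 1 := fun u => abs_le.1 (re_abs33 u)
  have hcp' : Continuous fun u : U1 => p' (u : Hq).re := hc.comp_continuous re_cont33 hmem
  obtain ⟨M', hM'⟩ := isCompact_Icc.exists_bound_of_continuousOn hc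
  have hint : ∀ x1 : U1 → ℝ, Continuous x1 → (∀ u, |x1 u| ≤ 1) →
      Integrable (fun u : U1 => p' (u : Hq).re * x1 u ^ 2) ν := fun x1 hx1 hx1b =>
    Integrable.of_bound (hcp'.mul (hx1.pow 2)).aestronglyMeasurable (M' * 1)
      (Filter.Eventually.of_forall fun u => by
        rw [norm_mul]
        have hp1 := hM' _ (hmem u)
        apply mul_le_mul hp1 _ (norm_nonneg _) ((norm_nonneg _).trans hp1)
        rw [norm_pow, Real.norm_eq_abs]
        exact pow_le_one₀ (abs_nonneg _) (hx1b u))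
  have hsum : ∫ u : U1, (1 - (u : Hq).re ^ 2) * p' (u : Hq).re ∂ν =
      ∫ u : U1, p' (u : Hq).re * (u : Hq).imI ^ 2 ∂ν + ∫ u : U1, p' (u : Hq).re * (u : Hq).imJ ^ 2 ∂ν +
        ∫ u : U1, p' (u : Hq).re * (u : Hq).imK ^ 2 ∂ν := by
    have h12 : Integrable (fun u : U1 => p' (u : Hq).re * (u : Hq).imI ^ 2 + p' (u : Hq).re * (u : Hq).imJ ^ 2) ν :=
      (hint _ cI bI).add (hint _ cJ bJ)
    rw [← integral_add (hint _ cI bI) (hint _ cJ bJ), ← integral_add h12 (hint _ cK bK)]
    apply integral_congr_ae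
    filter_upwards with u
    have h := normSq33 u
    have : 1 - (u : Hq).re ^ 2 = (u : Hq).imI ^ 2 + (u : Hq).imJ ^ 2 + (u : Hq).imK ^ 2 := by linarith
    rw [this]
    ring
  rw [hsum, e1, e2, e3]
  ring

end Pool.Agent.Helper84.SPQ
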