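import Pool.Agent.Helper84.SPQ.C1

/-!
# Project SPQ, block C2: the mean of `log |1 - q u|` over the unit quaternions

PROOF. (1) By left invariance (`q = ‖q‖ v`, replace `u` by `v⁻¹ u`; `q = 0` is trivial) we may assume `q = ρ`, `0 ≤ ρ < 1`. Put `t = re u`, `D = 1 - 2 ρ t + ρ² = ‖1 - ρ u‖²`, `A(ρ) = ∫ 1/D`, `B(ρ) = ∫ 1/D²`. Block C1 with
`p(t) = 1/D` and `t = (1 + ρ² - D)/(2ρ)` gives `(1-ρ²)² B = 2 - (1+ρ²) A`. (2) `A' = ∫ (2t - 2ρ)/D² = ((1-ρ²) B - A)/ρ = 2 (1 - A)/(ρ (1-ρ²))` (differentiate under the integral), so the derivative of `(1 - A) ρ²/(1 - ρ²)` vanishes on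
`(0, 1)`; it tends to `0` for `ρ → 0` (`A` is bounded near `0`), so `A = 1`. (3) `Φ(ρ) = ∫ log ‖1 - ρ u‖ = (1/2) ∫ log D`, `Φ' = ∫ (ρ - t)/D = ∫ (ρ² - 1 + D)/(2 ρ D) = (1 - (1-ρ²) A)/(2ρ) = ρ/2` for `0 < ρ < 1`, `Φ(0) = 0`, `Φ` continuous.
-/

set_option autoImplicit false

open MeasureTheory

namespace Pool.Agent.Helper84.SPQ

/-! The proof here uses the moments of the Chebyshev polynomials instead of the differential equation:
`log ‖1 - ρ u‖ = - ∑ ρ ^ n T_n(t) / n`, `t = re u`, and `c n = ∫ T_n(t)` satisfies `(n + 4) c (n + 2) = (n - 2) c n`, `c 0 = 1`, `c 1 = 0` by block C1. -/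

private theorem re_abs45 (u : U1) : |(u : Hq).re| ≤ 1 := by
  have h1 : Quaternion.normSq (u : Hq) = 1 := by
    rw [Quaternion.normSq_eq_norm_mul_self, norm_eq_of_mem_sphere, mul_one]
  rw [Quaternion.normSq_def'] at h1
  rw [← sq_le_one_iff_abs_le_one]
  nlinarith [sq_nonneg (u : Hq).imI, sq_nonneg (u : Hq).imJ, sq_nonneg (u : Hq).imK]

/-- Chebyshev polynomials as functions. -/
private noncomputable def tn45 (n : ℤ) (t : ℝ) : ℝ := (Polynomial.Chebyshev.T ℝ n).eval t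

private theorem tn_cos45 (n : ℤ) (θ : ℝ) : tn45 n (Real.cos θ) = Real.cos (n * θ) :=
  Polynomial.Chebyshev.T_real_cos θ n

private theorem tn_abs45 (n : ℤ) {t : ℝ} (ht : |t| ≤ 1) : |tn45 n t| ≤ 1 := by
  have h1 := abs_le.1 ht
  rw [← Real.cos_arccos h1.1 h1.2, tn_cos45]
  exact Real.abs_cos_le_one _

private theorem tn_cont45 (n : ℤ) : Continuous (tn45 n) := Polynomial.continuous _

private theorem re_cont45 : Continuous fun u : U1 => (u : Hq).re :=
  Quaternion.continuous_re.comp continuous_subtype_val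

private theorem tn_int45 (ν : Measure U1) [IsProbabilityMeasure ν] (n : ℤ) :
    Integrable (fun u : U1 => tn45 n (u : Hq).re) ν :=
  Integrable.of_bound ((tn_cont45 n).comp re_cont45).aestronglyMeasurable 1
    (Filter.Eventually.of_forall fun u => tn_abs45 n (re_abs45 u))

private theorem ttn_int45 (ν : Measure U1) [IsProbabilityMeasure ν] (n : ℤ) :
    Integrable (fun u : U1 => (u : Hq).re * tn45 n (u : Hq).re) ν :=
  Integrable.of_bound ((re_cont45.mul ((tn_cont45 n).comp re_cont45))).aestronglyMeasurable 1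
    (Filter.Eventually.of_forall fun u => by
      rw [Real.norm_eq_abs, abs_mul]
      exact mul_le_one₀ (re_abs45 u) (abs_nonneg _) (tn_abs45 n (re_abs45 u)))

/-- the recursion for the moments -/
private theorem rec45 (ν : Measure U1) [IsProbabilityMeasure ν] [ν.IsMulLeftInvariant] (n : ℤ) :
    (n + 4 : ℝ) * ∫ u : U1, tn45 (n + 2) (u : Hq).re ∂ν =
      (n - 2 : ℝ) * ∫ u : U1, tn45 n (u : Hq).re ∂ν := by
  have h1 := u1_ibp ν (tn45 (n + 1))
    (fun t => (Polynomial.derivative (Polynomial.Chebyshev.T ℝ (n + 1))).eval t)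
    (fun t _ => Polynomial.hasDerivAt _ t) (Polynomial.continuous _).continuousOn
  have h2 : ∀ t : ℝ, (1 - t ^ 2) *
      (Polynomial.derivative (Polynomial.Chebyshev.T ℝ (n + 1))).eval t =
      (n + 1 : ℝ) * (tn45 n t - t * tn45 (n + 1) t) := by
    intro t
    have h3 := congrArg (Polynomial.eval t)
      (Polynomial.Chebyshev.one_sub_X_sq_mul_derivative_T_eq_poly_in_T (R := ℝ) n)
    simp only [Polynomial.eval_mul, Polynomial.eval_sub, Polynomial.eval_one, Polynomial.eval_pow,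
      Polynomial.eval_X, Polynomial.eval_add, Polynomial.eval_intCast] at h3
    exact h3
  have h4 : ∀ t : ℝ, tn45 (n + 2) t = 2 * (t * tn45 (n + 1) t) - tn45 n t := by
    intro t
    have h3 := congrArg (Polynomial.eval t) (Polynomial.Chebyshev.T_add_two ℝ n)
    simp only [Polynomial.eval_mul, Polynomial.eval_sub, Polynomial.eval_X,
      Polynomial.eval_ofNat] at h3
    unfold tn45
    rw [h3]
    ring
  simp only [h2] at h1
  rw [integral_const_mul, integral_sub (tn_int45 ν n) (ttn_int45 ν (n + 1))] at h1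
  simp only [h4]
  rw [integral_sub ((ttn_int45 ν (n + 1)).const_mul 2) (tn_int45 ν n), integral_const_mul]
  linear_combination (-2) * h1

private theorem mom_zero45 (ν : Measure U1) [IsProbabilityMeasure ν] :
    ∫ u : U1, tn45 0 (u : Hq).re ∂ν = 1 := by
  have h : ∀ t : ℝ, tn45 0 t = 1 := by
    intro t
    unfold tn45
    rw [Polynomial.Chebyshev.T_zero, Polynomial.eval_one]
  simp only [h]
  simp

private theorem mom_one45 (ν : Measure U1) [IsProbabilityMeasure ν] [ν.IsMulLeftInvariant] :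
    ∫ u : U1, tn45 1 (u : Hq).re ∂ν = 0 := by
  have h : ∀ t : ℝ, tn45 1 t = t := by
    intro t
    unfold tn45
    rw [Polynomial.Chebyshev.T_one, Polynomial.eval_X]
  have h1 := u1_ibp ν (fun _ => 1) (fun _ => 0) (fun t _ => hasDerivAt_const t _)
    continuousOn_const
  simp only [mul_zero, mul_one, integral_zero] at h1
  simp only [h]
  linarith

private theorem mom_two45 (ν : Measure U1) [IsProbabilityMeasure ν] [ν.IsMulLeftInvariant] :
    ∫ u : U1, tn45 2 (u : Hq).re ∂ν = -(1 / 2) := by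
  have h1 := rec45 ν 0
  rw [mom_zero45] at h1
  rw [zero_add] at h1
  push_cast at h1
  linarith

private theorem mom_big45 (ν : Measure U1) [IsProbabilityMeasure ν] [ν.IsMulLeftInvariant] (n : ℕ) :
    ∫ u : U1, tn45 ((n : ℤ) + 3) (u : Hq).re ∂ν = 0 := by
  induction n using Nat.strong_induction_on with
  | _ n ih =>
    rcases n with _ | _ | n
    · have h1 := rec45 ν 1
      rw [mom_one45, mul_zero] at h1
      have h2 : (1 : ℤ) + 2 = ((0 : ℕ) : ℤ) + 3 := by norm_num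
      rw [h2] at h1
      rcases mul_eq_zero.1 h1 with h3 | h3
      · push_cast at h3
        linarith
      · exact h3
    · have h1 := rec45 ν 2
      have h2 : (2 : ℤ) + 2 = ((0 + 1 : ℕ) : ℤ) + 3 := by norm_num
      have h4 : ((2 : ℤ) : ℝ) - 2 = 0 := by norm_num
      rw [h2, h4, zero_mul] at h1
      rcases mul_eq_zero.1 h1 with h3 | h3
      · push_cast at h3
        linarith
      · exact h3
    · have h1 := rec45 ν ((n : ℤ) + 3)
      have h2 : (n : ℤ) + 3 + 2 = ((n + 1 + 1 : ℕ) : ℤ) + 3 := by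
        push_cast
        ring
      rw [ih n (by omega), mul_zero, h2] at h1
      rcases mul_eq_zero.1 h1 with h3 | h3
      · push_cast at h3
        have h5 : (0 : ℝ) ≤ n := Nat.cast_nonneg n
        linarith
      · exact h3

/-- the norm on the circle through `u` and `1` -/
private theorem norm_eq45 (ρ : ℝ) (u : U1) :
    ‖(1 : Hq) - ρ • (u : Hq)‖ =
      ‖1 - (ρ : ℂ) * Complex.exp ((Real.arccos (u : Hq).re : ℝ) * Complex.I)‖ := by
  obtain ⟨θ, hθ⟩ : ∃ θ : ℝ, θ = Real.arccos (u : Hq).re := ⟨_, rfl⟩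
  have h0 := abs_le.1 (re_abs45 u)
  have hc : Real.cos θ = (u : Hq).re := by
    rw [hθ, Real.cos_arccos h0.1 h0.2]
  rw [← hθ]
  have h1 : ‖(1 : Hq) - ρ • (u : Hq)‖ ^ 2 = 1 - 2 * ρ * (u : Hq).re + ρ ^ 2 := by
    have h2 : Quaternion.normSq (u : Hq) = 1 := by
      rw [Quaternion.normSq_eq_norm_mul_self, norm_eq_of_mem_sphere, mul_one]
    rw [Quaternion.normSq_def'] at h2
    rw [sq, ← Quaternion.normSq_eq_norm_mul_self, Quaternion.normSq_def']
    simp only [Quaternion.re_sub, Quaternion.imI_sub, Quaternion.imJ_sub, Quaternion.imK_sub,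
      Quaternion.re_smul, Quaternion.imI_smul, Quaternion.imJ_smul, Quaternion.imK_smul,
      Quaternion.re_one, Quaternion.imI_one, Quaternion.imJ_one, Quaternion.imK_one, smul_eq_mul]
    linear_combination ρ ^ 2 * h2
  have h3 : ‖1 - (ρ : ℂ) * Complex.exp ((θ : ℂ) * Complex.I)‖ ^ 2 =
      1 - 2 * ρ * (u : Hq).re + ρ ^ 2 := by
    rw [← Complex.normSq_eq_norm_sq, Complex.normSq_apply, Complex.sub_re, Complex.sub_im,
      Complex.re_ofReal_mul, Complex.im_ofReal_mul, Complex.exp_ofReal_mul_I_re,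
      Complex.exp_ofReal_mul_I_im, Complex.one_re, Complex.one_im, hc]
    have h4 := Real.sin_sq_add_cos_sq θ
    rw [hc] at h4
    linear_combination ρ ^ 2 * h4
  exact (sq_eq_sq₀ (norm_nonneg _) (norm_nonneg _)).1 (h1.trans h3.symm)

private theorem log_sum45 {ρ : ℝ} (h0 : 0 ≤ ρ) (h1 : ρ < 1) (u : U1) :
    HasSum (fun n : ℕ => -(ρ ^ n / n * tn45 n (u : Hq).re)) (Real.log ‖(1 : Hq) - ρ • (u : Hq)‖) := by
  obtain ⟨θ, hθ⟩ : ∃ θ : ℝ, θ = Real.arccos (u : Hq).re := ⟨_, rfl⟩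
  have ha := abs_le.1 (re_abs45 u)
  have hc : Real.cos θ = (u : Hq).re := by
    rw [hθ, Real.cos_arccos ha.1 ha.2]
  rw [norm_eq45, ← hθ]
  have hz : ‖(ρ : ℂ) * Complex.exp ((θ : ℂ) * Complex.I)‖ < 1 := by
    rw [norm_mul, Complex.norm_exp_ofReal_mul_I, mul_one, Complex.norm_real, Real.norm_eq_abs,
      abs_of_nonneg h0]
    exact h1
  have h2 := (Complex.hasSum_re (Complex.hasSum_taylorSeries_neg_log hz)).neg
  rw [Complex.neg_re, Complex.log_re, neg_neg] at h2
  refine h2.congr_fun ?_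
  intro n
  have h3 : ((ρ : ℂ) * Complex.exp ((θ : ℂ) * Complex.I)) ^ n / (n : ℂ) =
      ((ρ ^ n / n : ℝ) : ℂ) * Complex.exp (((n * θ : ℝ) : ℂ) * Complex.I) := by
    rw [mul_pow, ← Complex.exp_nat_mul]
    push_cast
    rw [show (n : ℂ) * ((θ : ℂ) * Complex.I) = (n : ℂ) * (θ : ℂ) * Complex.I by ring]
    ring
  rw [h3, Complex.re_ofReal_mul, Complex.exp_ofReal_mul_I_re, ← hc, tn_cos45]
  push_cast
  rfl

private theorem u1_log_real45 (ν : Measure U1) [IsProbabilityMeasure ν] [ν.IsMulLeftInvariant]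
    {ρ : ℝ} (h0 : 0 ≤ ρ) (h1 : ρ < 1) :
    ∫ u : U1, Real.log ‖(1 : Hq) - ρ • (u : Hq)‖ ∂ν = ρ ^ 2 / 4 := by
  obtain ⟨F, hF⟩ : ∃ F : ℕ → U1 → ℝ, ∀ n u, F n u = -(ρ ^ n / n * tn45 n (u : Hq).re) :=
    ⟨_, fun _ _ => rfl⟩
  have hint : ∀ n, Integrable (F n) ν := by
    intro n
    have h2 : F n = fun u : U1 => -(ρ ^ n / n * tn45 n (u : Hq).re) := funext (hF n)
    rw [h2]
    exact ((tn_int45 ν n).const_mul _).neg
  have hbd : ∀ n u, ‖F n u‖ ≤ ρ ^ n := by
    intro n u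
    rw [hF, norm_neg, norm_mul, Real.norm_eq_abs, Real.norm_eq_abs,
      abs_of_nonneg (div_nonneg (pow_nonneg h0 n) (Nat.cast_nonneg n))]
    refine (mul_le_of_le_one_right (div_nonneg (pow_nonneg h0 n) (Nat.cast_nonneg n))
      (tn_abs45 n (re_abs45 u))).trans ?_
    rcases Nat.eq_zero_or_pos n with rfl | hn
    · simp
    · exact div_le_self (pow_nonneg h0 n) (by exact_mod_cast hn)
  have hsum : Summable fun n => ∫ u, ‖F n u‖ ∂ν := by
    refine Summable.of_nonneg_of_le (fun n => integral_nonneg fun u => norm_nonneg _) (fun n => ?_)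
      (summable_geometric_of_lt_one h0 h1)
    refine (integral_mono (hint n).norm (integrable_const (ρ ^ n)) (hbd n)).trans ?_
    simp
  have h2 := hasSum_integral_of_summable_integral_norm hint hsum
  have h3 : ∀ u : U1, ∑' n, F n u = Real.log ‖(1 : Hq) - ρ • (u : Hq)‖ := by
    intro u
    have h4 := log_sum45 h0 h1 u
    simp only [← hF] at h4
    exact h4.tsum_eq
  simp only [h3] at h2
  have h4 : ∀ n : ℕ, n ≠ 2 → ∫ u, F n u ∂ν = 0 := by
    intro n hn
    have h5 : ∫ u, F n u ∂ν = -(ρ ^ n / n * ∫ u : U1, tn45 n (u : Hq).re ∂ν) := by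
      simp only [hF]
      rw [integral_neg, integral_const_mul]
    rw [h5]
    rcases n with _ | _ | _ | n
    · simp
    · have h6 := mom_one45 ν
      have h7 : (((0 + 1 : ℕ) : ℤ)) = 1 := by norm_num
      rw [h7, h6]
      simp
    · exact absurd rfl hn
    · have h6 := mom_big45 ν n
      have h7 : (((n + 1 + 1 + 1 : ℕ) : ℤ)) = (n : ℤ) + 3 := by
        push_cast
        ring
      rw [h7, h6]
      simp
  have h5 := hasSum_single 2 (f := fun n => ∫ u, F n u ∂ν) h4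
  have h6 := h2.unique h5
  rw [h6]
  simp only [hF]
  rw [integral_neg, integral_const_mul]
  have h7 : (((2 : ℕ) : ℤ)) = 2 := by norm_num
  rw [h7, mom_two45]
  push_cast
  ring

theorem u1_log (ν : Measure U1) [IsProbabilityMeasure ν] [ν.IsMulLeftInvariant] (q : Hq) (hq : ‖q‖ < 1) :
    ∫ u : U1, Real.log ‖1 - q * (u : Hq)‖ ∂ν = ‖q‖ ^ 2 / 4 := by
  by_cases h0 : q = 0
  · rw [h0]
    simp
  have hn : ‖q‖ ≠ 0 := norm_ne_zero_iff.2 h0
  obtain ⟨v, hv⟩ : ∃ v : U1, (v : Hq) = ‖q‖⁻¹ • q := by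
    refine ⟨⟨‖q‖⁻¹ • q, ?_⟩, rfl⟩
    rw [mem_sphere_zero_iff_norm, norm_smul, norm_inv, norm_norm, inv_mul_cancel₀ hn]
  have hq2 : q = ‖q‖ • (v : Hq) := by
    rw [hv, smul_smul, mul_inv_cancel₀ hn, one_smul]
  have h1 := integral_mul_left_eq_self (μ := ν)
    (fun u : U1 => Real.log ‖(1 : Hq) - ‖q‖ • (u : Hq)‖) v
  rw [u1_log_real45 ν (norm_nonneg q) hq] at h1
  rw [← h1]
  congr 1
  funext u
  have h2 : q * (u : Hq) = ‖q‖ • ((v * u : U1) : Hq) := by
    conv_lhs => rw [hq2]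
    rw [smul_mul_assoc]
    rfl
  rw [h2]

end Pool.Agent.Helper84.SPQ
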