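import Pool.Agent.Helper84.SPQ.C3a

/-!
# Project SPQ, block C3b: the quadratic form of `|⟨x, x'⟩|²`

PROOF. Write `x_i = k i 0`, `x'_i = k' i 0`: `‖qq‖² = ‖x̄₀ x'₀ + x̄₁ x'₁‖² = ‖x₀‖² ‖x'₀‖² + ‖x₁‖² ‖x'₁‖² + 2 re ((x₁ x̄₀) (x'₀ x̄'₁))` (`re (a b) = re (b a)`). Multiply by `hf k * hf k'` and integrate (everything is continuous on compact spaces):
the sum of `(∫ ‖x₀‖² hf)²`, `(∫ ‖x₁‖² hf)²` and `2 re (a * star a)`, `a = ∫ hf • (x₁ x̄₀)` (Bochner integral of quaternions; `re` is continuous linear). `∫ ‖x₀‖² hf = ∫ hf²` because `∫ hf = 0`.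
-/

set_option autoImplicit false

open MeasureTheory Matrix

namespace Pool.Agent.Helper84.SPQ

private theorem quat26 (x0 x0' x1 x1' : Hq) :
    ‖star x0 * x0' + star x1 * x1'‖ ^ 2 =
      ‖x0‖ ^ 2 * ‖x0'‖ ^ 2 + ‖x1‖ ^ 2 * ‖x1'‖ ^ 2 + 2 * inner ℝ (x1 * star x0) (x1' * star x0') := by
  rw [norm_add_sq_real, norm_mul, norm_mul, norm_star, norm_star]
  have h1 : inner ℝ (star x0 * x0') (star x1 * x1') = inner ℝ (x1 * star x0) (x1' * star x0') := by
    rw [Quaternion.inner_def, Quaternion.inner_def, star_mul, star_mul, star_star, star_star]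
    simp only [Quaternion.re_mul, Quaternion.imI_mul, Quaternion.imJ_mul, Quaternion.imK_mul, Quaternion.re_star,
      Quaternion.imI_star, Quaternion.imJ_star, Quaternion.imK_star]
    ring
  rw [h1]
  ring

theorem qq_sq (μ : Measure K2) [IsProbabilityMeasure μ] [μ.IsMulLeftInvariant] [μ.IsMulRightInvariant] :
    (∫ k, hf k ^ 2 ∂μ) ^ 2 ≤ ∫ k, ∫ k', ‖qq k k'‖ ^ 2 * (hf k * hf k') ∂μ ∂μ := by
  have hint : ∀ (E : Type) [NormedAddCommGroup E] [NormedSpace ℝ E] [SecondCountableTopologyEither K2 E] (f : K2 → E), Continuous f →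
      Integrable f μ := by
    intro E _ _ _ f hf
    exact hf.integrable_of_hasCompactSupport (HasCompactSupport.of_compactSpace f)
  obtain ⟨X0, hX0⟩ : ∃ X0 : K2 → ℝ, X0 = fun k : K2 => ‖(k : MH (Fin 2)) 0 0‖ ^ 2 := ⟨_, rfl⟩
  obtain ⟨X1, hX1⟩ : ∃ X1 : K2 → ℝ, X1 = fun k : K2 => ‖(k : MH (Fin 2)) 1 0‖ ^ 2 := ⟨_, rfl⟩
  obtain ⟨A, hA⟩ : ∃ A : K2 → Hq, A = fun k : K2 => (k : MH (Fin 2)) 1 0 * star ((k : MH (Fin 2)) 0 0) := ⟨_, rfl⟩
  have hX0c : Continuous X0 := by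
    rw [hX0]
    exact (continuous_entry 0 0).norm.pow 2
  have hX1c : Continuous X1 := by
    rw [hX1]
    exact (continuous_entry 1 0).norm.pow 2
  have hAc : Continuous A := by
    rw [hA]
    exact (continuous_entry 1 0).mul (continuous_entry 0 0).star
  have hqq : ∀ k k', ‖qq k k'‖ ^ 2 * (hf k * hf k') =
      (hf k * X0 k) * (X0 k' * hf k') + (hf k * X1 k) * (X1 k' * hf k') +
        (2 * hf k) * inner ℝ (A k) (hf k' • A k') := by
    intro k k'
    rw [qq_eq, quat26, hX0, hX1, hA, inner_smul_right]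
    ring
  obtain ⟨P0, hP0⟩ : ∃ P0, P0 = ∫ k, X0 k * hf k ∂μ := ⟨_, rfl⟩
  obtain ⟨P1, hP1⟩ : ∃ P1, P1 = ∫ k, X1 k * hf k ∂μ := ⟨_, rfl⟩
  obtain ⟨a, ha⟩ : ∃ a, a = ∫ k, hf k • A k ∂μ := ⟨_, rfl⟩
  have hi0 : Integrable (fun k => X0 k * hf k) μ := hint ℝ _ (hX0c.mul continuous_hf)
  have hi1 : Integrable (fun k => X1 k * hf k) μ := hint ℝ _ (hX1c.mul continuous_hf)
  have hiA : Integrable (fun k => hf k • A k) μ := hint Hq _ (continuous_hf.smul hAc)
  have hinner : ∀ k, ∫ k', ‖qq k k'‖ ^ 2 * (hf k * hf k') ∂μ =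
      P0 * (X0 k * hf k) + P1 * (X1 k * hf k) + 2 * inner ℝ a (hf k • A k) := by
    intro k
    rw [integral_congr_ae (Filter.Eventually.of_forall fun k' => hqq k k')]
    have e1 : Integrable (fun k' => (hf k * X0 k) * (X0 k' * hf k')) μ := hi0.const_mul _
    have e2 : Integrable (fun k' => (hf k * X1 k) * (X1 k' * hf k')) μ := hi1.const_mul _
    have e3 : Integrable (fun k' => (2 * hf k) * inner ℝ (A k) (hf k' • A k')) μ :=
      (hiA.const_inner (A k)).const_mul _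
    have e12 : Integrable (fun k' => (hf k * X0 k) * (X0 k' * hf k') + (hf k * X1 k) * (X1 k' * hf k')) μ :=
      e1.add e2
    have h4 : ∫ k', ((hf k * X0 k) * (X0 k' * hf k') + (hf k * X1 k) * (X1 k' * hf k') +
        (2 * hf k) * inner ℝ (A k) (hf k' • A k')) ∂μ =
        (∫ k', (hf k * X0 k) * (X0 k' * hf k') ∂μ) + (∫ k', (hf k * X1 k) * (X1 k' * hf k') ∂μ) +
        ∫ k', (2 * hf k) * inner ℝ (A k) (hf k' • A k') ∂μ := by
      rw [integral_add e12 e3, integral_add e1 e2]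
    rw [h4, integral_const_mul, integral_const_mul, integral_const_mul, integral_inner hiA, ← hP0, ← hP1, ← ha,
      inner_smul_right, real_inner_comm]
    ring
  rw [integral_congr_ae (Filter.Eventually.of_forall hinner)]
  have e1 : Integrable (fun k => P0 * (X0 k * hf k)) μ := hi0.const_mul _
  have e2 : Integrable (fun k => P1 * (X1 k * hf k)) μ := hi1.const_mul _
  have e3 : Integrable (fun k => 2 * inner ℝ a (hf k • A k)) μ := (hiA.const_inner a).const_mul _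
  have e12 : Integrable (fun k => P0 * (X0 k * hf k) + P1 * (X1 k * hf k)) μ := e1.add e2
  have h4 : ∫ k, (P0 * (X0 k * hf k) + P1 * (X1 k * hf k) + 2 * inner ℝ a (hf k • A k)) ∂μ =
      P0 * P0 + P1 * P1 + 2 * inner ℝ a a := by
    rw [integral_add e12 e3, integral_add e1 e2, integral_const_mul, integral_const_mul,
      integral_const_mul, integral_inner hiA, ← hP0, ← hP1, ← ha]
  rw [h4]
  have h5 : ∫ k, hf k ^ 2 ∂μ = P0 := by
    have h6 : ∀ k, hf k ^ 2 = X0 k * hf k - 1 / 2 * hf k := by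
      intro k
      have h7 : hf k = X0 k - 1 / 2 := by
        rw [hX0]
        rfl
      rw [sq]
      nth_rewrite 1 [h7]
      ring
    rw [integral_congr_ae (Filter.Eventually.of_forall h6),
      integral_sub hi0 ((hint ℝ _ continuous_hf).const_mul _), integral_const_mul, hf_int, ← hP0]
    ring
  rw [h5]
  have h6 : (0 : ℝ) ≤ inner ℝ a a := real_inner_self_nonneg
  nlinarith [mul_self_nonneg P1]

end Pool.Agent.Helper84.SPQ
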