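import Pool.Agent.Helper84.SPQ.C2
import Pool.Agent.Helper84.SPQ.C3b

/-!
# Project SPQ, block C3c: the quadratic form of `log |1 - T ⟨x, x'⟩|`

PROOF of `qq_log`. `1 - T qq` does not vanish (`T < 1`), everything is continuous on compact spaces. For fixed `k` and `u ∈ U1`: `∫ φ(qq k k') hf k' = ∫ φ(qq k k' * u) hf k'` (right invariance, `hf_right`, `qq_right`); integrate over `u` with the
measure of `exists_muU`, exchange the integrals, `u1_log` with `q = T qq`. `qq_log_ge`: `qq_sq`.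
`lam_int`: `∫ log ‖1 - T k₀₀‖ = (T²/4) ∫ ‖k₀₀‖² ≥ 0` (the same proof with `hf` replaced by `1`) and `log ‖1 - T k₀₀‖ ≤ log 2`, so `∫ (log ‖1 - T k₀₀‖)⁻ ≤ log 2` for all `T < 1`; Fatou for `T → 1`: `∫⁻ ENNReal.ofReal (-log ‖1 - k₀₀‖)` is finite (on the set
`k₀₀ = 1` the liminf of `-log (1 - T)` is infinite, so this set is null).
-/

set_option autoImplicit false

open MeasureTheory Matrix

namespace Pool.Agent.Helper84.SPQ

variable (μ : Measure K2) [IsProbabilityMeasure μ] [μ.IsMulLeftInvariant] [μ.IsMulRightInvariant]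

private theorem pos38 {T : ℝ} (h0 : 0 ≤ T) (h1 : T < 1) {q : Hq} (hq : ‖q‖ ≤ 1) :
    0 < ‖1 - T • q‖ := by
  have h2 : ‖T • q‖ ≤ T := by
    rw [norm_smul, Real.norm_of_nonneg h0]
    exact mul_le_of_le_one_right h0 hq
  have h3 : ‖(1 : Hq)‖ - ‖T • q‖ ≤ ‖1 - T • q‖ := norm_sub_norm_le _ _
  rw [norm_one] at h3
  linarith

omit [μ.IsMulLeftInvariant] in
private theorem mean38 {T : ℝ} (h0 : 0 ≤ T) (h1 : T < 1) {w : K2 → Hq} (hw : Continuous w)
    (hw1 : ∀ k, ‖w k‖ ≤ 1) (hwu : ∀ k u, w (k * dg1 u) = w k * (u : Hq)) {h : K2 → ℝ}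
    (hh : Continuous h) (hhu : ∀ k u, h (k * dg1 u) = h k) :
    ∫ k, Real.log ‖1 - T • w k‖ * h k ∂μ = T ^ 2 / 4 * ∫ k, ‖w k‖ ^ 2 * h k ∂μ := by
  obtain ⟨ν, hν1, hν2⟩ := exists_muU
  have hu1 : ∀ u : U1, ‖(u : Hq)‖ = 1 := fun u => by
    have := u.2
    rwa [mem_sphere_zero_iff_norm] at this
  have hwn : ∀ (u : U1) (k : K2), ‖w k * (u : Hq)‖ ≤ 1 := fun u k => by
    rw [norm_mul, hu1, mul_one]
    exact hw1 k
  have e1 : ∀ u : U1, ∫ k, Real.log ‖1 - T • (w k * (u : Hq))‖ * h k ∂μ =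
      ∫ k, Real.log ‖1 - T • w k‖ * h k ∂μ := by
    intro u
    have := integral_mul_right_eq_self (μ := μ) (fun k : K2 => Real.log ‖1 - T • w k‖ * h k) (dg1 u)
    simp only [hwu, hhu] at this
    exact this
  have e2 : ∫ k, Real.log ‖1 - T • w k‖ * h k ∂μ =
      ∫ u : U1, ∫ k, Real.log ‖1 - T • (w k * (u : Hq))‖ * h k ∂μ ∂ν := by
    simp only [e1]
    rw [integral_const, probReal_univ, one_smul]
  have hc : Continuous fun p : U1 × K2 => Real.log ‖1 - T • (w p.2 * (p.1 : Hq))‖ * h p.2 := by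
    refine Continuous.mul (Continuous.log ?_ fun p => (pos38 h0 h1 (hwn p.1 p.2)).ne')
      (hh.comp continuous_snd)
    exact (continuous_const.sub
      (((hw.comp continuous_snd).mul (continuous_subtype_val.comp continuous_fst)).const_smul T)).norm
  have hint : Integrable (Function.uncurry fun (u : U1) (k : K2) =>
      Real.log ‖1 - T • (w k * (u : Hq))‖ * h k) (ν.prod μ) :=
    hc.integrable_of_hasCompactSupport (HasCompactSupport.of_compactSpace _)
  rw [e2, integral_integral_swap hint, ← integral_const_mul]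
  refine integral_congr_ae (Filter.Eventually.of_forall fun k => ?_)
  have e3 : ∫ u : U1, Real.log ‖1 - (T • w k) * (u : Hq)‖ ∂ν = ‖T • w k‖ ^ 2 / 4 := by
    refine u1_log ν (T • w k) ?_
    rw [norm_smul, Real.norm_of_nonneg h0]
    exact lt_of_le_of_lt (mul_le_of_le_one_right h0 (hw1 k)) h1
  have e4 : ∫ u : U1, Real.log ‖1 - T • (w k * (u : Hq))‖ * h k ∂ν = ‖T • w k‖ ^ 2 / 4 * h k := by
    rw [← e3, ← integral_mul_const]
    refine integral_congr_ae (Filter.Eventually.of_forall fun u => ?_)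
    simp only [smul_mul_assoc]
  change ∫ u : U1, Real.log ‖1 - T • (w k * (u : Hq))‖ * h k ∂ν = T ^ 2 / 4 * (‖w k‖ ^ 2 * h k)
  rw [e4, norm_smul, Real.norm_of_nonneg h0]
  ring

theorem qq_log {T : ℝ} (h0 : 0 ≤ T) (h1 : T < 1) :
    ∫ k, ∫ k', Real.log ‖1 - T • qq k k'‖ * (hf k * hf k') ∂μ ∂μ =
      T ^ 2 / 4 * ∫ k, ∫ k', ‖qq k k'‖ ^ 2 * (hf k * hf k') ∂μ ∂μ := by
  rw [← integral_const_mul]
  refine integral_congr_ae (Filter.Eventually.of_forall fun k => ?_)
  have hc2 : Continuous fun k' : K2 => ((k, k') : K2 × K2) := Continuous.prodMk_right k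
  have hc : Continuous fun k' : K2 => qq k k' :=
    Continuous.comp (g := fun p : K2 × K2 => qq p.1 p.2) (f := fun k' : K2 => ((k, k') : K2 × K2))
      continuous_qq hc2
  have hd : Continuous fun k' : K2 => hf k * hf k' := continuous_const.mul continuous_hf
  have he : ∀ (k' : K2) (u : U1), hf k * hf (k' * dg1 u) = hf k * hf k' := fun k' u => by
    rw [hf_right]
  exact mean38 μ h0 h1 (w := fun k' => qq k k') hc (norm_qq_le k) (qq_right k)
    (h := fun k' => hf k * hf k') hd he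

theorem qq_log_ge {T : ℝ} (h0 : 0 ≤ T) (h1 : T < 1) : T ^ 2 / 4 * (∫ k, hf k ^ 2 ∂μ) ^ 2 ≤
    ∫ k, ∫ k', Real.log ‖1 - T • qq k k'‖ * (hf k * hf k') ∂μ ∂μ := by
  rw [qq_log μ h0 h1]
  exact mul_le_mul_of_nonneg_left (qq_sq μ) (by positivity)

/-- `log 2 + log (2 / ‖1 - q‖)` -/
noncomputable def Lam (q : Hq) : ℝ := Real.log 2 + Real.log (2 / ‖1 - q‖)

omit [μ.IsMulLeftInvariant] in
private theorem mean_zz38 {T : ℝ} (h0 : 0 ≤ T) (h1 : T < 1) :
    0 ≤ ∫ k : K2, Real.log ‖1 - T • (k : MH (Fin 2)) 0 0‖ ∂μ := by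
  have hr : ∀ (k : K2) (u : U1), ((k * dg1 u : K2) : MH (Fin 2)) 0 0 =
      (k : MH (Fin 2)) 0 0 * (u : Hq) := by
    intro k u
    have h2 := qq_right 1 k u
    unfold qq at h2
    rw [inv_one, one_mul, one_mul] at h2
    exact h2
  have h := mean38 μ h0 h1 (w := fun k : K2 => (k : MH (Fin 2)) 0 0) (continuous_entry 0 0)
    (fun k => norm_entry_le k 0 0) hr (h := fun _ => (1 : ℝ)) continuous_const (fun _ _ => rfl)
  simp only [mul_one] at h
  rw [h]
  exact mul_nonneg (by positivity) (integral_nonneg fun k => sq_nonneg _)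

private noncomputable def gT38 (T : ℝ) (k : K2) : ℝ :=
  Real.log (2 / ‖1 - T • (k : MH (Fin 2)) 0 0‖)

private noncomputable def tn38 (n : ℕ) : ℝ := 1 - 1 / ((n : ℝ) + 1)

private theorem tn_nonneg38 (n : ℕ) : 0 ≤ tn38 n := by
  unfold tn38
  have h : (0 : ℝ) < (n : ℝ) + 1 := by positivity
  rw [sub_nonneg, div_le_one h]
  linarith [(Nat.cast_nonneg n : (0 : ℝ) ≤ n)]

private theorem tn_lt38 (n : ℕ) : tn38 n < 1 := by
  unfold tn38
  have h : (0 : ℝ) < 1 / ((n : ℝ) + 1) := by positivity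
  linarith

private theorem tn_tendsto38 : Filter.Tendsto tn38 Filter.atTop (nhds 1) := by
  have h := (tendsto_const_nhds (x := (1 : ℝ))).sub
    (tendsto_one_div_add_atTop_nhds_zero_nat (𝕜 := ℝ))
  rw [sub_zero] at h
  exact h

private theorem norm_le_two38 {T : ℝ} (h0 : 0 ≤ T) (h1 : T ≤ 1) {q : Hq} (hq : ‖q‖ ≤ 1) :
    ‖1 - T • q‖ ≤ 2 := by
  have h2 : ‖T • q‖ ≤ T := by
    rw [norm_smul, Real.norm_of_nonneg h0]
    exact mul_le_of_le_one_right h0 hq
  have h3 : ‖1 - T • q‖ ≤ ‖(1 : Hq)‖ + ‖T • q‖ := norm_sub_le _ _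
  rw [norm_one] at h3
  linarith

private theorem gT_cont38 {T : ℝ} (h0 : 0 ≤ T) (h1 : T < 1) : Continuous (gT38 T) := by
  have hp : ∀ k : K2, 0 < ‖1 - T • (k : MH (Fin 2)) 0 0‖ := fun k =>
    pos38 h0 h1 (norm_entry_le k 0 0)
  have hc : Continuous fun k : K2 => ‖1 - T • (k : MH (Fin 2)) 0 0‖ :=
    (continuous_const.sub ((continuous_entry 0 0).const_smul T)).norm
  exact Continuous.log (continuous_const.div hc fun k => (hp k).ne') fun k =>
    (div_pos (by norm_num) (hp k)).ne'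

private theorem gT_nonneg38 {T : ℝ} (h0 : 0 ≤ T) (h1 : T < 1) (k : K2) : 0 ≤ gT38 T k := by
  have hp : 0 < ‖1 - T • (k : MH (Fin 2)) 0 0‖ := pos38 h0 h1 (norm_entry_le k 0 0)
  refine Real.log_nonneg ?_
  rw [le_div_iff₀ hp, one_mul]
  exact norm_le_two38 h0 h1.le (norm_entry_le k 0 0)

private theorem gT_lint38 {T : ℝ} (h0 : 0 ≤ T) (h1 : T < 1) :
    ∫⁻ k, ENNReal.ofReal (gT38 T k) ∂μ ≤ ENNReal.ofReal (Real.log 2) := by
  have hi : Integrable (gT38 T) μ :=
    (gT_cont38 h0 h1).integrable_of_hasCompactSupport (HasCompactSupport.of_compactSpace _)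
  rw [← ofReal_integral_eq_lintegral_ofReal hi (Filter.Eventually.of_forall (gT_nonneg38 h0 h1))]
  refine ENNReal.ofReal_le_ofReal ?_
  have hp : ∀ k : K2, 0 < ‖1 - T • (k : MH (Fin 2)) 0 0‖ := fun k =>
    pos38 h0 h1 (norm_entry_le k 0 0)
  have hc : Continuous fun k : K2 => Real.log ‖1 - T • (k : MH (Fin 2)) 0 0‖ :=
    Continuous.log ((continuous_const.sub ((continuous_entry 0 0).const_smul T)).norm)
      fun k => (hp k).ne'
  have hi2 : Integrable (fun k : K2 => Real.log ‖1 - T • (k : MH (Fin 2)) 0 0‖) μ :=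
    hc.integrable_of_hasCompactSupport (HasCompactSupport.of_compactSpace _)
  have e1 : ∀ k : K2, gT38 T k = Real.log 2 - Real.log ‖1 - T • (k : MH (Fin 2)) 0 0‖ := fun k =>
    Real.log_div (by norm_num) (hp k).ne'
  simp only [e1]
  rw [integral_sub (integrable_const _) hi2, integral_const, probReal_univ, one_smul]
  have := mean_zz38 μ h0 h1
  linarith

private noncomputable def lim38 (k : K2) : ENNReal :=
  Filter.liminf (fun n : ℕ => ENNReal.ofReal (gT38 (tn38 n) k)) Filter.atTop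

private theorem lim_meas38 : Measurable lim38 :=
  Measurable.liminf fun n => (gT_cont38 (tn_nonneg38 n) (tn_lt38 n)).measurable.ennreal_ofReal

private theorem lim_int38 : ∫⁻ k, lim38 k ∂μ ≤ ENNReal.ofReal (Real.log 2) := by
  refine (lintegral_liminf_le fun n =>
    (gT_cont38 (tn_nonneg38 n) (tn_lt38 n)).measurable.ennreal_ofReal).trans ?_
  refine (Filter.liminf_le_liminf (Filter.Eventually.of_forall fun n =>
    gT_lint38 μ (tn_nonneg38 n) (tn_lt38 n))).trans ?_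
  rw [Filter.liminf_const]

private theorem lim_one38 {k : K2} (hk : (k : MH (Fin 2)) 0 0 = 1) : lim38 k = ⊤ := by
  unfold lim38
  refine Filter.Tendsto.liminf_eq (ENNReal.tendsto_ofReal_atTop.comp ?_)
  have e1 : ∀ n : ℕ, gT38 (tn38 n) k = Real.log (2 * ((n : ℝ) + 1)) := by
    intro n
    have h : (0 : ℝ) < (n : ℝ) + 1 := by positivity
    have e2 : (1 : Hq) - tn38 n • (1 : Hq) = (1 / ((n : ℝ) + 1)) • (1 : Hq) := by
      unfold tn38
      rw [sub_smul, one_smul]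
      abel
    unfold gT38
    rw [hk, e2, norm_smul, norm_one, mul_one, Real.norm_of_nonneg (by positivity)]
    congr 1
    field_simp
  have e3 : (fun n : ℕ => gT38 (tn38 n) k) = fun n : ℕ => Real.log (2 * ((n : ℝ) + 1)) := funext e1
  rw [e3]
  refine Real.tendsto_log_atTop.comp (Filter.Tendsto.const_mul_atTop (by norm_num) ?_)
  exact Filter.tendsto_atTop_add_const_right _ _ tendsto_natCast_atTop_atTop

private theorem lim_ne38 {k : K2} (hk : (k : MH (Fin 2)) 0 0 ≠ 1) :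
    lim38 k = ENNReal.ofReal (Real.log (2 / ‖1 - (k : MH (Fin 2)) 0 0‖)) := by
  unfold lim38
  refine Filter.Tendsto.liminf_eq (ENNReal.tendsto_ofReal ?_)
  have hp : 0 < ‖1 - (k : MH (Fin 2)) 0 0‖ := norm_pos_iff.2 (sub_ne_zero.2 (Ne.symm hk))
  have h1 : Filter.Tendsto (fun n : ℕ => ‖1 - tn38 n • (k : MH (Fin 2)) 0 0‖) Filter.atTop
      (nhds ‖1 - (k : MH (Fin 2)) 0 0‖) := by
    have h2 := ((tendsto_const_nhds (x := (1 : Hq))).sub
      (tn_tendsto38.smul_const ((k : MH (Fin 2)) 0 0))).norm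
    rw [one_smul] at h2
    exact h2
  exact ((tendsto_const_nhds (x := (2 : ℝ))).div h1 hp.ne').log (div_pos (by norm_num) hp).ne'

theorem lam_null : μ {k | (k : MH (Fin 2)) 0 0 = 1} = 0 := by
  have h1 : ∀ᵐ k ∂μ, lim38 k < ⊤ :=
    ae_lt_top lim_meas38 ((lim_int38 μ).trans_lt ENNReal.ofReal_lt_top).ne
  have h2 : ∀ᵐ k : K2 ∂μ, ¬ (k : MH (Fin 2)) 0 0 = 1 := by
    filter_upwards [h1] with k hk he
    rw [lim_one38 he] at hk
    exact lt_irrefl _ hk
  have h3 := ae_iff.1 h2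
  simpa only [not_not] using h3

theorem lam_int : Integrable (fun k : K2 => Lam ((k : MH (Fin 2)) 0 0)) μ := by
  have hm : Measurable fun k : K2 => Real.log (2 / ‖1 - (k : MH (Fin 2)) 0 0‖) :=
    Real.measurable_log.comp (measurable_const.div
      (continuous_const.sub (continuous_entry 0 0)).norm.measurable)
  have hn : ∀ k : K2, 0 ≤ Real.log (2 / ‖1 - (k : MH (Fin 2)) 0 0‖) := by
    intro k
    have h2 := norm_le_two38 (T := 1) zero_le_one le_rfl (norm_entry_le k 0 0)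
    rw [one_smul] at h2
    rcases (norm_nonneg (1 - (k : MH (Fin 2)) 0 0)).eq_or_lt with h | h
    · rw [← h, div_zero, Real.log_zero]
    · refine Real.log_nonneg ?_
      rw [le_div_iff₀ h, one_mul]
      exact h2
  have hle : ∀ k : K2, ENNReal.ofReal (Real.log (2 / ‖1 - (k : MH (Fin 2)) 0 0‖)) ≤ lim38 k := by
    intro k
    by_cases hk : (k : MH (Fin 2)) 0 0 = 1
    · rw [lim_one38 hk]
      exact le_top
    · rw [lim_ne38 hk]
  have hfin : ∫⁻ k : K2, ENNReal.ofReal (Real.log (2 / ‖1 - (k : MH (Fin 2)) 0 0‖)) ∂μ ≠ ⊤ :=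
    (((lintegral_mono hle).trans (lim_int38 μ)).trans_lt ENNReal.ofReal_lt_top).ne
  have hi : Integrable (fun k : K2 => Real.log (2 / ‖1 - (k : MH (Fin 2)) 0 0‖)) μ :=
    (lintegral_ofReal_ne_top_iff_integrable hm.aestronglyMeasurable
      (Filter.Eventually.of_forall hn)).1 hfin
  exact (integrable_const (Real.log 2)).add hi

end Pool.Agent.Helper84.SPQ
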