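import Pool.Agent.Helper84.SPQ.C3a

/-!
# Project SPQ, block C6a: the groups `SpJ` as topological groups

PROOFS. `isClosedEmbedding_val`: the inverse of `g ∈ SpJ n e` (`e i = ±1`) is `J gᴴ J`, so the topology of `SpJ n e` is induced by the matrices and the image is the closed set `{g | gᴴ J g = J}`
(such a `g` is invertible: `J gᴴ J g = 1` and a left inverse is a two sided inverse: the matrices form a finite dimensional real algebra). The topology of the units is induced by `g ↦ (g, g⁻¹)`.
Hence locally compact, Hausdorff, second countable.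
-/

set_option autoImplicit false

open MeasureTheory Matrix Topology

namespace Pool.Agent.Helper84.SPQ

variable {n : Type} [Fintype n] [DecidableEq n] {e : n → ℝ}

private theorem jj6a (he : ∀ i, e i = 1 ∨ e i = -1) : Jm e * Jm e = 1 := by
  unfold Jm
  rw [diagonal_mul_diagonal, ← diagonal_one]
  congr 1
  funext i
  rcases he i with h | h <;> rw [h] <;> simp

private theorem li6a (he : ∀ i, e i = 1 ∨ e i = -1) {A : MH n} (hA : Aᴴ * Jm e * A = Jm e) :
    (Jm e * Aᴴ * Jm e) * A = 1 := by
  calc (Jm e * Aᴴ * Jm e) * A = Jm e * (Aᴴ * Jm e * A) := by noncomm_ring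
    _ = 1 := by rw [hA, jj6a he]

private noncomputable def mk6a (he : ∀ i, e i = 1 ∨ e i = -1) (A : {A : MH n // Aᴴ * Jm e * A = Jm e}) : SpJ n e :=
  ⟨⟨A.1, Jm e * A.1ᴴ * Jm e, mul_eq_one_comm.1 (li6a he A.2), li6a he A.2⟩, A.2⟩

private theorem cont6a (he : ∀ i, e i = 1 ∨ e i = -1) : Continuous (mk6a (n := n) he) := by
  refine Continuous.subtype_mk (Units.continuous_iff.2 ⟨continuous_subtype_val, ?_⟩) _
  change Continuous fun A : {A : MH n // Aᴴ * Jm e * A = Jm e} => Jm e * A.1ᴴ * Jm e
  fun_prop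

private noncomputable def homeo6a (he : ∀ i, e i = 1 ∨ e i = -1) : SpJ n e ≃ₜ {A : MH n // Aᴴ * Jm e * A = Jm e} where
  toFun g := ⟨((g : (MH n)ˣ) : MH n), g.2⟩
  invFun := mk6a he
  left_inv g := Subtype.ext (Units.ext rfl)
  right_inv _ := rfl
  continuous_toFun := (Units.continuous_val.comp continuous_subtype_val).subtype_mk _
  continuous_invFun := cont6a he

private theorem closed6a : IsClosed {A : MH n | Aᴴ * Jm e * A = Jm e} := by
  refine isClosed_eq ?_ continuous_const
  fun_prop

theorem isClosedEmbedding_val (he : ∀ i, e i = 1 ∨ e i = -1) :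
    IsClosedEmbedding (fun g : SpJ n e => ((g : (MH n)ˣ) : MH n)) :=
  closed6a.isClosedEmbedding_subtypeVal.comp (homeo6a he).isClosedEmbedding

theorem exists_of_mem (he : ∀ i, e i = 1 ∨ e i = -1) {A : MH n} (hA : Aᴴ * Jm e * A = Jm e) :
    ∃ g : SpJ n e, ((g : (MH n)ˣ) : MH n) = A :=
  ⟨mk6a he ⟨A, hA⟩, rfl⟩

theorem spJ_ext {g h : SpJ n e} (H : ((g : (MH n)ˣ) : MH n) = ((h : (MH n)ˣ) : MH n)) : g = h :=
  Subtype.ext (Units.ext H)

theorem sgn21 : ∀ i, e21 i = 1 ∨ e21 i = -1 := by
  rintro (i | i)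
  · exact Or.inr rfl
  · exact Or.inl rfl

theorem locallyCompact_SpJ (he : ∀ i, e i = 1 ∨ e i = -1) : LocallyCompactSpace (SpJ n e) := by
  have : LocallyCompactSpace (MH n) := inferInstanceAs (LocallyCompactSpace (n → n → Hq))
  exact (isClosedEmbedding_val he).locallyCompactSpace

theorem secondCountable_SpJ (he : ∀ i, e i = 1 ∨ e i = -1) : SecondCountableTopology (SpJ n e) := by
  have : SecondCountableTopology (MH n) := inferInstanceAs (SecondCountableTopology (n → n → Hq))
  exact (isClosedEmbedding_val he).isEmbedding.secondCountableTopology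

theorem t2_SpJ (he : ∀ i, e i = 1 ∨ e i = -1) : T2Space (SpJ n e) :=
  (isClosedEmbedding_val he).isEmbedding.t2Space

/-- Sets of elements with bounded entries are relatively compact. -/
theorem isCompact_bdd (he : ∀ i, e i = 1 ∨ e i = -1) (R : ℝ) :
    IsCompact {g : SpJ n e | ∀ i j, ‖((g : (MH n)ˣ) : MH n) i j‖ ≤ R} := by
  have h1 : IsCompact (Set.univ.pi fun _ : n => Set.univ.pi fun _ : n => Metric.closedBall (0 : Hq) R) :=
    isCompact_univ_pi fun _ => isCompact_univ_pi fun _ => isCompact_closedBall _ _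
  have h3 : {A : MH n | ∀ i j, ‖A i j‖ ≤ R} =
      (Set.univ.pi fun _ : n => Set.univ.pi fun _ : n => Metric.closedBall (0 : Hq) R : Set (n → n → Hq)) := by
    apply Set.ext
    intro A
    constructor
    · intro hA i _ j _
      exact mem_closedBall_zero_iff.2 (hA i j)
    · intro hA i j
      exact mem_closedBall_zero_iff.1 (hA i (Set.mem_univ _) j (Set.mem_univ _))
  have h4 : IsCompact {A : MH n | ∀ i j, ‖A i j‖ ≤ R} := by
    rw [h3]
    exact h1
  exact (isClosedEmbedding_val (n := n) he).isCompact_preimage h4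

end Pool.Agent.Helper84.SPQ
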