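import Pool.Agent.Helper84.SPQ.C6a
import Pool.Agent.Helper84.SPQ.C4

/-!
# Project SPQ, block C6b: `Sp(2, 1)`: the subgroups `K`, `A`, Cartan decomposition

Notation: `p = inr ()`, `m i = inl i`. `aa s`: the matrix with entries `cosh s` at `(m 0, m 0)`, `(p, p)`, `sinh s` at `(m 0, p)`, `(p, m 0)`, `1` at `(m 1, m 1)`, zero otherwise. `iK k = fromBlocks k 0 0 1`.
`KK`: the elements with vanishing entries `(m i, p)` (then also `(p, m i) = 0`, the block `(m, m)` is unitary and the entry `(p, p)` has norm one).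
PROOFS. For every `g`: column `p` of `gᴴ J g = J`: `‖g p p‖² - ∑ ‖g (m i) p‖² = 1` (`norm_ent`), so `1 ≤ ‖ent g‖`, and `g ∈ KK` iff `‖ent g‖ = 1`. `isCompact_KK`: entries of norm at most one, `isCompact_bdd`, closed.
`kak`: (i) for `b : Fin 2 → Hq` there is a unitary `k` with `k b = (‖b‖, 0)`: for a unit vector `x` the matrix with columns `x` and `(-x₀ x̄₁/‖x₀‖, ‖x₀‖)` (if `x₀ ≠ 0`; `(1, 0)` if `x₀ = 0`) is unitary. (ii) so there is `k ∈ KK` such that the column `p` of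
`k g` is `(sinh s, 0; cosh s)` with `cosh s = ‖ent g‖`, `s ≥ 0`, i.e. the column `p` of `aa s`; then `aa(-s) k g ∈ KK`. Hence `g = k⁻¹ aa s k'`; the same for `g'` with the same `s`.
`ent_mix`: `x⁻¹ = J xᴴ J`, so `ent (x⁻¹ y) = ∑_j conj (x j p) J_j J_p y j p`; for `x = iK k * aa s`, `y = iK k' * aa s`: column `p` of `x` is `(sinh s · k·0 ; cosh s)`, so the entry is `cosh² s - sinh² s qq k k'`.
-/

set_option autoImplicit false

open MeasureTheory Matrix Topology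

namespace Pool.Agent.Helper84.SPQ

private theorem ssm_h12 (a : Hq) : star a * a = ((‖a‖ ^ 2 : ℝ) : Hq) := by
  rw [Quaternion.star_mul_self, Quaternion.normSq_eq_norm_mul_self, sq]

private theorem sms_h12 (a : Hq) : a * star a = ((‖a‖ ^ 2 : ℝ) : Hq) := by
  rw [Quaternion.self_mul_star, Quaternion.normSq_eq_norm_mul_self, sq]

/-- the matrix -/
private noncomputable def mt_h12 (g : Sp21) : MH (Fin 2 ⊕ Unit) := ((g : (MH (Fin 2 ⊕ Unit))ˣ) : MH (Fin 2 ⊕ Unit))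

private theorem mt_mul_h12 (g h : Sp21) : mt_h12 (g * h) = mt_h12 g * mt_h12 h := rfl

private theorem mt_one_h12 : mt_h12 1 = 1 := rfl

private theorem mt_eq_h12 (g : Sp21) : (mt_h12 g)ᴴ * Jm e21 * mt_h12 g = Jm e21 := g.2

private theorem ent_eq_h12 (g : Sp21) : ent g = mt_h12 g (Sum.inr ()) (Sum.inr ()) := rfl

private theorem Jsq_h12 : (Jm e21 : MH (Fin 2 ⊕ Unit)) * Jm e21 = 1 := by
  unfold Jm
  rw [diagonal_mul_diagonal, ← diagonal_one]
  congr 1
  funext i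
  rcases i with i | i <;> simp [e21]

private theorem mt_inv_h12 (g : Sp21) : mt_h12 g⁻¹ = Jm e21 * (mt_h12 g)ᴴ * Jm e21 := by
  have h1 : mt_h12 g * mt_h12 g⁻¹ = 1 := by
    rw [← mt_mul_h12, mul_inv_cancel, mt_one_h12]
  calc mt_h12 g⁻¹ = (Jm e21 * Jm e21) * mt_h12 g⁻¹ := by rw [Jsq_h12, one_mul]
    _ = Jm e21 * ((mt_h12 g)ᴴ * Jm e21 * mt_h12 g) * mt_h12 g⁻¹ := by
        rw [mt_eq_h12]
    _ = Jm e21 * (mt_h12 g)ᴴ * Jm e21 * (mt_h12 g * mt_h12 g⁻¹) := by noncomm_ring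
    _ = Jm e21 * (mt_h12 g)ᴴ * Jm e21 := by rw [h1, mul_one]

private theorem col_h12 (g : Sp21) (j : Fin 2 ⊕ Unit) :
    -‖mt_h12 g (Sum.inl 0) j‖ ^ 2 - ‖mt_h12 g (Sum.inl 1) j‖ ^ 2 + ‖mt_h12 g (Sum.inr ()) j‖ ^ 2 = e21 j := by
  have h := congrFun (congrFun (mt_eq_h12 g) j) j
  unfold Jm at h
  rw [mul_apply, diagonal_apply_eq] at h
  simp only [mul_diagonal, conjTranspose_apply, Fintype.sum_sum_type, Fin.sum_univ_two,
    Finset.univ_unique, Finset.sum_singleton] at h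
  have e0 : e21 (Sum.inl 0) = -1 := rfl
  have e1 : e21 (Sum.inl 1) = -1 := rfl
  have e2 : e21 (Sum.inr default) = 1 := rfl
  rw [e0, e1, e2] at h
  simp only [Quaternion.coe_neg, Quaternion.coe_one, mul_neg, mul_one, neg_mul, ssm_h12] at h
  rw [← Quaternion.coe_neg, ← Quaternion.coe_neg, ← Quaternion.coe_add, ← Quaternion.coe_add] at h
  have h2 := Quaternion.coe_injective h
  rw [← h2]
  ring

private theorem ent_inv_h12 (g : Sp21) : ‖ent g⁻¹‖ = ‖ent g‖ := by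
  rw [ent_eq_h12, mt_inv_h12]
  unfold Jm
  rw [mul_diagonal, diagonal_mul, conjTranspose_apply]
  have e2 : e21 (Sum.inr ()) = 1 := rfl
  rw [e2]
  simp [ent_eq_h12]

theorem norm_ent (g : Sp21) : ‖ent g‖ ^ 2 = 1 + ‖((g : (MH (Fin 2 ⊕ Unit))ˣ) : MH (Fin 2 ⊕ Unit)) (Sum.inl 0) (Sum.inr ())‖ ^ 2 +
    ‖((g : (MH (Fin 2 ⊕ Unit))ˣ) : MH (Fin 2 ⊕ Unit)) (Sum.inl 1) (Sum.inr ())‖ ^ 2 := by
  have h := col_h12 g (Sum.inr ())
  have e2 : e21 (Sum.inr ()) = 1 := rfl
  rw [e2] at h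
  rw [ent_eq_h12]
  change _ = 1 + ‖mt_h12 g (Sum.inl 0) (Sum.inr ())‖ ^ 2 + ‖mt_h12 g (Sum.inl 1) (Sum.inr ())‖ ^ 2
  linarith

private theorem zcol_h12 {g : Sp21} (hg : ‖ent g‖ = 1) (i : Fin 2) : mt_h12 g (Sum.inl i) (Sum.inr ()) = 0 := by
  have h := norm_ent g
  rw [hg] at h
  change (1 : ℝ) ^ 2 = 1 + ‖mt_h12 g (Sum.inl 0) (Sum.inr ())‖ ^ 2 + ‖mt_h12 g (Sum.inl 1) (Sum.inr ())‖ ^ 2 at h
  have h0 := sq_nonneg ‖mt_h12 g (Sum.inl 0) (Sum.inr ())‖
  have h1 := sq_nonneg ‖mt_h12 g (Sum.inl 1) (Sum.inr ())‖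
  rw [← norm_eq_zero]
  fin_cases i
  · exact pow_eq_zero_iff (two_ne_zero) |>.mp (by
      change ‖mt_h12 g (Sum.inl 0) (Sum.inr ())‖ ^ 2 = 0
      linarith)
  · exact pow_eq_zero_iff (two_ne_zero) |>.mp (by
      change ‖mt_h12 g (Sum.inl 1) (Sum.inr ())‖ ^ 2 = 0
      linarith)

private theorem zrow_h12 {g : Sp21} (hg : ‖ent g‖ = 1) (i : Fin 2) : mt_h12 g (Sum.inr ()) (Sum.inl i) = 0 := by
  have h1 : ‖ent g⁻¹‖ = 1 := by rw [ent_inv_h12, hg]
  have h2 := zcol_h12 h1 i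
  rw [mt_inv_h12] at h2
  unfold Jm at h2
  rw [mul_diagonal, diagonal_mul, conjTranspose_apply] at h2
  have e0 : e21 (Sum.inl i) = -1 := rfl
  have e2 : e21 (Sum.inr ()) = 1 := rfl
  rw [e0, e2] at h2
  simpa using h2

private theorem ent_mul_h12 (g h : Sp21) : ent (g * h) =
    mt_h12 g (Sum.inr ()) (Sum.inl 0) * mt_h12 h (Sum.inl 0) (Sum.inr ()) +
    mt_h12 g (Sum.inr ()) (Sum.inl 1) * mt_h12 h (Sum.inl 1) (Sum.inr ()) + ent g * ent h := by
  rw [ent_eq_h12, mt_mul_h12, mul_apply]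
  simp only [Fintype.sum_sum_type, Fin.sum_univ_two, Finset.univ_unique, Finset.sum_singleton]
  rfl

private theorem kmul_h12 {k : Sp21} (hk : ‖ent k‖ = 1) (g : Sp21) : ‖ent (k * g)‖ = ‖ent g‖ := by
  rw [ent_mul_h12, zrow_h12 hk, zrow_h12 hk, zero_mul, zero_mul, add_zero, zero_add, norm_mul, hk, one_mul]

private theorem mulk_h12 {k : Sp21} (hk : ‖ent k‖ = 1) (g : Sp21) : ‖ent (g * k)‖ = ‖ent g‖ := by
  rw [ent_mul_h12, zcol_h12 hk, zcol_h12 hk, mul_zero, mul_zero, add_zero, zero_add, norm_mul, hk, mul_one]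

/-- the maximal compact subgroup `Sp(2) × Sp(1)` -/
def KK : Subgroup Sp21 where
  carrier := {g | ‖ent g‖ = 1}
  mul_mem' := by
    intro a b ha hb
    have h := kmul_h12 ha b
    rw [Set.mem_setOf_eq] at hb
    rw [hb] at h
    exact h
  one_mem' := by
    have h : ent (1 : Sp21) = 1 := by
      rw [ent_eq_h12, mt_one_h12, one_apply_eq]
    rw [Set.mem_setOf_eq, h, norm_one]
  inv_mem' := by
    intro a ha
    rw [Set.mem_setOf_eq, ent_inv_h12]
    exact ha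

theorem mem_KK {g : Sp21} : g ∈ KK ↔ ‖ent g‖ = 1 := Iff.rfl

private theorem continuous_mt_h12 : Continuous mt_h12 := (isClosedEmbedding_val sgn21).continuous

private theorem continuous_ent_h12 : Continuous ent := by
  have h : Continuous fun g : Sp21 => mt_h12 g (Sum.inr ()) (Sum.inr ()) :=
    continuous_mt_h12.matrix_elem _ _
  exact h

theorem isCompact_KK : IsCompact (KK : Set Sp21) := by
  have h1 : (KK : Set Sp21) = {g : Sp21 | ∀ i j, ‖((g : (MH (Fin 2 ⊕ Unit))ˣ) : MH (Fin 2 ⊕ Unit)) i j‖ ≤ 1} ∩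
      {g | ‖ent g‖ = 1} := by
    ext g
    constructor
    · intro hg
      have hg1 : ‖ent g‖ = 1 := hg
      refine ⟨fun i j => ?_, hg1⟩
      change ‖mt_h12 g i j‖ ≤ 1
      rcases j with j | j
      · have h2 := col_h12 g (Sum.inl j)
        rw [zrow_h12 hg1 j, norm_zero] at h2
        have e0 : e21 (Sum.inl j) = -1 := rfl
        rw [e0] at h2
        have h3 := sq_nonneg ‖mt_h12 g (Sum.inl 0) (Sum.inl j)‖
        have h4 := sq_nonneg ‖mt_h12 g (Sum.inl 1) (Sum.inl j)‖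
        rcases i with i | i
        · fin_cases i
          · change ‖mt_h12 g (Sum.inl 0) (Sum.inl j)‖ ≤ 1
            nlinarith [norm_nonneg (mt_h12 g (Sum.inl 0) (Sum.inl j))]
          · change ‖mt_h12 g (Sum.inl 1) (Sum.inl j)‖ ≤ 1
            nlinarith [norm_nonneg (mt_h12 g (Sum.inl 1) (Sum.inl j))]
        · rw [show mt_h12 g (Sum.inr i) (Sum.inl j) = mt_h12 g (Sum.inr ()) (Sum.inl j) from rfl,
            zrow_h12 hg1 j, norm_zero]
          norm_num
      · rcases i with i | i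
        · rw [show mt_h12 g (Sum.inl i) (Sum.inr j) = mt_h12 g (Sum.inl i) (Sum.inr ()) from rfl,
            zcol_h12 hg1 i, norm_zero]
          norm_num
        · exact hg1.le
    · intro hg
      exact hg.2
  rw [h1]
  refine (isCompact_bdd sgn21 1).inter_right ?_
  exact isClosed_eq continuous_ent_h12.norm continuous_const

theorem ent_KK_mul {k : Sp21} (hk : k ∈ KK) (g : Sp21) : ‖ent (k * g)‖ = ‖ent g‖ := kmul_h12 hk g

theorem ent_mul_KK {k : Sp21} (hk : k ∈ KK) (g : Sp21) : ‖ent (g * k)‖ = ‖ent g‖ := mulk_h12 hk g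

theorem ent_inv (g : Sp21) : ‖ent g⁻¹‖ = ‖ent g‖ := ent_inv_h12 g

theorem one_le_ent (g : Sp21) : 1 ≤ ‖ent g‖ := by
  have h := norm_ent g
  nlinarith [norm_nonneg (ent g), sq_nonneg (‖((g : (MH (Fin 2 ⊕ Unit))ˣ) : MH (Fin 2 ⊕ Unit)) (Sum.inl 0) (Sum.inr ())‖),
    sq_nonneg (‖((g : (MH (Fin 2 ⊕ Unit))ˣ) : MH (Fin 2 ⊕ Unit)) (Sum.inl 1) (Sum.inr ())‖)]

private theorem Jm21_h12 : Jm e21 = fromBlocks (-1 : MH (Fin 2)) 0 0 (1 : MH Unit) := by
  unfold Jm
  ext1 i j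
  rcases i with i | i <;> rcases j with j | j
  · rw [fromBlocks_apply₁₁]
    by_cases h : i = j
    · subst h
      rw [diagonal_apply_eq, neg_apply, one_apply_eq]
      simp [e21]
    · rw [diagonal_apply_ne _ (fun h' => h (Sum.inl_injective h')), neg_apply, one_apply_ne h, neg_zero]
  · rw [fromBlocks_apply₁₂, diagonal_apply_ne _ (by simp)]
    rfl
  · rw [fromBlocks_apply₂₁, diagonal_apply_ne _ (by simp)]
    rfl
  · rw [fromBlocks_apply₂₂, diagonal_apply_eq, one_apply_eq]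
    simp [e21]

private theorem blk_mem_h12 {U : MH (Fin 2)} {u : MH Unit} (hU : Uᴴ * U = 1) (hu : uᴴ * u = 1) :
    (fromBlocks U 0 0 u)ᴴ * Jm e21 * fromBlocks U 0 0 u = Jm e21 := by
  rw [Jm21_h12, fromBlocks_conjTranspose, fromBlocks_multiply, fromBlocks_multiply]
  simp [hU, hu]

private theorem exists_blk_h12 {U : MH (Fin 2)} {u : MH Unit} (hU : Uᴴ * U = 1) (hu : uᴴ * u = 1) :
    ∃ k ∈ KK, mt_h12 k = fromBlocks U 0 0 u := by
  obtain ⟨k, hk⟩ := exists_of_mem sgn21 (blk_mem_h12 hU hu)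
  have hk' : mt_h12 k = fromBlocks U 0 0 u := hk
  refine ⟨k, ?_, hk'⟩
  rw [mem_KK, ent_eq_h12, hk', fromBlocks_apply₂₂]
  have h := congrFun (congrFun hu ()) ()
  rw [mul_apply, Finset.univ_unique, Finset.sum_singleton, conjTranspose_apply, one_apply_eq] at h
  have h2 : ((‖u () ()‖ ^ 2 : ℝ) : Hq) = 1 := by
    rw [← ssm_h12]
    exact h
  have h3 : ‖u () ()‖ ^ 2 = 1 := by
    rw [← Quaternion.coe_one] at h2
    exact Quaternion.coe_injective h2
  exact (pow_eq_one_iff_of_nonneg (norm_nonneg _) two_ne_zero).mp h3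

/-- `Sp(2)` acts transitively on spheres -/
private theorem trans_h12 (a b : Hq) : ∃ U : MH (Fin 2), Uᴴ * U = 1 ∧
    U *ᵥ ![((Real.sqrt (‖a‖ ^ 2 + ‖b‖ ^ 2) : ℝ) : Hq), 0] = ![a, b] := by
  by_cases h0 : ‖a‖ ^ 2 + ‖b‖ ^ 2 = 0
  · have ha : a = 0 := by
      rw [← norm_eq_zero]
      exact pow_eq_zero_iff (two_ne_zero) |>.mp (by nlinarith [sq_nonneg ‖a‖, sq_nonneg ‖b‖])
    have hb : b = 0 := by
      rw [← norm_eq_zero]
      exact pow_eq_zero_iff (two_ne_zero) |>.mp (by nlinarith [sq_nonneg ‖a‖, sq_nonneg ‖b‖])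
    refine ⟨1, by simp, ?_⟩
    rw [h0, ha, hb]
    simp
  · set r : ℝ := Real.sqrt (‖a‖ ^ 2 + ‖b‖ ^ 2) with hr
    have hr0 : 0 < r := Real.sqrt_pos.mpr (lt_of_le_of_ne (by positivity) (Ne.symm h0))
    have hr2 : r ^ 2 = ‖a‖ ^ 2 + ‖b‖ ^ 2 := Real.sq_sqrt (by positivity)
    by_cases ha : a = 0
    · refine ⟨!![0, 1; r⁻¹ • b, 0], ?_, ?_⟩
      · have hb : ‖b‖ ^ 2 = r ^ 2 := by
          rw [hr2, ha]
          simp
        have h1 : star (r⁻¹ • b) * (r⁻¹ • b) = 1 := by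
          rw [ssm_h12, norm_smul, mul_pow, hb, norm_inv, Real.norm_eq_abs, abs_of_pos hr0, inv_pow,
            inv_mul_cancel₀ (by positivity), Quaternion.coe_one]
        ext1 i j
        fin_cases i <;> fin_cases j
        · simpa [mul_apply, Fin.sum_univ_two] using h1
        · simp [mul_apply, Fin.sum_univ_two]
        · simp [mul_apply, Fin.sum_univ_two]
        · simp [mul_apply, Fin.sum_univ_two]
      · ext1 i
        fin_cases i
        · simp [mulVec, dotProduct, Fin.sum_univ_two, ha]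
        · have h2 : (r⁻¹ • b) * (r : Hq) = b := by
            rw [← Quaternion.coe_commutes, Quaternion.coe_mul_eq_smul, smul_smul,
              mul_inv_cancel₀ hr0.ne', one_smul]
          simpa [mulVec, dotProduct, Fin.sum_univ_two] using h2
    · have hna : 0 < ‖a‖ := norm_pos_iff.mpr ha
      refine ⟨!![r⁻¹ • a, (-(r⁻¹ * ‖a‖⁻¹)) • (a * star b); r⁻¹ • b, ((r⁻¹ * ‖a‖ : ℝ) : Hq)], ?_, ?_⟩
      · ext1 i j
        fin_cases i <;> fin_cases j
        · have h1 : star (r⁻¹ • a) * (r⁻¹ • a) + star (r⁻¹ • b) * (r⁻¹ • b) = 1 := by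
            rw [ssm_h12, ssm_h12, norm_smul, norm_smul, ← Quaternion.coe_add, ← Quaternion.coe_one]
            congr 1
            rw [norm_inv, Real.norm_eq_abs, abs_of_pos hr0, mul_pow, mul_pow, ← mul_add, ← hr2,
              inv_pow, inv_mul_cancel₀ (by positivity)]
          simpa [mul_apply, Fin.sum_univ_two] using h1
        · have h1 : star (r⁻¹ • a) * ((-(r⁻¹ * ‖a‖⁻¹)) • (a * star b)) +
              star (r⁻¹ • b) * ((r⁻¹ * ‖a‖ : ℝ) : Hq) = 0 := by
            rw [Quaternion.star_smul, Quaternion.star_smul, smul_mul_smul_comm, ← mul_assoc, ssm_h12,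
              ← Quaternion.coe_commutes, Quaternion.coe_mul_eq_smul, Quaternion.coe_mul_eq_smul,
              smul_smul, smul_smul, ← add_smul]
            have h2 : r⁻¹ * -(r⁻¹ * ‖a‖⁻¹) * ‖a‖ ^ 2 + r⁻¹ * ‖a‖ * r⁻¹ = 0 := by
              field_simp
              ring
            rw [h2, zero_smul]
          simpa [mul_apply, Fin.sum_univ_two] using h1
        · have h1 : star ((-(r⁻¹ * ‖a‖⁻¹)) • (a * star b)) * (r⁻¹ • a) +
              star ((r⁻¹ * ‖a‖ : ℝ) : Hq) * (r⁻¹ • b) = 0 := by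
            rw [Quaternion.star_smul, star_mul, star_star, smul_mul_smul_comm, mul_assoc, ssm_h12,
              Quaternion.star_coe, Quaternion.coe_mul_eq_smul, ← Quaternion.coe_commutes,
              Quaternion.coe_mul_eq_smul, smul_smul, smul_smul, ← add_smul]
            have h2 : -(r⁻¹ * ‖a‖⁻¹) * r⁻¹ * ‖a‖ ^ 2 + r⁻¹ * ‖a‖ * r⁻¹ = 0 := by
              field_simp
              ring
            rw [h2, zero_smul]
          simpa [mul_apply, Fin.sum_univ_two] using h1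
        · have h1 : star ((-(r⁻¹ * ‖a‖⁻¹)) • (a * star b)) * ((-(r⁻¹ * ‖a‖⁻¹)) • (a * star b)) +
              star ((r⁻¹ * ‖a‖ : ℝ) : Hq) * ((r⁻¹ * ‖a‖ : ℝ) : Hq) = 1 := by
            rw [ssm_h12, ssm_h12, norm_smul, norm_mul, norm_star, Quaternion.norm_coe,
              ← Quaternion.coe_add, ← Quaternion.coe_one]
            congr 1
            rw [norm_neg, Real.norm_eq_abs, Real.norm_eq_abs, mul_pow, sq_abs, sq_abs]
            have h3 : r ^ 2 ≠ 0 := by positivity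
            field_simp
            linarith
          simpa [mul_apply, Fin.sum_univ_two] using h1
      · ext1 i
        fin_cases i
        · have h2 : (r⁻¹ • a) * (r : Hq) = a := by
            rw [← Quaternion.coe_commutes, Quaternion.coe_mul_eq_smul, smul_smul,
              mul_inv_cancel₀ hr0.ne', one_smul]
          simpa [mulVec, dotProduct, Fin.sum_univ_two] using h2
        · have h2 : (r⁻¹ • b) * (r : Hq) = b := by
            rw [← Quaternion.coe_commutes, Quaternion.coe_mul_eq_smul, smul_smul,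
              mul_inv_cancel₀ hr0.ne', one_smul]
          simpa [mulVec, dotProduct, Fin.sum_univ_two] using h2

/-- the standard column -/
private noncomputable def w_h12 (c : ℝ) : Fin 2 ⊕ Unit → Hq :=
  Sum.elim ![((Real.sqrt (c ^ 2 - 1) : ℝ) : Hq), 0] (fun _ => (c : Hq))

private theorem norm_form_h12 (g : Sp21) : ∃ k ∈ KK,
    mt_h12 (k * g) *ᵥ Pi.single (Sum.inr ()) 1 = w_h12 ‖ent g‖ := by
  obtain ⟨U, hU, hUv⟩ := trans_h12 (mt_h12 g (Sum.inl 0) (Sum.inr ())) (mt_h12 g (Sum.inl 1) (Sum.inr ()))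
  have hc : 0 < ‖ent g‖ := by linarith [one_le_ent g]
  have hu : (Matrix.of fun _ _ => ‖ent g‖⁻¹ • ent g : MH Unit)ᴴ * (Matrix.of fun _ _ => ‖ent g‖⁻¹ • ent g : MH Unit) = 1 := by
    ext1 i j
    have h1 : star (‖ent g‖⁻¹ • ent g) * (‖ent g‖⁻¹ • ent g) = 1 := by
      rw [ssm_h12, norm_smul, norm_inv, norm_norm, inv_mul_cancel₀ hc.ne', one_pow, Quaternion.coe_one]
    rw [mul_apply, Finset.univ_unique, Finset.sum_singleton, conjTranspose_apply,
      show j = i from Subsingleton.elim _ _, one_apply_eq]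
    exact h1
  obtain ⟨k, hk, hkm⟩ := exists_blk_h12 hU hu
  refine ⟨k⁻¹, KK.inv_mem hk, ?_⟩
  have h1 : mt_h12 g *ᵥ Pi.single (Sum.inr ()) 1 = mt_h12 k *ᵥ w_h12 ‖ent g‖ := by
    rw [hkm]
    unfold w_h12
    rw [fromBlocks_mulVec]
    have hs : Real.sqrt (‖ent g‖ ^ 2 - 1) =
        Real.sqrt (‖mt_h12 g (Sum.inl 0) (Sum.inr ())‖ ^ 2 + ‖mt_h12 g (Sum.inl 1) (Sum.inr ())‖ ^ 2) := by
      congr 1
      have h2 := norm_ent g
      change _ = 1 + ‖mt_h12 g (Sum.inl 0) (Sum.inr ())‖ ^ 2 + ‖mt_h12 g (Sum.inl 1) (Sum.inr ())‖ ^ 2 at h2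
      linarith
    have e1 : (Sum.elim ![((Real.sqrt (‖ent g‖ ^ 2 - 1) : ℝ) : Hq), 0] (fun _ : Unit => (‖ent g‖ : Hq))) ∘ Sum.inl =
        ![((Real.sqrt (‖ent g‖ ^ 2 - 1) : ℝ) : Hq), 0] := rfl
    have e2 : (Sum.elim ![((Real.sqrt (‖ent g‖ ^ 2 - 1) : ℝ) : Hq), 0] (fun _ : Unit => (‖ent g‖ : Hq))) ∘ Sum.inr =
        fun _ : Unit => (‖ent g‖ : Hq) := rfl
    rw [e1, e2, hs, hUv, mulVec_single_one]
    funext i
    rcases i with i | i
    · fin_cases i <;> simp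
    · have h3 : (‖ent g‖⁻¹ • ent g) * (‖ent g‖ : Hq) = ent g := by
        rw [← Quaternion.coe_commutes, Quaternion.coe_mul_eq_smul, smul_smul,
          mul_inv_cancel₀ hc.ne', one_smul]
      have h4 : ((Matrix.of fun _ _ => ‖ent g‖⁻¹ • ent g : MH Unit) *ᵥ fun _ : Unit => (‖ent g‖ : Hq)) i = ent g := by
        simp only [mulVec, dotProduct, of_apply, Finset.univ_unique, Finset.sum_singleton]
        exact h3
      rw [zero_mulVec, zero_mulVec]
      simp only [Sum.elim_inr, Pi.add_apply, Pi.zero_apply, zero_add]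
      rw [h4]
      rfl
  rw [mt_mul_h12, ← mulVec_mulVec, h1, mulVec_mulVec, ← mt_mul_h12, inv_mul_cancel, mt_one_h12, one_mulVec]

/-- Cartan decomposition. -/
theorem kak {g g' : Sp21} (h : ‖ent g‖ = ‖ent g'‖) : ∃ k ∈ KK, ∃ k' ∈ KK, g' = k * g * k' := by
  obtain ⟨k, hk, hkg⟩ := norm_form_h12 g
  obtain ⟨k', hk', hkg'⟩ := norm_form_h12 g'
  rw [← h] at hkg'
  have h1 : mt_h12 ((k * g)⁻¹ * (k' * g')) *ᵥ Pi.single (Sum.inr ()) 1 = Pi.single (Sum.inr ()) 1 := by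
    rw [mt_mul_h12, ← mulVec_mulVec, hkg', ← hkg, mulVec_mulVec, ← mt_mul_h12, inv_mul_cancel, mt_one_h12,
      one_mulVec]
  have h2 : ent ((k * g)⁻¹ * (k' * g')) = 1 := by
    have h3 := congrFun h1 (Sum.inr ())
    rw [mulVec_single_one, Pi.single_eq_same] at h3
    exact h3
  refine ⟨k'⁻¹ * k, KK.mul_mem (KK.inv_mem hk') hk, (k * g)⁻¹ * (k' * g'), ?_, ?_⟩
  · rw [mem_KK, h2, norm_one]
  · group

/-- the matrices of the one parameter group -/
noncomputable def aM (s : ℝ) : MH (Fin 2 ⊕ Unit) := fromBlocks !![(Real.cosh s : Hq), 0; 0, 1]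
  (Matrix.of fun i _ => ![(Real.sinh s : Hq), 0] i) (Matrix.of fun _ j => ![(Real.sinh s : Hq), 0] j)
  (Matrix.of fun _ _ => (Real.cosh s : Hq))

private theorem ext21_h12 {A B : MH (Fin 2 ⊕ Unit)}
    (h00 : A (Sum.inl 0) (Sum.inl 0) = B (Sum.inl 0) (Sum.inl 0))
    (h01 : A (Sum.inl 0) (Sum.inl 1) = B (Sum.inl 0) (Sum.inl 1))
    (h0p : A (Sum.inl 0) (Sum.inr ()) = B (Sum.inl 0) (Sum.inr ()))
    (h10 : A (Sum.inl 1) (Sum.inl 0) = B (Sum.inl 1) (Sum.inl 0))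
    (h11 : A (Sum.inl 1) (Sum.inl 1) = B (Sum.inl 1) (Sum.inl 1))
    (h1p : A (Sum.inl 1) (Sum.inr ()) = B (Sum.inl 1) (Sum.inr ()))
    (hp0 : A (Sum.inr ()) (Sum.inl 0) = B (Sum.inr ()) (Sum.inl 0))
    (hp1 : A (Sum.inr ()) (Sum.inl 1) = B (Sum.inr ()) (Sum.inl 1))
    (hpp : A (Sum.inr ()) (Sum.inr ()) = B (Sum.inr ()) (Sum.inr ())) : A = B := by
  ext1 i j
  rcases i with i | i <;> rcases j with j | j
  · fin_cases i <;> fin_cases j
    · exact h00
    · exact h01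
    · exact h10
    · exact h11
  · fin_cases i
    · exact h0p
    · exact h1p
  · fin_cases j
    · exact hp0
    · exact hp1
  · exact hpp

private theorem mul21_h12 (A B : MH (Fin 2 ⊕ Unit)) (i j : Fin 2 ⊕ Unit) : (A * B) i j =
    A i (Sum.inl 0) * B (Sum.inl 0) j + A i (Sum.inl 1) * B (Sum.inl 1) j +
      A i (Sum.inr ()) * B (Sum.inr ()) j := by
  rw [mul_apply]
  simp only [Fintype.sum_sum_type, Fin.sum_univ_two, Finset.univ_unique, Finset.sum_singleton]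

private theorem a00_h12 (s : ℝ) : aM s (Sum.inl 0) (Sum.inl 0) = (Real.cosh s : Hq) := rfl
private theorem a01_h12 (s : ℝ) : aM s (Sum.inl 0) (Sum.inl 1) = 0 := rfl
private theorem a10_h12 (s : ℝ) : aM s (Sum.inl 1) (Sum.inl 0) = 0 := rfl
private theorem a11_h12 (s : ℝ) : aM s (Sum.inl 1) (Sum.inl 1) = 1 := rfl
private theorem a0p_h12 (s : ℝ) : aM s (Sum.inl 0) (Sum.inr ()) = (Real.sinh s : Hq) := rfl
private theorem a1p_h12 (s : ℝ) : aM s (Sum.inl 1) (Sum.inr ()) = 0 := rfl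
private theorem ap0_h12 (s : ℝ) : aM s (Sum.inr ()) (Sum.inl 0) = (Real.sinh s : Hq) := rfl
private theorem ap1_h12 (s : ℝ) : aM s (Sum.inr ()) (Sum.inl 1) = 0 := rfl
private theorem app_h12 (s : ℝ) : aM s (Sum.inr ()) (Sum.inr ()) = (Real.cosh s : Hq) := rfl

private theorem aM_mem_h12 (s : ℝ) : (aM s)ᴴ * Jm e21 * aM s = Jm e21 := by
  have hcs : (Real.cosh s : Hq) * (Real.cosh s : Hq) = 1 + (Real.sinh s : Hq) * (Real.sinh s : Hq) := by
    rw [← Quaternion.coe_mul, ← Quaternion.coe_mul, ← Quaternion.coe_one, ← Quaternion.coe_add]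
    congr 1
    have := Real.cosh_sq s
    nlinarith
  have hcomm : (Real.cosh s : Hq) * (Real.sinh s : Hq) = (Real.sinh s : Hq) * (Real.cosh s : Hq) :=
    Quaternion.coe_commutes _ _
  have hJ : Jm e21 = diagonal (Sum.elim (fun _ => (-1 : Hq)) (fun _ => 1)) := by
    unfold Jm
    congr 1
    funext i
    rcases i with i | i
    · simp [e21]
    · simp [e21]
  rw [hJ]
  refine ext21_h12 ?_ ?_ ?_ ?_ ?_ ?_ ?_ ?_ ?_ <;>
    rw [mul21_h12] <;>
    simp only [mul_diagonal, conjTranspose_apply, a00_h12, a01_h12, a10_h12, a11_h12, a0p_h12, a1p_h12,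
      ap0_h12, ap1_h12, app_h12, Quaternion.star_coe, star_zero, star_one, Sum.elim_inl, Sum.elim_inr,
      mul_neg, mul_one, neg_mul, zero_mul, mul_zero, neg_zero, add_zero, zero_add, one_mul]
  · rw [hcs, diagonal_apply_eq, Sum.elim_inl]
    abel
  · rw [diagonal_apply_ne _ (by simp)]
  · rw [diagonal_apply_ne _ (by simp), hcomm]
    abel
  · rw [diagonal_apply_ne _ (by simp)]
  · rw [diagonal_apply_eq, Sum.elim_inl]
  · rw [diagonal_apply_ne _ (by simp)]
  · rw [diagonal_apply_ne _ (by simp), hcomm]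
    abel
  · rw [diagonal_apply_ne _ (by simp)]
  · rw [hcs, diagonal_apply_eq, Sum.elim_inr]
    abel

private theorem aM_add_h12 (s t : ℝ) : aM (s + t) = aM s * aM t := by
  have hcomm : (Real.cosh s : Hq) * (Real.sinh t : Hq) = (Real.sinh t : Hq) * (Real.cosh s : Hq) :=
    Quaternion.coe_commutes _ _
  refine ext21_h12 ?_ ?_ ?_ ?_ ?_ ?_ ?_ ?_ ?_ <;>
    rw [mul21_h12] <;>
    simp only [a00_h12, a01_h12, a10_h12, a11_h12, a0p_h12, a1p_h12, ap0_h12, ap1_h12, app_h12,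
      mul_one, zero_mul, mul_zero, add_zero, zero_add, one_mul, Real.cosh_add, Real.sinh_add,
      Quaternion.coe_add, Quaternion.coe_mul]
  · abel
  · abel

private theorem continuous_aM_h12 : Continuous aM := by
  have hc : Continuous fun s : ℝ => (Real.cosh s : Hq) := Quaternion.continuous_coe.comp Real.continuous_cosh
  have hs : Continuous fun s : ℝ => (Real.sinh s : Hq) := Quaternion.continuous_coe.comp Real.continuous_sinh
  refine continuous_matrix fun i j => ?_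
  unfold aM
  rcases i with i | i <;> rcases j with j | j
  · fin_cases i <;> fin_cases j
    · exact hc
    · exact continuous_const
    · exact continuous_const
    · exact continuous_const
  · fin_cases i
    · exact hs
    · exact continuous_const
  · fin_cases j
    · exact hs
    · exact continuous_const
  · exact hc

/-- the one parameter group -/
theorem exists_aa : ∃ aa : ℝ → Sp21, (∀ s t, aa (s + t) = aa s * aa t) ∧ Continuous aa ∧
    ∀ s, ((aa s : (MH (Fin 2 ⊕ Unit))ˣ) : MH (Fin 2 ⊕ Unit)) = aM s := by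
  choose f hf using fun s => exists_of_mem sgn21 (aM_mem_h12 s)
  refine ⟨f, fun s t => ?_, ?_, hf⟩
  · refine spJ_ext ?_
    rw [hf, aM_add_h12, ← hf s, ← hf t]
    rfl
  · rw [(isClosedEmbedding_val sgn21).isInducing.continuous_iff]
    refine continuous_aM_h12.congr fun s => ?_
    exact (hf s).symm

/-- the one parameter group -/
noncomputable def aa : ℝ → Sp21 := exists_aa.choose

theorem aa_add (s t : ℝ) : aa (s + t) = aa s * aa t := exists_aa.choose_spec.1 s t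

theorem continuous_aa : Continuous aa := exists_aa.choose_spec.2.1

theorem aa_coe (s : ℝ) : ((aa s : (MH (Fin 2 ⊕ Unit))ˣ) : MH (Fin 2 ⊕ Unit)) = aM s := exists_aa.choose_spec.2.2 s

private theorem mt_aa_h12 (s : ℝ) : mt_h12 (aa s) = aM s := aa_coe s

theorem ent_aa (s : ℝ) : ‖ent (aa s)‖ = Real.cosh s := by
  rw [ent_eq_h12, mt_aa_h12]
  have h : aM s (Sum.inr ()) (Sum.inr ()) = (Real.cosh s : Hq) := rfl
  rw [h, Quaternion.norm_coe, Real.norm_eq_abs, abs_of_pos (Real.cosh_pos s)]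

/-- the embedding of `Sp(2)` -/
theorem exists_iK : ∃ iK : K2 →* Sp21, Continuous iK ∧ (∀ k, iK k ∈ KK) ∧
    ∀ k, ((iK k : (MH (Fin 2 ⊕ Unit))ˣ) : MH (Fin 2 ⊕ Unit)) = fromBlocks (k : MH (Fin 2)) 0 0 1 := by
  have h0 : ∀ k : K2, ∃ g ∈ KK, mt_h12 g = fromBlocks (k : MH (Fin 2)) 0 0 (1 : MH Unit) := fun k =>
    exists_blk_h12 (Unitary.coe_star_mul_self k) (by simp)
  choose f hfK hf using h0
  have hf' : ∀ k : K2, ((f k : (MH (Fin 2 ⊕ Unit))ˣ) : MH (Fin 2 ⊕ Unit)) = fromBlocks (k : MH (Fin 2)) 0 0 1 := hf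
  have hmul : ∀ a b, f (a * b) = f a * f b := by
    intro a b
    refine spJ_ext ?_
    change mt_h12 (f (a * b)) = mt_h12 (f a) * mt_h12 (f b)
    rw [hf, hf, hf, fromBlocks_multiply]
    simp
  refine ⟨MonoidHom.mk' f hmul, ?_, hfK, hf'⟩
  change Continuous f
  rw [(isClosedEmbedding_val sgn21).isInducing.continuous_iff]
  have hc : Continuous fun k : K2 => fromBlocks (k : MH (Fin 2)) 0 0 (1 : MH Unit) :=
    Continuous.matrix_fromBlocks continuous_subtype_val continuous_const continuous_const continuous_const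
  refine hc.congr fun k => ?_
  exact (hf' k).symm

/-- the embedding of `Sp(2)` -/
noncomputable def iK : K2 →* Sp21 := exists_iK.choose

theorem continuous_iK : Continuous iK := exists_iK.choose_spec.1

theorem iK_mem (k : K2) : iK k ∈ KK := exists_iK.choose_spec.2.1 k

theorem iK_coe (k : K2) : ((iK k : (MH (Fin 2 ⊕ Unit))ˣ) : MH (Fin 2 ⊕ Unit)) = fromBlocks (k : MH (Fin 2)) 0 0 1 :=
  exists_iK.choose_spec.2.2 k

private theorem mt_iK_h12 (k : K2) : mt_h12 (iK k) = fromBlocks (k : MH (Fin 2)) 0 0 1 := iK_coe k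

private theorem mix_aux_h12 (V : MH (Fin 2)) (s : ℝ) :
    (aM (-s) * (fromBlocks V 0 0 (1 : MH Unit) * aM s)) (Sum.inr ()) (Sum.inr ()) =
      V 0 0 + Real.cosh s ^ 2 • (1 - V 0 0) := by
  have h2 : (Real.sinh s : Hq) * (V 0 0 * (Real.sinh s : Hq)) = (Real.cosh s ^ 2 - 1) • V 0 0 := by
    rw [← Quaternion.coe_commutes, ← mul_assoc, ← Quaternion.coe_mul, Quaternion.coe_mul_eq_smul]
    congr 1
    have := Real.cosh_sq s
    nlinarith
  have h3 : (Real.cosh s : Hq) * (Real.cosh s : Hq) = (Real.cosh s ^ 2) • (1 : Hq) := by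
    rw [← Quaternion.coe_mul, ← Quaternion.coe_mul_eq_smul, mul_one, sq]
  have c0 : (fromBlocks V 0 0 (1 : MH Unit) * aM s) (Sum.inl 0) (Sum.inr ()) =
      V 0 0 * (Real.sinh s : Hq) := by
    rw [mul21_h12, a0p_h12, a1p_h12, app_h12, fromBlocks_apply₁₁, fromBlocks_apply₁₂, mul_zero, add_zero,
      Matrix.zero_apply, zero_mul, add_zero]
  have cp : (fromBlocks V 0 0 (1 : MH Unit) * aM s) (Sum.inr ()) (Sum.inr ()) =
      (Real.cosh s : Hq) := by
    rw [mul21_h12, a0p_h12, a1p_h12, app_h12, fromBlocks_apply₂₁, fromBlocks_apply₂₁, fromBlocks_apply₂₂,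
      Matrix.zero_apply, zero_mul, mul_zero, add_zero, zero_add, one_apply_eq, one_mul]
  rw [mul21_h12, c0, cp, ap0_h12, ap1_h12, app_h12, zero_mul, add_zero, Real.sinh_neg, Real.cosh_neg,
    Quaternion.coe_neg, neg_mul, h2, h3, smul_sub, sub_smul, one_smul]
  abel

theorem ent_mix (k k' : K2) (s : ℝ) : ‖ent ((iK k * aa s)⁻¹ * (iK k' * aa s))‖ =
    ‖qq k k' + Real.cosh s ^ 2 • (1 - qq k k')‖ := by
  have ha0 : aa 0 = 1 := by
    have h := aa_add 0 0
    rw [add_zero] at h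
    exact (mul_eq_left.mp h.symm)
  have hinv : (aa s)⁻¹ = aa (-s) := by
    rw [inv_eq_iff_mul_eq_one, ← aa_add, add_neg_cancel, ha0]
  have h1 : (iK k * aa s)⁻¹ * (iK k' * aa s) = aa (-s) * (iK (k⁻¹ * k') * aa s) := by
    rw [_root_.mul_inv_rev, hinv, map_mul, map_inv]
    group
  have h2 : ent ((iK k * aa s)⁻¹ * (iK k' * aa s)) = qq k k' + Real.cosh s ^ 2 • (1 - qq k k') := by
    rw [h1, ent_eq_h12, mt_mul_h12, mt_mul_h12, mt_aa_h12, mt_aa_h12, mt_iK_h12]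
    exact mix_aux_h12 _ s
  rw [h2]

end Pool.Agent.Helper84.SPQ
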