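import Mathlib

/-!
# Project SPQ (MP_0f6f3f_an): quaternionic unitary groups (definitions)

`SpJ n e`: the group of the invertible quaternionic matrices `g` with `gᴴ J g = J`, `J = diag(e)`. `Sp21 = Sp(2, 1)`: `n = Fin 2 ⊕ Unit`, `e = (-1, -1; 1)`.
`K2 = Sp(2)`: unitary quaternionic `2 × 2` matrices. `U1 = Sp(1)`: the unit quaternions.
-/

set_option autoImplicit false

open Matrix

namespace Pool.Agent.Helper84.SPQ

/-- the quaternions -/
abbrev Hq : Type := Quaternion ℝ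

/-- quaternionic matrices -/
abbrev MH (n : Type) : Type := Matrix n n Hq

section

variable {n : Type} [Fintype n] [DecidableEq n]

/-- the diagonal matrix of the form -/
noncomputable def Jm (e : n → ℝ) : MH n := diagonal fun i => (e i : Hq)

omit [Fintype n] in
theorem Jm_star (e : n → ℝ) : (Jm e)ᴴ = Jm e := by
  unfold Jm
  rw [diagonal_conjTranspose]
  congr 1
  funext i
  simp

/-- quaternionic unitary groups -/
noncomputable def SpJ (n : Type) [Fintype n] [DecidableEq n] (e : n → ℝ) : Subgroup (MH n)ˣ where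
  carrier := {g | (g : MH n)ᴴ * Jm e * (g : MH n) = Jm e}
  mul_mem' {g h} hg hh := by
    have hg' : (g : MH n)ᴴ * Jm e * (g : MH n) = Jm e := hg
    have hh' : (h : MH n)ᴴ * Jm e * (h : MH n) = Jm e := hh
    change ((g * h : (MH n)ˣ) : MH n)ᴴ * Jm e * ((g * h : (MH n)ˣ) : MH n) = Jm e
    rw [Units.val_mul, conjTranspose_mul]
    calc (h : MH n)ᴴ * (g : MH n)ᴴ * Jm e * ((g : MH n) * (h : MH n))
        = (h : MH n)ᴴ * ((g : MH n)ᴴ * Jm e * (g : MH n)) * (h : MH n) := by noncomm_ring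
      _ = Jm e := by rw [hg', hh']
  one_mem' := by
    change ((1 : (MH n)ˣ) : MH n)ᴴ * Jm e * ((1 : (MH n)ˣ) : MH n) = Jm e
    rw [Units.val_one, conjTranspose_one, one_mul, mul_one]
  inv_mem' {g} hg := by
    have hg' : (g : MH n)ᴴ * Jm e * (g : MH n) = Jm e := hg
    change ((g⁻¹ : (MH n)ˣ) : MH n)ᴴ * Jm e * ((g⁻¹ : (MH n)ˣ) : MH n) = Jm e
    have h1 : ((g⁻¹ : (MH n)ˣ) : MH n)ᴴ * (g : MH n)ᴴ = 1 := by
      rw [← conjTranspose_mul, Units.mul_inv, conjTranspose_one]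
    calc ((g⁻¹ : (MH n)ˣ) : MH n)ᴴ * Jm e * ((g⁻¹ : (MH n)ˣ) : MH n)
        = ((g⁻¹ : (MH n)ˣ) : MH n)ᴴ * ((g : MH n)ᴴ * Jm e * (g : MH n)) * ((g⁻¹ : (MH n)ˣ) : MH n) := by rw [hg']
      _ = (((g⁻¹ : (MH n)ˣ) : MH n)ᴴ * (g : MH n)ᴴ) * Jm e * ((g : MH n) * ((g⁻¹ : (MH n)ˣ) : MH n)) := by
          noncomm_ring
      _ = Jm e := by rw [h1, Units.mul_inv, one_mul, mul_one]

theorem mem_SpJ {e : n → ℝ} {g : (MH n)ˣ} : g ∈ SpJ n e ↔ (g : MH n)ᴴ * Jm e * (g : MH n) = Jm e := Iff.rfl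

end

/-- the signs of the form of `Sp(2, 1)` -/
noncomputable def e21 : Fin 2 ⊕ Unit → ℝ := Sum.elim (fun _ => -1) (fun _ => 1)

/-- the group `Sp(2, 1)` -/
abbrev Sp21 : Type := SpJ (Fin 2 ⊕ Unit) e21

/-- the entry of an element of `Sp(2, 1)` at the positive vector -/
noncomputable def ent (g : Sp21) : Hq := ((g : (MH (Fin 2 ⊕ Unit))ˣ) : MH (Fin 2 ⊕ Unit)) (Sum.inr ()) (Sum.inr ())

/-- the group `Sp(2)` -/
abbrev K2 : Type := unitary (MH (Fin 2))

/-- the group `Sp(1)` -/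
abbrev U1 : Type := Metric.sphere (0 : Hq) 1

noncomputable instance instMeasU1 : MeasurableSpace U1 := borel _

instance instBorelU1 : BorelSpace U1 := ⟨rfl⟩

noncomputable instance instMeasK2 : MeasurableSpace K2 := borel _

instance instBorelK2 : BorelSpace K2 := ⟨rfl⟩

/-- the test function -/
noncomputable def hf (k : K2) : ℝ := ‖(k : MH (Fin 2)) 0 0‖ ^ 2 - 1 / 2

/-- the quaternionic inner product of the first columns -/
noncomputable def qq (k k' : K2) : Hq := ((k⁻¹ * k' : K2) : MH (Fin 2)) 0 0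

end Pool.Agent.Helper84.SPQ
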