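import Pool.Agent.Helper96.RK.Ty2

/-!
# Project SPQ, block K1: chains of length `r - 1` and block functions

`chain_class`. PROOF. For `I` in the chain `J :: c`: `I` contains all `i` with `cl i = none` (if `j ∉ I` then for `γ ∈ TC S (J :: c) 1`: `1 ≤ 1 * (1 + ∑_{i ∈ I} lg i) ≤ lg j`, but `lg j = 0`), and `I` is a union of classes (if `i ∈ I`, `cl j = cl i`, `j ∉ I`
then `1 + ∑_{k ∈ I} lg k ≤ lg j = lg i ≤ ∑_{k ∈ I} lg k`). Let `C(I) ⊆ Fin r` be the set of the `l` with `some l = cl i` for some `i ∈ I`. `J ⊂ I` in the chain gives `C(J) ⊂ C(I)`: `j ∈ I \ J` has `cl j = some l` with `l ∈ C(I)`, `l ∉ C(J)`. So by induction on the chain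
(`IsCh`, `hd`; `hd [] = univ`) `card C(J) + (c.length + 1) ≤ card C(univ) ≤ r = c.length + 2`, so `C(J)` has at most one element. If it is empty take any `l` (`r ≥ 2`).
`bJ_int`: `bJ J` is monotone (`bJ_mono`); for `a ≤ k ≤ b` the gaps between `a` and `k` are in `J`: `bJ J k = bJ J i0` (if not, `exists_of_bJ_lt`); for `k < a` the gap `a - 1` is between `k` and `a` and not in `J` (`mem_of_bJ_eq`); for `k > b` the gap `b` is between `b` and `k`, not in `J`.
-/

set_option autoImplicit false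

open Filter Topology

namespace Pool.Agent.Helper84.SPQ

open Pool.Agent.Helper90.RK Pool.Agent.Helper96.RK

variable {G : Type} [Group G] {N : ℕ} {P : PH G N}

open Classical in
private noncomputable def cls33 {r : ℕ} (cl : Fin N → Option (Fin r)) (I : Finset (Fin N)) : Finset (Fin r) :=
  Finset.univ.filter fun l => ∃ i ∈ I, cl i = some l

private theorem mem_cls33 {r : ℕ} {cl : Fin N → Option (Fin r)} {I : Finset (Fin N)} {l : Fin r} :
    l ∈ cls33 cl I ↔ ∃ i ∈ I, cl i = some l := by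
  unfold cls33
  rw [Finset.mem_filter]
  simp

private theorem count33 {r : ℕ} (cl : Fin N → Option (Fin r)) : ∀ c : List (Finset (Fin N)), IsCh c →
    (∀ I ∈ c, (∀ i, cl i = none → i ∈ I) ∧ ∀ i j, i ∈ I → cl i = cl j → j ∈ I) →
    (cls33 cl (hd c)).card + c.length ≤ r := by
  intro c
  induction c with
  | nil =>
    intro _ _
    have h := Finset.card_le_univ (cls33 cl (hd []))
    rw [Fintype.card_fin] at h
    simpa using h
  | cons J c ih =>
    intro hch hcl
    have h1 := ih hch.2 fun I hI => hcl I (List.mem_cons_of_mem J hI)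
    obtain ⟨ha, hb⟩ := hcl J List.mem_cons_self
    have hlt : cls33 cl J ⊂ cls33 cl (hd c) := by
      obtain ⟨hsub, hnsub⟩ := hch.1
      rw [Finset.ssubset_iff_of_subset (fun l hl => by
        obtain ⟨i, hi, hil⟩ := mem_cls33.1 hl
        exact mem_cls33.2 ⟨i, hsub hi, hil⟩)]
      have hex : ∃ j ∈ hd c, j ∉ J := by
        by_contra hcon
        push Not at hcon
        exact hnsub hcon
      obtain ⟨j, hj, hjJ⟩ := hex
      cases hcj : cl j with
      | none => exact absurd (ha j hcj) hjJ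
      | some l =>
        refine ⟨l, mem_cls33.2 ⟨j, hj, hcj⟩, fun hl => ?_⟩
        obtain ⟨i, hi, hil⟩ := mem_cls33.1 hl
        exact hjJ (hb i j hi (by rw [hil, hcj]))
    have h2 := Finset.card_lt_card hlt
    change (cls33 cl J).card + (c.length + 1) ≤ r
    omega

theorem chain_class {S : Sv P} {r : ℕ} (cl : Fin N → Option (Fin r)) (h0 : ∀ i, cl i = none → ∀ γ, lg S γ i = 0)
    (h1 : ∀ i j, cl i = cl j → ∀ γ, lg S γ i = lg S γ j) {J : Finset (Fin N)} {c : List (Finset (Fin N))}
    (hch : IsCh (J :: c)) (hne : ∀ m, (TC S (J :: c) m).Nonempty) (hl : c.length + 2 = r) :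
    (∀ i, cl i = none → i ∈ J) ∧ (∀ i j, i ∈ J → cl i = cl j → j ∈ J) ∧
      ∃ l : Fin r, ∀ i ∈ J, cl i = none ∨ cl i = some l := by
  obtain ⟨γ, hγ⟩ := hne 1
  have key : ∀ I ∈ J :: c, (∀ i, cl i = none → i ∈ I) ∧ ∀ i j, i ∈ I → cl i = cl j → j ∈ I := by
    intro I hI
    refine ⟨fun i hi => ?_, fun i j hi hij => ?_⟩
    · by_contra hcon
      have h2 := hγ I hI i hcon
      rw [h0 i hi γ] at h2
      have h3 := sum_lg_nonneg S γ I
      push_cast at h2
      linarith
    · by_contra hcon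
      have h2 := hγ I hI j hcon
      rw [← h1 i j hij γ] at h2
      have h3 : lg S γ i ≤ ∑ k ∈ I, lg S γ k :=
        Finset.single_le_sum (f := fun k => lg S γ k) (fun k _ => lg_nonneg S γ k) hi
      push_cast at h2
      linarith
  have hc := count33 cl (J :: c) hch key
  have hc' : (cls33 cl J).card + (c.length + 1) ≤ r := hc
  have hone : (cls33 cl J).card ≤ 1 := by omega
  refine ⟨(key J List.mem_cons_self).1, (key J List.mem_cons_self).2, ?_⟩
  rcases (cls33 cl J).eq_empty_or_nonempty with he | ⟨l, hl'⟩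
  · refine ⟨⟨0, by omega⟩, fun i hi => ?_⟩
    cases hci : cl i with
    | none => exact Or.inl rfl
    | some l =>
      have : l ∈ cls33 cl J := mem_cls33.2 ⟨i, hi, hci⟩
      rw [he] at this
      exact absurd this (Finset.notMem_empty l)
  · refine ⟨l, fun i hi => ?_⟩
    cases hci : cl i with
    | none => exact Or.inl rfl
    | some l' =>
      have : l' ∈ cls33 cl J := mem_cls33.2 ⟨i, hi, hci⟩
      rw [Finset.card_le_one.1 hone l' this l hl']
      exact Or.inr rfl

theorem bJ_int {J : Finset (Fin N)} {a b : ℕ} (hab : a ≤ b) (hb : b < N) (h : ∀ k : Fin N, a ≤ (k : ℕ) → (k : ℕ) < b → k ∈ J)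
    (hl : ∀ k : Fin N, (k : ℕ) + 1 = a → k ∉ J) (hr : ∀ k : Fin N, (k : ℕ) = b → b + 1 < N → k ∉ J)
    {i0 : Fin N} (hi0 : (i0 : ℕ) = a) (k : Fin N) : bJ J k = bJ J i0 ↔ (a ≤ (k : ℕ) ∧ (k : ℕ) ≤ b) := by
  constructor
  · intro hk
    constructor
    · by_contra hcon
      push Not at hcon
      have hN : a - 1 < N := by omega
      refine hl ⟨a - 1, hN⟩ (by simp; omega) ?_
      refine mem_of_bJ_eq hk (Fin.le_def.2 ?_) (Fin.lt_def.2 ?_)
      · change (k : ℕ) ≤ a - 1
        omega
      · change a - 1 < (i0 : ℕ)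
        omega
    · by_contra hcon
      push Not at hcon
      have hkN := k.2
      refine hr ⟨b, hb⟩ rfl (by omega) ?_
      refine mem_of_bJ_eq hk.symm (Fin.le_def.2 ?_) (Fin.lt_def.2 ?_)
      · change (i0 : ℕ) ≤ b
        omega
      · exact hcon
  · rintro ⟨h1, h2⟩
    have hle : i0 ≤ k := Fin.le_def.2 (by omega)
    refine le_antisymm ?_ (bJ_mono J hle)
    by_contra hcon
    push Not at hcon
    obtain ⟨k', hk1, hk2, hk3⟩ := exists_of_bJ_lt hcon
    have e1 := Fin.le_def.1 hk1
    have e2 := Fin.lt_def.1 hk2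
    exact hk3 (h k' (by omega) (by omega))

end Pool.Agent.Helper84.SPQ
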