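import Pool.Agent.Helper84.SPQ.P0
import Pool.Agent.Helper84.SPQ.B4

/-!
# Project SPQ, block O1: the group `O(3, ℂ)` times unit scalars and its kernels

`f3 A = 0` if and only if `Aᵀ A = c 1` with `‖c‖ = 1`. PROOFS. `f3_isG`: direct (`IsG`: `(A B)ᵀ A B = Bᵀ (c 1) B = c c' 1`, ...).
`o_psd`. For `A ∈ HH f3` write `A = λ O`, `‖λ‖ = 1`, `λ² = c`, `Oᵀ O = 1`, `O = X + i Y` with real `X`, `Y`: `Xᵀ X - Yᵀ Y = 1`, `Xᵀ Y + Yᵀ X = 0`. So `det X ≠ 0` (`Xᵀ X = 1 + Yᵀ Y` positive definite); `Z = Y X⁻¹` is antisymmetric (`Xᵀ (Z + Zᵀ) X = Xᵀ Y + Yᵀ X = 0`), `Z = [z]` the matrix of the cross product with `z ∈ ℝ³`.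
`1 - Zᵀ Z = X⁻ᵀ X⁻¹`; `Zᵀ Z = |z|² 1 - z zᵀ`, so `det (1 - Zᵀ Z) = (1 - |z|²)² = (det X)⁻²`, and (positive definite) `|z| < 1`, `|det X| = 1/(1 - |z|²)`; `trace (X Xᵀ) = trace ((1 - Zᵀ Z)⁻¹) = 1 + 2/(1 - |z|²)` (`(1 - Zᵀ Z)⁻¹ = (1 - |z|²)⁻¹ (1 - z zᵀ)`, check the product), `ns A = ns O = trace (Xᵀ X) + trace (Yᵀ Y) = 2 trace (Xᵀ X) - 3 = 4 |det X| - 1`.
Apply this to `A⁻¹ B`: up to a unit scalar it is `O_Aᵀ O_B`, with real part `X_Aᵀ X_B - Y_Aᵀ Y_B = X_Aᵀ (1 - Z_Aᵀ Z_B) X_B`, `det (1 - Z_Aᵀ Z_B) = (1 - z_A·z_B)²` (`1 + Z Z' = (1 - z·z') 1 + z' zᵀ`; a polynomial identity in six variables: `Matrix.det_fin_three`, `ring`).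
So `4/(ns (A⁻¹ B) + 1) = 1/|det Re| = (1/|det X_A|) (1/|det X_B|) (1 - z_A·z_B)^(-2)`: its power `t` is positive definite by `ball_psd`.
`mdlO`: `mdl_of_kernel`. `Aᴴ A = c 1`, `Aᵀ A = c' 1`, `‖c'‖ = 1`: `‖det A‖ = 1`, so `c = 1` (`c > 0`, `c³ = 1`), `ns A = 3`, `φ A = 1`.
-/

set_option autoImplicit false

open Filter Topology Matrix
open scoped ComplexOrder

namespace Pool.Agent.Helper84.SPQ

open NI

/-- the equation of the complex orthogonal matrices times unit scalars -/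
noncomputable def f3 (A : Matrix (Fin 3) (Fin 3) ℂ) : ℝ :=
  ns (Aᵀ * A - ((Aᵀ * A) 0 0) • (1 : Matrix (Fin 3) (Fin 3) ℂ)) + (‖(Aᵀ * A) 0 0‖ - 1) ^ 2


private theorem nszero1 {A : Matrix (Fin 3) (Fin 3) ℂ} (h : ns A = 0) : A = 0 := by
  have h1 := (Finset.sum_eq_zero_iff_of_nonneg
    (fun i _ => Finset.sum_nonneg fun j _ => sq_nonneg ‖A i j‖)).1 h
  ext i j
  have h2 := (Finset.sum_eq_zero_iff_of_nonneg (fun j _ => sq_nonneg ‖A i j‖)).1
    (h1 i (Finset.mem_univ _)) j (Finset.mem_univ _)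
  simpa using h2

private theorem nsnn1 (A : Matrix (Fin 3) (Fin 3) ℂ) : 0 ≤ ns A :=
  Finset.sum_nonneg fun i _ => Finset.sum_nonneg fun j _ => sq_nonneg ‖A i j‖

private theorem nssmul1 {c : ℂ} (hc : ‖c‖ = 1) (A : Matrix (Fin 3) (Fin 3) ℂ) : ns (c • A) = ns A := by
  unfold ns
  refine Finset.sum_congr rfl fun i _ => Finset.sum_congr rfl fun j _ => ?_
  rw [Matrix.smul_apply, smul_eq_mul, norm_mul, hc, one_mul]

private theorem nscont1 : Continuous fun A : Matrix (Fin 3) (Fin 3) ℂ => ns A := by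
  unfold ns
  refine continuous_finsetSum _ fun i _ => continuous_finsetSum _ fun j _ => ?_
  exact ((continuous_id.matrix_elem i j).norm).pow 2

private theorem nsone1 {c : ℂ} (hc : ‖c‖ = 1) : ns (c • (1 : Matrix (Fin 3) (Fin 3) ℂ)) = 3 := by
  rw [nssmul1 hc]
  unfold ns
  simp [Fin.sum_univ_three, Matrix.one_apply]
  norm_num

theorem f3_eq {A : Matrix (Fin 3) (Fin 3) ℂ} : f3 A = 0 ↔ ∃ c : ℂ, ‖c‖ = 1 ∧ Aᵀ * A = c • (1 : Matrix (Fin 3) (Fin 3) ℂ) := by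
  constructor
  · intro h
    unfold f3 at h
    have h1 := nsnn1 (Aᵀ * A - ((Aᵀ * A) 0 0) • (1 : Matrix (Fin 3) (Fin 3) ℂ))
    have h2 := sq_nonneg (‖(Aᵀ * A) 0 0‖ - 1)
    refine ⟨(Aᵀ * A) 0 0, ?_, ?_⟩
    · have h3 : (‖(Aᵀ * A) 0 0‖ - 1) ^ 2 = 0 := by linarith
      have h4 := pow_eq_zero_iff (two_ne_zero) |>.1 h3
      linarith
    · have h3 := nszero1 (A := Aᵀ * A - ((Aᵀ * A) 0 0) • (1 : Matrix (Fin 3) (Fin 3) ℂ)) (by linarith)
      exact sub_eq_zero.1 h3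
  · rintro ⟨c, hc, h⟩
    unfold f3
    have h1 : (Aᵀ * A) 0 0 = c := by rw [h]; simp
    rw [h1, h, sub_self, hc]
    unfold ns
    simp

theorem f3_isG : IsG f3 := by
  refine ⟨?_, ?_, ?_, ?_, ?_⟩
  · unfold f3
    have h1 : Continuous fun A : Matrix (Fin 3) (Fin 3) ℂ => Aᵀ * A :=
      continuous_id.matrix_transpose.matrix_mul continuous_id
    have h2 : Continuous fun A : Matrix (Fin 3) (Fin 3) ℂ => (Aᵀ * A) 0 0 := h1.matrix_elem 0 0
    exact (nscont1.comp (h1.sub (h2.smul continuous_const))).add ((h2.norm.sub continuous_const).pow 2)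
  · exact f3_eq.2 ⟨1, by simp, by simp⟩
  · intro A hA B hB
    obtain ⟨c, hc, h⟩ := f3_eq.1 hA.1
    obtain ⟨c', hc', h'⟩ := f3_eq.1 hB.1
    refine f3_eq.2 ⟨c * c', by rw [norm_mul, hc, hc', one_mul], ?_⟩
    rw [Matrix.transpose_mul, Matrix.mul_assoc, ← Matrix.mul_assoc Aᵀ, h, Matrix.smul_mul,
      Matrix.one_mul, Matrix.mul_smul, h', smul_smul]
  · intro A hA
    obtain ⟨c, hc, h⟩ := f3_eq.1 hA.1
    have hc0 : c ≠ 0 := by
      intro h0
      rw [h0, norm_zero] at hc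
      exact zero_ne_one hc
    have hu := isUnit_iff_ne_zero.2 hA.2
    have h1 : Aᵀ = c • A⁻¹ := by
      calc Aᵀ = Aᵀ * (A * A⁻¹) := by rw [Matrix.mul_nonsing_inv _ hu, Matrix.mul_one]
        _ = c • A⁻¹ := by rw [← Matrix.mul_assoc, h, Matrix.smul_mul, Matrix.one_mul]
    have h2 : A⁻¹ᵀ = c⁻¹ • A := by
      have h3 : A⁻¹ = c⁻¹ • Aᵀ := by rw [h1, smul_smul, inv_mul_cancel₀ hc0, one_smul]
      rw [h3, Matrix.transpose_smul, Matrix.transpose_transpose]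
    refine f3_eq.2 ⟨c⁻¹, by rw [norm_inv, hc, inv_one], ?_⟩
    rw [h2, Matrix.smul_mul, Matrix.mul_nonsing_inv _ hu]
  · intro c hc A hA
    obtain ⟨c', hc', h'⟩ := f3_eq.1 hA.1
    refine f3_eq.2 ⟨c * (c * c'), by rw [norm_mul, norm_mul, hc, hc', one_mul, one_mul], ?_⟩
    rw [Matrix.transpose_smul, Matrix.smul_mul, Matrix.mul_smul, h', smul_smul, smul_smul, mul_assoc]


private def cr1 (z : Fin 3 → ℝ) : Matrix (Fin 3) (Fin 3) ℝ := !![0, -z 2, z 1; z 2, 0, -z 0; -z 1, z 0, 0]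

private theorem id1a (z : Fin 3 → ℝ) :
    (1 - (cr1 z)ᵀ * cr1 z) * (1 - Matrix.vecMulVec z z) = (1 - (z 0 ^ 2 + z 1 ^ 2 + z 2 ^ 2)) • (1 : Matrix (Fin 3) (Fin 3) ℝ) := by
  ext i j
  fin_cases i <;> fin_cases j <;>
    simp [cr1, Matrix.mul_apply, Fin.sum_univ_three, Matrix.vecMulVec_apply, Matrix.sub_apply, Matrix.one_apply] <;> ring

private theorem id1b (z w : Fin 3 → ℝ) :
    (1 - (cr1 z)ᵀ * cr1 w).det = (1 - (z 0 * w 0 + z 1 * w 1 + z 2 * w 2)) ^ 2 := by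
  rw [Matrix.det_fin_three]
  simp [cr1, Matrix.mul_apply, Fin.sum_univ_three, Matrix.sub_apply]
  ring

private theorem core1 (X Y : Matrix (Fin 3) (Fin 3) ℝ) (h1 : Xᵀ * X - Yᵀ * Y = 1) (h2 : Xᵀ * Y + Yᵀ * X = 0) :
    X.det ≠ 0 ∧ (∃ z : Fin 3 → ℝ, Y = cr1 z * X ∧ 0 < 1 - (z 0 ^ 2 + z 1 ^ 2 + z 2 ^ 2)) ∧
      (X * Xᵀ).trace = 1 + 2 * |X.det| := by
  have hdet : X.det ≠ 0 := by
    intro h0
    obtain ⟨v, hv, hXv⟩ := Matrix.exists_mulVec_eq_zero_iff.2 h0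
    have h3 : v ⬝ᵥ ((Xᵀ * X - Yᵀ * Y) *ᵥ v) = v ⬝ᵥ v := by rw [h1, Matrix.one_mulVec]
    rw [Matrix.sub_mulVec, dotProduct_sub, ← Matrix.mulVec_mulVec, ← Matrix.mulVec_mulVec, hXv,
      Matrix.mulVec_zero, dotProduct_zero, Matrix.dotProduct_mulVec v Yᵀ, Matrix.vecMul_transpose] at h3
    have h4 : 0 ≤ (Y *ᵥ v) ⬝ᵥ (Y *ᵥ v) := Finset.sum_nonneg fun i _ => mul_self_nonneg _
    have h5 : 0 ≤ v ⬝ᵥ v := Finset.sum_nonneg fun i _ => mul_self_nonneg _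
    exact hv (dotProduct_self_eq_zero.1 (by linarith))
  have hX1 : X * X⁻¹ = 1 := Matrix.mul_nonsing_inv _ (isUnit_iff_ne_zero.2 hdet)
  have hX2 : X⁻¹ * X = 1 := Matrix.nonsing_inv_mul _ (isUnit_iff_ne_zero.2 hdet)
  have hX3 : X⁻¹ᵀ * Xᵀ = 1 := by rw [← Matrix.transpose_mul, hX1, Matrix.transpose_one]
  obtain ⟨Z, hZ⟩ : ∃ Z, Y = Z * X := ⟨Y * X⁻¹, by rw [Matrix.mul_assoc, hX2, Matrix.mul_one]⟩
  have hant : Z + Zᵀ = 0 := by
    have h3 : Xᵀ * (Z + Zᵀ) * X = 0 := by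
      rw [hZ, Matrix.transpose_mul] at h2
      rw [← h2, Matrix.mul_add, Matrix.add_mul, Matrix.mul_assoc Xᵀ Z X]
    calc Z + Zᵀ = (X⁻¹ᵀ * Xᵀ) * (Z + Zᵀ) * (X * X⁻¹) := by rw [hX1, hX3, Matrix.one_mul, Matrix.mul_one]
      _ = X⁻¹ᵀ * (Xᵀ * (Z + Zᵀ) * X) * X⁻¹ := by simp only [Matrix.mul_assoc]
      _ = 0 := by rw [h3, Matrix.mul_zero, Matrix.zero_mul]
  have hantij : ∀ i j, Z i j = - Z j i := by
    intro i j
    have := congrFun (congrFun hant i) j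
    simp only [Matrix.add_apply, Matrix.transpose_apply, Matrix.zero_apply] at this
    linarith
  obtain ⟨z, hz⟩ : ∃ z : Fin 3 → ℝ, Z = cr1 z := by
    refine ⟨![Z 2 1, Z 0 2, Z 1 0], ?_⟩
    have h00 := hantij 0 0
    have h11 := hantij 1 1
    have h22 := hantij 2 2
    have h01 := hantij 0 1
    have h12 := hantij 1 2
    have h20 := hantij 2 0
    ext i j
    fin_cases i <;> fin_cases j <;> simp [cr1] <;> linarith
  set D : ℝ := 1 - (z 0 ^ 2 + z 1 ^ 2 + z 2 ^ 2) with hD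
  have hM : X * Xᵀ * (1 - Zᵀ * Z) = 1 := by
    have h3 : Xᵀ * (1 - Zᵀ * Z) * X = 1 := by
      rw [hZ, Matrix.transpose_mul] at h1
      refine Eq.trans ?_ h1
      rw [Matrix.mul_sub, Matrix.sub_mul, Matrix.mul_one]
      simp only [Matrix.mul_assoc]
    calc X * Xᵀ * (1 - Zᵀ * Z) = X * (Xᵀ * (1 - Zᵀ * Z) * X) * X⁻¹ := by
          simp only [Matrix.mul_assoc, hX1, Matrix.mul_one]
      _ = 1 := by rw [h3, Matrix.mul_one, hX1]
  have hP : D • (X * Xᵀ) = 1 - Matrix.vecMulVec z z := by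
    calc D • (X * Xᵀ) = X * Xᵀ * (D • (1 : Matrix (Fin 3) (Fin 3) ℝ)) := by
          rw [Matrix.mul_smul, Matrix.mul_one]
      _ = X * Xᵀ * ((1 - (cr1 z)ᵀ * cr1 z) * (1 - Matrix.vecMulVec z z)) := by rw [id1a]
      _ = 1 - Matrix.vecMulVec z z := by
          rw [← Matrix.mul_assoc, ← hz, hM, Matrix.one_mul]
  have hdd : X.det ^ 2 * D ^ 2 = 1 := by
    have h3 := congrArg Matrix.det hM
    rw [Matrix.det_mul, Matrix.det_mul, Matrix.det_transpose, Matrix.det_one, hz, id1b] at h3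
    rw [← h3, hD]
    ring
  have hD0 : D ≠ 0 := by
    intro h0
    rw [h0] at hdd
    norm_num at hdd
  have hPij : ∀ i j, D * (X * Xᵀ) i j = (1 : Matrix (Fin 3) (Fin 3) ℝ) i j - z i * z j := by
    intro i j
    have := congrFun (congrFun hP i) j
    simpa [Matrix.vecMulVec_apply] using this
  have hm : ∀ i j, (X * Xᵀ) i j = X i 0 * X j 0 + X i 1 * X j 1 + X i 2 * X j 2 := by
    intro i j
    simp [Matrix.mul_apply, Fin.sum_univ_three]
  have h11 := hPij 1 1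
  have h22 := hPij 2 2
  have h12 := hPij 1 2
  have h00 := hPij 0 0
  simp only [Matrix.one_apply_eq] at h11 h22 h00
  rw [Matrix.one_apply_ne (by decide)] at h12
  have hmin : 0 ≤ 1 - z 1 ^ 2 - z 2 ^ 2 := by
    have h3 : 0 ≤ (X * Xᵀ) 1 1 * (X * Xᵀ) 2 2 - (X * Xᵀ) 1 2 ^ 2 := by
      rw [hm, hm, hm]
      nlinarith [sq_nonneg (X 1 0 * X 2 1 - X 1 1 * X 2 0), sq_nonneg (X 1 0 * X 2 2 - X 1 2 * X 2 0),
        sq_nonneg (X 1 1 * X 2 2 - X 1 2 * X 2 1)]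
    have h4 : 1 - z 1 ^ 2 - z 2 ^ 2 = D ^ 2 * ((X * Xᵀ) 1 1 * (X * Xᵀ) 2 2 - (X * Xᵀ) 1 2 ^ 2) := by
      have h5 : D ^ 2 * ((X * Xᵀ) 1 1 * (X * Xᵀ) 2 2 - (X * Xᵀ) 1 2 ^ 2) =
          (D * (X * Xᵀ) 1 1) * (D * (X * Xᵀ) 2 2) - (D * (X * Xᵀ) 1 2) ^ 2 := by ring
      rw [h5, h11, h22, h12]
      ring
    rw [h4]
    positivity
  have hp2 : 0 < (X * Xᵀ) 2 2 := by
    have h3 : 0 ≤ (X * Xᵀ) 2 2 := by rw [hm]; nlinarith [sq_nonneg (X 2 0), sq_nonneg (X 2 1), sq_nonneg (X 2 2)]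
    refine lt_of_le_of_ne h3 fun h4 => hdet ?_
    rw [hm] at h4
    have a0 : X 2 0 = 0 := by
      have : X 2 0 ^ 2 = 0 := by nlinarith [sq_nonneg (X 2 0), sq_nonneg (X 2 1), sq_nonneg (X 2 2)]
      exact pow_eq_zero_iff two_ne_zero |>.1 this
    have a1 : X 2 1 = 0 := by
      have : X 2 1 ^ 2 = 0 := by nlinarith [sq_nonneg (X 2 0), sq_nonneg (X 2 1), sq_nonneg (X 2 2)]
      exact pow_eq_zero_iff two_ne_zero |>.1 this
    have a2 : X 2 2 = 0 := by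
      have : X 2 2 ^ 2 = 0 := by nlinarith [sq_nonneg (X 2 0), sq_nonneg (X 2 1), sq_nonneg (X 2 2)]
      exact pow_eq_zero_iff two_ne_zero |>.1 this
    rw [Matrix.det_fin_three, a0, a1, a2]
    ring
  have hDpos : 0 < D := by
    rcases lt_or_gt_of_ne hD0 with h | h
    · exfalso
      nlinarith [sq_nonneg (z 1), sq_nonneg (z 2), mul_pos (neg_pos.2 h) hp2]
    · exact h
  refine ⟨hdet, ⟨z, by rw [hZ, hz], hDpos⟩, ?_⟩
  have habs : |X.det| * D = 1 := by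
    have h3 : (|X.det| * D) ^ 2 = 1 := by rw [mul_pow, sq_abs, hdd]
    have h4 : 0 ≤ |X.det| * D := by positivity
    nlinarith
  have htr : (X * Xᵀ).trace = (X * Xᵀ) 0 0 + (X * Xᵀ) 1 1 + (X * Xᵀ) 2 2 := by
    rw [Matrix.trace, Fin.sum_univ_three]
    rfl
  have h6 : D * (X * Xᵀ).trace = D * (1 + 2 * |X.det|) := by
    rw [htr, mul_add, mul_add, h00, h11, h22]
    have h7 : D * (1 + 2 * |X.det|) = D + 2 * (|X.det| * D) := by ring
    rw [h7, habs, hD]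
    ring
  exact mul_left_cancel₀ hD0 h6

private theorem reim1 {O : Matrix (Fin 3) (Fin 3) ℂ} (h : Oᵀ * O = 1) :
    (O.map Complex.re)ᵀ * O.map Complex.re - (O.map Complex.im)ᵀ * O.map Complex.im = 1 ∧
      (O.map Complex.re)ᵀ * O.map Complex.im + (O.map Complex.im)ᵀ * O.map Complex.re = 0 := by
  constructor
  · ext i j
    have h1 := congrArg Complex.re (congrFun (congrFun h i) j)
    simp only [Matrix.mul_apply, Fin.sum_univ_three, Matrix.transpose_apply, Complex.add_re, Complex.mul_re] at h1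
    simp only [Matrix.sub_apply, Matrix.mul_apply, Fin.sum_univ_three, Matrix.transpose_apply, Matrix.map_apply]
    have h2 : ((1 : Matrix (Fin 3) (Fin 3) ℂ) i j).re = (1 : Matrix (Fin 3) (Fin 3) ℝ) i j := by
      by_cases hij : i = j <;> simp [Matrix.one_apply, hij]
    rw [h2] at h1
    linarith
  · ext i j
    have h1 := congrArg Complex.im (congrFun (congrFun h i) j)
    simp only [Matrix.mul_apply, Fin.sum_univ_three, Matrix.transpose_apply, Complex.add_im, Complex.mul_im] at h1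
    simp only [Matrix.add_apply, Matrix.mul_apply, Fin.sum_univ_three, Matrix.transpose_apply, Matrix.map_apply,
      Matrix.zero_apply]
    have h2 : ((1 : Matrix (Fin 3) (Fin 3) ℂ) i j).im = 0 := by
      by_cases hij : i = j <;> simp [Matrix.one_apply, hij]
    rw [h2] at h1
    linarith

private theorem nsO1 {O : Matrix (Fin 3) (Fin 3) ℂ} (h : Oᵀ * O = 1) :
    ns O + 1 = 4 * |(O.map Complex.re).det| := by
  obtain ⟨h1, h2⟩ := reim1 h
  obtain ⟨-, -, h3⟩ := core1 _ _ h1 h2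
  have h4 := congrArg Matrix.trace h1
  rw [Matrix.trace_sub, Matrix.trace_one, Matrix.trace_mul_comm, h3] at h4
  have h5 : ns O = (O.map Complex.re * (O.map Complex.re)ᵀ).trace + ((O.map Complex.im)ᵀ * O.map Complex.im).trace := by
    unfold ns
    simp only [Matrix.trace, Matrix.diag_apply, Matrix.mul_apply, Fin.sum_univ_three, Matrix.transpose_apply,
      Matrix.map_apply, Complex.sq_norm, Complex.normSq_apply]
    ring
  rw [h5, h3]
  simp only [Fintype.card_fin, Nat.cast_ofNat] at h4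
  linarith

private theorem pair1 {O P : Matrix (Fin 3) (Fin 3) ℂ} (hO : Oᵀ * O = 1) (hP : Pᵀ * P = 1) {z w : Fin 3 → ℝ}
    (hz : O.map Complex.im = cr1 z * O.map Complex.re) (hw : P.map Complex.im = cr1 w * P.map Complex.re) :
    ns (Oᵀ * P) + 1 = 4 * (|(O.map Complex.re).det| * |(P.map Complex.re).det| *
      (1 - (z 0 * w 0 + z 1 * w 1 + z 2 * w 2)) ^ 2) := by
  have h1 : (Oᵀ * P)ᵀ * (Oᵀ * P) = 1 := by
    have hO' : O * Oᵀ = 1 := mul_eq_one_comm.1 hO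
    rw [Matrix.transpose_mul, Matrix.transpose_transpose, Matrix.mul_assoc, ← Matrix.mul_assoc O, hO',
      Matrix.one_mul, hP]
  have h2 : (Oᵀ * P).map Complex.re =
      (O.map Complex.re)ᵀ * (1 - (cr1 z)ᵀ * cr1 w) * P.map Complex.re := by
    have h3 : (Oᵀ * P).map Complex.re =
        (O.map Complex.re)ᵀ * P.map Complex.re - (O.map Complex.im)ᵀ * P.map Complex.im := by
      ext i j
      simp only [Matrix.sub_apply, Matrix.mul_apply, Fin.sum_univ_three, Matrix.transpose_apply, Matrix.map_apply,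
        Complex.add_re, Complex.mul_re]
      ring
    rw [h3, hz, hw, Matrix.transpose_mul, Matrix.mul_sub, Matrix.sub_mul, Matrix.mul_one]
    simp only [Matrix.mul_assoc]
  rw [nsO1 h1, h2, Matrix.det_mul, Matrix.det_mul, Matrix.det_transpose, id1b, abs_mul, abs_mul,
    abs_of_nonneg (sq_nonneg (1 - (z 0 * w 0 + z 1 * w 1 + z 2 * w 2)))]
  ring

private theorem exO1 {A : Matrix (Fin 3) (Fin 3) ℂ} (hA : A ∈ HH f3) :
    ∃ (μ : ℂ) (O : Matrix (Fin 3) (Fin 3) ℂ), ‖μ‖ = 1 ∧ Oᵀ * O = 1 ∧ A = μ • O := by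
  obtain ⟨c, hc, h⟩ := f3_eq.1 hA.1
  obtain ⟨μ, hμ⟩ := IsAlgClosed.exists_pow_nat_eq c (n := 2) (by norm_num)
  have hn : ‖μ‖ = 1 := by
    have h1 : ‖μ‖ ^ 2 = 1 := by rw [← norm_pow, hμ, hc]
    nlinarith [norm_nonneg μ]
  have h0 : μ ≠ 0 := by
    intro h0
    rw [h0, norm_zero] at hn
    exact zero_ne_one hn
  refine ⟨μ, μ⁻¹ • A, hn, ?_, by rw [smul_smul, mul_inv_cancel₀ h0, one_smul]⟩
  rw [Matrix.transpose_smul, Matrix.smul_mul, Matrix.mul_smul, h, smul_smul, smul_smul, ← hμ]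
  have h3 : μ⁻¹ * μ⁻¹ * μ ^ 2 = 1 := by
    field_simp
  rw [h3, one_smul]

private theorem key1 : ∃ (z : {A : Matrix (Fin 3) (Fin 3) ℂ // A ∈ HH f3} → Fin 3 → ℝ)
    (d : {A : Matrix (Fin 3) (Fin 3) ℂ // A ∈ HH f3} → ℝ),
    (∀ A, 0 < 1 - (z A 0 ^ 2 + z A 1 ^ 2 + z A 2 ^ 2)) ∧ (∀ A, 0 < d A) ∧
      ∀ A B, ns (A.1⁻¹ * B.1) + 1 =
        4 * (d A * d B * (1 - (z A 0 * z B 0 + z A 1 * z B 1 + z A 2 * z B 2)) ^ 2) := by
  choose μ O hμ hO hA using fun A : {A : Matrix (Fin 3) (Fin 3) ℂ // A ∈ HH f3} => exO1 A.2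
  have h1 : ∀ A, ∃ z : Fin 3 → ℝ, (O A).map Complex.im = cr1 z * (O A).map Complex.re ∧
      0 < 1 - (z 0 ^ 2 + z 1 ^ 2 + z 2 ^ 2) := fun A =>
    (core1 _ _ (reim1 (hO A)).1 (reim1 (hO A)).2).2.1
  choose z hz hz1 using h1
  refine ⟨z, fun A => |((O A).map Complex.re).det|, hz1, fun A => ?_, fun A B => ?_⟩
  · exact abs_pos.2 (core1 _ _ (reim1 (hO A)).1 (reim1 (hO A)).2).1
  · rw [← pair1 (hO A) (hO B) (hz A) (hz B)]
    congr 1
    have h0 : μ A ≠ 0 := by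
      intro h0
      have := hμ A
      rw [h0, norm_zero] at this
      exact zero_ne_one this
    have h2 : A.1⁻¹ = (μ A)⁻¹ • (O A)ᵀ := by
      apply Matrix.inv_eq_left_inv
      conv_lhs => rw [hA A]
      rw [Matrix.smul_mul, Matrix.mul_smul, hO A, smul_smul, inv_mul_cancel₀ h0, one_smul]
    have h3 : A.1⁻¹ * B.1 = ((μ A)⁻¹ * μ B) • ((O A)ᵀ * O B) := by
      rw [h2]
      conv_lhs => rw [hA B]
      rw [Matrix.smul_mul, Matrix.mul_smul, smul_smul]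
    rw [h3, nssmul1]
    rw [norm_mul, norm_inv, hμ, hμ, inv_one, one_mul]

theorem o_psd {t : ℝ} (ht : 0 < t) :
    (Matrix.of fun A B : {A : Matrix (Fin 3) (Fin 3) ℂ // A ∈ HH f3} =>
      (((4 / (ns (A.1⁻¹ * B.1) + 1)) ^ t : ℝ) : ℂ)).PosSemidef := by
  obtain ⟨z, d, hz, hd, hk⟩ := key1
  have h1 := ball_psd (X := {A : Matrix (Fin 3) (Fin 3) ℂ // A ∈ HH f3}) (ι := Fin 3)
    (fun A i => ((z A i : ℝ) : ℂ)) (by
      intro A
      have h2 := hz A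
      rw [Fin.sum_univ_three]
      simp only [Complex.norm_real, Real.norm_eq_abs, sq_abs]
      linarith) (fun A => ((d A)⁻¹) ^ t) ht
  convert h1 using 1
  ext A B
  simp only [Matrix.of_apply]
  congr 1
  rw [hk A B]
  have hs : 0 < 1 - (z A 0 * z B 0 + z A 1 * z B 1 + z A 2 * z B 2) := by
    have h2 := hz A
    have h3 := hz B
    nlinarith [sq_nonneg (z A 0 - z B 0), sq_nonneg (z A 1 - z B 1), sq_nonneg (z A 2 - z B 2)]
  have hn : ‖(1 : ℂ) - ∑ i, star ((z A i : ℝ) : ℂ) * ((z B i : ℝ) : ℂ)‖ =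
      1 - (z A 0 * z B 0 + z A 1 * z B 1 + z A 2 * z B 2) := by
    rw [Fin.sum_univ_three]
    have h4 : (1 : ℂ) - (star ((z A 0 : ℝ) : ℂ) * ((z B 0 : ℝ) : ℂ) + star ((z A 1 : ℝ) : ℂ) * ((z B 1 : ℝ) : ℂ) +
        star ((z A 2 : ℝ) : ℂ) * ((z B 2 : ℝ) : ℂ)) =
        ((1 - (z A 0 * z B 0 + z A 1 * z B 1 + z A 2 * z B 2) : ℝ) : ℂ) := by
      simp only [Complex.star_def, Complex.conj_ofReal]
      push_cast
      ring
    rw [h4, Complex.norm_real, Real.norm_eq_abs, abs_of_pos hs]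
  rw [hn]
  set s : ℝ := 1 - (z A 0 * z B 0 + z A 1 * z B 1 + z A 2 * z B 2) with hsdef
  have hA := hd A
  have hB := hd B
  have h5 : 4 / (4 * (d A * d B * s ^ 2)) = (d A)⁻¹ * (d B)⁻¹ * (s ^ 2)⁻¹ := by
    field_simp
  rw [h5, Real.mul_rpow (by positivity) (by positivity), Real.mul_rpow (by positivity) (by positivity)]
  congr 1
  rw [Real.inv_rpow (by positivity), Real.rpow_neg hs.le, ← Real.rpow_natCast s 2, ← Real.rpow_mul hs.le]
  norm_num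

theorem mdlO {t : ℝ} (ht : 0 < t) :
    ∃ (L : Type) (_ : NormedAddCommGroup L) (_ : InnerProductSpace ℂ L) (_ : CompleteSpace L) (Mo : Mdl f3 L),
      ∀ A ∈ HH f3, inner ℂ Mo.v (Mo.π A Mo.v) = (((4 / (ns A + 1)) ^ t : ℝ) : ℂ) := by
  have h3 : ∀ A : Matrix (Fin 3) (Fin 3) ℂ, ns A = 3 → (4 / (ns A + 1)) ^ t = (1 : ℝ) := by
    intro A hA
    rw [hA]
    norm_num
  refine mdl_of_kernel f3_isG (fun A => (4 / (ns A + 1)) ^ t) ?_ (o_psd ht) ?_ ?_ ?_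
  · refine h3 _ ?_
    have := nsone1 (c := 1) (by simp)
    rwa [one_smul] at this
  · intro c A hA hcA
    refine h3 _ ?_
    obtain ⟨a, ha, h⟩ := f3_eq.1 hA.1
    obtain ⟨a', ha', h'⟩ := f3_eq.1 hcA.1
    have hc : ‖c‖ = 1 := by
      rw [Matrix.transpose_smul, Matrix.smul_mul, Matrix.mul_smul, h, smul_smul, smul_smul] at h'
      have h4 := congrFun (congrFun h' 0) 0
      simp only [Matrix.smul_apply, Matrix.one_apply_eq, smul_eq_mul, mul_one] at h4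
      have h5 : ‖c‖ * ‖c‖ * ‖a‖ = 1 := by
        rw [← norm_mul, ← norm_mul, h4, ha']
      rw [ha, mul_one] at h5
      nlinarith [norm_nonneg c]
    rw [Matrix.mul_smul, Matrix.nonsing_inv_mul _ (isUnit_iff_ne_zero.2 hA.2)]
    exact nsone1 hc
  · have h4 : Continuous fun A : Matrix (Fin 3) (Fin 3) ℂ => (4 / (ns A + 1)) ^ t := by
      refine Continuous.rpow_const ?_ fun A => Or.inl ?_
      · refine continuous_const.div (nscont1.add continuous_const) fun A => ?_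
        have := nsnn1 A
        positivity
      · have := nsnn1 A
        positivity
    exact h4.continuousWithinAt
  · rintro A hA ⟨c, hc⟩
    refine h3 _ ?_
    obtain ⟨a, ha, h⟩ := f3_eq.1 hA.1
    have hdet1 : ‖A.det‖ = 1 := by
      have h4 := congrArg Matrix.det h
      rw [Matrix.det_mul, Matrix.det_transpose, Matrix.det_smul, Matrix.det_one, mul_one, Fintype.card_fin] at h4
      have h5 := congrArg norm h4
      rw [norm_mul, norm_pow, ha, one_pow] at h5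
      nlinarith [norm_nonneg A.det]
    have hdet2 : c ^ 3 = 1 := by
      have h4 := congrArg Matrix.det hc
      rw [Matrix.det_mul, Matrix.det_conjTranspose, Matrix.det_smul, Matrix.det_one, mul_one, Fintype.card_fin] at h4
      have h5 : (star A.det * A.det : ℂ) = ((‖A.det‖ ^ 2 : ℝ) : ℂ) := by
        rw [Complex.star_def, ← Complex.normSq_eq_conj_mul_self, Complex.normSq_eq_norm_sq]
      rw [h5, hdet1] at h4
      have h6 : ((1 ^ 2 : ℝ) : ℂ) = ((c ^ 3 : ℝ) : ℂ) := by rw [h4]; push_cast; rfl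
      have h7 := Complex.ofReal_injective h6
      linarith
    have hc1 : c = 1 := by
      nlinarith [sq_nonneg (c + 1 / 2), sq_nonneg (c - 1)]
    have h8 : ∀ j, ∑ i, ‖A i j‖ ^ 2 = 1 := by
      intro j
      have h9 := congrFun (congrFun hc j) j
      rw [hc1] at h9
      simp only [Matrix.mul_apply, Matrix.conjTranspose_apply, Matrix.smul_apply, Matrix.one_apply_eq,
        smul_eq_mul, mul_one, Complex.ofReal_one] at h9
      have h10 : ((∑ i, ‖A i j‖ ^ 2 : ℝ) : ℂ) = 1 := by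
        rw [← h9]
        push_cast
        refine Finset.sum_congr rfl fun i _ => ?_
        rw [Complex.star_def, ← Complex.normSq_eq_conj_mul_self, Complex.normSq_eq_norm_sq]
        push_cast
        rfl
      exact_mod_cast h10
    unfold ns
    rw [Finset.sum_comm]
    simp only [h8]
    simp

end Pool.Agent.Helper84.SPQ
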