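import Pool.Agent.Helper84.SPQ.O1
import Pool.Agent.Helper84.SPQ.U4
import Pool.Agent.Helper66.RK.Quat

/-!
# Project SPQ, block O2: symmetric bilinear forms in the singular bases, gauge, asymptotics

`Φ` unitary and symmetric, `ι(g)ᵀ Φ ι(g) = Φ`; `ps S Φ γ = (kR γ)ᵀ Φ kR γ`. PROOFS. `ps_trans`, `ps_unit`: clear. `ps_m`: as `jh_m`. `ps_supp`: `conj(Gram) Φ Gram = Φ` with `Gram = ιᴴ ι` (`A Φᴴ Aᵀ = Φᴴ` is proved in `bil_symm`, `Helper66/RK/Quat.lean`; its adjoint is `conj A Φ Aᴴ = Φ`; so `conj(Gram) Φ Gram = Aᵀ (conj A Φ Aᴴ) A = Φ`), `gram_eq`: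
`D ps D = ps`, `D = diag(s²)`, so `ps i k ≠ 0` implies `s_i s_k = 1`. `ps_zero`: as `mid_zero` (`U3.lean`) with `N = 2 r + 1` (there only `s_i s_{rev i} = 1`, here `bil_symm`, and `jh_supp` are used).
`takagi`: a symmetric unitary matrix `U` is `conj κ κᴴ` with `κ` unitary. The real and imaginary parts of `U` commute (from `U conj U = 1`) and are symmetric; a common orthonormal basis of real eigenvectors (joint diagonalisation of commuting symmetric operators: `LinearMap.IsSymmetric.directSum_isInternal_of_pairwise_commute` or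
two steps with the spectral theorem); or by induction on the dimension: there is a unit vector `v` with `U v = conj v` (take any `w ≠ 0`: `w' = w + conj (U w)` satisfies `U w' = conj w'`; if `w' = 0` replace `w` by `i w`), and `U` maps the orthogonal complement of `v` to that of `conj v`. `κ` with columns such vectors: `κᵀ U κ = 1`.
`gaugeO`: `U = res (ps γ)` is unitary on the block by `ps_zero`; `κ` from `takagi`, reindexed by `Fin 3` (the block has `3` elements). `X = diag(1/s_i)`: `X U X = U`, so `(κᴴ X κ)ᵀ (κᴴ X κ) = κᵀ X conj(κ) κᴴ X κ = κᵀ X U X κ = 1` (`conj κ κᴴ = U`). `ns (κᴴ X κ) = ns X = s² + 1 + s⁻²` with `s = s_{r-1}` (`s_r = 1` as `s_r s_{rev r} = s_r² = 1`).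
`o_block`: as `u4_block` (`U4.lean`) with `mᵀ` in place of `mᴴ`. `o_close`: as `u4_close`: `Aᵀ A - 1 → 0` along `T.F n` for `A = κ_γᴴ C κ_γ''`, since `Aᵀ A = κ''ᵀ Cᵀ conj(κ) κᴴ C κ'' = κ''ᵀ (Cᵀ U_γ C) κ''` and `κ''ᵀ U_γ'' κ'' = 1`; `f3` is continuous along bounded families (write `f3 A` in terms of `Aᵀ A - 1`).
-/

set_option autoImplicit false

open Filter Topology Matrix

namespace Pool.Agent.Helper84.SPQ

open NI GN Pool.Agent.Helper90.RK Pool.Agent.Helper66.RK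

variable {G : Type} [Group G] {N : ℕ} {P : PH G N}

/-- The bilinear form in the basis of singular vectors. -/
noncomputable def ps (S : Sv P) (Φ : MN N) (γ : G) : MN N := (S.kR γ)ᵀ * Φ * S.kR γ

section

variable (S : Sv P) {Φ : MN N} (h1 : Φᴴ * Φ = 1) (h2 : Φᵀ = Φ) (h4 : ∀ g, (P.ι g)ᵀ * Φ * P.ι g = Φ)

include h2 in
theorem ps_trans (γ : G) : (ps S Φ γ)ᵀ = ps S Φ γ := by
  simp only [ps, transpose_mul, transpose_transpose, h2, Matrix.mul_assoc]

private theorem kk15 (S : Sv P) (γ : G) : S.kR γ * (S.kR γ)ᴴ = 1 := mul_eq_one_comm.1 (S.uR γ)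

private theorem kt15 (S : Sv P) (γ : G) : ((S.kR γ)ᵀ)ᴴ * (S.kR γ)ᵀ = 1 := by
  have h : ((S.kR γ)ᵀ)ᴴ = ((S.kR γ)ᴴ)ᵀ := by ext i j; simp
  rw [h, ← transpose_mul, kk15, transpose_one]

private theorem kt15' (S : Sv P) (γ : G) : (S.kR γ)ᵀ * ((S.kR γ)ᴴ)ᵀ = 1 := by
  have h : (S.kR γ)ᴴ * S.kR γ = 1 := S.uR γ
  rw [← transpose_mul, h, transpose_one]

include h1 in
theorem ps_unit (γ : G) : (ps S Φ γ)ᴴ * ps S Φ γ = 1 := by
  have e2 : (S.kR γ)ᴴ * S.kR γ = 1 := S.uR γ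
  calc (ps S Φ γ)ᴴ * ps S Φ γ = (S.kR γ)ᴴ * Φᴴ * (((S.kR γ)ᵀ)ᴴ * (S.kR γ)ᵀ) * Φ * S.kR γ := by
        simp only [ps, conjTranspose_mul, Matrix.mul_assoc]
    _ = (S.kR γ)ᴴ * (Φᴴ * Φ) * S.kR γ := by rw [kt15, Matrix.mul_one]; simp only [Matrix.mul_assoc]
    _ = 1 := by rw [h1, Matrix.mul_one, e2]

include h4 in
theorem ps_m (g h γ : G) : (S.m g h γ)ᵀ * ps S Φ γ * S.m g h γ = ps S Φ (g⁻¹ * γ * h) := by
  have e1 := kk15 S γ
  have e2 : ((S.kR γ)ᴴ)ᵀ * (S.kR γ)ᵀ = 1 := by rw [← transpose_mul, e1, transpose_one]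
  calc (S.m g h γ)ᵀ * ps S Φ γ * S.m g h γ =
      (S.kR (g⁻¹ * γ * h))ᵀ * (P.ι h)ᵀ * (((S.kR γ)ᴴ)ᵀ * (S.kR γ)ᵀ) * Φ * (S.kR γ * (S.kR γ)ᴴ) * P.ι h * S.kR (g⁻¹ * γ * h) := by
        simp only [ps, Sv.m, transpose_mul, Matrix.mul_assoc]
    _ = (S.kR (g⁻¹ * γ * h))ᵀ * ((P.ι h)ᵀ * Φ * P.ι h) * S.kR (g⁻¹ * γ * h) := by
        rw [e1, e2, Matrix.mul_one, Matrix.mul_one]; simp only [Matrix.mul_assoc]
    _ = _ := by rw [h4]; rfl

include h1 h4 in
theorem ps_supp (γ : G) (i k : Fin N) (h : ps S Φ γ i k ≠ 0) : S.s γ i * S.s γ k = 1 := by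
  have g4 : (P.ι γ)ᵀ * Φ * P.ι γ = Φ := h4 γ
  have g3 := gram_eq S γ
  set A := P.ι γ with hA
  have hΦ' : Φ * Φᴴ = 1 := mul_eq_one_comm.1 h1
  have h5 : Φᴴ * Aᵀ * Φ * A = 1 := by
    calc Φᴴ * Aᵀ * Φ * A = Φᴴ * (Aᵀ * Φ * A) := by simp only [Matrix.mul_assoc]
      _ = 1 := by rw [g4, h1]
  have h6 : A * (Φᴴ * Aᵀ * Φ) = 1 := mul_eq_one_comm.1 h5
  have h7 : A * Φᴴ * Aᵀ = Φᴴ := by
    calc A * Φᴴ * Aᵀ = A * (Φᴴ * Aᵀ * Φ) * Φᴴ := by simp only [Matrix.mul_assoc, hΦ', Matrix.mul_one]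
      _ = Φᴴ := by rw [h6, Matrix.one_mul]
  have h8 : (Aᵀ)ᴴ * Φ * Aᴴ = Φ := by
    have h9 := congrArg (fun M : MN N => Mᴴ) h7
    simp only [conjTranspose_mul, conjTranspose_conjTranspose] at h9
    rw [← Matrix.mul_assoc] at h9
    exact h9
  have h10 : (Aᴴ * A)ᵀ * Φ * (Aᴴ * A) = Φ := by
    have e : (Aᴴ)ᵀ = (Aᵀ)ᴴ := by ext i j; simp
    calc (Aᴴ * A)ᵀ * Φ * (Aᴴ * A) = Aᵀ * ((Aᵀ)ᴴ * Φ * Aᴴ) * A := by
          rw [transpose_mul, e]; simp only [Matrix.mul_assoc]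
      _ = Φ := by rw [h8, g4]
  rw [g3] at h10
  set K := S.kR γ with hK
  set D := diagonal (fun i => ((S.s γ i ^ 2 : ℝ) : ℂ)) with hD
  have hKu : Kᴴ * K = 1 := S.uR γ
  have hKt : Kᵀ * (Kᴴ)ᵀ = 1 := kt15' S γ
  have hDt : Dᵀ = D := by rw [hD, diagonal_transpose]
  set F := ps S Φ γ with hF
  have hF' : F = Kᵀ * Φ * K := rfl
  have e2 : D * F * D = F := by
    have h3 : Kᵀ * ((K * D * Kᴴ)ᵀ * Φ * (K * D * Kᴴ)) * K = Kᵀ * Φ * K := by rw [h10]
    calc D * F * D = (Kᵀ * (Kᴴ)ᵀ) * D * Kᵀ * Φ * K * D * (Kᴴ * K) := by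
          rw [hKu, hKt, Matrix.one_mul, Matrix.mul_one, hF']; simp only [Matrix.mul_assoc]
      _ = Kᵀ * ((K * D * Kᴴ)ᵀ * Φ * (K * D * Kᴴ)) * K := by
          rw [transpose_mul, transpose_mul, hDt]; simp only [Matrix.mul_assoc]
      _ = F := h3
  have h5 := congrFun (congrFun e2 i) k
  rw [mul_diagonal, diagonal_mul] at h5
  have h6 : ((1 : ℂ) - ((S.s γ i ^ 2 * S.s γ k ^ 2 : ℝ) : ℂ)) * F i k = 0 := by
    push_cast at h5 ⊢
    linear_combination -h5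
  rcases mul_eq_zero.1 h6 with h7 | h7
  · have h8 : (1 : ℝ) - S.s γ i ^ 2 * S.s γ k ^ 2 = 0 := by exact_mod_cast h7
    have h9 := mul_pos (S.pos γ i) (S.pos γ k)
    have h10 : (S.s γ i * S.s γ k - 1) * (S.s γ i * S.s γ k + 1) = 0 := by linear_combination -h8
    rcases mul_eq_zero.1 h10 with h11 | h11
    · linarith
    · linarith
  · exact absurd h7 h

include h1 h4 in
theorem ps_zero {r : ℕ} (hr : 2 ≤ r) (hN : N = 2 * r + 1) {i0 i1 : Fin N} (hi0 : (i0 : ℕ) = r - 1) (hi1 : (i1 : ℕ) = r - 2) (γ : G)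
    (hgap : S.s γ i0 < S.s γ i1) (i k : Fin N) (hi : r - 1 ≤ (i : ℕ) ∧ (i : ℕ) ≤ r + 1)
    (hk : ¬ (r - 1 ≤ (k : ℕ) ∧ (k : ℕ) ≤ r + 1)) : ps S Φ γ i k = 0 ∧ ps S Φ γ k i = 0 := by
  have key : S.s γ i * S.s γ k ≠ 1 := by
    intro hc
    have s0 := bil_symm h1 h4 S γ i0
    have hrev0 : (Fin.rev i0 : ℕ) = r + 1 := by rw [Fin.val_rev, hi0]; omega
    have p0 := S.pos γ i0
    have pi := S.pos γ i
    have pj := S.pos γ k
    by_cases hj1 : (k : ℕ) < r - 1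
    · have a1 : S.s γ i1 ≤ S.s γ k := S.anti γ (Fin.le_def.2 (by omega))
      have a2 : S.s γ (Fin.rev i0) ≤ S.s γ i := S.anti γ (Fin.le_def.2 (by omega))
      have pr := S.pos γ (Fin.rev i0)
      nlinarith
    · have hj2 : r + 1 < (k : ℕ) := by
        by_contra hcon
        exact hk ⟨by omega, by omega⟩
      have sj := bil_symm h1 h4 S γ k
      have hrevj : (Fin.rev k : ℕ) ≤ r - 2 := by rw [Fin.val_rev]; omega
      have a1 : S.s γ i1 ≤ S.s γ (Fin.rev k) := S.anti γ (Fin.le_def.2 (by omega))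
      have a2 : S.s γ i ≤ S.s γ i0 := S.anti γ (Fin.le_def.2 (by omega))
      have : S.s γ k * S.s γ i < S.s γ k * S.s γ (Fin.rev k) := mul_lt_mul_of_pos_left (by linarith) pj
      nlinarith
  constructor
  · by_contra hcon
    exact key (ps_supp S h1 h4 γ i k hcon)
  · by_contra hcon
    exact key (by rw [mul_comm]; exact ps_supp S h1 h4 γ k i hcon)

end

private theorem realform15 {W : Type} [NormedAddCommGroup W] [InnerProductSpace ℂ W] [FiniteDimensional ℂ W] (σ : W → W)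
    (ha : ∀ v w, σ (v + w) = σ v + σ w) (hs : ∀ (c : ℂ) (w : W), σ (c • w) = (starRingEnd ℂ) c • σ w) (hi : ∀ w, σ (σ w) = w)
    (hin : ∀ v w, inner ℂ (σ v) (σ w) = inner ℂ w v) :
    ∃ e : Fin (Module.finrank ℂ W) → W, Orthonormal ℂ e ∧ ∀ i, σ (e i) = e i := by
  classical
  let f : W →ₗ[ℝ] W :=
    { toFun := fun w => w - σ w
      map_add' := fun v w => by rw [ha]; abel
      map_smul' := fun r w => by
        have h1 : (r • w : W) = ((r : ℂ) • w : W) := rfl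
        have h2 : (r • (w - σ w) : W) = ((r : ℂ) • (w - σ w) : W) := rfl
        rw [RingHom.id_apply, h2, h1, hs, Complex.conj_ofReal, smul_sub] }
  have hf : ∀ w, f w = w - σ w := fun w => rfl
  let E : Submodule ℝ W := LinearMap.ker f
  have hE : ∀ w : W, w ∈ E ↔ σ w = w := by
    intro w
    rw [LinearMap.mem_ker, hf, sub_eq_zero]
    exact eq_comm
  have : FiniteDimensional ℝ W := FiniteDimensional.complexToReal W
  have hσ0 : σ 0 = 0 := by
    have := hs 0 0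
    simpa using this
  have hneg : ∀ w, σ (-w) = -σ w := by
    intro w
    have h := ha (-w) w
    rw [neg_add_cancel, hσ0] at h
    exact (neg_eq_of_add_eq_zero_left h.symm).symm
  let J : W →ₗ[ℝ] W :=
    { toFun := fun w => Complex.I • w
      map_add' := fun v w => smul_add _ _ _
      map_smul' := fun r w => by
        have h1 : (r • w : W) = ((r : ℂ) • w : W) := rfl
        have h2 : (r • (Complex.I • w) : W) = ((r : ℂ) • (Complex.I • w) : W) := rfl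
        rw [RingHom.id_apply, h2, h1, smul_smul, smul_smul, mul_comm] }
  have hr : LinearMap.range f ≤ E.map J := by
    rintro _ ⟨w, rfl⟩
    refine ⟨-(Complex.I • (w - σ w)), ?_, ?_⟩
    · rw [SetLike.mem_coe, hE, hneg, hs, Complex.conj_I, sub_eq_add_neg, ha, hneg, hi]
      rw [neg_smul, neg_neg, smul_add, smul_add, smul_neg, smul_neg]
      abel
    · show Complex.I • (-(Complex.I • (w - σ w))) = w - σ w
      rw [smul_neg, smul_smul, Complex.I_mul_I, neg_smul, one_smul, neg_neg]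
  have h1 : Module.finrank ℝ (LinearMap.range f) ≤ Module.finrank ℝ E :=
    (Submodule.finrank_mono hr).trans (Submodule.finrank_map_le J E)
  have h2 := LinearMap.finrank_range_add_finrank_ker f
  have h3 : Module.finrank ℝ W = 2 * Module.finrank ℂ W := finrank_real_of_complex W
  have h4 : Module.finrank ℂ W ≤ Module.finrank ℝ E := by
    have : Module.finrank ℝ E = Module.finrank ℝ (LinearMap.ker f) := rfl
    omega
  let inst : InnerProductSpace ℝ W := InnerProductSpace.complexToReal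
  let b := stdOrthonormalBasis ℝ E
  refine ⟨fun i => (b (Fin.castLE h4 i) : W), ?_, fun i => (hE _).1 (b (Fin.castLE h4 i)).2⟩
  rw [orthonormal_iff_ite]
  intro i j
  have h5 := hin (b (Fin.castLE h4 i) : W) (b (Fin.castLE h4 j) : W)
  rw [(hE _).1 (b (Fin.castLE h4 i)).2, (hE _).1 (b (Fin.castLE h4 j)).2] at h5
  have h6 : (starRingEnd ℂ) (inner ℂ (b (Fin.castLE h4 i) : W) (b (Fin.castLE h4 j) : W)) =
      inner ℂ (b (Fin.castLE h4 i) : W) (b (Fin.castLE h4 j) : W) := by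
    rw [inner_conj_symm]
    exact h5.symm
  obtain ⟨x, hx⟩ := Complex.conj_eq_iff_real.1 h6
  have h7 : inner ℝ (b (Fin.castLE h4 i)) (b (Fin.castLE h4 j)) = x := by
    have h8 : inner ℝ (b (Fin.castLE h4 i)) (b (Fin.castLE h4 j)) = (inner ℂ (b (Fin.castLE h4 i) : W) (b (Fin.castLE h4 j) : W)).re := rfl
    rw [h8, hx, Complex.ofReal_re]
  have h8 := orthonormal_iff_ite.1 b.orthonormal (Fin.castLE h4 i) (Fin.castLE h4 j)
  rw [h7] at h8
  rw [hx, h8]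
  by_cases hij : i = j
  · subst hij
    simp
  · rw [if_neg hij, if_neg (fun h => hij (Fin.castLE_injective h4 h))]
    simp

theorem takagi {B : Type} [Fintype B] [DecidableEq B] {U : Matrix B B ℂ} (h1 : Uᴴ * U = 1) (h2 : Uᵀ = U) :
    ∃ κ : Matrix B B ℂ, κᴴ * κ = 1 ∧ κᵀ * U * κ = 1 := by
  classical
  have h3 : (U.map star) * U = 1 := by
    have : U.map star = Uᴴ := by
      conv_lhs => rw [← h2]
      ext i j; simp [Matrix.conjTranspose_apply]
    rw [this, h1]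
  let σ : EuclideanSpace ℂ B → EuclideanSpace ℂ B := fun w => WithLp.toLp 2 fun i => star ((U *ᵥ w.ofLp) i)
  obtain ⟨e, he, hσ⟩ := realform15 σ (fun v w => by
      ext i
      simp [σ, Matrix.mulVec_add]) (fun c w => by
      ext i
      simp [σ, Matrix.mulVec_smul]) (fun w => by
      ext i
      have := congrFun (congrArg (fun M : Matrix B B ℂ => M *ᵥ w.ofLp) h3) i
      simp only [Matrix.one_mulVec, ← Matrix.mulVec_mulVec] at this
      rw [← this]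
      show star ((U *ᵥ fun i => star ((U *ᵥ w.ofLp) i)) i) = _
      simp only [Matrix.mulVec, dotProduct, star_sum, star_mul', star_star, Matrix.map_apply])
      (fun v w => by
      rw [EuclideanSpace.inner_eq_star_dotProduct, EuclideanSpace.inner_eq_star_dotProduct]
      have e1 : (fun i => star ((U *ᵥ w.ofLp) i)) ⬝ᵥ star (fun i => star ((U *ᵥ v.ofLp) i)) = star (U *ᵥ w.ofLp) ⬝ᵥ (U *ᵥ v.ofLp) := by
        congr 1
        funext i
        simp
      refine e1.trans ?_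
      rw [Matrix.star_mulVec, ← Matrix.dotProduct_mulVec, Matrix.mulVec_mulVec, h1, Matrix.one_mulVec, dotProduct_comm])
  have hc : Module.finrank ℂ (EuclideanSpace ℂ B) = Fintype.card B := finrank_euclideanSpace
  let q : B ≃ Fin (Module.finrank ℂ (EuclideanSpace ℂ B)) := (Fintype.equivFin B).trans (finCongr hc.symm)
  let κ : Matrix B B ℂ := Matrix.of fun i j => (e (q j)).ofLp i
  have hk : κᴴ * κ = 1 := by
    ext i j
    have := orthonormal_iff_ite.1 he (q i) (q j)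
    rw [EuclideanSpace.inner_eq_star_dotProduct] at this
    rw [Matrix.mul_apply, Matrix.one_apply]
    have e1 : (if i = j then (1 : ℂ) else 0) = if q i = q j then 1 else 0 := by
      by_cases hij : i = j
      · rw [if_pos hij, if_pos (congrArg q hij)]
      · rw [if_neg hij, if_neg (fun h => hij (q.injective h))]
    rw [e1, ← this]
    refine Finset.sum_congr rfl fun k _ => ?_
    show star (κ k i) * κ k j = _
    rw [mul_comm]
    rfl
  refine ⟨κ, hk, ?_⟩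
  have hU : ∀ k j, (U * κ) k j = star (κ k j) := by
    intro k j
    have h4 := congrArg (fun w : EuclideanSpace ℂ B => star (w.ofLp k)) (hσ (q j))
    have h5 : star ((σ (e (q j))).ofLp k) = (U *ᵥ (e (q j)).ofLp) k := by
      show star (star ((U *ᵥ (e (q j)).ofLp) k)) = _
      rw [star_star]
    have h6 := h5.symm.trans h4
    rw [Matrix.mul_apply]
    exact h6
  rw [Matrix.mul_assoc]
  have h7 : U * κ = (κᴴ)ᵀ := by
    ext k j
    rw [hU]
    simp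
  rw [h7, ← Matrix.transpose_mul, hk, Matrix.transpose_one]

private theorem nssub15 {m n : Type} [Fintype m] [Fintype n] (e : m ≃ n) (A : Matrix n n ℂ) : ns (A.submatrix e e) = ns A := by
  unfold ns
  rw [← e.sum_comp (fun i => ∑ j, ‖A i j‖ ^ 2)]
  refine Finset.sum_congr rfl fun i _ => ?_
  rw [← e.sum_comp (fun j => ‖A (e i) j‖ ^ 2)]
  rfl

theorem gaugeO (S : Sv P) {Φ : MN N} (h1 : Φᴴ * Φ = 1) (h2 : Φᵀ = Φ) (h4 : ∀ g, (P.ι g)ᵀ * Φ * P.ι g = Φ)
    {r : ℕ} (hr : 2 ≤ r) (hN : N = 2 * r + 1) {i0 i1 : Fin N} (hi0 : (i0 : ℕ) = r - 1) (hi1 : (i1 : ℕ) = r - 2)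
    (b : Fin N → ℕ) (γ : G) (hb : ∀ i : Fin N, b i = b i0 ↔ (r - 1 ≤ (i : ℕ) ∧ (i : ℕ) ≤ r + 1)) (hgap : S.s γ i0 < S.s γ i1) :
    ∃ κ : Matrix (Bk b i0) (Fin 3) ℂ, κᴴ * κ = 1 ∧ κ * κᴴ = 1 ∧ κᵀ * res b i0 (ps S Φ γ) * κ = 1 ∧
      f3 (gg κ κ (S.X γ)) = 0 ∧ ns (gg κ κ (S.X γ)) + 1 = (S.s γ i0 + (S.s γ i0)⁻¹) ^ 2 := by
  set F := ps S Φ γ with hF
  have hsumb : ∀ f : Fin N → ℂ, (∀ k : Fin N, ¬ (r - 1 ≤ (k : ℕ) ∧ (k : ℕ) ≤ r + 1) → f k = 0) →
      ∑ k : Bk b i0, f k.1 = ∑ k, f k := by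
    intro f hf
    have e1 : ∑ k ∈ Finset.univ.filter (fun i : Fin N => b i = b i0), f k = ∑ k : Bk b i0, f k.1 :=
      Finset.sum_subtype (Finset.univ.filter fun i : Fin N => b i = b i0)
        (p := fun i : Fin N => b i = b i0) (fun x => by simp) f
    rw [← e1, Finset.sum_filter]
    refine Finset.sum_congr rfl fun k _ => ?_
    by_cases hk : b k = b i0
    · rw [if_pos hk]
    · rw [if_neg hk, hf k (fun h => hk ((hb k).2 h))]
  set R := res b i0 F with hR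
  have hRt : Rᵀ = R := by
    ext i j
    exact congrFun (congrFun (ps_trans S h2 γ) i.1) j.1
  have hRu : Rᴴ * R = 1 := by
    ext i j
    have e1 := congrFun (congrFun (ps_unit S h1 γ) i.1) j.1
    rw [Matrix.mul_apply] at e1 ⊢
    have e2 : ∑ k : Bk b i0, Rᴴ i k * R k j = ∑ k : Bk b i0, (fun k : Fin N => Fᴴ i.1 k * F k j.1) k.1 := rfl
    rw [e2, hsumb (fun k : Fin N => Fᴴ i.1 k * F k j.1) (fun (k : Fin N) hk => by
      have := (ps_zero S h1 h4 hr hN hi0 hi1 γ hgap j.1 k ((hb _).1 j.2) hk).2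
      show Fᴴ i.1 k * F k j.1 = 0
      rw [hF, this, mul_zero])]
    refine e1.trans ?_
    by_cases hij : i = j
    · subst hij
      rw [one_apply_eq, one_apply_eq]
    · rw [one_apply_ne hij, one_apply_ne (fun h => hij (Subtype.ext h))]
  obtain ⟨κ, k1, k2⟩ := takagi hRu hRt
  have k3 : κ * κᴴ = 1 := mul_eq_one_comm.1 k1
  have hrev0 : (Fin.rev i0 : ℕ) = r + 1 := by rw [Fin.val_rev, hi0]; omega
  let j0 : Bk b i0 := ⟨i0, rfl⟩
  let ir : Fin N := ⟨r, by omega⟩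
  have hir : (ir : ℕ) = r := rfl
  let j1 : Bk b i0 := ⟨ir, (hb _).2 (by rw [hir]; omega)⟩
  let j2 : Bk b i0 := ⟨Fin.rev i0, (hb _).2 (by omega)⟩
  let ef : Fin 3 → Bk b i0 := ![j0, j1, j2]
  have hv : ∀ a : Fin 3, ((ef a).1 : ℕ) = r - 1 + a := by
    intro a
    fin_cases a
    · show (i0 : ℕ) = _
      rw [hi0]; simp
    · show (ir : ℕ) = r - 1 + 1
      rw [hir]; omega
    · show (Fin.rev i0 : ℕ) = r - 1 + 2
      rw [hrev0]; omega
  have hef : Function.Bijective ef := by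
    constructor
    · intro a a' h
      have h5 := hv a
      rw [h, hv a'] at h5
      exact Fin.ext (by omega)
    · intro i
      have h5 := (hb i.1).1 i.2
      refine ⟨⟨(i.1 : ℕ) - (r - 1), by omega⟩, ?_⟩
      apply Subtype.ext
      apply Fin.ext
      rw [hv]
      show r - 1 + ((i.1 : ℕ) - (r - 1)) = _
      omega
  let e : Fin 3 ≃ Bk b i0 := Equiv.ofBijective ef hef
  set Xr := res b i0 (S.X γ) with hXr
  have hXd : Xr = diagonal fun i : Bk b i0 => ((S.s γ i.1)⁻¹ : ℂ) := by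
    ext i j
    rw [hXr, res, submatrix_apply, Sv.X, diagonal_apply, diagonal_apply]
    by_cases hij : i = j
    · subst hij; simp
    · rw [if_neg (fun h => hij (Subtype.ext h)), if_neg hij]
  have hXt : Xrᵀ = Xr := by rw [hXd, diagonal_transpose]
  have hXRX : Xr * R * Xr = R := by
    rw [hXd]
    ext i j
    rw [mul_diagonal, diagonal_mul]
    by_cases hc : F i.1 j.1 = 0
    · have : R i j = 0 := hc
      rw [this]; ring
    · have e1 := ps_supp S h1 h4 γ i.1 j.1 hc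
      have e2 : ((S.s γ i.1 : ℝ) : ℂ) * ((S.s γ j.1 : ℝ) : ℂ) = 1 := by exact_mod_cast e1
      have e3 : ((S.s γ i.1 : ℝ) : ℂ)⁻¹ * ((S.s γ j.1 : ℝ) : ℂ)⁻¹ = 1 := by
        rw [← mul_inv, e2, inv_one]
      linear_combination (R i j) * e3
  have hU : R = (κᴴ)ᵀ * κᴴ := by
    have k4 : (κᴴ)ᵀ * κᵀ = 1 := by rw [← transpose_mul, k3, transpose_one]
    calc R = ((κᴴ)ᵀ * κᵀ) * R * (κ * κᴴ) := by rw [k4, k3, Matrix.one_mul, Matrix.mul_one]
      _ = (κᴴ)ᵀ * (κᵀ * R * κ) * κᴴ := by simp only [Matrix.mul_assoc]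
      _ = _ := by rw [k2, Matrix.mul_one]
  have hY : gg (κ.submatrix id e) (κ.submatrix id e) (S.X γ) = (κᴴ * Xr * κ).submatrix e e := by
    unfold gg
    ext i j
    rw [submatrix_apply, Matrix.mul_apply, Matrix.mul_apply]
    refine Finset.sum_congr rfl fun k _ => ?_
    rw [Matrix.mul_apply, Matrix.mul_apply]
    rfl
  have hYt : (κᴴ * Xr * κ)ᵀ * (κᴴ * Xr * κ) = 1 := by
    rw [transpose_mul, transpose_mul, hXt]
    calc κᵀ * (Xr * (κᴴ)ᵀ) * (κᴴ * Xr * κ) = κᵀ * (Xr * ((κᴴ)ᵀ * κᴴ) * Xr) * κ := by simp only [Matrix.mul_assoc]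
      _ = 1 := by rw [← hU, hXRX, k2]
  refine ⟨κ.submatrix id e, ?_, ?_, ?_, ?_, ?_⟩
  · have e1 : (κ.submatrix id e)ᴴ * κ.submatrix id e = (κᴴ * κ).submatrix e e := by
      ext i j
      simp [Matrix.mul_apply]
    rw [e1, k1, submatrix_one_equiv]
  · rw [← k3]
    ext i j
    rw [Matrix.mul_apply, Matrix.mul_apply]
    exact e.sum_comp (fun k => κ i k * κᴴ k j)
  · have e1 : (κ.submatrix id e)ᵀ * R * κ.submatrix id e = (κᵀ * R * κ).submatrix e e := by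
      ext i j
      simp [Matrix.mul_apply]
    rw [e1, k2, submatrix_one_equiv]
  · rw [f3_eq]
    refine ⟨1, norm_one, ?_⟩
    rw [one_smul, hY]
    have e1 : ((κᴴ * Xr * κ).submatrix e e)ᵀ * (κᴴ * Xr * κ).submatrix e e = ((κᴴ * Xr * κ)ᵀ * (κᴴ * Xr * κ)).submatrix e e := by
      rw [transpose_submatrix, submatrix_mul_equiv]
    rw [e1, hYt, submatrix_one_equiv]
  · have hu : IsU κ := k1
    have hu' : IsU κᴴ := by
      unfold IsU
      rw [conjTranspose_conjTranspose]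
      exact k3
    rw [hY, nssub15, ns_mul_unitary hu, ns_unitary_mul hu']
    have e1 : ns Xr = ∑ a : Fin 3, ((S.s γ (ef a).1)⁻¹) ^ 2 := by
      rw [hXd]
      unfold ns
      rw [← e.sum_comp (fun i => ∑ j, ‖(diagonal fun i : Bk b i0 => ((S.s γ i.1)⁻¹ : ℂ)) i j‖ ^ 2)]
      refine Finset.sum_congr rfl fun a _ => ?_
      rw [Finset.sum_eq_single (e a)]
      · rw [diagonal_apply_eq, norm_inv, Complex.norm_real, Real.norm_eq_abs, abs_of_pos (S.pos γ _)]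
        rfl
      · intro j _ hj
        rw [diagonal_apply_ne _ (Ne.symm hj)]
        simp
      · intro h
        exact absurd (Finset.mem_univ _) h
    rw [e1, Fin.sum_univ_three]
    have p0 := S.pos γ i0
    have s0 : S.s γ (Fin.rev i0) = (S.s γ i0)⁻¹ := eq_inv_of_mul_eq_one_right (bil_symm h1 h4 S γ i0)
    have s1 : S.s γ ir = 1 := by
      have h5 := bil_symm h1 h4 S γ ir
      have h6 : Fin.rev ir = ir := by
        apply Fin.ext
        rw [Fin.val_rev, hir]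
        omega
      rw [h6] at h5
      have h7 := S.pos γ ir
      nlinarith
    have a0 : S.s γ (ef 0).1 = S.s γ i0 := rfl
    have a1 : S.s γ (ef 1).1 = 1 := s1
    have a2 : S.s γ (ef 2).1 = (S.s γ i0)⁻¹ := s0
    rw [a0, a1, a2, inv_inv, inv_one]
    have : S.s γ i0 * (S.s γ i0)⁻¹ = 1 := mul_inv_cancel₀ p0.ne'
    linear_combination (-2) * this

private theorem sum_bk15 {b : Fin N → ℕ} {i0 : Fin N} (f : Fin N → ℂ) :
    ∑ k : Bk b i0, f k.1 = ∑ k, if b k = b i0 then f k else 0 := by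
  rw [← Finset.sum_filter]
  exact (Finset.sum_subtype _ (by simp) f).symm

private theorem norm_ps15 (S : Sv P) {Φ : MN N} (h1 : Φᴴ * Φ = 1) (γ : G) (i j : Fin N) : ‖ps S Φ γ i j‖ ≤ 1 := by
  have h := congrFun (congrFun (ps_unit S h1 γ) j) j
  rw [Matrix.mul_apply, one_apply_eq] at h
  have h2 : ∀ k, (ps S Φ γ)ᴴ j k * ps S Φ γ k j = ((‖ps S Φ γ k j‖ ^ 2 : ℝ) : ℂ) := by
    intro k
    rw [conjTranspose_apply, ← Complex.normSq_eq_norm_sq, Complex.normSq_eq_conj_mul_self]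
    rfl
  rw [Finset.sum_congr rfl fun k _ => h2 k] at h
  have h3 : ∑ k, ‖ps S Φ γ k j‖ ^ 2 = 1 := by exact_mod_cast h
  have h4 : ‖ps S Φ γ i j‖ ^ 2 ≤ ∑ k, ‖ps S Φ γ k j‖ ^ 2 :=
    Finset.single_le_sum (f := fun k => ‖ps S Φ γ k j‖ ^ 2) (fun k _ => sq_nonneg _) (Finset.mem_univ i)
  nlinarith [norm_nonneg (ps S Φ γ i j)]

private theorem out15 {S : Sv P} {Φ : MN N} (h1 : Φᴴ * Φ = 1) (h4 : ∀ g, (P.ι g)ᵀ * Φ * P.ι g = Φ)
    {r : ℕ} (hr : 2 ≤ r) (hN : N = 2 * r + 1) {i0 i1 : Fin N} (hi0 : (i0 : ℕ) = r - 1) (hi1 : (i1 : ℕ) = r - 2)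
    (γ : G) (hgap : S.s γ i0 < S.s γ i1) (k l : Fin N) (hk : r + 1 < (k : ℕ)) (hl : r + 1 < (l : ℕ)) :
    ps S Φ γ k l = 0 := by
  by_contra hne
  have h := ps_supp S h1 h4 γ k l hne
  have hrev := bil_symm h1 h4 S γ i0
  have p0 := S.pos γ i0
  have q0 := S.pos γ (Fin.rev i0)
  have hle : S.s γ (Fin.rev i0) ≤ S.s γ i0 := by
    apply S.anti γ
    rw [Fin.le_def, Fin.val_rev]
    omega
  have one : 1 ≤ S.s γ i0 := by
    by_contra hlt
    push Not at hlt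
    have : S.s γ i0 * S.s γ (Fin.rev i0) < 1 := by nlinarith
    linarith
  have lt1 : ∀ k : Fin N, r + 1 < (k : ℕ) → S.s γ k < 1 := by
    intro k hk
    have a := bil_symm h1 h4 S γ k
    have b : S.s γ i1 ≤ S.s γ (Fin.rev k) := by
      apply S.anti γ
      rw [Fin.le_def, Fin.val_rev]
      omega
    have pk := S.pos γ k
    by_contra hge
    push Not at hge
    have : 1 < S.s γ k * S.s γ (Fin.rev k) := by nlinarith
    linarith
  have a := lt1 k hk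
  have b := lt1 l hl
  have pk := S.pos γ k
  have pl := S.pos γ l
  nlinarith

private theorem bound15 {α : Type} {F : Filter α} {u v w : α → ℂ} {R : ℝ} (hR : 0 ≤ R) (hu : ∀ x, ‖u x‖ ≤ R) (hv : ∀ x, ‖v x‖ ≤ R)
    (hw : ∀ x, ‖w x‖ ≤ R) (h : Tendsto u F (𝓝 0) ∨ Tendsto w F (𝓝 0)) :
    Tendsto (fun x => u x * v x * w x) F (𝓝 0) := by
  rw [tendsto_zero_iff_norm_tendsto_zero]
  rcases h with h | h
  · have h1 : Tendsto (fun x => ‖u x‖ * (R * R)) F (𝓝 0) := by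
      have := (tendsto_zero_iff_norm_tendsto_zero.mp h).mul_const (R * R)
      rwa [zero_mul] at this
    refine squeeze_zero (fun x => norm_nonneg _) (fun x => ?_) h1
    rw [norm_mul, norm_mul, mul_assoc]
    exact mul_le_mul_of_nonneg_left (mul_le_mul (hv x) (hw x) (norm_nonneg _) hR) (norm_nonneg _)
  · have h1 : Tendsto (fun x => (R * R) * ‖w x‖) F (𝓝 0) := by
      have := (tendsto_zero_iff_norm_tendsto_zero.mp h).const_mul (R * R)
      rwa [mul_zero] at this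
    refine squeeze_zero (fun x => norm_nonneg _) (fun x => ?_) h1
    rw [norm_mul, norm_mul]
    exact mul_le_mul_of_nonneg_right (mul_le_mul (hu x) (hv x) (norm_nonneg _) hR) (norm_nonneg _)

theorem o_block {S : Sv P} {Φ : MN N} (h1 : Φᴴ * Φ = 1) (h2 : Φᵀ = Φ) (h4 : ∀ g, (P.ι g)ᵀ * Φ * P.ι g = Φ)
    {r : ℕ} (hr : 2 ≤ r) (hN : N = 2 * r + 1) {i0 i1 : Fin N} (hi0 : (i0 : ℕ) = r - 1) (hi1 : (i1 : ℕ) = r - 2) (T : Str S)
    (hb : ∀ i : Fin N, T.b i = T.b i0 ↔ (r - 1 ≤ (i : ℕ) ∧ (i : ℕ) ≤ r + 1))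
    (hgood : ∀ n, {γ | S.s γ i0 < S.s γ i1} ∈ T.F n) (g h : G) (n : ℕ) :
    Tendsto (fun γ => (res T.b i0 (T.C g h γ))ᵀ * res T.b i0 (ps S Φ γ) *
      res T.b i0 (T.C g h γ) - res T.b i0 (ps S Φ (g⁻¹ * γ * h))) (T.F n) (𝓝 0) := by
  refine tendsto_pi_nhds.mpr fun x => tendsto_pi_nhds.mpr fun y => ?_
  have hx : T.b x.1 = T.b i0 := x.2
  have hy : T.b y.1 = T.b i0 := y.2
  let t : Fin N → Fin N → G → ℂ := fun k l γ => S.m g h γ k x.1 * ps S Φ γ k l * S.m g h γ l y.1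
  have e : ∀ γ, ((res T.b i0 (T.C g h γ))ᵀ * res T.b i0 (ps S Φ γ) *
      res T.b i0 (T.C g h γ) - res T.b i0 (ps S Φ (g⁻¹ * γ * h))) x y =
      ∑ l, ∑ k, ((if T.b l = T.b i0 then (if T.b k = T.b i0 then t k l γ else 0) else 0) - t k l γ) := by
    intro γ
    have e1 : res T.b i0 (ps S Φ (g⁻¹ * γ * h)) x y = ∑ l, ∑ k, t k l γ := by
      show ps S Φ (g⁻¹ * γ * h) x.1 y.1 = _
      rw [← ps_m S h4 g h γ, Matrix.mul_apply]
      refine Finset.sum_congr rfl fun l _ => ?_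
      rw [Matrix.mul_apply, Finset.sum_mul]
      refine Finset.sum_congr rfl fun k _ => ?_
      rw [Matrix.transpose_apply]
    have e2 : ((res T.b i0 (T.C g h γ))ᵀ * res T.b i0 (ps S Φ γ) * res T.b i0 (T.C g h γ)) x y =
        ∑ l, ∑ k, (if T.b l = T.b i0 then (if T.b k = T.b i0 then t k l γ else 0) else 0) := by
      have e3 : ∀ a b : Bk T.b i0, res T.b i0 (T.C g h γ) a b = S.m g h γ a.1 b.1 := by
        intro a b
        show D T.b (S.m g h γ) a.1 b.1 = _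
        rw [D_apply, if_pos (a.2.trans b.2.symm)]
      rw [Matrix.mul_apply]
      have e4 : ∀ l : Bk T.b i0, ((res T.b i0 (T.C g h γ))ᵀ * res T.b i0 (ps S Φ γ)) x l * res T.b i0 (T.C g h γ) l y =
          (fun l => ∑ k, (if T.b k = T.b i0 then t k l γ else 0)) l.1 := by
        intro l
        refine Eq.trans ?_ (sum_bk15 (b := T.b) (i0 := i0) (fun k => t k l.1 γ))
        rw [Matrix.mul_apply, Finset.sum_mul]
        refine Finset.sum_congr rfl fun k _ => ?_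
        rw [Matrix.transpose_apply, e3, e3]
        rfl
      rw [Finset.sum_congr rfl fun l _ => e4 l]
      rw [sum_bk15 (b := T.b) (i0 := i0) (fun l => ∑ k, (if T.b k = T.b i0 then t k l γ else 0))]
      refine Finset.sum_congr rfl fun l _ => ?_
      split_ifs with hl
      · rfl
      · rw [Finset.sum_const_zero]
    rw [Matrix.sub_apply, e1, e2, ← Finset.sum_sub_distrib]
    refine Finset.sum_congr rfl fun l _ => ?_
    rw [← Finset.sum_sub_distrib]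
  have e' : (fun γ => ((res T.b i0 (T.C g h γ))ᵀ * res T.b i0 (ps S Φ γ) *
      res T.b i0 (T.C g h γ) - res T.b i0 (ps S Φ (g⁻¹ * γ * h))) x y) = fun γ =>
      ∑ l, ∑ k, ((if T.b l = T.b i0 then (if T.b k = T.b i0 then t k l γ else 0) else 0) - t k l γ) := funext e
  rw [e']
  have hz : (0 : Matrix (Bk T.b i0) (Bk T.b i0) ℂ) x y = ∑ l : Fin N, ∑ k : Fin N, (0 : ℂ) := by simp
  rw [hz]
  refine tendsto_finsetSum _ fun l _ => tendsto_finsetSum _ fun k _ => ?_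
  let R : ℝ := max (Real.sqrt (ns (P.ι h))) (1)
  have hR : 0 ≤ R := (Real.sqrt_nonneg _).trans (le_max_left _ _)
  have hlow : ∀ k : Fin N, (k : ℕ) < r - 1 → T.b k < T.b i0 := by
    intro k hk
    refine lt_of_le_of_ne (T.mono ?_) fun h => ?_
    · rw [Fin.le_def, hi0]
      exact hk.le
    · have := (hb k).mp h
      omega
  have key : (T.b k = T.b i0 ∧ T.b l = T.b i0) ∨ (∀ᶠ γ in T.F n, ps S Φ γ k l = 0) ∨ ((k : ℕ) < r - 1 ∨ (l : ℕ) < r - 1) := by
    by_cases hk : T.b k = T.b i0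
    · by_cases hl : T.b l = T.b i0
      · exact Or.inl ⟨hk, hl⟩
      · right; left
        filter_upwards [hgood n] with γ hγ
        exact (ps_zero S h1 h4 hr hN hi0 hi1 γ hγ k l ((hb k).mp hk) (fun h => hl ((hb l).mpr h))).1
    · by_cases hl : T.b l = T.b i0
      · right; left
        filter_upwards [hgood n] with γ hγ
        exact (ps_zero S h1 h4 hr hN hi0 hi1 γ hγ l k ((hb l).mp hl) (fun h => hk ((hb k).mpr h))).2
      · right
        by_cases hkl : (k : ℕ) < r - 1 ∨ (l : ℕ) < r - 1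
        · exact Or.inr hkl
        · left
          push Not at hkl
          have a : r + 1 < (k : ℕ) := by
            by_contra h'
            exact hk ((hb k).mpr ⟨hkl.1, by omega⟩)
          have b : r + 1 < (l : ℕ) := by
            by_contra h'
            exact hl ((hb l).mpr ⟨hkl.2, by omega⟩)
          filter_upwards [hgood n] with γ hγ
          exact out15 h1 h4 hr hN hi0 hi1 γ hγ k l a b
  rcases key with hkl | hJ | hkl
  · have : (fun γ => (if T.b l = T.b i0 then (if T.b k = T.b i0 then t k l γ else 0) else 0) - t k l γ) = fun _ => 0 := by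
      funext γ
      rw [if_pos hkl.2, if_pos hkl.1, sub_self]
    rw [this]
    exact tendsto_const_nhds
  · refine tendsto_const_nhds.congr' ?_
    filter_upwards [hJ] with γ hγ
    have ht : t k l γ = 0 := by
      show S.m g h γ k x.1 * ps S Φ γ k l * S.m g h γ l y.1 = 0
      rw [hγ, mul_zero, zero_mul]
    rw [ht]
    simp
  · have hor : ¬ (T.b k = T.b i0 ∧ T.b l = T.b i0) := by
      rintro ⟨h5, h6⟩
      rcases hkl with h' | h'
      · exact (hlow k h').ne h5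
      · exact (hlow l h').ne h6
    have e5 : (fun γ => (if T.b l = T.b i0 then (if T.b k = T.b i0 then t k l γ else 0) else 0) - t k l γ) = fun γ => - t k l γ := by
      funext γ
      by_cases h6 : T.b l = T.b i0
      · rw [if_pos h6, if_neg (fun h5 => hor ⟨h5, h6⟩), zero_sub]
      · rw [if_neg h6, zero_sub]
    rw [e5, ← neg_zero]
    refine Tendsto.neg ?_
    refine bound15 hR (fun γ => (S.norm_m_le g h γ k x.1).trans (le_max_left _ _))
      (fun γ => (norm_ps15 S h1 γ k l).trans (le_max_right _ _))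
      (fun γ => (S.norm_m_le g h γ l y.1).trans (le_max_left _ _)) ?_
    rcases hkl with h' | h'
    · exact Or.inl (T.tendsto_m g h n (by rw [hx]; exact hlow k h'))
    · exact Or.inr (T.tendsto_m g h n (by rw [hy]; exact hlow l h'))

theorem o_close {S : Sv P} {Φ : MN N} (h1 : Φᴴ * Φ = 1) (h2 : Φᵀ = Φ) (h4 : ∀ g, (P.ι g)ᵀ * Φ * P.ι g = Φ)
    {r : ℕ} (hr : 2 ≤ r) (hN : N = 2 * r + 1) {i0 i1 : Fin N} (hi0 : (i0 : ℕ) = r - 1) (hi1 : (i1 : ℕ) = r - 2) (T : Str S)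
    (hb : ∀ i : Fin N, T.b i = T.b i0 ↔ (r - 1 ≤ (i : ℕ) ∧ (i : ℕ) ≤ r + 1))
    (hgood : ∀ n, {γ | S.s γ i0 < S.s γ i1} ∈ T.F n) (κ : G → Matrix (Bk T.b i0) (Fin 3) ℂ)
    (hκ : ∀ γ, (κ γ)ᴴ * κ γ = 1) (hκ' : ∀ γ, κ γ * (κ γ)ᴴ = 1)
    (hJ : ∀ γ, S.s γ i0 < S.s γ i1 → (κ γ)ᵀ * res T.b i0 (ps S Φ γ) * κ γ = 1) (g h : G) (n : ℕ) :
    Tendsto (fun γ => f3 (gg (κ γ) (κ (g⁻¹ * γ * h)) (T.C g h γ))) (T.F n) (𝓝 0) := by
  obtain ⟨n', hn'⟩ := T.shift g h n
  let E : G → Matrix (Bk T.b i0) (Bk T.b i0) ℂ := fun γ => (res T.b i0 (T.C g h γ))ᵀ * res T.b i0 (ps S Φ γ) *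
      res T.b i0 (T.C g h γ) - res T.b i0 (ps S Φ (g⁻¹ * γ * h))
  have hE : Tendsto E (T.F n) (𝓝 0) := o_block h1 h2 h4 hr hN hi0 hi1 T hb hgood g h n
  have hE' : ∀ k l, Tendsto (fun γ => E γ k l) (T.F n) (𝓝 0) := by
    intro k l
    have := (((continuous_apply_apply k l).tendsto (0 : Matrix (Bk T.b i0) (Bk T.b i0) ℂ))).comp hE
    exact this
  have hκn : ∀ γ k a, ‖κ γ k a‖ ≤ 1 := by
    intro γ k a
    have h := congrFun (congrFun (hκ γ) a) a
    rw [Matrix.mul_apply, one_apply_eq] at h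
    have h2 : ∀ k, (κ γ)ᴴ a k * κ γ k a = ((‖κ γ k a‖ ^ 2 : ℝ) : ℂ) := by
      intro k
      rw [conjTranspose_apply, ← Complex.normSq_eq_norm_sq, Complex.normSq_eq_conj_mul_self]
      rfl
    rw [Finset.sum_congr rfl fun k _ => h2 k] at h
    have h3 : ∑ k, ‖κ γ k a‖ ^ 2 = 1 := by exact_mod_cast h
    have h4 : ‖κ γ k a‖ ^ 2 ≤ ∑ k, ‖κ γ k a‖ ^ 2 :=
      Finset.single_le_sum (f := fun k => ‖κ γ k a‖ ^ 2) (fun k _ => sq_nonneg _) (Finset.mem_univ k)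
    nlinarith [norm_nonneg (κ γ k a)]
  let Z : G → Matrix (Fin 3) (Fin 3) ℂ := fun γ => (κ (g⁻¹ * γ * h))ᵀ * E γ * κ (g⁻¹ * γ * h)
  have hZ : Tendsto Z (T.F n) (𝓝 0) := by
    refine tendsto_pi_nhds.mpr fun x => tendsto_pi_nhds.mpr fun y => ?_
    have e : ∀ γ, Z γ x y = ∑ l, ∑ k, κ (g⁻¹ * γ * h) k x * E γ k l * κ (g⁻¹ * γ * h) l y := by
      intro γ
      show ((κ (g⁻¹ * γ * h))ᵀ * E γ * κ (g⁻¹ * γ * h)) x y = _
      rw [Matrix.mul_apply]
      refine Finset.sum_congr rfl fun l _ => ?_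
      rw [Matrix.mul_apply, Finset.sum_mul]
      rfl
    have e' : (fun γ => Z γ x y) = fun γ => ∑ l, ∑ k, κ (g⁻¹ * γ * h) k x * E γ k l * κ (g⁻¹ * γ * h) l y := funext e
    rw [e']
    have hz : (0 : Matrix (Fin 3) (Fin 3) ℂ) x y = ∑ l : Bk T.b i0, ∑ k : Bk T.b i0, (0 : ℂ) := by simp
    rw [hz]
    refine tendsto_finsetSum _ fun l _ => tendsto_finsetSum _ fun k _ => ?_
    rw [tendsto_zero_iff_norm_tendsto_zero]
    refine squeeze_zero (fun γ => norm_nonneg _) (fun γ => ?_) (tendsto_zero_iff_norm_tendsto_zero.1 (hE' k l))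
    rw [norm_mul, norm_mul]
    have a1 := hκn (g⁻¹ * γ * h) k x
    have a2 := hκn (g⁻¹ * γ * h) l y
    have a3 := norm_nonneg (E γ k l)
    calc ‖κ (g⁻¹ * γ * h) k x‖ * ‖E γ k l‖ * ‖κ (g⁻¹ * γ * h) l y‖ ≤ 1 * ‖E γ k l‖ * 1 := by
          gcongr
      _ = ‖E γ k l‖ := by ring
  let f : Matrix (Fin 3) (Fin 3) ℂ → ℝ := fun M => ns (M - (M 0 0) • (1 : Matrix (Fin 3) (Fin 3) ℂ)) + (‖M 0 0‖ - 1) ^ 2
  have hf : Continuous f := by
    have h1 : Continuous fun A : Matrix (Fin 3) (Fin 3) ℂ => ns A := by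
      unfold ns
      fun_prop
    have h2 : Continuous fun M : Matrix (Fin 3) (Fin 3) ℂ => M - (M 0 0) • (1 : Matrix (Fin 3) (Fin 3) ℂ) := by fun_prop
    have h3 : Continuous fun M : Matrix (Fin 3) (Fin 3) ℂ => (‖M 0 0‖ - 1) ^ 2 := by fun_prop
    exact (h1.comp h2).add h3
  have hf1 : f (1 + 0) = 0 := by
    show ns ((1 + 0 : Matrix (Fin 3) (Fin 3) ℂ) - ((1 + 0 : Matrix (Fin 3) (Fin 3) ℂ) 0 0) • (1 : Matrix (Fin 3) (Fin 3) ℂ)) +
      (‖(1 + 0 : Matrix (Fin 3) (Fin 3) ℂ) 0 0‖ - 1) ^ 2 = 0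
    rw [add_zero, one_apply_eq, one_smul, sub_self, norm_one]
    simp [ns]
  have h6 := (hf.tendsto (1 + 0)).comp (tendsto_const_nhds.add hZ)
  rw [hf1] at h6
  refine h6.congr' ?_
  filter_upwards [hgood n, hn' (hgood n')] with γ hγ hγ'
  have hJ1 := hJ γ hγ
  have hJ2 := hJ (g⁻¹ * γ * h) hγ'
  show f (1 + Z γ) = f ((gg (κ γ) (κ (g⁻¹ * γ * h)) (T.C g h γ))ᵀ * gg (κ γ) (κ (g⁻¹ * γ * h)) (T.C g h γ))
  congr 1
  have hk' := hκ' γ
  have hU : res T.b i0 (ps S Φ γ) = ((κ γ)ᴴ)ᵀ * (κ γ)ᴴ := by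
    have k4 : ((κ γ)ᴴ)ᵀ * (κ γ)ᵀ = 1 := by rw [← transpose_mul, hk', transpose_one]
    calc res T.b i0 (ps S Φ γ) = (((κ γ)ᴴ)ᵀ * (κ γ)ᵀ) * res T.b i0 (ps S Φ γ) * (κ γ * (κ γ)ᴴ) := by
          rw [k4, hk', Matrix.one_mul, Matrix.mul_one]
      _ = ((κ γ)ᴴ)ᵀ * ((κ γ)ᵀ * res T.b i0 (ps S Φ γ) * κ γ) * (κ γ)ᴴ := by simp only [Matrix.mul_assoc]
      _ = _ := by rw [hJ1, Matrix.mul_one]
  show 1 + (κ (g⁻¹ * γ * h))ᵀ * ((res T.b i0 (T.C g h γ))ᵀ * res T.b i0 (ps S Φ γ) *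
      res T.b i0 (T.C g h γ) - res T.b i0 (ps S Φ (g⁻¹ * γ * h))) * κ (g⁻¹ * γ * h) =
      ((κ γ)ᴴ * res T.b i0 (T.C g h γ) * κ (g⁻¹ * γ * h))ᵀ * ((κ γ)ᴴ * res T.b i0 (T.C g h γ) * κ (g⁻¹ * γ * h))
  rw [Matrix.mul_sub, Matrix.sub_mul, hJ2, hU, transpose_mul, transpose_mul, add_sub_cancel]
  simp only [Matrix.mul_assoc]

end Pool.Agent.Helper84.SPQ
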