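import Pool.Agent.Helper84.SPQ.P0
import Pool.Agent.Helper84.SPQ.B4

/-!
# Project SPQ, block Q1: quaternionic matrices (the group `GL(2, ℍ)` times unit scalars) and its kernels

`QS j A`: `A j = c j (conj A)` with a unit scalar `c`. `fS j` is a continuous function with `fS j A = 0 ↔ QS j A` (all `2 × 2` minors of the pair of matrices `A j`, `j conj A` vanish and the entries have equal moduli). `j4` is the standard structure on `ℂ⁴`: `4 × 4` matrices made of blocks `[a, b; -conj b, conj a]`. `fQ = fS j4`. PROOFS.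
`fS_eq`: let `X = A j`, `Y = j conj A`. If `Y = 0` then `X = 0`, `c = 1`. Otherwise choose `Y k l ≠ 0`, `c = X k l / Y k l`. `qs_mul`, `qs_inv`, `qs_smul`: `A B j = A c' j conj B = c c' j conj A conj B`; `A⁻¹`: from `A j = c j conj A`: `j (conj A)⁻¹ = c A⁻¹ j`; `λ A`: the scalar becomes `c λ / conj λ`.
`fS_isG`: for `M`, `j` with `jᴴ j = 1`.
`q_psd`. Let `A ∈ HH fQ`, `P = A Aᴴ` (positive definite and, because the scalar `c` cancels, `P j4 = j4 conj P`), so in `2 × 2` blocks `P = [a 1, Q; Qᴴ, b 1]` with `a, b > 0` and `Q = [x, y; -conj y, conj x]`, `Q Qᴴ = |Q|² 1`, `|Q|² = ‖x‖² + ‖y‖²`; `D = a b - |Q|² > 0`, `det P = D²` so `‖det A‖ = D`,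
`P⁻¹ = D⁻¹ [b 1, -Q; -Qᴴ, a 1]` (check `P P⁻¹ = 1`). `ns (A⁻¹ B) = trace ((A Aᴴ)⁻¹ (B Bᴴ)) = (2/D_A) (b_A a_B + a_A b_B - 2 Re (x conj x' + y conj y'))= (4/D_A) (x0 x0' - x1 x1' - q·q')`, `x0 = (a + b)/2`, `x1 = (a - b)/2`, `q = (Re x, Im x, Re y, Im y) ∈ ℝ⁴`, and `D = x0² - x1² - |q|²`.
So `4 √‖det (A⁻¹ B)‖ / ns (A⁻¹ B) = √(D_A D_B) / (x0 x0' (1 - u·u'))`, `u = (x1, q)/x0` in the unit ball of `ℝ⁵`: `ball_psd` with `t/2` and the real vectors `u`.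
`mdlQ`: `mdl_of_kernel`; `φ (c • 1) = 1`; if `Aᴴ A = c 1` then `ns A = 4 c`, `‖det A‖ = c²`.
-/

set_option autoImplicit false

open Filter Topology Matrix
open scoped ComplexOrder

namespace Pool.Agent.Helper84.SPQ

open NI

section QS

variable {M : Type} [Fintype M] [DecidableEq M]

/-- quaternionic up to a unit scalar -/
def QS (j A : Matrix M M ℂ) : Prop := ∃ c : ℂ, ‖c‖ = 1 ∧ A * j = c • (j * Aᴴᵀ)

/-- the equation -/
noncomputable def fS (j A : Matrix M M ℂ) : ℝ :=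
  (∑ i, ∑ k, ∑ l, ∑ m, ‖(A * j) i k * (j * Aᴴᵀ) l m - (A * j) l m * (j * Aᴴᵀ) i k‖ ^ 2) +
    ∑ i, ∑ k, (‖(A * j) i k‖ ^ 2 - ‖(j * Aᴴᵀ) i k‖ ^ 2) ^ 2

omit [DecidableEq M] in
private theorem cmul56 (A B : Matrix M M ℂ) : (A * B)ᴴᵀ = Aᴴᵀ * Bᴴᵀ := by
  rw [conjTranspose_mul, transpose_mul]

theorem fS_cont (j : Matrix M M ℂ) : Continuous (fS j) := by
  have h1 : Continuous fun A : Matrix M M ℂ => A * j := continuous_id.matrix_mul continuous_const
  have h2 : Continuous fun A : Matrix M M ℂ => j * Aᴴᵀ :=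
    continuous_const.matrix_mul (continuous_id.matrix_conjTranspose.matrix_transpose)
  have h3 : ∀ i k, Continuous fun A : Matrix M M ℂ => (A * j) i k := fun i k => h1.matrix_elem i k
  have h4 : ∀ i k, Continuous fun A : Matrix M M ℂ => (j * Aᴴᵀ) i k := fun i k => h2.matrix_elem i k
  unfold fS
  refine Continuous.add ?_ ?_
  · refine continuous_finsetSum _ fun i _ => continuous_finsetSum _ fun k _ => continuous_finsetSum _ fun l _ =>
      continuous_finsetSum _ fun m _ => ?_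
    exact ((((h3 i k).mul (h4 l m)).sub ((h3 l m).mul (h4 i k))).norm).pow 2
  · refine continuous_finsetSum _ fun i _ => continuous_finsetSum _ fun k _ => ?_
    exact ((((h3 i k).norm).pow 2).sub (((h4 i k).norm).pow 2)).pow 2

theorem fS_nonneg (j A : Matrix M M ℂ) : 0 ≤ fS j A := by
  unfold fS
  positivity

theorem fS_eq {j A : Matrix M M ℂ} : fS j A = 0 ↔ QS j A := by
  unfold QS fS
  obtain ⟨X, hX⟩ : ∃ X, X = A * j := ⟨_, rfl⟩
  obtain ⟨Y, hY⟩ : ∃ Y, Y = j * Aᴴᵀ := ⟨_, rfl⟩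
  rw [← hX, ← hY]
  constructor
  · intro h
    have p1 : 0 ≤ ∑ i, ∑ k, ∑ l, ∑ m, ‖X i k * Y l m - X l m * Y i k‖ ^ 2 := by positivity
    have p2 : 0 ≤ ∑ i, ∑ k, (‖X i k‖ ^ 2 - ‖Y i k‖ ^ 2) ^ 2 := by positivity
    have h1 : ∑ i, ∑ k, ∑ l, ∑ m, ‖X i k * Y l m - X l m * Y i k‖ ^ 2 = 0 := by linarith
    have h2 : ∑ i, ∑ k, (‖X i k‖ ^ 2 - ‖Y i k‖ ^ 2) ^ 2 = 0 := by linarith
    have h3 : ∀ i k l m, X i k * Y l m = X l m * Y i k := by
      intro i k l m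
      rw [Finset.sum_eq_zero_iff_of_nonneg (fun _ _ => by positivity)] at h1
      have h4 := h1 i (Finset.mem_univ i)
      rw [Finset.sum_eq_zero_iff_of_nonneg (fun _ _ => by positivity)] at h4
      have h5 := h4 k (Finset.mem_univ k)
      rw [Finset.sum_eq_zero_iff_of_nonneg (fun _ _ => by positivity)] at h5
      have h6 := h5 l (Finset.mem_univ l)
      rw [Finset.sum_eq_zero_iff_of_nonneg (fun _ _ => by positivity)] at h6
      have h7 := h6 m (Finset.mem_univ m)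
      have h8 := norm_eq_zero.1 (pow_eq_zero_iff (two_ne_zero) |>.1 h7)
      exact sub_eq_zero.1 h8
    have h4 : ∀ i k, ‖X i k‖ = ‖Y i k‖ := by
      intro i k
      rw [Finset.sum_eq_zero_iff_of_nonneg (fun _ _ => by positivity)] at h2
      have h5 := h2 i (Finset.mem_univ i)
      rw [Finset.sum_eq_zero_iff_of_nonneg (fun _ _ => by positivity)] at h5
      have h6 := h5 k (Finset.mem_univ k)
      have h7 : ‖X i k‖ ^ 2 - ‖Y i k‖ ^ 2 = 0 := pow_eq_zero_iff (two_ne_zero) |>.1 h6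
      have h8 : ‖X i k‖ ^ 2 = ‖Y i k‖ ^ 2 := by linarith
      exact (pow_left_inj₀ (norm_nonneg _) (norm_nonneg _) two_ne_zero).1 h8
    by_cases h0 : ∃ k l, Y k l ≠ 0
    · obtain ⟨k, l, hkl⟩ := h0
      refine ⟨X k l / Y k l, ?_, ?_⟩
      · rw [norm_div, h4 k l, div_self]
        exact norm_ne_zero_iff.2 hkl
      · ext i m
        rw [Matrix.smul_apply, smul_eq_mul, div_mul_eq_mul_div, eq_div_iff hkl, h3]
    · push Not at h0
      refine ⟨1, norm_one, ?_⟩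
      ext i m
      rw [one_smul, h0 i m]
      have := h4 i m
      rw [h0 i m, norm_zero] at this
      exact norm_eq_zero.1 this
  · rintro ⟨c, hc, h⟩
    have h1 : ∀ i k, X i k = c * Y i k := by
      intro i k
      rw [h, Matrix.smul_apply, smul_eq_mul]
    have h2 : ∀ i k l m, ‖X i k * Y l m - X l m * Y i k‖ ^ 2 = 0 := by
      intro i k l m
      rw [h1 i k, h1 l m]
      have : c * Y i k * Y l m - c * Y l m * Y i k = 0 := by ring
      rw [this, norm_zero]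
      norm_num
    have h3 : ∀ i k, (‖X i k‖ ^ 2 - ‖Y i k‖ ^ 2) ^ 2 = 0 := by
      intro i k
      rw [h1 i k, norm_mul, hc, one_mul, sub_self]
      norm_num
    simp only [h2, h3, Finset.sum_const_zero, add_zero]

theorem qs_one (j : Matrix M M ℂ) : QS j 1 := by
  refine ⟨1, norm_one, ?_⟩
  rw [conjTranspose_one, transpose_one, one_mul, mul_one, one_smul]

theorem qs_mul {j A B : Matrix M M ℂ} (hA : QS j A) (hB : QS j B) : QS j (A * B) := by
  obtain ⟨c, hc, h⟩ := hA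
  obtain ⟨d, hd, h'⟩ := hB
  refine ⟨d * c, by rw [norm_mul, hc, hd, one_mul], ?_⟩
  rw [Matrix.mul_assoc, h', Matrix.mul_smul, ← Matrix.mul_assoc, h, Matrix.smul_mul, smul_smul, Matrix.mul_assoc,
    ← cmul56]

theorem qs_inv {j A : Matrix M M ℂ} (hA : QS j A) (hd : A.det ≠ 0) : QS j A⁻¹ := by
  obtain ⟨c, hc, h⟩ := hA
  have hc0 : c ≠ 0 := by
    intro h0
    rw [h0, norm_zero] at hc
    exact zero_ne_one hc
  refine ⟨c⁻¹, by rw [norm_inv, hc, inv_one], ?_⟩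
  have hu : IsUnit A.det := isUnit_iff_ne_zero.2 hd
  have h1 : j = c • (A⁻¹ * j * Aᴴᵀ) := by
    calc j = A⁻¹ * (A * j) := by rw [← Matrix.mul_assoc, Matrix.nonsing_inv_mul _ hu, Matrix.one_mul]
      _ = _ := by rw [h, Matrix.mul_smul, Matrix.mul_assoc]
  have h2 : j * A⁻¹ᴴᵀ = c • (A⁻¹ * j) := by
    have h3 : Aᴴᵀ * A⁻¹ᴴᵀ = 1 := by
      rw [← cmul56, Matrix.mul_nonsing_inv _ hu, conjTranspose_one, transpose_one]
    calc j * A⁻¹ᴴᵀ = c • (A⁻¹ * j * Aᴴᵀ) * A⁻¹ᴴᵀ := by rw [← h1]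
      _ = c • (A⁻¹ * j) := by rw [Matrix.smul_mul, Matrix.mul_assoc, h3, Matrix.mul_one]
  rw [h2, smul_smul, inv_mul_cancel₀ hc0, one_smul]

theorem qs_smul {j A : Matrix M M ℂ} (hA : QS j A) {c : ℂ} (hc : c ≠ 0) : QS j (c • A) := by
  obtain ⟨d, hd, h⟩ := hA
  have hs : star c ≠ 0 := star_ne_zero.2 hc
  refine ⟨d * (c / star c), ?_, ?_⟩
  · rw [norm_mul, hd, one_mul, norm_div, norm_star, div_self (norm_ne_zero_iff.2 hc)]
  · rw [conjTranspose_smul, transpose_smul, Matrix.smul_mul, h, Matrix.mul_smul, smul_smul, smul_smul]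
    congr 1
    field_simp

theorem fS_isG (j : Matrix M M ℂ) : IsG (fS j) where
  cont := fS_cont j
  one := fS_eq.2 (qs_one j)
  mul A hA B hB := fS_eq.2 (qs_mul (fS_eq.1 hA.1) (fS_eq.1 hB.1))
  inv A hA := fS_eq.2 (qs_inv (fS_eq.1 hA.1) hA.2)
  smul c hc A hA := fS_eq.2 (qs_smul (fS_eq.1 hA.1) (by
    intro h0
    rw [h0, norm_zero] at hc
    exact zero_ne_one hc))

end QS

/-- the standard quaternionic structure on `ℂ⁴` -/
def j4 : Matrix (Fin 4) (Fin 4) ℂ := !![0, 1, 0, 0; -1, 0, 0, 0; 0, 0, 0, 1; 0, 0, -1, 0]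

/-- the equation of the quaternionic matrices -/
noncomputable abbrev fQ : Matrix (Fin 4) (Fin 4) ℂ → ℝ := fS j4

/-- the matrix `A Aᴴ` -/
private noncomputable def Pm56 (a b : ℝ) (x y : ℂ) : Matrix (Fin 4) (Fin 4) ℂ :=
  !![(a : ℂ), 0, x, y; 0, (a : ℂ), -star y, star x; star x, -y, (b : ℂ), 0; star y, x, 0, (b : ℂ)]

/-- its cofactor matrix -/
private noncomputable def Qm56 (a b : ℝ) (x y : ℂ) : Matrix (Fin 4) (Fin 4) ℂ :=
  !![(b : ℂ), 0, -x, -y; 0, (b : ℂ), star y, -star x; -star x, y, (a : ℂ), 0; -star y, -x, 0, (a : ℂ)]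

private theorem ss56 (z : ℂ) : z * star z = ((‖z‖ ^ 2 : ℝ) : ℂ) := by
  rw [← Complex.normSq_eq_norm_sq, Complex.normSq_eq_conj_mul_self, mul_comm]
  rfl

private theorem PQ56 (a b : ℝ) (x y : ℂ) :
    Pm56 a b x y * Qm56 a b x y = ((a * b - ‖x‖ ^ 2 - ‖y‖ ^ 2 : ℝ) : ℂ) • (1 : Matrix (Fin 4) (Fin 4) ℂ) := by
  have e : ((a * b - ‖x‖ ^ 2 - ‖y‖ ^ 2 : ℝ) : ℂ) = (a : ℂ) * b - x * star x - y * star y := by
    rw [ss56, ss56]
    push_cast
    ring
  rw [e]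
  unfold Pm56 Qm56
  ext i k
  fin_cases i <;> fin_cases k <;> simp [Matrix.mul_apply, Fin.sum_univ_succ] <;> ring

private theorem detP56 (a b : ℝ) (x y : ℂ) :
    (Pm56 a b x y).det = ((a * b - ‖x‖ ^ 2 - ‖y‖ ^ 2 : ℝ) : ℂ) ^ 2 := by
  have e : ((a * b - ‖x‖ ^ 2 - ‖y‖ ^ 2 : ℝ) : ℂ) = (a : ℂ) * b - x * star x - y * star y := by
    rw [ss56, ss56]
    push_cast
    ring
  rw [e]
  unfold Pm56
  simp [Matrix.det_succ_row_zero, Fin.sum_univ_succ, Fin.succAbove]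
  ring

private theorem comm56 {A : Matrix (Fin 4) (Fin 4) ℂ} (hA : A ∈ HH fQ) :
    A * Aᴴ * j4 = j4 * (Aᴴᵀ * Aᵀ) := by
  obtain ⟨c, hc, h⟩ := fS_eq.1 hA.1
  have hjt : j4ᵀ = -j4 := by
    unfold j4
    ext i k
    fin_cases i <;> fin_cases k <;> simp
  have hcc : star c * c = 1 := by
    rw [mul_comm, ss56, hc]
    norm_num
  have h2 : j4 * Aᵀ = c • (Aᴴ * j4) := by
    have h3 := congrArg Matrix.transpose h
    rw [transpose_mul, transpose_smul, transpose_mul, hjt, transpose_transpose, Matrix.neg_mul, Matrix.mul_neg,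
      smul_neg] at h3
    exact neg_injective h3
  have h3 : Aᴴ * j4 = star c • (j4 * Aᵀ) := by
    rw [h2, smul_smul, hcc, one_smul]
  rw [Matrix.mul_assoc, h3, Matrix.mul_smul, ← Matrix.mul_assoc, h, Matrix.smul_mul, smul_smul, hcc, one_smul,
    Matrix.mul_assoc]

private theorem str56 {A : Matrix (Fin 4) (Fin 4) ℂ} (hA : A ∈ HH fQ) : ∃ (a b : ℝ) (x y : ℂ),
    A * Aᴴ = Pm56 a b x y ∧ 0 < a ∧ 0 < b ∧ 0 < a * b - ‖x‖ ^ 2 - ‖y‖ ^ 2 ∧
      ‖A.det‖ = a * b - ‖x‖ ^ 2 - ‖y‖ ^ 2 := by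
  have hpd : (A * Aᴴ).PosDef := Matrix.PosDef.mul_conjTranspose_self A
    (Matrix.vecMul_injective_of_isUnit ((Matrix.isUnit_iff_isUnit_det A).2 (isUnit_iff_ne_zero.2 hA.2)))
  obtain ⟨P, hP⟩ : ∃ P, P = A * Aᴴ := ⟨_, rfl⟩
  have hc := comm56 hA
  have hherm : ∀ i k, P k i = star (P i k) := by
    intro i k
    have h1 := hpd.1
    rw [← hP] at h1
    rw [← Matrix.conjTranspose_apply, h1.eq]
  have hcj : Aᴴᵀ * Aᵀ = P.map star := by
    rw [hP]
    ext i k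
    simp [Matrix.mul_apply]
  rw [hcj, ← hP] at hc
  have e := fun i k => congrFun (congrFun hc i) k
  have e00 := e 0 0
  have e01 := e 0 1
  have e02 := e 0 2
  have e03 := e 0 3
  have e22 := e 2 2
  have e23 := e 2 3
  unfold j4 at e00 e01 e02 e03 e22 e23
  simp [Matrix.mul_apply, Fin.sum_univ_succ] at e00 e01 e02 e03 e22 e23
  have hre : ∀ i, P i i = (((P i i).re : ℝ) : ℂ) := by
    intro i
    have h1 := hherm i i
    exact (Complex.conj_eq_iff_re.1 h1.symm).symm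
  have hs : ∀ z : ℂ, (starRingEnd ℂ) z = star z := fun z => rfl
  rw [hs] at e00 e01 e02 e03 e22 e23
  have q01 : P 0 1 = 0 := by
    rw [hherm 0 1, star_star] at e00
    linear_combination (-1 / 2 : ℂ) * e00
  have q10 : P 1 0 = 0 := by rw [hherm 0 1, q01, star_zero]
  have q11 : P 1 1 = P 0 0 := by rw [e01, ← hherm 1 1]
  have q12 : P 1 2 = -star (P 0 3) := by
    have h1 := congrArg star e02
    rw [star_star, star_neg] at h1
    exact h1.symm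
  have q13 : P 1 3 = star (P 0 2) := by
    have h1 := congrArg star e03
    rw [star_star] at h1
    exact h1.symm
  have q23 : P 2 3 = 0 := by
    rw [hherm 2 3, star_star] at e22
    linear_combination (-1 / 2 : ℂ) * e22
  have q32 : P 3 2 = 0 := by rw [hherm 2 3, q23, star_zero]
  have q33 : P 3 3 = P 2 2 := by rw [e23, ← hherm 3 3]
  have q20 := hherm 0 2
  have q30 := hherm 0 3
  have q21 : P 2 1 = -P 0 3 := by rw [hherm 1 2, q12, star_neg, star_star]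
  have q31 : P 3 1 = P 0 2 := by rw [hherm 1 3, q13, star_star]
  have ra := hre 0
  have rb := hre 2
  obtain ⟨a, ha⟩ : ∃ a : ℝ, a = (P 0 0).re := ⟨_, rfl⟩
  obtain ⟨b, hb⟩ : ∃ b : ℝ, b = (P 2 2).re := ⟨_, rfl⟩
  rw [← ha] at ra
  rw [← hb] at rb
  have hPm : P = Pm56 a b (P 0 2) (P 0 3) := by
    unfold Pm56
    ext i k
    fin_cases i <;> fin_cases k <;> simp [q01, q10, q11, q12, q13, q20, q21, q23, q30, q31, q32, q33, ra, rb]
  have ha0 : 0 < a := by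
    have h1 := hpd.diag_pos (i := 0)
    rw [← hP, ra] at h1
    exact_mod_cast h1
  have hb0 : 0 < b := by
    have h1 := hpd.diag_pos (i := 2)
    rw [← hP, rb] at h1
    exact_mod_cast h1
  have hdet : 0 < b * (a * b - ‖P 0 2‖ ^ 2 - ‖P 0 3‖ ^ 2) := by
    have hinj : Function.Injective (![0, 2, 3] : Fin 3 → Fin 4) := by decide
    have h1 := (hpd.submatrix hinj).det_pos
    rw [← hP, Matrix.det_fin_three] at h1
    have h2 : (((P.submatrix ![0, 2, 3] ![0, 2, 3]) 0 0 * (P.submatrix ![0, 2, 3] ![0, 2, 3]) 1 1 *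
        (P.submatrix ![0, 2, 3] ![0, 2, 3]) 2 2 - (P.submatrix ![0, 2, 3] ![0, 2, 3]) 0 0 *
        (P.submatrix ![0, 2, 3] ![0, 2, 3]) 1 2 * (P.submatrix ![0, 2, 3] ![0, 2, 3]) 2 1 -
        (P.submatrix ![0, 2, 3] ![0, 2, 3]) 0 1 * (P.submatrix ![0, 2, 3] ![0, 2, 3]) 1 0 *
        (P.submatrix ![0, 2, 3] ![0, 2, 3]) 2 2 + (P.submatrix ![0, 2, 3] ![0, 2, 3]) 0 1 *
        (P.submatrix ![0, 2, 3] ![0, 2, 3]) 1 2 * (P.submatrix ![0, 2, 3] ![0, 2, 3]) 2 0 +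
        (P.submatrix ![0, 2, 3] ![0, 2, 3]) 0 2 * (P.submatrix ![0, 2, 3] ![0, 2, 3]) 1 0 *
        (P.submatrix ![0, 2, 3] ![0, 2, 3]) 2 1 - (P.submatrix ![0, 2, 3] ![0, 2, 3]) 0 2 *
        (P.submatrix ![0, 2, 3] ![0, 2, 3]) 1 1 * (P.submatrix ![0, 2, 3] ![0, 2, 3]) 2 0 : ℂ)) =
        ((b * (a * b - ‖P 0 2‖ ^ 2 - ‖P 0 3‖ ^ 2) : ℝ) : ℂ) := by
      have e2 := ss56 (P 0 2)
      have e3 := ss56 (P 0 3)
      push_cast at e2 e3 ⊢
      rw [← e2, ← e3]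
      simp [q20, q30, q23, q32, q33, ra, rb]
      ring
    rw [h2] at h1
    exact_mod_cast h1
  have hD : 0 < a * b - ‖P 0 2‖ ^ 2 - ‖P 0 3‖ ^ 2 := (mul_pos_iff_of_pos_left hb0).1 hdet
  refine ⟨a, b, P 0 2, P 0 3, hP ▸ hPm, ha0, hb0, hD, ?_⟩
  have h1 := detP56 a b (P 0 2) (P 0 3)
  rw [← hPm, hP, Matrix.det_mul, Matrix.det_conjTranspose, ss56, ← hP] at h1
  have h2 : ‖A.det‖ ^ 2 = (a * b - ‖P 0 2‖ ^ 2 - ‖P 0 3‖ ^ 2) ^ 2 := by exact_mod_cast h1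
  exact (pow_left_inj₀ (norm_nonneg _) hD.le two_ne_zero).1 h2

private theorem ns56 {M : Type} [Fintype M] (A : Matrix M M ℂ) : ((ns A : ℝ) : ℂ) = (A * Aᴴ).trace := by
  unfold ns Matrix.trace
  push_cast
  refine Finset.sum_congr rfl fun i _ => ?_
  rw [Matrix.diag_apply, Matrix.mul_apply]
  refine Finset.sum_congr rfl fun k _ => ?_
  rw [Matrix.conjTranspose_apply, ss56]
  push_cast
  rfl

private theorem nsAB56 {A B : Matrix (Fin 4) (Fin 4) ℂ} {a b a' b' : ℝ} {x y x' y' : ℂ}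
    (hA : A * Aᴴ = Pm56 a b x y) (hB : B * Bᴴ = Pm56 a' b' x' y') (hD : 0 < a * b - ‖x‖ ^ 2 - ‖y‖ ^ 2) :
    ns (A⁻¹ * B) = 2 / (a * b - ‖x‖ ^ 2 - ‖y‖ ^ 2) *
      (b * a' + a * b' - 2 * (x.re * x'.re + x.im * x'.im + y.re * y'.re + y.im * y'.im)) := by
  obtain ⟨D, hDD⟩ : ∃ D : ℝ, D = a * b - ‖x‖ ^ 2 - ‖y‖ ^ 2 := ⟨_, rfl⟩
  have hPQ := PQ56 a b x y
  rw [← hDD] at hD hPQ ⊢
  have hD0 : (D : ℂ) ≠ 0 := by exact_mod_cast hD.ne'
  have hinv : (A * Aᴴ)⁻¹ = (D : ℂ)⁻¹ • Qm56 a b x y := by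
    apply Matrix.inv_eq_right_inv
    rw [hA, Matrix.mul_smul, hPQ, smul_smul, inv_mul_cancel₀ hD0, one_smul]
  have h1 : ((ns (A⁻¹ * B) : ℝ) : ℂ) = ((A * Aᴴ)⁻¹ * (B * Bᴴ)).trace := by
    rw [ns56, conjTranspose_mul, Matrix.mul_inv_rev]
    have e1 : A⁻¹ * B * (Bᴴ * A⁻¹ᴴ) = A⁻¹ * (B * Bᴴ * A⁻¹ᴴ) := by simp only [Matrix.mul_assoc]
    rw [e1, Matrix.trace_mul_comm, Matrix.conjTranspose_nonsing_inv, Matrix.mul_assoc, Matrix.trace_mul_comm]
  have h2 : ((A * Aᴴ)⁻¹ * (B * Bᴴ)).trace = ((2 / D *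
      (b * a' + a * b' - 2 * (x.re * x'.re + x.im * x'.im + y.re * y'.re + y.im * y'.im)) : ℝ) : ℂ) := by
    rw [hinv, hB, Matrix.smul_mul, Matrix.trace_smul]
    have h3 : (Qm56 a b x y * Pm56 a' b' x' y').trace =
        ((2 * (b * a' + a * b' - 2 * (x.re * x'.re + x.im * x'.im + y.re * y'.re + y.im * y'.im)) : ℝ) : ℂ) := by
      unfold Qm56 Pm56
      simp only [Matrix.trace, Matrix.diag_apply, Fin.sum_univ_four, Matrix.mul_apply]
      apply Complex.ext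
      · simp
        ring
      · simp
        ring
    rw [h3, smul_eq_mul]
    push_cast
    field_simp
  rw [h2] at h1
  exact_mod_cast h1

private theorem nsnn56 {M : Type} [Fintype M] (A : Matrix M M ℂ) : 0 ≤ ns A := by
  unfold ns
  positivity

theorem q_psd {t : ℝ} (ht : 0 < t) :
    (Matrix.of fun A B : {A : Matrix (Fin 4) (Fin 4) ℂ // A ∈ HH fQ} =>
      (((4 * Real.sqrt ‖(A.1⁻¹ * B.1).det‖ / ns (A.1⁻¹ * B.1)) ^ t : ℝ) : ℂ)).PosSemidef := by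
  choose a b x y hP ha hb hD hdet using (fun A : {A : Matrix (Fin 4) (Fin 4) ℂ // A ∈ HH fQ} => str56 A.2)
  have hs : ∀ A, 0 < (a A + b A) / 2 := fun A => by linarith [ha A, hb A]
  have hxy : ∀ z : ℂ, ‖z‖ ^ 2 = z.re ^ 2 + z.im ^ 2 := by
    intro z
    rw [Complex.sq_norm, Complex.normSq_apply]
    ring
  have hball : ∀ A : {A : Matrix (Fin 4) (Fin 4) ℂ // A ∈ HH fQ}, ∑ i, ‖(fun (A : {A : Matrix (Fin 4) (Fin 4) ℂ // A ∈ HH fQ}) (i : Fin 5) =>
      (((![(a A - b A) / 2, (x A).re, (x A).im, (y A).re, (y A).im] i) / ((a A + b A) / 2) : ℝ) : ℂ)) A i‖ ^ 2 < 1 := by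
    intro A
    have h1 : ∀ r : ℝ, ‖((r / ((a A + b A) / 2) : ℝ) : ℂ)‖ ^ 2 = r ^ 2 / ((a A + b A) / 2) ^ 2 := by
      intro r
      rw [Complex.norm_real, Real.norm_eq_abs, sq_abs, div_pow]
    simp only [h1]
    rw [← Finset.sum_div, div_lt_one (pow_pos (hs A) 2), Fin.sum_univ_five]
    have h2 := hD A
    rw [hxy, hxy] at h2
    simp
    nlinarith
  have hb := ball_psd (fun (A : {A : Matrix (Fin 4) (Fin 4) ℂ // A ∈ HH fQ}) (i : Fin 5) =>
      (((![(a A - b A) / 2, (x A).re, (x A).im, (y A).re, (y A).im] i) / ((a A + b A) / 2) : ℝ) : ℂ)) hball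
      (fun A => (√(a A * b A - ‖x A‖ ^ 2 - ‖y A‖ ^ 2) / ((a A + b A) / 2)) ^ t) (half_pos ht)
  refine (congrArg Matrix.PosSemidef ?_).mp hb
  ext A B
  rw [Matrix.of_apply, Matrix.of_apply]
  congr 1
  obtain ⟨u, hu⟩ : ∃ u : ℝ, u = ((a A - b A) / 2 * ((a B - b B) / 2) + (x A).re * (x B).re + (x A).im * (x B).im +
    (y A).re * (y B).re + (y A).im * (y B).im) / ((a A + b A) / 2 * ((a B + b B) / 2)) := ⟨_, rfl⟩
  have hsA := hs A
  have hsB := hs B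
  have hsum : (∑ i : Fin 5, star ((((![(a A - b A) / 2, (x A).re, (x A).im, (y A).re, (y A).im] i) / ((a A + b A) / 2) : ℝ) : ℂ)) *
      (((![(a B - b B) / 2, (x B).re, (x B).im, (y B).re, (y B).im] i) / ((a B + b B) / 2) : ℝ) : ℂ)) = (u : ℂ) := by
    have h1 : ∀ r q : ℝ, star (((r / ((a A + b A) / 2) : ℝ) : ℂ)) * (((q / ((a B + b B) / 2) : ℝ) : ℂ)) =
        ((r * q / ((a A + b A) / 2 * ((a B + b B) / 2)) : ℝ) : ℂ) := by
      intro r q
      have h2 : star (((r / ((a A + b A) / 2) : ℝ) : ℂ)) = (((r / ((a A + b A) / 2) : ℝ) : ℂ)) := Complex.conj_ofReal _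
      rw [h2, ← Complex.ofReal_mul, div_mul_div_comm]
    simp only [h1]
    rw [← Complex.ofReal_sum, ← Finset.sum_div, Fin.sum_univ_five, hu]
    simp
  have hns := nsAB56 (hP A) (hP B) (hD A)
  have hN : b A * a B + a A * b B - 2 * ((x A).re * (x B).re + (x A).im * (x B).im + (y A).re * (y B).re + (y A).im * (y B).im) =
      2 * (((a A + b A) / 2) * ((a B + b B) / 2)) * (1 - u) := by
    rw [hu]
    have h3 : (a A + b A) / 2 * ((a B + b B) / 2) ≠ 0 := (mul_pos hsA hsB).ne'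
    have h4 : ∀ N m : ℝ, m ≠ 0 → 2 * m * (1 - N / m) = 2 * m - 2 * N := by
      intro N m hm
      field_simp
    rw [h4 _ _ h3]
    ring
  rw [hN] at hns
  obtain ⟨D, hDD⟩ : ∃ D, D = a A * b A - ‖x A‖ ^ 2 - ‖y A‖ ^ 2 := ⟨_, rfl⟩
  obtain ⟨D', hDD'⟩ : ∃ D', D' = a B * b B - ‖x B‖ ^ 2 - ‖y B‖ ^ 2 := ⟨_, rfl⟩
  have hDA := hD A
  have hDB := hD B
  have hdA := hdet A
  have hdB := hdet B
  obtain ⟨σ, hσ⟩ : ∃ σ, σ = (a A + b A) / 2 := ⟨_, rfl⟩
  obtain ⟨τ, hτ⟩ : ∃ τ, τ = (a B + b B) / 2 := ⟨_, rfl⟩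
  simp only [hsum]
  rw [← hDD] at hns hDA hdA ⊢
  rw [← hDD'] at hDB hdB ⊢
  rw [← hσ] at hsA hns ⊢
  rw [← hτ] at hsB hns ⊢
  have hu1 : 0 ≤ 1 - u := by
    have h1 := nsnn56 (A.1⁻¹ * B.1)
    rw [hns] at h1
    by_contra hneg
    push Not at hneg
    have h2 : 0 < 2 / D * (2 * (σ * τ)) := by positivity
    have h3 : 2 / D * (2 * (σ * τ) * (1 - u)) = 2 / D * (2 * (σ * τ)) * (1 - u) := by ring
    rw [h3] at h1
    have h4 : 2 / D * (2 * (σ * τ)) * (1 - u) < 0 := mul_neg_of_pos_of_neg h2 hneg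
    linarith
  have hnd : ‖(A.1⁻¹ * B.1).det‖ = D' / D := by
    rw [Matrix.det_mul, Matrix.det_nonsing_inv, norm_mul, Ring.inverse_eq_inv', norm_inv, hdA, hdB]
    field_simp
  have hn1 : ‖1 - (u : ℂ)‖ = 1 - u := by
    have h1 : (1 : ℂ) - u = ((1 - u : ℝ) : ℂ) := by push_cast; rfl
    rw [h1, Complex.norm_real, Real.norm_eq_abs, abs_of_nonneg hu1]
  have hsq : √D * √D = D := Real.mul_self_sqrt hDA.le
  have hsp : 0 < √D := Real.sqrt_pos.2 hDA
  have e1 : 4 * √(D' / D) / (2 / D * (2 * (σ * τ) * (1 - u))) = √D / σ * (√D' / τ) * (1 - u)⁻¹ := by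
    rw [Real.sqrt_div' _ hDA.le]
    have h5 : 4 * (√D' / √D) / (2 / D * (2 * (σ * τ) * (1 - u))) = (D / √D) * √D' / (σ * τ) * (1 - u)⁻¹ := by
      field_simp
      norm_num
    have h6 : D / √D = √D := by
      rw [div_eq_iff hsp.ne', hsq]
    rw [h5, h6]
    field_simp
  rw [hn1, hnd, hns, e1, Real.mul_rpow (by positivity) (inv_nonneg.2 hu1), Real.mul_rpow (by positivity) (by positivity),
    Real.inv_rpow hu1, ← Real.rpow_neg hu1]
  congr 2
  ring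

private theorem inv56 {A : Matrix (Fin 4) (Fin 4) ℂ} {c : ℝ} (hd : A.det ≠ 0) (h : Aᴴ * A = (c : ℂ) • (1 : Matrix (Fin 4) (Fin 4) ℂ))
    (t : ℝ) : (4 * Real.sqrt ‖A.det‖ / ns A) ^ t = 1 := by
  have h1 : ((ns A : ℝ) : ℂ) = ((4 * c : ℝ) : ℂ) := by
    rw [ns56, Matrix.trace_mul_comm, h, Matrix.trace_smul, Matrix.trace_one]
    simp
    ring
  have h2 : ns A = 4 * c := by exact_mod_cast h1
  have hc0 : 0 ≤ c := by linarith [nsnn56 A]
  have h3 : ‖A.det‖ ^ 2 = c ^ 4 := by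
    have h4 := congrArg Matrix.det h
    rw [Matrix.det_mul, Matrix.det_conjTranspose, mul_comm, ss56, Matrix.det_smul, Matrix.det_one, mul_one,
      Fintype.card_fin] at h4
    exact_mod_cast h4
  have h4 : ‖A.det‖ = c ^ 2 := by
    have h5 : ‖A.det‖ ^ 2 = (c ^ 2) ^ 2 := by rw [h3]; ring
    exact (pow_left_inj₀ (norm_nonneg _) (sq_nonneg c) two_ne_zero).1 h5
  have hc : 0 < c := by
    rcases hc0.eq_or_lt with h5 | h5
    · rw [← h5] at h4
      exact absurd (norm_eq_zero.1 (by rw [h4]; norm_num)) hd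
    · exact h5
  rw [h4, Real.sqrt_sq hc0, h2, div_self (by positivity), Real.one_rpow]

private theorem nscont56 {M : Type} [Fintype M] : Continuous fun A : Matrix M M ℂ => ns A := by
  unfold ns
  fun_prop

theorem mdlQ {t : ℝ} (ht : 0 < t) :
    ∃ (L : Type) (_ : NormedAddCommGroup L) (_ : InnerProductSpace ℂ L) (_ : CompleteSpace L) (Mo : Mdl fQ L),
      ∀ A ∈ HH fQ, inner ℂ Mo.v (Mo.π A Mo.v) = (((4 * Real.sqrt ‖A.det‖ / ns A) ^ t : ℝ) : ℂ) := by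
  have hns1 : ns (1 : Matrix (Fin 4) (Fin 4) ℂ) = 4 := by
    have h1 := ns56 (1 : Matrix (Fin 4) (Fin 4) ℂ)
    rw [conjTranspose_one, mul_one, Matrix.trace_one, Fintype.card_fin] at h1
    exact_mod_cast h1
  refine mdl_of_kernel (fS_isG j4) (fun A => (4 * Real.sqrt ‖A.det‖ / ns A) ^ t) ?_ (q_psd ht) ?_ ?_ ?_
  · refine inv56 (c := 1) (by simp) ?_ t
    rw [conjTranspose_one, mul_one, Complex.ofReal_one, one_smul]
  · intro c A hA hcA
    have hc : c ≠ 0 := by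
      intro h0
      apply hcA.2
      rw [h0, zero_smul]
      simp
    have h1 : A⁻¹ * (c • A) = c • (1 : Matrix (Fin 4) (Fin 4) ℂ) := by
      rw [Matrix.mul_smul, Matrix.nonsing_inv_mul _ (isUnit_iff_ne_zero.2 hA.2)]
    show (4 * Real.sqrt ‖(A⁻¹ * (c • A)).det‖ / ns (A⁻¹ * (c • A))) ^ t = 1
    rw [h1]
    refine inv56 (c := ‖c‖ ^ 2) ?_ ?_ t
    · rw [Matrix.det_smul, Matrix.det_one, mul_one]
      exact pow_ne_zero _ hc
    · rw [conjTranspose_smul, conjTranspose_one, Matrix.smul_mul, one_mul, smul_smul, mul_comm, ss56]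
  · apply ContinuousAt.continuousWithinAt
    have h1 : ContinuousAt (fun A : Matrix (Fin 4) (Fin 4) ℂ => 4 * Real.sqrt ‖A.det‖ / ns A) 1 := by
      refine ContinuousAt.div ?_ nscont56.continuousAt (by rw [hns1]; norm_num)
      have h2 : Continuous fun A : Matrix (Fin 4) (Fin 4) ℂ => 4 * Real.sqrt ‖A.det‖ :=
        continuous_const.mul (Real.continuous_sqrt.comp (continuous_id.matrix_det).norm)
      exact h2.continuousAt
    refine h1.rpow_const (Or.inl ?_)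
    rw [hns1, Matrix.det_one, norm_one, Real.sqrt_one]
    norm_num
  · rintro A hA ⟨c, hc⟩
    exact inv56 hA.2 hc t

end Pool.Agent.Helper84.SPQ
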