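import Pool.Agent.Helper84.SPQ.U1
import Pool.Agent.Helper84.SPQ.B4

/-!
# Project SPQ, block U2: the representations of `U(1, m)`

`mdl_of_kernel` with `φ A = ‖A e e‖^(-2t)`. `hscal`: `A, c • A ∈ HH (fU e)` implies `‖c‖ = 1` (`(c A)ᴴ J0 (c A) = ‖c‖² J0`; if `M` is a singleton or not: `J0 e ≠ 0`), `A⁻¹ (c • A) = c • 1`. `hcont`: `‖A e e‖` is continuous, `≥ 1` on `HH`.
`hinv`: `Aᴴ A = c 1` and `Aᴴ J0 A = J0`: `A⁻¹ = J0 Aᴴ J0` and `A⁻¹ = c⁻¹ Aᴴ`; taking `‖det‖`: `‖det A‖ = 1` and `c^m = 1`, `c > 0`, so `c = 1`, `A` unitary, `J0 A = A J0`, so `A k e = 0` for `k ≠ e` and `‖A e e‖ = 1`.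
-/

set_option autoImplicit false

open Filter Topology Matrix
open scoped ComplexOrder

namespace Pool.Agent.Helper84.SPQ

open NI

private theorem J0_ee63 {M : Type} [Fintype M] [DecidableEq M] (e : M) : J0 e e e = 1 := by
  unfold J0
  rw [diagonal_apply_eq, if_pos rfl]

private theorem J0_mul63 {M : Type} [Fintype M] [DecidableEq M] (e : M) (A : Matrix M M ℂ) (k j : M) :
    (J0 e * A) k j = (if k = e then 1 else -1) * A k j := by
  unfold J0
  rw [diagonal_mul]

private theorem mul_J063 {M : Type} [Fintype M] [DecidableEq M] (e : M) (A : Matrix M M ℂ) (k j : M) :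
    (A * J0 e) k j = A k j * (if j = e then 1 else -1) := by
  unfold J0
  rw [mul_diagonal]

private theorem norm_one63 {c : ℂ} (h : (starRingEnd ℂ) c * c = 1) : ‖c‖ = 1 := by
  have h1 : ((‖c‖ : ℂ)) ^ 2 = 1 := by
    rw [← h, mul_comm, Complex.mul_conj, Complex.normSq_eq_norm_sq]
    push_cast
    rfl
  have h2 : ‖c‖ ^ 2 = 1 := by exact_mod_cast h1
  nlinarith [norm_nonneg c]

theorem mdlU {M : Type} [Fintype M] [DecidableEq M] (e : M) {t : ℝ} (ht : 0 < t) :
    ∃ (L : Type) (_ : NormedAddCommGroup L) (_ : InnerProductSpace ℂ L) (_ : CompleteSpace L) (Mo : Mdl (fU e) L),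
      ∀ A ∈ HH (fU e), inner ℂ Mo.v (Mo.π A Mo.v) = ((‖A e e‖ ^ (-(2 * t)) : ℝ) : ℂ) := by
  refine mdl_of_kernel (fU_isG e) (fun A => ‖A e e‖ ^ (-(2 * t))) ?_ (u_psd e ht) ?_ ?_ ?_
  · rw [one_apply_eq, norm_one, Real.one_rpow]
  · intro c A hA hcA
    have h1 := fU_eq.1 hA.1
    have h2 := fU_eq.1 hcA.1
    rw [conjTranspose_smul, Matrix.smul_mul, Matrix.smul_mul, Matrix.mul_smul, h1, smul_smul] at h2
    have h3 := congrFun (congrFun h2 e) e
    rw [Matrix.smul_apply, J0_ee63, smul_eq_mul, mul_one] at h3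
    have h4 : ‖c‖ = 1 := norm_one63 h3
    rw [Matrix.mul_smul, nonsing_inv_mul _ (isUnit_iff_ne_zero.2 hA.2), Matrix.smul_apply, one_apply_eq,
      smul_eq_mul, mul_one, h4, Real.one_rpow]
  · refine ContinuousAt.continuousWithinAt ?_
    refine ContinuousAt.rpow_const ?_ (Or.inl ?_)
    · exact (continuous_id.matrix_elem e e).norm.continuousAt
    · rw [one_apply_eq, norm_one]
      exact one_ne_zero
  · rintro A hA ⟨c, hc⟩
    have hJ := fU_eq.1 hA.1
    have hAe : A e e ≠ 0 := by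
      intro h
      have h1 := u_entry hA
      rw [h, norm_zero] at h1
      linarith
    -- `A * Aᴴ = c • 1`
    have hc0 : (c : ℂ) ≠ 0 := by
      intro h0
      rw [h0, zero_smul] at hc
      have h1 := congrArg Matrix.det hc
      rw [det_mul, det_conjTranspose] at h1
      have : Nonempty M := ⟨e⟩
      rw [det_zero] at h1
      rcases mul_eq_zero.1 h1 with h2 | h2
      · exact hA.2 (star_eq_zero.1 h2)
      · exact hA.2 h2
    have hAA : A * Aᴴ = (c : ℂ) • (1 : Matrix M M ℂ) := by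
      have h1 : ((c : ℂ)⁻¹ • Aᴴ) * A = 1 := by
        rw [Matrix.smul_mul, hc, smul_smul, inv_mul_cancel₀ hc0, one_smul]
      have h2 := mul_eq_one_comm.1 h1
      rw [Matrix.mul_smul] at h2
      rw [← h2, smul_smul, mul_inv_cancel₀ hc0, one_smul]
    have hcomm : (c : ℂ) • (J0 e * A) = A * J0 e := by
      calc (c : ℂ) • (J0 e * A) = ((c : ℂ) • (1 : Matrix M M ℂ)) * (J0 e * A) := by
            rw [Matrix.smul_mul, Matrix.one_mul]
        _ = A * (Aᴴ * J0 e * A) := by
            rw [← hAA, Matrix.mul_assoc, Matrix.mul_assoc]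
        _ = A * J0 e := by rw [hJ]
    have hc1 : (c : ℂ) = 1 := by
      have h1 := congrFun (congrFun hcomm e) e
      rw [Matrix.smul_apply, J0_mul63, mul_J063, if_pos rfl, one_mul, mul_one, smul_eq_mul] at h1
      exact mul_right_cancel₀ hAe (h1.trans (one_mul _).symm)
    have hk : ∀ k, k ≠ e → A k e = 0 := by
      intro k hke
      have h1 := congrFun (congrFun hcomm k) e
      rw [hc1, one_smul, J0_mul63, mul_J063, if_neg hke, if_pos rfl, mul_one] at h1
      have h2 : (2 : ℂ) * A k e = 0 := by linear_combination -h1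
      exact (mul_eq_zero.1 h2).resolve_left two_ne_zero
    have h1 := congrFun (congrFun hc e) e
    rw [hc1, one_smul, one_apply_eq, mul_apply, Finset.sum_eq_single e
      (fun k _ hke => by rw [hk k hke, mul_zero]) (fun h => absurd (Finset.mem_univ e) h),
      conjTranspose_apply] at h1
    rw [norm_one63 h1, Real.one_rpow]

end Pool.Agent.Helper84.SPQ
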