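import Pool.Agent.Helper84.SPQ.U1
import Pool.Agent.Helper66.RK.Upq

/-!
# Project SPQ, block U3: the form in the singular bases, the gauge

`Φ` Hermitian unitary (`Φᴴ = Φ`, `Φ² = 1`), preserved by all `ι g`. `Jh S Φ γ = (kR γ)ᴴ Φ (kR γ)`. PROOFS (`i0` is the index `r - 1`, `i1` the index `r - 2`).
`jh_star`, `jh_sq`: clear (`kR` unitary). `jh_m`: `S.m g h γ = (kR γ)ᴴ ι(h) kR(g⁻¹ γ h)`. `jh_supp`: as in the proof of `card_le` in `Helper66/RK/Upq.lean`: `D F D = F`, `D = diag(s_i²)`, `F = Jh` (`upq_gram`, `gram_eq`): if `F i j ≠ 0` then `s_i² s_j² = 1`, so `s_i s_j = 1`.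
`mid_zero`: let `m = r - 1`, `Mid = {i | r - 1 ≤ i ≤ N - r}` and `s_{r-1} < s_{r-2}` (`hgap`; indices below `r - 1` have `s ≥ s_{r-2} > s_{r-1}`; `s_i s_{rev i} = 1` (`upq_symm`)). If `i ∈ Mid`, `j ∉ Mid` then `s_i s_j ≠ 1`: for `j ≤ r - 2`: `s_j > s_{r-1}` and `s_i ≥ s_{N-r} = 1/s_{r-1}`;
for `j ≥ N - r + 1`: `s_j = 1/s_{rev j} < 1/s_{r-1}`, `s_i ≤ s_{r-1}`.
`rank_one`: a Hermitian idempotent matrix `Q` with trace `1` is `n nᴴ`, `nᴴ n = 1`: spectral theorem (eigenvalues `0`, `1`, exactly one is `1`); and there is a unitary `κ` with `κᴴ Q κ = E_ee` (from `IsHermitian.spectral_theorem` and a permutation of the basis).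
`gauge`: `F = Jh` restricted to the block of `r - 1` (which is `Mid`): `F² = 1` on `Mid` by `mid_zero` and `jh_sq`; `trace F = trace Jh = trace Φ = 2 r - N` as the diagonal entries of `Jh` outside `Mid` vanish (`s_j² ≠ 1` there: `s_j > s_{r-1} ≥ 1` for `j ≤ r - 2`, and `rev`; `s_{r-1} ≥ 1` as `s_{r-1} s_{N-r} = 1`, `s_{N-r} ≤ s_{r-1}`).
`Mid` has `N - 2 r + 2` elements, so `Q = (1 + F)/2` has trace `1`: `κᴴ Q κ = E_ee`, so `κᴴ F κ = J0 e`. `X` (the diagonal matrix `1/s_i` on `Mid`) satisfies `X F X = F` (`jh_supp`: `F i j /(s_i s_j) = F i j`), so `(κᴴ X κ)ᴴ J0 (κᴴ X κ) = J0`.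
The entry `(κᴴ X κ) e e = trace (E_ee κᴴ X κ) = trace (Q X) = ∑_i Q i i / s_i`. If `s_{r-1} = 1` all `s_i = 1` on `Mid` and it is `trace Q = 1`. Otherwise `F i i = 0` for `i = r - 1, N - r` (`s_i² ≠ 1`), `Q i i = 1/2` there, and `Q k k = 0` for the other `k` (`Q k k ≥ 0`, trace `1`): the sum is `(1/s_{r-1} + s_{r-1})/2`.
-/

set_option autoImplicit false

open Filter Topology Matrix

namespace Pool.Agent.Helper84.SPQ

open NI GN Pool.Agent.Helper90.RK Pool.Agent.Helper66.RK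

variable {G : Type} [Group G] {N : ℕ} {P : PH G N}

/-- The form in the basis of singular vectors. -/
noncomputable def Jh (S : Sv P) (Φ : MN N) (γ : G) : MN N := (S.kR γ)ᴴ * Φ * S.kR γ

section

variable (S : Sv P) {Φ : MN N} (h1 : Φᴴ = Φ) (h2 : Φ * Φ = 1) (h4 : ∀ g, (P.ι g)ᴴ * Φ * P.ι g = Φ)

private theorem kk (γ : G) : S.kR γ * (S.kR γ)ᴴ = 1 := mul_eq_one_comm.1 (S.uR γ)

include h1 in
theorem jh_star (γ : G) : (Jh S Φ γ)ᴴ = Jh S Φ γ := by
  simp only [Jh, conjTranspose_mul, conjTranspose_conjTranspose, h1, Matrix.mul_assoc]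

include h2 in
theorem jh_sq (γ : G) : Jh S Φ γ * Jh S Φ γ = 1 := by
  have e1 := kk S γ
  have e2 : (S.kR γ)ᴴ * S.kR γ = 1 := S.uR γ
  calc Jh S Φ γ * Jh S Φ γ = (S.kR γ)ᴴ * Φ * (S.kR γ * (S.kR γ)ᴴ) * (Φ * S.kR γ) := by
        simp only [Jh, Matrix.mul_assoc]
    _ = (S.kR γ)ᴴ * (Φ * Φ) * S.kR γ := by rw [e1, Matrix.mul_one]; simp only [Matrix.mul_assoc]
    _ = 1 := by rw [h2, Matrix.mul_one, e2]

include h4 in
theorem jh_m (g h γ : G) : (S.m g h γ)ᴴ * Jh S Φ γ * S.m g h γ = Jh S Φ (g⁻¹ * γ * h) := by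
  have e1 := kk S γ
  calc (S.m g h γ)ᴴ * Jh S Φ γ * S.m g h γ =
      (S.kR (g⁻¹ * γ * h))ᴴ * (P.ι h)ᴴ * (S.kR γ * (S.kR γ)ᴴ) * Φ * (S.kR γ * (S.kR γ)ᴴ) * P.ι h * S.kR (g⁻¹ * γ * h) := by
        simp only [Jh, Sv.m, conjTranspose_mul, conjTranspose_conjTranspose, Matrix.mul_assoc]
    _ = (S.kR (g⁻¹ * γ * h))ᴴ * ((P.ι h)ᴴ * Φ * P.ι h) * S.kR (g⁻¹ * γ * h) := by
        rw [e1, Matrix.mul_one, Matrix.mul_one]; simp only [Matrix.mul_assoc]
    _ = _ := by rw [h4]; rfl

include h2 h4 in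
theorem jh_supp (γ : G) (i j : Fin N) (h : Jh S Φ γ i j ≠ 0) : S.s γ i * S.s γ j = 1 := by
  have h1 := upq_gram h2 (h4 γ)
  rw [gram_eq S γ] at h1
  set K := S.kR γ with hK
  set D := diagonal (fun i => ((S.s γ i ^ 2 : ℝ) : ℂ)) with hD
  have hKu : Kᴴ * K = 1 := S.uR γ
  set F := Jh S Φ γ with hF
  have hF' : F = Kᴴ * Φ * K := rfl
  have e2 : D * F * D = F := by
    have h3 : Kᴴ * (K * D * Kᴴ * Φ * (K * D * Kᴴ)) * K = Kᴴ * Φ * K := by rw [h1]
    calc D * F * D = (Kᴴ * K) * D * Kᴴ * Φ * K * D * (Kᴴ * K) := by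
          rw [hKu, Matrix.one_mul, Matrix.mul_one, hF']; simp only [Matrix.mul_assoc]
      _ = Kᴴ * (K * D * Kᴴ * Φ * (K * D * Kᴴ)) * K := by simp only [Matrix.mul_assoc]
      _ = F := h3
  have h5 := congrFun (congrFun e2 i) j
  rw [mul_diagonal, diagonal_mul] at h5
  have h6 : ((1 : ℂ) - ((S.s γ i ^ 2 * S.s γ j ^ 2 : ℝ) : ℂ)) * F i j = 0 := by
    push_cast at h5 ⊢
    linear_combination -h5
  rcases mul_eq_zero.1 h6 with h7 | h7
  · have h8 : (1 : ℝ) - S.s γ i ^ 2 * S.s γ j ^ 2 = 0 := by exact_mod_cast h7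
    have h9 := mul_pos (S.pos γ i) (S.pos γ j)
    have h10 : (S.s γ i * S.s γ j - 1) * (S.s γ i * S.s γ j + 1) = 0 := by linear_combination -h8
    rcases mul_eq_zero.1 h10 with h11 | h11
    · linarith
    · linarith
  · exact absurd h7 h

include h2 h4 in
theorem mid_zero {r : ℕ} (hr : 2 ≤ r) (hN : 2 * r + 1 ≤ N) {i0 i1 : Fin N} (hi0 : (i0 : ℕ) = r - 1) (hi1 : (i1 : ℕ) = r - 2) (γ : G)
    (hgap : S.s γ i0 < S.s γ i1) (i j : Fin N) (hi : r - 1 ≤ (i : ℕ) ∧ (i : ℕ) ≤ N - r)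
    (hj : ¬ (r - 1 ≤ (j : ℕ) ∧ (j : ℕ) ≤ N - r)) : Jh S Φ γ i j = 0 ∧ Jh S Φ γ j i = 0 := by
  have key : S.s γ i * S.s γ j ≠ 1 := by
    intro hc
    have s0 := upq_symm h2 h4 S γ i0
    have hrev0 : (Fin.rev i0 : ℕ) = N - r := by rw [Fin.val_rev, hi0]; omega
    have p0 := S.pos γ i0
    have pi := S.pos γ i
    have pj := S.pos γ j
    by_cases hj1 : (j : ℕ) < r - 1
    · have a1 : S.s γ i1 ≤ S.s γ j := S.anti γ (Fin.le_def.2 (by omega))
      have a2 : S.s γ (Fin.rev i0) ≤ S.s γ i := S.anti γ (Fin.le_def.2 (by omega))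
      have pr := S.pos γ (Fin.rev i0)
      nlinarith
    · have hj2 : N - r < (j : ℕ) := by
        by_contra hcon
        exact hj ⟨by omega, by omega⟩
      have sj := upq_symm h2 h4 S γ j
      have hrevj : (Fin.rev j : ℕ) ≤ r - 2 := by rw [Fin.val_rev]; omega
      have a1 : S.s γ i1 ≤ S.s γ (Fin.rev j) := S.anti γ (Fin.le_def.2 (by omega))
      have a2 : S.s γ i ≤ S.s γ i0 := S.anti γ (Fin.le_def.2 (by omega))
      have : S.s γ j * S.s γ i < S.s γ j * S.s γ (Fin.rev j) := mul_lt_mul_of_pos_left (by linarith) pj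
      nlinarith
  constructor
  · by_contra hcon
    exact key (jh_supp S h2 h4 γ i j hcon)
  · by_contra hcon
    exact key (by rw [mul_comm]; exact jh_supp S h2 h4 γ j i hcon)

end

theorem rank_one {M : Type} [Fintype M] [DecidableEq M] (e : M) {Q : Matrix M M ℂ} (h1 : Qᴴ = Q) (h2 : Q * Q = Q)
    (h3 : Q.trace = 1) : ∃ κ : Matrix M M ℂ, κᴴ * κ = 1 ∧ κᴴ * Q * κ = Matrix.single e e 1 := by
  have hQ : Q.IsHermitian := h1
  set U : Matrix M M ℂ := (hQ.eigenvectorUnitary : Matrix M M ℂ) with hU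
  have hU1 : Uᴴ * U = 1 := Unitary.coe_star_mul_self hQ.eigenvectorUnitary
  have hU2 : U * Uᴴ = 1 := mul_eq_one_comm.1 hU1
  have hD : Uᴴ * Q * U = diagonal (fun i => ((hQ.eigenvalues i : ℝ) : ℂ)) := by
    have := hQ.conjStarAlgAut_star_eigenvectorUnitary
    rw [Unitary.conjStarAlgAut_apply] at this
    simp at this
    exact this
  have hl : ∀ i, hQ.eigenvalues i = 0 ∨ hQ.eigenvalues i = 1 := by
    intro i
    have e1 : (Uᴴ * Q * U) * (Uᴴ * Q * U) = Uᴴ * Q * U := by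
      calc (Uᴴ * Q * U) * (Uᴴ * Q * U) = Uᴴ * Q * (U * Uᴴ) * Q * U := by simp only [Matrix.mul_assoc]
        _ = Uᴴ * (Q * Q) * U := by rw [hU2, Matrix.mul_one]; simp only [Matrix.mul_assoc]
        _ = _ := by rw [h2]
    rw [hD, diagonal_mul_diagonal] at e1
    have e2 := congrFun (congrFun e1 i) i
    rw [diagonal_apply_eq, diagonal_apply_eq] at e2
    have e3 : hQ.eigenvalues i * hQ.eigenvalues i = hQ.eigenvalues i := by exact_mod_cast e2
    have e4 : hQ.eigenvalues i * (hQ.eigenvalues i - 1) = 0 := by linear_combination e3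
    rcases mul_eq_zero.1 e4 with h | h
    · exact Or.inl h
    · exact Or.inr (by linarith)
  have hsum : ∑ i, hQ.eigenvalues i = 1 := by
    have e1 : (Uᴴ * Q * U).trace = 1 := by
      rw [Matrix.trace_mul_comm, ← Matrix.mul_assoc, hU2, Matrix.one_mul, h3]
    rw [hD, trace_diagonal] at e1
    exact_mod_cast e1
  obtain ⟨k0, hk0⟩ : ∃ k0, hQ.eigenvalues k0 = 1 := by
    by_contra hcon
    push Not at hcon
    have : ∑ i, hQ.eigenvalues i = 0 := Finset.sum_eq_zero fun i _ => (hl i).resolve_right (hcon i)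
    rw [hsum] at this
    exact one_ne_zero this
  have hk : ∀ i, i ≠ k0 → hQ.eigenvalues i = 0 := by
    intro i hi
    have e1 : ∑ j ∈ Finset.univ.erase k0, hQ.eigenvalues j = 0 := by
      have := Finset.add_sum_erase Finset.univ hQ.eigenvalues (Finset.mem_univ k0)
      rw [hsum, hk0] at this
      linarith
    have e2 := (Finset.sum_eq_zero_iff_of_nonneg (fun j _ => by
      rcases hl j with h | h <;> (rw [h]; try norm_num))).1 e1
    exact e2 i (Finset.mem_erase.2 ⟨hi, Finset.mem_univ _⟩)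
  refine ⟨U.submatrix id (Equiv.swap k0 e), ?_, ?_⟩
  · have e1 : (U.submatrix id (Equiv.swap k0 e))ᴴ * U.submatrix id (Equiv.swap k0 e) =
        (Uᴴ * U).submatrix (Equiv.swap k0 e) (Equiv.swap k0 e) := by
      ext i j
      simp [Matrix.mul_apply]
    rw [e1, hU1, submatrix_one_equiv]
  · have e1 : (U.submatrix id (Equiv.swap k0 e))ᴴ * Q * U.submatrix id (Equiv.swap k0 e) =
        (Uᴴ * Q * U).submatrix (Equiv.swap k0 e) (Equiv.swap k0 e) := by
      ext i j
      simp [Matrix.mul_apply]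
    rw [e1, hD]
    ext i j
    rw [submatrix_apply, diagonal_apply, Matrix.single_apply]
    by_cases hij : i = j
    · subst hij
      rw [if_pos rfl]
      by_cases hie : e = i
      · subst hie
        rw [Equiv.swap_apply_right, hk0]
        simp
      · have : Equiv.swap k0 e i ≠ k0 := by
          intro hc
          apply hie
          have := congrArg (Equiv.swap k0 e) hc
          rw [Equiv.swap_apply_self, Equiv.swap_apply_left] at this
          exact this.symm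
        rw [hk _ this, if_neg (fun h => hie h.1)]
        simp
    · rw [if_neg (fun h => hij ((Equiv.swap k0 e).injective h)), if_neg (fun h => hij (h.1.symm.trans h.2))]

/-- The gauge at one element. -/
theorem gauge (S : Sv P) {Φ : MN N} (h1 : Φᴴ = Φ) (h2 : Φ * Φ = 1) (h4 : ∀ g, (P.ι g)ᴴ * Φ * P.ι g = Φ)
    {r : ℕ} (hr : 2 ≤ r) (hN : 2 * r + 1 ≤ N) {i0 i1 : Fin N} (hi0 : (i0 : ℕ) = r - 1) (hi1 : (i1 : ℕ) = r - 2) (h3 : Φ.trace = 2 * (r : ℂ) - N) (b : Fin N → ℕ) (γ : G)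
    (hb : ∀ i : Fin N, b i = b i0 ↔ (r - 1 ≤ (i : ℕ) ∧ (i : ℕ) ≤ N - r))
    (hgap : S.s γ i0 < S.s γ i1) (e : Bk b i0) :
    ∃ κ : Matrix (Bk b i0) (Bk b i0) ℂ, κᴴ * κ = 1 ∧
      κᴴ * res b i0 (Jh S Φ γ) * κ = J0 e ∧ fU e (gg κ κ (S.X γ)) = 0 ∧
      gg κ κ (S.X γ) e e = (((S.s γ i0 + (S.s γ i0)⁻¹) / 2 : ℝ) : ℂ) := by
  set F := Jh S Φ γ with hF
  have hrev0 : (Fin.rev i0 : ℕ) = N - r := by rw [Fin.val_rev, hi0]; omega
  have s0 := upq_symm h2 h4 S γ i0
  have p0 := S.pos γ i0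
  have pr := S.pos γ (Fin.rev i0)
  have hle0 : S.s γ (Fin.rev i0) ≤ S.s γ i0 := S.anti γ (Fin.le_def.2 (by omega))
  have h1s : 1 ≤ S.s γ i0 := by nlinarith
  have hrevinv : S.s γ (Fin.rev i0) = (S.s γ i0)⁻¹ := eq_inv_of_mul_eq_one_right s0
  -- diagonal entries outside of the middle
  have hout : ∀ k : Fin N, ¬ (r - 1 ≤ (k : ℕ) ∧ (k : ℕ) ≤ N - r) → F k k = 0 := by
    intro k hk
    by_contra hc
    have e1 := jh_supp S h2 h4 γ k k hc
    have pk := S.pos γ k
    by_cases hk1 : (k : ℕ) < r - 1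
    · have a1 : S.s γ i1 ≤ S.s γ k := S.anti γ (Fin.le_def.2 (by omega))
      nlinarith
    · have sk := upq_symm h2 h4 S γ k
      have hrevk : (Fin.rev k : ℕ) ≤ r - 2 := by
        rw [Fin.val_rev]
        have : ¬ (k : ℕ) ≤ N - r := fun h => hk ⟨by omega, h⟩
        omega
      have a1 : S.s γ i1 ≤ S.s γ (Fin.rev k) := S.anti γ (Fin.le_def.2 (by omega))
      nlinarith
  -- sums over the block
  have hsumb : ∀ f : Fin N → ℂ, (∀ k : Fin N, ¬ (r - 1 ≤ (k : ℕ) ∧ (k : ℕ) ≤ N - r) → f k = 0) →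
      ∑ k : Bk b i0, f k.1 = ∑ k, f k := by
    intro f hf
    have e1 : ∑ k ∈ Finset.univ.filter (fun i : Fin N => b i = b i0), f k = ∑ k : Bk b i0, f k.1 :=
      Finset.sum_subtype (Finset.univ.filter fun i : Fin N => b i = b i0)
        (p := fun i : Fin N => b i = b i0) (fun x => by simp) f
    rw [← e1, Finset.sum_filter]
    refine Finset.sum_congr rfl fun k _ => ?_
    by_cases hk : b k = b i0
    · rw [if_pos hk]
    · rw [if_neg hk, hf k (fun h => hk ((hb k).2 h))]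
  set R := res b i0 F with hR
  have hRs : Rᴴ = R := by
    ext i j
    have := congrFun (congrFun (jh_star S h1 γ) i.1) j.1
    exact this
  have hR2 : R * R = 1 := by
    ext i j
    have e1 := congrFun (congrFun (jh_sq S h2 γ) i.1) j.1
    rw [Matrix.mul_apply] at e1 ⊢
    have e2 : ∑ k : Bk b i0, R i k * R k j = ∑ k : Bk b i0, (fun k : Fin N => F i.1 k * F k j.1) k.1 := rfl
    rw [e2, hsumb (fun k : Fin N => F i.1 k * F k j.1) (fun (k : Fin N) hk => by
      have := (mid_zero S h2 h4 hr hN hi0 hi1 γ hgap i.1 k ((hb _).1 i.2) hk).1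
      show F i.1 k * F k j.1 = 0
      rw [hF, this, zero_mul])]
    refine e1.trans ?_
    by_cases hij : i = j
    · subst hij
      rw [one_apply_eq, one_apply_eq]
    · rw [one_apply_ne hij, one_apply_ne (fun h => hij (Subtype.ext h))]
  have hRt : R.trace = 2 * (r : ℂ) - N := by
    have e1 : R.trace = ∑ k : Bk b i0, (fun k : Fin N => F k k) k.1 := rfl
    rw [e1, hsumb (fun k : Fin N => F k k) hout]
    have e2 : ∑ k, F k k = F.trace := rfl
    rw [e2, hF]
    show ((S.kR γ)ᴴ * Φ * S.kR γ).trace = _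
    rw [Matrix.trace_mul_comm, ← Matrix.mul_assoc, kk S γ, Matrix.one_mul, h3]
  have hcard : (Fintype.card (Bk b i0) : ℂ) = N - 2 * r + 2 := by
    have e1 : Fintype.card (Bk b i0) = (Finset.Icc i0 (Fin.rev i0)).card := by
      rw [Fintype.card_subtype]
      congr 1
      ext i
      rw [Finset.mem_filter, Finset.mem_Icc, hb, Fin.le_def, Fin.le_def, hi0, hrev0]
      simp
    rw [Fin.card_Icc, hi0, hrev0] at e1
    have e2 : Fintype.card (Bk b i0) + 2 * r = N + 2 := by omega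
    have e3 : (Fintype.card (Bk b i0) : ℂ) + 2 * r = N + 2 := by exact_mod_cast e2
    linear_combination e3
  set Q : Matrix (Bk b i0) (Bk b i0) ℂ := (1 / 2 : ℂ) • (1 + R) with hQ
  have hQs : Qᴴ = Q := by
    rw [hQ, conjTranspose_smul, conjTranspose_add, conjTranspose_one, hRs]
    congr 1
    simp
  have hQ2 : Q * Q = Q := by
    rw [hQ, smul_mul_smul_comm, Matrix.add_mul, Matrix.mul_add, Matrix.mul_add, hR2, Matrix.one_mul, Matrix.one_mul, Matrix.mul_one]
    have : (1 + R + (R + 1) : Matrix (Bk b i0) (Bk b i0) ℂ) = (2 : ℂ) • (1 + R) := by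
      rw [two_smul]; abel
    rw [this, smul_smul]
    norm_num
  have hQt : Q.trace = 1 := by
    rw [hQ, trace_smul, trace_add, trace_one, hRt, hcard, smul_eq_mul]
    ring
  obtain ⟨κ, k1, k2⟩ := rank_one e hQs hQ2 hQt
  have k3 : κ * κᴴ = 1 := mul_eq_one_comm.1 k1
  have hRJ : κᴴ * R * κ = J0 e := by
    have e1 : R = (2 : ℂ) • Q - 1 := by
      rw [hQ, smul_smul]; norm_num
    rw [e1, Matrix.mul_sub, Matrix.sub_mul, Matrix.mul_smul, Matrix.smul_mul, k2, Matrix.mul_one, k1]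
    ext i j
    simp only [J0, Matrix.sub_apply, Matrix.smul_apply, Matrix.single_apply, diagonal_apply, one_apply, smul_eq_mul]
    by_cases hij : i = j
    · subst hij
      by_cases hie : i = e
      · subst hie; simp; norm_num
      · simp [hie, Ne.symm hie]
    · by_cases hie : e = i
      · subst hie
        simp [hij]
      · simp [hij, hie]
  set Xr := res b i0 (S.X γ) with hXr
  have hXd : Xr = diagonal fun i : Bk b i0 => ((S.s γ i.1)⁻¹ : ℂ) := by
    ext i j
    rw [hXr, res, submatrix_apply, Sv.X, diagonal_apply, diagonal_apply]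
    by_cases hij : i = j
    · subst hij; simp
    · rw [if_neg (fun h => hij (Subtype.ext h)), if_neg hij]
  have hXs : Xrᴴ = Xr := by
    rw [hXd, diagonal_conjTranspose]
    congr 1
    funext i
    simp
  have hXRX : Xr * R * Xr = R := by
    rw [hXd]
    ext i j
    rw [mul_diagonal, diagonal_mul]
    by_cases hc : F i.1 j.1 = 0
    · have : R i j = 0 := hc
      rw [this]; ring
    · have e1 := jh_supp S h2 h4 γ i.1 j.1 hc
      have e2 : ((S.s γ i.1 : ℝ) : ℂ) * ((S.s γ j.1 : ℝ) : ℂ) = 1 := by exact_mod_cast e1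
      have e3 : ((S.s γ i.1 : ℝ) : ℂ)⁻¹ * ((S.s γ j.1 : ℝ) : ℂ)⁻¹ = 1 := by
        rw [← mul_inv, e2, inv_one]
      linear_combination (R i j) * e3
  have hY : gg κ κ (S.X γ) = κᴴ * Xr * κ := rfl
  refine ⟨κ, k1, hRJ, ?_, ?_⟩
  · rw [fU_eq, hY, conjTranspose_mul, conjTranspose_mul, conjTranspose_conjTranspose, hXs, ← hRJ]
    calc κᴴ * (Xr * κ) * (κᴴ * R * κ) * (κᴴ * Xr * κ) = κᴴ * Xr * (κ * κᴴ) * R * (κ * κᴴ) * Xr * κ := by
          simp only [Matrix.mul_assoc]
      _ = κᴴ * (Xr * R * Xr) * κ := by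
          rw [k3, Matrix.mul_one, Matrix.mul_one]; simp only [Matrix.mul_assoc]
      _ = _ := by rw [hXRX]
  · have e1 : gg κ κ (S.X γ) e e = (Q * Xr).trace := by
      have a1 : (Matrix.single e e 1 * gg κ κ (S.X γ)).trace = gg κ κ (S.X γ) e e := by
        rw [Matrix.trace_single_mul]; simp
      rw [← a1, ← k2, hY]
      have a2 : κᴴ * Q * κ * (κᴴ * Xr * κ) = κᴴ * (Q * Xr * κ) := by
        calc κᴴ * Q * κ * (κᴴ * Xr * κ) = κᴴ * Q * (κ * κᴴ) * Xr * κ := by simp only [Matrix.mul_assoc]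
          _ = _ := by rw [k3, Matrix.mul_one]; simp only [Matrix.mul_assoc]
      rw [a2, Matrix.trace_mul_comm, Matrix.mul_assoc, k3, Matrix.mul_one]
    have e2 : (Q * Xr).trace = ∑ i : Bk b i0, Q i i * ((S.s γ i.1)⁻¹ : ℂ) := by
      rw [hXd, Matrix.trace]
      refine Finset.sum_congr rfl fun i _ => ?_
      rw [diag_apply, mul_diagonal]
    rw [e1, e2]
    have hQt' : ∑ i : Bk b i0, Q i i = 1 := hQt
    by_cases hs1 : S.s γ i0 = 1
    · have hall : ∀ i : Bk b i0, S.s γ i.1 = 1 := by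
        intro i
        have hi := (hb i.1).1 i.2
        have a1 : S.s γ (Fin.rev i0) ≤ S.s γ i.1 := S.anti γ (Fin.le_def.2 (by omega))
        have a2 : S.s γ i.1 ≤ S.s γ i0 := S.anti γ (Fin.le_def.2 (by omega))
        rw [hrevinv, hs1, inv_one] at a1
        rw [hs1] at a2
        exact le_antisymm a2 a1
      have : ∑ i : Bk b i0, Q i i * ((S.s γ i.1)⁻¹ : ℂ) = ∑ i : Bk b i0, Q i i := by
        refine Finset.sum_congr rfl fun i _ => ?_
        rw [hall i]; simp
      rw [this, hQt', hs1]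
      norm_num
    · -- `Q i i` is a nonnegative real number
      set q : Bk b i0 → ℝ := fun i => ∑ j, ‖Q i j‖ ^ 2 with hq
      have hQq : ∀ i, Q i i = (q i : ℂ) := by
        intro i
        have a1 := congrFun (congrFun hQ2 i) i
        rw [Matrix.mul_apply] at a1
        rw [← a1, hq]
        push_cast
        refine Finset.sum_congr rfl fun j _ => ?_
        have a2 : Q j i = star (Q i j) := by
          have := congrFun (congrFun hQs j) i
          rw [conjTranspose_apply] at this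
          exact this.symm
        rw [a2]
        exact (RCLike.mul_conj (Q i j))
      have hqn : ∀ i, 0 ≤ q i := fun i => Finset.sum_nonneg fun j _ => by positivity
      have hqs : ∑ i, q i = 1 := by
        have : ((∑ i, q i : ℝ) : ℂ) = 1 := by
          push_cast
          rw [← hQt']
          exact Finset.sum_congr rfl fun i _ => (hQq i).symm
        exact_mod_cast this
      have hne : S.s γ i0 * S.s γ i0 ≠ 1 := by
        intro hc
        apply hs1
        nlinarith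
      have d0 : F i0 i0 = 0 := by
        by_contra hc
        exact hne (jh_supp S h2 h4 γ i0 i0 hc)
      have d1 : F (Fin.rev i0) (Fin.rev i0) = 0 := by
        by_contra hc
        have := jh_supp S h2 h4 γ _ _ hc
        rw [hrevinv] at this
        apply hne
        have a3 : (S.s γ i0)⁻¹ * (S.s γ i0)⁻¹ * (S.s γ i0 * S.s γ i0) = 1 := by
          field_simp
        rw [this, one_mul] at a3
        exact a3
      set j0 : Bk b i0 := ⟨i0, rfl⟩ with hj0
      set j1 : Bk b i0 := ⟨Fin.rev i0, (hb _).2 (by omega)⟩ with hj1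
      have hj01 : j0 ≠ j1 := by
        intro hc
        have := congrArg (fun z : Bk b i0 => (z.1 : ℕ)) hc
        simp only [hj0, hj1] at this
        omega
      have q0 : q j0 = 1 / 2 := by
        have a1 : Q j0 j0 = 1 / 2 := by
          rw [hQ, Matrix.smul_apply, Matrix.add_apply, one_apply_eq]
          have : R j0 j0 = 0 := d0
          rw [this]; simp
        rw [hQq] at a1
        have a2 : ((q j0 : ℝ) : ℂ) = ((1 / 2 : ℝ) : ℂ) := by rw [a1]; norm_num
        exact_mod_cast a2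
      have q1 : q j1 = 1 / 2 := by
        have a1 : Q j1 j1 = 1 / 2 := by
          rw [hQ, Matrix.smul_apply, Matrix.add_apply, one_apply_eq]
          have : R j1 j1 = 0 := d1
          rw [this]; simp
        rw [hQq] at a1
        have a2 : ((q j1 : ℝ) : ℂ) = ((1 / 2 : ℝ) : ℂ) := by rw [a1]; norm_num
        exact_mod_cast a2
      have hrest : ∀ k : Bk b i0, k ≠ j0 → k ≠ j1 → q k = 0 := by
        intro k hk0 hk1
        have a1 : q k + (q j0 + q j1) ≤ ∑ i, q i := by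
          have : ∑ i ∈ ({k, j0, j1} : Finset (Bk b i0)), q i ≤ ∑ i, q i :=
            Finset.sum_le_sum_of_subset_of_nonneg (Finset.subset_univ _) (fun i _ _ => hqn i)
          rw [Finset.sum_insert (by simp [hk0, hk1]), Finset.sum_insert (by simp [hj01]), Finset.sum_singleton] at this
          exact this
        have := hqn k
        rw [hqs, q0, q1] at a1
        linarith
      have hfin : ∑ i : Bk b i0, Q i i * ((S.s γ i.1)⁻¹ : ℂ) =
          ∑ i ∈ ({j0, j1} : Finset (Bk b i0)), Q i i * ((S.s γ i.1)⁻¹ : ℂ) := by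
        symm
        refine Finset.sum_subset (Finset.subset_univ _) (fun i _ hi => ?_)
        rw [Finset.mem_insert, Finset.mem_singleton, not_or] at hi
        rw [hQq, hrest i hi.1 hi.2]
        simp
      rw [hfin, Finset.sum_insert (by simp [hj01]), Finset.sum_singleton, hQq, hQq, q0, q1]
      have a1 : S.s γ j1.1 = (S.s γ i0)⁻¹ := hrevinv
      have a2 : S.s γ j0.1 = S.s γ i0 := rfl
      rw [a1, a2]
      push_cast
      rw [inv_inv]
      ring

end Pool.Agent.Helper84.SPQ
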